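import Pool.Agent.LibM3.Defs

/-! Third moment, block N2: total mass of the twisted second moment weights. -/

set_option autoImplicit false

namespace Pool.Agent.LibM3

open MeasureTheory Set Filter Topology Complex ProbabilityTheory
open scoped NNReal ComplexConjugate
open Pool.Agent.LibZM

lemma n2_harm (N : ℕ) : Real.log N ≤ ∑ j ∈ Finset.Icc 1 N, (j:ℝ)⁻¹ := by
  rcases Nat.eq_zero_or_pos N with rfl | hN
  · simp
  have h := log_add_one_le_harmonic N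
  rw [harmonic_eq_sum_Icc] at h
  push_cast at h
  refine le_trans (Real.log_le_log (by exact_mod_cast hN) (by linarith)) h

lemma n2_inner {N h k : ℕ} (hh : h ∈ Finset.Icc 1 N) (hk : k ∈ Finset.Icc 1 N) :
    Real.log N * ((Nat.gcd h k : ℝ) / ((h:ℝ) * k)) ≤
      ∑ n ∈ Finset.Icc 1 (N ^ 3), (if h ∣ n ∧ k ∣ n then (n:ℝ)⁻¹ else 0) := by
  obtain ⟨hh1, hhN⟩ := Finset.mem_Icc.1 hh
  obtain ⟨hk1, hkN⟩ := Finset.mem_Icc.1 hk
  have hl : 0 < Nat.lcm h k := Nat.lcm_pos hh1 hk1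
  have hlN : Nat.lcm h k ≤ N ^ 2 := by
    have := Nat.le_of_dvd (Nat.mul_pos hh1 hk1) (Nat.lcm_dvd_mul h k)
    nlinarith [Nat.mul_le_mul hhN hkN]
  have hg : (Nat.gcd h k : ℝ) / ((h:ℝ) * k) = ((Nat.lcm h k : ℕ) : ℝ)⁻¹ := by
    have h1 : ((Nat.gcd h k * Nat.lcm h k : ℕ) : ℝ) = ((h * k : ℕ) : ℝ) := by rw [Nat.gcd_mul_lcm]
    push_cast at h1
    have h2 : ((Nat.lcm h k : ℕ) : ℝ) ≠ 0 := by exact_mod_cast hl.ne'
    have h3 : (h:ℝ) ≠ 0 := by exact_mod_cast (show h ≠ 0 by omega)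
    have h4 : (k:ℝ) ≠ 0 := by exact_mod_cast (show k ≠ 0 by omega)
    field_simp
    linarith
  rw [hg, ← Finset.sum_filter]
  calc Real.log N * ((Nat.lcm h k : ℕ) : ℝ)⁻¹
      ≤ (∑ j ∈ Finset.Icc 1 N, (j:ℝ)⁻¹) * ((Nat.lcm h k : ℕ) : ℝ)⁻¹ :=
        mul_le_mul_of_nonneg_right (n2_harm N) (by positivity)
    _ = ∑ j ∈ Finset.Icc 1 N, ((j * Nat.lcm h k : ℕ) : ℝ)⁻¹ := by
        rw [Finset.sum_mul]
        refine Finset.sum_congr rfl fun j _ => ?_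
        push_cast
        rw [mul_inv]
    _ = ∑ n ∈ (Finset.Icc 1 N).image (fun j => j * Nat.lcm h k), (n : ℝ)⁻¹ := by
        rw [Finset.sum_image]
        intro a _ b _ hab
        exact Nat.eq_of_mul_eq_mul_right hl hab
    _ ≤ _ := by
        refine Finset.sum_le_sum_of_subset_of_nonneg ?_ (fun _ _ _ => by positivity)
        intro n hn
        obtain ⟨j, hj, rfl⟩ := Finset.mem_image.1 hn
        obtain ⟨hj1, hjN⟩ := Finset.mem_Icc.1 hj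
        refine Finset.mem_filter.2 ⟨Finset.mem_Icc.2 ⟨Nat.mul_pos hj1 hl, ?_⟩, ?_, ?_⟩
        · calc j * Nat.lcm h k ≤ N * N ^ 2 := Nat.mul_le_mul hjN hlN
            _ = N ^ 3 := by ring
        · exact Dvd.dvd.mul_left (Nat.dvd_lcm_left h k) j
        · exact Dvd.dvd.mul_left (Nat.dvd_lcm_right h k) j

/-- `∑_{h,k≤N} β_h β_k (h,k)/(hk) · ∑_{j ≤ N} 1/j ≤ ∑_{n ≤ N³} τ_{3/2}(n)²/n`, with an arbitrary nonnegative weight `w h k`. -/
theorem sum_gk_unfold (N : ℕ) (w : ℕ → ℕ → ℝ) (hw : ∀ h k, 0 ≤ w h k) :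
    Real.log N * ∑ h ∈ Finset.Icc 1 N, ∑ k ∈ Finset.Icc 1 N, gk h k * w h k ≤
      ∑ n ∈ Finset.Icc 1 (N ^ 3), (∑ h ∈ n.divisors, ∑ k ∈ n.divisors, tau (1/2) h * tau (1/2) k * w h k) * (n:ℝ)⁻¹ := by
  have hF : ∀ h k, 0 ≤ tau (1/2) h * tau (1/2) k * w h k := fun h k =>
    mul_nonneg (mul_nonneg (tau_nonneg (by norm_num) _) (tau_nonneg (by norm_num) _)) (hw h k)
  have h1 : ∀ n ∈ Finset.Icc 1 (N ^ 3),
      (∑ h ∈ Finset.Icc 1 N, ∑ k ∈ Finset.Icc 1 N, (tau (1/2) h * tau (1/2) k * w h k) * (if h ∣ n ∧ k ∣ n then (n:ℝ)⁻¹ else 0)) ≤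
      (∑ h ∈ n.divisors, ∑ k ∈ n.divisors, tau (1/2) h * tau (1/2) k * w h k) * (n:ℝ)⁻¹ := by
    intro n hn
    obtain ⟨hn1, hnN⟩ := Finset.mem_Icc.1 hn
    rw [← Finset.sum_product', ← Finset.sum_product', Finset.sum_mul]
    have : ∀ p ∈ (Finset.Icc 1 N ×ˢ Finset.Icc 1 N),
        (tau (1/2) p.1 * tau (1/2) p.2 * w p.1 p.2) * (if p.1 ∣ n ∧ p.2 ∣ n then (n:ℝ)⁻¹ else 0) =
        (if p.1 ∣ n ∧ p.2 ∣ n then (tau (1/2) p.1 * tau (1/2) p.2 * w p.1 p.2) * (n:ℝ)⁻¹ else 0) := by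
      intro p _
      split_ifs <;> ring
    rw [Finset.sum_congr rfl this, ← Finset.sum_filter]
    refine Finset.sum_le_sum_of_subset_of_nonneg ?_ (fun p _ _ => mul_nonneg (hF _ _) (by positivity))
    intro p hp
    obtain ⟨_, hp1, hp2⟩ := Finset.mem_filter.1 hp
    exact Finset.mem_product.2 ⟨Nat.mem_divisors.2 ⟨hp1, by omega⟩, Nat.mem_divisors.2 ⟨hp2, by omega⟩⟩
  refine le_trans ?_ (Finset.sum_le_sum h1)
  rw [Finset.sum_comm (s := Finset.Icc 1 (N ^ 3)), Finset.mul_sum]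
  refine Finset.sum_le_sum fun h hh => ?_
  rw [Finset.sum_comm (s := Finset.Icc 1 (N ^ 3)), Finset.mul_sum]
  refine Finset.sum_le_sum fun k hk => ?_
  rw [← Finset.mul_sum]
  have h2 := mul_le_mul_of_nonneg_left (n2_inner hh hk) (hF h k)
  refine le_trans (le_of_eq ?_) h2
  unfold gk
  ring

lemma n2_zeta_le {σ : ℝ} (hσ : 1 < σ) : ∑' n : ℕ, 1 / (n:ℝ) ^ σ ≤ 1 / (σ - 1) + 1 + 4 * σ := by
  have h0 := norm_zeta1_le' (s := (σ:ℂ)) (by simp; linarith)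
  have hz := zeta_eq_tsum_one_div_nat_cpow (s := (σ:ℂ)) (by simpa using hσ)
  have hne : (σ:ℂ) ≠ 1 := by
    intro h
    have : σ = 1 := by exact_mod_cast h
    linarith
  have h1 : riemannZeta₁ (σ:ℂ) = (σ - 1) * riemannZeta σ := by
    have h2 : (σ:ℂ) - 1 ≠ 0 := sub_ne_zero.mpr hne
    rw [riemannZeta_eq_inv_sub_mul hne]
    field_simp
  have h2 : riemannZeta (σ:ℂ) = ((∑' n : ℕ, 1 / (n:ℝ) ^ σ : ℝ) : ℂ) := by
    rw [hz, Complex.ofReal_tsum]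
    refine tsum_congr fun n => ?_
    push_cast
    rw [Complex.ofReal_cpow (by positivity)]
    simp
  have hpos : 0 ≤ ∑' n : ℕ, 1 / (n:ℝ) ^ σ := tsum_nonneg fun n => by positivity
  rw [h1, h2, norm_mul, Complex.norm_real, Real.norm_eq_abs, abs_of_nonneg hpos] at h0
  have h3 : ‖(σ:ℂ) - 1‖ = σ - 1 := by
    rw [← Complex.ofReal_one, ← Complex.ofReal_sub, Complex.norm_real, Real.norm_eq_abs, abs_of_pos (by linarith)]
  have h4 : ‖(σ:ℂ)‖ = σ := by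
    rw [Complex.norm_real, Real.norm_eq_abs, abs_of_pos (by linarith)]
  rw [h3, h4] at h0
  have h5 : 0 < σ - 1 := by linarith
  have h6 : ∑' n : ℕ, 1 / (n:ℝ) ^ σ ≤ (1 + (σ - 1) * (1 + 4 * σ)) / (σ - 1) := by
    rw [le_div_iff₀ h5]; linarith
  refine le_trans h6 (le_of_eq ?_)
  field_simp
  ring

lemma n2_tau_sq_le {κ σ : ℝ} (hκ : 0 ≤ κ) (hσ : 1 < σ) :
    ∑' n : ℕ, tau κ n ^ 2 * (n:ℝ) ^ (-σ) ≤ (1 / (σ - 1) + 1 + 4 * σ) ^ (κ ^ 2) := by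
  rw [tsum_tau_sq_eq hκ hσ]
  have h1 : Real.exp (∑' p : Nat.Primes, Real.log (Efac κ ((p:ℝ) ^ (-σ)))) ≤ 1 := by
    rw [Real.exp_le_one_iff]
    refine tsum_nonpos fun p => ?_
    have hp := prime_rpow_mem hσ.le p
    exact Real.log_nonpos (Efac_pos hκ hp.1.le (by linarith [hp.2.1])).le (Efac_le_one hκ hp.1.le (by linarith [hp.2.1]))
  have hpos : 0 ≤ ∑' n : ℕ, 1 / (n:ℝ) ^ σ := tsum_nonneg fun n => by positivity
  calc (∑' n : ℕ, 1 / (n:ℝ) ^ σ) ^ (κ ^ 2) * Real.exp (∑' p : Nat.Primes, Real.log (Efac κ ((p:ℝ) ^ (-σ))))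
      ≤ (∑' n : ℕ, 1 / (n:ℝ) ^ σ) ^ (κ ^ 2) * 1 := by
        refine mul_le_mul_of_nonneg_left h1 (Real.rpow_nonneg hpos _)
    _ ≤ _ := by
        rw [mul_one]
        exact Real.rpow_le_rpow hpos (n2_zeta_le hσ) (by positivity)

lemma n2_rankin {n X : ℕ} (hn : 1 ≤ n) (hX : n ≤ X) (hX2 : 2 ≤ X) :
    (n:ℝ)⁻¹ ≤ Real.exp 1 * (n:ℝ) ^ (-(1 + 1 / Real.log X)) := by
  have hn0 : (0:ℝ) < n := by exact_mod_cast hn
  have hlX : 0 < Real.log X := Real.log_pos (by exact_mod_cast hX2)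
  rw [neg_add, Real.rpow_add hn0, Real.rpow_neg_one]
  have h1 : (n:ℝ) ^ (-(1 / Real.log X)) = Real.exp (-(Real.log n / Real.log X)) := by
    rw [Real.rpow_def_of_pos hn0]
    congr 1
    ring
  rw [h1]
  have h2 : Real.log n / Real.log X ≤ 1 := by
    rw [div_le_one hlX]
    exact Real.log_le_log hn0 (by exact_mod_cast hX)
  have h3 : 1 ≤ Real.exp 1 * Real.exp (-(Real.log n / Real.log X)) := by
    rw [← Real.exp_add]
    exact Real.one_le_exp (by linarith)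
  have h4 : 0 ≤ (n:ℝ)⁻¹ := by positivity
  nlinarith [mul_le_mul_of_nonneg_left h3 h4]

lemma n2_conv (n : ℕ) : ∑ h ∈ n.divisors, tau (1/2) h = tau (3/2) n := by
  have h1 : (tau (1/2) * tau 1) = tau (3/2) := by
    rw [tau_mul]; norm_num
  have h2 : (tau (1/2) * tau 1) n = ∑ h ∈ n.divisors, tau (1/2) h := by
    rw [ArithmeticFunction.mul_apply, Nat.sum_divisorsAntidiagonal (f := fun a b => tau (1/2) a * tau 1 b)]
    refine Finset.sum_congr rfl fun h hh => ?_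
    have hd : n / h ≠ 0 := by
      have := Nat.pos_of_mem_divisors hh
      have h3 := Nat.divisor_le hh
      exact (Nat.div_pos h3 this).ne'
    rw [tau_one_apply hd, mul_one]
  rw [← h2, h1]

theorem sum_gk_le : ∃ C : ℝ, 0 < C ∧ ∀ N : ℕ, 1 ≤ N →
    ∑ h ∈ Finset.Icc 1 N, ∑ k ∈ Finset.Icc 1 N, gk h k ≤ C * (1 + Real.log N) ^ (5/4 : ℝ) := by
  refine ⟨1 + Real.exp 1 * (7:ℝ) ^ (9/4:ℝ) * 3 ^ (9/4:ℝ) * 3, by positivity, fun N hN => ?_⟩
  rcases Nat.lt_or_ge N 2 with h2 | h2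
  · have : N = 1 := by omega
    subst this
    have h1 : gk 1 1 = 1 := by
      have h0 : tau (1/2) 1 = 1 := (tau_isMultiplicative (1/2)).map_one
      unfold gk
      rw [h0]
      norm_num
    simp only [Finset.Icc_self, Finset.sum_singleton, h1, Nat.cast_one, Real.log_one, add_zero, Real.one_rpow, mul_one]
    have : 0 ≤ Real.exp 1 * (7:ℝ) ^ (9/4:ℝ) * 3 ^ (9/4:ℝ) * 3 := by positivity
    linarith
  have hlog2 : (1/2:ℝ) ≤ Real.log 2 := by linarith [Real.log_two_gt_d9]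
  have hlN : (1/2:ℝ) ≤ Real.log N := hlog2.trans (Real.log_le_log (by norm_num) (by exact_mod_cast h2))
  have hX2 : 2 ≤ N ^ 3 := h2.trans (Nat.le_self_pow (by norm_num) N)
  have hlX : Real.log ((N ^ 3 : ℕ) : ℝ) = 3 * Real.log N := by
    push_cast
    rw [Real.log_pow]
    norm_num
  have h3 := sum_gk_unfold N (fun _ _ => 1) (fun _ _ => zero_le_one)
  simp only [mul_one] at h3
  have h4 : ∀ n : ℕ, (∑ h ∈ n.divisors, ∑ k ∈ n.divisors, tau (1/2) h * tau (1/2) k) = tau (3/2) n ^ 2 := by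
    intro n
    rw [← Finset.sum_mul_sum, n2_conv, sq]
  simp only [h4] at h3
  set σ : ℝ := 1 + 1 / Real.log ((N ^ 3 : ℕ) : ℝ) with hσd
  have hσ : 1 < σ := by
    rw [hσd, hlX]
    have : 0 < 1 / (3 * Real.log N) := by positivity
    linarith
  have h5 : ∑ n ∈ Finset.Icc 1 (N ^ 3), tau (3/2) n ^ 2 * (n:ℝ)⁻¹ ≤
      Real.exp 1 * ∑' n : ℕ, tau (3/2) n ^ 2 * (n:ℝ) ^ (-σ) := by
    have hs := summable_tau_sq (κ := 3/2) (by norm_num) hσ
    calc ∑ n ∈ Finset.Icc 1 (N ^ 3), tau (3/2) n ^ 2 * (n:ℝ)⁻¹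
        ≤ ∑ n ∈ Finset.Icc 1 (N ^ 3), Real.exp 1 * (tau (3/2) n ^ 2 * (n:ℝ) ^ (-σ)) := by
          refine Finset.sum_le_sum fun n hn => ?_
          obtain ⟨hn1, hnN⟩ := Finset.mem_Icc.1 hn
          have := mul_le_mul_of_nonneg_left (n2_rankin hn1 hnN hX2) (sq_nonneg (tau (3/2) n))
          calc _ ≤ _ := this
            _ = _ := by ring
      _ = Real.exp 1 * ∑ n ∈ Finset.Icc 1 (N ^ 3), (tau (3/2) n ^ 2 * (n:ℝ) ^ (-σ)) := by rw [Finset.mul_sum]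
      _ ≤ _ := by
          refine mul_le_mul_of_nonneg_left ?_ (by positivity)
          exact hs.sum_le_tsum _ (fun n _ => by positivity)
  have h6 := n2_tau_sq_le (κ := 3/2) (σ := σ) (by norm_num) hσ
  have h7 : 1 / (σ - 1) + 1 + 4 * σ ≤ 7 * (3 * (1 + Real.log N)) := by
    have e1 : 1 / (σ - 1) = 3 * Real.log N := by
      rw [hσd, hlX]
      have : Real.log N ≠ 0 := by linarith
      field_simp
      ring
    have e2 : σ ≤ 2 := by
      rw [hσd, hlX]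
      have : 1 / (3 * Real.log N) ≤ 1 := by
        rw [div_le_one (by positivity)]
        linarith
      linarith
    rw [e1]
    linarith
  have h8 : (1 / (σ - 1) + 1 + 4 * σ) ^ ((3/2:ℝ) ^ 2) ≤ 7 ^ (9/4:ℝ) * 3 ^ (9/4:ℝ) * (1 + Real.log N) ^ (9/4:ℝ) := by
    have e0 : ((3/2:ℝ) ^ 2) = 9/4 := by norm_num
    rw [e0]
    have e1 : 0 < σ - 1 := by linarith
    refine (Real.rpow_le_rpow (by positivity) h7 (by norm_num)).trans (le_of_eq ?_)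
    rw [Real.mul_rpow (by norm_num) (by positivity), Real.mul_rpow (by norm_num) (by positivity)]
    ring
  have h9 : Real.log N * ∑ h ∈ Finset.Icc 1 N, ∑ k ∈ Finset.Icc 1 N, gk h k ≤
      Real.exp 1 * (7 ^ (9/4:ℝ) * 3 ^ (9/4:ℝ) * (1 + Real.log N) ^ (9/4:ℝ)) :=
    h3.trans (h5.trans (mul_le_mul_of_nonneg_left (h6.trans h8) (by positivity)))
  have h10 : (1 + Real.log N) ^ (9/4:ℝ) = (1 + Real.log N) ^ (5/4:ℝ) * (1 + Real.log N) := by
    rw [← Real.rpow_add_one (by positivity)]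
    norm_num
  have h11 : 1 + Real.log N ≤ 3 * Real.log N := by linarith
  have hB : 0 ≤ Real.exp 1 * (7:ℝ) ^ (9/4:ℝ) * 3 ^ (9/4:ℝ) * (1 + Real.log N) ^ (5/4:ℝ) := by positivity
  have h12 : Real.log N * ∑ h ∈ Finset.Icc 1 N, ∑ k ∈ Finset.Icc 1 N, gk h k ≤
      Real.log N * (Real.exp 1 * (7:ℝ) ^ (9/4:ℝ) * 3 ^ (9/4:ℝ) * 3 * (1 + Real.log N) ^ (5/4:ℝ)) := by
    refine h9.trans ?_
    rw [h10]
    have := mul_le_mul_of_nonneg_left h11 hB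
    calc _ = Real.exp 1 * (7:ℝ) ^ (9/4:ℝ) * 3 ^ (9/4:ℝ) * (1 + Real.log N) ^ (5/4:ℝ) * (1 + Real.log N) := by ring
      _ ≤ _ := this
      _ = _ := by ring
  have h13 := le_of_mul_le_mul_left h12 (by linarith)
  have h14 : 0 ≤ (1 + Real.log N) ^ (5/4:ℝ) := by positivity
  linarith

end Pool.Agent.LibM3
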