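import Pool.Agent.LibM3.A1

/-! Third moment, block Q1: oscillatory integrals over the window. -/

set_option autoImplicit false

namespace Pool.Agent.LibM3

open MeasureTheory Set Filter Topology Complex ProbabilityTheory
open scoped NNReal ComplexConjugate
open Pool.Agent.LibZM

/-- two integrations by parts -/
theorem q1_ibp {a b : ℝ} (hab : a ≤ b) (A0 A1 A2 : ℝ → ℝ)
    (h0 : ∀ t ∈ Icc a b, HasDerivAt A0 (A1 t) t) (h1 : ∀ t ∈ Icc a b, HasDerivAt A1 (A2 t) t)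
    (h2 : ContinuousOn A2 (Icc a b)) {l : ℝ} (hl : l ≠ 0) :
    ‖∫ t in a..b, ((A0 t : ℝ) : ℂ) * cexp (-(((l * t : ℝ) : ℂ) * I))‖ ≤
      (|A0 a| + |A0 b|) / |l| + (|A1 a| + |A1 b| + ∫ t in a..b, |A2 t|) / l ^ 2 := by
  set e : ℝ → ℂ := fun t => cexp (-(((l * t : ℝ) : ℂ) * I)) with he
  set c : ℂ := -((l : ℂ) * I) with hc
  have hc0 : c ≠ 0 := by simp [hc, hl]
  have hcn : ‖c‖ = |l| := by simp [hc]
  have hen : ∀ t, ‖e t‖ = 1 := by
    intro t
    rw [he]
    simp [Complex.norm_exp]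
  have hed : ∀ t, HasDerivAt e (c * e t) t := by
    intro t
    have h3 : HasDerivAt (fun t : ℝ => -(((l * t : ℝ) : ℂ) * I)) c t := by
      have h4 : HasDerivAt (fun t : ℝ => ((l * t : ℝ) : ℂ)) ((l * 1 : ℝ) : ℂ) t :=
        ((hasDerivAt_id t).const_mul l).ofReal_comp
      have h5 : HasDerivAt (fun t : ℝ => -(((l * t : ℝ) : ℂ) * I)) (-(((l * 1 : ℝ) : ℂ) * I)) t :=
        (h4.mul_const I).neg
      exact h5.congr_deriv (by rw [hc, mul_one])
    have h6 := h3.cexp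
    rw [mul_comm] at h6
    exact h6
  have hvd : ∀ t, HasDerivAt (fun t => e t / c) (e t) t := by
    intro t
    have := (hed t).div_const c
    rwa [mul_div_cancel_left₀ _ hc0] at this
  have hv2d : ∀ t, HasDerivAt (fun t => e t / c / c) (e t / c) t := by
    intro t
    exact (hvd t).div_const c
  have hec : Continuous e := continuous_iff_continuousAt.2 fun t => (hed t).continuousAt
  have huI : uIcc a b = Icc a b := uIcc_of_le hab
  have hA1c : ContinuousOn A1 (Icc a b) := fun t ht => (h1 t ht).continuousAt.continuousWithinAt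
  have i1 : IntervalIntegrable (fun t => ((A1 t : ℝ) : ℂ)) volume a b := by
    apply ContinuousOn.intervalIntegrable
    rw [huI]
    exact Complex.continuous_ofReal.comp_continuousOn hA1c
  have i2 : IntervalIntegrable (fun t => ((A2 t : ℝ) : ℂ)) volume a b := by
    apply ContinuousOn.intervalIntegrable
    rw [huI]
    exact Complex.continuous_ofReal.comp_continuousOn h2
  have p1 := intervalIntegral.integral_mul_deriv_eq_deriv_mul (a := a) (b := b)
    (u := fun t => ((A0 t : ℝ) : ℂ)) (u' := fun t => ((A1 t : ℝ) : ℂ))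
    (v := fun t => e t / c) (v' := e)
    (fun t ht => (h0 t (huI ▸ ht)).ofReal_comp) (fun t _ => hvd t) i1 (hec.intervalIntegrable _ _)
  have p2 := intervalIntegral.integral_mul_deriv_eq_deriv_mul (a := a) (b := b)
    (u := fun t => ((A1 t : ℝ) : ℂ)) (u' := fun t => ((A2 t : ℝ) : ℂ))
    (v := fun t => e t / c / c) (v' := fun t => e t / c)
    (fun t ht => (h1 t (huI ▸ ht)).ofReal_comp) (fun t _ => hv2d t) i2
    ((hec.div_const c).intervalIntegrable _ _)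
  have n1 : ∀ t, ‖e t / c‖ = 1 / |l| := fun t => by rw [norm_div, hen, hcn]
  have n2 : ∀ t, ‖e t / c / c‖ = 1 / l ^ 2 := fun t => by
    rw [norm_div, n1, hcn, div_div, abs_mul_abs_self, sq]
  have n3 : ‖∫ t in a..b, ((A2 t : ℝ) : ℂ) * (e t / c / c)‖ ≤ (∫ t in a..b, |A2 t|) * (1 / l ^ 2) := by
    rw [← intervalIntegral.integral_mul_const]
    refine (intervalIntegral.norm_integral_le_integral_norm hab).trans_eq ?_
    apply intervalIntegral.integral_congr
    intro t _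
    simp only
    rw [norm_mul, n2, Complex.norm_real, Real.norm_eq_abs]
  have n4 : ‖∫ t in a..b, ((A1 t : ℝ) : ℂ) * (e t / c)‖ ≤
      (|A1 a| + |A1 b| + ∫ t in a..b, |A2 t|) / l ^ 2 := by
    rw [p2]
    refine (norm_sub_le _ _).trans ?_
    have h5 := norm_sub_le (((A1 b : ℝ) : ℂ) * (e b / c / c)) (((A1 a : ℝ) : ℂ) * (e a / c / c))
    rw [norm_mul, norm_mul, n2, n2, Complex.norm_real, Complex.norm_real, Real.norm_eq_abs,
      Real.norm_eq_abs] at h5
    calc _ ≤ (|A1 b| * (1 / l ^ 2) + |A1 a| * (1 / l ^ 2)) + (∫ t in a..b, |A2 t|) * (1 / l ^ 2) :=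
          add_le_add h5 n3
      _ = _ := by ring
  have goal_eq : (∫ t in a..b, ((A0 t : ℝ) : ℂ) * cexp (-(((l * t : ℝ) : ℂ) * I))) =
      ∫ t in a..b, ((A0 t : ℝ) : ℂ) * e t := rfl
  rw [goal_eq, p1]
  refine (norm_sub_le _ _).trans ?_
  have h5 := norm_sub_le (((A0 b : ℝ) : ℂ) * (e b / c)) (((A0 a : ℝ) : ℂ) * (e a / c))
  rw [norm_mul, norm_mul, n1, n1, Complex.norm_real, Complex.norm_real, Real.norm_eq_abs,
    Real.norm_eq_abs] at h5
  calc _ ≤ (|A0 b| * (1 / |l|) + |A0 a| * (1 / |l|)) +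
        (|A1 a| + |A1 b| + ∫ t in a..b, |A2 t|) / l ^ 2 := add_le_add h5 n4
    _ = _ := by ring

theorem q1_window {v : ℝ≥0} (hv : v ≠ 0) (u : ℝ) {a b : ℝ} (hab : a ≤ b) (f : ℝ → ℂ) :
    ∫ t in Icc a b, f t ∂(gaussianReal u v) =
      ∫ t in a..b, ((gaussianPDFReal u v t : ℝ) : ℂ) * f t := by
  rw [← integral_indicator measurableSet_Icc, integral_gaussianReal_eq_integral_smul hv,
    intervalIntegral.integral_of_le hab, ← integral_Icc_eq_integral_Ioc,
    ← integral_indicator measurableSet_Icc]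
  congr 1
  ext t
  by_cases h : t ∈ Icc a b
  · rw [indicator_of_mem h, indicator_of_mem h, Complex.real_smul]
  · rw [indicator_of_notMem h, indicator_of_notMem h, smul_zero]

/-- the density of `N(0,2)` -/
noncomputable def q1_phi (l : ℝ) : ℝ := 1 / (2 * √Real.pi) * Real.exp (-l ^ 2 / 4)

theorem q1_phi_pos (l : ℝ) : 0 < q1_phi l := by
  unfold q1_phi
  have := Real.pi_pos
  positivity

theorem q1_phi_le (l : ℝ) : q1_phi l * (|l| / 2 + 1) ≤ Real.exp 21 * min 1 (Real.exp (4 * l)) := by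
  have h1 : 1 / (2 * √Real.pi) ≤ 1 := by
    have h2 : 1 ≤ √Real.pi := by
      rw [Real.one_le_sqrt]; linarith [Real.pi_gt_three]
    rw [div_le_one (by positivity)]
    linarith
  have h3 : |l| / 2 + 1 ≤ Real.exp (|l| / 2) := Real.add_one_le_exp _
  have h4 : q1_phi l * (|l| / 2 + 1) ≤ Real.exp (-l ^ 2 / 4 + |l| / 2) := by
    rw [Real.exp_add]
    unfold q1_phi
    have h5 : 0 ≤ |l| / 2 + 1 := by positivity
    calc 1 / (2 * √Real.pi) * Real.exp (-l ^ 2 / 4) * (|l| / 2 + 1) ≤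
          1 * Real.exp (-l ^ 2 / 4) * Real.exp (|l| / 2) := by gcongr
      _ = _ := by ring
  refine h4.trans ?_
  rcases le_total 1 (Real.exp (4 * l)) with h | h
  · rw [min_eq_left h, mul_one]
    apply Real.exp_le_exp.2
    nlinarith [sq_abs l, sq_nonneg (|l| - 1)]
  · rw [min_eq_right h, ← Real.exp_add]
    apply Real.exp_le_exp.2
    have h6 : -l ≤ |l| := neg_le_abs l
    nlinarith [sq_abs l, sq_nonneg (|l| - 9)]

theorem q1_hasDerivAt_phi (l : ℝ) : HasDerivAt q1_phi (-(l / 2) * q1_phi l) l := by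
  unfold q1_phi
  have h1 : HasDerivAt (fun l : ℝ => -l ^ 2 / 4) (-(l / 2)) l := by
    have h0 : HasDerivAt (fun l : ℝ => -l ^ 2 / 4) (-((2 : ℕ) * l ^ (2 - 1)) / 4) l :=
      ((hasDerivAt_pow 2 l).neg).div_const 4
    exact h0.congr_deriv (by norm_num; ring)
  have h2 := (h1.exp).const_mul (1 / (2 * √Real.pi))
  exact h2.congr_deriv (by ring)

/-- the logarithmic variable -/
noncomputable def q1_lam (x t : ℝ) : ℝ := Real.log (t / (2 * Real.pi)) - Real.log x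

theorem q1_hasDerivAt_lam (x : ℝ) {t : ℝ} (ht : 0 < t) : HasDerivAt (q1_lam x) (1 / t) t := by
  unfold q1_lam
  have hpi := Real.pi_pos
  have h1 : HasDerivAt (fun t : ℝ => t / (2 * Real.pi)) (1 / (2 * Real.pi)) t :=
    (hasDerivAt_id t).div_const _
  have h2 := (h1.log (by positivity)).sub_const (Real.log x)
  exact h2.congr_deriv (by field_simp)

theorem q1_exp_lam {T x t : ℝ} (hx : 0 < x) (ht : 0 < t) (htT : t ≤ 2 * T) :
    min 1 (Real.exp (4 * q1_lam x t)) ≤ min 1 ((T / x) ^ 4) := by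
  have hpi := Real.pi_gt_three
  apply min_le_min le_rfl
  have h1 : Real.exp (q1_lam x t) = t / (2 * Real.pi) / x := by
    unfold q1_lam
    rw [Real.exp_sub, Real.exp_log (by positivity), Real.exp_log hx]
  have h2 : Real.exp (4 * q1_lam x t) = (t / (2 * Real.pi) / x) ^ 4 := by
    rw [← h1, ← Real.exp_nat_mul]; norm_num
  rw [h2]
  have h3 : t / (2 * Real.pi) ≤ T := by
    rw [div_le_iff₀ (by positivity)]
    nlinarith
  gcongr

/-- second derivative of `PhR ∘ lam` -/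
noncomputable def q1_F1 (x t : ℝ) : ℝ := q1_phi (q1_lam x t) * (1 / t)

noncomputable def q1_F2 (x t : ℝ) : ℝ :=
  -(q1_lam x t / 2 + 1) * q1_phi (q1_lam x t) * (1 / t) ^ 2

theorem q1_hasDerivAt_F0 (x : ℝ) {t : ℝ} (ht : 0 < t) :
    HasDerivAt (fun t => PhR (q1_lam x t)) (q1_F1 x t) t :=
  (hasDerivAt_PhR (q1_lam x t)).comp t (q1_hasDerivAt_lam x ht)

theorem q1_hasDerivAt_F1 (x : ℝ) {t : ℝ} (ht : 0 < t) :
    HasDerivAt (q1_F1 x) (q1_F2 x t) t := by
  have h1 := (q1_hasDerivAt_phi (q1_lam x t)).comp t (q1_hasDerivAt_lam x ht)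
  have h2 : HasDerivAt (fun t : ℝ => 1 / t) (-(1 / t) ^ 2) t := by
    have h0 := hasDerivAt_inv ht.ne'
    simp only [one_div]
    exact h0.congr_deriv (by rw [inv_pow])
  have h3 : HasDerivAt (q1_F1 x) _ t := h1.mul h2
  refine h3.congr_deriv ?_
  unfold q1_F2
  simp only [Function.comp_apply]
  ring

theorem q1_F_le {C0 T x t : ℝ} (hC0 : Real.exp 21 ≤ C0) (hx : 0 < x) (ht : 0 < t)
    (htT : t ≤ 2 * T) :
    |q1_F1 x t| ≤ C0 * min 1 ((T / x) ^ 4) * (1 / t) ∧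
      |q1_F2 x t| ≤ C0 * min 1 ((T / x) ^ 4) * (1 / t) ^ 2 := by
  have h1 := q1_phi_le (q1_lam x t)
  have h2 := q1_exp_lam hx ht htT
  have h3 : q1_phi (q1_lam x t) * (|q1_lam x t| / 2 + 1) ≤ C0 * min 1 ((T / x) ^ 4) := by
    refine h1.trans ?_
    have : 0 ≤ min 1 (Real.exp (4 * q1_lam x t)) := le_min zero_le_one (Real.exp_pos _).le
    have h5 := Real.exp_pos 21
    exact mul_le_mul hC0 h2 this (h5.le.trans hC0)
  have hp := q1_phi_pos (q1_lam x t)
  constructor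
  · unfold q1_F1
    rw [abs_mul, abs_of_pos hp, abs_of_pos (by positivity : 0 < 1 / t)]
    have h4 : q1_phi (q1_lam x t) ≤ q1_phi (q1_lam x t) * (|q1_lam x t| / 2 + 1) := by
      nlinarith [abs_nonneg (q1_lam x t)]
    exact mul_le_mul_of_nonneg_right (h4.trans h3) (by positivity)
  · unfold q1_F2
    rw [abs_mul, abs_mul, abs_neg, abs_of_pos hp, abs_of_pos (by positivity : 0 < (1 / t) ^ 2)]
    have h4 : |q1_lam x t / 2 + 1| ≤ |q1_lam x t| / 2 + 1 := by
      refine (abs_add_le _ _).trans ?_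
      rw [abs_div, abs_one, abs_two]
    have h5 : |q1_lam x t / 2 + 1| * q1_phi (q1_lam x t) ≤ C0 * min 1 ((T / x) ^ 4) :=
      calc |q1_lam x t / 2 + 1| * q1_phi (q1_lam x t) ≤
          (|q1_lam x t| / 2 + 1) * q1_phi (q1_lam x t) := by gcongr
      _ ≤ _ := by rw [mul_comm]; exact h3
    exact mul_le_mul_of_nonneg_right h5 (by positivity)

/-- the density -/
noncomputable def q1_g (u H t : ℝ) : ℝ := (√(2 * Real.pi * H ^ 2))⁻¹ * Real.exp (-(t - u) ^ 2 / (2 * H ^ 2))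

noncomputable def q1_g1 (u H t : ℝ) : ℝ := -((t - u) / H ^ 2) * q1_g u H t

noncomputable def q1_g2 (u H t : ℝ) : ℝ := ((t - u) ^ 2 / H ^ 4 - 1 / H ^ 2) * q1_g u H t

theorem q1_g_eq (u : ℝ) {H : ℝ} (t : ℝ) :
    gaussianPDFReal u (Real.toNNReal (H ^ 2)) t = q1_g u H t := by
  rw [gaussianPDFReal_def, q1_g, Real.coe_toNNReal _ (sq_nonneg H)]

theorem q1_g_pos (u : ℝ) {H : ℝ} (hH : 0 < H) (t : ℝ) : 0 < q1_g u H t := by
  have := Real.pi_pos
  unfold q1_g; positivity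

theorem q1_hasDerivAt_g (u : ℝ) {H : ℝ} (hH : 0 < H) (t : ℝ) :
    HasDerivAt (q1_g u H) (q1_g1 u H t) t := by
  unfold q1_g1 q1_g
  have h1 : HasDerivAt (fun t : ℝ => -(t - u) ^ 2 / (2 * H ^ 2)) (-((t - u) / H ^ 2)) t := by
    have h2 : HasDerivAt (fun t : ℝ => -(t - u) ^ 2 / (2 * H ^ 2)) _ t :=
      ((((hasDerivAt_id t).sub_const u).pow 2).neg).div_const (2 * H ^ 2)
    refine h2.congr_deriv ?_
    simp
    field_simp
  have h3 := (h1.exp).const_mul ((√(2 * Real.pi * H ^ 2))⁻¹)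
  exact h3.congr_deriv (by ring)

theorem q1_hasDerivAt_g1 (u : ℝ) {H : ℝ} (hH : 0 < H) (t : ℝ) :
    HasDerivAt (q1_g1 u H) (q1_g2 u H t) t := by
  have h1 : HasDerivAt (fun t : ℝ => -((t - u) / H ^ 2)) (-(1 / H ^ 2)) t :=
    ((((hasDerivAt_id t).sub_const u)).div_const (H ^ 2)).neg
  have h2 : HasDerivAt (q1_g1 u H) _ t := h1.mul (q1_hasDerivAt_g u hH t)
  refine h2.congr_deriv ?_
  unfold q1_g2 q1_g1
  field_simp
  ring

theorem q1_g_le {u H t : ℝ} (hH : 1 ≤ H) {T : ℝ} (hu : 0 < u) (ht : u / 2 ≤ |t - u|)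
    (hg : Real.exp (-(u ^ 2 / (8 * H ^ 2))) ≤ 1 / T) : q1_g u H t ≤ 1 / H * (1 / T) := by
  have hpi := Real.pi_gt_three
  unfold q1_g
  have hH0 : 0 < H := by linarith
  have h1 : (√(2 * Real.pi * H ^ 2))⁻¹ ≤ 1 / H := by
    rw [one_div]
    apply inv_anti₀ hH0
    apply Real.le_sqrt_of_sq_le
    nlinarith [sq_nonneg H, pow_pos hH0 2]
  have h2 : Real.exp (-(t - u) ^ 2 / (2 * H ^ 2)) ≤ Real.exp (-(u ^ 2 / (8 * H ^ 2))) := by
    apply Real.exp_le_exp.2
    have h3 : (u / 2) ^ 2 ≤ (t - u) ^ 2 := by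
      rw [← sq_abs (t - u)]; gcongr
    rw [neg_div, neg_le_neg_iff]
    rw [div_le_div_iff₀ (by positivity) (by positivity)]
    nlinarith [pow_pos hH0 2]
  exact mul_le_mul h1 (h2.trans hg) (Real.exp_pos _).le (by positivity)

theorem q1_second_moment (u : ℝ) {H : ℝ} (hH : 0 < H) :
    Integrable (fun t => q1_g u H t) ∧ ∫ t, q1_g u H t = 1 ∧
    Integrable (fun t => q1_g u H t * (t - u) ^ 2) ∧ ∫ t, q1_g u H t * (t - u) ^ 2 = H ^ 2 := by
  have hv : Real.toNNReal (H ^ 2) ≠ 0 := by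
    intro h
    rw [Real.toNNReal_eq_zero] at h
    have := pow_pos hH 2
    linarith
  have e : (fun t => q1_g u H t) = gaussianPDFReal u (Real.toNNReal (H ^ 2)) := by
    ext t; rw [q1_g_eq]
  have h2 : ∫ t, q1_g u H t * (t - u) ^ 2 = H ^ 2 := by
    have h3 : Var[fun x => x; gaussianReal u (Real.toNNReal (H ^ 2))] =
        (Real.toNNReal (H ^ 2) : ℝ) := variance_fun_id_gaussianReal
    rw [variance_eq_integral (by fun_prop), integral_id_gaussianReal,
      integral_gaussianReal_eq_integral_smul hv, Real.coe_toNNReal _ (sq_nonneg H)] at h3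
    rw [← h3]
    congr 1
    ext t
    rw [q1_g_eq, smul_eq_mul]
  refine ⟨e ▸ integrable_gaussianPDFReal _ _, ?_, ?_, h2⟩
  · rw [e]; exact integral_gaussianPDFReal_eq_one _ hv
  · by_contra h
    rw [integral_undef h] at h2
    have := pow_pos hH 2
    linarith


noncomputable def q1_A0 (x u H t : ℝ) : ℝ := PhR (q1_lam x t) * q1_g u H t

noncomputable def q1_A1 (x u H t : ℝ) : ℝ :=
  q1_F1 x t * q1_g u H t + PhR (q1_lam x t) * q1_g1 u H t

noncomputable def q1_A2 (x u H t : ℝ) : ℝ :=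
  (q1_F2 x t * q1_g u H t + q1_F1 x t * q1_g1 u H t) +
    (q1_F1 x t * q1_g1 u H t + PhR (q1_lam x t) * q1_g2 u H t)

theorem q1_hasDerivAt_A0 (x u : ℝ) {H t : ℝ} (hH : 0 < H) (ht : 0 < t) :
    HasDerivAt (q1_A0 x u H) (q1_A1 x u H t) t :=
  (q1_hasDerivAt_F0 x ht).mul (q1_hasDerivAt_g u hH t)

theorem q1_hasDerivAt_A1 (x u : ℝ) {H t : ℝ} (hH : 0 < H) (ht : 0 < t) :
    HasDerivAt (q1_A1 x u H) (q1_A2 x u H t) t :=
  ((q1_hasDerivAt_F1 x ht).mul (q1_hasDerivAt_g u hH t)).add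
    ((q1_hasDerivAt_F0 x ht).mul (q1_hasDerivAt_g1 u hH t))

theorem q1_contA2 (x u : ℝ) {H a b : ℝ} (hH : 0 < H) (ha : 0 < a) :
    ContinuousOn (q1_A2 x u H) (Icc a b) := by
  have c1 : ContinuousOn (q1_lam x) (Icc a b) := fun t ht =>
    (q1_hasDerivAt_lam x (ha.trans_le ht.1)).continuousAt.continuousWithinAt
  have c2 : Continuous q1_phi :=
    continuous_iff_continuousAt.2 fun l => (q1_hasDerivAt_phi l).continuousAt
  have c2' : Continuous PhR :=
    continuous_iff_continuousAt.2 fun l => (hasDerivAt_PhR l).continuousAt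
  have c3 : ContinuousOn (fun t : ℝ => 1 / t) (Icc a b) :=
    continuousOn_const.div continuousOn_id (fun t ht => (ha.trans_le ht.1).ne')
  have c4 : Continuous (q1_g u H) :=
    continuous_iff_continuousAt.2 fun l => (q1_hasDerivAt_g u hH l).continuousAt
  have c5 : Continuous (q1_g1 u H) :=
    continuous_iff_continuousAt.2 fun l => (q1_hasDerivAt_g1 u hH l).continuousAt
  have c6 : Continuous (q1_g2 u H) := by
    unfold q1_g2
    exact (by fun_prop : Continuous fun t : ℝ => (t - u) ^ 2 / H ^ 4 - 1 / H ^ 2).mul c4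
  have c7 : ContinuousOn (q1_F1 x) (Icc a b) := (c2.comp_continuousOn c1).mul c3
  have c8 : ContinuousOn (q1_F2 x) (Icc a b) := by
    unfold q1_F2
    exact (((c1.div_const 2).add continuousOn_const).neg.mul (c2.comp_continuousOn c1)).mul
      (c3.pow 2)
  have c9 : ContinuousOn (fun t => PhR (q1_lam x t)) (Icc a b) := c2'.comp_continuousOn c1
  exact ((c8.mul c4.continuousOn).add (c7.mul c5.continuousOn)).add
    ((c7.mul c5.continuousOn).add (c9.mul c6.continuousOn))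

theorem q1_A2_le {N κ H u x t : ℝ} (hN : 0 ≤ N) (hκ : 0 ≤ κ) (hH : 0 < H)
    (h0 : |PhR (q1_lam x t)| ≤ N) (h1 : |q1_F1 x t| ≤ N * (κ / H))
    (h2 : |q1_F2 x t| ≤ N * (κ / H) ^ 2) :
    |q1_A2 x u H t| ≤ N / H ^ 2 * ((κ ^ 2 + κ + 1) * q1_g u H t +
      (κ + 1) / H ^ 2 * (q1_g u H t * (t - u) ^ 2)) := by
  have hg := q1_g_pos u hH t
  set g := q1_g u H t with hgd
  set s : ℝ := |t - u| / H with hs
  have hs0 : 0 ≤ s := by positivity
  have e1 : |q1_g1 u H t| = s / H * g := by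
    unfold q1_g1
    rw [abs_mul, abs_neg, abs_of_pos hg, abs_div, abs_of_pos (by positivity : 0 < H ^ 2), hs]
    field_simp
  have hs2 : s ^ 2 = (t - u) ^ 2 / H ^ 2 := by rw [hs, div_pow, sq_abs]
  have e2 : |q1_g2 u H t| ≤ (s ^ 2 + 1) / H ^ 2 * g := by
    unfold q1_g2
    rw [abs_mul, abs_of_pos hg]
    have h3 : |(t - u) ^ 2 / H ^ 4 - 1 / H ^ 2| ≤ (s ^ 2 + 1) / H ^ 2 := by
      have h4 : (s ^ 2 + 1) / H ^ 2 = (t - u) ^ 2 / H ^ 4 + 1 / H ^ 2 := by
        rw [hs2]; field_simp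
      rw [h4, abs_le]
      have h5 : 0 ≤ (t - u) ^ 2 / H ^ 4 := by positivity
      have h6 : 0 ≤ 1 / H ^ 2 := by positivity
      constructor <;> linarith
    exact mul_le_mul_of_nonneg_right h3 hg.le
  have b1 : |q1_F2 x t * g| ≤ N * (κ / H) ^ 2 * g := by
    rw [abs_mul, abs_of_pos hg]; exact mul_le_mul_of_nonneg_right h2 hg.le
  have b2 : |q1_F1 x t * q1_g1 u H t| ≤ N * (κ / H) * (s / H * g) := by
    rw [abs_mul, e1]; exact mul_le_mul_of_nonneg_right h1 (by positivity)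
  have b3 : |PhR (q1_lam x t) * q1_g2 u H t| ≤ N * ((s ^ 2 + 1) / H ^ 2 * g) := by
    rw [abs_mul]; exact mul_le_mul h0 e2 (abs_nonneg _) hN
  have b4 : |q1_A2 x u H t| ≤ (N * (κ / H) ^ 2 * g + N * (κ / H) * (s / H * g)) +
      (N * (κ / H) * (s / H * g) + N * ((s ^ 2 + 1) / H ^ 2 * g)) := by
    unfold q1_A2
    refine (abs_add_le _ _).trans (add_le_add ((abs_add_le _ _).trans (add_le_add b1 b2))
      ((abs_add_le _ _).trans (add_le_add b2 b3)))
  refine b4.trans ?_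
  have e3 : (N * (κ / H) ^ 2 * g + N * (κ / H) * (s / H * g)) +
      (N * (κ / H) * (s / H * g) + N * ((s ^ 2 + 1) / H ^ 2 * g)) =
      N / H ^ 2 * g * (κ ^ 2 + 2 * κ * s + s ^ 2 + 1) := by
    field_simp
    ring
  have e4 : N / H ^ 2 * ((κ ^ 2 + κ + 1) * g + (κ + 1) / H ^ 2 * (g * (t - u) ^ 2)) =
      N / H ^ 2 * g * (κ ^ 2 + κ + 1 + (κ + 1) * s ^ 2) := by
    rw [hs2]
    ring
  rw [e3, e4]
  apply mul_le_mul_of_nonneg_left _ (by positivity)
  nlinarith [mul_nonneg hκ (sq_nonneg (s - 1))]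

theorem q1_main {C0 κ T u x H l : ℝ} (hPh : ∀ l, |PhR l| ≤ C0 * min 1 (Real.exp (4 * l)))
    (hC0 : Real.exp 21 ≤ C0) (hκ : 0 ≤ κ) (hT : 1 ≤ T) (hu : 0 < u) (huT : u ≤ T) (hH : 1 ≤ H)
    (hHT : H ≤ T) (hκu : ∀ t, u / 2 ≤ t → 1 / t ≤ κ / H) (hx : 0 < x) (hl : l ≠ 0)
    (hg : Real.exp (-(u ^ 2 / (8 * H ^ 2))) ≤ 1 / T) :
    ‖∫ t in win u, Ph 0 (Real.log (t / (2 * Real.pi)) - Real.log x) *
        cexp (-(((l * t : ℝ) : ℂ) * I)) ∂(gaussianReal u (Real.toNNReal (H ^ 2)))‖ ≤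
      C0 * (κ ^ 2 + 4 * κ + 5) * min 1 ((T / x) ^ 4) * ((H⁻¹) ^ 2 * (1 + (l ^ 2)⁻¹)) := by
  have hH0 : 0 < H := by linarith
  have hC00 : 0 < C0 := (Real.exp_pos 21).trans_le hC0
  have hv : Real.toNNReal (H ^ 2) ≠ 0 := by
    intro h
    rw [Real.toNNReal_eq_zero] at h
    have := pow_pos hH0 2
    linarith
  have hab : u / 2 ≤ 2 * u := by linarith
  set M : ℝ := min 1 ((T / x) ^ 4) with hM
  have hM0 : 0 ≤ M := le_min zero_le_one (by positivity)
  set N : ℝ := C0 * M with hN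
  have hN0 : 0 ≤ N := by positivity
  have key : ∫ t in win u, Ph 0 (Real.log (t / (2 * Real.pi)) - Real.log x) *
        cexp (-(((l * t : ℝ) : ℂ) * I)) ∂(gaussianReal u (Real.toNNReal (H ^ 2))) =
      ∫ t in (u / 2)..(2 * u), ((q1_A0 x u H t : ℝ) : ℂ) * cexp (-(((l * t : ℝ) : ℂ) * I)) := by
    unfold win
    rw [q1_window hv u hab]
    apply intervalIntegral.integral_congr
    intro t _
    simp only
    rw [Ph_zero, q1_g_eq, q1_A0, q1_lam]
    push_cast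
    ring
  rw [key]
  have hpos : ∀ t ∈ Icc (u / 2) (2 * u), 0 < t := fun t ht => by
    have := ht.1; linarith
  have h0 : ∀ t ∈ Icc (u / 2) (2 * u), |PhR (q1_lam x t)| ≤ N := by
    intro t ht
    refine (hPh _).trans ?_
    rw [hN]
    exact mul_le_mul_of_nonneg_left (q1_exp_lam hx (hpos t ht) (by have := ht.2; linarith)) hC00.le
  have h1 : ∀ t ∈ Icc (u / 2) (2 * u), |q1_F1 x t| ≤ N * (κ / H) := by
    intro t ht
    refine (q1_F_le hC0 hx (hpos t ht) (T := T) (by have := ht.2; linarith)).1.trans ?_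
    exact mul_le_mul_of_nonneg_left (hκu t ht.1) hN0
  have h2 : ∀ t ∈ Icc (u / 2) (2 * u), |q1_F2 x t| ≤ N * (κ / H) ^ 2 := by
    intro t ht
    refine (q1_F_le hC0 hx (hpos t ht) (T := T) (by have := ht.2; linarith)).2.trans ?_
    have h3 : (1 / t) ^ 2 ≤ (κ / H) ^ 2 := by
      have := hpos t ht
      have h4 := hκu t ht.1
      gcongr
    exact mul_le_mul_of_nonneg_left h3 hN0
  have hibp := q1_ibp hab (q1_A0 x u H) (q1_A1 x u H) (q1_A2 x u H)
    (fun t ht => q1_hasDerivAt_A0 x u hH0 (hpos t ht))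
    (fun t ht => q1_hasDerivAt_A1 x u hH0 (hpos t ht))
    (q1_contA2 x u hH0 (by linarith)) hl
  refine hibp.trans ?_
  -- the integral
  obtain ⟨i1, i2, i3, i4⟩ := q1_second_moment u hH0
  set bd : ℝ → ℝ := fun t => N / H ^ 2 * ((κ ^ 2 + κ + 1) * q1_g u H t +
      (κ + 1) / H ^ 2 * (q1_g u H t * (t - u) ^ 2)) with hbd
  have ibd : Integrable bd := ((i1.const_mul _).add (i3.const_mul _)).const_mul _
  have hbd0 : ∀ t, 0 ≤ bd t := fun t => by
    have := q1_g_pos u hH0 t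
    simp only [hbd]
    positivity
  have hint : ∫ t in (u / 2)..(2 * u), |q1_A2 x u H t| ≤ N / H ^ 2 * (κ ^ 2 + 2 * κ + 2) := by
    have e1 : ∫ t in (u / 2)..(2 * u), |q1_A2 x u H t| ≤ ∫ t in (u / 2)..(2 * u), bd t := by
      apply intervalIntegral.integral_mono_on hab
      · apply ContinuousOn.intervalIntegrable
        rw [uIcc_of_le hab]
        exact (q1_contA2 x u hH0 (by linarith)).abs
      · exact ibd.intervalIntegrable
      · intro t ht
        exact q1_A2_le hN0 hκ hH0 (h0 t ht) (h1 t ht) (h2 t ht)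
    have e2 : ∫ t in (u / 2)..(2 * u), bd t ≤ ∫ t, bd t := by
      rw [intervalIntegral.integral_of_le hab]
      exact setIntegral_le_integral ibd (Filter.Eventually.of_forall hbd0)
    have e3 : ∫ t, bd t = N / H ^ 2 * (κ ^ 2 + 2 * κ + 2) := by
      rw [hbd, integral_const_mul, integral_add (i1.const_mul _) (i3.const_mul _),
        integral_const_mul, integral_const_mul, i2, i4]
      field_simp
      ring
    exact (e1.trans e2).trans_eq e3
  -- boundary terms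
  have hgb : ∀ t, u / 2 ≤ |t - u| → q1_g u H t ≤ 1 / H * (1 / T) := fun t ht =>
    q1_g_le hH hu ht hg
  have hT0 : 0 < T := by linarith
  have hbA0 : ∀ t ∈ Icc (u / 2) (2 * u), u / 2 ≤ |t - u| → |q1_A0 x u H t| ≤ N / H ^ 2 := by
    intro t ht htu
    unfold q1_A0
    rw [abs_mul, abs_of_pos (q1_g_pos u hH0 t)]
    calc |PhR (q1_lam x t)| * q1_g u H t ≤ N * (1 / H * (1 / T)) :=
          mul_le_mul (h0 t ht) (hgb t htu) (q1_g_pos u hH0 t).le hN0
      _ ≤ N * (1 / H * (1 / H)) := by gcongr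
      _ = _ := by ring
  have hbA1 : ∀ t ∈ Icc (u / 2) (2 * u), u / 2 ≤ |t - u| → |t - u| ≤ T →
      |q1_A1 x u H t| ≤ N / H ^ 2 * (κ + 1) := by
    intro t ht htu htT
    have hgp := q1_g_pos u hH0 t
    have hgt := hgb t htu
    unfold q1_A1
    refine (abs_add_le _ _).trans ?_
    have e1 : |q1_F1 x t * q1_g u H t| ≤ N / H ^ 2 * κ := by
      rw [abs_mul, abs_of_pos hgp]
      calc |q1_F1 x t| * q1_g u H t ≤ (N * (κ / H)) * (1 / H * (1 / T)) :=
            mul_le_mul (h1 t ht) hgt hgp.le (by positivity)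
        _ ≤ (N * (κ / H)) * (1 / H * (1 / 1)) := by gcongr
        _ = _ := by ring
    have e2 : |PhR (q1_lam x t) * q1_g1 u H t| ≤ N / H ^ 2 * 1 := by
      unfold q1_g1
      rw [abs_mul, abs_mul, abs_neg, abs_of_pos hgp, abs_div, abs_of_pos (by positivity : 0 < H ^ 2)]
      calc |PhR (q1_lam x t)| * (|t - u| / H ^ 2 * q1_g u H t) ≤
            N * (T / H ^ 2 * (1 / H * (1 / T))) := by
              apply mul_le_mul (h0 t ht) _ (by positivity) hN0
              gcongr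
        _ = N / H ^ 2 * (1 / H) := by field_simp
        _ ≤ N / H ^ 2 * 1 := by
              apply mul_le_mul_of_nonneg_left _ (by positivity)
              rw [div_le_one hH0]; exact hH
    calc _ ≤ N / H ^ 2 * κ + N / H ^ 2 * 1 := add_le_add e1 e2
      _ = _ := by ring
  have ha : u / 2 ∈ Icc (u / 2) (2 * u) := ⟨le_rfl, hab⟩
  have hb : 2 * u ∈ Icc (u / 2) (2 * u) := ⟨hab, le_rfl⟩
  have haa : |u / 2 - u| = u / 2 := by
    rw [show u / 2 - u = -(u / 2) by ring, abs_neg, abs_of_pos (by linarith)]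
  have hbb : |2 * u - u| = u := by
    rw [show 2 * u - u = u by ring, abs_of_pos hu]
  have A0a := hbA0 _ ha (by rw [haa])
  have A0b := hbA0 _ hb (by rw [hbb]; linarith)
  have A1a := hbA1 _ ha (by rw [haa]) (by rw [haa]; linarith)
  have A1b := hbA1 _ hb (by rw [hbb]; linarith) (by rw [hbb]; exact huT)
  set B : ℝ := N / H ^ 2 with hB
  have hB0 : 0 ≤ B := by positivity
  have hl1 : 0 < |l| := abs_pos.2 hl
  have hl2 : 0 < l ^ 2 := by positivity
  set q : ℝ := |l|⁻¹ with hq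
  have hq0 : 0 < q := inv_pos.2 hl1
  have hq2 : (l ^ 2)⁻¹ = q ^ 2 := by rw [hq, inv_pow, sq_abs]
  have s1 : (|q1_A0 x u H (u / 2)| + |q1_A0 x u H (2 * u)|) / |l| ≤ 2 * B * q := by
    rw [div_eq_mul_inv]
    apply mul_le_mul_of_nonneg_right _ hq0.le
    linarith
  have s2 : (|q1_A1 x u H (u / 2)| + |q1_A1 x u H (2 * u)| +
      ∫ t in (u / 2)..(2 * u), |q1_A2 x u H t|) / l ^ 2 ≤ B * (κ ^ 2 + 4 * κ + 4) * q ^ 2 := by
    rw [div_eq_mul_inv, hq2]
    apply mul_le_mul_of_nonneg_right _ (by positivity)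
    calc _ ≤ B * (κ + 1) + B * (κ + 1) + B * (κ ^ 2 + 2 * κ + 2) := by linarith
      _ = _ := by ring
  refine (add_le_add s1 s2).trans ?_
  have e5 : C0 * (κ ^ 2 + 4 * κ + 5) * M * ((H⁻¹) ^ 2 * (1 + (l ^ 2)⁻¹)) =
      B * ((κ ^ 2 + 4 * κ + 5) * (1 + q ^ 2)) := by
    rw [hq2, hB, hN]
    field_simp
  rw [e5]
  have e6 : 2 * B * q + B * (κ ^ 2 + 4 * κ + 4) * q ^ 2 =
      B * (2 * q + (κ ^ 2 + 4 * κ + 4) * q ^ 2) := by ring
  rw [e6]
  apply mul_le_mul_of_nonneg_left _ hB0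
  nlinarith [sq_nonneg (q - 1), mul_nonneg hκ hκ]

theorem q1_trivial {C0 T u x : ℝ} (hPh : ∀ l, |PhR l| ≤ C0 * min 1 (Real.exp (4 * l)))
    (hC00 : 0 < C0) (hu : 0 < u) (huT : u ≤ T) (hx : 0 < x) (v : ℝ≥0) (l : ℝ) :
    ‖∫ t in win u, Ph 0 (Real.log (t / (2 * Real.pi)) - Real.log x) *
        cexp (-(((l * t : ℝ) : ℂ) * I)) ∂(gaussianReal u v)‖ ≤ C0 * min 1 ((T / x) ^ 4) := by
  have hM0 : 0 ≤ min 1 ((T / x) ^ 4) := le_min zero_le_one (by positivity)
  refine (norm_setIntegral_le_of_norm_le_const (measure_lt_top _ _) (C := C0 * min 1 ((T / x) ^ 4))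
    ?_).trans ?_
  · intro t ht
    have ht1 : 0 < t := by have := ht.1; linarith
    rw [norm_mul, Ph_zero, Complex.norm_real, Real.norm_eq_abs]
    have e1 : ‖cexp (-(((l * t : ℝ) : ℂ) * I))‖ = 1 := by simp [Complex.norm_exp]
    rw [e1, mul_one]
    refine (hPh _).trans ?_
    exact mul_le_mul_of_nonneg_left (q1_exp_lam hx ht1 (by have := ht.2; linarith)) hC00.le
  · have h1 : (gaussianReal u v).real (win u) ≤ 1 := measureReal_le_one
    have h2 : 0 ≤ C0 * min 1 ((T / x) ^ 4) := by positivity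
    nlinarith

theorem osc {η : ℝ} (hη : 0 < η) : ∃ C : ℝ, 0 < C ∧ ∀ᶠ p : ℝ × ℝ in Fl η, ∀ x : ℝ, 1 ≤ x → ∀ l : ℝ, l ≠ 0 →
    ‖∫ t in win p.2, Ph 0 (Real.log (t / (2 * Real.pi)) - Real.log x) * cexp (-(((l * t : ℝ) : ℂ) * I)) ∂(gaussianReal p.2 (vw p.1))‖ ≤
      C * min 1 ((p.1 / x) ^ 4) * min 1 ((Hw p.1)⁻¹ ^ 2 * (1 + (l ^ 2)⁻¹)) := by
  obtain ⟨C1, hC1, hPh1⟩ := Ph_le 0 (A := 4) (by norm_num)
  set C0 : ℝ := max C1 (Real.exp 21) with hC0
  have hC00 : 0 < C0 := hC1.trans_le (le_max_left _ _)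
  have hPh : ∀ l, |PhR l| ≤ C0 * min 1 (Real.exp (4 * l)) := by
    intro l
    have h1 := hPh1 l
    rw [Ph_zero, Complex.norm_real, Real.norm_eq_abs] at h1
    refine h1.trans (mul_le_mul_of_nonneg_right (le_max_left _ _) ?_)
    exact le_min zero_le_one (Real.exp_pos _).le
  set κ : ℝ := 2 / η with hκ
  have hκ0 : 0 ≤ κ := by positivity
  set K : ℝ := κ ^ 2 + 4 * κ + 5 with hK
  have hK1 : 1 ≤ K := by rw [hK]; nlinarith [sq_nonneg κ]
  refine ⟨C0 * K, by positivity, ?_⟩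
  rw [Fl_iff]
  have hlog := Real.tendsto_log_atTop
  have hL1 : ∀ᶠ T : ℝ in atTop, 1 ≤ Real.log T := hlog.eventually_ge_atTop 1
  have hL2 : ∀ᶠ T : ℝ in atTop, 8 / η ^ 2 ≤ (Real.log T) ^ (1/2 : ℝ) :=
    ((tendsto_rpow_atTop (by norm_num : (0:ℝ) < 1/2)).comp hlog).eventually_ge_atTop _
  filter_upwards [hL1, hL2, eventually_ge_atTop (1 : ℝ)] with T h1 h2 hT u hu1 hu2 x hx l hl
  have hT0 : 0 < T := by linarith
  have hL0 : 0 < Real.log T := by linarith
  have hp : 0 < (Real.log T) ^ (3/4 : ℝ) := Real.rpow_pos_of_pos hL0 _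
  have hp1 : 1 ≤ (Real.log T) ^ (3/4 : ℝ) := Real.one_le_rpow h1 (by norm_num)
  have hH0 : 0 < Hw T := by unfold Hw; positivity
  have hHT : Hw T ≤ T := by
    unfold Hw
    exact div_le_self hT0.le hp1
  have hH1 : 1 ≤ Hw T := by
    unfold Hw
    rw [le_div_iff₀ hp, one_mul]
    calc (Real.log T) ^ (3/4 : ℝ) ≤ (Real.log T) ^ (1 : ℝ) :=
          Real.rpow_le_rpow_of_exponent_le h1 (by norm_num)
      _ = Real.log T := Real.rpow_one _
      _ ≤ T := (Real.log_le_sub_one_of_pos hT0).trans (by linarith)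
  have hu0 : 0 < u := lt_of_lt_of_le (by positivity) hu1
  have hκu : ∀ t, u / 2 ≤ t → 1 / t ≤ κ / Hw T := by
    intro t ht
    have ht0 : 0 < t := by linarith
    rw [div_le_div_iff₀ ht0 hH0, one_mul, hκ]
    have h3 : η * T / 2 ≤ t := by linarith
    calc Hw T ≤ T := hHT
      _ = 2 / η * (η * T / 2) := by field_simp
      _ ≤ 2 / η * t := by gcongr
  have hg : Real.exp (-(u ^ 2 / (8 * (Hw T) ^ 2))) ≤ 1 / T := by
    have h3 : (1 : ℝ) / T = Real.exp (-Real.log T) := by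
      rw [Real.exp_neg, Real.exp_log hT0, one_div]
    rw [h3]
    apply Real.exp_le_exp.2
    apply neg_le_neg
    have h4 : η * (Real.log T) ^ (3/4 : ℝ) ≤ u / Hw T := by
      rw [le_div_iff₀ hH0]
      calc η * (Real.log T) ^ (3/4 : ℝ) * Hw T = η * T := by
            unfold Hw; field_simp
        _ ≤ u := hu1
    have h5 : u ^ 2 / (8 * (Hw T) ^ 2) = (u / Hw T) ^ 2 / 8 := by field_simp
    rw [h5]
    have h6 : (η * (Real.log T) ^ (3/4 : ℝ)) ^ 2 ≤ (u / Hw T) ^ 2 := by gcongr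
    have h7 : ((Real.log T) ^ (3/4 : ℝ)) ^ 2 = (Real.log T) ^ (1/2 : ℝ) * Real.log T := by
      rw [← Real.rpow_natCast, ← Real.rpow_mul hL0.le]
      nth_rewrite 3 [← Real.rpow_one (Real.log T)]
      rw [← Real.rpow_add hL0]
      norm_num
    calc Real.log T = (η ^ 2 * (8 / η ^ 2) * Real.log T) / 8 := by field_simp
      _ ≤ (η ^ 2 * (Real.log T) ^ (1/2 : ℝ) * Real.log T) / 8 := by gcongr
      _ = (η * (Real.log T) ^ (3/4 : ℝ)) ^ 2 / 8 := by rw [mul_pow, h7]; ring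
      _ ≤ (u / Hw T) ^ 2 / 8 := by gcongr
  have hx0 : 0 < x := by linarith
  have b1 := q1_trivial hPh hC00 hu0 hu2 hx0 (vw T) l
  have b2 := q1_main hPh (le_max_right _ _) hκ0 hT hu0 hu2 hH1 hHT hκu hx0 hl hg
  have hM0 : 0 ≤ min 1 ((T / x) ^ 4) := le_min zero_le_one (by positivity)
  rcases le_total 1 ((Hw T)⁻¹ ^ 2 * (1 + (l ^ 2)⁻¹)) with h | h
  · rw [min_eq_left h, mul_one]
    refine b1.trans ?_
    have : C0 * min 1 ((T / x) ^ 4) ≤ K * (C0 * min 1 ((T / x) ^ 4)) :=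
      le_mul_of_one_le_left (by positivity) hK1
    linarith
  · rw [min_eq_right h]
    exact b2

end Pool.Agent.LibM3
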