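import Pool.Agent.LibM3.Q2a

/-! Third moment, block Q2: the off-diagonal sum. -/

set_option autoImplicit false

namespace Pool.Agent.LibM3

open MeasureTheory Set Filter Topology Complex ProbabilityTheory
open scoped NNReal ComplexConjugate
open Pool.Agent.LibZM

/-- the weight without divisor functions -/
noncomputable def q2_g (Y H : ℝ) (q : ℕ × ℕ) : ℝ :=
  if q.1 = 0 ∨ q.2 = 0 ∨ q.1 = q.2 then 0 else
    ((q.1:ℝ) * q.2) ^ (-(1/2) : ℝ) * min 1 ((Y ^ 2 / ((q.1:ℝ) * q.2)) ^ 4) *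
        min 1 (H⁻¹ ^ 2 * (1 + ((Real.log ((q.1:ℝ) / q.2)) ^ 2)⁻¹))

lemma q2_g_nonneg (Y H : ℝ) (q : ℕ × ℕ) : 0 ≤ q2_g Y H q := by
  unfold q2_g
  split_ifs
  · exact le_rfl
  · have h1 : (0:ℝ) ≤ ((q.1:ℝ) * q.2) ^ (-(1/2) : ℝ) := Real.rpow_nonneg (by positivity) _
    have h2 : (0:ℝ) ≤ min 1 ((Y ^ 2 / ((q.1:ℝ) * q.2)) ^ 4) := le_min zero_le_one (by positivity)
    have h3 : (0:ℝ) ≤ min 1 (H⁻¹ ^ 2 * (1 + ((Real.log ((q.1:ℝ) / q.2)) ^ 2)⁻¹)) :=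
      le_min zero_le_one (by positivity)
    positivity

lemma q2_tau_div {N m : ℕ} (hm : m ≠ 0) :
    ∑ h ∈ Finset.Icc 1 N, (if h ∣ m then tau (1/2) h else 0) ≤ tau (3/2) m := by
  have e : tau (3/2) = tau 1 * tau (1/2) := by rw [tau_mul]; norm_num
  rw [e, ArithmeticFunction.mul_apply, Nat.sum_divisorsAntidiagonal' (f := fun a b => tau 1 a * tau (1/2) b)]
  rw [← Finset.sum_filter]
  have h1 : ∑ h ∈ m.divisors, tau (1/2) h = ∑ i ∈ m.divisors, tau 1 (m / i) * tau (1/2) i := by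
    refine Finset.sum_congr rfl fun i hi => ?_
    have hi' := Nat.mem_divisors.1 hi
    have : m / i ≠ 0 := by
      have := Nat.div_pos (Nat.le_of_dvd (Nat.pos_of_ne_zero hm) hi'.1) (Nat.pos_of_dvd_of_pos hi'.1 (Nat.pos_of_ne_zero hm))
      omega
    rw [tau_one_apply this, one_mul]
  rw [← h1]
  refine Finset.sum_le_sum_of_subset_of_nonneg ?_ fun i _ _ => tau_nonneg (by norm_num) i
  intro h hh
  rw [Finset.mem_filter] at hh
  exact Nat.mem_divisors.2 ⟨hh.2, hm⟩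

lemma q2_reindex (T Y H : ℝ) (N : ℕ) (hT : 0 < T) (hY : T * (N:ℝ) ^ 2 ≤ Y ^ 2) (hH : Hw T = H)
    (hs : Summable (fun q : ℕ × ℕ => if q.1 = 0 ∨ q.2 = 0 ∨ q.1 = q.2 then 0 else
      tau (3/2) q.1 * tau (3/2) q.2 * ((q.1:ℝ) * q.2) ^ (-(1/2) : ℝ) * min 1 ((Y ^ 2 / ((q.1:ℝ) * q.2)) ^ 4) *
        min 1 (H⁻¹ ^ 2 * (1 + ((Real.log ((q.1:ℝ) / q.2)) ^ 2)⁻¹)))) :
    Summable (fun q : ℕ × ℕ => ∑ h ∈ Finset.Icc 1 N, ∑ k ∈ Finset.Icc 1 N, offw T q.1 q.2 h k) ∧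
    ∑' q : ℕ × ℕ, ∑ h ∈ Finset.Icc 1 N, ∑ k ∈ Finset.Icc 1 N, offw T q.1 q.2 h k ≤
    ∑' q : ℕ × ℕ, (if q.1 = 0 ∨ q.2 = 0 ∨ q.1 = q.2 then 0 else
      tau (3/2) q.1 * tau (3/2) q.2 * ((q.1:ℝ) * q.2) ^ (-(1/2) : ℝ) * min 1 ((Y ^ 2 / ((q.1:ℝ) * q.2)) ^ 4) *
        min 1 (H⁻¹ ^ 2 * (1 + ((Real.log ((q.1:ℝ) / q.2)) ^ 2)⁻¹))) := by
  subst hH
  set G : ℕ × ℕ → ℝ := fun q => if q.1 = 0 ∨ q.2 = 0 ∨ q.1 = q.2 then 0 else
      tau (3/2) q.1 * tau (3/2) q.2 * ((q.1:ℝ) * q.2) ^ (-(1/2) : ℝ) * min 1 ((Y ^ 2 / ((q.1:ℝ) * q.2)) ^ 4) *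
        min 1 ((Hw T)⁻¹ ^ 2 * (1 + ((Real.log ((q.1:ℝ) / q.2)) ^ 2)⁻¹)) with hG
  set F : ℕ → ℕ → ℕ × ℕ → ℝ := fun h k q =>
    (if h ∣ q.1 then tau (1/2) h else 0) * (if k ∣ q.2 then tau (1/2) k else 0) * q2_g Y (Hw T) q with hF
  have t12 : ∀ n, 0 ≤ tau (1/2) n := tau_nonneg (by norm_num)
  have hFnn : ∀ h k q, 0 ≤ F h k q := by
    intro h k q
    have h1 : (0:ℝ) ≤ (if h ∣ q.1 then tau (1/2) h else 0) := by split_ifs; exacts [t12 _, le_rfl]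
    have h2 : (0:ℝ) ≤ (if k ∣ q.2 then tau (1/2) k else 0) := by split_ifs; exacts [t12 _, le_rfl]
    exact mul_nonneg (mul_nonneg h1 h2) (q2_g_nonneg _ _ _)
  have hsumF : ∀ q, ∑ h ∈ Finset.Icc 1 N, ∑ k ∈ Finset.Icc 1 N, F h k q ≤ G q := by
    intro q
    have e1 : ∑ h ∈ Finset.Icc 1 N, ∑ k ∈ Finset.Icc 1 N, F h k q =
        (∑ h ∈ Finset.Icc 1 N, (if h ∣ q.1 then tau (1/2) h else 0)) *
        (∑ k ∈ Finset.Icc 1 N, (if k ∣ q.2 then tau (1/2) k else 0)) * q2_g Y (Hw T) q := by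
      rw [Finset.sum_mul_sum, Finset.sum_mul]
      refine Finset.sum_congr rfl fun h _ => ?_
      rw [Finset.sum_mul]
    rw [e1, hG]
    simp only [q2_g]
    split_ifs with hc
    · simp
    · push Not at hc
      have h1 := q2_tau_div (N := N) hc.1
      have h2 := q2_tau_div (N := N) hc.2.1
      have h0 : 0 ≤ ∑ k ∈ Finset.Icc 1 N, (if k ∣ q.2 then tau (1/2) k else 0) :=
        Finset.sum_nonneg fun k _ => by split_ifs; exacts [t12 _, le_rfl]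
      have h3 := mul_le_mul h1 h2 h0 (tau_nonneg (by norm_num) _)
      have h4 := q2_g_nonneg Y (Hw T) q
      rw [q2_g, if_neg (by push Not; exact hc)] at h4
      calc _ ≤ (tau (3/2) q.1 * tau (3/2) q.2) * _ := mul_le_mul_of_nonneg_right h3 h4
        _ = _ := by ring
  have hFsum : ∀ h ∈ Finset.Icc 1 N, ∀ k ∈ Finset.Icc 1 N, Summable (F h k) := by
    intro h hh k hk
    refine Summable.of_nonneg_of_le (hFnn h k) (fun q => ?_) hs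
    refine le_trans ?_ (hsumF q)
    refine le_trans ?_ (Finset.single_le_sum (f := fun h => ∑ k ∈ Finset.Icc 1 N, F h k q) (fun i _ => Finset.sum_nonneg fun j _ => hFnn i j q) hh)
    exact Finset.single_le_sum (f := fun k => F h k q) (fun i _ => hFnn h i q) hk
  have hoff_nn : ∀ a b h k, 0 ≤ offw T a b h k := by
    intro a b h k
    unfold offw
    split_ifs
    · exact le_rfl
    · have h1 : (0:ℝ) ≤ ((a:ℝ) * b * h * k) ^ (-(1/2) : ℝ) := Real.rpow_nonneg (by positivity) _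
      have h2 : (0:ℝ) ≤ min 1 ((T / ((a:ℝ) * b)) ^ 4) := le_min zero_le_one (by positivity)
      have h3 : (0:ℝ) ≤ min 1 ((Hw T)⁻¹ ^ 2 * (1 + ((Real.log (((a:ℝ) * h) / ((b:ℝ) * k))) ^ 2)⁻¹)) :=
        le_min zero_le_one (by positivity)
      have := t12 h
      have := t12 k
      positivity
  have hle : ∀ h ∈ Finset.Icc 1 N, ∀ k ∈ Finset.Icc 1 N, ∀ q : ℕ × ℕ,
      offw T q.1 q.2 h k ≤ F h k (q.1 * h, q.2 * k) := by
    intro h hh k hk q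
    rw [Finset.mem_Icc] at hh hk
    simp only [hF, dvd_mul_left, if_true, q2_g, offw]
    have hh0 : h ≠ 0 := by omega
    have hk0 : k ≠ 0 := by omega
    by_cases hc : q.1 = 0 ∨ q.2 = 0 ∨ q.1 * h = q.2 * k
    · rw [if_pos hc]
      have hc' : q.1 * h = 0 ∨ q.2 * k = 0 ∨ q.1 * h = q.2 * k := by
        rcases hc with h1 | h1 | h1
        · left; simp [h1]
        · right; left; simp [h1]
        · right; right; exact h1
      rw [if_pos hc']; simp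
    · have hc' : ¬ (q.1 * h = 0 ∨ q.2 * k = 0 ∨ q.1 * h = q.2 * k) := by
        push Not at hc ⊢
        exact ⟨Nat.mul_ne_zero hc.1 hh0, Nat.mul_ne_zero hc.2.1 hk0, hc.2.2⟩
      rw [if_neg hc, if_neg hc']
      push Not at hc
      push_cast
      have e1 : ((q.1:ℝ) * h * ((q.2:ℝ) * k)) = ((q.1:ℝ) * q.2 * h * k) := by ring
      rw [e1]
      have hq1 : (0:ℝ) < q.1 := by exact_mod_cast Nat.pos_of_ne_zero hc.1
      have hq2 : (0:ℝ) < q.2 := by exact_mod_cast Nat.pos_of_ne_zero hc.2.1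
      have hhp : (0:ℝ) < h := by exact_mod_cast Nat.pos_of_ne_zero hh0
      have hkp : (0:ℝ) < k := by exact_mod_cast Nat.pos_of_ne_zero hk0
      have hmin : min 1 ((T / ((q.1:ℝ) * q.2)) ^ 4) ≤ min 1 ((Y ^ 2 / ((q.1:ℝ) * q.2 * h * k)) ^ 4) := by
        refine min_le_min le_rfl ?_
        refine pow_le_pow_left₀ (by positivity) ?_ 4
        rw [div_le_div_iff₀ (by positivity) (by positivity)]
        have hhk : (h:ℝ) * k ≤ (N:ℝ) ^ 2 := by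
          rw [sq]
          have h1 : (h:ℝ) ≤ N := by exact_mod_cast hh.2
          have h2 : (k:ℝ) ≤ N := by exact_mod_cast hk.2
          exact mul_le_mul h1 h2 (by positivity) (by positivity)
        have h5 : T * (h * k) ≤ Y ^ 2 := le_trans (mul_le_mul_of_nonneg_left hhk hT.le) hY
        calc T * ((q.1:ℝ) * q.2 * h * k) = (T * (h * k)) * ((q.1:ℝ) * q.2) := by ring
          _ ≤ Y ^ 2 * ((q.1:ℝ) * q.2) := mul_le_mul_of_nonneg_right h5 (by positivity)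
      have h1 : (0:ℝ) ≤ ((q.1:ℝ) * q.2 * h * k) ^ (-(1/2) : ℝ) := Real.rpow_nonneg (by positivity) _
      have h3 : (0:ℝ) ≤ min 1 ((Hw T)⁻¹ ^ 2 * (1 + ((Real.log (((q.1:ℝ) * h) / ((q.2:ℝ) * k))) ^ 2)⁻¹)) :=
        le_min zero_le_one (by positivity)
      have h4 := t12 h
      have h5 := t12 k
      calc tau (1/2) h * tau (1/2) k * ((q.1:ℝ) * q.2 * h * k) ^ (-(1/2) : ℝ) * min 1 ((T / ((q.1:ℝ) * q.2)) ^ 4) *
          min 1 ((Hw T)⁻¹ ^ 2 * (1 + ((Real.log (((q.1:ℝ) * h) / ((q.2:ℝ) * k))) ^ 2)⁻¹)) 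
          ≤ tau (1/2) h * tau (1/2) k * ((q.1:ℝ) * q.2 * h * k) ^ (-(1/2) : ℝ) * min 1 ((Y ^ 2 / ((q.1:ℝ) * q.2 * h * k)) ^ 4) *
          min 1 ((Hw T)⁻¹ ^ 2 * (1 + ((Real.log (((q.1:ℝ) * h) / ((q.2:ℝ) * k))) ^ 2)⁻¹)) := by
            refine mul_le_mul_of_nonneg_right (mul_le_mul_of_nonneg_left hmin ?_) h3
            positivity
        _ = _ := by ring
  have hinj : ∀ h ∈ Finset.Icc 1 N, ∀ k ∈ Finset.Icc 1 N, Function.Injective (fun q : ℕ × ℕ => (q.1 * h, q.2 * k)) := by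
    intro h hh k hk q r hqr
    rw [Finset.mem_Icc] at hh hk
    simp only [Prod.mk.injEq] at hqr
    exact Prod.ext (Nat.eq_of_mul_eq_mul_right (by omega) hqr.1) (Nat.eq_of_mul_eq_mul_right (by omega) hqr.2)
  have hcomp : ∀ h ∈ Finset.Icc 1 N, ∀ k ∈ Finset.Icc 1 N, Summable (fun q : ℕ × ℕ => F h k (q.1 * h, q.2 * k)) :=
    fun h hh k hk => (hFsum h hh k hk).comp_injective (hinj h hh k hk)
  have hoffs : ∀ h ∈ Finset.Icc 1 N, ∀ k ∈ Finset.Icc 1 N, Summable (fun q : ℕ × ℕ => offw T q.1 q.2 h k) :=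
    fun h hh k hk => Summable.of_nonneg_of_le (fun q => hoff_nn _ _ _ _) (hle h hh k hk) (hcomp h hh k hk)
  refine ⟨summable_sum fun h hh => summable_sum fun k hk => hoffs h hh k hk, ?_⟩
  have e1 : ∑' q : ℕ × ℕ, ∑ h ∈ Finset.Icc 1 N, ∑ k ∈ Finset.Icc 1 N, offw T q.1 q.2 h k =
      ∑ h ∈ Finset.Icc 1 N, ∑ k ∈ Finset.Icc 1 N, ∑' q : ℕ × ℕ, offw T q.1 q.2 h k := by
    rw [Summable.tsum_finsetSum fun h hh => summable_sum fun k hk => hoffs h hh k hk]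
    refine Finset.sum_congr rfl fun h hh => ?_
    rw [Summable.tsum_finsetSum fun k hk => hoffs h hh k hk]
  have e2 : ∑' q : ℕ × ℕ, ∑ h ∈ Finset.Icc 1 N, ∑ k ∈ Finset.Icc 1 N, F h k q =
      ∑ h ∈ Finset.Icc 1 N, ∑ k ∈ Finset.Icc 1 N, ∑' q : ℕ × ℕ, F h k q := by
    rw [Summable.tsum_finsetSum fun h hh => summable_sum fun k hk => hFsum h hh k hk]
    refine Finset.sum_congr rfl fun h hh => ?_
    rw [Summable.tsum_finsetSum fun k hk => hFsum h hh k hk]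
  rw [e1]
  calc ∑ h ∈ Finset.Icc 1 N, ∑ k ∈ Finset.Icc 1 N, ∑' q : ℕ × ℕ, offw T q.1 q.2 h k 
      ≤ ∑ h ∈ Finset.Icc 1 N, ∑ k ∈ Finset.Icc 1 N, ∑' q : ℕ × ℕ, F h k q := by
        refine Finset.sum_le_sum fun h hh => Finset.sum_le_sum fun k hk => ?_
        refine le_trans ((hoffs h hh k hk).tsum_le_tsum (hle h hh k hk) (hcomp h hh k hk)) ?_
        exact tsum_comp_le_tsum_of_inj (hFsum h hh k hk) (hFnn h k) (hinj h hh k hk)
    _ = ∑' q : ℕ × ℕ, ∑ h ∈ Finset.Icc 1 N, ∑ k ∈ Finset.Icc 1 N, F h k q := e2.symm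
    _ ≤ ∑' q, G q := (summable_sum fun h hh => summable_sum fun k hk => hFsum h hh k hk).tsum_le_tsum hsumF hs

theorem offdiag_sum : ∃ C : ℝ, 0 < C ∧ ∀ᶠ T : ℝ in atTop,
    Summable (fun q : ℕ × ℕ => ∑ h ∈ Finset.Icc 1 (XN T), ∑ k ∈ Finset.Icc 1 (XN T), offw T q.1 q.2 h k) ∧
    ∑' q : ℕ × ℕ, ∑ h ∈ Finset.Icc 1 (XN T), ∑ k ∈ Finset.Icc 1 (XN T), offw T q.1 q.2 h k ≤ C * (Real.log T) ^ (2 + 1/8 : ℝ) := by
  obtain ⟨C, hC, hlat⟩ := lattice_off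
  refine ⟨C * (3 ^ (5/4 : ℝ) + 9), by positivity, ?_⟩
  have hlog : Tendsto Real.log atTop atTop := Real.tendsto_log_atTop
  -- L^(3/4) * L^2 ≤ T
  have h1 : ∀ᶠ T : ℝ in atTop, (Real.log T) ^ (11/4 : ℝ) ≤ T := by
    have := (isLittleO_log_rpow_rpow_atTop (11/4 : ℝ) (s := 1) one_pos).bound one_pos
    filter_upwards [this, eventually_ge_atTop 1] with T hT hT1
    rw [one_mul, Real.rpow_one, Real.norm_of_nonneg (by linarith : (0:ℝ) ≤ T)] at hT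
    exact le_trans (le_abs_self _) hT
  have h2 : ∀ᶠ T : ℝ in atTop, (Real.log T) ^ (1/16 : ℝ) ≤ T := by
    have := (isLittleO_log_rpow_rpow_atTop (1/16 : ℝ) (s := 1) one_pos).bound one_pos
    filter_upwards [this, eventually_ge_atTop 1] with T hT hT1
    rw [one_mul, Real.rpow_one, Real.norm_of_nonneg (by linarith : (0:ℝ) ≤ T)] at hT
    exact le_trans (le_abs_self _) hT
  filter_upwards [h1, h2, eventually_ge_atTop 4, hlog.eventually_ge_atTop 1] with T hT1 hT2 hT4 hL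
  set L := Real.log T with hLdef
  have hT0 : 0 < T := by linarith
  have hL0 : 0 < L := by linarith
  set N := XN T with hN
  have hNle : (N:ℝ) ≤ T ^ (1/2:ℝ) * L ^ (1/16:ℝ) := Nat.floor_le (by positivity)
  have hN1 : 1 ≤ N := by
    apply Nat.le_floor
    have a1 : (1:ℝ) ≤ T ^ (1/2:ℝ) := Real.one_le_rpow (by linarith) (by norm_num)
    have a2 : (1:ℝ) ≤ L ^ (1/16:ℝ) := Real.one_le_rpow hL (by norm_num)
    push_cast
    calc (1:ℝ) = 1 * 1 := by ring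
      _ ≤ _ := mul_le_mul a1 a2 zero_le_one (by positivity)
  have hHdef : Hw T = T / L ^ (3/4 : ℝ) := rfl
  have hH0 : 0 < Hw T := by rw [hHdef]; positivity
  have hHL : L ^ 2 ≤ Hw T := by
    rw [hHdef, le_div_iff₀ (by positivity)]
    calc L ^ 2 * L ^ (3/4:ℝ) = L ^ (11/4 : ℝ) := by
          rw [← Real.rpow_natCast, ← Real.rpow_add hL0]; norm_num
      _ ≤ T := hT1
  have hH1 : 1 ≤ Hw T := le_trans (one_le_pow₀ hL) hHL
  set Y := T ^ (1/2:ℝ) * N with hYdef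
  have hT12 : T ^ (1/2:ℝ) * T ^ (1/2:ℝ) = T := by
    rw [← Real.rpow_add hT0]; norm_num
  have hY2 : T * (N:ℝ) ^ 2 ≤ Y ^ 2 := by
    rw [hYdef, mul_pow, sq (T ^ (1/2:ℝ)), hT12]
  have hTge2 : (2:ℝ) ≤ T ^ (1/2:ℝ) := by
    have : (4:ℝ) ^ (1/2:ℝ) = 2 := by
      rw [show (4:ℝ) = 2 ^ (2:ℝ) by norm_num, ← Real.rpow_mul (by norm_num)]; norm_num
    exact le_of_eq_of_le this.symm (Real.rpow_le_rpow (by norm_num) hT4 (by norm_num))
  have hY2' : 2 ≤ Y := by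
    rw [hYdef]
    have : (1:ℝ) ≤ N := by exact_mod_cast hN1
    nlinarith
  have hYle : Y ≤ T * L ^ (1/16:ℝ) := by
    rw [hYdef]
    calc T ^ (1/2:ℝ) * N ≤ T ^ (1/2:ℝ) * (T ^ (1/2:ℝ) * L ^ (1/16:ℝ)) := mul_le_mul_of_nonneg_left hNle (by positivity)
      _ = T * L ^ (1/16:ℝ) := by rw [← mul_assoc, hT12]
  have hYH : Y / Hw T ≤ L ^ (13/16:ℝ) := by
    rw [hHdef, div_le_iff₀ (by positivity)]
    have e : L ^ (13/16:ℝ) * (T / L ^ (3/4:ℝ)) = T * L ^ (1/16:ℝ) := by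
      rw [show (13/16:ℝ) = 1/16 + 3/4 by norm_num, Real.rpow_add hL0]
      field_simp
    rw [e]; exact hYle
  have hlogY : 1 + Real.log Y ≤ 3 * L := by
    have : Real.log Y ≤ 2 * L := by
      have h3 : Y ≤ T * T := le_trans hYle (mul_le_mul_of_nonneg_left hT2 hT0.le)
      have h4 := Real.log_le_log (by linarith) h3
      rw [Real.log_mul hT0.ne' hT0.ne'] at h4
      linarith
    linarith
  have hlogY0 : 0 ≤ 1 + Real.log Y := by
    have := Real.log_nonneg (by linarith : (1:ℝ) ≤ Y)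
    linarith
  obtain ⟨hs, hle⟩ := hlat Y (Hw T) hH1 hY2'
  obtain ⟨hs', hle'⟩ := q2_reindex T Y (Hw T) N hT0 hY2 rfl hs
  refine ⟨hs', hle'.trans (hle.trans ?_)⟩
  have k1 : Y / Hw T * (1 + Real.log Y) ^ (5/4 : ℝ) ≤ 3 ^ (5/4:ℝ) * L ^ (2 + 1/8 : ℝ) := by
    calc Y / Hw T * (1 + Real.log Y) ^ (5/4 : ℝ) ≤ L ^ (13/16:ℝ) * (3 * L) ^ (5/4:ℝ) :=
          mul_le_mul hYH (Real.rpow_le_rpow hlogY0 hlogY (by norm_num)) (by positivity) (by positivity)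
      _ = 3 ^ (5/4:ℝ) * (L ^ (13/16:ℝ) * L ^ (5/4:ℝ)) := by
          rw [Real.mul_rpow (by norm_num) hL0.le]; ring
      _ = 3 ^ (5/4:ℝ) * L ^ (33/16:ℝ) := by rw [← Real.rpow_add hL0]; norm_num
      _ ≤ _ := mul_le_mul_of_nonneg_left (Real.rpow_le_rpow_of_exponent_le hL (by norm_num)) (by positivity)
  have k2 : Y * (1 + Real.log Y) ^ 2 / Hw T ^ 2 ≤ 9 * L ^ (2 + 1/8 : ℝ) := by
    calc Y * (1 + Real.log Y) ^ 2 / Hw T ^ 2 = (Y / Hw T) * ((1 + Real.log Y) ^ 2 / Hw T) := by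
          field_simp
      _ ≤ L ^ (13/16:ℝ) * 9 := by
          refine mul_le_mul hYH ?_ (by positivity) (by positivity)
          rw [div_le_iff₀ hH0]
          calc (1 + Real.log Y) ^ 2 ≤ (3 * L) ^ 2 := pow_le_pow_left₀ hlogY0 hlogY 2
            _ = 9 * L ^ 2 := by ring
            _ ≤ 9 * Hw T := by linarith
      _ = 9 * L ^ (13/16:ℝ) := by ring
      _ ≤ _ := mul_le_mul_of_nonneg_left (Real.rpow_le_rpow_of_exponent_le hL (by norm_num)) (by positivity)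
  calc C * (Y / Hw T * (1 + Real.log Y) ^ (5/4 : ℝ) + Y * (1 + Real.log Y) ^ 2 / Hw T ^ 2)
      ≤ C * (3 ^ (5/4:ℝ) * L ^ (2 + 1/8 : ℝ) + 9 * L ^ (2 + 1/8 : ℝ)) := mul_le_mul_of_nonneg_left (add_le_add k1 k2) hC.le
    _ = _ := by ring

end Pool.Agent.LibM3
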