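import Pool.Agent.LibM3.A1

/-! Third moment, block Q3: the diagonal sum over j. -/

set_option autoImplicit false

namespace Pool.Agent.LibM3

open MeasureTheory Set Filter Topology Complex ProbabilityTheory
open scoped NNReal ComplexConjugate
open Pool.Agent.LibZM

/-- `PhR` is exponentially close to the indicator of `[0,∞)`. -/
lemma q3_PhR : ∃ C : ℝ, 0 < C ∧ ∀ l : ℝ, PhR l ≤ C * Real.exp l ∧ 1 - PhR l ≤ C * Real.exp (-l) := by
  obtain ⟨C₁, h1, H1⟩ := Ph_le 0 (A := 1) zero_le_one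
  obtain ⟨C₂, h2, H2⟩ := one_sub_Ph_le 0 (A := 1) zero_le_one
  refine ⟨C₁ + C₂, by positivity, fun l => ⟨?_, ?_⟩⟩
  · have := H1 l
    rw [Ph_zero, Complex.norm_real, one_mul] at this
    calc PhR l ≤ C₁ * min 1 (Real.exp l) := le_trans (le_abs_self _) this
      _ ≤ C₁ * Real.exp l := mul_le_mul_of_nonneg_left (min_le_right _ _) h1.le
      _ ≤ _ := by nlinarith [Real.exp_pos l]
  · have := H2 l
    rw [Ph_zero, ← Complex.ofReal_one, ← Complex.ofReal_sub, Complex.norm_real, one_mul] at this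
    calc 1 - PhR l ≤ C₂ * min 1 (Real.exp (-l)) := le_trans (le_abs_self _) this
      _ ≤ C₂ * Real.exp (-l) := mul_le_mul_of_nonneg_left (min_le_right _ _) h2.le
      _ ≤ _ := by nlinarith [Real.exp_pos (-l)]

/-- the error terms -/
noncomputable def q3_d (y : ℝ) (j : ℕ) : ℝ := if (j:ℝ) ≤ y then (j:ℝ)⁻¹ * ((j:ℝ) / y) ^ 2 else (j:ℝ)⁻¹ * (y / j) ^ 2

lemma q3_d_nonneg (y : ℝ) (j : ℕ) : 0 ≤ q3_d y j := by
  unfold q3_d
  split_ifs <;> positivity

lemma q3_d_sum {y : ℝ} (hy : 0 < y) (n : ℕ) : ∑ j ∈ Finset.range n, q3_d y j ≤ 3 := by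
  have e : ∀ j ∈ Finset.range n, q3_d y j ≤ (if j ∈ Finset.Icc 1 ⌊y⌋₊ then y⁻¹ else 0) +
      (if j ∈ Finset.Ioo ⌊y⌋₊ n then y * ((j:ℝ) ^ 2)⁻¹ else 0) := by
    intro j hj
    rw [Finset.mem_range] at hj
    unfold q3_d
    split_ifs with h1 h2 h3 h4 h5 h6
    · exfalso
      rw [Finset.mem_Icc] at h2; rw [Finset.mem_Ioo] at h3; omega
    · rw [Finset.mem_Icc] at h2
      have hj0 : (0:ℝ) < j := by exact_mod_cast h2.1
      rw [add_zero]
      have : (j:ℝ)⁻¹ * ((j:ℝ) / y) ^ 2 = (j / y) * y⁻¹ := by field_simp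
      rw [this]
      have : (j:ℝ) / y ≤ 1 := (div_le_one hy).2 h1
      have hy' : 0 < y⁻¹ := by positivity
      nlinarith
    · exfalso
      rw [Finset.mem_Ioo] at h4
      have := Nat.lt_of_floor_lt h4.1
      linarith
    · have : j = 0 := by
        by_contra h0
        apply h2
        rw [Finset.mem_Icc]
        exact ⟨Nat.pos_of_ne_zero h0, Nat.le_floor h1⟩
      subst this; simp
    · exfalso
      rw [Finset.mem_Icc] at h5
      have := (Nat.le_floor_iff hy.le).1 h5.2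
      exact h1 this
    · exfalso
      rw [Finset.mem_Icc] at h5
      have := (Nat.le_floor_iff hy.le).1 h5.2
      exact h1 this
    · rw [zero_add]
      push Not at h1
      have hj0 : (0:ℝ) < j := hy.trans h1
      have : (j:ℝ)⁻¹ * (y / j) ^ 2 = (y / j) * (y * ((j:ℝ) ^ 2)⁻¹) := by field_simp
      rw [this]
      have h7 : y / j ≤ 1 := (div_le_one hj0).2 h1.le
      have h8 : 0 < y * ((j:ℝ) ^ 2)⁻¹ := by positivity
      nlinarith
    · exfalso
      push Not at h1
      rename_i h9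
      apply h9
      rw [Finset.mem_Ioo]
      exact ⟨(Nat.floor_lt hy.le).2 h1, hj⟩
  refine (Finset.sum_le_sum e).trans ?_
  rw [Finset.sum_add_distrib, ← Finset.sum_filter, ← Finset.sum_filter]
  have h1 : ∑ j ∈ Finset.range n with j ∈ Finset.Icc 1 ⌊y⌋₊, y⁻¹ ≤ 1 := by
    rw [Finset.sum_const, nsmul_eq_mul]
    have hc : (Finset.range n |>.filter (fun j => j ∈ Finset.Icc 1 ⌊y⌋₊)).card ≤ ⌊y⌋₊ := by
      calc _ ≤ (Finset.Icc 1 ⌊y⌋₊).card := Finset.card_le_card fun j hj => (Finset.mem_filter.1 hj).2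
        _ = ⌊y⌋₊ := by simp
    calc _ ≤ (⌊y⌋₊:ℝ) * y⁻¹ := mul_le_mul_of_nonneg_right (by exact_mod_cast hc) (by positivity)
      _ ≤ y * y⁻¹ := mul_le_mul_of_nonneg_right (Nat.floor_le hy.le) (by positivity)
      _ = 1 := mul_inv_cancel₀ hy.ne'
  have h2 : ∑ j ∈ Finset.range n with j ∈ Finset.Ioo ⌊y⌋₊ n, y * ((j:ℝ) ^ 2)⁻¹ ≤ 2 := by
    have : ∑ j ∈ Finset.range n with j ∈ Finset.Ioo ⌊y⌋₊ n, y * ((j:ℝ) ^ 2)⁻¹ = ∑ j ∈ Finset.Ioo ⌊y⌋₊ n, y * ((j:ℝ) ^ 2)⁻¹ := by
      apply Finset.sum_congr _ (fun _ _ => rfl)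
      ext j
      rw [Finset.mem_filter, Finset.mem_range, Finset.mem_Ioo]
      omega
    rw [this, ← Finset.mul_sum]
    have h3 := sum_Ioo_inv_sq_le (α := ℝ) ⌊y⌋₊ n
    have h4 : y < (⌊y⌋₊:ℝ) + 1 := Nat.lt_floor_add_one y
    calc y * ∑ i ∈ Finset.Ioo ⌊y⌋₊ n, ((i:ℝ) ^ 2)⁻¹ ≤ y * (2 / ((⌊y⌋₊:ℝ) + 1)) := mul_le_mul_of_nonneg_left h3 hy.le
      _ = 2 * (y / ((⌊y⌋₊:ℝ) + 1)) := by ring
      _ ≤ 2 * 1 := mul_le_mul_of_nonneg_left ((div_le_one (by positivity)).2 h4.le) (by norm_num)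
      _ = 2 := by ring
  linarith

/-- the truncated harmonic sum -/
noncomputable def q3_b (y : ℝ) (j : ℕ) : ℝ := if (j:ℝ) ≤ y then (j:ℝ)⁻¹ else 0

lemma q3_b_sum {y : ℝ} (hy : 0 < y) : HasSum (q3_b y) ((harmonic ⌊y⌋₊ : ℚ) : ℝ) := by
  have h1 : ((harmonic ⌊y⌋₊ : ℚ) : ℝ) = ∑ j ∈ Finset.Icc 1 ⌊y⌋₊, q3_b y j := by
    rw [harmonic_eq_sum_Icc]
    push_cast
    refine Finset.sum_congr rfl fun j hj => ?_
    rw [Finset.mem_Icc] at hj
    rw [q3_b, if_pos ((Nat.le_floor_iff hy.le).1 hj.2)]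
  rw [h1]
  refine hasSum_sum_of_ne_finset_zero fun j hj => ?_
  unfold q3_b
  split_ifs with h
  · have : j = 0 := by
      by_contra h0
      apply hj
      rw [Finset.mem_Icc]
      exact ⟨Nat.pos_of_ne_zero h0, Nat.le_floor h⟩
    subst this; simp
  · rfl

lemma q3_harmonic {y : ℝ} (hy : 0 < y) : |((harmonic ⌊y⌋₊ : ℚ) : ℝ) - max 0 (Real.log y)| ≤ 1 := by
  have h1 := log_le_harmonic_floor y hy.le
  have h0 : (0:ℝ) ≤ ((harmonic ⌊y⌋₊ : ℚ) : ℝ) := by
    rw [harmonic_eq_sum_Icc]; push_cast; positivity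
  rcases le_or_gt 1 y with h | h
  · have h2 := harmonic_floor_le_one_add_log y h
    have h3 := Real.log_nonneg h
    rw [max_eq_right h3, abs_le]
    constructor <;> linarith
  · have h2 : ⌊y⌋₊ = 0 := Nat.floor_eq_zero.2 h
    rw [h2, harmonic_zero, max_eq_left (Real.log_nonpos hy.le h.le)]
    simp

lemma q3_point : ∃ C : ℝ, 0 < C ∧ ∀ z : ℝ, 0 < z →
    Summable (fun j : ℕ => (j:ℝ)⁻¹ * PhR (Real.log z - 2 * Real.log j)) ∧
    |2 * ∑' j : ℕ, (j:ℝ)⁻¹ * PhR (Real.log z - 2 * Real.log j) - max 0 (Real.log z)| ≤ C := by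
  obtain ⟨C, hC, hPh⟩ := q3_PhR
  refine ⟨2 * (3 * C) + 2, by positivity, fun z hz => ?_⟩
  set y := √z with hy
  have hy0 : 0 < y := Real.sqrt_pos.2 hz
  have hyz : y ^ 2 = z := Real.sq_sqrt hz.le
  have hlz : Real.log z = 2 * Real.log y := by
    rw [← hyz, Real.log_pow]; norm_num
  set a : ℕ → ℝ := fun j => (j:ℝ)⁻¹ * PhR (Real.log z - 2 * Real.log j) with ha
  have hdiff : ∀ j, |a j - q3_b y j| ≤ C * q3_d y j := by
    intro j
    rcases Nat.eq_zero_or_pos j with rfl | hj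
    · simp only [ha, q3_b, q3_d]; simp
    have hj0 : (0:ℝ) < j := by exact_mod_cast hj
    simp only [ha]
    unfold q3_b q3_d
    obtain ⟨p1, p2⟩ := hPh (Real.log z - 2 * Real.log j)
    obtain ⟨p3, p4⟩ := PhR_mem (Real.log z - 2 * Real.log j)
    have e1 : Real.exp (Real.log z - 2 * Real.log j) = (y / j) ^ 2 := by
      rw [hlz, ← mul_sub, ← Real.log_div hy0.ne' hj0.ne', mul_comm, Real.exp_mul, Real.exp_log (by positivity)]
      norm_num
    have e2 : Real.exp (-(Real.log z - 2 * Real.log j)) = ((j:ℝ) / y) ^ 2 := by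
      rw [Real.exp_neg, e1, ← inv_pow, inv_div]
    rw [e1] at p1
    rw [e2] at p2
    split_ifs with h
    · rw [← mul_sub_one, abs_mul, abs_of_pos (inv_pos.2 hj0), abs_sub_comm, abs_of_nonneg (by linarith)]
      calc (j:ℝ)⁻¹ * (1 - PhR (Real.log z - 2 * Real.log j)) ≤ (j:ℝ)⁻¹ * (C * ((j:ℝ) / y) ^ 2) :=
            mul_le_mul_of_nonneg_left p2 (by positivity)
        _ = _ := by ring
    · rw [sub_zero, abs_mul, abs_of_pos (inv_pos.2 hj0), abs_of_nonneg p3]
      calc (j:ℝ)⁻¹ * PhR (Real.log z - 2 * Real.log j) ≤ (j:ℝ)⁻¹ * (C * (y / j) ^ 2) :=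
            mul_le_mul_of_nonneg_left p1 (by positivity)
        _ = _ := by ring
  have hd : Summable (q3_d y) := summable_of_sum_range_le (q3_d_nonneg y) (q3_d_sum hy0)
  have hdt : ∑' j, q3_d y j ≤ 3 := Real.tsum_le_of_sum_range_le (q3_d_nonneg y) (q3_d_sum hy0)
  have hb := q3_b_sum hy0
  have hab : Summable (fun j => a j - q3_b y j) := by
    refine Summable.of_norm_bounded (hd.mul_left C) fun j => ?_
    exact hdiff j
  have hsa : Summable a := by
    have := hab.add hb.summable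
    simpa using this
  refine ⟨hsa, ?_⟩
  have e1 : ∑' j, a j - ((harmonic ⌊y⌋₊ : ℚ) : ℝ) = ∑' j, (a j - q3_b y j) := by
    rw [hsa.tsum_sub hb.summable, hb.tsum_eq]
  have e2 : |∑' j, a j - ((harmonic ⌊y⌋₊ : ℚ) : ℝ)| ≤ 3 * C := by
    rw [e1]
    have h1 : ‖∑' j, (a j - q3_b y j)‖ ≤ ∑' j, C * q3_d y j := tsum_of_norm_bounded (hd.mul_left C).hasSum hdiff
    rw [tsum_mul_left] at h1
    calc |∑' j, (a j - q3_b y j)| ≤ C * ∑' j, q3_d y j := h1
      _ ≤ C * 3 := mul_le_mul_of_nonneg_left hdt hC.le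
      _ = 3 * C := by ring
  have e3 := q3_harmonic hy0
  have e4 : max 0 (Real.log z) = 2 * max 0 (Real.log y) := by
    rw [hlz]
    rcases le_total 0 (Real.log y) with h | h
    · rw [max_eq_right h, max_eq_right (by linarith)]
    · rw [max_eq_left h, max_eq_left (by linarith), mul_zero]
  rw [e4]
  rw [abs_le] at e2 e3 ⊢
  constructor <;> linarith [e2.1, e2.2, e3.1, e3.2]

/-- mass of the complement of the window -/
lemma q3_mass {η : ℝ} (hη : 0 < η) : ∀ᶠ p : ℝ × ℝ in Fl η,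
    1 - ((gaussianReal p.2 (vw p.1)) (win p.2)).toReal ≤ 1 / Real.log p.1 := by
  rw [Fl_iff]
  have hlog : Tendsto Real.log atTop atTop := Real.tendsto_log_atTop
  filter_upwards [eventually_gt_atTop 1, hlog.eventually_ge_atTop 1,
    ((tendsto_rpow_atTop (by norm_num : (0:ℝ) < 1/2)).comp hlog).eventually_ge_atTop (4 / η ^ 2)] with T hT hL hL2 u hu1 hu2
  simp only [Function.comp_apply] at hL2
  have hT0 : 0 < T := by linarith
  have hL0 : 0 < Real.log T := by linarith
  have hu0 : 0 < u := lt_of_lt_of_le (by positivity) hu1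
  set v := vw T with hv
  have hH0 : 0 < Hw T := by unfold Hw; positivity
  have hvr : (v:ℝ) = Hw T ^ 2 := by rw [hv, vw, Real.coe_toNNReal _ (by positivity)]
  have hcheb := meas_ge_le_variance_div_sq (μ := gaussianReal u v) (X := id)
    (memLp_id_gaussianReal' 2 (by norm_num)) (c := u / 2) (by positivity)
  rw [variance_id_gaussianReal] at hcheb
  have hmean : ∫ x, id x ∂(gaussianReal u v) = u := by
    simp
  rw [hmean] at hcheb
  have hsub : (win u)ᶜ ⊆ {ω | u / 2 ≤ |id ω - u|} := by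
    intro ω hω
    rw [win, mem_compl_iff, mem_Icc, not_and_or] at hω
    simp only [id, mem_ofPred_eq]
    rcases hω with h | h
    · push Not at h
      rw [abs_of_neg (by linarith)]; linarith
    · push Not at h
      rw [abs_of_pos (by linarith)]; linarith
  have hm : MeasurableSet (win u) := measurableSet_Icc
  have h1 : (gaussianReal u v) (win u)ᶜ ≤ ENNReal.ofReal ((v:ℝ) / (u / 2) ^ 2) := (measure_mono hsub).trans hcheb
  have h2 : ((gaussianReal u v) (win u)ᶜ).toReal ≤ (v:ℝ) / (u / 2) ^ 2 := by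
    have := ENNReal.toReal_mono ENNReal.ofReal_ne_top h1
    rwa [ENNReal.toReal_ofReal (by positivity)] at this
  have h3 : ((gaussianReal u v) (win u)ᶜ).toReal = 1 - ((gaussianReal u v) (win u)).toReal := by
    rw [measure_compl hm (measure_ne_top _ _), measure_univ, ENNReal.toReal_sub_of_le prob_le_one ENNReal.one_ne_top]
    simp
  change 1 - ((gaussianReal u v) (win u)).toReal ≤ 1 / Real.log T
  rw [← h3]
  refine h2.trans ?_
  rw [hvr, Hw, div_le_div_iff₀ (by positivity) hL0, one_mul]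
  have e1 : (T / Real.log T ^ (3/4:ℝ)) ^ 2 * Real.log T = T ^ 2 / Real.log T ^ (1/2:ℝ) := by
    have : Real.log T = Real.log T ^ (1/2:ℝ) * Real.log T ^ (1/2:ℝ) := by
      rw [← Real.rpow_add hL0]; norm_num
    have e2 : (Real.log T ^ (3/4:ℝ)) ^ 2 = Real.log T * Real.log T ^ (1/2:ℝ) := by
      rw [← Real.rpow_natCast, ← Real.rpow_mul hL0.le]
      nth_rewrite 2 [← Real.rpow_one (Real.log T)]
      rw [← Real.rpow_add hL0]; norm_num
    rw [div_pow, e2]
    field_simp
  rw [e1, div_le_iff₀ (by positivity)]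
  have h4 : η * T / 2 ≤ u / 2 := by linarith
  have h5 : (η * T / 2) ^ 2 ≤ (u / 2) ^ 2 := pow_le_pow_left₀ (by positivity) h4 2
  calc T ^ 2 = (η * T / 2) ^ 2 * (4 / η ^ 2) := by field_simp; norm_num
    _ ≤ (u / 2) ^ 2 * Real.log T ^ (1/2:ℝ) := mul_le_mul h5 hL2 (by positivity) (by positivity)

theorem diag_sum {η : ℝ} (hη : 0 < η) : ∃ C : ℝ, 0 < C ∧ ∀ᶠ p : ℝ × ℝ in Fl η, ∀ x : ℝ, 1 ≤ x →
    Summable (fun j : ℕ => (j:ℝ)⁻¹ * ∫ t in win p.2, PhR (Real.log (t / (2 * Real.pi)) - Real.log ((j:ℝ) ^ 2 * x)) ∂(gaussianReal p.2 (vw p.1))) ∧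
    |2 * ∑' j : ℕ, (j:ℝ)⁻¹ * (∫ t in win p.2, PhR (Real.log (t / (2 * Real.pi)) - Real.log ((j:ℝ) ^ 2 * x)) ∂(gaussianReal p.2 (vw p.1)))
      - max 0 (Real.log (p.1 / x))| ≤ C := by
  obtain ⟨C₀, hC₀, hPh⟩ := q3_PhR
  obtain ⟨C₁, hC₁, hpt⟩ := q3_point
  set K : ℝ := |Real.log (η / (4 * Real.pi))| + |Real.log (1 / Real.pi)| with hK
  have hK0 : 0 ≤ K := by positivity
  refine ⟨C₁ + K + 1, by positivity, ?_⟩
  have hmass := q3_mass hη
  rw [Fl_iff] at hmass ⊢
  have hlog : Tendsto Real.log atTop atTop := Real.tendsto_log_atTop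
  filter_upwards [hmass, eventually_gt_atTop 1, hlog.eventually_ge_atTop 1] with T hm hT hL u hu1 hu2 x hx
  have hm' := hm u hu1 hu2
  clear hm hmass
  have hT0 : 0 < T := by linarith
  have hL0 : 0 < Real.log T := by linarith
  have hu0 : 0 < u := lt_of_lt_of_le (by positivity) hu1
  have hx0 : 0 < x := by linarith
  set γ := gaussianReal u (vw T) with hγ
  set μ := γ.restrict (win u) with hμ
  have hwm : MeasurableSet (win u) := measurableSet_Icc
  have hwin : ∀ t ∈ win u, 0 < t := by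
    intro t ht
    rw [win, mem_Icc] at ht
    linarith [ht.1]
  -- rewriting of the argument
  set g : ℕ → ℝ → ℝ := fun j t => (j:ℝ)⁻¹ * PhR (Real.log (t / (2 * Real.pi)) - Real.log ((j:ℝ) ^ 2 * x)) with hg
  have hpi : 0 < Real.pi := Real.pi_pos
  have hgz : ∀ j, ∀ t, 0 < t → g j t = (j:ℝ)⁻¹ * PhR (Real.log (t / (2 * Real.pi * x)) - 2 * Real.log j) := by
    intro j t ht
    rcases Nat.eq_zero_or_pos j with rfl | hj
    · simp [hg]
    have hj0 : (0:ℝ) < j := by exact_mod_cast hj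
    simp only [hg]
    congr 2
    rw [Real.log_mul (by positivity) hx0.ne', Real.log_pow, Real.log_div ht.ne' (by positivity), Real.log_div ht.ne' (by positivity),
      Real.log_mul (by positivity) hx0.ne']
    push_cast; ring
  have hg0 : ∀ j t, 0 ≤ g j t := fun j t => mul_nonneg (by positivity) (PhR_mem _).1
  have hPm : Measurable PhR := PhR_mono.measurable
  have hgm : ∀ j, Measurable (g j) := by
    intro j
    refine Measurable.const_mul (hPm.comp ?_) _
    exact (Real.measurable_log.comp (measurable_id.div_const _)).sub_const _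
  have hgle : ∀ j, ∀ t ∈ win u, g j t ≤ C₀ * u * ((j:ℝ) ^ 2)⁻¹ := by
    intro j t ht
    rcases Nat.eq_zero_or_pos j with rfl | hj
    · simp [hg]
    have hj0 : (0:ℝ) < j := by exact_mod_cast hj
    have hj1 : (1:ℝ) ≤ j := by exact_mod_cast hj
    have ht0 := hwin t ht
    rw [hgz j t ht0]
    have h1 := (hPh (Real.log (t / (2 * Real.pi * x)) - 2 * Real.log j)).1
    have e1 : Real.exp (Real.log (t / (2 * Real.pi * x)) - 2 * Real.log j) = (t / (2 * Real.pi * x)) * ((j:ℝ) ^ 2)⁻¹ := by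
      have e0 : Real.exp (2 * Real.log j) = (j:ℝ) ^ 2 := by
        rw [mul_comm, Real.exp_mul, Real.exp_log hj0]; norm_num
      rw [Real.exp_sub, Real.exp_log (by positivity), e0, div_eq_mul_inv]
    rw [e1] at h1
    have h2 : t / (2 * Real.pi * x) ≤ u := by
      rw [win, mem_Icc] at ht
      rw [div_le_iff₀ (by positivity)]
      have : 1 ≤ Real.pi := by linarith [Real.pi_gt_three]
      nlinarith [ht.2, mul_pos hu0 hpi, mul_le_mul this hx zero_le_one (by positivity)]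
    calc (j:ℝ)⁻¹ * PhR _ ≤ 1 * PhR _ := mul_le_mul_of_nonneg_right (inv_le_one_of_one_le₀ hj1) (PhR_mem _).1
      _ ≤ C₀ * (t / (2 * Real.pi * x) * ((j:ℝ) ^ 2)⁻¹) := by rw [one_mul]; exact h1
      _ ≤ C₀ * (u * ((j:ℝ) ^ 2)⁻¹) := by gcongr
      _ = _ := by ring
  have hμfin : IsFiniteMeasure μ := by rw [hμ]; infer_instance
  have hμle : (μ univ).toReal ≤ 1 := by
    rw [hμ, Measure.restrict_apply_univ]
    exact ENNReal.toReal_le_of_le_ofReal zero_le_one (by rw [ENNReal.ofReal_one]; exact prob_le_one)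
  have hgint : ∀ j, Integrable (g j) μ := by
    intro j
    refine Integrable.of_bound (hgm j).aestronglyMeasurable (C₀ * u * ((j:ℝ) ^ 2)⁻¹) ?_
    rw [hμ, ae_restrict_iff' hwm]
    refine Filter.Eventually.of_forall fun t ht => ?_
    rw [Real.norm_of_nonneg (hg0 j t)]
    exact hgle j t ht
  have hgis : Summable fun j => ∫ t, ‖g j t‖ ∂μ := by
    refine Summable.of_nonneg_of_le (fun j => integral_nonneg fun t => norm_nonneg _) (fun j => ?_)
      ((Real.summable_nat_pow_inv.2 (by norm_num : 1 < 2)).mul_left (C₀ * u))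
    have h1 : ∫ t, ‖g j t‖ ∂μ ≤ ∫ t, C₀ * u * ((j:ℝ) ^ 2)⁻¹ ∂μ := by
      refine integral_mono_ae (hgint j).norm (integrable_const _) ?_
      rw [Filter.EventuallyLE, hμ, ae_restrict_iff' hwm]
      refine Filter.Eventually.of_forall fun t ht => ?_
      rw [Real.norm_of_nonneg (hg0 j t)]
      exact hgle j t ht
    rw [integral_const, smul_eq_mul, Measure.real] at h1
    refine h1.trans ?_
    have : (0:ℝ) ≤ C₀ * u * ((j:ℝ) ^ 2)⁻¹ := by positivity
    nlinarith
  have hHS := hasSum_integral_of_summable_integral_norm hgint hgis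
  have hconv : ∀ j : ℕ, (j:ℝ)⁻¹ * (∫ t in win u, PhR (Real.log (t / (2 * Real.pi)) - Real.log ((j:ℝ) ^ 2 * x)) ∂γ) = ∫ t, g j t ∂μ := by
    intro j
    rw [hg, integral_const_mul]
  have hconv' : (fun j : ℕ => (j:ℝ)⁻¹ * (∫ t in win u, PhR (Real.log (t / (2 * Real.pi)) - Real.log ((j:ℝ) ^ 2 * x)) ∂γ)) =
      fun j => ∫ t, g j t ∂μ := funext hconv
  change Summable (fun j : ℕ => (j:ℝ)⁻¹ * (∫ t in win u, PhR (Real.log (t / (2 * Real.pi)) - Real.log ((j:ℝ) ^ 2 * x)) ∂γ)) ∧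
    |2 * (∑' j : ℕ, (j:ℝ)⁻¹ * (∫ t in win u, PhR (Real.log (t / (2 * Real.pi)) - Real.log ((j:ℝ) ^ 2 * x)) ∂γ))
      - max 0 (Real.log (T / x))| ≤ C₁ + K + 1
  rw [hconv']
  refine ⟨hHS.summable, ?_⟩
  rw [hHS.tsum_eq]
  set S : ℝ → ℝ := fun t => ∑' j, g j t with hS
  set M := max 0 (Real.log (T / x)) with hM
  -- pointwise bound
  have hSsum : ∀ t ∈ win u, Summable fun j => g j t := by
    intro t ht
    have ht0 := hwin t ht
    have := (hpt (t / (2 * Real.pi * x)) (by positivity)).1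
    simpa only [hgz _ t ht0] using this
  have hSb : ∀ t ∈ win u, |2 * S t - M| ≤ C₁ + K := by
    intro t ht
    have ht0 := hwin t ht
    have h1 := (hpt (t / (2 * Real.pi * x)) (by positivity)).2
    have e1 : S t = ∑' j : ℕ, (j:ℝ)⁻¹ * PhR (Real.log (t / (2 * Real.pi * x)) - 2 * Real.log j) := by
      simp only [hS, hgz _ t ht0]
    rw [← e1] at h1
    have h2 : |max 0 (Real.log (t / (2 * Real.pi * x))) - M| ≤ K := by
      rw [hM]
      have h3 : |max 0 (Real.log (t / (2 * Real.pi * x))) - max 0 (Real.log (T / x))| ≤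
          |Real.log (t / (2 * Real.pi * x)) - Real.log (T / x)| := by
        have := abs_max_sub_max_le_abs (Real.log (t / (2 * Real.pi * x))) (Real.log (T / x)) 0
        rwa [max_comm _ 0, max_comm _ 0] at this
      refine h3.trans ?_
      have e2 : Real.log (t / (2 * Real.pi * x)) - Real.log (T / x) = Real.log (t / (2 * Real.pi * T)) := by
        rw [Real.log_div ht0.ne' (by positivity), Real.log_div hT0.ne' hx0.ne', Real.log_div ht0.ne' (by positivity),
          Real.log_mul (by positivity) hx0.ne', Real.log_mul (by positivity) hT0.ne']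
        ring
      rw [e2]
      rw [win, mem_Icc] at ht
      have l1 : η / (4 * Real.pi) ≤ t / (2 * Real.pi * T) := by
        rw [div_le_div_iff₀ (by positivity) (by positivity)]
        nlinarith [ht.1, mul_le_mul_of_nonneg_right (by linarith [ht.1] : η * T ≤ 2 * t) hpi.le]
      have l2 : t / (2 * Real.pi * T) ≤ 1 / Real.pi := by
        rw [div_le_div_iff₀ (by positivity) (by positivity)]
        nlinarith [ht.2, mul_le_mul_of_nonneg_right (by linarith [ht.2] : t ≤ 2 * T) hpi.le]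
      have m1 := Real.log_le_log (by positivity) l1
      have m2 := Real.log_le_log (by positivity) l2
      rw [hK, abs_le]
      have n1 := neg_abs_le (Real.log (η / (4 * Real.pi)))
      have n2 := le_abs_self (Real.log (1 / Real.pi))
      have n3 := abs_nonneg (Real.log (η / (4 * Real.pi)))
      have n4 := abs_nonneg (Real.log (1 / Real.pi))
      constructor <;> linarith
    calc |2 * S t - M| = |(2 * S t - max 0 (Real.log (t / (2 * Real.pi * x)))) + (max 0 (Real.log (t / (2 * Real.pi * x))) - M)| := by ring_nf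
      _ ≤ C₁ + K := (abs_add_le _ _).trans (add_le_add h1 h2)
  have hSm : AEStronglyMeasurable S μ := by
    refine aestronglyMeasurable_of_tendsto_ae atTop (f := fun (n : ℕ) t => ∑ j ∈ Finset.range n, g j t) (fun n => ?_) ?_
    · exact (Finset.measurable_fun_sum _ fun j _ => hgm j).aestronglyMeasurable
    · rw [hμ, ae_restrict_iff' hwm]
      refine Filter.Eventually.of_forall fun t ht => ?_
      exact (hSsum t ht).hasSum.tendsto_sum_nat
  have hSint : Integrable S μ := by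
    refine Integrable.of_bound hSm ((C₁ + K + |M|) / 2) ?_
    rw [hμ, ae_restrict_iff' hwm]
    refine Filter.Eventually.of_forall fun t ht => ?_
    have h1 := hSb t ht
    rw [Real.norm_eq_abs]
    have h2 : |2 * S t| ≤ C₁ + K + |M| := by
      calc |2 * S t| = |(2 * S t - M) + M| := by ring_nf
        _ ≤ _ := (abs_add_le _ _).trans (by linarith)
    rw [abs_mul, abs_two] at h2
    linarith
  have hI : |∫ t, (2 * S t - M) ∂μ| ≤ (C₁ + K) * (μ univ).toReal := by
    have := norm_integral_le_of_norm_le_const (μ := μ) (f := fun t => 2 * S t - M) (C := C₁ + K) (by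
      rw [hμ, ae_restrict_iff' hwm]
      exact Filter.Eventually.of_forall fun t ht => hSb t ht)
    exact this
  have hI2 : ∫ t, (2 * S t - M) ∂μ = 2 * ∫ t, S t ∂μ - M * (μ univ).toReal := by
    rw [integral_sub (hSint.const_mul 2) (integrable_const _), integral_const_mul, integral_const, smul_eq_mul, Measure.real]
    ring
  have hMle : 0 ≤ M ∧ M ≤ Real.log T := by
    refine ⟨le_max_left _ _, max_le hL0.le ?_⟩
    exact Real.log_le_log (by positivity) (div_le_self hT0.le hx)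
  have hμuniv : (μ univ).toReal = (γ (win u)).toReal := by rw [hμ, Measure.restrict_apply_univ]
  have h6 : M * (1 - (μ univ).toReal) ≤ 1 := by
    rw [hμuniv]
    calc M * (1 - (γ (win u)).toReal) ≤ M * (1 / Real.log T) := mul_le_mul_of_nonneg_left hm' hMle.1
      _ ≤ Real.log T * (1 / Real.log T) := mul_le_mul_of_nonneg_right hMle.2 (by positivity)
      _ = 1 := by field_simp
  have h7 : 0 ≤ M * (1 - (μ univ).toReal) := mul_nonneg hMle.1 (by linarith)
  have h8 : (C₁ + K) * (μ univ).toReal ≤ C₁ + K := by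
    have : 0 ≤ C₁ + K := by positivity
    nlinarith
  have h9 := hI.trans h8
  rw [hI2] at h9
  have e5 : 2 * ∫ t, S t ∂μ - M = (2 * ∫ t, S t ∂μ - M * (μ univ).toReal) - M * (1 - (μ univ).toReal) := by ring
  change |2 * ∫ t, S t ∂μ - M| ≤ C₁ + K + 1
  rw [e5]
  calc _ ≤ |2 * ∫ t, S t ∂μ - M * (μ univ).toReal| + |M * (1 - (μ univ).toReal)| := abs_sub _ _
    _ ≤ _ := by rw [abs_of_nonneg h7]; linarith

end Pool.Agent.LibM3
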