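import Pool.Agent.LibM3.A8
import Pool.Agent.LibM3.Q1
import Pool.Agent.LibM3.Q2
import Pool.Agent.LibM3.Q3
import Pool.Agent.LibM3.N2

/-! Third moment, block Q4: the twisted second moment at the boundary length. -/

set_option autoImplicit false

namespace Pool.Agent.LibM3

open MeasureTheory Set Filter Topology Complex ProbabilityTheory
open scoped NNReal ComplexConjugate
open Pool.Agent.LibZM

/-! ### Elementary facts -/

theorem q4_tau_le_one (n : ℕ) : tau (1/2) n ≤ 1 := by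
  rcases eq_or_ne n 0 with rfl | hn
  · simp
  · exact (tau_mono (by norm_num) (by norm_num) n).trans (tau_one_apply hn).le

theorem q4_tau_nonneg (n : ℕ) : 0 ≤ tau (1/2) n := tau_nonneg (by norm_num) n

theorem q4_cpow' {n : ℕ} (hn : 1 ≤ n) (t : ℝ) :
    (n:ℂ) ^ (-(1 - crit t)) = cexp (-((Real.log n : ℝ) : ℂ) * (1 - crit t)) := by
  have : (n:ℂ) ≠ 0 := by exact_mod_cast (by omega : n ≠ 0)
  rw [Complex.cpow_def_of_ne_zero this, Complex.natCast_log]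
  congr 1; ring

theorem q4_norm_cpow' {n : ℕ} (hn : 1 ≤ n) (t : ℝ) :
    ‖(n:ℂ) ^ (-(1 - crit t))‖ = (n:ℝ) ^ (-(1/2) : ℝ) := by
  rw [Complex.norm_natCast_cpow_of_pos (by omega)]
  simp
  norm_num

theorem q4_phase {a b h k : ℕ} (ha : 1 ≤ a) (hb : 1 ≤ b) (hh : 1 ≤ h) (hk : 1 ≤ k) (t : ℝ) :
    ((a:ℂ) ^ (-crit t) * (b:ℂ) ^ (-(1 - crit t))) *
      ((h:ℂ) ^ (-crit t) * (k:ℂ) ^ (-(1 - crit t))) =
      ((((a:ℝ) * b * h * k) ^ (-(1/2) : ℝ) : ℝ) : ℂ) *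
        cexp (-(((Real.log (((a:ℝ) * h) / ((b:ℝ) * k)) * t : ℝ) : ℂ) * I)) := by
  have ha' : (0:ℝ) < a := by exact_mod_cast ha
  have hb' : (0:ℝ) < b := by exact_mod_cast hb
  have hh' : (0:ℝ) < h := by exact_mod_cast hh
  have hk' : (0:ℝ) < k := by exact_mod_cast hk
  have e1 : ((a:ℝ) * b * h * k) ^ (-(1/2) : ℝ) = Real.exp (-(1/2) * (Real.log a + Real.log b +
      Real.log h + Real.log k)) := by
    rw [Real.rpow_def_of_pos (by positivity), Real.log_mul (by positivity) hk'.ne',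
      Real.log_mul (by positivity) hh'.ne', Real.log_mul ha'.ne' hb'.ne']
    congr 1; ring
  have e2 : Real.log (((a:ℝ) * h) / ((b:ℝ) * k)) = Real.log a + Real.log h - Real.log b -
      Real.log k := by
    rw [Real.log_div (by positivity) (by positivity), Real.log_mul ha'.ne' hh'.ne',
      Real.log_mul hb'.ne' hk'.ne']
    ring
  rw [natCast_cpow_crit ha, natCast_cpow_crit hh, q4_cpow' hb, q4_cpow' hk, e1, e2,
    Complex.ofReal_exp, ← Complex.exp_add, ← Complex.exp_add, ← Complex.exp_add,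
    ← Complex.exp_add]
  congr 1
  simp only [crit]
  push_cast
  ring

/-- `∑_{h ≤ N} h^{-1/2} ≤ 2 √N`. -/
theorem q4_sum_half (N : ℕ) : ∑ h ∈ Finset.Icc 1 N, (h:ℝ) ^ (-(1/2) : ℝ) ≤ 2 * √N := by
  induction N with
  | zero => simp
  | succ N ih =>
    rw [Finset.sum_Icc_succ_top (by omega)]
    have h1 : (((N + 1 : ℕ) : ℝ)) ^ (-(1/2) : ℝ) = 1 / √((N:ℝ) + 1) := by
      rw [Real.rpow_neg (by positivity), ← Real.sqrt_eq_rpow]
      push_cast
      rw [one_div]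
    rw [h1]
    have h2 : √(N:ℝ) ≤ √((N:ℝ) + 1) := Real.sqrt_le_sqrt (by linarith)
    have h3 : 0 < √((N:ℝ) + 1) := Real.sqrt_pos.2 (by positivity)
    have h4 : √((N:ℝ) + 1) ^ 2 = N + 1 := Real.sq_sqrt (by positivity)
    have h5 : √(N:ℝ) ^ 2 = N := Real.sq_sqrt (by positivity)
    have h6 : 1 / √((N:ℝ) + 1) ≤ 2 * √((N:ℝ) + 1) - 2 * √(N:ℝ) := by
      rw [div_le_iff₀ h3]
      nlinarith [Real.sqrt_nonneg (N:ℝ)]
    push_cast
    linarith

theorem q4_norm_QForm_le {N : ℕ} {K : ℕ → ℕ → ℂ} {K0 : ℝ} (hK : ∀ h k, ‖K h k‖ ≤ K0) (t : ℝ) :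
    ‖QForm N K t‖ ≤ K0 * (4 * N) := by
  have hK0 : 0 ≤ K0 := (norm_nonneg _).trans (hK 0 0)
  have h1 : ‖QForm N K t‖ ≤ ∑ h ∈ Finset.Icc 1 N, ∑ k ∈ Finset.Icc 1 N,
      K0 * ((h:ℝ) ^ (-(1/2) : ℝ) * (k:ℝ) ^ (-(1/2) : ℝ)) := by
    unfold QForm
    refine (norm_sum_le _ _).trans (Finset.sum_le_sum fun h hh => ?_)
    refine (norm_sum_le _ _).trans (Finset.sum_le_sum fun k hk => ?_)
    have hh1 := (Finset.mem_Icc.1 hh).1
    have hk1 := (Finset.mem_Icc.1 hk).1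
    rw [norm_mul, norm_mul, norm_mul, norm_natCast_cpow_crit hh1, q4_norm_cpow' hk1,
      Complex.norm_real, Real.norm_eq_abs,
      abs_of_nonneg (mul_nonneg (q4_tau_nonneg h) (q4_tau_nonneg k))]
    have h2 : tau (1/2) h * tau (1/2) k ≤ 1 := by
      have := mul_le_mul (q4_tau_le_one h) (q4_tau_le_one k) (q4_tau_nonneg k) zero_le_one
      simpa using this
    have h3 : 0 ≤ (h:ℝ) ^ (-(1/2) : ℝ) * (k:ℝ) ^ (-(1/2) : ℝ) := by positivity
    refine mul_le_mul_of_nonneg_right ?_ h3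
    calc ‖K h k‖ * (tau (1/2) h * tau (1/2) k) ≤ K0 * 1 :=
          mul_le_mul (hK h k) h2 (mul_nonneg (q4_tau_nonneg h) (q4_tau_nonneg k)) hK0
      _ = K0 := mul_one _
  refine h1.trans ?_
  have h2 : ∑ h ∈ Finset.Icc 1 N, ∑ k ∈ Finset.Icc 1 N,
      K0 * ((h:ℝ) ^ (-(1/2) : ℝ) * (k:ℝ) ^ (-(1/2) : ℝ)) =
      K0 * ((∑ h ∈ Finset.Icc 1 N, (h:ℝ) ^ (-(1/2) : ℝ)) *
        ∑ k ∈ Finset.Icc 1 N, (k:ℝ) ^ (-(1/2) : ℝ)) := by
    rw [Finset.sum_mul_sum, Finset.mul_sum]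
    refine Finset.sum_congr rfl fun h _ => ?_
    rw [Finset.mul_sum]
  rw [h2]
  refine mul_le_mul_of_nonneg_left ?_ hK0
  have h3 := q4_sum_half N
  have h4 : 0 ≤ ∑ h ∈ Finset.Icc 1 N, (h:ℝ) ^ (-(1/2) : ℝ) :=
    Finset.sum_nonneg fun h _ => by positivity
  calc (∑ h ∈ Finset.Icc 1 N, (h:ℝ) ^ (-(1/2) : ℝ)) * ∑ k ∈ Finset.Icc 1 N, (k:ℝ) ^ (-(1/2) : ℝ)
      ≤ (2 * √N) * (2 * √N) := mul_le_mul h3 h3 h4 (by positivity)
    _ = 4 * (√(N:ℝ) ^ 2) := by ring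
    _ = 4 * N := by rw [Real.sq_sqrt (by positivity)]

theorem q4_continuous_Ph (θ : ℝ) : Continuous (Ph θ) :=
  continuous_iff_continuousAt.2 fun l => (hasDerivAt_Ph θ l).continuousAt

theorem q4_continuous_cpow {n : ℕ} (hn : 1 ≤ n) : Continuous fun t : ℝ => (n:ℂ) ^ (-crit t) := by
  simp_rw [natCast_cpow_crit hn]
  unfold crit
  fun_prop

theorem q4_continuous_cpow' {n : ℕ} (hn : 1 ≤ n) :
    Continuous fun t : ℝ => (n:ℂ) ^ (-(1 - crit t)) := by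
  simp_rw [q4_cpow' hn]
  unfold crit
  fun_prop

theorem q4_continuous_QForm (N : ℕ) (K : ℕ → ℕ → ℂ) : Continuous (QForm N K) := by
  unfold QForm
  refine continuous_finsetSum _ fun h hh => continuous_finsetSum _ fun k hk => ?_
  exact continuous_const.mul ((q4_continuous_cpow (Finset.mem_Icc.1 hh).1).mul
    (q4_continuous_cpow' (Finset.mem_Icc.1 hk).1))

theorem q4_W2_zero {t : ℝ} {a b : ℕ} (h : a = 0 ∨ b = 0) : W2 t (a, b) = 0 := by
  have h1 : -crit t ≠ 0 := by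
    intro h
    have := congrArg Complex.re h
    simp at this
  have h2 : -(1 - crit t) ≠ 0 := by
    intro h
    have := congrArg Complex.re h
    simp at this
    norm_num at this
  unfold W2
  rcases h with rfl | rfl
  · simp only [Nat.cast_zero, Complex.zero_cpow h1, zero_mul, mul_zero]
  · simp only [Nat.cast_zero, Complex.zero_cpow h2, mul_zero]

theorem q4_win_pos {u t : ℝ} (hu : 0 < u) (ht : t ∈ win u) : 0 < t := by
  have := ht.1
  linarith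

theorem q4_contOn_W2 {u : ℝ} (hu : 0 < u) (a b : ℕ) :
    ContinuousOn (fun t => W2 t (a, b)) (win u) := by
  by_cases h : a = 0 ∨ b = 0
  · exact (continuousOn_const (c := (0:ℂ))).congr fun t _ => q4_W2_zero h
  · push Not at h
    unfold W2
    have ha : 1 ≤ a := Nat.one_le_iff_ne_zero.2 h.1
    have hb : 1 ≤ b := Nat.one_le_iff_ne_zero.2 h.2
    refine ContinuousOn.mul ?_ (((q4_continuous_cpow ha).mul (q4_continuous_cpow' hb)).continuousOn)
    refine (q4_continuous_Ph 0).comp_continuousOn ?_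
    refine ContinuousOn.sub ?_ continuousOn_const
    refine ContinuousOn.log (by fun_prop) fun t ht => ?_
    have := q4_win_pos hu ht
    positivity

/-- The majorant of the terms. -/
theorem q4_W2_le : ∃ C : ℝ, 0 < C ∧ ∀ T u : ℝ, 0 < u → u ≤ T → ∀ t ∈ win u, ∀ a b : ℕ,
    ‖W2 t (a, b)‖ ≤ C * T ^ 4 * ((a:ℝ) ^ (-(9/2) : ℝ) * (b:ℝ) ^ (-(9/2) : ℝ)) := by
  obtain ⟨C, hC, h⟩ := Ph_le 0 (A := 4) (by norm_num)
  refine ⟨C, hC, fun T u hu huT t ht a b => ?_⟩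
  have ht0 := q4_win_pos hu ht
  have hT0 : 0 < T := hu.trans_le huT
  by_cases hab : a = 0 ∨ b = 0
  · rw [q4_W2_zero hab, norm_zero]
    positivity
  · push Not at hab
    have ha : 1 ≤ a := Nat.one_le_iff_ne_zero.2 hab.1
    have hb : 1 ≤ b := Nat.one_le_iff_ne_zero.2 hab.2
    have ha' : (0:ℝ) < a := by exact_mod_cast ha
    have hb' : (0:ℝ) < b := by exact_mod_cast hb
    unfold W2
    rw [norm_mul, norm_mul, norm_natCast_cpow_crit ha, q4_norm_cpow' hb]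
    have h1 := h (Real.log (t / (2 * Real.pi)) - Real.log ((a:ℝ) * b))
    have h2 : Real.exp (4 * (Real.log (t / (2 * Real.pi)) - Real.log ((a:ℝ) * b))) =
        (t / (2 * Real.pi)) ^ 4 * (((a:ℝ) * b) ^ 4)⁻¹ := by
      rw [mul_sub, Real.exp_sub]
      have e1 : Real.exp (4 * Real.log (t / (2 * Real.pi))) = (t / (2 * Real.pi)) ^ 4 := by
        rw [← Real.rpow_natCast, Real.rpow_def_of_pos (by positivity)]
        congr 1; push_cast; ring
      have e2 : Real.exp (4 * Real.log ((a:ℝ) * b)) = ((a:ℝ) * b) ^ 4 := by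
        rw [← Real.rpow_natCast, Real.rpow_def_of_pos (by positivity)]
        congr 1; push_cast; ring
      rw [e1, e2, div_eq_mul_inv]
    have h3 : t / (2 * Real.pi) ≤ T := by
      rw [div_le_iff₀ (by positivity)]
      have h4 : t ≤ 2 * u := ht.2
      have h5 := Real.pi_gt_three
      nlinarith
    have h4 : (t / (2 * Real.pi)) ^ 4 ≤ T ^ 4 := pow_le_pow_left₀ (by positivity) h3 4
    have h5 : ‖Ph 0 (Real.log (t / (2 * Real.pi)) - Real.log ((a:ℝ) * b))‖ ≤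
        C * (T ^ 4 * (((a:ℝ) * b) ^ 4)⁻¹) := by
      refine h1.trans (mul_le_mul_of_nonneg_left ?_ hC.le)
      refine (min_le_right _ _).trans ?_
      rw [h2]
      exact mul_le_mul_of_nonneg_right h4 (by positivity)
    have e3 : ∀ x : ℝ, 0 < x → x ^ (-(9/2) : ℝ) = (x ^ 4)⁻¹ * x ^ (-(1/2) : ℝ) := by
      intro x hx
      rw [← Real.rpow_natCast, ← Real.rpow_neg hx.le, ← Real.rpow_add hx]
      norm_num
    rw [e3 a ha', e3 b hb']
    calc ‖Ph 0 (Real.log (t / (2 * Real.pi)) - Real.log ((a:ℝ) * b))‖ *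
          ((a:ℝ) ^ (-(1/2) : ℝ) * (b:ℝ) ^ (-(1/2) : ℝ))
        ≤ (C * (T ^ 4 * (((a:ℝ) * b) ^ 4)⁻¹)) * ((a:ℝ) ^ (-(1/2) : ℝ) * (b:ℝ) ^ (-(1/2) : ℝ)) :=
          mul_le_mul_of_nonneg_right h5 (by positivity)
      _ = _ := by
          rw [mul_pow, mul_inv]
          ring

theorem q4_summable_maj : Summable fun p : ℕ × ℕ =>
    (p.1:ℝ) ^ (-(9/2) : ℝ) * (p.2:ℝ) ^ (-(9/2) : ℝ) := by
  have h1 : Summable fun n : ℕ => (n:ℝ) ^ (-(9/2) : ℝ) := summable_nat_rpow_neg (by norm_num)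
  exact h1.mul_of_nonneg h1 (fun n => by positivity) (fun n => by positivity)

/-! ### Integrals over the window -/

theorem q4_norm_int_le {E : Type*} [NormedAddCommGroup E] [NormedSpace ℝ E] {f : ℝ → E}
    {B u T : ℝ} (hB : 0 ≤ B) (h : ∀ t ∈ win u, ‖f t‖ ≤ B) :
    ‖∫ t in win u, f t ∂(gaussianReal u (vw T))‖ ≤ B := by
  have h1 := norm_setIntegral_le_of_norm_le_const (μ := gaussianReal u (vw T)) (s := win u)
    (f := f) (C := B) (measure_lt_top _ _) h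
  refine h1.trans ?_
  calc B * (gaussianReal u (vw T)).real (win u) ≤ B * 1 :=
        mul_le_mul_of_nonneg_left measureReal_le_one hB
    _ = B := mul_one B

theorem q4_intOn {E : Type*} [NormedAddCommGroup E] {f : ℝ → E} {u T : ℝ}
    (h : ContinuousOn f (win u)) : IntegrableOn f (win u) (gaussianReal u (vw T)) :=
  h.integrableOn_compact isCompact_Icc

/-- Coefficients. -/
noncomputable def q4_co (K : ℕ → ℕ → ℂ) (a b h k : ℕ) : ℂ :=
  K h k * ((tau (1/2) h * tau (1/2) k : ℝ) : ℂ) *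
    ((((a:ℝ) * b * h * k) ^ (-(1/2) : ℝ) : ℝ) : ℂ)

/-- Oscillatory integrals. -/
noncomputable def q4_J (T u x l : ℝ) : ℂ :=
  ∫ t in win u, Ph 0 (Real.log (t / (2 * Real.pi)) - Real.log x) *
    cexp (-(((l * t : ℝ) : ℂ) * I)) ∂(gaussianReal u (vw T))

theorem q4_contOn_J {u : ℝ} (hu : 0 < u) (x l : ℝ) :
    ContinuousOn (fun t : ℝ => Ph 0 (Real.log (t / (2 * Real.pi)) - Real.log x) *
      cexp (-(((l * t : ℝ) : ℂ) * I))) (win u) := by
  refine ContinuousOn.mul ?_ (by fun_prop)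
  refine (q4_continuous_Ph 0).comp_continuousOn ?_
  refine ContinuousOn.sub ?_ continuousOn_const
  refine ContinuousOn.log (by fun_prop) fun t ht => ?_
  have := q4_win_pos hu ht
  positivity

theorem q4_term {T u : ℝ} (hu : 0 < u) (N : ℕ) (K : ℕ → ℕ → ℂ) (a b : ℕ) :
    ∫ t in win u, W2 t (a, b) * QForm N K t ∂(gaussianReal u (vw T)) =
      ∑ h ∈ Finset.Icc 1 N, ∑ k ∈ Finset.Icc 1 N, q4_co K a b h k *
        q4_J T u ((a:ℝ) * b) (Real.log (((a:ℝ) * h) / ((b:ℝ) * k))) := by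
  by_cases hab : a = 0 ∨ b = 0
  · have h1 : ∀ t : ℝ, W2 t (a, b) * QForm N K t = 0 := fun t => by
      rw [q4_W2_zero hab, zero_mul]
    simp_rw [h1]
    rw [integral_zero]
    symm
    refine Finset.sum_eq_zero fun h _ => Finset.sum_eq_zero fun k _ => ?_
    have h2 : ((a:ℝ) * b * h * k) ^ (-(1/2) : ℝ) = 0 := by
      have h3 : (a:ℝ) * b * h * k = 0 := by
        rcases hab with rfl | rfl <;> simp
      rw [h3, Real.zero_rpow (by norm_num)]
    unfold q4_co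
    rw [h2]
    simp
  · push Not at hab
    have ha : 1 ≤ a := Nat.one_le_iff_ne_zero.2 hab.1
    have hb : 1 ≤ b := Nat.one_le_iff_ne_zero.2 hab.2
    have h1 : ∀ t : ℝ, W2 t (a, b) * QForm N K t = ∑ h ∈ Finset.Icc 1 N, ∑ k ∈ Finset.Icc 1 N,
        q4_co K a b h k * (Ph 0 (Real.log (t / (2 * Real.pi)) - Real.log ((a:ℝ) * b)) *
          cexp (-(((Real.log (((a:ℝ) * h) / ((b:ℝ) * k)) * t : ℝ) : ℂ) * I))) := by
      intro t
      unfold QForm W2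
      rw [Finset.mul_sum]
      refine Finset.sum_congr rfl fun h hh => ?_
      rw [Finset.mul_sum]
      refine Finset.sum_congr rfl fun k hk => ?_
      have h2 := q4_phase ha hb (Finset.mem_Icc.1 hh).1 (Finset.mem_Icc.1 hk).1 t
      unfold q4_co
      linear_combination (Ph 0 (Real.log (t / (2 * Real.pi)) - Real.log ((a:ℝ) * b)) * K h k *
        ((tau (1/2) h * tau (1/2) k : ℝ) : ℂ)) * h2
    simp_rw [h1]
    have hint : ∀ h k : ℕ, Integrable (fun t : ℝ => q4_co K a b h k *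
        (Ph 0 (Real.log (t / (2 * Real.pi)) - Real.log ((a:ℝ) * b)) *
          cexp (-(((Real.log (((a:ℝ) * h) / ((b:ℝ) * k)) * t : ℝ) : ℂ) * I))))
        ((gaussianReal u (vw T)).restrict (win u)) := fun h k =>
      (q4_intOn (q4_contOn_J hu ((a:ℝ) * b) (Real.log (((a:ℝ) * h) / ((b:ℝ) * k))))).const_mul _
    rw [integral_finsetSum _ fun h _ => integrable_finsetSum _ fun k _ => hint h k]
    refine Finset.sum_congr rfl fun h _ => ?_
    rw [integral_finsetSum _ fun k _ => hint h k]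
    refine Finset.sum_congr rfl fun k _ => ?_
    rw [integral_const_mul]
    rfl

theorem q4_contOn_tsum {T u : ℝ} (hu : 0 < u) (huT : u ≤ T) :
    ContinuousOn (fun t => ∑' p : ℕ × ℕ, W2 t p) (win u) := by
  obtain ⟨C, hC, h⟩ := q4_W2_le
  refine continuousOn_tsum (u := fun p : ℕ × ℕ => C * T ^ 4 *
    ((p.1:ℝ) ^ (-(9/2) : ℝ) * (p.2:ℝ) ^ (-(9/2) : ℝ))) (fun p => ?_)
    (q4_summable_maj.mul_left _) (fun p t ht => ?_)
  · exact q4_contOn_W2 hu p.1 p.2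
  · exact h T u hu huT t ht p.1 p.2

theorem q4_hasSum {T u : ℝ} (hu : 0 < u) (huT : u ≤ T) (N : ℕ) {K : ℕ → ℕ → ℂ} {K0 : ℝ}
    (hK : ∀ h k, ‖K h k‖ ≤ K0) :
    HasSum (fun p : ℕ × ℕ => ∫ t in win u, W2 t p * QForm N K t ∂(gaussianReal u (vw T)))
      (∫ t in win u, (∑' p : ℕ × ℕ, W2 t p) * QForm N K t ∂(gaussianReal u (vw T))) := by
  have hK0 : 0 ≤ K0 := (norm_nonneg _).trans (hK 0 0)
  have hT : 0 < T := hu.trans_le huT
  obtain ⟨C, hC, h⟩ := q4_W2_le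
  have hcont : ∀ p : ℕ × ℕ, ContinuousOn (fun t => W2 t p * QForm N K t) (win u) := fun p =>
    (q4_contOn_W2 hu p.1 p.2).mul (q4_continuous_QForm N K).continuousOn
  suffices hmaj : Summable fun p : ℕ × ℕ => ∫ t in win u, ‖W2 t p * QForm N K t‖
      ∂(gaussianReal u (vw T)) by
    have h1 := hasSum_integral_of_summable_integral_norm
      (μ := (gaussianReal u (vw T)).restrict (win u))
      (F := fun (p : ℕ × ℕ) t => W2 t p * QForm N K t) (fun p => q4_intOn (hcont p)) hmaj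
    have h2 : (∫ t in win u, (∑' p : ℕ × ℕ, W2 t p) * QForm N K t ∂(gaussianReal u (vw T))) =
        ∫ t in win u, ∑' p : ℕ × ℕ, W2 t p * QForm N K t ∂(gaussianReal u (vw T)) :=
      integral_congr_ae (Filter.Eventually.of_forall fun t => (tsum_mul_right).symm)
    rw [h2]
    exact h1
  · refine Summable.of_nonneg_of_le (fun p => integral_nonneg fun t => norm_nonneg _)
      (fun p => ?_) ((q4_summable_maj.mul_left (C * T ^ 4)).mul_left (K0 * (4 * N)))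
    have hB : 0 ≤ K0 * (4 * N) * (C * T ^ 4 *
        ((p.1:ℝ) ^ (-(9/2) : ℝ) * (p.2:ℝ) ^ (-(9/2) : ℝ))) := by positivity
    have h2 := q4_norm_int_le (E := ℝ) (T := T) (u := u) (f := fun t => ‖W2 t p * QForm N K t‖) hB
      (fun t ht => by
        rw [norm_norm, norm_mul, mul_comm]
        exact mul_le_mul (q4_norm_QForm_le hK t) (h T u hu huT t ht p.1 p.2) (norm_nonneg _)
          (by positivity))
    exact (le_abs_self _).trans h2

/-! ### The diagonal -/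

/-- The real integral. -/
noncomputable def q4_Jr (T u x : ℝ) : ℝ :=
  ∫ t in win u, PhR (Real.log (t / (2 * Real.pi)) - Real.log x) ∂(gaussianReal u (vw T))

theorem q4_J_zero (T u x : ℝ) : q4_J T u x 0 = ((q4_Jr T u x : ℝ) : ℂ) := by
  unfold q4_J q4_Jr
  rw [← integral_complex_ofReal]
  refine integral_congr_ae (Filter.Eventually.of_forall fun t => ?_)
  simp only [zero_mul, Complex.ofReal_zero, neg_zero, Complex.exp_zero, mul_one]
  exact Ph_zero _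

theorem q4_diag {T u : ℝ} {h k : ℕ} (hh : 1 ≤ h) (hk : 1 ≤ k) (K : ℕ → ℕ → ℂ) {S : ℝ}
    (hS : HasSum (fun j : ℕ => (j:ℝ)⁻¹ *
      q4_Jr T u ((j:ℝ) ^ 2 * (((h:ℝ) * k) / (Nat.gcd h k : ℝ) ^ 2))) S) :
    HasSum (fun p : ℕ × ℕ => if p.1 * h = p.2 * k then q4_co K p.1 p.2 h k *
      q4_J T u ((p.1:ℝ) * p.2) (Real.log (((p.1:ℝ) * h) / ((p.2:ℝ) * k))) else 0)
      (K h k * ((gk h k * S : ℝ) : ℂ)) := by
  set g := Nat.gcd h k with hg
  have hg0 : 0 < g := Nat.gcd_pos_of_pos_left k hh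
  obtain ⟨h', hh'⟩ : g ∣ h := Nat.gcd_dvd_left h k
  obtain ⟨k', hk'⟩ : g ∣ k := Nat.gcd_dvd_right h k
  have hcop : Nat.Coprime h' k' := by
    have := Nat.coprime_div_gcd_div_gcd (m := h) (n := k) hg0
    rw [← hg] at this
    rwa [hh', hk', Nat.mul_div_cancel_left _ hg0, Nat.mul_div_cancel_left _ hg0] at this
  have hk'0 : 0 < k' := by
    rcases Nat.eq_zero_or_pos k' with h0 | h0
    · rw [h0, mul_zero] at hk'; omega
    · exact h0
  have hh'0 : 0 < h' := by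
    rcases Nat.eq_zero_or_pos h' with h0 | h0
    · rw [h0, mul_zero] at hh'; omega
    · exact h0
  set φ : ℕ → ℕ × ℕ := fun j => (k' * j, h' * j) with hφ
  have hinj : Function.Injective φ := by
    intro i j hij
    have := congrArg Prod.fst hij
    exact Nat.eq_of_mul_eq_mul_left hk'0 this
  rw [← hinj.hasSum_iff]
  · have hgr : (0:ℝ) < g := by exact_mod_cast hg0
    have hk'r : (0:ℝ) < k' := by exact_mod_cast hk'0
    have hh'r : (0:ℝ) < h' := by exact_mod_cast hh'0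
    have ehr : (h:ℝ) = g * h' := by exact_mod_cast hh'
    have ekr : (k:ℝ) = g * k' := by exact_mod_cast hk'
    have hS' := (Complex.hasSum_ofReal.2 hS).mul_left (K h k * ((gk h k : ℝ) : ℂ))
    have hval : K h k * ((gk h k * S : ℝ) : ℂ) = K h k * ((gk h k : ℝ) : ℂ) * (S : ℂ) := by
      push_cast
      ring
    rw [hval]
    have hfun : ((fun p : ℕ × ℕ => if p.1 * h = p.2 * k then q4_co K p.1 p.2 h k *
      q4_J T u ((p.1:ℝ) * p.2) (Real.log (((p.1:ℝ) * h) / ((p.2:ℝ) * k))) else 0) ∘ φ) =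
      fun j : ℕ => K h k * ((gk h k : ℝ) : ℂ) * (((j:ℝ)⁻¹ *
        q4_Jr T u ((j:ℝ) ^ 2 * (((h:ℝ) * k) / (g : ℝ) ^ 2)) : ℝ) : ℂ) := by
      funext j
      have e1 : (φ j).1 * h = (φ j).2 * k := by
        simp only [hφ]
        rw [hh', hk']
        ring
      have e2 : Real.log ((((φ j).1 : ℕ) : ℝ) * h / ((((φ j).2 : ℕ) : ℝ) * k)) = 0 := by
        have e3 : (((φ j).1 : ℕ) : ℝ) * h = (((φ j).2 : ℕ) : ℝ) * k := by exact_mod_cast e1
        rw [e3]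
        rcases eq_or_ne ((((φ j).2 : ℕ) : ℝ) * k) 0 with h0 | h0
        · rw [h0]; simp
        · rw [div_self h0, Real.log_one]
      have e4 : (((φ j).1 : ℕ) : ℝ) * (((φ j).2 : ℕ) : ℝ) =
          (j:ℝ) ^ 2 * (((h:ℝ) * k) / (g : ℝ) ^ 2) := by
        simp only [hφ]
        push_cast
        rw [ehr, ekr]
        field_simp
      have e5 : ((((φ j).1 : ℕ) : ℝ) * (((φ j).2 : ℕ) : ℝ) * h * k) ^ (-(1/2) : ℝ) =
          ((g:ℝ) / ((h:ℝ) * k)) * (j:ℝ)⁻¹ := by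
        have e6 : (((φ j).1 : ℕ) : ℝ) * (((φ j).2 : ℕ) : ℝ) * h * k =
            ((j:ℝ) * (h * k / g)) ^ 2 := by
          rw [e4]
          field_simp
        rw [e6, Real.rpow_neg (by positivity), ← Real.sqrt_eq_rpow, Real.sqrt_sq (by positivity),
          mul_inv, inv_div, mul_comm]
      simp only [Function.comp_apply]
      rw [if_pos e1, e2, q4_J_zero, e4]
      unfold q4_co gk
      rw [e5, ← hg]
      push_cast
      ring
    rw [hfun]
    exact hS'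
  · rintro ⟨a, b⟩ hab
    rw [if_neg]
    intro he
    apply hab
    have h1 : a * h' = b * k' := by
      apply Nat.eq_of_mul_eq_mul_left hg0
      simp only at he
      calc g * (a * h') = a * (g * h') := by ring
        _ = a * h := by rw [← hh']
        _ = b * k := he
        _ = b * (g * k') := by rw [← hk']
        _ = g * (b * k') := by ring
    have h2 : k' ∣ a := by
      have h3 : k' ∣ a * h' := ⟨b, by rw [h1]; ring⟩
      exact hcop.symm.dvd_of_dvd_mul_right h3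
    obtain ⟨j, rfl⟩ := h2
    refine ⟨j, ?_⟩
    have h3 : b = h' * j := by
      apply Nat.eq_of_mul_eq_mul_left hk'0
      calc k' * b = b * k' := by ring
        _ = k' * j * h' := h1.symm
        _ = k' * (h' * j) := by ring
    simp only [hφ, h3]

/-! ### The off-diagonal terms -/

theorem q4_offw_nonneg (T : ℝ) (a b h k : ℕ) : 0 ≤ offw T a b h k := by
  unfold offw
  split_ifs
  · exact le_rfl
  · have h1 := q4_tau_nonneg h
    have h2 := q4_tau_nonneg k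
    have h3 : 0 ≤ min 1 ((T / ((a:ℝ) * b)) ^ 4) := le_min zero_le_one (by positivity)
    have h4 : 0 ≤ min 1 ((Hw T)⁻¹ ^ 2 *
        (1 + ((Real.log (((a:ℝ) * h) / ((b:ℝ) * k))) ^ 2)⁻¹)) :=
      le_min zero_le_one (by positivity)
    positivity

theorem q4_off_le {T u C2 K0 : ℝ} (hC2 : 0 < C2)
    (hosc : ∀ x : ℝ, 1 ≤ x → ∀ l : ℝ, l ≠ 0 → ‖q4_J T u x l‖ ≤
      C2 * min 1 ((T / x) ^ 4) * min 1 ((Hw T)⁻¹ ^ 2 * (1 + (l ^ 2)⁻¹)))
    {K : ℕ → ℕ → ℂ} (hK : ∀ h k, ‖K h k‖ ≤ K0) (a b : ℕ) {h k : ℕ} (hh : 1 ≤ h) (hk : 1 ≤ k) :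
    ‖(if a * h = b * k then 0 else q4_co K a b h k *
      q4_J T u ((a:ℝ) * b) (Real.log (((a:ℝ) * h) / ((b:ℝ) * k))) : ℂ)‖ ≤
      K0 * C2 * offw T a b h k := by
  have hK0 : 0 ≤ K0 := (norm_nonneg _).trans (hK 0 0)
  by_cases he : a * h = b * k
  · rw [if_pos he, norm_zero]
    exact mul_nonneg (mul_nonneg hK0 hC2.le) (q4_offw_nonneg _ _ _ _ _)
  rw [if_neg he]
  by_cases hab : a = 0 ∨ b = 0
  · have h2 : ((a:ℝ) * b * h * k) ^ (-(1/2) : ℝ) = 0 := by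
      have h3 : (a:ℝ) * b * h * k = 0 := by
        rcases hab with rfl | rfl <;> simp
      rw [h3, Real.zero_rpow (by norm_num)]
    unfold q4_co
    rw [h2, Complex.ofReal_zero, mul_zero, zero_mul, norm_zero]
    exact mul_nonneg (mul_nonneg hK0 hC2.le) (q4_offw_nonneg _ _ _ _ _)
  · have hne : ¬ (a = 0 ∨ b = 0 ∨ a * h = b * k) := by tauto
    push Not at hab
    have ha : 1 ≤ a := Nat.one_le_iff_ne_zero.2 hab.1
    have hb : 1 ≤ b := Nat.one_le_iff_ne_zero.2 hab.2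
    have ha' : (0:ℝ) < a := by exact_mod_cast ha
    have hb' : (0:ℝ) < b := by exact_mod_cast hb
    have hh' : (0:ℝ) < h := by exact_mod_cast hh
    have hk' : (0:ℝ) < k := by exact_mod_cast hk
    have hx : (1:ℝ) ≤ (a:ℝ) * b := by exact_mod_cast Nat.mul_pos ha hb
    have hl : Real.log (((a:ℝ) * h) / ((b:ℝ) * k)) ≠ 0 := by
      apply Real.log_ne_zero_of_pos_of_ne_one (by positivity)
      intro h1
      rw [div_eq_one_iff_eq (by positivity)] at h1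
      exact he (by exact_mod_cast h1)
    have h1 := hosc _ hx _ hl
    unfold offw
    rw [if_neg hne, norm_mul]
    unfold q4_co
    rw [norm_mul, norm_mul, Complex.norm_real, Complex.norm_real, Real.norm_eq_abs,
      Real.norm_eq_abs, abs_of_nonneg (mul_nonneg (q4_tau_nonneg h) (q4_tau_nonneg k)),
      abs_of_nonneg (by positivity : (0:ℝ) ≤ ((a:ℝ) * b * h * k) ^ (-(1/2) : ℝ))]
    have h5 : 0 ≤ tau (1/2) h * tau (1/2) k := mul_nonneg (q4_tau_nonneg h) (q4_tau_nonneg k)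
    have h6 : 0 ≤ ((a:ℝ) * b * h * k) ^ (-(1/2) : ℝ) := by positivity
    calc ‖K h k‖ * (tau (1/2) h * tau (1/2) k) * ((a:ℝ) * b * h * k) ^ (-(1/2) : ℝ) *
          ‖q4_J T u ((a:ℝ) * b) (Real.log (((a:ℝ) * h) / ((b:ℝ) * k)))‖
        ≤ K0 * (tau (1/2) h * tau (1/2) k) * ((a:ℝ) * b * h * k) ^ (-(1/2) : ℝ) *
          (C2 * min 1 ((T / ((a:ℝ) * b)) ^ 4) * min 1 ((Hw T)⁻¹ ^ 2 *
            (1 + ((Real.log (((a:ℝ) * h) / ((b:ℝ) * k))) ^ 2)⁻¹))) := by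
          refine mul_le_mul ?_ h1 (norm_nonneg _) (mul_nonneg (mul_nonneg hK0 h5) h6)
          exact mul_le_mul_of_nonneg_right (mul_le_mul_of_nonneg_right (hK h k) h5) h6
      _ = _ := by ring

/-! ### Sizes -/

theorem q4_XN_le {T : ℝ} (hT : Real.exp 2 ≤ T) :
    1 ≤ XN T ∧ (XN T : ℝ) ≤ T ^ (1/2 : ℝ) * (Real.log T) ^ (1/16 : ℝ) ∧
      Real.log (XN T) ≤ Real.log T := by
  have hT0 : 0 < T := (Real.exp_pos 2).trans_le hT
  have hL : 2 ≤ Real.log T := by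
    rw [Real.le_log_iff_exp_le hT0]
    exact hT
  have hT1 : 1 ≤ T := (Real.one_le_exp (by norm_num)).trans hT
  have h1 : 1 ≤ T ^ (1/2 : ℝ) * (Real.log T) ^ (1/16 : ℝ) := by
    have e1 : (1:ℝ) ≤ T ^ (1/2 : ℝ) := Real.one_le_rpow hT1 (by norm_num)
    have e2 : (1:ℝ) ≤ (Real.log T) ^ (1/16 : ℝ) := Real.one_le_rpow (by linarith) (by norm_num)
    nlinarith
  have h2 : (XN T : ℝ) ≤ T ^ (1/2 : ℝ) * (Real.log T) ^ (1/16 : ℝ) :=
    Nat.floor_le (by positivity)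
  have h3 : 1 ≤ XN T := Nat.le_floor (by exact_mod_cast h1)
  refine ⟨h3, h2, ?_⟩
  have h4 : (0:ℝ) < XN T := by exact_mod_cast h3
  refine Real.log_le_log h4 (h2.trans ?_)
  have h5 : (Real.log T) ^ (1/16 : ℝ) ≤ T ^ (1/2 : ℝ) := by
    calc (Real.log T) ^ (1/16 : ℝ) ≤ T ^ (1/16 : ℝ) :=
          Real.rpow_le_rpow (by linarith) (Real.log_le_self hT0.le) (by norm_num)
      _ ≤ T ^ (1/2 : ℝ) := Real.rpow_le_rpow_of_exponent_le hT1 (by norm_num)
  calc T ^ (1/2 : ℝ) * (Real.log T) ^ (1/16 : ℝ) ≤ T ^ (1/2 : ℝ) * T ^ (1/2 : ℝ) :=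
        mul_le_mul_of_nonneg_left h5 (by positivity)
    _ = T := by
      rw [← Real.rpow_add hT0]
      norm_num

theorem q4_err {η T u C1 t0 : ℝ} (hη : 0 < η) (hC1 : 0 < C1)
    (hzeta : ∀ t, t0 ≤ t → ∀ c, 1/2 < c → c ≤ 1 →
      ‖((‖riemannZeta (crit t)‖ ^ 2 : ℝ) : ℂ) - 2 * ∑' p : ℕ × ℕ, W2 t p‖ ≤
        C1 * t ^ (c - 1) * (1 / (c - 1/2)) ^ 2)
    (hT : Real.exp 2 ≤ T) (ht0 : t0 ≤ η * T / 2) (h1 : η * T ≤ u) (h2 : u ≤ T) {t : ℝ}
    (ht : t ∈ win u) :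
    ‖((‖riemannZeta (crit t)‖ ^ 2 : ℝ) : ℂ) - 2 * ∑' p : ℕ × ℕ, W2 t p‖ ≤
      C1 * (Real.exp 1 * (η / 2) ^ (-(1/2) : ℝ)) * (T ^ (-(1/2) : ℝ) * (Real.log T) ^ 2) := by
  have hT0 : 0 < T := (Real.exp_pos 2).trans_le hT
  have hL : 2 ≤ Real.log T := by
    rw [Real.le_log_iff_exp_le hT0]
    exact hT
  have hL0 : 0 < Real.log T := by linarith
  have hηT : 0 < η * T / 2 := by positivity
  have htt : η * T / 2 ≤ t := by
    have := ht.1
    linarith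
  have hinv : 1 / Real.log T ≤ 1 / 2 := one_div_le_one_div_of_le (by norm_num) hL
  have hinv0 : 0 < 1 / Real.log T := by positivity
  have h3 := hzeta t (ht0.trans htt) (1/2 + 1 / Real.log T) (by linarith) (by linarith)
  refine h3.trans ?_
  have e1 : (1 / (1/2 + 1 / Real.log T - 1/2)) ^ 2 = (Real.log T) ^ 2 := by
    congr 1
    field_simp
    ring
  have e2 : t ^ (1/2 + 1 / Real.log T - 1) ≤ (η * T / 2) ^ (1/2 + 1 / Real.log T - 1) :=
    Real.rpow_le_rpow_of_nonpos hηT htt (by linarith)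
  have e3 : (η * T / 2) ^ (1/2 + 1 / Real.log T - 1) =
      (η * T / 2) ^ (1 / Real.log T) * ((η / 2) ^ (-(1/2) : ℝ) * T ^ (-(1/2) : ℝ)) := by
    rw [← Real.mul_rpow (by positivity) hT0.le,
      show η / 2 * T = η * T / 2 by ring, ← Real.rpow_add hηT]
    congr 1
    ring
  have e4 : (η * T / 2) ^ (1 / Real.log T) ≤ Real.exp 1 := by
    calc (η * T / 2) ^ (1 / Real.log T) ≤ T ^ (1 / Real.log T) :=
          Real.rpow_le_rpow hηT.le (by linarith) hinv0.le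
      _ = Real.exp 1 := by
          rw [Real.rpow_def_of_pos hT0, mul_one_div_cancel hL0.ne']
  rw [e1]
  have e5 : t ^ (1/2 + 1 / Real.log T - 1) ≤
      Real.exp 1 * ((η / 2) ^ (-(1/2) : ℝ) * T ^ (-(1/2) : ℝ)) := by
    refine e2.trans ?_
    rw [e3]
    exact mul_le_mul_of_nonneg_right e4 (by positivity)
  calc C1 * t ^ (1/2 + 1 / Real.log T - 1) * (Real.log T) ^ 2
      ≤ C1 * (Real.exp 1 * ((η / 2) ^ (-(1/2) : ℝ) * T ^ (-(1/2) : ℝ))) * (Real.log T) ^ 2 :=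
        mul_le_mul_of_nonneg_right (mul_le_mul_of_nonneg_left e5 hC1.le) (by positivity)
    _ = _ := by ring

theorem qform_mean {η : ℝ} (hη : 0 < η) : ∃ C : ℝ, 0 < C ∧ ∀ᶠ p : ℝ × ℝ in Fl η, ∀ K : ℕ → ℕ → ℂ, ∀ K0 : ℝ, (∀ h k, ‖K h k‖ ≤ K0) →
    ‖(∫ t in win p.2, ((‖riemannZeta (crit t)‖ ^ 2 : ℝ) : ℂ) * QForm (XN p.1) K t ∂(gaussianReal p.2 (vw p.1))) -
      ∑ h ∈ Finset.Icc 1 (XN p.1), ∑ k ∈ Finset.Icc 1 (XN p.1), K h k * ((gk h k * ell p.1 h k : ℝ) : ℂ)‖ ≤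
      C * K0 * (Real.log p.1) ^ (2 + 1/8 : ℝ) := by
  obtain ⟨C1, t0, hC1, -, hzeta⟩ := zeta_sq_approx
  obtain ⟨C2, hC2, hosc⟩ := osc hη
  obtain ⟨C3, hC3, hoff⟩ := offdiag_sum
  obtain ⟨C4, hC4, hdiag⟩ := diag_sum hη
  obtain ⟨C5, hC5, hgk⟩ := sum_gk_le
  set B1 : ℝ := C1 * (Real.exp 1 * (η / 2) ^ (-(1/2) : ℝ)) with hB1
  have hB10 : 0 < B1 := by positivity
  refine ⟨4 * B1 + 2 * (C2 * C3) + C4 * C5 * (2:ℝ) ^ (5/4 : ℝ), by positivity, ?_⟩
  have hT1 : ∀ᶠ p : ℝ × ℝ in Fl η, Real.exp 2 ≤ p.1 :=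
    (Fl_fst η).eventually (eventually_ge_atTop _)
  have hT2 : ∀ᶠ p : ℝ × ℝ in Fl η, 2 * t0 / η ≤ p.1 :=
    (Fl_fst η).eventually (eventually_ge_atTop _)
  filter_upwards [hT1, hT2, Fl_range η, hosc, (Fl_fst η).eventually hoff, hdiag] with p hT ht0 hr
    hosc hoff hdiag K K0 hK
  obtain ⟨T, u⟩ := p
  simp only at hT ht0 hr hosc hoff hdiag ⊢
  obtain ⟨hr1, hr2⟩ := hr
  have hK0 : 0 ≤ K0 := (norm_nonneg _).trans (hK 0 0)
  have hT0 : 0 < T := (Real.exp_pos 2).trans_le hT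
  have hu : 0 < u := (mul_pos hη hT0).trans_le hr1
  have hL : 2 ≤ Real.log T := by
    rw [Real.le_log_iff_exp_le hT0]
    exact hT
  have hL0 : 0 < Real.log T := by linarith
  have ht0' : t0 ≤ η * T / 2 := by
    rw [div_le_iff₀ hη] at ht0
    linarith
  obtain ⟨hN1, hN2, hN3⟩ := q4_XN_le hT
  set N := XN T with hN
  set μ := gaussianReal u (vw T) with hμ
  -- the approximate functional equation
  have hi1 : IntegrableOn (fun t => ((‖riemannZeta (crit t)‖ ^ 2 : ℝ) : ℂ) * QForm N K t)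
      (win u) μ := by
    refine q4_intOn (Continuous.continuousOn ?_)
    exact (Complex.continuous_ofReal.comp (continuous_zeta_crit.norm.pow 2)).mul
      (q4_continuous_QForm N K)
  have hi2 : IntegrableOn (fun t => (∑' p : ℕ × ℕ, W2 t p) * QForm N K t) (win u) μ :=
    q4_intOn ((q4_contOn_tsum hu hr2).mul (q4_continuous_QForm N K).continuousOn)
  have hE : ‖(∫ t in win u, ((‖riemannZeta (crit t)‖ ^ 2 : ℝ) : ℂ) * QForm N K t ∂μ) -
      2 * ∫ t in win u, (∑' p : ℕ × ℕ, W2 t p) * QForm N K t ∂μ‖ ≤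
      4 * B1 * K0 * (Real.log T) ^ (2 + 1/8 : ℝ) := by
    rw [← integral_const_mul, ← integral_sub hi1 (hi2.const_mul 2)]
    have hB : 0 ≤ (B1 * (T ^ (-(1/2) : ℝ) * (Real.log T) ^ 2)) * (K0 * (4 * N)) := by positivity
    have h3 := q4_norm_int_le (T := T) (u := u)
      (f := fun t => ((‖riemannZeta (crit t)‖ ^ 2 : ℝ) : ℂ) * QForm N K t -
        2 * ((∑' p : ℕ × ℕ, W2 t p) * QForm N K t)) hB (fun t ht => by
        have e : ((‖riemannZeta (crit t)‖ ^ 2 : ℝ) : ℂ) * QForm N K t -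
            2 * ((∑' p : ℕ × ℕ, W2 t p) * QForm N K t) =
            (((‖riemannZeta (crit t)‖ ^ 2 : ℝ) : ℂ) - 2 * ∑' p : ℕ × ℕ, W2 t p) *
              QForm N K t := by ring
        rw [e, norm_mul]
        exact mul_le_mul (q4_err hη hC1 hzeta hT ht0' hr1 hr2 ht) (q4_norm_QForm_le hK t)
          (norm_nonneg _) (by positivity))
    refine h3.trans ?_
    have h4 : T ^ (-(1/2) : ℝ) * (N:ℝ) ≤ (Real.log T) ^ (1/16 : ℝ) := by
      calc T ^ (-(1/2) : ℝ) * (N:ℝ) ≤ T ^ (-(1/2) : ℝ) *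
            (T ^ (1/2 : ℝ) * (Real.log T) ^ (1/16 : ℝ)) :=
            mul_le_mul_of_nonneg_left hN2 (by positivity)
        _ = (T ^ (-(1/2) : ℝ) * T ^ (1/2 : ℝ)) * (Real.log T) ^ (1/16 : ℝ) := by ring
        _ = (Real.log T) ^ (1/16 : ℝ) := by
            rw [← Real.rpow_add hT0]
            norm_num
    have h5 : (Real.log T) ^ 2 * (Real.log T) ^ (1/16 : ℝ) ≤ (Real.log T) ^ (2 + 1/8 : ℝ) := by
      rw [← Real.rpow_natCast, ← Real.rpow_add hL0]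
      exact Real.rpow_le_rpow_of_exponent_le (by linarith) (by norm_num)
    calc (B1 * (T ^ (-(1/2) : ℝ) * (Real.log T) ^ 2)) * (K0 * (4 * N))
        = 4 * B1 * K0 * ((Real.log T) ^ 2 * (T ^ (-(1/2) : ℝ) * (N:ℝ))) := by ring
      _ ≤ 4 * B1 * K0 * ((Real.log T) ^ 2 * (Real.log T) ^ (1/16 : ℝ)) := by
          refine mul_le_mul_of_nonneg_left ?_ (by positivity)
          exact mul_le_mul_of_nonneg_left h4 (by positivity)
      _ ≤ 4 * B1 * K0 * (Real.log T) ^ (2 + 1/8 : ℝ) :=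
          mul_le_mul_of_nonneg_left h5 (by positivity)
  -- the sum
  have hsum := q4_hasSum hu hr2 N hK
  have hosc' : ∀ x : ℝ, 1 ≤ x → ∀ l : ℝ, l ≠ 0 → ‖q4_J T u x l‖ ≤
      C2 * min 1 ((T / x) ^ 4) * min 1 ((Hw T)⁻¹ ^ 2 * (1 + (l ^ 2)⁻¹)) := hosc
  set fd : ℕ × ℕ → ℂ := fun p => ∑ h ∈ Finset.Icc 1 N, ∑ k ∈ Finset.Icc 1 N,
    if p.1 * h = p.2 * k then q4_co K p.1 p.2 h k *
      q4_J T u ((p.1:ℝ) * p.2) (Real.log (((p.1:ℝ) * h) / ((p.2:ℝ) * k))) else 0 with hfd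
  set fo : ℕ × ℕ → ℂ := fun p => ∑ h ∈ Finset.Icc 1 N, ∑ k ∈ Finset.Icc 1 N,
    if p.1 * h = p.2 * k then 0 else q4_co K p.1 p.2 h k *
      q4_J T u ((p.1:ℝ) * p.2) (Real.log (((p.1:ℝ) * h) / ((p.2:ℝ) * k))) with hfo
  have hsplit : ∀ p : ℕ × ℕ, ∫ t in win u, W2 t p * QForm N K t ∂μ = fd p + fo p := by
    rintro ⟨a, b⟩
    rw [hμ, q4_term hu N K a b, hfd, hfo]
    simp only
    rw [← Finset.sum_add_distrib]
    refine Finset.sum_congr rfl fun h _ => ?_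
    rw [← Finset.sum_add_distrib]
    refine Finset.sum_congr rfl fun k _ => ?_
    split_ifs
    · rw [add_zero]
    · rw [zero_add]
  -- the diagonal
  set S : ℕ → ℕ → ℝ := fun h k => ∑' j : ℕ, (j:ℝ)⁻¹ *
    q4_Jr T u ((j:ℝ) ^ 2 * (((h:ℝ) * k) / (Nat.gcd h k : ℝ) ^ 2)) with hS
  have hx : ∀ h k : ℕ, 1 ≤ h → 1 ≤ k → (1:ℝ) ≤ ((h:ℝ) * k) / (Nat.gcd h k : ℝ) ^ 2 := by
    intro h k hh hk
    have hg0 : 0 < Nat.gcd h k := Nat.gcd_pos_of_pos_left k hh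
    have hgr : (0:ℝ) < (Nat.gcd h k : ℝ) := by exact_mod_cast hg0
    rw [le_div_iff₀ (by positivity), one_mul, sq]
    have e1 : (Nat.gcd h k : ℝ) ≤ h := by exact_mod_cast Nat.gcd_le_left k hh
    have e2 : (Nat.gcd h k : ℝ) ≤ k := by exact_mod_cast Nat.gcd_le_right h hk
    exact mul_le_mul e1 e2 hgr.le (by positivity)
  have hDsum : HasSum fd (∑ h ∈ Finset.Icc 1 N, ∑ k ∈ Finset.Icc 1 N,
      K h k * ((gk h k * S h k : ℝ) : ℂ)) := by
    refine hasSum_sum fun h hh => hasSum_sum fun k hk => ?_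
    have hh1 := (Finset.mem_Icc.1 hh).1
    have hk1 := (Finset.mem_Icc.1 hk).1
    exact q4_diag hh1 hk1 K (hdiag _ (hx h k hh1 hk1)).1.hasSum
  -- the off-diagonal
  have hfo_le : ∀ p : ℕ × ℕ, ‖fo p‖ ≤ K0 * C2 * ∑ h ∈ Finset.Icc 1 N, ∑ k ∈ Finset.Icc 1 N,
      offw T p.1 p.2 h k := by
    intro p
    rw [Finset.mul_sum]
    refine (norm_sum_le _ _).trans (Finset.sum_le_sum fun h hh => ?_)
    rw [Finset.mul_sum]
    refine (norm_sum_le _ _).trans (Finset.sum_le_sum fun k hk => ?_)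
    exact q4_off_le hC2 hosc' hK p.1 p.2 (Finset.mem_Icc.1 hh).1 (Finset.mem_Icc.1 hk).1
  have hoffs := hoff.1.hasSum.mul_left (K0 * C2)
  have hfos : Summable fo := Summable.of_norm_bounded hoffs.summable hfo_le
  have hfo_norm : ‖∑' p, fo p‖ ≤ K0 * C2 * (C3 * (Real.log T) ^ (2 + 1/8 : ℝ)) :=
    (tsum_of_norm_bounded hoffs hfo_le).trans
      (mul_le_mul_of_nonneg_left hoff.2 (by positivity))
  have htot : (∫ t in win u, (∑' p : ℕ × ℕ, W2 t p) * QForm N K t ∂μ) =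
      (∑ h ∈ Finset.Icc 1 N, ∑ k ∈ Finset.Icc 1 N, K h k * ((gk h k * S h k : ℝ) : ℂ)) +
        ∑' p, fo p := by
    have h1 := hDsum.add hfos.hasSum
    have h2 : (fun p : ℕ × ℕ => ∫ t in win u, W2 t p * QForm N K t ∂μ) =
        fun p => fd p + fo p := funext hsplit
    rw [h2] at hsum
    exact hsum.unique h1
  -- the comparison with `ell`
  have hgk0 : ∀ h k : ℕ, 0 ≤ gk h k := fun h k => by
    have h1 := q4_tau_nonneg h
    have h2 := q4_tau_nonneg k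
    unfold gk
    positivity
  have hD : ‖2 * (∑ h ∈ Finset.Icc 1 N, ∑ k ∈ Finset.Icc 1 N,
      K h k * ((gk h k * S h k : ℝ) : ℂ)) -
      ∑ h ∈ Finset.Icc 1 N, ∑ k ∈ Finset.Icc 1 N, K h k * ((gk h k * ell T h k : ℝ) : ℂ)‖ ≤
      C4 * C5 * (2:ℝ) ^ (5/4 : ℝ) * K0 * (Real.log T) ^ (2 + 1/8 : ℝ) := by
    have e1 : 2 * (∑ h ∈ Finset.Icc 1 N, ∑ k ∈ Finset.Icc 1 N,
        K h k * ((gk h k * S h k : ℝ) : ℂ)) -
        ∑ h ∈ Finset.Icc 1 N, ∑ k ∈ Finset.Icc 1 N, K h k * ((gk h k * ell T h k : ℝ) : ℂ) =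
        ∑ h ∈ Finset.Icc 1 N, ∑ k ∈ Finset.Icc 1 N,
          K h k * ((gk h k * (2 * S h k - ell T h k) : ℝ) : ℂ) := by
      rw [Finset.mul_sum, ← Finset.sum_sub_distrib]
      refine Finset.sum_congr rfl fun h _ => ?_
      rw [Finset.mul_sum, ← Finset.sum_sub_distrib]
      refine Finset.sum_congr rfl fun k _ => ?_
      push_cast
      ring
    rw [e1]
    have e2 : ∀ h ∈ Finset.Icc 1 N, ∀ k ∈ Finset.Icc 1 N,
        ‖K h k * ((gk h k * (2 * S h k - ell T h k) : ℝ) : ℂ)‖ ≤ K0 * C4 * gk h k := by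
      intro h hh k hk
      have hh1 := (Finset.mem_Icc.1 hh).1
      have hk1 := (Finset.mem_Icc.1 hk).1
      have h1 := (hdiag _ (hx h k hh1 hk1)).2
      have h2 : T / (((h:ℝ) * k) / (Nat.gcd h k : ℝ) ^ 2) =
          T * (Nat.gcd h k : ℝ) ^ 2 / ((h:ℝ) * k) := by
        rw [div_div_eq_mul_div]
      rw [h2] at h1
      have h3 : |2 * S h k - ell T h k| ≤ C4 := h1
      rw [norm_mul, Complex.norm_real, Real.norm_eq_abs, abs_mul, abs_of_nonneg (hgk0 h k)]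
      calc ‖K h k‖ * (gk h k * |2 * S h k - ell T h k|) ≤ K0 * (gk h k * C4) :=
            mul_le_mul (hK h k) (mul_le_mul_of_nonneg_left h3 (hgk0 h k))
              (mul_nonneg (hgk0 h k) (abs_nonneg _)) hK0
        _ = K0 * C4 * gk h k := by ring
    have e3 : ‖∑ h ∈ Finset.Icc 1 N, ∑ k ∈ Finset.Icc 1 N,
        K h k * ((gk h k * (2 * S h k - ell T h k) : ℝ) : ℂ)‖ ≤
        K0 * C4 * ∑ h ∈ Finset.Icc 1 N, ∑ k ∈ Finset.Icc 1 N, gk h k := by
      rw [Finset.mul_sum]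
      refine (norm_sum_le _ _).trans (Finset.sum_le_sum fun h hh => ?_)
      rw [Finset.mul_sum]
      exact (norm_sum_le _ _).trans (Finset.sum_le_sum fun k hk => e2 h hh k hk)
    refine e3.trans ?_
    have e4 : (1 + Real.log (N:ℝ)) ^ (5/4 : ℝ) ≤
        (2:ℝ) ^ (5/4 : ℝ) * (Real.log T) ^ (2 + 1/8 : ℝ) := by
      have h0 : 0 ≤ Real.log (N:ℝ) := Real.log_natCast_nonneg N
      calc (1 + Real.log (N:ℝ)) ^ (5/4 : ℝ) ≤ (2 * Real.log T) ^ (5/4 : ℝ) :=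
            Real.rpow_le_rpow (by linarith) (by linarith) (by norm_num)
        _ = (2:ℝ) ^ (5/4 : ℝ) * (Real.log T) ^ (5/4 : ℝ) :=
            Real.mul_rpow (by norm_num) hL0.le
        _ ≤ (2:ℝ) ^ (5/4 : ℝ) * (Real.log T) ^ (2 + 1/8 : ℝ) := by
            refine mul_le_mul_of_nonneg_left ?_ (by positivity)
            exact Real.rpow_le_rpow_of_exponent_le (by linarith) (by norm_num)
    calc K0 * C4 * ∑ h ∈ Finset.Icc 1 N, ∑ k ∈ Finset.Icc 1 N, gk h k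
        ≤ K0 * C4 * (C5 * ((2:ℝ) ^ (5/4 : ℝ) * (Real.log T) ^ (2 + 1/8 : ℝ))) := by
          refine mul_le_mul_of_nonneg_left ?_ (by positivity)
          exact (hgk N hN1).trans (mul_le_mul_of_nonneg_left e4 hC5.le)
      _ = _ := by ring
  -- conclusion
  rw [htot] at hE
  set E := (∫ t in win u, ((‖riemannZeta (crit t)‖ ^ 2 : ℝ) : ℂ) * QForm N K t ∂μ)
  set D := ∑ h ∈ Finset.Icc 1 N, ∑ k ∈ Finset.Icc 1 N, K h k * ((gk h k * S h k : ℝ) : ℂ)
  set F := ∑ h ∈ Finset.Icc 1 N, ∑ k ∈ Finset.Icc 1 N, K h k * ((gk h k * ell T h k : ℝ) : ℂ)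
  have e5 : E - F = (E - 2 * (D + ∑' p, fo p)) + 2 * (∑' p, fo p) + (2 * D - F) := by ring
  rw [e5]
  refine (norm_add_le _ _).trans ?_
  have e6 := norm_add_le (E - 2 * (D + ∑' p, fo p)) (2 * (∑' p, fo p))
  have e7 : ‖2 * (∑' p, fo p)‖ = 2 * ‖∑' p, fo p‖ := by
    rw [norm_mul]
    norm_num
  rw [e7] at e6
  have e8 : (4 * B1 + 2 * (C2 * C3) + C4 * C5 * (2:ℝ) ^ (5/4 : ℝ)) * K0 *
      (Real.log T) ^ (2 + 1/8 : ℝ) = 4 * B1 * K0 * (Real.log T) ^ (2 + 1/8 : ℝ) +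
      2 * (K0 * C2 * (C3 * (Real.log T) ^ (2 + 1/8 : ℝ))) +
      C4 * C5 * (2:ℝ) ^ (5/4 : ℝ) * K0 * (Real.log T) ^ (2 + 1/8 : ℝ) := by ring
  rw [e8]
  linarith

end Pool.Agent.LibM3
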