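import Pool.Agent.LibM3.Defs

/-! Third moment, block A1: the complex Gaussian distribution function. -/

set_option autoImplicit false

namespace Pool.Agent.LibM3

open MeasureTheory Set Filter Topology Complex ProbabilityTheory
open scoped NNReal ComplexConjugate
open Pool.Agent.LibZM

/-- The Gaussian density on the line of height `θ`. -/
noncomputable def a1_g (θ x : ℝ) : ℂ := ((1 / (2 * √Real.pi) : ℝ) : ℂ) * cexp (-((x:ℂ) + θ * I) ^ 2 / 4)

theorem a1_g_cont (θ : ℝ) : Continuous (a1_g θ) := by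
  unfold a1_g
  fun_prop

theorem a1_g_eq (θ x : ℝ) : a1_g θ x = ((1 / (2 * √Real.pi) : ℝ) : ℂ) * cexp (-(1/4:ℂ) * ((x:ℂ) + θ * I) ^ 2) := by
  unfold a1_g
  congr 2
  ring

theorem a1_g_int (θ : ℝ) : Integrable (a1_g θ) := by
  have h := (GaussianFourier.integrable_cexp_neg_mul_sq_add_real_mul_I (b := (1/4:ℂ)) (by norm_num) θ).const_mul
    (((1 / (2 * √Real.pi) : ℝ) : ℂ))
  refine h.congr (Eventually.of_forall fun x => ?_)
  exact (a1_g_eq θ x).symm

theorem a1_g_total (θ : ℝ) : ∫ x : ℝ, a1_g θ x = 1 := by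
  have h := GaussianFourier.integral_cexp_neg_mul_sq_add_real_mul_I (b := (1/4:ℂ)) (by norm_num) θ
  simp_rw [a1_g_eq]
  rw [integral_const_mul, h]
  have h1 : ((Real.pi:ℂ) / (1/4:ℂ)) = (((4 * Real.pi : ℝ)) : ℂ) := by push_cast; ring
  have h2 : (((4 * Real.pi : ℝ)) : ℂ) ^ (1 / 2 : ℂ) = ((2 * √Real.pi : ℝ) : ℂ) := by
    have h3 : (2 * √Real.pi) = (4 * Real.pi) ^ (1/2 : ℝ) := by
      rw [← Real.sqrt_eq_rpow, Real.sqrt_mul (by norm_num)]
      congr 1
      rw [show (4:ℝ) = 2 ^ 2 by norm_num, Real.sqrt_sq (by norm_num)]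
    rw [h3, Complex.ofReal_cpow (by positivity)]
    push_cast
    rfl
  rw [h1, h2, ← Complex.ofReal_mul]
  have h4 : (0:ℝ) < √Real.pi := Real.sqrt_pos.mpr Real.pi_pos
  rw [← Complex.ofReal_one]
  congr 1
  field_simp

theorem a1_norm_exp_int (θ A : ℝ) : Integrable (fun x : ℝ => ‖a1_g θ x‖ * Real.exp (A * x)) := by
  have h := ((integrable_cexp_quadratic' (b := (-(1/4):ℂ)) (by norm_num) (-(θ/2:ℝ) * I + (A:ℂ)) ((θ:ℂ)^2/4)).const_mul
    (((1 / (2 * √Real.pi) : ℝ) : ℂ))).norm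
  refine h.congr (Eventually.of_forall fun x => ?_)
  show ‖_‖ = ‖a1_g θ x‖ * Real.exp (A * x)
  have h1 : Real.exp (A * x) = ‖cexp ((A:ℂ) * x)‖ := by
    rw [Complex.norm_exp]
    congr 1
    simp
  rw [h1, ← norm_mul]
  congr 1
  rw [a1_g_eq, mul_assoc, ← Complex.exp_add]
  congr 2
  have hI : I ^ 2 = -1 := Complex.I_sq
  push_cast
  ring_nf
  rw [hI]
  ring

theorem Ph_zero (l : ℝ) : Ph 0 l = ((PhR l : ℝ) : ℂ) := by
  unfold Ph PhR
  rw [← integral_complex_ofReal]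
  refine integral_congr_ae (Eventually.of_forall fun x => ?_)
  show _ = _
  push_cast
  ring_nf

theorem a1_gR_eq (x : ℝ) : (((1 / (2 * √Real.pi) * Real.exp (-x ^ 2 / 4) : ℝ)) : ℂ) = a1_g 0 x := by
  unfold a1_g
  push_cast
  ring_nf

theorem a1_gR_nonneg (x : ℝ) : 0 ≤ 1 / (2 * √Real.pi) * Real.exp (-x ^ 2 / 4) := by positivity

theorem a1_gR_int : Integrable (fun x : ℝ => 1 / (2 * √Real.pi) * Real.exp (-x ^ 2 / 4)) := by
  have h := (a1_g_int 0).re
  refine h.congr (Eventually.of_forall fun x => ?_)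
  show (a1_g 0 x).re = _
  rw [← a1_gR_eq, Complex.ofReal_re]

theorem a1_gR_total : ∫ x : ℝ, 1 / (2 * √Real.pi) * Real.exp (-x ^ 2 / 4) = 1 := by
  have h := a1_g_total 0
  have h1 : ∫ x : ℝ, a1_g 0 x = ((∫ x : ℝ, 1 / (2 * √Real.pi) * Real.exp (-x ^ 2 / 4) : ℝ) : ℂ) := by
    rw [← integral_complex_ofReal]
    refine integral_congr_ae (Eventually.of_forall fun x => ?_)
    exact (a1_gR_eq x).symm
  rw [h1] at h
  exact_mod_cast h

theorem PhR_mem (l : ℝ) : 0 ≤ PhR l ∧ PhR l ≤ 1 := by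
  refine ⟨?_, ?_⟩
  · exact setIntegral_nonneg measurableSet_Iic fun x _ => a1_gR_nonneg x
  · rw [← a1_gR_total]
    exact setIntegral_le_integral a1_gR_int (Eventually.of_forall fun x => a1_gR_nonneg x)

theorem PhR_mono : Monotone PhR := by
  intro a b hab
  exact setIntegral_mono_set a1_gR_int.integrableOn (Eventually.of_forall fun x => a1_gR_nonneg x)
    (Iic_subset_Iic.mpr hab).eventuallyLE

theorem hasDerivAt_Ph (θ l : ℝ) :
    HasDerivAt (Ph θ) (((1 / (2 * √Real.pi) : ℝ) : ℂ) * cexp (-((l:ℂ) + θ * I) ^ 2 / 4)) l := by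
  have h1 : Ph θ = fun l => Ph θ 0 + ∫ x in (0:ℝ)..l, a1_g θ x := by
    funext l
    have h2 := intervalIntegral.integral_Iic_sub_Iic (f := a1_g θ) (a := 0) (b := l) (μ := volume)
      (a1_g_int θ).integrableOn (a1_g_int θ).integrableOn
    rw [← h2]
    show (∫ x in Iic l, a1_g θ x) = (∫ x in Iic 0, a1_g θ x) + _
    ring
  rw [h1]
  have h3 := intervalIntegral.integral_hasDerivAt_right ((a1_g_cont θ).intervalIntegrable 0 l)
    ((a1_g_cont θ).stronglyMeasurable.stronglyMeasurableAtFilter) (a1_g_cont θ).continuousAt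
  exact h3.const_add _

theorem hasDerivAt_PhR (l : ℝ) :
    HasDerivAt PhR (1 / (2 * √Real.pi) * Real.exp (-l ^ 2 / 4)) l := by
  have h1 : PhR = fun l => PhR 0 + ∫ x in (0:ℝ)..l, 1 / (2 * √Real.pi) * Real.exp (-x ^ 2 / 4) := by
    funext l
    have h2 := intervalIntegral.integral_Iic_sub_Iic (f := fun x : ℝ => 1 / (2 * √Real.pi) * Real.exp (-x ^ 2 / 4))
      (a := 0) (b := l) (μ := volume) a1_gR_int.integrableOn a1_gR_int.integrableOn
    rw [← h2]
    show PhR l = PhR 0 + (PhR l - PhR 0)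
    ring
  have hc : Continuous (fun x : ℝ => 1 / (2 * √Real.pi) * Real.exp (-x ^ 2 / 4)) := by fun_prop
  rw [h1]
  have h3 := intervalIntegral.integral_hasDerivAt_right (hc.intervalIntegrable 0 l)
    (hc.stronglyMeasurable.stronglyMeasurableAtFilter) hc.continuousAt
  exact h3.const_add _

theorem Ph_le (θ : ℝ) {A : ℝ} (hA : 0 ≤ A) :
    ∃ C : ℝ, 0 < C ∧ ∀ l : ℝ, ‖Ph θ l‖ ≤ C * min 1 (Real.exp (A * l)) := by
  set C1 := ∫ x : ℝ, ‖a1_g θ x‖ with hC1
  set C2 := ∫ x : ℝ, ‖a1_g θ x‖ * Real.exp (-A * x) with hC2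
  have hC1n : 0 ≤ C1 := integral_nonneg fun x => norm_nonneg _
  have hC2n : 0 ≤ C2 := integral_nonneg fun x => by positivity
  refine ⟨C1 + C2 + 1, by positivity, fun l => ?_⟩
  have hb1 : ‖Ph θ l‖ ≤ C1 := by
    refine (norm_integral_le_integral_norm _).trans ?_
    exact setIntegral_le_integral (a1_g_int θ).norm (Eventually.of_forall fun x => norm_nonneg _)
  have hb2 : ‖Ph θ l‖ ≤ C2 * Real.exp (A * l) := by
    refine (norm_integral_le_integral_norm _).trans ?_
    have h1 : ∫ x in Iic l, ‖a1_g θ x‖ ≤ ∫ x in Iic l, ‖a1_g θ x‖ * Real.exp (-A * x) * Real.exp (A * l) := by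
      refine setIntegral_mono_on (a1_g_int θ).norm.integrableOn
        ((a1_norm_exp_int θ (-A)).mul_const _).integrableOn measurableSet_Iic fun x hx => ?_
      rw [mul_assoc, ← Real.exp_add]
      have : 1 ≤ Real.exp (-A * x + A * l) := by
        apply Real.one_le_exp
        have hx' : x ≤ l := hx
        nlinarith
      nlinarith [norm_nonneg (a1_g θ x)]
    refine h1.trans ?_
    refine (setIntegral_le_integral ((a1_norm_exp_int θ (-A)).mul_const _)
      (Eventually.of_forall fun x => by positivity)).trans ?_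
    rw [integral_mul_const]
  have hE := Real.exp_pos (A * l)
  rcases le_total 1 (Real.exp (A * l)) with h | h
  · rw [min_eq_left h]
    linarith
  · rw [min_eq_right h]
    nlinarith

theorem a1_compl (θ l : ℝ) : 1 - Ph θ l = ∫ x in Ioi l, a1_g θ x := by
  have h := integral_add_compl (μ := volume) (f := a1_g θ) (measurableSet_Iic (a := l)) (a1_g_int θ)
  rw [a1_g_total, compl_Iic] at h
  rw [← h]
  show (∫ x in Iic l, a1_g θ x) + _ - (∫ x in Iic l, a1_g θ x) = _
  ring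

theorem one_sub_Ph_le (θ : ℝ) {A : ℝ} (hA : 0 ≤ A) :
    ∃ C : ℝ, 0 < C ∧ ∀ l : ℝ, ‖1 - Ph θ l‖ ≤ C * min 1 (Real.exp (-(A * l))) := by
  set C1 := ∫ x : ℝ, ‖a1_g θ x‖ with hC1
  set C2 := ∫ x : ℝ, ‖a1_g θ x‖ * Real.exp (A * x) with hC2
  have hC1n : 0 ≤ C1 := integral_nonneg fun x => norm_nonneg _
  have hC2n : 0 ≤ C2 := integral_nonneg fun x => by positivity
  refine ⟨C1 + C2 + 1, by positivity, fun l => ?_⟩
  rw [a1_compl]
  have hb1 : ‖∫ x in Ioi l, a1_g θ x‖ ≤ C1 := by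
    refine (norm_integral_le_integral_norm _).trans ?_
    exact setIntegral_le_integral (a1_g_int θ).norm (Eventually.of_forall fun x => norm_nonneg _)
  have hb2 : ‖∫ x in Ioi l, a1_g θ x‖ ≤ C2 * Real.exp (-(A * l)) := by
    refine (norm_integral_le_integral_norm _).trans ?_
    have h1 : ∫ x in Ioi l, ‖a1_g θ x‖ ≤ ∫ x in Ioi l, ‖a1_g θ x‖ * Real.exp (A * x) * Real.exp (-(A * l)) := by
      refine setIntegral_mono_on (a1_g_int θ).norm.integrableOn
        ((a1_norm_exp_int θ A).mul_const _).integrableOn measurableSet_Ioi fun x hx => ?_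
      rw [mul_assoc, ← Real.exp_add]
      have : 1 ≤ Real.exp (A * x + -(A * l)) := by
        apply Real.one_le_exp
        have hx' : l < x := hx
        nlinarith
      nlinarith [norm_nonneg (a1_g θ x)]
    refine h1.trans ?_
    refine (setIntegral_le_integral ((a1_norm_exp_int θ A).mul_const _)
      (Eventually.of_forall fun x => by positivity)).trans ?_
    rw [integral_mul_const]
  have hE := Real.exp_pos (-(A * l))
  rcases le_total 1 (Real.exp (-(A * l))) with h | h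
  · rw [min_eq_left h]
    linarith
  · rw [min_eq_right h]
    nlinarith

/-- The integrand of the Mellin-Barnes form. -/
noncomputable def a1_F (θ c l y : ℝ) : ℂ :=
  cexp (((c:ℂ) + y * I) ^ 2 + ((c:ℂ) + y * I) * ((l:ℂ) + θ * I)) / ((c:ℂ) + y * I)

/-- Its derivative in `l`. -/
noncomputable def a1_F' (θ c l y : ℝ) : ℂ :=
  cexp (((c:ℂ) + y * I) ^ 2 + ((c:ℂ) + y * I) * ((l:ℂ) + θ * I))

theorem a1_norm_F' (θ c l y : ℝ) : ‖a1_F' θ c l y‖ = Real.exp (c ^ 2 - y ^ 2 + c * l - y * θ) := by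
  unfold a1_F'
  rw [Complex.norm_exp]
  congr 1
  simp [sq]
  ring

theorem a1_ne {c : ℝ} (hc : 0 < c) (y : ℝ) : (c:ℂ) + y * I ≠ 0 := by
  intro h
  have := congrArg Complex.re h
  simp at this
  linarith

theorem a1_norm_F (θ : ℝ) {c : ℝ} (hc : 0 < c) (l y : ℝ) :
    ‖a1_F θ c l y‖ ≤ c⁻¹ * Real.exp (c ^ 2 - y ^ 2 + c * l - y * θ) := by
  have h1 : a1_F θ c l y = a1_F' θ c l y / ((c:ℂ) + y * I) := rfl
  rw [h1, norm_div, a1_norm_F', div_eq_inv_mul]
  have h2 : c ≤ ‖(c:ℂ) + y * I‖ := by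
    have := Complex.abs_re_le_norm ((c:ℂ) + y * I)
    simp at this
    exact (le_abs_self c).trans this
  gcongr

theorem a1_cont_F (θ : ℝ) {c : ℝ} (hc : 0 < c) (l : ℝ) : Continuous (a1_F θ c l) := by
  unfold a1_F
  refine Continuous.div (by fun_prop) (by fun_prop) fun y => a1_ne hc y

theorem a1_cont_F' (θ c l : ℝ) : Continuous (a1_F' θ c l) := by
  unfold a1_F'
  fun_prop

theorem a1_int_bd (θ c l : ℝ) : Integrable (fun y : ℝ => Real.exp (c ^ 2 - y ^ 2 + c * l - y * θ)) := by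
  have h := (integrable_cexp_quadratic' (b := (-1:ℂ)) (by norm_num) (-(θ:ℂ)) ((c:ℂ)^2 + c * l)).norm
  refine h.congr (Eventually.of_forall fun y => ?_)
  show ‖_‖ = _
  rw [Complex.norm_exp]
  congr 1
  simp [sq]
  ring

theorem a1_int_F (θ : ℝ) {c : ℝ} (hc : 0 < c) (l : ℝ) : Integrable (a1_F θ c l) := by
  refine Integrable.mono' ((a1_int_bd θ c l).const_mul c⁻¹) (a1_cont_F θ hc l).aestronglyMeasurable
    (Eventually.of_forall fun y => a1_norm_F θ hc l y)

theorem a1_int_F'_val (θ c l : ℝ) : ((1 / (2 * Real.pi) : ℝ) : ℂ) * ∫ y : ℝ, a1_F' θ c l y = a1_g θ l := by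
  have h := integral_cexp_quadratic (b := (-1:ℂ)) (by norm_num) (2 * c * I + I * (l + θ * I)) ((c:ℂ)^2 + c * (l + θ * I))
  have h1 : ∀ y : ℝ, a1_F' θ c l y = cexp (-1 * (y:ℂ) ^ 2 + (2 * c * I + I * (l + θ * I)) * y + ((c:ℂ)^2 + c * (l + θ * I))) := by
    intro y
    unfold a1_F'
    congr 1
    have hI : I ^ 2 = -1 := Complex.I_sq
    ring_nf
    rw [hI]
    ring
  simp_rw [h1]
  rw [h]
  have h2 : ((Real.pi:ℂ) / -(-1:ℂ)) = ((Real.pi:ℝ):ℂ) := by simp
  have h3 : ((Real.pi:ℝ):ℂ) ^ (1 / 2 : ℂ) = ((√Real.pi : ℝ) : ℂ) := by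
    rw [Real.sqrt_eq_rpow, Complex.ofReal_cpow Real.pi_pos.le]
    push_cast
    rfl
  have h4 : ((c:ℂ)^2 + c * (l + θ * I)) - (2 * c * I + I * (l + θ * I)) ^ 2 / (4 * (-1:ℂ)) = -((l:ℂ) + θ * I) ^ 2 / 4 := by
    have hI : I ^ 2 = -1 := Complex.I_sq
    have hI3 : I ^ 3 = -I := by rw [pow_succ, hI]; ring
    have hI4 : I ^ 4 = 1 := by
      have : I ^ 4 = (I ^ 2) ^ 2 := by ring
      rw [this, hI]; norm_num
    ring_nf
    simp only [hI, hI3, hI4]
    ring
  rw [h2, h3, h4]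
  unfold a1_g
  rw [← mul_assoc, ← Complex.ofReal_mul]
  congr 2
  have h5 : √Real.pi * √Real.pi = Real.pi := Real.mul_self_sqrt Real.pi_pos.le
  have h6 : (0:ℝ) < √Real.pi := Real.sqrt_pos.mpr Real.pi_pos
  field_simp
  nlinarith

theorem a1_deriv_F (θ : ℝ) {c : ℝ} (hc : 0 < c) (l : ℝ) :
    HasDerivAt (fun l : ℝ => ∫ y : ℝ, a1_F θ c l y) (∫ y : ℝ, a1_F' θ c l y) l := by
  have h := hasDerivAt_integral_of_dominated_loc_of_deriv_le (μ := volume) (F := fun l y => a1_F θ c l y)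
    (F' := fun l y => a1_F' θ c l y) (x₀ := l) (s := Metric.ball l 1)
    (bound := fun y => Real.exp (c ^ 2 - y ^ 2 + c * (l + 1) - y * θ))
    (Metric.ball_mem_nhds l one_pos)
    (Eventually.of_forall fun x => (a1_cont_F θ hc x).aestronglyMeasurable)
    (a1_int_F θ hc l) (a1_cont_F' θ c l).aestronglyMeasurable
    (Eventually.of_forall fun y x hx => by
      rw [a1_norm_F']
      apply Real.exp_le_exp.mpr
      have h1 : x ≤ l + 1 := by
        have := Metric.mem_ball.mp hx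
        rw [Real.dist_eq] at this
        have := (abs_lt.mp this).2
        linarith
      nlinarith)
    (a1_int_bd θ c (l + 1))
    (Eventually.of_forall fun y x hx => by
      have h1 : HasDerivAt (fun x : ℝ => (((c:ℂ) + y * I) ^ 2 + ((c:ℂ) + y * I) * ((x:ℂ) + θ * I))) (((c:ℂ) + y * I)) x := by
        have h2 : HasDerivAt (fun x : ℝ => (x:ℂ)) 1 x := Complex.ofRealCLM.hasDerivAt
        have h3 := ((h2.add_const (θ * I)).const_mul ((c:ℂ) + y * I)).const_add (((c:ℂ) + y * I) ^ 2)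
        rw [mul_one] at h3
        exact h3
      have h4 := h1.cexp.div_const ((c:ℂ) + y * I)
      have h5 := a1_ne hc y
      rw [mul_div_cancel_right₀ _ h5] at h4
      exact h4)
  exact h.2

/-- Mellin-Barnes form (derivative in `l` of the integral is the Gaussian; both sides tend to `0` at `-∞`). -/
theorem Ph_eq_integral (θ l : ℝ) {c : ℝ} (hc : 0 < c) :
    Integrable (fun y : ℝ => cexp (((c:ℂ) + y * I) ^ 2 + ((c:ℂ) + y * I) * ((l:ℂ) + θ * I)) / ((c:ℂ) + y * I)) ∧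
    ((1 / (2 * Real.pi) : ℝ) : ℂ) * ∫ y : ℝ, cexp (((c:ℂ) + y * I) ^ 2 + ((c:ℂ) + y * I) * ((l:ℂ) + θ * I)) / ((c:ℂ) + y * I)
      = Ph θ l := by
  refine ⟨a1_int_F θ hc l, ?_⟩
  set D : ℝ → ℂ := fun l => ((1 / (2 * Real.pi) : ℝ) : ℂ) * (∫ y : ℝ, a1_F θ c l y) - Ph θ l with hD
  have hder : ∀ x : ℝ, HasDerivAt D 0 x := by
    intro x
    have h1 := ((a1_deriv_F θ hc x).const_mul (((1 / (2 * Real.pi) : ℝ) : ℂ))).sub (hasDerivAt_Ph θ x)
    rw [a1_int_F'_val] at h1
    have h2 : a1_g θ x - ((1 / (2 * √Real.pi) : ℝ) : ℂ) * cexp (-((x:ℂ) + θ * I) ^ 2 / 4) = 0 := sub_self _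
    rw [h2] at h1
    exact h1
  have hconst : ∀ x y : ℝ, D x = D y := by
    intro x y
    exact is_const_of_deriv_eq_zero (fun x => (hder x).differentiableAt) (fun x => (hder x).deriv) x y
  obtain ⟨C, hC, hCb⟩ := Ph_le θ (A := 1) zero_le_one
  have hlim : Tendsto D atBot (𝓝 0) := by
    set K := ∫ y : ℝ, c⁻¹ * Real.exp (c ^ 2 - y ^ 2 + c * 0 - y * θ) with hK
    have hb : ∀ x : ℝ, ‖D x‖ ≤ (1 / (2 * Real.pi)) * (K * Real.exp (c * x)) + C * Real.exp (1 * x) := by
      intro x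
      refine (norm_sub_le _ _).trans (add_le_add ?_ ?_)
      · rw [norm_mul, Complex.norm_real, Real.norm_eq_abs, abs_of_pos (by positivity)]
        refine mul_le_mul_of_nonneg_left ?_ (by positivity)
        refine (norm_integral_le_integral_norm _).trans ?_
        rw [hK, ← integral_mul_const]
        refine integral_mono (a1_int_F θ hc x).norm (((a1_int_bd θ c 0).const_mul c⁻¹).mul_const _) fun y => ?_
        refine (a1_norm_F θ hc x y).trans (le_of_eq ?_)
        rw [mul_assoc, ← Real.exp_add]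
        ring_nf
      · exact (hCb x).trans (mul_le_mul_of_nonneg_left (min_le_right _ _) hC.le)
    refine squeeze_zero_norm hb ?_
    have h1 : Tendsto (fun x : ℝ => Real.exp (c * x)) atBot (𝓝 0) :=
      Real.tendsto_exp_atBot.comp (tendsto_id.const_mul_atBot hc)
    have h2 : Tendsto (fun x : ℝ => Real.exp (1 * x)) atBot (𝓝 0) :=
      Real.tendsto_exp_atBot.comp (tendsto_id.const_mul_atBot one_pos)
    have h3 := ((h1.const_mul K).const_mul (1 / (2 * Real.pi))).add (h2.const_mul C)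
    simpa using h3
  have hD0 : D l = 0 := by
    have h1 : Tendsto D atBot (𝓝 (D l)) := by
      have : D = fun _ => D l := by
        funext x
        exact hconst x l
      rw [this]
      exact tendsto_const_nhds
    exact tendsto_nhds_unique h1 hlim
  exact sub_eq_zero.mp hD0

end Pool.Agent.LibM3
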