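import Pool.Agent.LibM3.Defs

/-! Third moment, block A2: contour shift. -/

set_option autoImplicit false

namespace Pool.Agent.LibM3

open MeasureTheory Set Filter Topology Complex ProbabilityTheory
open scoped NNReal ComplexConjugate
open Pool.Agent.LibZM

/-- the Gaussian on a vertical line -/
theorem a2_inner (c s : ℝ) :
    ∫ y : ℝ, cexp (((c:ℂ) + y * I) ^ 2 - ((c:ℂ) + y * I) * s) =
      ((√Real.pi * Real.exp (-(1/4) * s ^ 2) : ℝ) : ℂ) := by
  have h := integral_cexp_quadratic (b := (-1 : ℂ)) (by simp) ((2 * c - s) * I) ((c:ℂ) ^ 2 - c * s)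
  have h1 : (fun y : ℝ => cexp (((c:ℂ) + y * I) ^ 2 - ((c:ℂ) + y * I) * s)) =
      fun x : ℝ => cexp (-1 * (x:ℂ) ^ 2 + (2 * c - s) * I * x + ((c:ℂ) ^ 2 - c * s)) := by
    funext y
    congr 1
    linear_combination (y:ℂ) ^ 2 * I_sq
  rw [h1, h]
  have h2 : ((Real.pi : ℂ) / - -1) ^ (1/2 : ℂ) = ((√Real.pi : ℝ) : ℂ) := by
    rw [neg_neg, div_one, Real.sqrt_eq_rpow, Complex.ofReal_cpow Real.pi_pos.le]
    norm_num
  rw [h2]
  push_cast
  congr 2
  have : ((2 * (c:ℂ) - s) * I) ^ 2 = - (2 * c - s) ^ 2 := by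
    rw [mul_pow, I_sq]; ring
  rw [this]
  ring

theorem a2_line_ne {c : ℝ} (hc : c ≠ 0) (y : ℝ) : (c:ℂ) + y * I ≠ 0 := by
  intro h
  apply hc
  have := congrArg Complex.re h
  simpa using this

/-- The normalising integral. -/
theorem a2_const {c : ℝ} (hc : 0 < c) :
    ∫ y : ℝ, cexp (((c:ℂ) + y * I) ^ 2) / ((c:ℂ) + y * I) = (Real.pi : ℂ) := by
  have h1 : ∀ y : ℝ, cexp (((c:ℂ) + y * I) ^ 2) / ((c:ℂ) + y * I) =
      ∫ s in Ioi (0:ℝ), cexp (((c:ℂ) + y * I) ^ 2 - ((c:ℂ) + y * I) * s) := by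
    intro y
    have h2 := integral_exp_mul_complex_Ioi (a := -((c:ℂ) + y * I)) (by simpa using hc) 0
    have h3 : ∀ s : ℝ, cexp (((c:ℂ) + y * I) ^ 2 - ((c:ℂ) + y * I) * s) =
        cexp (((c:ℂ) + y * I) ^ 2) * cexp (-((c:ℂ) + y * I) * s) := by
      intro s
      rw [← Complex.exp_add]
      congr 1
      ring
    simp_rw [h3]
    rw [integral_const_mul, h2]
    simp only [ofReal_zero, mul_zero, Complex.exp_zero]
    rw [neg_div_neg_eq]
    ring
  simp_rw [h1]
  rw [integral_integral_swap]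
  · simp_rw [a2_inner]
    rw [integral_complex_ofReal, integral_const_mul, integral_gaussian_Ioi]
    have h4 : √(Real.pi / (1/4)) = 2 * √Real.pi := by
      rw [show Real.pi / (1/4) = 2 ^ 2 * Real.pi by ring, Real.sqrt_mul (by norm_num),
        Real.sqrt_sq (by norm_num)]
    rw [h4]
    have h5 : √Real.pi * (2 * √Real.pi / 2) = Real.pi := by
      have := Real.mul_self_sqrt Real.pi_pos.le
      linear_combination this
    rw [h5]
  · -- integrability on the product
    have hg : Integrable (fun y : ℝ => Real.exp (c ^ 2) * Real.exp (-1 * y ^ 2)) :=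
      (integrable_exp_neg_mul_sq (by norm_num : (0:ℝ) < 1)).const_mul _
    have hs : Integrable (fun s : ℝ => Real.exp (-c * s)) (volume.restrict (Ioi 0)) :=
      integrableOn_exp_mul_Ioi (by linarith : -c < 0) 0
    refine (hg.mul_prod hs).mono' ?_ ?_
    · apply Continuous.aestronglyMeasurable
      unfold Function.uncurry
      fun_prop
    · refine ae_of_all _ fun p => ?_
      simp only [Function.uncurry]
      rw [Complex.norm_exp, ← Real.exp_add, ← Real.exp_add]
      apply le_of_eq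
      congr 1
      simp [pow_two]
      ring

/-- Gaussian-type bound on a vertical line gives integrability. -/
theorem a2_integrable {f : ℝ → ℂ} (hf : Continuous f) {C : ℝ}
    (h : ∀ y, ‖f y‖ ≤ C * Real.exp (-(y ^ 2 / 2))) : Integrable f := by
  have hg : Integrable (fun y : ℝ => C * Real.exp (-(1/2) * y ^ 2)) :=
    (integrable_exp_neg_mul_sq (by norm_num : (0:ℝ) < 1/2)).const_mul _
  refine hg.mono' hf.aestronglyMeasurable (ae_of_all _ fun y => ?_)
  refine (h y).trans (le_of_eq ?_)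
  congr 2
  ring

theorem contour_shift {Ψ : ℂ → ℂ} (hΨ : Differentiable ℂ Ψ) {c C : ℝ} (hc : 0 < c)
    (hb : ∀ x ∈ Icc (-c) c, ∀ y : ℝ, ‖Ψ (x + y * I)‖ ≤ C * Real.exp (-(y ^ 2 / 2))) :
    Integrable (fun y : ℝ => Ψ ((c:ℂ) + y * I) / ((c:ℂ) + y * I)) ∧
    Integrable (fun y : ℝ => Ψ (-((c:ℂ) + y * I)) / ((c:ℂ) + y * I)) ∧
    Ψ 0 = ((1 / (2 * Real.pi) : ℝ) : ℂ) * (∫ y : ℝ, Ψ ((c:ℂ) + y * I) / ((c:ℂ) + y * I)) +
      ((1 / (2 * Real.pi) : ℝ) : ℂ) * ∫ y : ℝ, Ψ (-((c:ℂ) + y * I)) / ((c:ℂ) + y * I) := by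
  have hC : 0 ≤ C := by
    have := hb 0 ⟨by linarith, hc.le⟩ 0
    have h2 := (norm_nonneg _).trans this
    simpa using h2
  have hΨc : Continuous Ψ := hΨ.continuous
  have hnorm : ∀ y : ℝ, c ≤ ‖(c:ℂ) + y * I‖ := by
    intro y
    have := Complex.abs_re_le_norm ((c:ℂ) + y * I)
    simp only [add_re, ofReal_re, mul_re, I_re, mul_zero, ofReal_im, I_im, mul_one, sub_self,
      add_zero] at this
    exact (le_abs_self c).trans this
  have hcont : Continuous (fun y : ℝ => (c:ℂ) + y * I) := by fun_prop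
  -- integrability of the two functions
  have hint1 : Integrable (fun y : ℝ => Ψ ((c:ℂ) + y * I) / ((c:ℂ) + y * I)) := by
    refine a2_integrable (C := C / c) ?_ ?_
    · exact (hΨc.comp hcont).div hcont (fun y => a2_line_ne hc.ne' y)
    · intro y
      rw [norm_div, div_mul_eq_mul_div]
      have h1 := hb c ⟨by linarith, le_rfl⟩ y
      exact div_le_div₀ (by positivity) h1 hc (hnorm y)
  have hint2 : Integrable (fun y : ℝ => Ψ (-((c:ℂ) + y * I)) / ((c:ℂ) + y * I)) := by
    refine a2_integrable (C := C / c) ?_ ?_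
    · exact (hΨc.comp hcont.neg).div hcont (fun y => a2_line_ne hc.ne' y)
    · intro y
      rw [norm_div, div_mul_eq_mul_div]
      have h1 := hb (-c) ⟨le_rfl, by linarith⟩ (-y)
      have h2 : ((-c : ℝ) : ℂ) + ((-y : ℝ) : ℂ) * I = -((c:ℂ) + y * I) := by push_cast; ring
      rw [h2] at h1
      rw [neg_sq] at h1
      exact div_le_div₀ (by positivity) h1 hc (hnorm y)
  refine ⟨hint1, hint2, ?_⟩
  -- the entire function `g`
  set f : ℂ → ℂ := fun z => Ψ z - Ψ 0 * cexp (z ^ 2) with hf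
  have hfd : Differentiable ℂ f := by
    apply hΨ.sub
    exact (differentiable_const _).mul ((differentiable_id.pow 2).cexp)
  have hf0 : f 0 = 0 := by simp [hf]
  set g : ℂ → ℂ := dslope f 0 with hg
  have hgd : DifferentiableOn ℂ g univ :=
    (Complex.differentiableOn_dslope (by simp)).mpr hfd.differentiableOn
  have hgz : ∀ z, z ≠ 0 → g z = f z / z := by
    intro z hz
    rw [hg, dslope_of_ne _ hz, slope_def_field, hf0]
    simp
  set C' := C + ‖Ψ 0‖ * Real.exp (c ^ 2) with hC'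
  have hC'0 : 0 ≤ C' := by positivity
  have hfb : ∀ x ∈ Icc (-c) c, ∀ y : ℝ, ‖f (x + y * I)‖ ≤ C' * Real.exp (-(y ^ 2 / 2)) := by
    intro x hx y
    have h1 := hb x hx y
    have h2 : ‖Ψ 0 * cexp (((x:ℂ) + y * I) ^ 2)‖ ≤
        ‖Ψ 0‖ * Real.exp (c ^ 2) * Real.exp (-(y ^ 2 / 2)) := by
      rw [norm_mul, Complex.norm_exp, mul_assoc, ← Real.exp_add]
      apply mul_le_mul_of_nonneg_left _ (norm_nonneg _)
      apply Real.exp_le_exp.mpr
      have h3 : ((((x:ℂ) + y * I) ^ 2).re) = x ^ 2 - y ^ 2 := by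
        simp [pow_two]
      rw [h3]
      have h4 : x ^ 2 ≤ c ^ 2 := by
        have := abs_le.mpr hx
        exact sq_le_sq' hx.1 hx.2
      nlinarith [sq_nonneg y]
    calc ‖f (x + y * I)‖ ≤ ‖Ψ (x + y * I)‖ + ‖Ψ 0 * cexp (((x:ℂ) + y * I) ^ 2)‖ := norm_sub_le _ _
      _ ≤ C * Real.exp (-(y ^ 2 / 2)) + ‖Ψ 0‖ * Real.exp (c ^ 2) * Real.exp (-(y ^ 2 / 2)) :=
        add_le_add h1 h2
      _ = C' * Real.exp (-(y ^ 2 / 2)) := by rw [hC']; ring
  have hgb : ∀ x ∈ Icc (-c) c, ∀ y : ℝ, 1 ≤ |y| →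
      ‖g (x + y * I)‖ ≤ C' * Real.exp (-(y ^ 2 / 2)) := by
    intro x hx y hy
    have hy1 : 1 ≤ ‖(x:ℂ) + y * I‖ := by
      have := Complex.abs_im_le_norm ((x:ℂ) + y * I)
      simp only [add_im, ofReal_im, mul_im, ofReal_re, I_im, mul_one, I_re, mul_zero, add_zero,
        zero_add] at this
      exact hy.trans this
    have hne : (x:ℂ) + y * I ≠ 0 := by
      intro h0
      rw [h0, norm_zero] at hy1
      linarith
    rw [hgz _ hne, norm_div]
    exact (div_le_self (norm_nonneg _) hy1).trans (hfb x hx y)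
  have hgline : ∀ e : ℝ, e = c ∨ e = -c → Integrable (fun y : ℝ => g ((e:ℂ) + y * I)) := by
    intro e he
    have he0 : e ≠ 0 := by rcases he with rfl | rfl <;> simp [hc.ne']
    have heI : e ∈ Icc (-c) c := by
      rcases he with rfl | rfl
      · exact ⟨by linarith, le_rfl⟩
      · exact ⟨le_rfl, by linarith⟩
    have hen : ∀ y : ℝ, c ≤ ‖(e:ℂ) + y * I‖ := by
      intro y
      have := Complex.abs_re_le_norm ((e:ℂ) + y * I)
      simp only [add_re, ofReal_re, mul_re, I_re, mul_zero, ofReal_im, I_im, mul_one, sub_self,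
        add_zero] at this
      rcases he with rfl | rfl
      · exact (le_abs_self _).trans this
      · rw [abs_neg] at this
        exact (le_abs_self _).trans this
    have heq : (fun y : ℝ => g ((e:ℂ) + y * I)) =
        fun y : ℝ => f ((e:ℂ) + y * I) / ((e:ℂ) + y * I) := by
      funext y
      exact hgz _ (a2_line_ne he0 y)
    rw [heq]
    have hconte : Continuous (fun y : ℝ => (e:ℂ) + y * I) := by fun_prop
    refine a2_integrable (C := C' / c) ?_ ?_
    · exact (hfd.continuous.comp hconte).div hconte (fun y => a2_line_ne he0 y)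
    · intro y
      rw [norm_div, div_mul_eq_mul_div]
      exact div_le_div₀ (by positivity) (hfb e heI y) hc (hen y)
  -- equality of the two line integrals
  have hlines : ∫ y : ℝ, g ((c:ℂ) + y * I) = ∫ y : ℝ, g (((-c : ℝ):ℂ) + y * I) := by
    have hrect : ∀ R : ℝ, (∫ y in (-R)..R, g ((c:ℂ) + y * I)) -
        (∫ y in (-R)..R, g (((-c : ℝ):ℂ) + y * I)) =
        I * ((∫ x in (-c)..c, g (x + ((-R : ℝ):ℂ) * I)) - ∫ x in (-c)..c, g (x + (R:ℂ) * I)) := by
      intro R
      have h := Complex.integral_boundary_rect_eq_zero_of_differentiableOn g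
        ⟨-c, -R⟩ ⟨c, R⟩ (hgd.mono (subset_univ _))
      simp only [smul_eq_mul] at h
      have hI : I * I = -1 := I_mul_I
      linear_combination (-I) * h + ((∫ y in (-R)..R, g ((c:ℂ) + y * I)) -
        (∫ y in (-R)..R, g (((-c : ℝ):ℂ) + y * I))) * hI
    have hlim1 : Tendsto (fun R : ℝ => (∫ y in (-R)..R, g ((c:ℂ) + y * I)) -
        (∫ y in (-R)..R, g (((-c : ℝ):ℂ) + y * I))) atTop
        (𝓝 ((∫ y : ℝ, g ((c:ℂ) + y * I)) - ∫ y : ℝ, g (((-c : ℝ):ℂ) + y * I))) := by
      apply Tendsto.sub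
      · exact intervalIntegral_tendsto_integral (hgline c (Or.inl rfl)) tendsto_neg_atTop_atBot
          tendsto_id
      · exact intervalIntegral_tendsto_integral (hgline (-c) (Or.inr rfl)) tendsto_neg_atTop_atBot
          tendsto_id
    have hlim2 : Tendsto (fun R : ℝ => (∫ y in (-R)..R, g ((c:ℂ) + y * I)) -
        (∫ y in (-R)..R, g (((-c : ℝ):ℂ) + y * I))) atTop (𝓝 0) := by
      simp_rw [hrect]
      have hbd : ∀ R : ℝ, 1 ≤ R → ‖I * ((∫ x in (-c)..c, g (x + ((-R : ℝ):ℂ) * I)) -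
          ∫ x in (-c)..c, g (x + (R:ℂ) * I))‖ ≤ 4 * c * C' * Real.exp (-(R ^ 2 / 2)) := by
        intro R hR
        have h1 : ∀ R' : ℝ, |R'| = R → ‖∫ x in (-c)..c, g (x + (R':ℂ) * I)‖ ≤
            2 * c * C' * Real.exp (-(R ^ 2 / 2)) := by
          intro R' hR'
          have h2 := intervalIntegral.norm_integral_le_of_norm_le_const (a := -c) (b := c)
            (f := fun x : ℝ => g (x + (R':ℂ) * I)) (C := C' * Real.exp (-(R ^ 2 / 2))) ?_
          · refine h2.trans (le_of_eq ?_)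
            rw [show c - -c = 2 * c by ring, abs_of_pos (by positivity)]
            ring
          · intro x hx
            rw [uIoc_of_le (by linarith)] at hx
            have h3 := hgb x ⟨hx.1.le, hx.2⟩ R' (by rw [hR']; exact hR)
            have h4 : R' ^ 2 = R ^ 2 := by rw [← hR', sq_abs]
            rwa [h4] at h3
        rw [norm_mul, norm_I, one_mul]
        have h5 := h1 R (abs_of_pos (by linarith))
        have h6 := h1 (-R) (by rw [abs_neg]; exact abs_of_pos (by linarith))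
        refine (norm_sub_le _ _).trans ?_
        linarith
      rw [tendsto_zero_iff_norm_tendsto_zero]
      have hexp : Tendsto (fun R : ℝ => 4 * c * C' * Real.exp (-(R ^ 2 / 2))) atTop (𝓝 0) := by
        rw [show (0:ℝ) = 4 * c * C' * 0 by ring]
        apply Tendsto.const_mul
        apply Real.tendsto_exp_neg_atTop_nhds_zero.comp
        apply Tendsto.atTop_div_const (by norm_num)
        exact tendsto_pow_atTop (by norm_num)
      refine squeeze_zero' (Eventually.of_forall fun R => norm_nonneg _) ?_ hexp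
      filter_upwards [eventually_ge_atTop (1:ℝ)] with R hR
      exact hbd R hR
    have := tendsto_nhds_unique hlim1 hlim2
    exact sub_eq_zero.mp this
  -- evaluate the two sides
  have hexpi : Integrable (fun y : ℝ => cexp (((c:ℂ) + y * I) ^ 2) / ((c:ℂ) + y * I)) := by
    by_contra hni
    have h1 := integral_undef hni
    rw [a2_const hc] at h1
    exact Real.pi_ne_zero (by exact_mod_cast h1)
  have hL : ∫ y : ℝ, g ((c:ℂ) + y * I) =
      (∫ y : ℝ, Ψ ((c:ℂ) + y * I) / ((c:ℂ) + y * I)) - Ψ 0 * Real.pi := by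
    rw [← a2_const hc, ← integral_const_mul, ← integral_sub hint1 (hexpi.const_mul _)]
    apply integral_congr_ae
    refine ae_of_all _ fun y => ?_
    simp only [hgz _ (a2_line_ne hc.ne' y), hf]
    ring
  have hR : ∫ y : ℝ, g (((-c : ℝ):ℂ) + y * I) =
      -(∫ y : ℝ, Ψ (-((c:ℂ) + y * I)) / ((c:ℂ) + y * I)) + Ψ 0 * Real.pi := by
    have h1 : ∫ y : ℝ, g (((-c : ℝ):ℂ) + y * I) = ∫ y : ℝ, g (((-c : ℝ):ℂ) + ((-y : ℝ):ℂ) * I) :=
      (integral_neg_eq_self (fun y : ℝ => g (((-c : ℝ):ℂ) + y * I)) volume).symm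
    have hneg : Integrable (fun y : ℝ => -(Ψ (-((c:ℂ) + y * I)) / ((c:ℂ) + y * I))) := hint2.neg
    rw [h1, ← a2_const hc, ← integral_const_mul, ← integral_neg,
      ← integral_add hneg (hexpi.const_mul _)]
    apply integral_congr_ae
    refine ae_of_all _ fun y => ?_
    have h2 : ((-c : ℝ):ℂ) + ((-y : ℝ):ℂ) * I = -((c:ℂ) + y * I) := by push_cast; ring
    have h3 : -((c:ℂ) + y * I) ≠ 0 := neg_ne_zero.mpr (a2_line_ne hc.ne' y)
    simp only [h2, hgz _ h3, hf, neg_sq]
    rw [div_neg]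
    ring
  rw [hL, hR] at hlines
  have hpi : (Real.pi : ℂ) ≠ 0 := by exact_mod_cast Real.pi_ne_zero
  have h2 : Ψ 0 * (2 * Real.pi) = (∫ y : ℝ, Ψ ((c:ℂ) + y * I) / ((c:ℂ) + y * I)) +
      ∫ y : ℝ, Ψ (-((c:ℂ) + y * I)) / ((c:ℂ) + y * I) := by
    linear_combination -hlines
  rw [← mul_add, ← h2]
  push_cast
  field_simp

end Pool.Agent.LibM3
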