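import Pool.Agent.LibM3.Defs

/-! Third moment, block E2: Schur bound for mean squares of Dirichlet series in a Gaussian window. -/

set_option autoImplicit false

namespace Pool.Agent.LibM3

open MeasureTheory Set Filter Topology Complex ProbabilityTheory
open scoped NNReal ComplexConjugate
open Pool.Agent.LibZM

/-- the Gaussian beats the polynomial -/
lemma e2_gauss {w z : ℝ} (hw : 0 ≤ w) (hz : |z| ≤ w * Real.exp w) :
    Real.exp (-(w ^ 2 / 2)) ≤ 2 * Real.exp 8 / (1 + z ^ 2) := by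
  have h1 : z ^ 2 ≤ (w * Real.exp w) ^ 2 := by
    rw [← sq_abs]
    exact pow_le_pow_left₀ (abs_nonneg z) hz 2
  have h2 : w ≤ Real.exp w := by
    have := Real.add_one_le_exp w
    linarith
  have h3 : (w * Real.exp w) ^ 2 ≤ Real.exp (4 * w) := by
    have : w * Real.exp w ≤ Real.exp w * Real.exp w :=
      mul_le_mul_of_nonneg_right h2 (Real.exp_nonneg _)
    calc (w * Real.exp w) ^ 2 ≤ (Real.exp w * Real.exp w) ^ 2 :=
          pow_le_pow_left₀ (by positivity) this 2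
      _ = Real.exp (4 * w) := by
          rw [← Real.exp_add, ← Real.exp_nat_mul]
          congr 1
          push_cast
          ring
  have h4 : 1 + z ^ 2 ≤ 2 * Real.exp (4 * w) := by
    have : 1 ≤ Real.exp (4 * w) := Real.one_le_exp (by linarith)
    linarith
  rw [le_div_iff₀ (by positivity)]
  calc Real.exp (-(w ^ 2 / 2)) * (1 + z ^ 2) ≤ Real.exp (-(w ^ 2 / 2)) * (2 * Real.exp (4 * w)) :=
        mul_le_mul_of_nonneg_left h4 (Real.exp_nonneg _)
    _ = 2 * Real.exp (-(w ^ 2 / 2) + 4 * w) := by rw [Real.exp_add]; ring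
    _ ≤ 2 * Real.exp 8 := by
        refine mul_le_mul_of_nonneg_left (Real.exp_le_exp.mpr ?_) (by norm_num)
        nlinarith [sq_nonneg (w - 4)]

lemma e2_term {m n : ℕ} (hm : m ≠ 0) (hn : n ≠ 0) {H : ℝ} (hH : 1 ≤ H) :
    Real.exp (-(H ^ 2 * (Real.log ((m:ℝ) / n)) ^ 2 / 2)) ≤
      2 * Real.exp 8 / (1 + (H / n * ((m:ℝ) - n)) ^ 2) := by
  have hm' : (0:ℝ) < m := by exact_mod_cast Nat.pos_of_ne_zero hm
  have hn' : (0:ℝ) < n := by exact_mod_cast Nat.pos_of_ne_zero hn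
  set l := Real.log ((m:ℝ) / n) with hl
  have hx : (m:ℝ) / n = Real.exp l := (Real.exp_log (by positivity)).symm
  have h1 : |Real.exp l - 1| ≤ |l| * Real.exp |l| := by
    rcases le_total 0 l with h | h
    · rw [abs_of_nonneg h, abs_of_nonneg (by linarith [Real.one_le_exp h])]
      have h2 := Real.add_one_le_exp (-l)
      have h3 : Real.exp (-l) * Real.exp l = 1 := by rw [← Real.exp_add]; simp
      nlinarith [Real.exp_pos l]
    · rw [abs_of_nonpos h, abs_of_nonpos (by linarith [Real.exp_le_one_iff.mpr h])]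
      have h2 := Real.add_one_le_exp l
      have h3 : 1 ≤ Real.exp (-l) := Real.one_le_exp (by linarith)
      nlinarith
  have h2 : |H / n * ((m:ℝ) - n)| ≤ (H * |l|) * Real.exp (H * |l|) := by
    have e : H / n * ((m:ℝ) - n) = H * (Real.exp l - 1) := by
      rw [← hx]
      field_simp
    rw [e, abs_mul, abs_of_nonneg (by linarith : (0:ℝ) ≤ H), mul_assoc]
    refine mul_le_mul_of_nonneg_left (h1.trans (mul_le_mul_of_nonneg_left ?_ (abs_nonneg l))) (by linarith)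
    apply Real.exp_le_exp.mpr
    nlinarith [abs_nonneg l]
  have h3 := e2_gauss (by positivity) h2
  rwa [mul_pow, sq_abs] at h3

lemma e2_tele {δ : ℝ} (hδ : 0 < δ) (K : ℕ) :
    ∑ j ∈ Finset.range K, 1 / (1 + (δ * ((j:ℝ) + 1)) ^ 2) ≤ 2 / δ := by
  have h : ∀ j : ℕ, 1 / (1 + (δ * ((j:ℝ) + 1)) ^ 2) ≤
      2 / δ * (1 / (1 + δ * j) - 1 / (1 + δ * ((j + 1 : ℕ) : ℝ))) := by
    intro j
    have hj : (0:ℝ) ≤ j := Nat.cast_nonneg j
    have h1 : (0:ℝ) < 1 + δ * j := by positivity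
    have h2 : (0:ℝ) < 1 + δ * ((j:ℝ) + 1) := by positivity
    have e : 2 / δ * (1 / (1 + δ * j) - 1 / (1 + δ * ((j + 1 : ℕ) : ℝ))) =
        2 / ((1 + δ * j) * (1 + δ * ((j:ℝ) + 1))) := by
      push_cast
      field_simp
      ring
    rw [e, div_le_div_iff₀ (by positivity) (by positivity)]
    nlinarith [sq_nonneg (δ * ((j:ℝ) + 1) - 1), mul_pos hδ h2]
  refine (Finset.sum_le_sum fun j _ => h j).trans ?_
  rw [← Finset.mul_sum, Finset.sum_range_sub' (fun j : ℕ => 1 / (1 + δ * (j:ℝ)))]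
  have : (0:ℝ) ≤ 1 / (1 + δ * (K:ℝ)) := by positivity
  have h3 : 1 / (1 + δ * ((0:ℕ):ℝ)) - 1 / (1 + δ * (K:ℝ)) ≤ 1 := by
    simp only [Nat.cast_zero, mul_zero, add_zero, div_one]
    linarith
  calc 2 / δ * (1 / (1 + δ * ((0:ℕ):ℝ)) - 1 / (1 + δ * (K:ℝ))) ≤ 2 / δ * 1 :=
        mul_le_mul_of_nonneg_left h3 (by positivity)
    _ = 2 / δ := mul_one _

theorem schur_row : ∃ C : ℝ, 0 < C ∧ ∀ n : ℕ, 1 ≤ n → ∀ H : ℝ, 1 ≤ H →
    Summable (fun m : ℕ => if m = 0 then 0 else Real.exp (-(H ^ 2 * (Real.log ((m:ℝ) / n)) ^ 2 / 2))) ∧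
    ∑' m : ℕ, (if m = 0 then 0 else Real.exp (-(H ^ 2 * (Real.log ((m:ℝ) / n)) ^ 2 / 2))) ≤ 1 + C * n / H := by
  refine ⟨8 * Real.exp 8, by positivity, fun n hn H hH => ?_⟩
  have hn0 : n ≠ 0 := by omega
  have hn' : (0:ℝ) < n := by exact_mod_cast hn
  have hH0 : 0 < H := by linarith
  set f : ℕ → ℝ := fun m => if m = 0 then 0 else Real.exp (-(H ^ 2 * (Real.log ((m:ℝ) / n)) ^ 2 / 2)) with hf
  have hf0 : ∀ m, 0 ≤ f m := by
    intro m
    simp only [hf]
    split_ifs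
    · exact le_rfl
    · exact Real.exp_nonneg _
  have hfn : f n = 1 := by
    simp only [hf]
    rw [if_neg hn0, div_self hn'.ne', Real.log_one]
    simp
  have hfle : ∀ m, f m ≤ 2 * Real.exp 8 * (1 / (1 + (H / n * ((m:ℝ) - n)) ^ 2)) := by
    intro m
    simp only [hf]
    split_ifs with h
    · positivity
    · have := e2_term h hn0 hH
      rw [mul_one_div]
      exact this
  have hδ : 0 < H / n := by positivity
  have hbound : ∀ K, ∑ m ∈ Finset.range K, f m ≤ 1 + 8 * Real.exp 8 * n / H := by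
    intro K
    have h1 : ∑ m ∈ Finset.range K, f m ≤ ∑ m ∈ Finset.range (n + 1 + K), f m :=
      Finset.sum_le_sum_of_subset_of_nonneg (Finset.range_subset_range.mpr (by omega)) fun i _ _ => hf0 i
    have h2 : ∑ m ∈ Finset.range n, f m ≤ 2 * Real.exp 8 * (2 / (H / n)) := by
      rw [← Finset.sum_range_reflect]
      refine le_trans ?_ (mul_le_mul_of_nonneg_left (e2_tele hδ n) (by positivity))
      rw [Finset.mul_sum]
      refine Finset.sum_le_sum fun j hj => ?_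
      have hj' : j < n := Finset.mem_range.mp hj
      refine (hfle _).trans (le_of_eq ?_)
      congr 3
      have : ((n - 1 - j : ℕ) : ℝ) = (n:ℝ) - 1 - j := by
        rw [Nat.cast_sub (by omega), Nat.cast_sub hn]
        simp
      rw [this]
      ring
    have h3 : ∑ x ∈ Finset.range K, f (n + 1 + x) ≤ 2 * Real.exp 8 * (2 / (H / n)) := by
      refine le_trans ?_ (mul_le_mul_of_nonneg_left (e2_tele hδ K) (by positivity))
      rw [Finset.mul_sum]
      refine Finset.sum_le_sum fun j _ => ?_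
      refine (hfle _).trans (le_of_eq ?_)
      congr 3
      push_cast
      ring
    rw [Finset.sum_range_add, Finset.sum_range_succ, hfn] at h1
    have e : 2 * Real.exp 8 * (2 / (H / n)) = 4 * Real.exp 8 * n / H := by
      field_simp
      ring
    rw [e] at h2 h3
    have e2 : 8 * Real.exp 8 * n / H = 4 * Real.exp 8 * n / H + 4 * Real.exp 8 * n / H := by ring
    rw [e2]
    linarith
  exact ⟨summable_of_sum_range_le hf0 hbound, Real.tsum_le_of_sum_range_le hf0 hbound⟩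

/-- Fourier transform of the Gaussian window. -/
lemma e2_char (u : ℝ) {H : ℝ} (x : ℝ) :
    ‖∫ t, cexp (((t * x : ℝ) : ℂ) * I) ∂(gaussianReal u (Real.toNNReal (H ^ 2)))‖ =
      Real.exp (-(H ^ 2 * x ^ 2 / 2)) := by
  have h := charFun_gaussianReal (μ := u) (v := Real.toNNReal (H ^ 2)) x
  rw [charFun_apply_real] at h
  have e : ∫ t, cexp (((t * x : ℝ) : ℂ) * I) ∂(gaussianReal u (Real.toNNReal (H ^ 2))) =
      ∫ t : ℝ, cexp (x * t * I) ∂(gaussianReal u (Real.toNNReal (H ^ 2))) := by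
    congr 1
    ext t
    push_cast
    ring_nf
  rw [e, h, Complex.norm_exp]
  congr 1
  have : ((Real.toNNReal (H ^ 2) : ℝ≥0) : ℝ) = H ^ 2 := Real.coe_toNNReal _ (sq_nonneg H)
  simp [pow_two, Complex.mul_re]
  exact Or.inl (mul_self_nonneg H)

theorem schur_ms : ∃ C : ℝ, 0 < C ∧ ∀ a : ℕ → ℂ, a 0 = 0 → (Summable fun n => ‖a n‖) → (Summable fun n : ℕ => ‖a n‖ ^ 2 * n) →
    ∀ u H : ℝ, 1 ≤ H →
    ∫ t, ‖∑' n : ℕ, a n * cexp (-(((t * Real.log n : ℝ) : ℂ) * I))‖ ^ 2 ∂(gaussianReal u (Real.toNNReal (H ^ 2))) ≤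
      ∑' n : ℕ, ‖a n‖ ^ 2 * (1 + C * n / H) := by
  obtain ⟨C, hC, hrow⟩ := schur_row
  refine ⟨C, hC, fun a ha0 ha ha2 u H hH => ?_⟩
  have hH0 : 0 < H := by linarith
  set μ := gaussianReal u (Real.toNNReal (H ^ 2)) with hμ
  -- the kernel
  set K : ℕ × ℕ → ℝ := fun p => if p.1 = 0 ∨ p.2 = 0 then 0 else
    Real.exp (-(H ^ 2 * (Real.log ((p.2:ℝ) / p.1)) ^ 2 / 2)) with hK
  have hK0 : ∀ p, 0 ≤ K p := by
    intro p
    simp only [hK]
    split_ifs
    · exact le_rfl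
    · exact Real.exp_nonneg _
  -- the square as a double series
  set G : ℕ × ℕ → ℝ → ℂ := fun p t => (a p.1 * conj (a p.2)) *
    cexp (((t * (Real.log p.2 - Real.log p.1) : ℝ) : ℂ) * I) with hG
  have hGn : ∀ p t, ‖G p t‖ = ‖a p.1‖ * ‖a p.2‖ := by
    intro p t
    simp only [hG]
    rw [norm_mul, Complex.norm_exp_ofReal_mul_I, mul_one, norm_mul, RCLike.norm_conj]
  have hprod : Summable fun p : ℕ × ℕ => ‖a p.1‖ * ‖a p.2‖ :=
    ha.mul_of_nonneg ha (fun _ => norm_nonneg _) (fun _ => norm_nonneg _)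
  have hGint : ∀ p, Integrable (G p) μ := by
    intro p
    refine (integrable_const (‖a p.1‖ * ‖a p.2‖)).mono' ?_ (Eventually.of_forall fun t => (hGn p t).le)
    refine Continuous.aestronglyMeasurable ?_
    simp only [hG]
    fun_prop
  have hGsum : Summable fun p => ∫ t, ‖G p t‖ ∂μ := by
    simp_rw [hGn]
    simpa using hprod
  have hmain := hasSum_integral_of_summable_integral_norm hGint hGsum
  have hsq : ∀ t : ℝ, ∑' p, G p t = ((‖∑' n : ℕ, a n * cexp (-(((t * Real.log n : ℝ) : ℂ) * I))‖ ^ 2 : ℝ) : ℂ) := by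
    intro t
    have hn1 : Summable fun n : ℕ => ‖a n * cexp (-(((t * Real.log n : ℝ) : ℂ) * I))‖ := by
      refine ha.congr fun n => ?_
      rw [norm_mul, ← neg_mul, ← Complex.ofReal_neg, Complex.norm_exp_ofReal_mul_I, mul_one]
    have hn2 : Summable fun n : ℕ => ‖conj (a n * cexp (-(((t * Real.log n : ℝ) : ℂ) * I)))‖ := by
      simpa only [RCLike.norm_conj] using hn1
    have h := tsum_mul_tsum_of_summable_norm hn1 hn2
    rw [← Complex.conj_tsum, Complex.mul_conj] at h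
    rw [← Complex.normSq_eq_norm_sq, h]
    refine tsum_congr fun p => ?_
    simp only [hG]
    rw [map_mul, ← Complex.exp_conj]
    have : conj (-(((t * Real.log p.2 : ℝ) : ℂ) * I)) = ((t * Real.log p.2 : ℝ) : ℂ) * I := by
      rw [map_neg, map_mul, Complex.conj_ofReal, Complex.conj_I]
      ring
    rw [this]
    have e : cexp (((t * (Real.log p.2 - Real.log p.1) : ℝ) : ℂ) * I) =
        cexp (-(((t * Real.log p.1 : ℝ) : ℂ) * I)) * cexp (((t * Real.log p.2 : ℝ) : ℂ) * I) := by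
      rw [← Complex.exp_add]
      congr 1
      push_cast
      ring
    rw [e]
    ring
  have hI : ((∫ t, ‖∑' n : ℕ, a n * cexp (-(((t * Real.log n : ℝ) : ℂ) * I))‖ ^ 2 ∂μ : ℝ) : ℂ) =
      ∑' p, ∫ t, G p t ∂μ := by
    rw [hmain.tsum_eq, ← integral_complex_ofReal]
    congr 1
    ext t
    exact (hsq t).symm
  have hGI : ∀ p, ‖∫ t, G p t ∂μ‖ = ‖a p.1‖ * ‖a p.2‖ * K p := by
    intro p
    simp only [hG]
    rw [integral_const_mul, norm_mul, norm_mul, RCLike.norm_conj]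
    rcases eq_or_ne p.1 0 with h1 | h1
    · rw [h1, ha0]
      simp
    rcases eq_or_ne p.2 0 with h2 | h2
    · rw [h2, ha0]
      simp
    rw [e2_char]
    simp only [hK]
    rw [if_neg (by tauto), Real.log_div (by exact_mod_cast h2) (by exact_mod_cast h1)]
  -- the weighted double sum
  have hKrow : ∀ m : ℕ, m ≠ 0 → (Summable fun n : ℕ => K (m, n)) ∧ ∑' n : ℕ, K (m, n) ≤ 1 + C * m / H := by
    intro m hm
    have h := hrow m (Nat.one_le_iff_ne_zero.mpr hm) H hH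
    have e : (fun n : ℕ => K (m, n)) =
        fun n : ℕ => if n = 0 then 0 else Real.exp (-(H ^ 2 * (Real.log ((n:ℝ) / m)) ^ 2 / 2)) := by
      ext n
      simp only [hK, hm, false_or]
    rw [e]
    exact h
  have hKsymm : ∀ m n : ℕ, K (m, n) = K (n, m) := by
    intro m n
    simp only [hK]
    rcases eq_or_ne m 0 with h1 | h1
    · simp [h1]
    rcases eq_or_ne n 0 with h2 | h2
    · simp [h2]
    rw [if_neg (by tauto), if_neg (by tauto)]
    have h3 : (m:ℝ) ≠ 0 := by exact_mod_cast h1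
    have h4 : (n:ℝ) ≠ 0 := by exact_mod_cast h2
    rw [Real.log_div h4 h3, Real.log_div h3 h4]
    congr 1
    ring
  have hB : Summable fun n : ℕ => ‖a n‖ ^ 2 := by
    refine Summable.of_nonneg_of_le (fun _ => sq_nonneg _) (fun n => ?_) ha2
    rcases eq_or_ne n 0 with h | h
    · rw [h, ha0]; simp
    · have : (1:ℝ) ≤ n := by exact_mod_cast Nat.one_le_iff_ne_zero.mpr h
      nlinarith [sq_nonneg ‖a n‖]
  have hR : Summable fun n : ℕ => ‖a n‖ ^ 2 * (1 + C * n / H) := by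
    have := hB.add (ha2.mul_left (C / H))
    refine this.congr fun n => ?_
    ring
  have hW0 : ∀ p : ℕ × ℕ, 0 ≤ ‖a p.1‖ ^ 2 * K p := fun p => mul_nonneg (sq_nonneg _) (hK0 p)
  have hWrow : ∀ m : ℕ, (Summable fun n : ℕ => ‖a m‖ ^ 2 * K (m, n)) ∧
      ∑' n : ℕ, ‖a m‖ ^ 2 * K (m, n) ≤ ‖a m‖ ^ 2 * (1 + C * m / H) := by
    intro m
    rcases eq_or_ne m 0 with h | h
    · rw [h, ha0]
      simp
    · refine ⟨(hKrow m h).1.mul_left _, ?_⟩
      rw [tsum_mul_left]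
      exact mul_le_mul_of_nonneg_left (hKrow m h).2 (sq_nonneg _)
  have hWrow0 : ∀ m : ℕ, 0 ≤ ∑' n : ℕ, ‖a m‖ ^ 2 * K (m, n) := fun m => tsum_nonneg fun n => hW0 (m, n)
  have hWs : Summable fun p : ℕ × ℕ => ‖a p.1‖ ^ 2 * K p := by
    refine (summable_prod_of_nonneg hW0).mpr ⟨fun m => (hWrow m).1, ?_⟩
    exact Summable.of_nonneg_of_le hWrow0 (fun m => (hWrow m).2) hR
  have hWt : ∑' p : ℕ × ℕ, ‖a p.1‖ ^ 2 * K p ≤ ∑' n : ℕ, ‖a n‖ ^ 2 * (1 + C * n / H) := by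
    rw [hWs.tsum_prod' fun m => (hWrow m).1]
    exact Summable.tsum_le_tsum (fun m => (hWrow m).2)
      (Summable.of_nonneg_of_le hWrow0 (fun m => (hWrow m).2) hR) hR
  have hWs' : Summable fun p : ℕ × ℕ => ‖a p.2‖ ^ 2 * K p := by
    have := (Equiv.prodComm ℕ ℕ).summable_iff.mpr hWs
    refine this.congr fun p => ?_
    simp only [Function.comp_apply, Equiv.prodComm_apply, Prod.fst_swap]
    rw [hKsymm p.1 p.2]
    rfl
  have hWt' : ∑' p : ℕ × ℕ, ‖a p.2‖ ^ 2 * K p = ∑' p : ℕ × ℕ, ‖a p.1‖ ^ 2 * K p := by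
    rw [← (Equiv.prodComm ℕ ℕ).tsum_eq fun p : ℕ × ℕ => ‖a p.1‖ ^ 2 * K p]
    refine tsum_congr fun p => ?_
    simp only [Equiv.prodComm_apply, Prod.fst_swap]
    rw [hKsymm p.1 p.2]
    rfl
  have hnn : 0 ≤ ∫ t, ‖∑' n : ℕ, a n * cexp (-(((t * Real.log n : ℝ) : ℂ) * I))‖ ^ 2 ∂μ :=
    integral_nonneg fun t => sq_nonneg _
  have hle : ∀ p : ℕ × ℕ, ‖a p.1‖ * ‖a p.2‖ * K p ≤ (‖a p.1‖ ^ 2 * K p + ‖a p.2‖ ^ 2 * K p) / 2 := by
    intro p
    nlinarith [mul_nonneg (sq_nonneg (‖a p.1‖ - ‖a p.2‖)) (hK0 p)]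
  have hS : Summable fun p : ℕ × ℕ => (‖a p.1‖ ^ 2 * K p + ‖a p.2‖ ^ 2 * K p) / 2 :=
    (hWs.add hWs').div_const 2
  have hS1 : Summable fun p : ℕ × ℕ => ‖a p.1‖ * ‖a p.2‖ * K p :=
    Summable.of_nonneg_of_le (fun p => mul_nonneg (mul_nonneg (norm_nonneg _) (norm_nonneg _)) (hK0 p)) hle hS
  calc ∫ t, ‖∑' n : ℕ, a n * cexp (-(((t * Real.log n : ℝ) : ℂ) * I))‖ ^ 2 ∂μ
      = ‖((∫ t, ‖∑' n : ℕ, a n * cexp (-(((t * Real.log n : ℝ) : ℂ) * I))‖ ^ 2 ∂μ : ℝ) : ℂ)‖ := by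
        rw [Complex.norm_real, Real.norm_of_nonneg hnn]
    _ = ‖∑' p, ∫ t, G p t ∂μ‖ := by rw [hI]
    _ ≤ ∑' p : ℕ × ℕ, ‖a p.1‖ * ‖a p.2‖ * K p := by
        refine tsum_of_norm_bounded hS1.hasSum fun p => (hGI p).le
    _ ≤ ∑' p : ℕ × ℕ, (‖a p.1‖ ^ 2 * K p + ‖a p.2‖ ^ 2 * K p) / 2 := Summable.tsum_le_tsum hle hS1 hS
    _ = ∑' p : ℕ × ℕ, ‖a p.1‖ ^ 2 * K p := by
        rw [tsum_div_const, hWs.tsum_add hWs', hWt']
        ring
    _ ≤ _ := hWt

end Pool.Agent.LibM3
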