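import Pool.Agent.LibM3.Defs

/-! Third moment, block N1: mean value of the square of the 3/2-divisor function. -/

set_option autoImplicit false

namespace Pool.Agent.LibM3

open MeasureTheory Set Filter Topology Complex ProbabilityTheory
open scoped NNReal ComplexConjugate
open Pool.Agent.LibZM

/-- The Dirichlet series of `τ_α` is at most `ζ(σ)^α`. -/
theorem n1_tsum_le {α : ℝ} (hα : 0 ≤ α) {σ : ℝ} (hσ : 1 < σ) :
    ∑' n : ℕ, tau α n * (n:ℝ) ^ (-σ) ≤ (∑' n : ℕ, 1 / (n:ℝ) ^ σ) ^ α := by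
  have h := EulerProduct.eulerProduct_hasProd (R := ℝ) (f := fun n : ℕ => tau α n * (n:ℝ) ^ (-σ))
    (by simp [(tau_isMultiplicative α).map_one])
    (by
      intro m n hmn
      rw [(tau_isMultiplicative α).map_mul_of_coprime hmn]
      push_cast
      rw [Real.mul_rpow (Nat.cast_nonneg _) (Nat.cast_nonneg _)]
      ring)
    (by
      have := summable_tau hα hσ
      exact this.norm)
    (by simp)
  have e : (fun p : Nat.Primes => ∑' a : ℕ, dcoef α a * ((p:ℝ) ^ (-σ)) ^ a) =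
      fun p : Nat.Primes => ∑' e : ℕ, tau α ((p:ℕ) ^ e) * (((p:ℕ) ^ e : ℕ) : ℝ) ^ (-σ) := by
    funext p
    congr 1; funext a
    rw [tau_prime_pow _ p.prop]
    congr 1
    push_cast
    rw [← Real.rpow_natCast, ← Real.rpow_mul (Nat.cast_nonneg _), ← Real.rpow_natCast,
      ← Real.rpow_mul (Nat.cast_nonneg _)]
    congr 1; ring
  rw [← e] at h
  have h2 := hasProd_tau_sq zero_le_one hσ
  have hpos := tsum_tau_sq_pos zero_le_one hσ
  have h3 := hasProd_rpow (fun p => ?_) hpos α h2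
  swap
  · obtain ⟨h0, h1, _⟩ := prime_rpow_mem hσ.le p
    have := Gsum_ge zero_le_one h0.le (by linarith)
    refine le_trans ?_ this
    positivity
  rw [tsum_tau_one hσ] at h3
  refine le_of_tendsto_of_tendsto' h h3 fun s => ?_
  refine Finset.prod_le_prod (fun p _ => ?_) fun p _ => ?_
  · refine tsum_nonneg fun a => ?_
    have := dcoef_nonneg hα a
    positivity
  · obtain ⟨h0, h1, _⟩ := prime_rpow_mem hσ.le p
    rw [Gsum_one h0.le (by linarith), Real.inv_rpow (by linarith)]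
    refine Real.tsum_le_of_sum_range_le (fun a => ?_) fun N => ?_
    · have := dcoef_nonneg hα a
      positivity
    · exact partial_binomial_le' hα N h0.le (by linarith)

theorem n1_zeta_le {σ : ℝ} (hσ : 1 < σ) : ∑' n : ℕ, 1 / (n:ℝ) ^ σ ≤ 1 + 1 / (σ - 1) := by
  have h := ZetaAsymptotics.zeta_limit_aux1 hσ
  have h1 : 0 ≤ ZetaAsymptotics.termTSum σ := tsum_nonneg fun n => ZetaAsymptotics.term_nonneg _ _
  have h2 : ∑' n : ℕ, 1 / (n:ℝ) ^ σ = ∑' n : ℕ, 1 / ((n:ℝ) + 1) ^ σ := by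
    have hs : Summable fun n : ℕ => 1 / (n:ℝ) ^ σ := Real.summable_one_div_nat_rpow.mpr hσ
    rw [hs.tsum_eq_zero_add]
    simp [Real.zero_rpow (by linarith : σ ≠ 0)]
  rw [h2]
  have h3 : 0 ≤ σ * ZetaAsymptotics.termTSum σ := mul_nonneg (by linarith) h1
  linarith

/-- Harmonic-type sum of `τ_α`. -/
theorem n1_sum_div_le {α : ℝ} (hα : 0 ≤ α) {x : ℕ} (hx : 1 ≤ x) :
    ∑ n ∈ Finset.Icc 1 x, tau α n * (n:ℝ)⁻¹ ≤
      Real.exp 1 * (2:ℝ) ^ α * (1 + Real.log x) ^ α := by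
  have hx1 : (1:ℝ) ≤ x := by exact_mod_cast hx
  have hL : 0 ≤ Real.log x := Real.log_nonneg hx1
  set L : ℝ := 1 + Real.log x with hLdef
  have hL1 : 1 ≤ L := by linarith
  have hL0 : 0 < L := by linarith
  have hσ : 1 < 1 + 1 / L := by
    have : 0 < 1 / L := by positivity
    linarith
  have h1 : ∀ n ∈ Finset.Icc 1 x, tau α n * (n:ℝ)⁻¹ ≤
      Real.exp 1 * (tau α n * (n:ℝ) ^ (-(1 + 1 / L))) := by
    intro n hn
    rw [Finset.mem_Icc] at hn
    have hn1 : (1:ℝ) ≤ n := by exact_mod_cast hn.1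
    have hn0 : (0:ℝ) < n := by linarith
    have hnx : (n:ℝ) ≤ x := by exact_mod_cast hn.2
    have ht := tau_nonneg hα n
    have e1 : (n:ℝ) ^ (-(1 + 1 / L)) = (n:ℝ)⁻¹ * (n:ℝ) ^ (-(1 / L)) := by
      rw [neg_add, Real.rpow_add hn0, Real.rpow_neg_one]
    have e2 : 1 ≤ Real.exp 1 * (n:ℝ) ^ (-(1 / L)) := by
      rw [Real.rpow_def_of_pos hn0, ← Real.exp_add]
      apply Real.one_le_exp
      have h3 : Real.log n ≤ L := by
        have := Real.log_le_log hn0 hnx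
        linarith
      have h4 : Real.log n * (1 / L) ≤ 1 := by
        rw [mul_one_div, div_le_one hL0]; exact h3
      linarith
    rw [e1]
    have h5 : 0 ≤ tau α n * (n:ℝ)⁻¹ := by positivity
    calc tau α n * (n:ℝ)⁻¹ ≤ tau α n * (n:ℝ)⁻¹ * (Real.exp 1 * (n:ℝ) ^ (-(1 / L))) :=
          le_mul_of_one_le_right h5 e2
      _ = _ := by ring
  calc ∑ n ∈ Finset.Icc 1 x, tau α n * (n:ℝ)⁻¹
      ≤ ∑ n ∈ Finset.Icc 1 x, Real.exp 1 * (tau α n * (n:ℝ) ^ (-(1 + 1 / L))) :=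
        Finset.sum_le_sum h1
    _ = Real.exp 1 * ∑ n ∈ Finset.Icc 1 x, tau α n * (n:ℝ) ^ (-(1 + 1 / L)) := by
        rw [Finset.mul_sum]
    _ ≤ Real.exp 1 * ∑' n : ℕ, tau α n * (n:ℝ) ^ (-(1 + 1 / L)) := by
        apply mul_le_mul_of_nonneg_left _ (Real.exp_pos _).le
        refine (summable_tau hα hσ).sum_le_tsum _ fun n _ => ?_
        have := tau_nonneg hα n
        positivity
    _ ≤ Real.exp 1 * (∑' n : ℕ, 1 / (n:ℝ) ^ (1 + 1 / L)) ^ α := by
        apply mul_le_mul_of_nonneg_left (n1_tsum_le hα hσ) (Real.exp_pos _).le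
    _ ≤ Real.exp 1 * (2 * L) ^ α := by
        apply mul_le_mul_of_nonneg_left _ (Real.exp_pos _).le
        apply Real.rpow_le_rpow (tsum_nonneg fun n => by positivity) _ hα
        refine (n1_zeta_le hσ).trans ?_
        rw [add_sub_cancel_left, one_div_one_div]
        linarith
    _ = _ := by rw [Real.mul_rpow (by norm_num) hL0.le]; ring

theorem sum_tau_sq_le : ∃ C : ℝ, 0 < C ∧ ∀ x : ℕ, 1 ≤ x →
    ∑ n ∈ Finset.Icc 1 x, tau (3/2) n ^ 2 ≤ C * x * (1 + Real.log x) ^ (5/4 : ℝ) := by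
  refine ⟨Real.exp 1 * (2:ℝ) ^ (5/4 : ℝ), by positivity, fun x hx => ?_⟩
  have hx1 : (1:ℝ) ≤ x := by exact_mod_cast hx
  have h1 : ∀ n ∈ Finset.Icc 1 x, tau (3/2) n ^ 2 ≤
      ∑ b ∈ n.divisors, tau (5/4) b := by
    intro n hn
    rw [Finset.mem_Icc] at hn
    refine (tau_sq_le (by norm_num) n).trans (le_of_eq ?_)
    rw [show ((3/2 : ℝ)) ^ 2 = 5/4 + 1 by norm_num, ← tau_mul, ArithmeticFunction.mul_apply,
      Nat.sum_divisorsAntidiagonal (fun a b => tau (5/4) a * tau 1 b)]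
    refine Finset.sum_congr rfl fun b hb => ?_
    rw [Nat.mem_divisors] at hb
    have hne : n / b ≠ 0 := by
      have hb0 : 0 < b := Nat.pos_of_dvd_of_pos hb.1 (by omega)
      exact (Nat.div_pos (Nat.le_of_dvd (by omega) hb.1) hb0).ne'
    rw [tau_one_apply hne, mul_one]
  have h2 : ∑ n ∈ Finset.Icc 1 x, ∑ b ∈ n.divisors, tau (5/4) b =
      ∑ b ∈ Finset.Icc 1 x, tau (5/4) b * ((x / b : ℕ) : ℝ) := by
    have := ArithmeticFunction.sum_Ioc_mul_zeta_eq_sum (tau (5/4)) x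
    rw [show Finset.Ioc 0 x = Finset.Icc 1 x from rfl] at this
    rw [← this]
    refine Finset.sum_congr rfl fun n _ => ?_
    rw [ArithmeticFunction.coe_mul_zeta_apply]
  calc ∑ n ∈ Finset.Icc 1 x, tau (3/2) n ^ 2
      ≤ ∑ n ∈ Finset.Icc 1 x, ∑ b ∈ n.divisors, tau (5/4) b := Finset.sum_le_sum h1
    _ = ∑ b ∈ Finset.Icc 1 x, tau (5/4) b * ((x / b : ℕ) : ℝ) := h2
    _ ≤ ∑ b ∈ Finset.Icc 1 x, (x:ℝ) * (tau (5/4) b * (b:ℝ)⁻¹) := by
        refine Finset.sum_le_sum fun b hb => ?_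
        rw [Finset.mem_Icc] at hb
        have hb1 : (1:ℝ) ≤ b := by exact_mod_cast hb.1
        have ht : 0 ≤ tau (5/4) b := tau_nonneg (by norm_num) b
        have h3 : ((x / b : ℕ) : ℝ) ≤ (x:ℝ) / b := Nat.cast_div_le
        calc tau (5/4) b * ((x / b : ℕ) : ℝ) ≤ tau (5/4) b * ((x:ℝ) / b) := by gcongr
          _ = _ := by ring
    _ = (x:ℝ) * ∑ b ∈ Finset.Icc 1 x, tau (5/4) b * (b:ℝ)⁻¹ := by rw [Finset.mul_sum]
    _ ≤ (x:ℝ) * (Real.exp 1 * (2:ℝ) ^ (5/4 : ℝ) * (1 + Real.log x) ^ (5/4 : ℝ)) := by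
        apply mul_le_mul_of_nonneg_left (n1_sum_div_le (by norm_num) hx) (by positivity)
    _ = _ := by ring

end Pool.Agent.LibM3
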