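import Pool.Agent.LibM3.E1
import Pool.Agent.LibM3.E2
import Pool.Agent.LibM3.N1

/-! Third moment, block E3: fourth moment of the complementary series far to the right. -/

set_option autoImplicit false

namespace Pool.Agent.LibM3

open MeasureTheory Set Filter Topology Complex ProbabilityTheory
open scoped NNReal ComplexConjugate
open Pool.Agent.LibZM

theorem e3_card {n : ℕ} : ((n.divisors.card : ℝ)) = tau 2 n := by
  have h : (2:ℝ) = 1 + 1 := by norm_num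
  rw [h, ← tau_mul, ArithmeticFunction.mul_apply,
    Nat.sum_divisorsAntidiagonal (fun a b => tau 1 a * tau 1 b), Finset.card_eq_sum_ones]
  push_cast
  refine Finset.sum_congr rfl fun b hb => ?_
  rw [Nat.mem_divisors] at hb
  have hb0 : 0 < b := Nat.pos_of_dvd_of_pos hb.1 (Nat.pos_of_ne_zero hb.2)
  have hne : n / b ≠ 0 := (Nat.div_pos (Nat.le_of_dvd (Nat.pos_of_ne_zero hb.2) hb.1) hb0).ne'
  rw [tau_one_apply hne, tau_one_apply hb0.ne', mul_one]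

theorem e3_card_sq_le (n : ℕ) : ((n.divisors.card : ℝ)) ^ 2 ≤ tau 4 n := by
  rw [e3_card]
  have := tau_sq_le (κ := 2) (by norm_num) n
  rwa [show ((2:ℝ)) ^ 2 = 4 by norm_num] at this

/-- Rankin's trick, termwise. -/
theorem e3_term {A : ℝ} (hA : 1 ≤ A) {N : ℕ} (hN : 8 ≤ N) {H : ℝ} (hH : 1 ≤ H) (n : ℕ) :
    (if ((N:ℝ) / Real.exp 1) ^ 2 ≤ n then
      ((n.divisors.card : ℝ)) ^ 2 * (n:ℝ) ^ (-(1 + 2 * A)) * (1 + n / H) else 0) ≤
    Real.exp (4 * A + 2) * (N:ℝ) ^ (-(4 * A)) * (1 + (N:ℝ) ^ 2 / H) *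
      (tau 4 n * (n:ℝ) ^ (-(1 + 1 / (1 + Real.log N)))) := by
  have hN8 : (8:ℝ) ≤ N := by exact_mod_cast hN
  have hN0 : (0:ℝ) < N := by linarith
  have hH0 : 0 < H := by linarith
  have hlog : 0 ≤ Real.log N := Real.log_nonneg (by linarith)
  set L : ℝ := 1 + Real.log N with hL
  have hL1 : 1 ≤ L := by linarith
  have hL0 : 0 < L := by linarith
  set ε : ℝ := 1 / L with hε
  have hε0 : 0 < ε := by positivity
  have hε1 : ε ≤ 1 := by rw [hε, div_le_one hL0]; exact hL1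
  have hτ : 0 ≤ tau 4 n := tau_nonneg (by norm_num) n
  split_ifs with h
  · set x₀ : ℝ := ((N:ℝ) / Real.exp 1) ^ 2 with hx₀
    have hx0 : 0 < x₀ := by positivity
    have hn0 : (0:ℝ) < n := lt_of_lt_of_le hx0 h
    have hlx : Real.log x₀ = 2 * (Real.log N - 1) := by
      rw [hx₀, Real.log_pow, Real.log_div hN0.ne' (Real.exp_pos 1).ne', Real.log_exp]
      norm_num
    have hx0e : ∀ a : ℝ, x₀ ^ (-(a - ε)) ≤ Real.exp (2 * a + 2) * (N:ℝ) ^ (-(2 * a)) := by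
      intro a
      rw [Real.rpow_def_of_pos hx0, Real.rpow_def_of_pos hN0, ← Real.exp_add, hlx]
      apply Real.exp_le_exp.mpr
      have h1 : Real.log N * ε ≤ 1 := by
        rw [hε, mul_one_div, div_le_one hL0]; linarith
      nlinarith [hε0]
    have h1 : (n:ℝ) ^ (-(1 + 2 * A)) = (n:ℝ) ^ (-(1 + ε)) * (n:ℝ) ^ (-(2 * A - ε)) := by
      rw [← Real.rpow_add hn0]; congr 1; ring
    have h2 : (n:ℝ) ^ (-(1 + 2 * A)) * n = (n:ℝ) ^ (-(1 + ε)) * (n:ℝ) ^ (-(2 * A - 1 - ε)) := by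
      rw [← Real.rpow_add hn0]
      nth_rewrite 2 [← Real.rpow_one (n:ℝ)]
      rw [← Real.rpow_add hn0]; congr 1; ring
    have h3 : (n:ℝ) ^ (-(2 * A - ε)) ≤ Real.exp (4 * A + 2) * (N:ℝ) ^ (-(4 * A)) := by
      have := Real.rpow_le_rpow_of_nonpos hx0 h (z := -(2 * A - ε)) (by linarith)
      refine this.trans ?_
      have h4 := hx0e (2 * A)
      rwa [show 2 * (2 * A) = 4 * A by ring] at h4
    have h4 : (n:ℝ) ^ (-(2 * A - 1 - ε)) ≤ Real.exp (4 * A + 2) * (N:ℝ) ^ (-(4 * A)) * (N:ℝ) ^ 2 := by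
      have := Real.rpow_le_rpow_of_nonpos hx0 h (z := -(2 * A - 1 - ε)) (by linarith)
      refine this.trans ?_
      refine (hx0e (2 * A - 1)).trans ?_
      have e1 : (N:ℝ) ^ (-(2 * (2 * A - 1))) = (N:ℝ) ^ (-(4 * A)) * (N:ℝ) ^ 2 := by
        rw [← Real.rpow_natCast, ← Real.rpow_add hN0]; congr 1; push_cast; ring
      rw [e1, ← mul_assoc]
      have e2 : Real.exp (2 * (2 * A - 1) + 2) ≤ Real.exp (4 * A + 2) :=
        Real.exp_le_exp.mpr (by linarith)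
      gcongr
    have hc := e3_card_sq_le n
    have hp : 0 ≤ (n:ℝ) ^ (-(1 + 2 * A)) := by positivity
    have hq : 0 ≤ (n:ℝ) ^ (-(1 + ε)) := by positivity
    calc ((n.divisors.card : ℝ)) ^ 2 * (n:ℝ) ^ (-(1 + 2 * A)) * (1 + n / H)
        ≤ tau 4 n * (n:ℝ) ^ (-(1 + 2 * A)) * (1 + n / H) := by gcongr
      _ = tau 4 n * ((n:ℝ) ^ (-(1 + 2 * A)) + ((n:ℝ) ^ (-(1 + 2 * A)) * n) / H) := by ring
      _ = tau 4 n * ((n:ℝ) ^ (-(1 + ε)) * ((n:ℝ) ^ (-(2 * A - ε)) + (n:ℝ) ^ (-(2 * A - 1 - ε)) / H)) := by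
          rw [h2, h1]; ring
      _ ≤ tau 4 n * ((n:ℝ) ^ (-(1 + ε)) * (Real.exp (4 * A + 2) * (N:ℝ) ^ (-(4 * A)) +
            Real.exp (4 * A + 2) * (N:ℝ) ^ (-(4 * A)) * (N:ℝ) ^ 2 / H)) := by gcongr
      _ = _ := by ring
  · positivity

/-- Rankin's trick. -/
theorem rankin_tail {A : ℝ} (hA : 1 ≤ A) : ∃ C : ℝ, 0 < C ∧ ∀ N : ℕ, 8 ≤ N → ∀ H : ℝ, 1 ≤ H →
    Summable (fun n : ℕ => if ((N:ℝ) / Real.exp 1) ^ 2 ≤ n then ((n.divisors.card : ℝ)) ^ 2 * (n:ℝ) ^ (-(1 + 2 * A)) * (1 + n / H) else 0) ∧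
    ∑' n : ℕ, (if ((N:ℝ) / Real.exp 1) ^ 2 ≤ n then ((n.divisors.card : ℝ)) ^ 2 * (n:ℝ) ^ (-(1 + 2 * A)) * (1 + n / H) else 0) ≤
      C * (N:ℝ) ^ (-(4 * A)) * (1 + Real.log N) ^ 4 * (1 + (N:ℝ) ^ 2 / H) := by
  refine ⟨Real.exp (4 * A + 2) * 16, by positivity, fun N hN H hH => ?_⟩
  have hN8 : (8:ℝ) ≤ N := by exact_mod_cast hN
  have hN0 : (0:ℝ) < N := by linarith
  have hH0 : 0 < H := by linarith
  have hlog : 0 ≤ Real.log N := Real.log_nonneg (by linarith)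
  set L : ℝ := 1 + Real.log N with hL
  have hL1 : 1 ≤ L := by linarith
  have hL0 : 0 < L := by linarith
  have hσ : 1 < 1 + 1 / L := by
    have : 0 < 1 / L := by positivity
    linarith
  have hs := (summable_tau (α := 4) (by norm_num) hσ).mul_left
    (Real.exp (4 * A + 2) * (N:ℝ) ^ (-(4 * A)) * (1 + (N:ℝ) ^ 2 / H))
  have hnn : ∀ n : ℕ, 0 ≤ (if ((N:ℝ) / Real.exp 1) ^ 2 ≤ n then
      ((n.divisors.card : ℝ)) ^ 2 * (n:ℝ) ^ (-(1 + 2 * A)) * (1 + n / H) else 0) := by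
    intro n; split_ifs <;> positivity
  have hsum := Summable.of_nonneg_of_le hnn (fun n => e3_term hA hN hH n) hs
  refine ⟨hsum, ?_⟩
  calc ∑' n : ℕ, (if ((N:ℝ) / Real.exp 1) ^ 2 ≤ n then ((n.divisors.card : ℝ)) ^ 2 * (n:ℝ) ^ (-(1 + 2 * A)) * (1 + n / H) else 0)
      ≤ ∑' n : ℕ, Real.exp (4 * A + 2) * (N:ℝ) ^ (-(4 * A)) * (1 + (N:ℝ) ^ 2 / H) *
          (tau 4 n * (n:ℝ) ^ (-(1 + 1 / L))) := hsum.tsum_le_tsum (fun n => e3_term hA hN hH n) hs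
    _ = Real.exp (4 * A + 2) * (N:ℝ) ^ (-(4 * A)) * (1 + (N:ℝ) ^ 2 / H) *
          ∑' n : ℕ, tau 4 n * (n:ℝ) ^ (-(1 + 1 / L)) := tsum_mul_left
    _ ≤ Real.exp (4 * A + 2) * (N:ℝ) ^ (-(4 * A)) * (1 + (N:ℝ) ^ 2 / H) * (16 * L ^ 4) := by
        apply mul_le_mul_of_nonneg_left _ (by positivity)
        refine (n1_tsum_le (by norm_num) hσ).trans ?_
        have h1 : ∑' n : ℕ, 1 / (n:ℝ) ^ (1 + 1 / L) ≤ 2 * L := by
          refine (n1_zeta_le hσ).trans ?_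
          rw [add_sub_cancel_left, one_div_one_div]
          linarith
        have h2 : (∑' n : ℕ, 1 / (n:ℝ) ^ (1 + 1 / L)) ^ (4:ℝ) ≤ (2 * L) ^ (4:ℝ) :=
          Real.rpow_le_rpow (tsum_nonneg fun n => by positivity) h1 (by norm_num)
        refine h2.trans (le_of_eq ?_)
        rw [show (4:ℝ) = ((4:ℕ):ℝ) by norm_num, Real.rpow_natCast]
        ring
    _ = _ := by ring

/-- Coefficients of `FN`. -/
noncomputable def e3c (N : ℕ) (n : ℕ) : ℂ := ((1 - kap (Real.log N) (Real.log n) : ℝ) : ℂ)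

theorem e3_kap_nonneg (Λ x : ℝ) : 0 ≤ kap Λ x :=
  mul_nonneg (Real.smoothTransition.nonneg _) (Real.smoothTransition.nonneg _)

theorem e3_kap_le_one (Λ x : ℝ) : kap Λ x ≤ 1 :=
  mul_le_one₀ (Real.smoothTransition.le_one _) (Real.smoothTransition.nonneg _)
    (Real.smoothTransition.le_one _)

theorem e3_norm_c_le (N n : ℕ) : ‖e3c N n‖ ≤ 1 := by
  unfold e3c
  rw [Complex.norm_real, Real.norm_eq_abs, abs_le]
  have h1 := e3_kap_nonneg (Real.log N) (Real.log n)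
  have h2 := e3_kap_le_one (Real.log N) (Real.log n)
  constructor <;> linarith

theorem e3_c_eq_zero {N n : ℕ} (hN : 8 ≤ N) (hn : 1 ≤ n) (h : (n:ℝ) ≤ N / Real.exp 1) : e3c N n = 0 := by
  have hN8 : (8:ℝ) ≤ N := by exact_mod_cast hN
  have hn1 : (1:ℝ) ≤ n := by exact_mod_cast hn
  have h0 : 0 ≤ Real.log n := Real.log_nonneg hn1
  have h1 : Real.log n ≤ Real.log N - 1 := by
    have := Real.log_le_log (by linarith) h
    rwa [Real.log_div (by linarith) (Real.exp_pos 1).ne', Real.log_exp] at this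
  unfold e3c kap
  rw [Real.smoothTransition.one_of_one_le (by linarith), Real.smoothTransition.one_of_one_le (by linarith)]
  simp

/-- Coefficients of the square of `FN`. -/
noncomputable def e3b (N : ℕ) (n : ℕ) : ℂ := ∑ p ∈ n.divisorsAntidiagonal, e3c N p.1 * e3c N p.2

theorem e3_norm_b_le (N n : ℕ) : ‖e3b N n‖ ≤ (n.divisors.card : ℝ) := by
  unfold e3b
  refine (norm_sum_le _ _).trans ?_
  have h1 : ∀ p ∈ n.divisorsAntidiagonal, ‖e3c N p.1 * e3c N p.2‖ ≤ 1 := by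
    intro p _
    rw [norm_mul]
    exact mul_le_one₀ (e3_norm_c_le _ _) (norm_nonneg _) (e3_norm_c_le _ _)
  refine (Finset.sum_le_card_nsmul _ _ _ h1).trans (le_of_eq ?_)
  rw [nsmul_eq_mul, mul_one]
  congr 1
  rw [← Nat.map_div_right_divisors, Finset.card_map]

theorem e3_b_eq_zero {N n : ℕ} (hN : 8 ≤ N) (h : ¬ ((N:ℝ) / Real.exp 1) ^ 2 ≤ n) : e3b N n = 0 := by
  unfold e3b
  refine Finset.sum_eq_zero fun p hp => ?_
  rw [Nat.mem_divisorsAntidiagonal] at hp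
  have hp1 : 1 ≤ p.1 := Nat.one_le_iff_ne_zero.mpr (fun h0 => hp.2 (by rw [← hp.1, h0, zero_mul]))
  have hp2 : 1 ≤ p.2 := Nat.one_le_iff_ne_zero.mpr (fun h0 => hp.2 (by rw [← hp.1, h0, mul_zero]))
  by_cases h1 : (p.1:ℝ) ≤ N / Real.exp 1
  · rw [e3_c_eq_zero hN hp1 h1, zero_mul]
  by_cases h2 : (p.2:ℝ) ≤ N / Real.exp 1
  · rw [e3_c_eq_zero hN hp2 h2, mul_zero]
  exfalso
  apply h
  rw [not_le] at h1 h2
  rw [← hp.1, Nat.cast_mul, sq]
  have : 0 ≤ (N:ℝ) / Real.exp 1 := by positivity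
  gcongr

theorem e3_term_eq (f : ℕ → ℂ) {s : ℂ} (hs : s ≠ 0) (n : ℕ) : LSeries.term f s n = f n * (n:ℂ) ^ (-s) := by
  rw [LSeries.term_def]
  split_ifs with h
  · rw [h, Nat.cast_zero, Complex.zero_cpow (neg_ne_zero.mpr hs), mul_zero]
  · rw [Complex.cpow_neg]; rfl

theorem e3_FN_sq (N : ℕ) {s : ℂ} (hs : 1 < s.re) : FN N s ^ 2 = ∑' n : ℕ, e3b N n * (n:ℂ) ^ (-s) := by
  have hs0 : s ≠ 0 := by
    intro h; rw [h] at hs; simp at hs; linarith
  have h1 : LSeriesSummable (e3c N) s := by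
    unfold LSeriesSummable
    refine Summable.congr (Summable.of_norm (summable_FN N hs)) fun n => ?_
    exact (e3_term_eq (e3c N) hs0 n).symm
  have h2 : FN N s = LSeries (e3c N) s := by
    unfold FN LSeries
    exact tsum_congr fun n => (e3_term_eq (e3c N) hs0 n).symm
  rw [sq, h2, ← LSeries_convolution' h1 h1]
  unfold LSeries
  refine tsum_congr fun n => ?_
  rw [e3_term_eq _ hs0, LSeries.convolution_def]
  rfl

theorem FN_fourth {A : ℝ} (hA : 1 ≤ A) : ∃ C : ℝ, 0 < C ∧ ∀ N : ℕ, 8 ≤ N → ∀ u y H : ℝ, 1 ≤ H →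
    ∫ t, ‖FN N (crit t + ((A:ℂ) + y * I))‖ ^ 4 ∂(gaussianReal u (Real.toNNReal (H ^ 2))) ≤
      C * (N:ℝ) ^ (-(4 * A)) * (1 + Real.log N) ^ 4 * (1 + (N:ℝ) ^ 2 / H) := by
  obtain ⟨C₁, hC₁, h1⟩ := rankin_tail hA
  obtain ⟨C₂, hC₂, h2⟩ := schur_ms
  refine ⟨(1 + C₂) * C₁, by positivity, fun N hN u y H hH => ?_⟩
  have hH0 : 0 < H := by linarith
  set a : ℕ → ℂ := fun n => e3b N n * (n:ℂ) ^ (-(((1/2 + A : ℝ) : ℂ) + y * I)) with ha
  have ha0 : a 0 = 0 := by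
    simp only [ha, e3b, Nat.divisorsAntidiagonal_zero, Finset.sum_empty, zero_mul]
  have hnorm : ∀ n : ℕ, n ≠ 0 → ‖a n‖ = ‖e3b N n‖ * (n:ℝ) ^ (-(1/2 + A)) := by
    intro n hn
    have hn0 : (0:ℝ) < n := by exact_mod_cast Nat.pos_of_ne_zero hn
    simp only [ha]
    rw [norm_mul, Complex.norm_natCast_cpow_of_pos (Nat.pos_of_ne_zero hn)]
    congr 2
    simp
  have hnle : ∀ n : ℕ, ‖a n‖ ≤ tau 2 n * (n:ℝ) ^ (-(1/2 + A)) := by
    intro n
    rcases eq_or_ne n 0 with rfl | hn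
    · rw [ha0]; simp
    · rw [hnorm n hn, ← e3_card]
      exact mul_le_mul_of_nonneg_right (e3_norm_b_le N n) (by positivity)
  have hsq : ∀ n : ℕ, ‖a n‖ ^ 2 * (1 + C₂ * n / H) ≤ (1 + C₂) *
      (if ((N:ℝ) / Real.exp 1) ^ 2 ≤ n then ((n.divisors.card : ℝ)) ^ 2 * (n:ℝ) ^ (-(1 + 2 * A)) * (1 + n / H) else 0) := by
    intro n
    rcases eq_or_ne n 0 with rfl | hn
    · rw [ha0]; simp
    split_ifs with h
    · have hn0 : (0:ℝ) < n := by exact_mod_cast Nat.pos_of_ne_zero hn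
      rw [hnorm n hn, mul_pow]
      have e1 : ((n:ℝ) ^ (-(1/2 + A))) ^ 2 = (n:ℝ) ^ (-(1 + 2 * A)) := by
        rw [← Real.rpow_natCast, ← Real.rpow_mul hn0.le]; congr 1; push_cast; ring
      rw [e1]
      have e2 : ‖e3b N n‖ ^ 2 ≤ ((n.divisors.card : ℝ)) ^ 2 := by
        have := e3_norm_b_le N n
        gcongr
      have e3 : 1 + C₂ * n / H ≤ (1 + C₂) * (1 + n / H) := by
        have : 0 ≤ (n:ℝ) / H := by positivity
        have e4 : C₂ * n / H = C₂ * (n / H) := by ring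
        rw [e4]; nlinarith
      calc ‖e3b N n‖ ^ 2 * (n:ℝ) ^ (-(1 + 2 * A)) * (1 + C₂ * n / H)
          ≤ ((n.divisors.card : ℝ)) ^ 2 * (n:ℝ) ^ (-(1 + 2 * A)) * ((1 + C₂) * (1 + n / H)) := by gcongr
        _ = _ := by ring
    · have : a n = 0 := by
        simp only [ha]; rw [e3_b_eq_zero hN h, zero_mul]
      rw [this]; simp
  have hsa : Summable fun n => ‖a n‖ :=
    Summable.of_nonneg_of_le (fun n => norm_nonneg _) hnle (summable_tau (by norm_num) (by linarith))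
  have hsa2 : Summable fun n : ℕ => ‖a n‖ ^ 2 * n := by
    refine Summable.of_nonneg_of_le (fun n => by positivity) (fun n => ?_)
      ((summable_tau (α := 4) (by norm_num) (σ := 2 * A) (by linarith)))
    rcases eq_or_ne n 0 with rfl | hn
    · simp
    · have hn0 : (0:ℝ) < n := by exact_mod_cast Nat.pos_of_ne_zero hn
      rw [hnorm n hn, mul_pow]
      have e1 : ((n:ℝ) ^ (-(1/2 + A))) ^ 2 * n = (n:ℝ) ^ (-(2 * A)) := by
        rw [← Real.rpow_natCast, ← Real.rpow_mul hn0.le]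
        nth_rewrite 2 [← Real.rpow_one (n:ℝ)]
        rw [← Real.rpow_add hn0]; congr 1; push_cast; ring
      rw [mul_assoc, e1]
      have e2 : ‖e3b N n‖ ^ 2 ≤ tau 4 n := by
        have := e3_norm_b_le N n
        calc ‖e3b N n‖ ^ 2 ≤ ((n.divisors.card : ℝ)) ^ 2 := by gcongr
          _ ≤ _ := e3_card_sq_le n
      gcongr
  have hkey : ∀ t : ℝ, ‖FN N (crit t + ((A:ℂ) + y * I))‖ ^ 4 =
      ‖∑' n : ℕ, a n * cexp (-(((t * Real.log n : ℝ) : ℂ) * I))‖ ^ 2 := by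
    intro t
    have hre : 1 < (crit t + ((A:ℂ) + y * I)).re := by
      simp [crit]; linarith
    have e1 : ‖FN N (crit t + ((A:ℂ) + y * I))‖ ^ 4 = ‖FN N (crit t + ((A:ℂ) + y * I)) ^ 2‖ ^ 2 := by
      rw [norm_pow]; ring
    rw [e1, e3_FN_sq N hre]
    congr 2
    refine tsum_congr fun n => ?_
    rcases eq_or_ne n 0 with rfl | hn
    · rw [ha0]; simp [e3b]
    · have hn0 : (n:ℂ) ≠ 0 := by exact_mod_cast hn
      simp only [ha]
      rw [mul_assoc]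
      congr 1
      rw [Complex.cpow_def_of_ne_zero hn0, Complex.cpow_def_of_ne_zero hn0, ← Complex.exp_add,
        ← Complex.natCast_log]
      congr 1
      unfold crit
      push_cast
      ring
  simp_rw [hkey]
  refine (h2 a ha0 hsa hsa2 u H hH).trans ?_
  have hs1 := (h1 N hN H hH).1
  have hs2 := hs1.mul_left (1 + C₂)
  have hs3 : Summable fun n : ℕ => ‖a n‖ ^ 2 * (1 + C₂ * n / H) :=
    Summable.of_nonneg_of_le (fun n => by positivity) hsq hs2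
  calc ∑' n : ℕ, ‖a n‖ ^ 2 * (1 + C₂ * n / H) ≤ ∑' n : ℕ, (1 + C₂) *
      (if ((N:ℝ) / Real.exp 1) ^ 2 ≤ n then ((n.divisors.card : ℝ)) ^ 2 * (n:ℝ) ^ (-(1 + 2 * A)) * (1 + n / H) else 0) :=
        hs3.tsum_le_tsum hsq hs2
    _ = (1 + C₂) * ∑' n : ℕ, (if ((N:ℝ) / Real.exp 1) ^ 2 ≤ n then ((n.divisors.card : ℝ)) ^ 2 * (n:ℝ) ^ (-(1 + 2 * A)) * (1 + n / H) else 0) :=
        tsum_mul_left
    _ ≤ (1 + C₂) * (C₁ * (N:ℝ) ^ (-(4 * A)) * (1 + Real.log N) ^ 4 * (1 + (N:ℝ) ^ 2 / H)) := by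
        apply mul_le_mul_of_nonneg_left (h1 N hN H hH).2 (by positivity)
    _ = _ := by ring

end Pool.Agent.LibM3
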