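import Mathlib
import Pool.Agent.LibZM.HB6
import Pool.Agent.LibZM.MK6

/-! Third moment of zeta: definitions. -/

set_option autoImplicit false

namespace Pool.Agent.LibM3

open MeasureTheory Set Filter Topology Complex ProbabilityTheory
open scoped NNReal ComplexConjugate
open Pool.Agent.LibZM

/-- Complex Gaussian distribution function: the integral of the density of `N(0,2)` on the line of height `θ`. -/
noncomputable def Ph (θ l : ℝ) : ℂ :=
  ∫ x in Iic l, ((1 / (2 * √Real.pi) : ℝ) : ℂ) * cexp (-((x:ℂ) + θ * I) ^ 2 / 4)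

/-- Real Gaussian distribution function (variance 2). -/
noncomputable def PhR (l : ℝ) : ℝ := ∫ x in Iic l, 1 / (2 * √Real.pi) * Real.exp (-x ^ 2 / 4)

/-- Width of the Gaussian window. -/
noncomputable def Hw (T : ℝ) : ℝ := T / (Real.log T) ^ (3/4 : ℝ)

/-- Variance of the Gaussian window. -/
noncomputable def vw (T : ℝ) : ℝ≥0 := Real.toNNReal (Hw T ^ 2)

/-- Length of the Dirichlet polynomial. -/
noncomputable def XN (T : ℝ) : ℕ := ⌊T ^ (1/2:ℝ) * (Real.log T) ^ (1/16:ℝ)⌋₊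

/-- The window `[u/2, 2u]`. -/
def win (u : ℝ) : Set ℝ := Icc (u / 2) (2 * u)

/-- `log √(t/2π)`. -/
noncomputable def tt (t : ℝ) : ℝ := Real.log (t / (2 * Real.pi)) / 2

/-- The even kernel of the approximate functional equation (it kills the poles). -/
noncomputable def Gt (t : ℝ) (z : ℂ) : ℂ := cexp (z ^ 2) * (1 - (z / (1 - crit t)) ^ 2) * (1 - (z / crit t) ^ 2)

/-- Ratio of the archimedean factors. -/
noncomputable def Rt (t : ℝ) (z : ℂ) : ℂ := Gammaℝ (crit t + z) / Gammaℝ (crit t)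

/-- Stirling model of `Rt`. -/
noncomputable def Et (t : ℝ) (z : ℂ) : ℂ := cexp (z * ((tt t : ℝ) + (Real.pi / 4 : ℝ) * I))

/-- The Dirichlet series of length `√t` in the approximate functional equation. -/
noncomputable def Dt (t : ℝ) : ℂ := ∑' n : ℕ, Ph (Real.pi / 4) (tt t - Real.log n) * (n:ℂ) ^ (-crit t)

/-- Terms of the approximate functional equation for `|ζ|²`. -/
noncomputable def W2 (t : ℝ) (p : ℕ × ℕ) : ℂ :=
  Ph 0 (Real.log (t / (2 * Real.pi)) - Real.log ((p.1:ℝ) * p.2)) * ((p.1:ℂ) ^ (-crit t) * (p.2:ℂ) ^ (-(1 - crit t)))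

/-- Smooth cutoff: `1` on `[0, Λ-1]`, `0` for `x ≤ -1` and `x ≥ Λ`. -/
noncomputable def kap (Λ x : ℝ) : ℝ := Real.smoothTransition (x + 1) * Real.smoothTransition (Λ - x)

/-- Period of the Fourier expansion in `log n`. -/
noncomputable def per (N : ℕ) : ℝ := 2 * Real.log N + 1

/-- Frequencies. -/
noncomputable def yj (N : ℕ) (j : ℤ) : ℝ := 2 * Real.pi * j / per N

/-- Tail of `Dt`. -/
noncomputable def Etail (N : ℕ) (t : ℝ) : ℂ :=
  ∑' n : ℕ, Ph (Real.pi / 4) (tt t - Real.log n) * ((1 - kap (Real.log N) (Real.log n) : ℝ) : ℂ) * (n:ℂ) ^ (-crit t)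

/-- The Dirichlet series of the complementary cutoff. -/
noncomputable def FN (N : ℕ) (s : ℂ) : ℂ := ∑' n : ℕ, ((1 - kap (Real.log N) (Real.log n) : ℝ) : ℂ) * (n:ℂ) ^ (-s)

/-- The arithmetic weight of the twisted second moment. -/
noncomputable def gk (h k : ℕ) : ℝ := tau (1/2) h * tau (1/2) k * (Nat.gcd h k : ℝ) / ((h:ℝ) * k)

/-- The logarithm in the twisted second moment. -/
noncomputable def ell (T : ℝ) (h k : ℕ) : ℝ := max 0 (Real.log (T * (Nat.gcd h k : ℝ) ^ 2 / ((h:ℝ) * k)))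

/-- Hermitian-type form in the coefficients of the Dirichlet polynomial. -/
noncomputable def QForm (N : ℕ) (K : ℕ → ℕ → ℂ) (t : ℝ) : ℂ :=
  ∑ h ∈ Finset.Icc 1 N, ∑ k ∈ Finset.Icc 1 N, K h k * ((tau (1/2) h * tau (1/2) k : ℝ) : ℂ) *
    ((h:ℂ) ^ (-crit t) * (k:ℂ) ^ (-(1 - crit t)))

/-- Weights of the off-diagonal sum. -/
noncomputable def offw (T : ℝ) (a b h k : ℕ) : ℝ :=
  if a = 0 ∨ b = 0 ∨ a * h = b * k then 0 else
    tau (1/2) h * tau (1/2) k * ((a:ℝ) * b * h * k) ^ (-(1/2) : ℝ) * min 1 ((T / ((a:ℝ) * b)) ^ 4) *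
      min 1 ((Hw T)⁻¹ ^ 2 * (1 + ((Real.log (((a:ℝ) * h) / ((b:ℝ) * k))) ^ 2)⁻¹))

/-- The twisted second moments. -/
noncomputable def Qj (T u : ℝ) (j : ℤ) : ℝ :=
  ∫ t in win u, ‖riemannZeta (crit t)‖ ^ 2 * ‖PP (XN T) (crit t - (yj (XN T) j : ℝ) * I)‖ ^ 2 ∂(gaussianReal u (vw T))

/-- Limit of the normalised twisted second moments. -/
noncomputable def qf (x : ℝ) : ℝ :=
  (1 / (Real.pi * Real.Gamma (1/4))) * ∫ v in (0:ℝ)..(1/2), v ^ (-(3/4) : ℝ) *
    ∫ r in (0:ℝ)..(1/2 - v), ∫ r' in (0:ℝ)..(1/2 - v), (r * r') ^ (-(1/2) : ℝ) * Real.cos (x * (r - r')) * (1 - r - r')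

/-- Moduli of the limiting Fourier coefficients of the indicator of the first half of the period. -/
noncomputable def cinf (j : ℤ) : ℝ := if j = 0 then 1/2 else if Odd j then 1 / (Real.pi * |(j:ℝ)|) else 0

/-- Partial sums of the constant of the upper bound. -/
noncomputable def SJ (J : ℕ) : ℝ := 2 * ∑ j ∈ Finset.Icc (-(J:ℤ)) J, cinf j * qf (2 * Real.pi * j)

/-- Moduli of the Fourier coefficients of the indicator of `[0, τ]` with period `per N`. -/
noncomputable def csh (N : ℕ) (τ : ℝ) (j : ℤ) : ℝ :=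
  if j = 0 then τ / per N else |Real.sin (Real.pi * j * τ / per N)| / (Real.pi * |(j:ℝ)|)

end Pool.Agent.LibM3
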