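import Pool.Agent.LibM3.LDefs
import Pool.Agent.LibM3.N2

/-! Third moment, block L2: the unfolded sum in terms of the arithmetic form. -/

set_option autoImplicit false

namespace Pool.Agent.LibM3

open MeasureTheory Set Filter Topology Complex ProbabilityTheory
open scoped NNReal ComplexConjugate
open Pool.Agent.LibZM

/-- primitive of the trapezoid -/
noncomputable def l2_R (m : ℝ) : ℝ := (max 0 m) ^ 2 / 2 - (max 0 (m - 1)) ^ 2 / 2

theorem l2_R_bounds {m m' : ℝ} (h : m' ≤ m) :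
    (m - m') * max 0 (min 1 m') ≤ l2_R m - l2_R m' ∧
      l2_R m - l2_R m' ≤ (m - m') * max 0 (min 1 m) := by
  unfold l2_R
  rcases le_total m 0 with h1 | h1
  · have h2 : m' ≤ 0 := by linarith
    rw [max_eq_left h1, max_eq_left h2, max_eq_left (by linarith : m - 1 ≤ 0),
      max_eq_left (by linarith : m' - 1 ≤ 0), min_eq_right (by linarith : m' ≤ 1),
      min_eq_right (by linarith : m ≤ 1), max_eq_left h1, max_eq_left h2]
    simp
  · rw [max_eq_right h1]
    rcases le_total m' 0 with h2 | h2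
    · rw [max_eq_left h2, max_eq_left (by linarith : m' - 1 ≤ 0),
        min_eq_right (by linarith : m' ≤ 1), max_eq_left h2]
      rcases le_total m 1 with h3 | h3
      · rw [max_eq_left (by linarith : m - 1 ≤ 0), min_eq_right h3, max_eq_right h1]
        constructor <;> nlinarith
      · rw [max_eq_right (by linarith : 0 ≤ m - 1), min_eq_left h3, max_eq_right zero_le_one]
        constructor <;> nlinarith
    · rw [max_eq_right h2]
      rcases le_total m 1 with h3 | h3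
      · rw [max_eq_left (by linarith : m - 1 ≤ 0), max_eq_left (by linarith : m' - 1 ≤ 0),
          min_eq_right h3, min_eq_right (by linarith : m' ≤ 1), max_eq_right h1, max_eq_right h2]
        constructor <;> nlinarith
      · rw [max_eq_right (by linarith : 0 ≤ m - 1), min_eq_left h3, max_eq_right zero_le_one]
        rcases le_total m' 1 with h4 | h4
        · rw [max_eq_left (by linarith : m' - 1 ≤ 0), min_eq_right h4, max_eq_right h2]
          constructor <;> nlinarith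
        · rw [max_eq_right (by linarith : 0 ≤ m' - 1), min_eq_left h4, max_eq_right zero_le_one]
          constructor <;> nlinarith

theorem l2_R_nonneg (m : ℝ) : 0 ≤ l2_R m := by
  rcases le_total 0 m with h | h
  · have h1 := (l2_R_bounds h).1
    have h2 : l2_R 0 = 0 := by simp [l2_R]
    have h3 : 0 ≤ (m - 0) * max 0 (min 1 (0 : ℝ)) := by simp
    linarith
  · unfold l2_R
    rw [max_eq_left h, max_eq_left (by linarith : m - 1 ≤ 0)]; simp

theorem l2_R_zero {m : ℝ} (h : m ≤ 0) : l2_R m = 0 := by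
  unfold l2_R
  rw [max_eq_left h, max_eq_left (by linarith : m - 1 ≤ 0)]; simp

theorem l2_R_large {m : ℝ} (h : 1 ≤ m) : l2_R m = m - 1 / 2 := by
  unfold l2_R
  rw [max_eq_right (by linarith : 0 ≤ m), max_eq_right (by linarith : 0 ≤ m - 1)]; ring

theorem l2_log_bounds (j : ℕ) :
    Real.log ((j:ℝ) + 1 + 1) - Real.log ((j:ℝ) + 1) ≤ ((j:ℝ) + 1)⁻¹ ∧
      ((j:ℝ) + 1 + 1)⁻¹ ≤ Real.log ((j:ℝ) + 1 + 1) - Real.log ((j:ℝ) + 1) := by
  have hj : (0 : ℝ) ≤ j := Nat.cast_nonneg j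
  have h1 : (0 : ℝ) < (j:ℝ) + 1 := by linarith
  have h2 : (0 : ℝ) < (j:ℝ) + 1 + 1 := by linarith
  constructor
  · rw [← Real.log_div h2.ne' h1.ne']
    refine (Real.log_le_sub_one_of_pos (by positivity)).trans_eq ?_
    field_simp
    ring
  · have h3 := Real.log_le_sub_one_of_pos (show 0 < ((j:ℝ) + 1) / ((j:ℝ) + 1 + 1) by positivity)
    rw [Real.log_div h1.ne' h2.ne'] at h3
    have h4 : ((j:ℝ) + 1) / ((j:ℝ) + 1 + 1) - 1 = -((j:ℝ) + 1 + 1)⁻¹ := by
      field_simp; ring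
    linarith

theorem l2_sum {b δ c : ℝ} (hδ : 0 < δ) (hb : 3 ≤ b) (hc : c ≤ 2) (J : ℕ)
    (hJ : b ≤ δ * Real.log ((J:ℝ) + 1) + c) :
    |∑ j ∈ Finset.Icc 1 J, omb b (δ * Real.log j + c) * (j:ℝ)⁻¹ - (1 / δ) * (b - 1/2 - c)| ≤ 1 := by
  have hRc : l2_R (b - c) = b - 1 / 2 - c := by rw [l2_R_large (by linarith)]; ring
  have lower : ∀ J : ℕ, (1 / δ) * (l2_R (b - c) - l2_R (b - (δ * Real.log ((J:ℝ) + 1) + c))) ≤
      ∑ j ∈ Finset.Icc 1 J, omb b (δ * Real.log j + c) * (j:ℝ)⁻¹ := by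
    intro J
    induction J with
    | zero => simp
    | succ J ih =>
      rw [Finset.sum_Icc_succ_top (by omega)]
      push_cast
      obtain ⟨l1, l2⟩ := l2_log_bounds J
      have hJ0 : (0 : ℝ) ≤ J := Nat.cast_nonneg J
      set y1 : ℝ := δ * Real.log ((J:ℝ) + 1) + c with hy1
      set y2 : ℝ := δ * Real.log ((J:ℝ) + 1 + 1) + c with hy2
      have hlog : 0 ≤ Real.log ((J:ℝ) + 1 + 1) - Real.log ((J:ℝ) + 1) := l2.trans' (by positivity)
      have h12 : y1 ≤ y2 := by rw [hy1, hy2]; nlinarith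
      have hR := (l2_R_bounds (show b - y2 ≤ b - y1 by linarith)).2
      have hω : 0 ≤ omb b y1 := le_max_left _ _
      have hωd : max 0 (min 1 (b - y1)) = omb b y1 := rfl
      rw [hωd] at hR
      have e1 : (b - y1) - (b - y2) = δ * (Real.log ((J:ℝ) + 1 + 1) - Real.log ((J:ℝ) + 1)) := by
        rw [hy1, hy2]; ring
      rw [e1] at hR
      have h5 : (1 / δ) * (l2_R (b - y1) - l2_R (b - y2)) ≤ omb b y1 * ((J:ℝ) + 1)⁻¹ := by
        calc (1 / δ) * (l2_R (b - y1) - l2_R (b - y2)) ≤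
              (1 / δ) * (δ * (Real.log ((J:ℝ) + 1 + 1) - Real.log ((J:ℝ) + 1)) * omb b y1) := by
              gcongr
          _ = (Real.log ((J:ℝ) + 1 + 1) - Real.log ((J:ℝ) + 1)) * omb b y1 := by field_simp
          _ ≤ ((J:ℝ) + 1)⁻¹ * omb b y1 := by gcongr
          _ = _ := by ring
      have h6 : (1 / δ) * (l2_R (b - c) - l2_R (b - y2)) =
          (1 / δ) * (l2_R (b - c) - l2_R (b - y1)) + (1 / δ) * (l2_R (b - y1) - l2_R (b - y2)) := by
        ring
      rw [h6]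
      exact add_le_add ih h5
  have upper : ∀ J : ℕ, ∑ j ∈ Finset.Icc 1 (J + 1), omb b (δ * Real.log j + c) * (j:ℝ)⁻¹ ≤
      1 + (1 / δ) * (l2_R (b - c) - l2_R (b - (δ * Real.log ((J:ℝ) + 1) + c))) := by
    intro J
    induction J with
    | zero =>
      simp only [zero_add, Finset.Icc_self, Finset.sum_singleton, Nat.cast_one, Real.log_one,
        mul_zero, inv_one, mul_one, Nat.cast_zero, sub_self, add_zero]
      unfold omb
      exact max_le zero_le_one (min_le_left _ _)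
    | succ J ih =>
      rw [Finset.sum_Icc_succ_top (by omega)]
      push_cast
      obtain ⟨l1, l2⟩ := l2_log_bounds J
      have hJ0 : (0 : ℝ) ≤ J := Nat.cast_nonneg J
      set y1 : ℝ := δ * Real.log ((J:ℝ) + 1) + c with hy1
      set y2 : ℝ := δ * Real.log ((J:ℝ) + 1 + 1) + c with hy2
      have hlog : 0 ≤ Real.log ((J:ℝ) + 1 + 1) - Real.log ((J:ℝ) + 1) := l2.trans' (by positivity)
      have h12 : y1 ≤ y2 := by rw [hy1, hy2]; nlinarith
      have hR := (l2_R_bounds (show b - y2 ≤ b - y1 by linarith)).1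
      have hω : 0 ≤ omb b y2 := le_max_left _ _
      have hωd : max 0 (min 1 (b - y2)) = omb b y2 := rfl
      rw [hωd] at hR
      have e1 : (b - y1) - (b - y2) = δ * (Real.log ((J:ℝ) + 1 + 1) - Real.log ((J:ℝ) + 1)) := by
        rw [hy1, hy2]; ring
      rw [e1] at hR
      have h5 : omb b y2 * ((J:ℝ) + 1 + 1)⁻¹ ≤ (1 / δ) * (l2_R (b - y1) - l2_R (b - y2)) := by
        calc omb b y2 * ((J:ℝ) + 1 + 1)⁻¹ ≤
              omb b y2 * (Real.log ((J:ℝ) + 1 + 1) - Real.log ((J:ℝ) + 1)) := by gcongr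
          _ = (1 / δ) * (δ * (Real.log ((J:ℝ) + 1 + 1) - Real.log ((J:ℝ) + 1)) * omb b y2) := by
              field_simp
          _ ≤ _ := by gcongr
      have h6 : (1 / δ) * (l2_R (b - c) - l2_R (b - y2)) =
          (1 / δ) * (l2_R (b - c) - l2_R (b - y1)) + (1 / δ) * (l2_R (b - y1) - l2_R (b - y2)) := by
        ring
      rw [h6, ← add_assoc]
      exact add_le_add ih h5
  have hJ1 : J ≠ 0 := by
    rintro rfl
    simp at hJ
    linarith
  obtain ⟨J', rfl⟩ := Nat.exists_eq_succ_of_ne_zero hJ1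
  have h1 := lower (J' + 1)
  have h2 := upper J'
  have h3 : l2_R (b - (δ * Real.log (((J' + 1 : ℕ) : ℝ) + 1) + c)) = 0 :=
    l2_R_zero (by
      have : ((J'.succ : ℕ) : ℝ) = ((J' + 1 : ℕ) : ℝ) := rfl
      rw [this] at hJ; linarith)
  rw [h3, hRc, sub_zero] at h1
  rw [hRc] at h2
  have h4 := l2_R_nonneg (b - (δ * Real.log ((J':ℝ) + 1) + c))
  have h5 : (1 / δ) * (b - 1 / 2 - c - l2_R (b - (δ * Real.log ((J':ℝ) + 1) + c))) ≤
      (1 / δ) * (b - 1 / 2 - c) := by
    apply mul_le_mul_of_nonneg_left _ (by positivity)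
    linarith
  rw [abs_le]
  constructor
  · linarith
  · linarith

theorem l2_MN {δ : ℝ} (hδ : 0 < δ) {h : ℕ} (hh : MN δ < h) : 1 ≤ δ * Real.log h := by
  have h1 : Real.exp (1 / δ) < h := (Nat.floor_lt (Real.exp_pos _).le).1 hh
  have h2 : 1 / δ ≤ Real.log h := by
    rw [← Real.log_exp (1 / δ)]
    exact Real.log_le_log (Real.exp_pos _) h1.le
  calc (1:ℝ) = δ * (1 / δ) := by field_simp
    _ ≤ _ := by gcongr

theorem l2_div_sum {δ : ℝ} (hδ : 0 < δ) (f : ℝ → ℝ) (hf : ∀ x, 1 ≤ x → f x = 0) {q : ℕ}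
    (hq : q ≠ 0) :
    ∑ h ∈ q.divisors, tau (1/2) h * f (δ * Real.log h) =
      ∑ h ∈ Finset.Icc 1 (MN δ), if h ∣ q then tau (1/2) h * f (δ * Real.log h) else 0 := by
  rw [← Finset.sum_filter]
  symm
  apply Finset.sum_subset
  · intro h hh
    rw [Finset.mem_filter] at hh
    exact Nat.mem_divisors.2 ⟨hh.2, hq⟩
  · intro h hh hh'
    rw [Finset.mem_filter, Finset.mem_Icc] at hh'
    have h1 := (Nat.mem_divisors.1 hh).1
    have h2 : 1 ≤ h := Nat.pos_of_mem_divisors hh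
    have h3 : MN δ < h := by
      by_contra hc
      exact hh' ⟨⟨h2, not_lt.1 hc⟩, h1⟩
    rw [hf _ (l2_MN hδ h3), mul_zero]

theorem l2_inner {b δ : ℝ} (hδ : 0 < δ) (Q l : ℕ) (hl : 0 < l) :
    ∑ q ∈ Finset.Icc 1 Q, (if l ∣ q then omb b (δ * Real.log q) * (q:ℝ)⁻¹ else 0) =
      (l:ℝ)⁻¹ * ∑ j ∈ Finset.Icc 1 (Q / l), omb b (δ * Real.log j + δ * Real.log l) * (j:ℝ)⁻¹ := by
  rw [← Finset.sum_filter, Finset.mul_sum]
  refine Finset.sum_nbij' (fun q => q / l) (fun j => l * j) ?_ ?_ ?_ ?_ ?_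
  · intro q hq
    rw [Finset.mem_filter, Finset.mem_Icc] at hq
    rw [Finset.mem_Icc]
    exact ⟨Nat.div_pos (Nat.le_of_dvd (by omega) hq.2) hl, Nat.div_le_div_right hq.1.2⟩
  · intro j hj
    rw [Finset.mem_Icc] at hj
    rw [Finset.mem_filter, Finset.mem_Icc]
    refine ⟨⟨Nat.mul_pos hl (by omega), ?_⟩, Dvd.intro _ rfl⟩
    calc l * j ≤ l * (Q / l) := Nat.mul_le_mul_left _ hj.2
      _ ≤ Q := Nat.mul_div_le Q l
  · intro q hq
    rw [Finset.mem_filter] at hq
    exact Nat.mul_div_cancel' hq.2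
  · intro j _
    exact Nat.mul_div_cancel_left j hl
  · intro q hq
    rw [Finset.mem_filter, Finset.mem_Icc] at hq
    obtain ⟨j, rfl⟩ := hq.2
    have hj : 0 < j := Nat.pos_of_mul_pos_left (by omega : 0 < l * j) |> fun _ => by
      rcases Nat.eq_zero_or_pos j with h | h
      · subst h; simp at hq
      · exact h
    have hl' : (0 : ℝ) < l := by exact_mod_cast hl
    have hj' : (0 : ℝ) < j := by exact_mod_cast hj
    simp only [Nat.mul_div_cancel_left j hl]
    have e1 : δ * Real.log ((l * j : ℕ) : ℝ) = δ * Real.log j + δ * Real.log l := by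
      rw [Nat.cast_mul, Real.log_mul hl'.ne' hj'.ne']; ring
    rw [e1]
    push_cast
    rw [mul_inv]
    ring

theorem SB_eq {b : ℝ} (hb : 3 ≤ b) : ∃ C : ℝ, 0 < C ∧ ∀ δ : ℝ, 0 < δ → δ ≤ 1 → ∀ (f f' : ℝ → ℝ) (B : ℝ),
    (∀ x, 0 ≤ x → |f x| ≤ B) → (∀ x, 0 ≤ x → |f' x| ≤ B) → (∀ x, 1 ≤ x → f x = 0) → (∀ x, 1 ≤ x → f' x = 0) →
    |SB f f' b δ - (1 / δ) * ∑ h ∈ Finset.Icc 1 (MN δ), ∑ k ∈ Finset.Icc 1 (MN δ),
      gk h k * (f (δ * Real.log h) * f' (δ * Real.log k)) * (b - 1/2 - δ * (Real.log h + Real.log k - Real.log (Nat.gcd h k)))| ≤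
      C * B ^ 2 * δ ^ (-(5/4) : ℝ) := by
  obtain ⟨C, hC, hgk⟩ := sum_gk_le
  refine ⟨C * 2 ^ (5/4 : ℝ), by positivity, ?_⟩
  intro δ hδ hδ1 f f' B hfB hfB' hf hf'
  set M : ℕ := MN δ with hM
  set Q : ℕ := ⌊Real.exp (b / δ)⌋₊ with hQ
  have hB0 : 0 ≤ B := (abs_nonneg _).trans (hfB 0 le_rfl)
  have hexp : Real.exp (1 / δ) < M + 1 := Nat.lt_floor_add_one _
  have hM1 : 1 ≤ M := by
    rw [hM, MN]
    apply Nat.le_floor
    rw [Nat.cast_one]
    exact Real.one_le_exp (by positivity)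
  have hMle : (M : ℝ) ≤ Real.exp (1 / δ) := Nat.floor_le (Real.exp_pos _).le
  -- step A
  have hA : SB f f' b δ = ∑ q ∈ Finset.Icc 1 Q,
      (∑ h ∈ Finset.Icc 1 M, if h ∣ q then tau (1/2) h * f (δ * Real.log h) else 0) *
      (∑ k ∈ Finset.Icc 1 M, if k ∣ q then tau (1/2) k * f' (δ * Real.log k) else 0) *
      (omb b (δ * Real.log q) * (q:ℝ)⁻¹) := by
    unfold SB
    rw [tsum_eq_sum (s := Finset.Icc 1 Q)]
    · apply Finset.sum_congr rfl
      intro q hq
      rw [Finset.mem_Icc] at hq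
      rw [l2_div_sum hδ f hf (by omega), l2_div_sum hδ f' hf' (by omega)]
      ring
    · intro q hq
      rcases Nat.eq_zero_or_pos q with rfl | hq0
      · simp
      · have h1 : Q < q := by
          by_contra h
          exact hq (Finset.mem_Icc.2 ⟨hq0, not_lt.1 h⟩)
        have h2 : Real.exp (b / δ) < q := (Nat.floor_lt (Real.exp_pos _).le).1 h1
        have h3 : b / δ ≤ Real.log q := by
          rw [← Real.log_exp (b / δ)]
          exact Real.log_le_log (Real.exp_pos _) h2.le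
        have h4 : b ≤ δ * Real.log q := by
          calc b = δ * (b / δ) := by field_simp
            _ ≤ _ := by gcongr
        have h5 : omb b (δ * Real.log q) = 0 := by
          unfold omb
          apply max_eq_left
          exact (min_le_right _ _).trans (by linarith)
        rw [h5]; simp
  -- step C
  have hC' : SB f f' b δ = ∑ h ∈ Finset.Icc 1 M, ∑ k ∈ Finset.Icc 1 M,
      (tau (1/2) h * f (δ * Real.log h)) * (tau (1/2) k * f' (δ * Real.log k)) *
        ∑ q ∈ Finset.Icc 1 Q, (if Nat.lcm h k ∣ q then omb b (δ * Real.log q) * (q:ℝ)⁻¹ else 0) := by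
    rw [hA]
    have e1 : ∀ q ∈ Finset.Icc 1 Q,
      (∑ h ∈ Finset.Icc 1 M, if h ∣ q then tau (1/2) h * f (δ * Real.log h) else 0) *
      (∑ k ∈ Finset.Icc 1 M, if k ∣ q then tau (1/2) k * f' (δ * Real.log k) else 0) *
      (omb b (δ * Real.log q) * (q:ℝ)⁻¹) =
      ∑ h ∈ Finset.Icc 1 M, ∑ k ∈ Finset.Icc 1 M,
        (tau (1/2) h * f (δ * Real.log h)) * (tau (1/2) k * f' (δ * Real.log k)) *
        (if Nat.lcm h k ∣ q then omb b (δ * Real.log q) * (q:ℝ)⁻¹ else 0) := by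
      intro q _
      rw [Finset.sum_mul_sum, Finset.sum_mul]
      apply Finset.sum_congr rfl
      intro h _
      rw [Finset.sum_mul]
      apply Finset.sum_congr rfl
      intro k _
      by_cases h1 : h ∣ q
      · by_cases h2 : k ∣ q
        · rw [if_pos h1, if_pos h2, if_pos (Nat.lcm_dvd h1 h2)]
        · rw [if_neg h2, if_neg (fun h3 => h2 ((Nat.dvd_lcm_right h k).trans h3))]
          simp
      · rw [if_neg h1, if_neg (fun h3 => h1 ((Nat.dvd_lcm_left h k).trans h3))]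
        simp
    rw [Finset.sum_congr rfl e1, Finset.sum_comm]
    apply Finset.sum_congr rfl
    intro h _
    rw [Finset.sum_comm]
    apply Finset.sum_congr rfl
    intro k _
    rw [Finset.mul_sum]
  -- the estimate
  have hterm : ∀ h ∈ Finset.Icc 1 M, ∀ k ∈ Finset.Icc 1 M,
      |(tau (1/2) h * f (δ * Real.log h)) * (tau (1/2) k * f' (δ * Real.log k)) *
        ∑ q ∈ Finset.Icc 1 Q, (if Nat.lcm h k ∣ q then omb b (δ * Real.log q) * (q:ℝ)⁻¹ else 0) -
      (1 / δ) * (gk h k * (f (δ * Real.log h) * f' (δ * Real.log k)) *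
        (b - 1/2 - δ * (Real.log h + Real.log k - Real.log (Nat.gcd h k))))| ≤
      B ^ 2 * gk h k := by
    intro h hh k hk
    rw [Finset.mem_Icc] at hh hk
    have hh0 : (0 : ℝ) < h := by exact_mod_cast hh.1
    have hk0 : (0 : ℝ) < k := by exact_mod_cast hk.1
    have hg : 0 < Nat.gcd h k := Nat.gcd_pos_of_pos_left _ hh.1
    have hg0 : (0 : ℝ) < Nat.gcd h k := by exact_mod_cast hg
    have hl : 0 < Nat.lcm h k := Nat.lcm_pos hh.1 hk.1
    have hl0 : (0 : ℝ) < Nat.lcm h k := by exact_mod_cast hl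
    have hgl : (Nat.gcd h k : ℝ) * (Nat.lcm h k : ℝ) = h * k := by
      exact_mod_cast Nat.gcd_mul_lcm h k
    have hlog : Real.log (Nat.lcm h k) = Real.log h + Real.log k - Real.log (Nat.gcd h k) := by
      have := congrArg Real.log hgl
      rw [Real.log_mul hg0.ne' hl0.ne', Real.log_mul hh0.ne' hk0.ne'] at this
      linarith
    have hlogM : ∀ m : ℕ, 1 ≤ m → m ≤ M → 0 ≤ δ * Real.log m ∧ δ * Real.log m ≤ 1 := by
      intro m hm1 hm2
      have h1 : (1 : ℝ) ≤ m := by exact_mod_cast hm1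
      refine ⟨mul_nonneg hδ.le (Real.log_nonneg h1), ?_⟩
      have h2 : Real.log m ≤ 1 / δ := by
        rw [← Real.log_exp (1 / δ)]
        apply Real.log_le_log (by linarith)
        exact le_trans (by exact_mod_cast hm2) hMle
      calc δ * Real.log m ≤ δ * (1 / δ) := by gcongr
        _ = 1 := by field_simp
    have hc2 : δ * Real.log (Nat.lcm h k) ≤ 2 := by
      rw [hlog]
      have h1 := (hlogM h hh.1 hh.2).2
      have h2 := (hlogM k hk.1 hk.2).2
      have h3 : 0 ≤ Real.log (Nat.gcd h k) := Real.log_nonneg (by exact_mod_cast hg)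
      nlinarith
    rw [l2_inner hδ Q (Nat.lcm h k) hl]
    have hJ : b ≤ δ * Real.log (((Q / Nat.lcm h k : ℕ) : ℝ) + 1) + δ * Real.log (Nat.lcm h k) := by
      have h1 : Real.exp (b / δ) < (Q:ℝ) + 1 := Nat.lt_floor_add_one _
      have h2 : (Q:ℝ) + 1 ≤ (((Q / Nat.lcm h k : ℕ) : ℝ) + 1) * (Nat.lcm h k : ℝ) := by
        have h3 : Q + 1 ≤ (Q / Nat.lcm h k + 1) * Nat.lcm h k := by
          have := Nat.lt_div_mul_add (a := Q) hl
          rw [add_mul, one_mul]; omega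
        exact_mod_cast h3
      have h4 : b / δ ≤ Real.log ((((Q / Nat.lcm h k : ℕ) : ℝ) + 1) * (Nat.lcm h k : ℝ)) := by
        rw [← Real.log_exp (b / δ)]
        exact Real.log_le_log (Real.exp_pos _) (h1.le.trans h2)
      rw [Real.log_mul (by positivity) hl0.ne'] at h4
      calc b = δ * (b / δ) := by field_simp
        _ ≤ δ * (Real.log (((Q / Nat.lcm h k : ℕ) : ℝ) + 1) + Real.log (Nat.lcm h k)) := by gcongr
        _ = _ := by ring
    have hs := l2_sum hδ hb hc2 (Q / Nat.lcm h k) hJ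
    have hgk' : gk h k = tau (1/2) h * tau (1/2) k * (Nat.lcm h k : ℝ)⁻¹ := by
      unfold gk
      rw [← hgl]
      field_simp
    have ht1 := tau_nonneg (by norm_num : (0:ℝ) ≤ 1/2) h
    have ht2 := tau_nonneg (by norm_num : (0:ℝ) ≤ 1/2) k
    have hgk0 : 0 ≤ gk h k := by rw [hgk']; positivity
    rw [← hlog]
    set S : ℝ := ∑ j ∈ Finset.Icc 1 (Q / Nat.lcm h k),
      omb b (δ * Real.log j + δ * Real.log (Nat.lcm h k)) * (j:ℝ)⁻¹ with hS
    have e2 : (tau (1/2) h * f (δ * Real.log h)) * (tau (1/2) k * f' (δ * Real.log k)) *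
        ((Nat.lcm h k : ℝ)⁻¹ * S) -
      (1 / δ) * (gk h k * (f (δ * Real.log h) * f' (δ * Real.log k)) *
        (b - 1/2 - δ * Real.log (Nat.lcm h k))) =
      gk h k * (f (δ * Real.log h) * f' (δ * Real.log k)) *
        (S - (1 / δ) * (b - 1/2 - δ * Real.log (Nat.lcm h k))) := by
      rw [hgk']; ring
    rw [e2, abs_mul, abs_mul, abs_mul, abs_of_nonneg hgk0]
    have b1 := hfB _ (hlogM h hh.1 hh.2).1
    have b2 := hfB' _ (hlogM k hk.1 hk.2).1
    calc gk h k * (|f (δ * Real.log h)| * |f' (δ * Real.log k)|) *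
          |S - (1 / δ) * (b - 1/2 - δ * Real.log (Nat.lcm h k))| ≤ gk h k * (B * B) * 1 := by
          gcongr
      _ = _ := by ring
  have e3 : SB f f' b δ - (1 / δ) * ∑ h ∈ Finset.Icc 1 M, ∑ k ∈ Finset.Icc 1 M,
      gk h k * (f (δ * Real.log h) * f' (δ * Real.log k)) * (b - 1/2 - δ * (Real.log h + Real.log k - Real.log (Nat.gcd h k))) =
      ∑ h ∈ Finset.Icc 1 M, ∑ k ∈ Finset.Icc 1 M,
      ((tau (1/2) h * f (δ * Real.log h)) * (tau (1/2) k * f' (δ * Real.log k)) *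
        ∑ q ∈ Finset.Icc 1 Q, (if Nat.lcm h k ∣ q then omb b (δ * Real.log q) * (q:ℝ)⁻¹ else 0) -
      (1 / δ) * (gk h k * (f (δ * Real.log h) * f' (δ * Real.log k)) *
        (b - 1/2 - δ * (Real.log h + Real.log k - Real.log (Nat.gcd h k))))) := by
    rw [hC', Finset.mul_sum, ← Finset.sum_sub_distrib]
    apply Finset.sum_congr rfl
    intro h _
    rw [Finset.mul_sum, ← Finset.sum_sub_distrib]
  rw [e3]
  have e4 : |∑ h ∈ Finset.Icc 1 M, ∑ k ∈ Finset.Icc 1 M,
      ((tau (1/2) h * f (δ * Real.log h)) * (tau (1/2) k * f' (δ * Real.log k)) *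
        ∑ q ∈ Finset.Icc 1 Q, (if Nat.lcm h k ∣ q then omb b (δ * Real.log q) * (q:ℝ)⁻¹ else 0) -
      (1 / δ) * (gk h k * (f (δ * Real.log h) * f' (δ * Real.log k)) *
        (b - 1/2 - δ * (Real.log h + Real.log k - Real.log (Nat.gcd h k)))))| ≤
      ∑ h ∈ Finset.Icc 1 M, ∑ k ∈ Finset.Icc 1 M, B ^ 2 * gk h k := by
    refine (Finset.abs_sum_le_sum_abs _ _).trans (Finset.sum_le_sum fun h hh => ?_)
    refine (Finset.abs_sum_le_sum_abs _ _).trans (Finset.sum_le_sum fun k hk => ?_)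
    exact hterm h hh k hk
  refine e4.trans ?_
  have e5 : ∑ h ∈ Finset.Icc 1 M, ∑ k ∈ Finset.Icc 1 M, B ^ 2 * gk h k =
      B ^ 2 * ∑ h ∈ Finset.Icc 1 M, ∑ k ∈ Finset.Icc 1 M, gk h k := by
    rw [Finset.mul_sum]
    apply Finset.sum_congr rfl
    intro h _
    rw [Finset.mul_sum]
  rw [e5]
  have hlogM : 1 + Real.log M ≤ 2 * δ⁻¹ := by
    have h1 : Real.log M ≤ δ⁻¹ := by
      rw [← one_div, ← Real.log_exp (1 / δ)]
      exact Real.log_le_log (by exact_mod_cast hM1) hMle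
    have h2 : 1 ≤ δ⁻¹ := (one_le_inv₀ hδ).2 hδ1
    linarith
  have hlogM0 : 0 ≤ 1 + Real.log M := by
    have : 0 ≤ Real.log M := Real.log_nonneg (by exact_mod_cast hM1)
    linarith
  calc B ^ 2 * ∑ h ∈ Finset.Icc 1 M, ∑ k ∈ Finset.Icc 1 M, gk h k ≤
        B ^ 2 * (C * (1 + Real.log M) ^ (5/4 : ℝ)) := by
        gcongr
        exact hgk M hM1
    _ ≤ B ^ 2 * (C * (2 * δ⁻¹) ^ (5/4 : ℝ)) := by gcongr
    _ = C * 2 ^ (5/4 : ℝ) * B ^ 2 * δ ^ (-(5/4) : ℝ) := by
        rw [Real.mul_rpow (by norm_num) (by positivity), Real.inv_rpow hδ.le, ← Real.rpow_neg hδ.le]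
        ring

end Pool.Agent.LibM3
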