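import Pool.Agent.LibM3.LDefs

/-! Third moment, block L1a: limit of the unfolded sum as a matrix integral. -/

set_option autoImplicit false

namespace Pool.Agent.LibM3

open MeasureTheory Set Filter Topology Complex ProbabilityTheory
open scoped NNReal ComplexConjugate
open Pool.Agent.LibZM

/-- Exponents. -/
noncomputable def al : Fin 2 → ℝ := ![1, 1/2]

/-- The function with `ex (l1a_F c f) = f` up to `c`. -/
noncomputable def l1a_F (c : ℝ) (f : ℝ → ℝ) (y : ℝ) : ℝ := f (-Real.log (max y (Real.exp (-c)))) / max y (Real.exp (-c))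

theorem l1a_F_cont {c : ℝ} {f : ℝ → ℝ} (hf : Continuous f) : Continuous (l1a_F c f) := by
  have hpos : ∀ y : ℝ, 0 < max y (Real.exp (-c)) := fun y => lt_max_of_lt_right (Real.exp_pos _)
  have hm : Continuous fun y : ℝ => max y (Real.exp (-c)) := continuous_id.max continuous_const
  exact (hf.comp (hm.log fun y => (hpos y).ne').neg).div hm fun y => (hpos y).ne'

theorem l1a_F_le {c : ℝ} {f : ℝ → ℝ} {x : ℝ} (hx : x ≤ c) : ex (l1a_F c f) x = f x := by
  unfold ex l1a_F
  have h : Real.exp (-c) ≤ Real.exp (-x) := Real.exp_le_exp.2 (by linarith)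
  rw [max_eq_left h, Real.log_exp, neg_neg, mul_div_cancel₀ _ (Real.exp_ne_zero _)]

theorem l1a_F_eq {c : ℝ} {f : ℝ → ℝ} (hf : ∀ x, c ≤ x → f x = 0) : ex (l1a_F c f) = f := by
  funext x
  rcases le_total x c with hx | hx
  · exact l1a_F_le hx
  · unfold ex l1a_F
    have h : Real.exp (-x) ≤ Real.exp (-c) := Real.exp_le_exp.2 (by linarith)
    rw [max_eq_right h, Real.log_exp, neg_neg, hf c le_rfl, hf x hx, zero_div, mul_zero]

theorem l1a_omb_cont (b : ℝ) : Continuous (omb b) := by
  unfold omb; fun_prop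

theorem l1a_omb_zero {b x : ℝ} (hx : b ≤ x) : omb b x = 0 := by
  unfold omb
  exact max_eq_left ((min_le_right _ _).trans (by linarith))

theorem l1a_tau_one {n : ℕ} (hn : n ≠ 0) : tau 1 n = 1 := by
  rw [tau_apply hn]
  apply Finset.prod_eq_one
  intro p _
  have : ∀ a : ℕ, dcoef 1 a = 1 := by
    intro a
    unfold dcoef
    apply Finset.prod_eq_one
    intro i _
    rw [add_comm]; exact div_self (by positivity)
  exact this _

theorem l1a_cfg {g0 f : ℝ → ℝ} {δ : ℝ} (q : ℕ) :
    cfg al ![g0, f] δ q = ∑ x ∈ q.divisorsAntidiagonal,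
      (tau 1 x.1 * g0 (δ * Real.log x.1)) * (tau (1/2) x.2 * f (δ * Real.log x.2)) := by
  unfold cfg
  rw [Fin.prod_univ_two, ArithmeticFunction.mul_apply]
  refine Finset.sum_congr rfl fun x hx => ?_
  rw [tw_apply, tw_apply]
  rfl

theorem l1a_SG {f f' : ℝ → ℝ} {b δ : ℝ} (hδ : 0 < δ) (g0 : ℝ → ℝ) (hg0 : ∀ x, x ≤ b → g0 x = 1) :
    SG al ![g0, f] ![g0, f'] (omb b) δ = SB f f' b δ := by
  unfold SG SB
  refine tsum_congr fun q => ?_
  rcases Nat.eq_zero_or_pos q with rfl | hq
  · simp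
  · rcases le_total b (δ * Real.log q) with h | h
    · rw [l1a_omb_zero h]; ring
    · have key : ∀ f : ℝ → ℝ, cfg al ![g0, f] δ q = ∑ h ∈ q.divisors, tau (1/2) h * f (δ * Real.log h) := by
        intro f
        rw [l1a_cfg]
        rw [Nat.sum_divisorsAntidiagonal' (fun a c => (tau 1 a * g0 (δ * Real.log a)) * (tau (1/2) c * f (δ * Real.log c)))]
        refine Finset.sum_congr rfl fun d hd => ?_
        have hd' := Nat.dvd_of_mem_divisors hd
        have hqd : q / d ≠ 0 := (Nat.div_pos (Nat.le_of_dvd hq hd') (Nat.pos_of_dvd_of_pos hd' hq)).ne'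
        rw [l1a_tau_one hqd, hg0, one_mul, one_mul]
        refine le_trans ?_ h
        apply mul_le_mul_of_nonneg_left _ hδ.le
        apply Real.log_le_log (by exact_mod_cast Nat.pos_of_ne_zero hqd)
        exact_mod_cast Nat.div_le_self q d
      rw [key, key]

theorem l1a_LG {f f' : ℝ → ℝ} {b : ℝ} (g0 : ℝ → ℝ) (hg0 : ∀ x, x ≤ b → g0 x = 1) :
    LG al ![g0, f] ![g0, f'] (omb b) = LG al ![fun _ => 1, f] ![fun _ => 1, f'] (omb b) := by
  unfold LG
  refine integral_congr_ae (Eventually.of_forall fun t => ?_)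
  simp only
  by_cases hneg : ∀ p, 0 ≤ t p
  · rcases le_total b (totS t) with h | h
    · rw [l1a_omb_zero h]; ring
    · have hr : rowS t 0 ≤ b := by
        refine le_trans ?_ h
        unfold rowS totS
        rw [Fintype.sum_prod_type]
        exact Finset.single_le_sum (f := fun i => ∑ j, t (i, j)) (fun i _ => Finset.sum_nonneg fun j _ => hneg _) (Finset.mem_univ 0)
      have hc : colS t 0 ≤ b := by
        refine le_trans ?_ h
        unfold colS totS
        rw [Fintype.sum_prod_type, Finset.sum_comm]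
        exact Finset.single_le_sum (f := fun j => ∑ i, t (i, j)) (fun i _ => Finset.sum_nonneg fun j _ => hneg _) (Finset.mem_univ 0)
      rw [Fin.prod_univ_two, Fin.prod_univ_two, Fin.prod_univ_two, Fin.prod_univ_two]
      simp only [Matrix.cons_val_zero, Matrix.cons_val_one, hg0 _ hr, hg0 _ hc]
  · push Not at hneg
    obtain ⟨p, hp⟩ := hneg
    have : cellD al t = 0 := by
      unfold cellD
      apply Finset.prod_eq_zero (Finset.mem_univ p)
      unfold cellρ
      apply Set.indicator_of_notMem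
      simpa using hp.le
    rw [this, mul_zero, mul_zero]

theorem SB_limit_LG {f f' : ℝ → ℝ} (hf : Continuous f) (hf' : Continuous f') (h1 : ∀ x, 1 ≤ x → f x = 0) (h1' : ∀ x, 1 ≤ x → f' x = 0)
    {b : ℝ} (hb : 3 ≤ b) :
    Tendsto (fun δ : ℝ => δ ^ (9/4 : ℝ) * SB f f' b δ) (𝓝[>] 0)
      (𝓝 (Aconst (3/2) * LG al ![fun _ => 1, f] ![fun _ => 1, f'] (omb b))) := by
  have hal : ∀ i, 0 < al i := by
    intro i; fin_cases i <;> simp [al]
  have hsum : ∑ i, al i = 3/2 := by
    rw [Fin.sum_univ_two]; simp [al]; norm_num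
  set g0 : ℝ → ℝ := ex (l1a_F b fun _ => 1) with hg0
  have hg1 : ∀ x, x ≤ b → g0 x = 1 := fun x hx => l1a_F_le hx
  have e1 : (fun i => ex ((![l1a_F b fun _ => 1, l1a_F 1 f] : Fin 2 → ℝ → ℝ) i)) = ![g0, f] := by
    funext i
    fin_cases i
    · rfl
    · exact l1a_F_eq h1
  have e2 : (fun i => ex ((![l1a_F b fun _ => 1, l1a_F 1 f'] : Fin 2 → ℝ → ℝ) i)) = ![g0, f'] := by
    funext i
    fin_cases i
    · rfl
    · exact l1a_F_eq h1'
  have e0 : ex (l1a_F b (omb b)) = omb b := l1a_F_eq fun x hx => l1a_omb_zero hx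
  have key := tendsto_SG (α := al) hal (f := ![l1a_F b fun _ => 1, l1a_F 1 f]) (f' := ![l1a_F b fun _ => 1, l1a_F 1 f'])
    (f0 := l1a_F b (omb b))
    (by intro i; fin_cases i <;> [exact l1a_F_cont continuous_const; exact l1a_F_cont hf])
    (by intro i; fin_cases i <;> [exact l1a_F_cont continuous_const; exact l1a_F_cont hf'])
    (l1a_F_cont (l1a_omb_cont b))
  rw [e1, e2, e0, hsum, l1a_LG g0 hg1] at key
  refine key.congr' ?_
  filter_upwards [self_mem_nhdsWithin] with δ hδ
  rw [l1a_SG hδ g0 hg1]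
  norm_num

end Pool.Agent.LibM3
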