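import Pool.Agent.LibM3.Defs

/-! Third moment, block L: definitions for the limit of the arithmetic form. -/

set_option autoImplicit false

namespace Pool.Agent.LibM3

open MeasureTheory Set Filter Topology Complex ProbabilityTheory
open scoped NNReal ComplexConjugate
open Pool.Agent.LibZM

/-- Trapezoidal cutoff: `1` for `x ≤ b-1`, `0` for `x ≥ b`. -/
noncomputable def omb (b x : ℝ) : ℝ := max 0 (min 1 (b - x))

/-- The unfolded sum. -/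
noncomputable def SB (f f' : ℝ → ℝ) (b δ : ℝ) : ℝ :=
  ∑' q : ℕ, (∑ h ∈ q.divisors, tau (1/2) h * f (δ * Real.log h)) * (∑ k ∈ q.divisors, tau (1/2) k * f' (δ * Real.log k)) *
    omb b (δ * Real.log q) * (q:ℝ)⁻¹

/-- Limit of the unfolded sum. -/
noncomputable def IB (f f' : ℝ → ℝ) (b : ℝ) : ℝ :=
  (1 / (Real.pi * Real.Gamma (1/4))) * ∫ v in (0:ℝ)..1, v ^ (-(3/4) : ℝ) *
    ∫ r in (0:ℝ)..(1 - v), ∫ r' in (0:ℝ)..(1 - v), (r * r') ^ (-(1/2) : ℝ) * (f (v + r) * f' (v + r')) * (b - 1/2 - (v + r + r'))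

/-- Limit form with the weight `1 - r - r'`. -/
noncomputable def IM (f f' : ℝ → ℝ) : ℝ :=
  (1 / (Real.pi * Real.Gamma (1/4))) * ∫ v in (0:ℝ)..1, v ^ (-(3/4) : ℝ) *
    ∫ r in (0:ℝ)..(1 - v), ∫ r' in (0:ℝ)..(1 - v), (r * r') ^ (-(1/2) : ℝ) * (f (v + r) * f' (v + r')) * (1 - r - r')

/-- Limit form without weight. -/
noncomputable def IP (f f' : ℝ → ℝ) : ℝ :=
  (1 / (Real.pi * Real.Gamma (1/4))) * ∫ v in (0:ℝ)..1, v ^ (-(3/4) : ℝ) *
    ∫ r in (0:ℝ)..(1 - v), ∫ r' in (0:ℝ)..(1 - v), (r * r') ^ (-(1/2) : ℝ) * (f (v + r) * f' (v + r'))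

/-- Cutoff for the sums. -/
noncomputable def MN (δ : ℝ) : ℕ := ⌊Real.exp (1 / δ)⌋₊

end Pool.Agent.LibM3
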