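import Pool.Agent.LibM3.L3

/-! Third moment, block L4: the limit of the arithmetic form with sharp cutoff. -/

set_option autoImplicit false

namespace Pool.Agent.LibM3

open MeasureTheory Set Filter Topology Complex ProbabilityTheory
open scoped NNReal ComplexConjugate
open Pool.Agent.LibZM

/-- One-dimensional density. -/
noncomputable def l4_d (a x : ℝ) : ℝ := (Ioo (0:ℝ) 1).indicator (fun x => x ^ (-a)) x

noncomputable def l4_dens (z : ℝ × ℝ × ℝ) : ℝ := l4_d (3/4) z.1 * (l4_d (1/2) z.2.1 * l4_d (1/2) z.2.2)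

noncomputable def l4_ind (a : ℝ) (z : ℝ × ℝ × ℝ) : ℝ := {z : ℝ × ℝ × ℝ | z.1 + z.2.1 < a ∧ z.1 + z.2.2 < a}.indicator (fun _ => 1) z

lemma l4_d_int {a : ℝ} (ha : a < 1) : Integrable (l4_d a) := by
  unfold l4_d
  rw [integrable_indicator_iff measurableSet_Ioo]
  have h := intervalIntegral.intervalIntegrable_rpow' (a := 0) (b := 1) (r := -a) (by linarith)
  rw [intervalIntegrable_iff_integrableOn_Ioo_of_le (by norm_num)] at h
  exact h

lemma l4_d_meas (a : ℝ) : Measurable (l4_d a) := by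
  unfold l4_d
  exact Measurable.indicator (by fun_prop) measurableSet_Ioo

lemma l4_d_nonneg (a x : ℝ) : 0 ≤ l4_d a x := by
  unfold l4_d
  refine Set.indicator_nonneg (fun x hx => ?_) x
  exact Real.rpow_nonneg hx.1.le _

lemma l4_dens_int : Integrable l4_dens (volume.prod (volume.prod volume)) := by
  unfold l4_dens
  exact (l4_d_int (by norm_num)).mul_prod ((l4_d_int (by norm_num)).mul_prod (l4_d_int (by norm_num)))

lemma l4_dens_meas : Measurable l4_dens := by
  unfold l4_dens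
  have h1 := l4_d_meas (3/4)
  have h2 := l4_d_meas (1/2)
  fun_prop

lemma l4_ind_meas (a : ℝ) : Measurable (l4_ind a) := by
  unfold l4_ind
  refine Measurable.indicator measurable_const ?_
  exact (measurableSet_lt (f := fun z : ℝ × ℝ × ℝ => z.1 + z.2.1) (g := fun _ => a) (by fun_prop) (by fun_prop)).inter
    (measurableSet_lt (f := fun z : ℝ × ℝ × ℝ => z.1 + z.2.2) (g := fun _ => a) (by fun_prop) (by fun_prop))

lemma l4_ind_le (a : ℝ) (z : ℝ × ℝ × ℝ) : 0 ≤ l4_ind a z ∧ l4_ind a z ≤ 1 := by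
  unfold l4_ind
  by_cases h : z ∈ {z : ℝ × ℝ × ℝ | z.1 + z.2.1 < a ∧ z.1 + z.2.2 < a}
  · rw [indicator_of_mem h]; norm_num
  · rw [indicator_of_notMem h]; norm_num

/-- pointwise bound -/
lemma l4_bound {k : ℝ × ℝ × ℝ → ℝ} {B : ℝ} (hk : ∀ v ∈ Ioo (0:ℝ) 1, ∀ r ∈ Ioo (0:ℝ) 1, ∀ r' ∈ Ioo (0:ℝ) 1, |k (v, r, r')| ≤ B) 
    (a : ℝ) (z : ℝ × ℝ × ℝ) : ‖l4_dens z * l4_ind a z * k z‖ ≤ l4_dens z * B := by
  obtain ⟨v, r, r'⟩ := z
  have h0 : 0 ≤ l4_dens (v, r, r') := by
    unfold l4_dens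
    have := l4_d_nonneg (3/4) v
    have := l4_d_nonneg (1/2) r
    have := l4_d_nonneg (1/2) r'
    positivity
  have hi := l4_ind_le a (v, r, r')
  rw [Real.norm_eq_abs, abs_mul, abs_mul, abs_of_nonneg h0, abs_of_nonneg hi.1]
  by_cases h : v ∈ Ioo (0:ℝ) 1 ∧ r ∈ Ioo (0:ℝ) 1 ∧ r' ∈ Ioo (0:ℝ) 1
  · have h1 := hk v h.1 r h.2.1 r' h.2.2
    have h2 := abs_nonneg (k (v, r, r'))
    calc l4_dens (v, r, r') * l4_ind a (v, r, r') * |k (v, r, r')| ≤ l4_dens (v, r, r') * 1 * B := by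
          gcongr
          exact hi.2
      _ = _ := by ring
  · have : l4_dens (v, r, r') = 0 := by
      unfold l4_dens l4_d
      by_cases h1 : v ∈ Ioo (0:ℝ) 1
      · by_cases h2 : r ∈ Ioo (0:ℝ) 1
        · have h3 : r' ∉ Ioo (0:ℝ) 1 := fun h3 => h ⟨h1, h2, h3⟩
          simp [indicator_of_notMem h3]
        · simp [indicator_of_notMem h2]
      · simp [indicator_of_notMem h1]
    rw [this]; simp

lemma l4_zero {a v r r' : ℝ} (h : ¬ (0 < r ∧ r < a - v ∧ 0 < r' ∧ r' < a - v)) : l4_dens (v, r, r') * l4_ind a (v, r, r') = 0 := by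
  by_cases h1 : 0 < r
  · by_cases h2 : 0 < r'
    · have : l4_ind a (v, r, r') = 0 := by
        unfold l4_ind
        refine indicator_of_notMem ?_ _
        simp only [Set.mem_ofPred_eq]
        rintro ⟨h3, h4⟩
        exact h ⟨h1, by linarith, h2, by linarith⟩
      rw [this, mul_zero]
    · have : l4_dens (v, r, r') = 0 := by
        unfold l4_dens l4_d
        rw [indicator_of_notMem (a := r') (fun h3 => h2 h3.1)]; simp
      rw [this, zero_mul]
  · have : l4_dens (v, r, r') = 0 := by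
      unfold l4_dens l4_d
      rw [indicator_of_notMem (a := r) (fun h3 => h1 h3.1)]; simp
    rw [this, zero_mul]

lemma l4_pos {a v r r' : ℝ} (ha1 : a ≤ 1) (hv : v ∈ Ioo (0:ℝ) a) (hr : r ∈ Ioo (0:ℝ) (a - v)) (hr' : r' ∈ Ioo (0:ℝ) (a - v)) :
    l4_dens (v, r, r') * l4_ind a (v, r, r') = v ^ (-(3/4) : ℝ) * (r * r') ^ (-(1/2) : ℝ) := by
  have e1 : l4_ind a (v, r, r') = 1 := by
    unfold l4_ind
    refine indicator_of_mem ?_ _
    simp only [Set.mem_ofPred_eq]
    exact ⟨by linarith [hr.2], by linarith [hr'.2]⟩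
  rw [e1, mul_one]
  unfold l4_dens l4_d
  have m1 : v ∈ Ioo (0:ℝ) 1 := ⟨hv.1, by linarith [hv.2]⟩
  have m2 : r ∈ Ioo (0:ℝ) 1 := ⟨hr.1, by linarith [hr.2, hv.1]⟩
  have m3 : r' ∈ Ioo (0:ℝ) 1 := ⟨hr'.1, by linarith [hr'.2, hv.1]⟩
  simp only [indicator_of_mem m1, indicator_of_mem m2, indicator_of_mem m3]
  rw [Real.mul_rpow hr.1.le hr'.1.le]

lemma l4_iter {a : ℝ} (ha0 : 0 < a) (ha1 : a ≤ 1) {k : ℝ × ℝ × ℝ → ℝ} (hkm : Measurable k) {B : ℝ}
    (hk : ∀ v ∈ Ioo (0:ℝ) 1, ∀ r ∈ Ioo (0:ℝ) 1, ∀ r' ∈ Ioo (0:ℝ) 1, |k (v, r, r')| ≤ B) :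
    ∫ v in (0:ℝ)..a, v ^ (-(3/4) : ℝ) * ∫ r in (0:ℝ)..(a - v), ∫ r' in (0:ℝ)..(a - v), (r * r') ^ (-(1/2) : ℝ) * k (v, r, r') =
      ∫ z : ℝ × ℝ × ℝ, l4_dens z * l4_ind a z * k z ∂(volume.prod (volume.prod volume)) := by
  have hint : Integrable (fun z : ℝ × ℝ × ℝ => l4_dens z * l4_ind a z * k z) (volume.prod (volume.prod volume)) := by
    refine Integrable.mono' (l4_dens_int.mul_const B) ?_ (ae_of_all _ fun z => l4_bound hk a z)
    exact ((l4_dens_meas.mul (l4_ind_meas a)).mul hkm).aestronglyMeasurable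
  rw [integral_prod _ hint]
  rw [intervalIntegral.integral_of_le ha0.le, integral_Ioc_eq_integral_Ioo, ← integral_indicator measurableSet_Ioo]
  refine integral_congr_ae ?_
  have hfib : ∀ᵐ v : ℝ, Integrable (fun y : ℝ × ℝ => l4_dens (v, y) * l4_ind a (v, y) * k (v, y)) (volume.prod volume) := hint.prod_right_ae
  filter_upwards [hfib] with v hv
  rw [integral_prod _ hv]
  by_cases hva : v ∈ Ioo (0:ℝ) a
  · rw [indicator_of_mem hva]
    rw [intervalIntegral.integral_of_le (by linarith [hva.2]), integral_Ioc_eq_integral_Ioo,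
      ← integral_indicator measurableSet_Ioo, ← integral_const_mul]
    refine integral_congr_ae (ae_of_all _ fun r => ?_)
    simp only
    by_cases hr : r ∈ Ioo (0:ℝ) (a - v)
    · rw [indicator_of_mem hr, intervalIntegral.integral_of_le (by linarith [hva.2]), integral_Ioc_eq_integral_Ioo,
        ← integral_indicator measurableSet_Ioo, ← integral_const_mul]
      refine integral_congr_ae (ae_of_all _ fun r' => ?_)
      simp only
      by_cases hr' : r' ∈ Ioo (0:ℝ) (a - v)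
      · rw [indicator_of_mem hr', l4_pos ha1 hva hr hr']; ring
      · rw [indicator_of_notMem hr', l4_zero (fun h => hr' ⟨h.2.2.1, h.2.2.2⟩)]; ring
    · rw [indicator_of_notMem hr, mul_zero]
      symm
      have : ∀ r' : ℝ, l4_dens (v, r, r') * l4_ind a (v, r, r') * k (v, r, r') = 0 := by
        intro r'
        rw [l4_zero (fun h => hr ⟨h.1, h.2.1⟩), zero_mul]
      simp [this]
  · rw [indicator_of_notMem hva]
    symm
    have : ∀ r r' : ℝ, l4_dens (v, r, r') * l4_ind a (v, r, r') * k (v, r, r') = 0 := by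
      intro r r'
      by_cases hv0 : 0 < v
      · rw [l4_zero, zero_mul]
        rintro ⟨h1, h2, -, -⟩
        exact hva ⟨hv0, by linarith⟩
      · unfold l4_dens l4_d
        rw [indicator_of_notMem (a := v) (fun h3 => hv0 h3.1)]; ring
    simp [this]

/-- The cutoffs. -/
noncomputable def l4_chi (e x : ℝ) : ℝ := max 0 (min 1 ((1/2 - e - x) / e))
noncomputable def l4_psi (e x : ℝ) : ℝ := max 0 (min 1 (min ((x - 1/2 + 2 * e) / e) ((1/2 + e - x) / e)))
noncomputable def l4_om (x : ℝ) : ℝ := max 0 (min 1 (2 - 2 * x))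

lemma l4_chi_cont (e : ℝ) : Continuous (l4_chi e) := by unfold l4_chi; fun_prop
lemma l4_psi_cont (e : ℝ) : Continuous (l4_psi e) := by unfold l4_psi; fun_prop
lemma l4_om_cont : Continuous l4_om := by unfold l4_om; fun_prop

lemma l4_chi_mem (e x : ℝ) : 0 ≤ l4_chi e x ∧ l4_chi e x ≤ 1 := 
  ⟨le_max_left _ _, max_le (by norm_num) (min_le_left _ _)⟩
lemma l4_psi_mem (e x : ℝ) : 0 ≤ l4_psi e x ∧ l4_psi e x ≤ 1 := 
  ⟨le_max_left _ _, max_le (by norm_num) (min_le_left _ _)⟩
lemma l4_om_mem (x : ℝ) : 0 ≤ l4_om x ∧ l4_om x ≤ 1 := 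
  ⟨le_max_left _ _, max_le (by norm_num) (min_le_left _ _)⟩

lemma l4_chi_zero {e x : ℝ} (he : 0 < e) (hx : 1/2 - e ≤ x) : l4_chi e x = 0 := by
  unfold l4_chi
  rw [max_eq_left]
  refine (min_le_right _ _).trans ?_
  exact div_nonpos_of_nonpos_of_nonneg (by linarith) he.le

lemma l4_chi_one {e x : ℝ} (he : 0 < e) (hx : x ≤ 1/2 - 2 * e) : l4_chi e x = 1 := by
  unfold l4_chi
  have h : 1 ≤ (1/2 - e - x) / e := by rw [le_div_iff₀ he]; linarith
  rw [min_eq_left h]; norm_num

lemma l4_psi_zero {e x : ℝ} (he : 0 < e) (hx : x ≤ 1/2 - 2 * e ∨ 1/2 + e ≤ x) : l4_psi e x = 0 := by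
  unfold l4_psi
  rw [max_eq_left]
  refine (min_le_right _ _).trans ?_
  rcases hx with hx | hx
  · exact (min_le_left _ _).trans (div_nonpos_of_nonpos_of_nonneg (by linarith) he.le)
  · exact (min_le_right _ _).trans (div_nonpos_of_nonpos_of_nonneg (by linarith) he.le)

lemma l4_om_zero {x : ℝ} (hx : 1 ≤ x) : l4_om x = 0 := by
  unfold l4_om
  rw [max_eq_left]
  exact (min_le_right _ _).trans (by linarith)

lemma l4_om_one {x : ℝ} (hx : x ≤ 1/2) : l4_om x = 1 := by
  unfold l4_om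
  rw [min_eq_left (by linarith)]; norm_num

lemma l4_chi_psi {e x : ℝ} (he : 0 < e) (hx : x ≤ 1/2) : 1 - l4_chi e x ≤ l4_psi e x := by
  have h1 : 1 ≤ (1/2 + e - x) / e := by rw [le_div_iff₀ he]; linarith
  have e2 : (x - 1/2 + 2 * e) / e = 1 - (1/2 - e - x) / e := by field_simp; ring
  unfold l4_chi l4_psi
  rw [e2]
  set w := (1/2 - e - x) / e
  rcases le_total w 0 with hw | hw
  · have : min 1 w ≤ 0 := (min_le_right _ _).trans hw
    rw [max_eq_left this]
    have : min 1 (min (1 - w) ((1/2 + e - x) / e)) = 1 := by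
      rw [min_eq_left]
      exact le_min (by linarith) h1
    rw [this]; norm_num
  · rcases le_total w 1 with hw1 | hw1
    · rw [min_eq_right hw1, max_eq_right hw]
      refine le_max_of_le_right (le_min (by linarith) (le_min le_rfl ?_))
      linarith
    · rw [min_eq_left hw1]
      simp

/-- Sequence of widths. -/
noncomputable def l4_e (n : ℕ) : ℝ := 1 / ((n:ℝ) + 4)

lemma l4_e_pos (n : ℕ) : 0 < l4_e n := by unfold l4_e; positivity
lemma l4_e_le (n : ℕ) : l4_e n ≤ 1/4 := by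
  unfold l4_e
  apply one_div_le_one_div_of_le (by norm_num)
  have : (0:ℝ) ≤ n := Nat.cast_nonneg n
  linarith

lemma l4_e_tendsto : Tendsto l4_e atTop (𝓝 0) := by
  unfold l4_e
  simp_rw [one_div]
  exact tendsto_inv_atTop_zero.comp (tendsto_atTop_add_const_right _ _ tendsto_natCast_atTop_atTop)

lemma l4_chi_lim (x : ℝ) : Tendsto (fun n => l4_chi (l4_e n) x) atTop (𝓝 (if x < 1/2 then 1 else 0)) := by
  split_ifs with h
  · refine tendsto_const_nhds.congr' ?_
    have : ∀ᶠ n in atTop, l4_e n < (1/2 - x) / 2 := l4_e_tendsto.eventually_lt_const (by linarith)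
    filter_upwards [this] with n hn
    rw [l4_chi_one (l4_e_pos n) (by linarith)]
  · refine tendsto_const_nhds.congr' (Eventually.of_forall fun n => ?_)
    have h1 := l4_e_pos n
    exact (l4_chi_zero h1 (by linarith)).symm

lemma l4_psi_lim {x : ℝ} (hx : x ≠ 1/2) : Tendsto (fun n => l4_psi (l4_e n) x) atTop (𝓝 0) := by
  refine tendsto_const_nhds.congr' ?_
  rcases lt_or_gt_of_ne hx with h | h
  · have : ∀ᶠ n in atTop, l4_e n < (1/2 - x) / 2 := l4_e_tendsto.eventually_lt_const (by linarith)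
    filter_upwards [this] with n hn
    rw [l4_psi_zero (l4_e_pos n) (Or.inl (by linarith))]
  · have : ∀ᶠ n in atTop, l4_e n < x - 1/2 := l4_e_tendsto.eventually_lt_const (by linarith)
    filter_upwards [this] with n hn
    rw [l4_psi_zero (l4_e_pos n) (Or.inr (by linarith))]

lemma l4_w_le {r r' : ℝ} (hr : r ∈ Ioo (0:ℝ) 1) (hr' : r' ∈ Ioo (0:ℝ) 1) : |1 - r - r'| ≤ 1 := by
  rw [abs_le]; constructor <;> linarith [hr.1, hr.2, hr'.1, hr'.2]

/-- `IM` as an integral over the cube. -/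
lemma l4_IM {f f' : ℝ → ℝ} (hf : Continuous f) (hf' : Continuous f') (hb : ∀ x, |f x| ≤ 1) (hb' : ∀ x, |f' x| ≤ 1) :
    IM f f' = (1 / (Real.pi * Real.Gamma (1/4))) * 
      ∫ z : ℝ × ℝ × ℝ, l4_dens z * l4_ind 1 z * ((f (z.1 + z.2.1) * f' (z.1 + z.2.2)) * (1 - z.2.1 - z.2.2)) ∂(volume.prod (volume.prod volume)) := by
  unfold IM
  rw [← l4_iter (k := fun z : ℝ × ℝ × ℝ => (f (z.1 + z.2.1) * f' (z.1 + z.2.2)) * (1 - z.2.1 - z.2.2)) one_pos le_rfl (B := 1)]
  · simp only [mul_assoc]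
  · have := hf.measurable
    have := hf'.measurable
    fun_prop
  · intro v hv r hr r' hr'
    simp only
    rw [abs_mul, abs_mul]
    have h1 := hb (v + r)
    have h2 := hb' (v + r')
    have h3 := l4_w_le hr hr'
    have h4 := abs_nonneg (f (v + r))
    have h5 := abs_nonneg (f' (v + r'))
    have h6 := abs_nonneg (1 - r - r')
    calc |f (v + r)| * |f' (v + r')| * |1 - r - r'| ≤ 1 * 1 * 1 := by gcongr
      _ = 1 := by norm_num

lemma l4_IP {f f' : ℝ → ℝ} (hf : Continuous f) (hf' : Continuous f') (hb : ∀ x, |f x| ≤ 1) (hb' : ∀ x, |f' x| ≤ 1) :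
    IP f f' = (1 / (Real.pi * Real.Gamma (1/4))) * 
      ∫ z : ℝ × ℝ × ℝ, l4_dens z * l4_ind 1 z * (f (z.1 + z.2.1) * f' (z.1 + z.2.2)) ∂(volume.prod (volume.prod volume)) := by
  unfold IP
  rw [← l4_iter (k := fun z : ℝ × ℝ × ℝ => (f (z.1 + z.2.1) * f' (z.1 + z.2.2))) one_pos le_rfl (B := 1)]
  · have := hf.measurable
    have := hf'.measurable
    fun_prop
  · intro v hv r hr r' hr'
    simp only
    rw [abs_mul]
    have h1 := hb (v + r)
    have h2 := hb' (v + r')
    have h4 := abs_nonneg (f (v + r))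
    have h5 := abs_nonneg (f' (v + r'))
    calc |f (v + r)| * |f' (v + r')| ≤ 1 * 1 := by gcongr
      _ = 1 := by norm_num

lemma l4_qf (x : ℝ) : 
    qf x = (1 / (Real.pi * Real.Gamma (1/4))) * 
      ∫ z : ℝ × ℝ × ℝ, l4_dens z * l4_ind (1/2) z * (Real.cos (x * (z.2.1 - z.2.2)) * (1 - z.2.1 - z.2.2)) ∂(volume.prod (volume.prod volume)) := by
  unfold qf
  rw [← l4_iter (k := fun z : ℝ × ℝ × ℝ => (Real.cos (x * (z.2.1 - z.2.2)) * (1 - z.2.1 - z.2.2))) (by norm_num) (by norm_num) (B := 1)]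
  · simp only [mul_assoc]
  · fun_prop
  · intro v hv r hr r' hr'
    simp only
    rw [abs_mul]
    have h1 := Real.abs_cos_le_one (x * (r - r'))
    have h3 := l4_w_le hr hr'
    have h4 := abs_nonneg (Real.cos (x * (r - r')))
    calc |Real.cos (x * (r - r'))| * |1 - r - r'| ≤ 1 * 1 := by gcongr
      _ = 1 := by norm_num

lemma l4_ae : ∀ᵐ z : ℝ × ℝ × ℝ ∂(volume.prod (volume.prod volume)), z.1 + z.2.1 ≠ 1/2 := by
  rw [ae_iff]
  have hm : MeasurableSet {z : ℝ × ℝ × ℝ | ¬ (z.1 + z.2.1 ≠ 1/2)} := by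
    simp only [ne_eq, not_not]
    exact measurableSet_eq_fun (by fun_prop) (by fun_prop)
  rw [Measure.measure_prod_null hm]
  refine ae_of_all _ fun v => ?_
  have : Prod.mk v ⁻¹' {z : ℝ × ℝ × ℝ | ¬ (z.1 + z.2.1 ≠ 1/2)} = ({1/2 - v} : Set ℝ) ×ˢ (univ : Set ℝ) := by
    ext ⟨r, r'⟩
    simp only [ne_eq, not_not, mem_preimage, Set.mem_ofPred_eq, mem_prod, mem_singleton_iff, mem_univ, and_true]
    constructor <;> intro h <;> linarith
  show (volume.prod volume) (Prod.mk v ⁻¹' {z : ℝ × ℝ × ℝ | ¬ (z.1 + z.2.1 ≠ 1/2)}) = 0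
  rw [this, Measure.prod_prod]
  simp

/-- The smoothing error tends to zero. -/
lemma l4_IP_lim : Tendsto (fun n => IP (l4_psi (l4_e n)) l4_om) atTop (𝓝 0) := by
  have e : ∀ n, IP (l4_psi (l4_e n)) l4_om = (1 / (Real.pi * Real.Gamma (1/4))) * 
      ∫ z : ℝ × ℝ × ℝ, l4_dens z * l4_ind 1 z * (l4_psi (l4_e n) (z.1 + z.2.1) * l4_om (z.1 + z.2.2)) ∂(volume.prod (volume.prod volume)) := by
    intro n
    refine l4_IP (l4_psi_cont _) l4_om_cont (fun x => ?_) (fun x => ?_)
    · rw [abs_of_nonneg (l4_psi_mem _ x).1]; exact (l4_psi_mem _ x).2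
    · rw [abs_of_nonneg (l4_om_mem x).1]; exact (l4_om_mem x).2
  simp_rw [e]
  rw [show (0:ℝ) = (1 / (Real.pi * Real.Gamma (1/4))) * ∫ z : ℝ × ℝ × ℝ, (0:ℝ) ∂(volume.prod (volume.prod volume)) by simp]
  refine Tendsto.const_mul _ ?_
  refine tendsto_integral_of_dominated_convergence (fun z => l4_dens z * 1) ?_ (l4_dens_int.mul_const 1) ?_ ?_
  · intro n
    have h1 := (l4_psi_cont (l4_e n)).measurable
    have h2 := l4_om_cont.measurable
    have h3 := l4_dens_meas
    have h4 := l4_ind_meas 1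
    exact ((h3.mul h4).mul ((h1.comp (by fun_prop)).mul (h2.comp (by fun_prop)))).aestronglyMeasurable
  · intro n
    refine ae_of_all _ fun z => ?_
    refine l4_bound (k := fun z => l4_psi (l4_e n) (z.1 + z.2.1) * l4_om (z.1 + z.2.2)) ?_ 1 z
    intro v _ r _ r' _
    simp only
    have h1 := l4_psi_mem (l4_e n) (v + r)
    have h2 := l4_om_mem (v + r')
    rw [abs_of_nonneg (mul_nonneg h1.1 h2.1)]
    calc l4_psi (l4_e n) (v + r) * l4_om (v + r') ≤ 1 * 1 := by
          gcongr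
          · exact h2.1
          · exact h1.2
          · exact h2.2
      _ = 1 := by norm_num
  · filter_upwards [l4_ae] with z hz
    have h := (l4_psi_lim hz).mul_const (l4_om (z.1 + z.2.2))
    have h2 := h.const_mul (l4_dens z * l4_ind 1 z)
    simpa using h2

/-- The main term. -/
lemma l4_IM_lim (j : ℤ) : Tendsto (fun n => IM (fun x => Real.cos (2 * Real.pi * j * x) * l4_chi (l4_e n) x) (fun x => Real.cos (2 * Real.pi * j * x) * l4_chi (l4_e n) x) + 
    IM (fun x => Real.sin (2 * Real.pi * j * x) * l4_chi (l4_e n) x) (fun x => Real.sin (2 * Real.pi * j * x) * l4_chi (l4_e n) x)) atTop (𝓝 (qf (2 * Real.pi * j))) := by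
  have hcb : ∀ n x, |Real.cos (2 * Real.pi * j * x) * l4_chi (l4_e n) x| ≤ 1 := by
    intro n x
    have h1 := Real.abs_cos_le_one (2 * Real.pi * j * x)
    have h2 := l4_chi_mem (l4_e n) x
    rw [abs_mul, abs_of_nonneg h2.1]
    have h3 := abs_nonneg (Real.cos (2 * Real.pi * j * x))
    calc |Real.cos (2 * Real.pi * j * x)| * l4_chi (l4_e n) x ≤ 1 * 1 := by
          gcongr
          · exact h2.1
          · exact h2.2
      _ = 1 := by norm_num
  have hsb : ∀ n x, |Real.sin (2 * Real.pi * j * x) * l4_chi (l4_e n) x| ≤ 1 := by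
    intro n x
    have h1 := Real.abs_sin_le_one (2 * Real.pi * j * x)
    have h2 := l4_chi_mem (l4_e n) x
    rw [abs_mul, abs_of_nonneg h2.1]
    have h3 := abs_nonneg (Real.sin (2 * Real.pi * j * x))
    calc |Real.sin (2 * Real.pi * j * x)| * l4_chi (l4_e n) x ≤ 1 * 1 := by
          gcongr
          · exact h2.1
          · exact h2.2
      _ = 1 := by norm_num
  have hcc : ∀ n, Continuous (fun x => Real.cos (2 * Real.pi * j * x) * l4_chi (l4_e n) x) := by
    intro n; have := l4_chi_cont (l4_e n); fun_prop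
  have hsc : ∀ n, Continuous (fun x => Real.sin (2 * Real.pi * j * x) * l4_chi (l4_e n) x) := by
    intro n; have := l4_chi_cont (l4_e n); fun_prop
  have e : ∀ n, IM (fun x => Real.cos (2 * Real.pi * j * x) * l4_chi (l4_e n) x) (fun x => Real.cos (2 * Real.pi * j * x) * l4_chi (l4_e n) x) + 
    IM (fun x => Real.sin (2 * Real.pi * j * x) * l4_chi (l4_e n) x) (fun x => Real.sin (2 * Real.pi * j * x) * l4_chi (l4_e n) x) = 
      (1 / (Real.pi * Real.Gamma (1/4))) * 
      ∫ z : ℝ × ℝ × ℝ, l4_dens z * l4_ind 1 z * (Real.cos (2 * Real.pi * j * (z.2.1 - z.2.2)) * (l4_chi (l4_e n) (z.1 + z.2.1) * l4_chi (l4_e n) (z.1 + z.2.2)) * (1 - z.2.1 - z.2.2)) ∂(volume.prod (volume.prod volume)) := by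
    intro n
    have hint : ∀ g : ℝ → ℝ, Continuous g → (∀ x, |g x| ≤ 1) → 
        Integrable (fun z : ℝ × ℝ × ℝ => l4_dens z * l4_ind 1 z * ((g (z.1 + z.2.1) * g (z.1 + z.2.2)) * (1 - z.2.1 - z.2.2))) (volume.prod (volume.prod volume)) := by
      intro g hg hgb
      refine Integrable.mono' (l4_dens_int.mul_const 1) ?_ (ae_of_all _ fun z => 
        l4_bound (k := fun z : ℝ × ℝ × ℝ => (g (z.1 + z.2.1) * g (z.1 + z.2.2)) * (1 - z.2.1 - z.2.2)) (B := 1) ?_ 1 z)
      · have hgm := hg.measurable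
        exact ((l4_dens_meas.mul (l4_ind_meas 1)).mul (by fun_prop)).aestronglyMeasurable
      · intro v hv r hr r' hr'
        simp only
        rw [abs_mul, abs_mul]
        have h1 := hgb (v + r)
        have h2 := hgb (v + r')
        have h3 := l4_w_le hr hr'
        have h4 := abs_nonneg (g (v + r))
        have h5 := abs_nonneg (g (v + r'))
        have h6 := abs_nonneg (1 - r - r')
        calc |g (v + r)| * |g (v + r')| * |1 - r - r'| ≤ 1 * 1 * 1 := by gcongr
          _ = 1 := by norm_num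
    rw [l4_IM (hcc n) (hcc n) (hcb n) (hcb n), l4_IM (hsc n) (hsc n) (hsb n) (hsb n), ← mul_add, 
      ← integral_add (hint _ (hcc n) (hcb n)) (hint _ (hsc n) (hsb n))]
    congr 1
    refine integral_congr_ae (ae_of_all _ fun z => ?_)
    simp only
    have e1 : Real.cos (2 * Real.pi * j * (z.2.1 - z.2.2)) = Real.cos (2 * Real.pi * j * (z.1 + z.2.1)) * Real.cos (2 * Real.pi * j * (z.1 + z.2.2)) + 
        Real.sin (2 * Real.pi * j * (z.1 + z.2.1)) * Real.sin (2 * Real.pi * j * (z.1 + z.2.2)) := by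
      rw [← Real.cos_sub]; congr 1; ring
    rw [e1]; ring
  simp_rw [e]
  rw [l4_qf]
  refine Tendsto.const_mul _ ?_
  refine tendsto_integral_of_dominated_convergence (fun z => l4_dens z * 1) ?_ (l4_dens_int.mul_const 1) ?_ ?_
  · intro n
    have h1 := (l4_chi_cont (l4_e n)).measurable
    have h3 := l4_dens_meas
    have h4 := l4_ind_meas 1
    exact ((h3.mul h4).mul (by fun_prop)).aestronglyMeasurable
  · intro n
    refine ae_of_all _ fun z => ?_
    refine l4_bound (k := fun z => Real.cos (2 * Real.pi * j * (z.2.1 - z.2.2)) * (l4_chi (l4_e n) (z.1 + z.2.1) * l4_chi (l4_e n) (z.1 + z.2.2)) * (1 - z.2.1 - z.2.2)) ?_ 1 z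
    intro v _ r hr r' hr'
    simp only
    have h1 := l4_chi_mem (l4_e n) (v + r)
    have h2 := l4_chi_mem (l4_e n) (v + r')
    have h3 := l4_w_le hr hr'
    have h4 := Real.abs_cos_le_one (2 * Real.pi * j * (r - r'))
    rw [abs_mul, abs_mul, abs_of_nonneg (mul_nonneg h1.1 h2.1)]
    have h5 := abs_nonneg (Real.cos (2 * Real.pi * j * (r - r')))
    have h6 := abs_nonneg (1 - r - r')
    have h7 := h1.1
    have h8 := h2.1
    calc |Real.cos (2 * Real.pi * j * (r - r'))| * (l4_chi (l4_e n) (v + r) * l4_chi (l4_e n) (v + r')) * |1 - r - r'| ≤ 1 * (1 * 1) * 1 := by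
          gcongr
          · exact h1.2
          · exact h2.2
      _ = 1 := by norm_num
  · refine ae_of_all _ fun z => ?_
    have h1 := l4_chi_lim (z.1 + z.2.1)
    have h2 := l4_chi_lim (z.1 + z.2.2)
    have h3 := (((h1.mul h2).const_mul (Real.cos (2 * Real.pi * j * (z.2.1 - z.2.2)))).mul_const (1 - z.2.1 - z.2.2)).const_mul (l4_dens z * l4_ind 1 z)
    convert! h3 using 2
    by_cases ha : z.1 + z.2.1 < 1/2
    · by_cases hb : z.1 + z.2.2 < 1/2
      · have i1 : l4_ind 1 z = 1 := by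
          unfold l4_ind
          refine indicator_of_mem ?_ _
          simp only [Set.mem_ofPred_eq]
          constructor <;> linarith
        have i2 : l4_ind (1/2) z = 1 := by
          unfold l4_ind
          refine indicator_of_mem ?_ _
          simp only [Set.mem_ofPred_eq]
          exact ⟨ha, hb⟩
        rw [i1, i2, if_pos ha, if_pos hb]; ring
      · have i2 : l4_ind (1/2) z = 0 := by
          unfold l4_ind
          refine indicator_of_notMem ?_ _
          simp only [Set.mem_ofPred_eq]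
          exact fun h => hb h.2
        rw [i2, if_neg hb]; ring
    · have i2 : l4_ind (1/2) z = 0 := by
          unfold l4_ind
          refine indicator_of_notMem ?_ _
          simp only [Set.mem_ofPred_eq]
          exact fun h => ha h.1
      rw [i2, if_neg ha]; ring

lemma l4_per_ge (N : ℕ) : 1 ≤ per N := by
  have h : 0 ≤ Real.log N := Real.log_natCast_nonneg N
  unfold per; linarith

lemma l4_gk_nonneg (h k : ℕ) : 0 ≤ gk h k := by
  unfold gk
  have h1 := tau_nonneg (α := 1/2) (by norm_num) h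
  have h2 := tau_nonneg (α := 1/2) (by norm_num) k
  positivity

lemma l4_gk_symm (h k : ℕ) : gk h k = gk k h := by
  unfold gk
  rw [Nat.gcd_comm, mul_comm (tau (1/2) h), mul_comm (h:ℝ)]

/-- The weight. -/
noncomputable def l4_W (d : ℝ) (h k : ℕ) : ℝ := 1 - d * Real.log h - d * Real.log k + 2 * d * Real.log (Nat.gcd h k)

lemma l4_x {N h : ℕ} (h1 : 1 ≤ h) (hN : h ≤ N) : 0 ≤ (1 / per N) * Real.log h ∧ (1 / per N) * Real.log h ≤ 1/2 - (1 / per N) / 2 := by
  have hP := l4_per_ge N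
  have hl : 0 ≤ Real.log h := Real.log_natCast_nonneg h
  refine ⟨by positivity, ?_⟩
  have h2 : Real.log h ≤ Real.log N := Real.log_le_log (by exact_mod_cast h1) (by exact_mod_cast hN)
  have e : 1/2 - (1 / per N) / 2 = (1 / per N) * Real.log N := by
    have : per N ≠ 0 := by linarith
    field_simp
    unfold per; ring
  rw [e]
  gcongr

lemma l4_x' {N h : ℕ} (hN : N < h) (hN1 : 1 ≤ N) : 1/2 - (1 / per N) / 2 ≤ (1 / per N) * Real.log h := by
  have hP := l4_per_ge N
  have h2 : Real.log N ≤ Real.log h := Real.log_le_log (by exact_mod_cast hN1) (by exact_mod_cast hN.le)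
  have e : 1/2 - (1 / per N) / 2 = (1 / per N) * Real.log N := by
    have : per N ≠ 0 := by linarith
    field_simp
    unfold per; ring
  rw [e]
  gcongr

lemma l4_W_mem {N h k : ℕ} (h1 : 1 ≤ h) (hN : h ≤ N) (k1 : 1 ≤ k) (kN : k ≤ N) : 
    0 ≤ l4_W (1 / per N) h k ∧ l4_W (1 / per N) h k ≤ 1 := by
  have hP := l4_per_ge N
  have hd : 0 < 1 / per N := by positivity
  have hh := l4_x h1 hN
  have hk := l4_x k1 kN
  have hg1 : 1 ≤ Nat.gcd h k := Nat.gcd_pos_of_pos_left _ h1
  have hg0 : 0 ≤ Real.log (Nat.gcd h k) := Real.log_natCast_nonneg _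
  have hgh : Real.log (Nat.gcd h k) ≤ Real.log h := 
    Real.log_le_log (by exact_mod_cast hg1) (by exact_mod_cast Nat.gcd_le_left k h1)
  have hgk : Real.log (Nat.gcd h k) ≤ Real.log k := 
    Real.log_le_log (by exact_mod_cast hg1) (by exact_mod_cast Nat.gcd_le_right h k1)
  have a1 : 0 ≤ (1 / per N) * Real.log (Nat.gcd h k) := by positivity
  have a2 : (1 / per N) * Real.log (Nat.gcd h k) ≤ (1 / per N) * Real.log h := by gcongr
  have a3 : (1 / per N) * Real.log (Nat.gcd h k) ≤ (1 / per N) * Real.log k := by gcongr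
  unfold l4_W
  constructor <;> nlinarith

lemma l4_MN {N : ℕ} (hN : 1 ≤ N) : N ≤ MN (1 / per N) := by
  unfold MN
  apply Nat.le_floor
  rw [one_div_one_div]
  have hN0 : (0:ℝ) < N := by exact_mod_cast hN
  have hl : 0 ≤ Real.log N := Real.log_natCast_nonneg N
  calc (N:ℝ) = Real.exp (Real.log N) := (Real.exp_log hN0).symm
    _ ≤ Real.exp (per N) := Real.exp_le_exp.mpr (by unfold per; linarith)

lemma l4_restrict {N M : ℕ} (hNM : N ≤ M) (G : ℕ → ℕ → ℝ) (h0 : ∀ h k, (N < h ∨ N < k) → G h k = 0) :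
    ∑ h ∈ Finset.Icc 1 M, ∑ k ∈ Finset.Icc 1 M, G h k = ∑ h ∈ Finset.Icc 1 N, ∑ k ∈ Finset.Icc 1 N, G h k := by
  have hsub : Finset.Icc 1 N ⊆ Finset.Icc 1 M := Finset.Icc_subset_Icc le_rfl hNM
  rw [← Finset.sum_subset hsub]
  · refine Finset.sum_congr rfl fun h _ => ?_
    rw [← Finset.sum_subset hsub]
    intro k hk hk2
    rw [Finset.mem_Icc] at hk hk2
    exact h0 h k (Or.inr (by omega))
  · intro h hh hh2
    rw [Finset.mem_Icc] at hh hh2
    exact Finset.sum_eq_zero fun k _ => h0 h k (Or.inl (by omega))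

/-- Basic asymptotics of `XN`. -/
lemma l4_XN : ∀ᶠ T : ℝ in atTop, 0 ≤ Real.log (Real.log T) ∧ 2 ≤ Real.log T ∧ 1 ≤ XN T ∧ 
    (XN T : ℝ) ≤ T ^ (1/2:ℝ) * (Real.log T) ^ (1/16:ℝ) ∧ |per (XN T) - Real.log T| ≤ Real.log (Real.log T) / 8 + 1 := by
  have h1 : ∀ᶠ T : ℝ in atTop, 4 ≤ Real.log T := Real.tendsto_log_atTop.eventually_ge_atTop 4
  have h2 : ∀ᶠ T : ℝ in atTop, (4:ℝ) ≤ T := eventually_ge_atTop 4
  filter_upwards [h1, h2] with T hL hT
  have hL0 : 0 < Real.log T := by linarith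
  have hll : 0 ≤ Real.log (Real.log T) := Real.log_nonneg (by linarith)
  set Y : ℝ := T ^ (1/2:ℝ) * (Real.log T) ^ (1/16:ℝ) with hY
  have hY2 : 2 ≤ Y := by
    have a1 : (2:ℝ) ≤ T ^ (1/2:ℝ) := by
      rw [← Real.sqrt_eq_rpow]
      exact Real.le_sqrt_of_sq_le (by linarith)
    have a2 : (1:ℝ) ≤ (Real.log T) ^ (1/16:ℝ) := Real.one_le_rpow (by linarith) (by norm_num)
    nlinarith
  have hXN : XN T = ⌊Y⌋₊ := rfl
  have b1 : (XN T : ℝ) ≤ Y := by rw [hXN]; exact Nat.floor_le (by linarith)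
  have b2 : Y ≤ 2 * (XN T : ℝ) := by
    have := Nat.lt_floor_add_one Y
    rw [← hXN] at this
    have h3 : 2 ≤ XN T := by rw [hXN]; exact Nat.le_floor (by exact_mod_cast hY2)
    have h4 : (2:ℝ) ≤ XN T := by exact_mod_cast h3
    linarith
  have b3 : 1 ≤ XN T := by rw [hXN]; exact Nat.le_floor (by push_cast; linarith)
  have b4 : (0:ℝ) < XN T := by exact_mod_cast b3
  have hlY : Real.log Y = Real.log T / 2 + Real.log (Real.log T) / 16 := by
    rw [hY, Real.log_mul (by positivity) (by positivity), Real.log_rpow (by linarith), Real.log_rpow hL0]; ring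
  refine ⟨hll, by linarith, b3, b1, ?_⟩
  have c1 := Real.log_le_log b4 b1
  have c2 := Real.log_le_log (by linarith) b2
  rw [hlY, Real.log_mul (by norm_num) (by positivity)] at c2
  rw [hlY] at c1
  have c3 := Real.log_two_lt_d9
  rw [abs_le]
  unfold per
  constructor <;> linarith

lemma l4_ll_div : Tendsto (fun T : ℝ => Real.log (Real.log T) / Real.log T) atTop (𝓝 0) := by
  have h := Real.tendsto_pow_log_div_mul_add_atTop 1 0 1 one_ne_zero
  simp only [pow_one, one_mul, add_zero] at h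
  exact h.comp Real.tendsto_log_atTop

lemma l4_inv : Tendsto (fun T : ℝ => 1 / Real.log T) atTop (𝓝 0) := by
  simp_rw [one_div]
  exact tendsto_inv_atTop_zero.comp Real.tendsto_log_atTop

lemma l4_per_div : Tendsto (fun T : ℝ => per (XN T) / Real.log T) atTop (𝓝 1) := by
  have h : Tendsto (fun T : ℝ => per (XN T) / Real.log T - 1) atTop (𝓝 0) := by
    have h2 : Tendsto (fun T : ℝ => (Real.log (Real.log T) / Real.log T) / 8 + 1 / Real.log T) atTop (𝓝 0) := by
      simpa using (l4_ll_div.div_const 8).add l4_inv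
    refine squeeze_zero_norm' ?_ h2
    filter_upwards [l4_XN] with T hT
    obtain ⟨h1, h3, -, -, h5⟩ := hT
    have hL : 0 < Real.log T := by linarith
    rw [Real.norm_eq_abs, show per (XN T) / Real.log T - 1 = (per (XN T) - Real.log T) / Real.log T by field_simp,
      abs_div, abs_of_pos hL]
    calc |per (XN T) - Real.log T| / Real.log T ≤ (Real.log (Real.log T) / 8 + 1) / Real.log T := by gcongr
      _ = _ := by ring
  simpa using h.add_const 1

lemma l4_del : Tendsto (fun T : ℝ => 1 / per (XN T)) atTop (𝓝[>] 0) := by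
  rw [tendsto_nhdsWithin_iff]
  constructor
  · have h := (l4_per_div.inv₀ one_ne_zero).mul l4_inv
    rw [mul_zero] at h
    refine h.congr' ?_
    filter_upwards [l4_XN] with T hT
    have hL : Real.log T ≠ 0 := by linarith [hT.2.1]
    have := l4_per_ge (XN T)
    have hP : per (XN T) ≠ 0 := by linarith
    field_simp
  · refine Eventually.of_forall fun T => ?_
    have h1 := l4_per_ge (XN T)
    have h2 : 0 < per (XN T) := by linarith
    exact one_div_pos.mpr h2

/-- Comparison of the logarithms. -/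
lemma l4_ell : ∀ᶠ T : ℝ in atTop, ∀ h k : ℕ, 1 ≤ h → h ≤ XN T → 1 ≤ k → k ≤ XN T → 
    |(1 / per (XN T)) * ell T h k - l4_W (1 / per (XN T)) h k| ≤ (1 / per (XN T)) * (Real.log (Real.log T) / 4 + 1) := by
  filter_upwards [l4_XN, eventually_gt_atTop 0] with T hT hT0
  obtain ⟨hll, hL2, hN1, hNY, hper⟩ := hT
  intro h k h1 hN k1 kN
  have hL0 : 0 < Real.log T := by linarith
  set P := per (XN T) with hP
  have hP1 : 1 ≤ P := l4_per_ge _
  have hg1 : 1 ≤ Nat.gcd h k := Nat.gcd_pos_of_pos_left _ h1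
  have hgr : (1:ℝ) ≤ (Nat.gcd h k : ℝ) := by exact_mod_cast hg1
  have hhr : (1:ℝ) ≤ (h:ℝ) := by exact_mod_cast h1
  have hkr : (1:ℝ) ≤ (k:ℝ) := by exact_mod_cast k1
  set Z : ℝ := Real.log (T * (Nat.gcd h k : ℝ) ^ 2 / ((h:ℝ) * k)) with hZ
  have hZ1 : Z = Real.log T + 2 * Real.log (Nat.gcd h k) - Real.log h - Real.log k := by
    rw [hZ, Real.log_div (by positivity) (by positivity), Real.log_mul (by positivity) (by positivity),
      Real.log_mul (by positivity) (by positivity), Real.log_pow]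
    push_cast; ring
  have hg0 : 0 ≤ Real.log (Nat.gcd h k) := Real.log_natCast_nonneg _
  have hlY : ∀ m : ℕ, 1 ≤ m → m ≤ XN T → Real.log m ≤ Real.log T / 2 + Real.log (Real.log T) / 16 := by
    intro m m1 m2
    have a1 : (m:ℝ) ≤ T ^ (1/2:ℝ) * (Real.log T) ^ (1/16:ℝ) := (by exact_mod_cast m2 : (m:ℝ) ≤ XN T).trans hNY
    have a2 := Real.log_le_log (by exact_mod_cast m1) a1
    rw [Real.log_mul (by positivity) (by positivity), Real.log_rpow (by linarith), Real.log_rpow hL0] at a2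
    linarith
  have hZ2 : - (Real.log (Real.log T) / 8) ≤ Z := by
    rw [hZ1]
    have := hlY h h1 hN
    have := hlY k k1 kN
    linarith
  have hell : ell T h k = max 0 Z := rfl
  have hmax : |max 0 Z - Z| ≤ Real.log (Real.log T) / 8 := by
    rcases le_total 0 Z with hz | hz
    · rw [max_eq_right hz, sub_self, abs_zero]; positivity
    · rw [max_eq_left hz, abs_le]; constructor <;> linarith
  have e1 : (1 / P) * ell T h k - l4_W (1 / P) h k = (1 / P) * ((max 0 Z - Z) + (Real.log T - P)) := by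
    rw [hell]
    unfold l4_W
    have : (1 / P) * P = 1 := by field_simp
    have e2 : (1 / P) * ((max 0 Z - Z) + (Real.log T - P)) = (1 / P) * max 0 Z - (1 / P) * Z + (1 / P) * Real.log T - (1 / P) * P := by ring
    rw [e2, this]
    rw [hZ1]; ring
  rw [e1, abs_mul, abs_of_pos (by positivity)]
  gcongr
  refine (abs_add_le _ _).trans ?_
  rw [abs_sub_comm (Real.log T) P]
  linarith

lemma l4_sum_gk : ∃ C : ℝ, 0 < C ∧ ∀ N : ℕ, 1 ≤ N → 
    (1 / per N) ^ (5/4 : ℝ) * ∑ h ∈ Finset.Icc 1 N, ∑ k ∈ Finset.Icc 1 N, gk h k ≤ C := by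
  obtain ⟨C, hC, h⟩ := sum_gk_le
  refine ⟨C, hC, fun N hN => ?_⟩
  have hP := l4_per_ge N
  have hl : 0 ≤ Real.log N := Real.log_natCast_nonneg N
  have hP0 : 0 < per N := by linarith
  have h1 : (1 + Real.log N) ^ (5/4 : ℝ) ≤ (per N) ^ (5/4 : ℝ) := by
    refine Real.rpow_le_rpow (by linarith) ?_ (by norm_num)
    unfold per; linarith
  have h2 : (1 / per N) ^ (5/4 : ℝ) * (per N) ^ (5/4 : ℝ) = 1 := by
    rw [← Real.mul_rpow (by positivity) hP0.le, one_div, inv_mul_cancel₀ hP0.ne', Real.one_rpow]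
  calc (1 / per N) ^ (5/4 : ℝ) * ∑ h ∈ Finset.Icc 1 N, ∑ k ∈ Finset.Icc 1 N, gk h k 
      ≤ (1 / per N) ^ (5/4 : ℝ) * (C * (per N) ^ (5/4 : ℝ)) := by
        refine mul_le_mul_of_nonneg_left ((h N hN).trans ?_) (by positivity)
        gcongr
    _ = C * ((1 / per N) ^ (5/4 : ℝ) * (per N) ^ (5/4 : ℝ)) := by ring
    _ = C := by rw [h2, mul_one]

/-- Normalised form. -/
noncomputable def l4_S (j : ℤ) (N : ℕ) : ℝ := (1 / per N) ^ (5/4 : ℝ) * ∑ h ∈ Finset.Icc 1 N, ∑ k ∈ Finset.Icc 1 N,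
  Real.cos (yj N j * (Real.log h - Real.log k)) * (gk h k * l4_W (1 / per N) h k)

/-- Normalised form with smooth cutoff. -/
noncomputable def l4_S2 (j : ℤ) (e : ℝ) (N : ℕ) : ℝ := (1 / per N) ^ (5/4 : ℝ) * ∑ h ∈ Finset.Icc 1 N, ∑ k ∈ Finset.Icc 1 N,
  Real.cos (yj N j * (Real.log h - Real.log k)) * (gk h k * l4_W (1 / per N) h k) * 
    (l4_chi e ((1 / per N) * Real.log h) * l4_chi e ((1 / per N) * Real.log k))

/-- Error form. -/
noncomputable def l4_E (e : ℝ) (N : ℕ) : ℝ := (1 / per N) ^ (5/4 : ℝ) * ∑ h ∈ Finset.Icc 1 (MN (1 / per N)), ∑ k ∈ Finset.Icc 1 (MN (1 / per N)),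
  gk h k * (l4_psi e ((1 / per N) * Real.log h) * l4_om ((1 / per N) * Real.log k))

lemma l4_diff (j : ℤ) {e : ℝ} (he : 0 < e) {N : ℕ} (hN : 1 ≤ N) : |l4_S j N - l4_S2 j e N| ≤ 2 * l4_E e N := by
  have hP := l4_per_ge N
  have hP0 : 0 < per N := by linarith
  unfold l4_S l4_S2 l4_E
  set d : ℝ := 1 / per N with hd
  have hd0 : 0 < d := by positivity
  rw [← mul_sub, abs_mul, abs_of_pos (Real.rpow_pos_of_pos hd0 _)]
  rw [show 2 * (d ^ (5/4 : ℝ) * ∑ h ∈ Finset.Icc 1 (MN d), ∑ k ∈ Finset.Icc 1 (MN d), gk h k * (l4_psi e (d * Real.log h) * l4_om (d * Real.log k))) = 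
    d ^ (5/4 : ℝ) * (2 * ∑ h ∈ Finset.Icc 1 (MN d), ∑ k ∈ Finset.Icc 1 (MN d), gk h k * (l4_psi e (d * Real.log h) * l4_om (d * Real.log k))) by ring]
  refine mul_le_mul_of_nonneg_left ?_ (by positivity)
  have hnn : ∀ h k : ℕ, 0 ≤ gk h k * (l4_psi e (d * Real.log h) * l4_om (d * Real.log k)) := fun h k =>
    mul_nonneg (l4_gk_nonneg h k) (mul_nonneg (l4_psi_mem _ _).1 (l4_om_mem _).1)
  have hmono : ∑ h ∈ Finset.Icc 1 N, ∑ k ∈ Finset.Icc 1 N, gk h k * (l4_psi e (d * Real.log h) * l4_om (d * Real.log k)) ≤ 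
      ∑ h ∈ Finset.Icc 1 (MN d), ∑ k ∈ Finset.Icc 1 (MN d), gk h k * (l4_psi e (d * Real.log h) * l4_om (d * Real.log k)) := by
    have hsub : Finset.Icc 1 N ⊆ Finset.Icc 1 (MN d) := Finset.Icc_subset_Icc le_rfl (l4_MN hN)
    calc ∑ h ∈ Finset.Icc 1 N, ∑ k ∈ Finset.Icc 1 N, gk h k * (l4_psi e (d * Real.log h) * l4_om (d * Real.log k)) 
        ≤ ∑ h ∈ Finset.Icc 1 N, ∑ k ∈ Finset.Icc 1 (MN d), gk h k * (l4_psi e (d * Real.log h) * l4_om (d * Real.log k)) := 
          Finset.sum_le_sum fun h _ => Finset.sum_le_sum_of_subset_of_nonneg hsub fun k _ _ => hnn h k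
      _ ≤ _ := Finset.sum_le_sum_of_subset_of_nonneg hsub fun h _ _ => Finset.sum_nonneg fun k _ => hnn h k
  have hsymm : ∑ h ∈ Finset.Icc 1 N, ∑ k ∈ Finset.Icc 1 N, gk h k * (l4_om (d * Real.log h) * l4_psi e (d * Real.log k)) = 
      ∑ h ∈ Finset.Icc 1 N, ∑ k ∈ Finset.Icc 1 N, gk h k * (l4_psi e (d * Real.log h) * l4_om (d * Real.log k)) := by
    rw [Finset.sum_comm]
    refine Finset.sum_congr rfl fun h _ => Finset.sum_congr rfl fun k _ => ?_
    rw [l4_gk_symm k h]; ring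
  have hmain : |∑ h ∈ Finset.Icc 1 N, ∑ k ∈ Finset.Icc 1 N, Real.cos (yj N j * (Real.log h - Real.log k)) * (gk h k * l4_W d h k) - 
      ∑ h ∈ Finset.Icc 1 N, ∑ k ∈ Finset.Icc 1 N, Real.cos (yj N j * (Real.log h - Real.log k)) * (gk h k * l4_W d h k) * 
        (l4_chi e (d * Real.log h) * l4_chi e (d * Real.log k))| ≤ 
      ∑ h ∈ Finset.Icc 1 N, ∑ k ∈ Finset.Icc 1 N, gk h k * (l4_psi e (d * Real.log h) * l4_om (d * Real.log k)) + 
      ∑ h ∈ Finset.Icc 1 N, ∑ k ∈ Finset.Icc 1 N, gk h k * (l4_om (d * Real.log h) * l4_psi e (d * Real.log k)) := by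
    simp only [← Finset.sum_sub_distrib, ← Finset.sum_add_distrib]
    refine (Finset.abs_sum_le_sum_abs _ _).trans (Finset.sum_le_sum fun h hh => ?_)
    refine (Finset.abs_sum_le_sum_abs _ _).trans (Finset.sum_le_sum fun k hk => ?_)
    rw [Finset.mem_Icc] at hh hk
    have xh := l4_x hh.1 hh.2
    have xk := l4_x hk.1 hk.2
    have hW := l4_W_mem hh.1 hh.2 hk.1 hk.2
    rw [← hd] at xh xk hW
    have xh2 : d * Real.log h ≤ 1/2 := by linarith
    have xk2 : d * Real.log k ≤ 1/2 := by linarith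
    have o1 := l4_om_one xh2
    have o2 := l4_om_one xk2
    have p1 := l4_chi_psi he xh2
    have p2 := l4_chi_psi he xk2
    have c1 := l4_chi_mem e (d * Real.log h)
    have c2 := l4_chi_mem e (d * Real.log k)
    have g0 := l4_gk_nonneg h k
    have cs := Real.abs_cos_le_one (yj N j * (Real.log h - Real.log k))
    rw [o1, o2, mul_one, one_mul]
    set a := l4_chi e (d * Real.log h)
    set b := l4_chi e (d * Real.log k)
    have hab : a * b ≤ 1 := by nlinarith
    have e1 : Real.cos (yj N j * (Real.log h - Real.log k)) * (gk h k * l4_W d h k) - 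
        Real.cos (yj N j * (Real.log h - Real.log k)) * (gk h k * l4_W d h k) * (a * b) = 
        Real.cos (yj N j * (Real.log h - Real.log k)) * (gk h k * (l4_W d h k * (1 - a * b))) := by ring
    rw [e1, abs_mul, abs_of_nonneg (mul_nonneg g0 (mul_nonneg hW.1 (by linarith))), ← mul_add]
    have h3 : l4_W d h k * (1 - a * b) ≤ l4_psi e (d * Real.log h) + l4_psi e (d * Real.log k) := by
      calc l4_W d h k * (1 - a * b) ≤ 1 * (1 - a * b) := mul_le_mul_of_nonneg_right hW.2 (by linarith)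
        _ ≤ (1 - a) + (1 - b) := by nlinarith
        _ ≤ _ := by linarith
    calc |Real.cos (yj N j * (Real.log h - Real.log k))| * (gk h k * (l4_W d h k * (1 - a * b))) 
        ≤ 1 * (gk h k * (l4_psi e (d * Real.log h) + l4_psi e (d * Real.log k))) := by
          gcongr
          exact mul_nonneg g0 (mul_nonneg hW.1 (by linarith))
      _ = _ := one_mul _
  rw [hsymm] at hmain
  linarith

lemma l4_S2_lim (j : ℤ) (n : ℕ) : Tendsto (fun T : ℝ => l4_S2 j (l4_e n) (XN T)) atTop (𝓝 (Aconst (3/2) * (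
    IM (fun x => Real.cos (2 * Real.pi * j * x) * l4_chi (l4_e n) x) (fun x => Real.cos (2 * Real.pi * j * x) * l4_chi (l4_e n) x) + 
    IM (fun x => Real.sin (2 * Real.pi * j * x) * l4_chi (l4_e n) x) (fun x => Real.sin (2 * Real.pi * j * x) * l4_chi (l4_e n) x)))) := by
  have he := l4_e_pos n
  have he4 := l4_e_le n
  set e := l4_e n
  have hcc : Continuous (fun x => Real.cos (2 * Real.pi * j * x) * l4_chi e x) := by
    have := l4_chi_cont e; fun_prop
  have hsc : Continuous (fun x => Real.sin (2 * Real.pi * j * x) * l4_chi e x) := by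
    have := l4_chi_cont e; fun_prop
  have hz : ∀ x : ℝ, 1 ≤ x → l4_chi e x = 0 := fun x hx => l4_chi_zero he (by linarith)
  have h1 := (IM_limit hcc hcc (fun x hx => by rw [hz x hx, mul_zero]) (fun x hx => by rw [hz x hx, mul_zero])).comp l4_del
  have h2 := (IM_limit hsc hsc (fun x hx => by rw [hz x hx, mul_zero]) (fun x hx => by rw [hz x hx, mul_zero])).comp l4_del
  rw [mul_add]
  refine (h1.add h2).congr' ?_
  have hsmall : ∀ᶠ T : ℝ in atTop, 1 / per (XN T) < e := 
    (tendsto_nhdsWithin_iff.mp l4_del).1.eventually_lt_const he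
  filter_upwards [l4_XN, hsmall] with T hT hs
  obtain ⟨-, -, hN1, -, -⟩ := hT
  set N := XN T
  have hP := l4_per_ge N
  simp only [Function.comp]
  unfold l4_S2
  set d : ℝ := 1 / per N with hd
  rw [← mul_add, ← Finset.sum_add_distrib]
  congr 1
  simp only [← Finset.sum_add_distrib]
  rw [l4_restrict (l4_MN hN1)]
  · refine Finset.sum_congr rfl fun h _ => Finset.sum_congr rfl fun k _ => ?_
    have e1 : Real.cos (yj N j * (Real.log h - Real.log k)) = Real.cos (2 * Real.pi * j * (d * Real.log h)) * Real.cos (2 * Real.pi * j * (d * Real.log k)) + 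
        Real.sin (2 * Real.pi * j * (d * Real.log h)) * Real.sin (2 * Real.pi * j * (d * Real.log k)) := by
      rw [← Real.cos_sub]; congr 1
      unfold yj
      rw [hd]; ring
    rw [e1]
    unfold l4_W
    ring
  · intro h k hhk
    have : l4_chi e (d * Real.log h) * l4_chi e (d * Real.log k) = 0 := by
      rcases hhk with hh | hk
      · have := l4_x' hh hN1
        rw [← hd] at this
        rw [l4_chi_zero he (x := d * Real.log h) (by linarith), zero_mul]
      · have := l4_x' hk hN1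
        rw [← hd] at this
        rw [l4_chi_zero he (x := d * Real.log k) (by linarith), mul_zero]
    rcases mul_eq_zero.mp this with h0 | h0 <;> rw [h0] <;> ring

lemma l4_E_lim (n : ℕ) : Tendsto (fun T : ℝ => l4_E (l4_e n) (XN T)) atTop (𝓝 (Aconst (3/2) * IP (l4_psi (l4_e n)) l4_om)) := by
  have he := l4_e_pos n
  have he4 := l4_e_le n
  have h := (IP_limit (l4_psi_cont (l4_e n)) l4_om_cont (fun x hx => l4_psi_zero he (Or.inr (by linarith))) (fun x hx => l4_om_zero hx)).comp l4_del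
  exact h

lemma l4_S_lim (j : ℤ) : Tendsto (fun T : ℝ => l4_S j (XN T)) atTop (𝓝 (Aconst (3/2) * qf (2 * Real.pi * j))) := by
  rw [Metric.tendsto_nhds]
  intro η hη
  have hA := (l4_IM_lim j).const_mul (Aconst (3/2))
  have hB := l4_IP_lim.const_mul (Aconst (3/2))
  rw [mul_zero] at hB
  rw [Metric.tendsto_nhds] at hA hB
  obtain ⟨n, hn1, hn2⟩ := ((hA (η/8) (by positivity)).and (hB (η/8) (by positivity))).exists
  have h1 := l4_S2_lim j n
  have h2 := l4_E_lim n
  rw [Metric.tendsto_nhds] at h1 h2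
  filter_upwards [h1 (η/8) (by positivity), h2 (η/8) (by positivity), l4_XN] with T hT1 hT2 hT3
  obtain ⟨-, -, hN1, -, -⟩ := hT3
  have h3 := l4_diff j (l4_e_pos n) hN1
  rw [Real.dist_eq] at *
  rw [sub_zero] at hn2
  rw [abs_lt] at *
  rw [abs_le] at h3
  constructor <;> linarith [h3.1, h3.2, hT1.1, hT1.2, hT2.1, hT2.2, hn1.1, hn1.2, hn2.1, hn2.2]

theorem main_sum_limit (j : ℤ) :
    Tendsto (fun T : ℝ => (∑ h ∈ Finset.Icc 1 (XN T), ∑ k ∈ Finset.Icc 1 (XN T),
      Real.cos (yj (XN T) j * (Real.log h - Real.log k)) * (gk h k * ell T h k)) / (Real.log T) ^ (9/4 : ℝ)) atTop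
      (𝓝 (Aconst (3/2) * qf (2 * Real.pi * j))) := by
  obtain ⟨C, hC, hg⟩ := l4_sum_gk
  -- the error between `ell` and the linear weight
  have hsmall : Tendsto (fun T : ℝ => (1 / per (XN T)) * (Real.log (Real.log T) / 4 + 1) * C) atTop (𝓝 0) := by
    have h1 := (l4_per_div.inv₀ one_ne_zero).mul ((l4_ll_div.div_const 4).add l4_inv)
    have h2 := h1.mul_const C
    simp only [zero_div, add_zero, mul_zero, zero_mul] at h2
    refine h2.congr' ?_
    filter_upwards [l4_XN] with T hT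
    have hL : Real.log T ≠ 0 := by linarith [hT.2.1]
    have := l4_per_ge (XN T)
    have hP : per (XN T) ≠ 0 := by linarith
    field_simp
  have hdiff : Tendsto (fun T : ℝ => (1 / per (XN T)) ^ (9/4 : ℝ) * (∑ h ∈ Finset.Icc 1 (XN T), ∑ k ∈ Finset.Icc 1 (XN T),
      Real.cos (yj (XN T) j * (Real.log h - Real.log k)) * (gk h k * ell T h k)) - l4_S j (XN T)) atTop (𝓝 0) := by
    refine squeeze_zero_norm' ?_ hsmall
    filter_upwards [l4_XN, l4_ell] with T hT hell
    obtain ⟨hll, hL2, hN1, -, -⟩ := hT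
    set N := XN T
    have hP := l4_per_ge N
    set d : ℝ := 1 / per N with hd
    have hd0 : 0 < d := by positivity
    have e94 : d ^ (9/4 : ℝ) = d ^ (5/4 : ℝ) * d := by
      rw [show (9/4 : ℝ) = 5/4 + 1 by norm_num, Real.rpow_add hd0, Real.rpow_one]
    unfold l4_S
    rw [← hd, e94, Real.norm_eq_abs]
    have e1 : d ^ (5/4 : ℝ) * d * (∑ h ∈ Finset.Icc 1 N, ∑ k ∈ Finset.Icc 1 N,
        Real.cos (yj N j * (Real.log h - Real.log k)) * (gk h k * ell T h k)) - d ^ (5/4 : ℝ) * ∑ h ∈ Finset.Icc 1 N, ∑ k ∈ Finset.Icc 1 N,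
        Real.cos (yj N j * (Real.log h - Real.log k)) * (gk h k * l4_W d h k) = 
        d ^ (5/4 : ℝ) * ∑ h ∈ Finset.Icc 1 N, ∑ k ∈ Finset.Icc 1 N, 
          Real.cos (yj N j * (Real.log h - Real.log k)) * (gk h k * (d * ell T h k - l4_W d h k)) := by
      rw [mul_assoc, ← mul_sub, Finset.mul_sum, ← Finset.sum_sub_distrib]
      congr 1
      refine Finset.sum_congr rfl fun h _ => ?_
      rw [Finset.mul_sum, ← Finset.sum_sub_distrib]
      refine Finset.sum_congr rfl fun k _ => ?_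
      ring
    rw [e1, abs_mul, abs_of_pos (Real.rpow_pos_of_pos hd0 _)]
    have e2 : |∑ h ∈ Finset.Icc 1 N, ∑ k ∈ Finset.Icc 1 N, 
          Real.cos (yj N j * (Real.log h - Real.log k)) * (gk h k * (d * ell T h k - l4_W d h k))| ≤ 
          (d * (Real.log (Real.log T) / 4 + 1)) * ∑ h ∈ Finset.Icc 1 N, ∑ k ∈ Finset.Icc 1 N, gk h k := by
      rw [Finset.mul_sum]
      refine (Finset.abs_sum_le_sum_abs _ _).trans (Finset.sum_le_sum fun h hh => ?_)
      rw [Finset.mul_sum]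
      refine (Finset.abs_sum_le_sum_abs _ _).trans (Finset.sum_le_sum fun k hk => ?_)
      rw [Finset.mem_Icc] at hh hk
      have h1 := hell h k hh.1 hh.2 hk.1 hk.2
      have cs := Real.abs_cos_le_one (yj N j * (Real.log h - Real.log k))
      have g0 := l4_gk_nonneg h k
      rw [abs_mul, abs_mul, abs_of_nonneg g0]
      calc |Real.cos (yj N j * (Real.log h - Real.log k))| * (gk h k * |d * ell T h k - l4_W d h k|) 
          ≤ 1 * (gk h k * (d * (Real.log (Real.log T) / 4 + 1))) := by gcongr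
        _ = _ := by ring
    calc d ^ (5/4 : ℝ) * |∑ h ∈ Finset.Icc 1 N, ∑ k ∈ Finset.Icc 1 N, 
          Real.cos (yj N j * (Real.log h - Real.log k)) * (gk h k * (d * ell T h k - l4_W d h k))| 
        ≤ d ^ (5/4 : ℝ) * ((d * (Real.log (Real.log T) / 4 + 1)) * ∑ h ∈ Finset.Icc 1 N, ∑ k ∈ Finset.Icc 1 N, gk h k) := by gcongr
      _ = (d * (Real.log (Real.log T) / 4 + 1)) * (d ^ (5/4 : ℝ) * ∑ h ∈ Finset.Icc 1 N, ∑ k ∈ Finset.Icc 1 N, gk h k) := by ring
      _ ≤ (d * (Real.log (Real.log T) / 4 + 1)) * C := by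
        have := hg N hN1
        gcongr
  have hS := l4_S_lim j
  have h1 := hdiff.add hS
  simp only [sub_add_cancel, zero_add] at h1
  have hr : Tendsto (fun T : ℝ => (per (XN T) / Real.log T) ^ (9/4 : ℝ)) atTop (𝓝 1) := by
    have := l4_per_div.rpow_const (p := 9/4) (Or.inl one_ne_zero)
    simpa using this
  have h2 := h1.mul hr
  rw [mul_one] at h2
  refine h2.congr' ?_
  filter_upwards [l4_XN] with T hT
  obtain ⟨hll, hL2, hN1, -, -⟩ := hT
  have hP := l4_per_ge (XN T)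
  have hP0 : 0 < per (XN T) := by linarith
  have hL0 : 0 < Real.log T := by linarith
  have e1 : (1 / per (XN T)) ^ (9/4 : ℝ) * (per (XN T) / Real.log T) ^ (9/4 : ℝ) = 1 / (Real.log T) ^ (9/4 : ℝ) := by
    rw [← Real.mul_rpow (by positivity) (by positivity), show 1 / per (XN T) * (per (XN T) / Real.log T) = (Real.log T)⁻¹ by field_simp,
      Real.inv_rpow hL0.le, one_div]
  rw [mul_assoc, mul_comm (∑ h ∈ Finset.Icc 1 (XN T), _), ← mul_assoc, e1]
  ring

end Pool.Agent.LibM3
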