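import Pool.Agent.LibM3.G2
import Pool.Agent.LibZM.CS9

/-! Third moment, lower bound, block G3: the sixth moment of the short polynomial and Hoelder. -/

set_option autoImplicit false

namespace Pool.Agent.LibM3

open MeasureTheory Set Filter Topology Complex ProbabilityTheory
open scoped NNReal ComplexConjugate
open Pool.Agent.LibZM

/-- Volume of the sixth moment. -/
noncomputable def g3_V : ℝ := VolC (alphaD 3) (thetaD 3)

lemma g3_V_pos : 0 < g3_V := VolC_alphaD_pos (by norm_num)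

lemma g3_sum_le (N : ℕ) : ∑ n ∈ Finset.Icc 1 N, halfTrunc N n ≤ N := by
  calc ∑ n ∈ Finset.Icc 1 N, halfTrunc N n ≤ ∑ n ∈ Finset.Icc 1 N, (1:ℝ) := Finset.sum_le_sum fun n _ => halfTrunc_le_one N n
    _ = N := by simp

/-- The diagonal sum. -/
lemma g3_diag {θ : ℝ} (hθ0 : 0 < θ) (hθ : θ < 1/3) {c : ℝ} (hc : Aconst (3/2) * g3_V < c) :
    ∀ᶠ T : ℝ in atTop, diag (halfTrunc ⌊T ^ θ⌋₊ ^ 3) (⌊T ^ θ⌋₊ ^ 3) ≤ c * (Real.log T) ^ (9/4 : ℝ) := by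
  have hA := Aconst_pos (κ := 3/2) (by norm_num)
  have hV := g3_V_pos
  have hc0 : 0 < c := lt_trans (mul_pos hA hV) hc
  have h := diagD_upper (k := 3) (by norm_num) (c := c) (by
    rw [show (((3:ℕ):ℝ)/2) = 3/2 by norm_num]; exact hc)
  have ht : Tendsto (fun T : ℝ => T ^ (3 * θ)) atTop atTop := tendsto_rpow_atTop (by positivity)
  filter_upwards [ht.eventually h, eventually_gt_atTop 1] with T h1 hT
  have hT0 : 0 < T := by linarith
  have e1 : (T ^ (3 * θ)) ^ (1 / ((3:ℕ):ℝ)) = T ^ θ := by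
    rw [← Real.rpow_mul hT0.le]
    congr 1
    push_cast
    field_simp
  rw [e1] at h1
  refine h1.trans ?_
  have hl : 0 < Real.log T := Real.log_pos hT
  rw [Real.log_rpow hT0, show (((3:ℕ):ℝ)/2) ^ 2 = 9/4 by norm_num]
  have h2 : 3 * θ * Real.log T ≤ Real.log T := by nlinarith
  have h3 : 0 ≤ 3 * θ * Real.log T := by positivity
  gcongr

/-- The off-diagonal error. -/
lemma g3_err {θ : ℝ} (hθ0 : 0 < θ) (hθ : θ < 1/3) : ∀ᶠ T : ℝ in atTop,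
    4 ≤ vw T ∧ 3 * (((⌊T ^ θ⌋₊ ^ 3 : ℕ)) : ℝ) ^ 2 * Real.exp (-(vw T : ℝ) / (16 * ((⌊T ^ θ⌋₊ ^ 3 : ℕ) : ℝ) ^ 2)) *
      (∑ n ∈ Finset.Icc 1 ⌊T ^ θ⌋₊, halfTrunc ⌊T ^ θ⌋₊ n) ^ (2 * 3) ≤ 1 := by
  have hε : 0 < 1 - 3 * θ := by linarith
  have hlim := lim_exp_nat (a := 1/16) (ε := 1 - 3 * θ) (by norm_num) hε 4
  have hlim3 : Tendsto (fun T : ℝ => 3 * (T ^ 4 * Real.exp (-(1/16 * T ^ (1 - 3 * θ))))) atTop (𝓝 0) := by
    simpa using hlim.const_mul 3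
  have hlogp : ∀ᶠ T : ℝ in atTop, (Real.log T) ^ (3/2 : ℝ) ≤ T ^ (1 - 3 * θ) := by
    have := isLittleO_log_rpow_rpow_atTop (3/2 : ℝ) hε
    filter_upwards [this.def (show (0:ℝ) < 1 by norm_num), eventually_gt_atTop 1] with T hT hT1
    have hl := Real.log_pos hT1
    rw [Real.norm_eq_abs, Real.norm_eq_abs, abs_of_pos (by positivity), abs_of_pos (by positivity), one_mul] at hT
    exact hT
  have hlog4 : ∀ᶠ T : ℝ in atTop, (Real.log T) ^ (3/2 : ℝ) ≤ T / 4 := by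
    have := isLittleO_log_rpow_atTop (show (0:ℝ) < 1/2 by norm_num)
    have h2 := isLittleO_log_rpow_rpow_atTop (3/2 : ℝ) (show (0:ℝ) < 1 by norm_num)
    filter_upwards [h2.def (show (0:ℝ) < 1/4 by norm_num), eventually_gt_atTop 1] with T hT hT1
    have hl := Real.log_pos hT1
    rw [Real.norm_eq_abs, Real.norm_eq_abs, abs_of_pos (by positivity), abs_of_pos (by positivity), Real.rpow_one] at hT
    linarith
  filter_upwards [hlim3.eventually_lt_const (show (0:ℝ) < 1 by norm_num), hlogp, hlog4, eventually_gt_atTop 1] with T h1 h2 h3 hT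
  have hT0 : 0 < T := by linarith
  have hl : 0 < Real.log T := Real.log_pos hT
  obtain ⟨l, hld⟩ : ∃ l, l = (Real.log T) ^ (3/2 : ℝ) := ⟨_, rfl⟩
  have hl0 : 0 < l := by rw [hld]; positivity
  have hv : (vw T : ℝ) = T ^ 2 / l := by
    unfold vw
    rw [Real.coe_toNNReal _ (by positivity)]
    unfold Hw
    rw [div_pow, hld, ← Real.rpow_natCast ((Real.log T) ^ (3/4:ℝ)) 2, ← Real.rpow_mul hl.le]
    norm_num
  rw [← hld] at h2 h3
  constructor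
  · have h4 : (4:ℝ) ≤ vw T := by
      rw [hv, le_div_iff₀ hl0]
      nlinarith
    exact_mod_cast h4
  · obtain ⟨N, hN⟩ : ∃ N, N = ⌊T ^ θ⌋₊ := ⟨_, rfl⟩
    rw [← hN]
    have hN1 : 1 ≤ N := by
      rw [hN]
      apply Nat.le_floor
      simpa using Real.one_le_rpow hT.le hθ0.le
    have hN0 : (0:ℝ) < N := by exact_mod_cast hN1
    have hNle : (N:ℝ) ≤ T ^ θ := by rw [hN]; exact Nat.floor_le (by positivity)
    have hN6 : (((N ^ 3 : ℕ)) : ℝ) ^ 2 ≤ T ^ (6 * θ) := by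
      push_cast
      calc ((N:ℝ) ^ 3) ^ 2 = (N:ℝ) ^ 6 := by ring
        _ ≤ (T ^ θ) ^ 6 := by gcongr
        _ = T ^ (6 * θ) := by rw [← Real.rpow_natCast, ← Real.rpow_mul hT0.le]; congr 1; push_cast; ring
    have hN6' : (((N ^ 3 : ℕ)) : ℝ) ^ 2 ≤ T ^ 2 := by
      refine hN6.trans ?_
      rw [← Real.rpow_natCast T 2]
      apply Real.rpow_le_rpow_of_exponent_le hT.le
      push_cast
      linarith
    have hNpos : 0 < (((N ^ 3 : ℕ)) : ℝ) ^ 2 := by positivity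
    have hS : (∑ n ∈ Finset.Icc 1 N, halfTrunc N n) ^ (2 * 3) ≤ T ^ 2 := by
      have a0 : 0 ≤ ∑ n ∈ Finset.Icc 1 N, halfTrunc N n := Finset.sum_nonneg fun n _ => halfTrunc_nonneg N n
      calc (∑ n ∈ Finset.Icc 1 N, halfTrunc N n) ^ (2 * 3) ≤ (N:ℝ) ^ (2 * 3) := by
            have := g3_sum_le N
            gcongr
        _ = (((N ^ 3 : ℕ)) : ℝ) ^ 2 := by push_cast; ring
        _ ≤ T ^ 2 := hN6'
    have hE : Real.exp (-(vw T : ℝ) / (16 * ((N ^ 3 : ℕ) : ℝ) ^ 2)) ≤ Real.exp (-(1/16 * T ^ (1 - 3 * θ))) := by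
      apply Real.exp_le_exp.mpr
      rw [neg_div, neg_le_neg_iff, hv, le_div_iff₀ (by positivity)]
      calc 1/16 * T ^ (1 - 3 * θ) * (16 * (((N ^ 3 : ℕ)) : ℝ) ^ 2) = T ^ (1 - 3 * θ) * (((N ^ 3 : ℕ)) : ℝ) ^ 2 := by ring
        _ ≤ T ^ (1 - 3 * θ) * T ^ (6 * θ) := by gcongr
        _ = T ^ 2 / T ^ (1 - 3 * θ) := by
            rw [eq_div_iff (by positivity), ← Real.rpow_natCast T 2, ← Real.rpow_add hT0, ← Real.rpow_add hT0]
            congr 1; push_cast; ring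
        _ ≤ T ^ 2 / l := by gcongr
    have a0 : 0 ≤ (∑ n ∈ Finset.Icc 1 N, halfTrunc N n) ^ (2 * 3) := by
      have : 0 ≤ ∑ n ∈ Finset.Icc 1 N, halfTrunc N n := Finset.sum_nonneg fun n _ => halfTrunc_nonneg N n
      positivity
    calc 3 * (((N ^ 3 : ℕ)) : ℝ) ^ 2 * Real.exp (-(vw T : ℝ) / (16 * ((N ^ 3 : ℕ) : ℝ) ^ 2)) *
      (∑ n ∈ Finset.Icc 1 N, halfTrunc N n) ^ (2 * 3) ≤ 3 * T ^ 2 * Real.exp (-(1/16 * T ^ (1 - 3 * θ))) * T ^ 2 := by gcongr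
      _ = 3 * (T ^ 4 * Real.exp (-(1/16 * T ^ (1 - 3 * θ)))) := by ring
      _ ≤ 1 := h1.le

/-- The sixth moment of the short polynomial. -/
theorem g3_six {η : ℝ} {θ : ℝ} (hθ0 : 0 < θ) (hθ : θ < 1/3) {c : ℝ} (hc : Aconst (3/2) * g3_V < c) :
    ∀ᶠ p : ℝ × ℝ in Fl η, ∫ t in win p.2, ‖PP ⌊p.1 ^ θ⌋₊ (crit t)‖ ^ 6 ∂(gaussianReal p.2 (vw p.1)) ≤
      c * (Real.log p.1) ^ (9/4 : ℝ) := by
  obtain ⟨c', h1, h2⟩ := exists_between hc
  have hlog : Tendsto (fun p : ℝ × ℝ => Real.log p.1) (Fl η) atTop := Real.tendsto_log_atTop.comp (Fl_fst η)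
  have hsmall : ∀ᶠ p : ℝ × ℝ in Fl η, 1 ≤ (c - c') * (Real.log p.1) ^ (9/4 : ℝ) :=
    (((tendsto_rpow_atTop (by norm_num)).comp hlog).const_mul_atTop (show 0 < c - c' by linarith)).eventually_ge_atTop 1
  filter_upwards [(Fl_fst η).eventually (g3_diag hθ0 hθ h1), (Fl_fst η).eventually (g3_err hθ0 hθ), hsmall] with p hd he hs
  obtain ⟨N, hN⟩ : ∃ N, N = ⌊p.1 ^ θ⌋₊ := ⟨_, rfl⟩
  rw [← hN] at hd he ⊢
  obtain ⟨hv, he⟩ := he
  have hb := halfTrunc_nonneg N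
  have hx := halfTrunc_supp N
  have h3 := mean_square p.2 hv (pow_nonneg_af hb 3) (N ^ 3)
  rw [sum_coeff_pow hx] at h3
  have hBk : ∀ t, dp (halfTrunc N ^ 3) (N ^ 3) (crit t) = PP N (crit t) ^ 3 := fun t => dp_pow hx (crit_ne_zero t) 3
  have hBc : Continuous (fun t : ℝ => PP N (crit t)) := continuous_dp_crit (halfTrunc N) N
  have hi : Integrable (fun t => ‖PP N (crit t)‖ ^ 6) (gaussianReal p.2 (vw p.1)) := by
    refine Integrable.mono' (g := fun _ => (∑ n ∈ Finset.Icc 1 N, halfTrunc N n) ^ 6) (integrable_const _)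
      (hBc.norm.pow 6).aestronglyMeasurable (Eventually.of_forall fun t => ?_)
    rw [Real.norm_eq_abs, abs_of_nonneg (by positivity)]
    have : ‖PP N (crit t)‖ ≤ ∑ n ∈ Finset.Icc 1 N, halfTrunc N n := norm_dp_crit_le hb N t
    gcongr
  calc ∫ t in win p.2, ‖PP N (crit t)‖ ^ 6 ∂(gaussianReal p.2 (vw p.1)) 
      ≤ ∫ t, ‖PP N (crit t)‖ ^ 6 ∂(gaussianReal p.2 (vw p.1)) :=
        setIntegral_le_integral hi (Eventually.of_forall fun t => by simp only [Pi.zero_apply]; positivity)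
    _ = ∫ t, ‖dp (halfTrunc N ^ 3) (N ^ 3) (crit t)‖ ^ 2 ∂(gaussianReal p.2 (vw p.1)) := by
        congr 1; ext t; rw [hBk, norm_pow, ← pow_mul]
    _ ≤ diag (halfTrunc N ^ 3) (N ^ 3) + 1 := by
        have h4 := (abs_le.mp h3).2
        have h5 : ((∑ n ∈ Finset.Icc 1 N, halfTrunc N n) ^ 3) ^ 2 = (∑ n ∈ Finset.Icc 1 N, halfTrunc N n) ^ (2 * 3) := by
          rw [← pow_mul]
        rw [h5] at h4
        have : diag (halfTrunc N ^ 3) (N ^ 3) = ∑ q ∈ Finset.Icc 1 (N ^ 3), ((halfTrunc N ^ 3) q) ^ 2 * (q:ℝ)⁻¹ := rfl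
        rw [this]
        linarith
    _ ≤ c' * (Real.log p.1) ^ (9/4 : ℝ) + (c - c') * (Real.log p.1) ^ (9/4 : ℝ) := by linarith
    _ = _ := by ring

end Pool.Agent.LibM3
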