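import Pool.Agent.LibM3.F5
import Pool.Agent.LibZM.HB13

/-! Third moment, block F6: from Gaussian windows to the full moment. -/

set_option autoImplicit false

namespace Pool.Agent.LibM3

open MeasureTheory Set Filter Topology Complex ProbabilityTheory
open scoped NNReal ComplexConjugate
open Pool.Agent.LibZM

theorem f6_moment_le {v : ℝ≥0} (hv : v ≠ 0) {h : ℝ → ℝ} (hc : Continuous h) (h0 : ∀ t, 0 ≤ h t) {a b α β c m : ℝ} 
    (hαβ : α ≤ β) (hcb : ∀ u ∈ Icc α β, ∫ t in Icc a b, h t ∂(gaussianReal u v) ≤ c) 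
    (hm : ∀ t ∈ Icc a b, m ≤ ∫ u in Icc α β, gaussianPDFReal t v u) : 
    m * ∫ t in Icc a b, h t ≤ c * (β - α) := by
  have hcont : Continuous (Function.uncurry fun (u t : ℝ) => gaussianPDFReal u v t * h t) := by
    unfold Function.uncurry
    simp only [gaussianPDFReal_def]
    fun_prop
  have hint : Integrable (Function.uncurry fun (u t : ℝ) => gaussianPDFReal u v t * h t) 
      ((volume.restrict (Icc α β)).prod (volume.restrict (Icc a b))) := by
    rw [Measure.prod_restrict]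
    exact hcont.continuousOn.integrableOn_compact (μ := volume) (isCompact_Icc.prod isCompact_Icc)
  have e1 : ∀ u, ∫ t in Icc a b, gaussianPDFReal u v t * h t = ∫ t in Icc a b, h t ∂(gaussianReal u v) := by
    intro u
    rw [setIntegral_gaussian' hv u measurableSet_Icc]
  have hleft : ∫ u in Icc α β, (∫ t in Icc a b, gaussianPDFReal u v t * h t) ≤ c * (β - α) := by
    calc ∫ u in Icc α β, (∫ t in Icc a b, gaussianPDFReal u v t * h t) ≤ ∫ u in Icc α β, c := by
          refine setIntegral_mono_on hint.integral_prod_left (by simp) measurableSet_Icc fun u hu => ?_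
          rw [e1]
          exact hcb u hu
      _ = c * (β - α) := by
          rw [setIntegral_const, smul_eq_mul, measureReal_def, Real.volume_Icc, ENNReal.toReal_ofReal (by linarith)]
          ring
  refine le_trans ?_ hleft
  rw [integral_integral_swap hint, ← integral_const_mul]
  refine setIntegral_mono_on ?_ hint.integral_prod_right measurableSet_Icc fun t ht => ?_
  · exact ((hc.continuousOn).integrableOn_compact isCompact_Icc).const_mul m
  · have e2 : ∫ u in Icc α β, gaussianPDFReal u v t * h t = (∫ u in Icc α β, gaussianPDFReal t v u) * h t := by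
      have e3 : ∀ u, gaussianPDFReal u v t * h t = gaussianPDFReal t v u * h t := fun u => by
        rw [pdf_symm v u t]
      simp_rw [e3]
      rw [integral_mul_const]
    rw [e2]
    exact mul_le_mul_of_nonneg_right (hm t ht) (h0 t)

/-- The normalisation. -/
noncomputable def La3 (T : ℝ) : ℝ := Aconst (3/2) * (Real.log T) ^ (9/4 : ℝ)

lemma La3_pos {T : ℝ} (hT : 1 < T) : 0 < La3 T := by
  have hA := Aconst_pos (κ := 3/2) (by norm_num)
  have hl := Real.log_pos hT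
  unfold La3; positivity

lemma La3_nonneg {T : ℝ} (hT : 1 ≤ T) : 0 ≤ La3 T := by
  have hA := Aconst_pos (κ := 3/2) (by norm_num)
  have hl := Real.log_nonneg hT
  unfold La3; positivity

lemma La3_mono {S T : ℝ} (hS : 1 ≤ S) (hST : S ≤ T) : La3 S ≤ La3 T := by
  unfold La3
  have hA := Aconst_pos (κ := 3/2) (by norm_num)
  have h1 := Real.log_nonneg hS
  have h2 := Real.log_le_log (by linarith) hST
  gcongr

lemma La3_tendsto : Tendsto La3 atTop atTop := by
  have hA := Aconst_pos (κ := 3/2) (by norm_num)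
  exact ((tendsto_rpow_atTop (by norm_num)).comp Real.tendsto_log_atTop).const_mul_atTop hA

lemma La3_dilate {δ : ℝ} (hδ : 0 < δ) (hδ1 : δ ≤ 1) : ∀ᶠ T : ℝ in atTop, La3 ((1 + δ) * T) ≤ (1 + δ) ^ 3 * La3 T := by
  filter_upwards [Real.tendsto_log_atTop.eventually_ge_atTop (Real.log 2 / δ), eventually_gt_atTop 1] with T h1 hT
  have hl := Real.log_pos hT
  have hA := Aconst_pos (κ := 3/2) (by norm_num)
  have h2 : Real.log ((1 + δ) * T) ≤ (1 + δ) * Real.log T := by
    rw [Real.log_mul (by linarith) (by linarith)]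
    have h3 : Real.log (1 + δ) ≤ Real.log 2 := Real.log_le_log (by linarith) (by linarith)
    rw [div_le_iff₀ hδ] at h1
    linarith
  have h4 : 0 ≤ Real.log ((1 + δ) * T) := Real.log_nonneg (by nlinarith)
  unfold La3
  calc Aconst (3/2) * Real.log ((1 + δ) * T) ^ (9/4:ℝ) ≤ Aconst (3/2) * ((1 + δ) * Real.log T) ^ (9/4:ℝ) := by gcongr
    _ = Aconst (3/2) * ((1 + δ) ^ (9/4:ℝ) * Real.log T ^ (9/4:ℝ)) := by rw [Real.mul_rpow (by linarith) hl.le]
    _ ≤ Aconst (3/2) * ((1 + δ) ^ (3:ℝ) * Real.log T ^ (9/4:ℝ)) := by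
        gcongr
        · linarith
        · norm_num
    _ = _ := by
        rw [show (3:ℝ) = ((3:ℕ):ℝ) by norm_num, Real.rpow_natCast]
        push_cast
        ring

lemma f6_Hw_pos {T : ℝ} (hT : 1 < T) : 0 < Hw T := by
  have := Real.log_pos hT
  unfold Hw
  positivity

lemma f6_sqrt_vw {T : ℝ} (hT : 1 < T) : √(vw T : ℝ) = Hw T := by
  unfold vw
  rw [Real.coe_toNNReal _ (sq_nonneg _), Real.sqrt_sq (f6_Hw_pos hT).le]

lemma f6_mass {ρ : ℝ} (hρ : 0 < ρ) {δ : ℝ} (hδ : 0 < δ) : ∀ᶠ S : ℝ in atTop, 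
    16 * √(vw S : ℝ) * Real.exp (-(ρ * S) / √(vw S : ℝ)) / (ρ * S) ≤ δ := by
  have h1 : Tendsto (fun S : ℝ => ρ * (Real.log S) ^ (3/4:ℝ)) atTop atTop :=
    ((tendsto_rpow_atTop (by norm_num)).comp Real.tendsto_log_atTop).const_mul_atTop hρ
  have h2 : Tendsto (fun S : ℝ => 16 / ρ * Real.exp (-(ρ * (Real.log S) ^ (3/4:ℝ)))) atTop (𝓝 0) := by
    have := (Real.tendsto_exp_neg_atTop_nhds_zero.comp h1).const_mul (16 / ρ)
    simpa using this
  filter_upwards [h2.eventually_lt_const hδ, eventually_gt_atTop 1, Real.tendsto_log_atTop.eventually_ge_atTop 1] with S hS hS1 hL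
  have hS0 : 0 < S := by linarith
  rw [f6_sqrt_vw hS1]
  have hH := f6_Hw_pos hS1
  have hHS : Hw S ≤ S := by
    unfold Hw
    apply div_le_self hS0.le
    exact Real.one_le_rpow hL (by norm_num)
  have e1 : -(ρ * S) / Hw S = -(ρ * (Real.log S) ^ (3/4:ℝ)) := by
    unfold Hw
    have : 0 < (Real.log S) ^ (3/4:ℝ) := by positivity
    field_simp
  rw [e1]
  refine le_trans ?_ hS.le
  rw [div_le_iff₀ (by positivity)]
  have e2 : 16 / ρ * Real.exp (-(ρ * (Real.log S) ^ (3/4:ℝ))) * (ρ * S) = 16 * S * Real.exp (-(ρ * (Real.log S) ^ (3/4:ℝ))) := by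
    field_simp
  rw [e2]
  gcongr

/-- One block of the transfer. -/
theorem f6_block {c₀ c₁ : ℝ} (hc0 : 0 < c₀) (hc : c₀ < c₁)
    (h : ∀ η : ℝ, 0 < η → ∀ᶠ p : ℝ × ℝ in Fl η, ∫ t in win p.2, ‖riemannZeta (crit t)‖ ^ 3 ∂(gaussianReal p.2 (vw p.1)) ≤ c₀ * La3 p.1) : 
    ∀ᶠ T : ℝ in atTop, ∫ t in Icc (3/4 * T) T, ‖riemannZeta (crit t)‖ ^ 3 ≤ (1 - 3/4) * (c₁ * (T * La3 T)) := by
  obtain ⟨δ, hδ0, hδ1, hδ⟩ : ∃ δ : ℝ, 0 < δ ∧ δ < 1/16 ∧ (1/4 + 2 * δ) * (1 + δ) ^ 3 * c₀ < (1 - δ) * (1/4 * c₁) := by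
    have hcont : ContinuousAt (fun δ : ℝ => (1 - δ) * (1/4 * c₁) - (1/4 + 2 * δ) * (1 + δ) ^ 3 * c₀) 0 := by fun_prop
    have h1 : ∀ᶠ δ : ℝ in 𝓝 0, 0 < (1 - δ) * (1/4 * c₁) - (1/4 + 2 * δ) * (1 + δ) ^ 3 * c₀ := 
      hcont.eventually_const_lt (by norm_num; exact hc)
    have h2 : ∀ᶠ δ : ℝ in 𝓝[>] 0, 0 < (1 - δ) * (1/4 * c₁) - (1/4 + 2 * δ) * (1 + δ) ^ 3 * c₀ := h1.filter_mono nhdsWithin_le_nhds
    have h3 : ∀ᶠ δ : ℝ in 𝓝[>] 0, δ < 1/16 := by
      apply Filter.Eventually.filter_mono nhdsWithin_le_nhds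
      exact gt_mem_nhds (by norm_num)
    obtain ⟨δ, a, b, c⟩ := (h2.and (h3.and self_mem_nhdsWithin)).exists
    exact ⟨δ, c, b, by linarith⟩
  have hscale : Tendsto (fun T : ℝ => (1 + δ) * T) atTop atTop := tendsto_id.const_mul_atTop (by linarith)
  have k1 := hscale.eventually (Fl_iff.mp (h (1/4) (by norm_num)))
  have k2 := hscale.eventually (f6_mass (ρ := δ / (1 + δ)) (by positivity) hδ0)
  filter_upwards [k1, k2, La3_dilate hδ0 (by linarith), eventually_gt_atTop 1] with T h1 h2 h8 hT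
  obtain ⟨S, hS⟩ : ∃ S : ℝ, S = (1 + δ) * T := ⟨_, rfl⟩
  rw [← hS] at h1 h2 h8
  have hT0 : 0 < T := by linarith
  have hST : S = T + δ * T := by rw [hS]; ring
  have hδT : 0 < δ * T := by positivity
  have hδT16 : δ * T ≤ 1/16 * T := by gcongr
  have hS1 : 1 < S := by linarith
  have hS0 : 0 < S := by linarith
  have hLS := La3_pos hS1
  have hLT := La3_pos hT
  have hRS : δ / (1 + δ) * S = δ * T := by rw [hS]; field_simp
  rw [hRS] at h2
  have hv0 : 0 < vw S := by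
    unfold vw
    exact Real.toNNReal_pos.2 (pow_pos (f6_Hw_pos hS1) 2)
  have hmain : (1 - δ) * ∫ t in Icc (3/4 * T) T, ‖riemannZeta (crit t)‖ ^ 3 ≤ (c₀ * La3 S) * (S - (3/4 * T - δ * T)) := by
    apply f6_moment_le (v := vw S) hv0.ne' (continuous_zeta_crit.norm.pow 3) (fun t => pow_nonneg (norm_nonneg _) 3) (by linarith)
    · intro u hu
      have a1 := h1 u (by linarith [hu.1]) (by linarith [hu.2])
      refine le_trans ?_ a1
      apply setIntegral_mono_set
      · exact ((continuous_zeta_crit.norm.pow 3).continuousOn).integrableOn_compact isCompact_Icc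
      · exact Eventually.of_forall fun t => pow_nonneg (norm_nonneg _) 3
      · apply LE.le.eventuallyLE
        apply Icc_subset_Icc
        · show u / 2 ≤ 3/4 * T
          linarith [hu.2]
        · show T ≤ 2 * u
          linarith [hu.1]
    · intro t ht
      have hin : Icc (t - δ * T) (t + δ * T) ⊆ Icc (3/4 * T - δ * T) S := by
        apply Icc_subset_Icc
        · linarith [ht.1]
        · linarith [ht.2]
      have s1 : ∫ u in Icc (t - δ * T) (t + δ * T), gaussianPDFReal t (vw S) u ≤ ∫ u in Icc (3/4 * T - δ * T) S, gaussianPDFReal t (vw S) u := by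
        apply setIntegral_mono_set (integrable_gaussianPDFReal t (vw S)).integrableOn _ (LE.le.eventuallyLE hin)
        exact Eventually.of_forall fun u => gaussianPDFReal_nonneg t (vw S) u
      have s3 := mass_in t hv0 hδT
      linarith
  obtain ⟨J, hJ⟩ : ∃ J : ℝ, J = ∫ t in Icc (3/4 * T) T, ‖riemannZeta (crit t)‖ ^ 3 := ⟨_, rfl⟩
  rw [← hJ] at hmain ⊢
  have hTL : 0 < T * La3 T := by positivity
  have hJ3 : (1 - δ) * J ≤ (1 - δ) * ((1 - 3/4) * (c₁ * (T * La3 T))) := by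
    calc (1 - δ) * J ≤ (c₀ * La3 S) * (S - (3/4 * T - δ * T)) := hmain
      _ = (c₀ * La3 S) * ((1/4 + 2 * δ) * T) := by rw [hST]; ring
      _ ≤ (c₀ * ((1 + δ) ^ 3 * La3 T)) * ((1/4 + 2 * δ) * T) := by gcongr
      _ = ((1/4 + 2 * δ) * (1 + δ) ^ 3 * c₀) * (T * La3 T) := by ring
      _ ≤ ((1 - δ) * (1/4 * c₁)) * (T * La3 T) := by gcongr
      _ = _ := by ring
  exact le_of_mul_le_mul_left hJ3 (by linarith)

/-- The transfer. -/
theorem f6_transfer {c₀ c₂ : ℝ} (hc0 : 0 < c₀) (hc : c₀ < c₂)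
    (h : ∀ η : ℝ, 0 < η → ∀ᶠ p : ℝ × ℝ in Fl η, ∫ t in win p.2, ‖riemannZeta (crit t)‖ ^ 3 ∂(gaussianReal p.2 (vw p.1)) ≤ c₀ * La3 p.1) : 
    ∀ᶠ T : ℝ in atTop, ∫ t in Icc 0 T, ‖riemannZeta (crit t)‖ ^ 3 ≤ c₂ * (T * La3 T) := by
  obtain ⟨c₁, hc1, hc2⟩ := exists_between hc
  have hl := f6_block hc0 hc1 h
  obtain ⟨T0, hT0⟩ := eventually_atTop.mp (hl.and (eventually_ge_atTop 1))
  have hT01 : 1 ≤ T0 := (hT0 T0 le_rfl).2
  obtain ⟨f, hf⟩ : ∃ f : ℝ → ℝ, f = fun t => ‖riemannZeta (crit t)‖ ^ 3 := ⟨_, rfl⟩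
  have hfc : Continuous f := by rw [hf]; exact continuous_zeta_crit.norm.pow 3
  have hf0 : ∀ t, 0 ≤ f t := fun t => by rw [hf]; positivity
  have hfi : ∀ a b : ℝ, IntegrableOn f (Icc a b) := fun a b => hfc.continuousOn.integrableOn_compact isCompact_Icc
  have hc1p : 0 < c₁ := hc0.trans hc1
  obtain ⟨C0, hC0⟩ : ∃ C0 : ℝ, C0 = ∫ t in Icc 0 T0, f t := ⟨_, rfl⟩
  have hsplit : ∀ a T : ℝ, 0 ≤ a → a ≤ T → ∫ t in Icc 0 T, f t ≤ (∫ t in Icc 0 a, f t) + ∫ t in Icc a T, f t := by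
    intro a T ha haT
    rw [← Icc_union_Icc_eq_Icc ha haT]
    have hu := MeasureTheory.setIntegral_union₀ (μ := volume) (f := f) (s := Icc 0 a) (t := Icc a T) ?_ measurableSet_Icc.nullMeasurableSet (hfi 0 a) (hfi a T)
    · rw [hu]
    · rw [AEDisjoint, Icc_inter_Icc_eq_singleton ha haT]; simp
  have key : ∀ n : ℕ, ∀ T : ℝ, T0 ≤ T → (3/4:ℝ) ^ n * T ≤ T0 → ∫ t in Icc 0 T, f t ≤ C0 + c₁ * (T * La3 T) := by
    intro n
    induction n with
    | zero =>
      intro T h1 h2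
      rw [pow_zero, one_mul] at h2
      have : T = T0 := le_antisymm h2 h1
      rw [this, hC0]
      have h3 := La3_nonneg hT01
      have : 0 ≤ c₁ * (T0 * La3 T0) := by positivity
      linarith
    | succ n ih =>
      intro T h1 h2
      have hTpos : 0 < T := by linarith
      have hTge : 1 ≤ T := by linarith
      have hblock := (hT0 T h1).1
      have hb : ∫ t in Icc (3/4 * T) T, f t ≤ (1 - 3/4) * (c₁ * (T * La3 T)) := by rw [hf]; exact hblock
      have hLT := La3_nonneg hTge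
      have hlT : 3/4 * T ≤ T := by linarith
      have hs := hsplit (3/4 * T) T (by positivity) hlT
      rcases le_or_gt T0 (3/4 * T) with h3 | h3
      · have h4 := ih (3/4 * T) h3 (by rw [pow_succ] at h2; linarith)
        have h5 : La3 (3/4 * T) ≤ La3 T := La3_mono (by linarith) hlT
        have h6 : c₁ * (3/4 * T * La3 (3/4 * T)) ≤ c₁ * (3/4 * T * La3 T) := by gcongr
        calc ∫ t in Icc 0 T, f t ≤ _ := hs
          _ ≤ (C0 + c₁ * (3/4 * T * La3 T)) + (1 - 3/4) * (c₁ * (T * La3 T)) := by linarith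
          _ = _ := by ring
      · have h4 : ∫ t in Icc 0 (3/4 * T), f t ≤ C0 := by
          rw [hC0]
          apply setIntegral_mono_set (hfi 0 T0) (Eventually.of_forall fun t => hf0 t)
          apply LE.le.eventuallyLE
          exact Icc_subset_Icc le_rfl h3.le
        have h5 : (1 - 3/4) * (c₁ * (T * La3 T)) ≤ c₁ * (T * La3 T) := by
          have : 0 ≤ c₁ * (T * La3 T) := by positivity
          nlinarith
        linarith
  have hfin : ∀ᶠ T : ℝ in atTop, C0 ≤ (c₂ - c₁) * (T * La3 T) := by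
    have h1 : Tendsto (fun T : ℝ => (c₂ - c₁) * (T * La3 T)) atTop atTop := 
      (tendsto_id.atTop_mul_atTop₀ La3_tendsto).const_mul_atTop (by linarith)
    exact h1.eventually_ge_atTop C0
  filter_upwards [hfin, eventually_ge_atTop T0] with T h1 h2
  have hn : ∃ n : ℕ, (3/4:ℝ) ^ n * T ≤ T0 := by
    have h3 : Tendsto (fun n : ℕ => (3/4:ℝ) ^ n * T) atTop (𝓝 (0 * T)) := 
      (tendsto_pow_atTop_nhds_zero_of_lt_one (by norm_num) (by norm_num)).mul_const T
    rw [zero_mul] at h3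
    obtain ⟨n, hn⟩ := (h3.eventually_lt_const (show (0:ℝ) < T0 by linarith)).exists
    exact ⟨n, hn.le⟩
  obtain ⟨n, hn⟩ := hn
  have h3 := key n T h2 hn
  rw [hf] at h3
  have h4 : c₁ * (T * La3 T) + (c₂ - c₁) * (T * La3 T) = c₂ * (T * La3 T) := by ring
  linarith

/-- The third moment. -/
theorem f6_main {c : ℝ} (hc : 2 * CI < c) : ∀ᶠ T : ℝ in atTop, ∫ t in Icc 0 T, ‖riemannZeta (crit t)‖ ^ 3 ≤ c * (T * La3 T) := by
  obtain ⟨c₀, h1, h2⟩ := exists_between hc
  have hCI := f3_CI_nonneg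
  apply f6_transfer (c₀ := c₀) (by linarith) h2
  intro η hη
  filter_upwards [f5_window hη (c := c₀) h1] with p hp
  refine hp.trans (le_of_eq ?_)
  unfold La3
  ring

end Pool.Agent.LibM3
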