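import Pool.Agent.LibM3.G1
import Pool.Agent.LibM3.F6

/-! Third moment, lower bound, block G2: the twisted second moment on windows, from below. -/

set_option autoImplicit false

namespace Pool.Agent.LibM3

open MeasureTheory Set Filter Topology Complex ProbabilityTheory
open scoped NNReal ComplexConjugate
open Pool.Agent.LibZM

/-- Cutoff kernel. -/
noncomputable def g2_K (N : ℕ) (h k : ℕ) : ℂ := if h ≤ N ∧ k ≤ N then 1 else 0

lemma g2_norm_K (N h k : ℕ) : ‖g2_K N h k‖ ≤ 1 := by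
  unfold g2_K
  split_ifs <;> simp

lemma g2_QForm {N M : ℕ} (hNM : N ≤ M) (t : ℝ) :
    QForm M (g2_K N) t = ((‖PP N (crit t)‖ ^ 2 : ℝ) : ℂ) := by
  have h1 := PP_sq_eq N 0 t
  have e0 : crit t - ((0:ℝ):ℂ) * I = crit t := by push_cast; ring
  rw [e0] at h1
  rw [h1]
  unfold QForm
  have hsub : Finset.Icc 1 N ⊆ Finset.Icc 1 M := Finset.Icc_subset_Icc le_rfl hNM
  rw [← Finset.sum_subset hsub]
  · refine Finset.sum_congr rfl fun h hh => ?_
    rw [← Finset.sum_subset hsub]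
    · refine Finset.sum_congr rfl fun k hk => ?_
      rw [Finset.mem_Icc] at hh hk
      unfold g2_K
      rw [if_pos ⟨hh.2, hk.2⟩]
      simp
    · intro k hk hk2
      rw [Finset.mem_Icc] at hk hk2
      unfold g2_K
      rw [if_neg (by omega), zero_mul, zero_mul]
  · intro h hh hh2
    rw [Finset.mem_Icc] at hh hh2
    refine Finset.sum_eq_zero fun k _ => ?_
    unfold g2_K
    rw [if_neg (by omega), zero_mul, zero_mul]

lemma g2_cl_cont {θ : ℝ} (hθ : 0 < θ) : ContinuousAt g1_cl θ := by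
  unfold g1_cl
  have a : ContinuousAt (fun x : ℝ => x ^ (5/4 : ℝ)) θ := Real.continuousAt_rpow_const _ _ (Or.inl hθ.ne')
  have b : ContinuousAt (fun x : ℝ => x ^ (9/4 : ℝ)) θ := Real.continuousAt_rpow_const _ _ (Or.inl hθ.ne')
  exact ((a.const_mul _).sub (b.const_mul _)).const_mul _

/-- The arithmetic form from below. -/
theorem g2_form {θ : ℝ} (hθ0 : 0 < θ) (hθ : θ ≤ 1/2) {c : ℝ} (hc : c < Aconst (3/2) * g1_cl θ) :
    ∀ᶠ T : ℝ in atTop, c * (Real.log T) ^ (9/4 : ℝ) ≤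
      ∑ h ∈ Finset.Icc 1 ⌊T ^ θ⌋₊, ∑ k ∈ Finset.Icc 1 ⌊T ^ θ⌋₊, gk h k * ell T h k := by
  have hA := Aconst_pos (κ := 3/2) (by norm_num)
  -- choose the inner cutoff
  obtain ⟨θ', h1, h2, h3⟩ : ∃ θ' : ℝ, 0 < θ' ∧ θ' < θ ∧ c < Aconst (3/2) * g1_cl θ' := by
    have hcont : ContinuousAt (fun x => Aconst (3/2) * g1_cl x) θ := (g2_cl_cont hθ0).const_mul _
    have e1 : ∀ᶠ x in 𝓝 θ, c < Aconst (3/2) * g1_cl x := hcont.eventually_const_lt hc
    have e2 : ∀ᶠ x in 𝓝[<] θ, c < Aconst (3/2) * g1_cl x := e1.filter_mono nhdsWithin_le_nhds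
    have e3 : ∀ᶠ x in 𝓝[<] θ, 0 < x := (lt_mem_nhds hθ0).filter_mono nhdsWithin_le_nhds
    obtain ⟨x, a, b, d⟩ := (e2.and (e3.and self_mem_nhdsWithin)).exists
    exact ⟨x, b, d, a⟩
  obtain ⟨f, hf⟩ : ∃ f : ℝ → ℝ, f = g1_tr θ' θ := ⟨_, rfl⟩
  have hfc : Continuous f := by rw [hf]; exact g1_tr_cont _ _
  have hf0 : ∀ x, 0 ≤ f x := fun x => by rw [hf]; exact g1_tr_nonneg _ _ _
  have hf1 : ∀ x, f x ≤ 1 := fun x => by rw [hf]; exact g1_tr_le_one _ _ _
  have hfone : ∀ x, x ≤ θ' → f x = 1 := fun x hx => by rw [hf]; exact g1_tr_one h2 hx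
  have hfz : ∀ x, θ ≤ x → f x = 0 := fun x hx => by rw [hf]; exact g1_tr_zero h2 hx
  have hIM := g1_IM_ge hfc hf0 (fun x hx => hfz x (by linarith)) h1 (by linarith) hfone
  have hlim := IM_limit hfc hfc (fun x hx => hfz x (by linarith)) (fun x hx => hfz x (by linarith))
  have hc' : c < Aconst (3/2) * IM f f := lt_of_lt_of_le h3 (mul_le_mul_of_nonneg_left hIM hA.le)
  have hev := hlim.eventually_const_lt hc'
  have hδ : Tendsto (fun T : ℝ => 1 / Real.log T) atTop (𝓝[>] 0) := by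
    rw [tendsto_nhdsWithin_iff]
    refine ⟨l4_inv, ?_⟩
    filter_upwards [Real.tendsto_log_atTop.eventually_gt_atTop 0] with T hT
    exact one_div_pos.mpr hT
  filter_upwards [hδ.eventually hev, Real.tendsto_log_atTop.eventually_gt_atTop 0, eventually_gt_atTop 1] with T hT hL hT1
  obtain ⟨L, hLd⟩ : ∃ L, L = Real.log T := ⟨_, rfl⟩
  rw [← hLd] at hT hL ⊢
  have hT0 : 0 < T := by linarith
  have hexp : Real.exp L = T := by rw [hLd, Real.exp_log hT0]
  have e1 : (1 / L) ^ (5/4 : ℝ) * L ^ (9/4 : ℝ) = L := by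
    rw [one_div, Real.inv_rpow hL.le, ← Real.rpow_neg hL.le, ← Real.rpow_add hL]
    norm_num
  have h5 : c * L ^ (9/4 : ℝ) ≤ L * ∑ h ∈ Finset.Icc 1 (MN (1 / L)), ∑ k ∈ Finset.Icc 1 (MN (1 / L)),
      gk h k * (f ((1 / L) * Real.log h) * f ((1 / L) * Real.log k)) *
        (1 - (1 / L) * Real.log h - (1 / L) * Real.log k + 2 * (1 / L) * Real.log (Nat.gcd h k)) := by
    calc c * L ^ (9/4 : ℝ) ≤ ((1 / L) ^ (5/4 : ℝ) * ∑ h ∈ Finset.Icc 1 (MN (1 / L)), ∑ k ∈ Finset.Icc 1 (MN (1 / L)),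
      gk h k * (f ((1 / L) * Real.log h) * f ((1 / L) * Real.log k)) *
        (1 - (1 / L) * Real.log h - (1 / L) * Real.log k + 2 * (1 / L) * Real.log (Nat.gcd h k))) * L ^ (9/4 : ℝ) := by
          apply mul_le_mul_of_nonneg_right hT.le (by positivity)
      _ = ((1 / L) ^ (5/4 : ℝ) * L ^ (9/4 : ℝ)) * ∑ h ∈ Finset.Icc 1 (MN (1 / L)), ∑ k ∈ Finset.Icc 1 (MN (1 / L)),
      gk h k * (f ((1 / L) * Real.log h) * f ((1 / L) * Real.log k)) *
        (1 - (1 / L) * Real.log h - (1 / L) * Real.log k + 2 * (1 / L) * Real.log (Nat.gcd h k)) := by ring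
      _ = _ := by rw [e1]
  refine h5.trans ?_
  -- the support
  obtain ⟨N, hN⟩ : ∃ N, N = ⌊T ^ θ⌋₊ := ⟨_, rfl⟩
  rw [← hN]
  have hNM : N ≤ MN (1 / L) := by
    unfold MN
    rw [hN, one_div_one_div, hexp]
    apply Nat.floor_le_floor
    calc T ^ θ ≤ T ^ (1:ℝ) := Real.rpow_le_rpow_of_exponent_le hT1.le (by linarith)
      _ = T := Real.rpow_one T
  have hzero : ∀ h : ℕ, N < h → f ((1 / L) * Real.log h) = 0 := by
    intro h hh
    apply hfz
    have h6 : T ^ θ < h := by rw [hN] at hh; exact (Nat.floor_lt (by positivity)).mp hh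
    have h7 := Real.log_le_log (by positivity) h6.le
    rw [Real.log_rpow hT0, ← hLd] at h7
    rw [one_div, inv_mul_eq_div, le_div_iff₀ hL]
    exact h7
  rw [l4_restrict hNM _ (fun h k hhk => by
    rcases hhk with hh | hk
    · rw [hzero h hh]; ring
    · rw [hzero k hk]; ring), Finset.mul_sum]
  refine Finset.sum_le_sum fun h hh => ?_
  rw [Finset.mul_sum]
  refine Finset.sum_le_sum fun k hk => ?_
  rw [Finset.mem_Icc] at hh hk
  have hlog : ∀ m : ℕ, 1 ≤ m → m ≤ N → Real.log m ≤ L / 2 := by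
    intro m m1 m2
    have a1 : (m:ℝ) ≤ T ^ θ := by
      have : (m:ℝ) ≤ N := by exact_mod_cast m2
      refine this.trans ?_
      rw [hN]; exact Nat.floor_le (by positivity)
    have a2 := Real.log_le_log (by exact_mod_cast m1) a1
    rw [Real.log_rpow hT0, ← hLd] at a2
    nlinarith
  have hg : 0 ≤ Real.log (Nat.gcd h k) := Real.log_natCast_nonneg _
  have hh0 : (0:ℝ) < h := by exact_mod_cast hh.1
  have hk0 : (0:ℝ) < k := by exact_mod_cast hk.1
  have hg0 : (0:ℝ) < Nat.gcd h k := by exact_mod_cast Nat.gcd_pos_of_pos_left _ hh.1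
  have hell : ell T h k = L - Real.log h - Real.log k + 2 * Real.log (Nat.gcd h k) := by
    unfold ell
    have e : Real.log (T * (Nat.gcd h k : ℝ) ^ 2 / ((h:ℝ) * k)) = L - Real.log h - Real.log k + 2 * Real.log (Nat.gcd h k) := by
      rw [Real.log_div (by positivity) (by positivity), Real.log_mul (by positivity) (by positivity),
        Real.log_mul (by positivity) (by positivity), Real.log_pow, hLd]
      push_cast; ring
    rw [e, max_eq_right]
    linarith [hlog h hh.1 hh.2, hlog k hk.1 hk.2]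
  have hell0 := q5a_ell_nonneg T h k
  have hgk := q5a_gk_nonneg h k
  have e2 : L * (gk h k * (f ((1 / L) * Real.log h) * f ((1 / L) * Real.log k)) *
        (1 - (1 / L) * Real.log h - (1 / L) * Real.log k + 2 * (1 / L) * Real.log (Nat.gcd h k))) = 
      (gk h k * ell T h k) * (f ((1 / L) * Real.log h) * f ((1 / L) * Real.log k)) := by
    rw [hell]
    have hLne : L ≠ 0 := hL.ne'
    field_simp
  rw [e2]
  apply mul_le_of_le_one_right (mul_nonneg hgk hell0)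
  exact mul_le_one₀ (hf1 _) (hf0 _) (hf1 _)

/-- The twisted second moment from below. -/
theorem g2_window {η : ℝ} (hη : 0 < η) {θ : ℝ} (hθ0 : 0 < θ) (hθ : θ ≤ 1/2) {c : ℝ} (hc : c < Aconst (3/2) * g1_cl θ) :
    ∀ᶠ p : ℝ × ℝ in Fl η, c * (Real.log p.1) ^ (9/4 : ℝ) ≤
      ∫ t in win p.2, ‖riemannZeta (crit t)‖ ^ 2 * ‖PP ⌊p.1 ^ θ⌋₊ (crit t)‖ ^ 2 ∂(gaussianReal p.2 (vw p.1)) := by
  obtain ⟨c', h1, h2⟩ := exists_between hc
  obtain ⟨C, hC, hQ⟩ := qform_mean hη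
  have hlog : Tendsto (fun p : ℝ × ℝ => Real.log p.1) (Fl η) atTop := Real.tendsto_log_atTop.comp (Fl_fst η)
  have hsmall : ∀ᶠ p : ℝ × ℝ in Fl η, C * (Real.log p.1) ^ (2 + 1/8 : ℝ) ≤ (c' - c) * (Real.log p.1) ^ (9/4 : ℝ) := by
    have e1 : Tendsto (fun p : ℝ × ℝ => (c' - c) * (Real.log p.1) ^ (1/8 : ℝ)) (Fl η) atTop :=
      ((tendsto_rpow_atTop (by norm_num)).comp hlog).const_mul_atTop (by linarith)
    filter_upwards [e1.eventually_ge_atTop C, hlog.eventually_gt_atTop 0] with p hp hL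
    have e2 : (Real.log p.1) ^ (9/4 : ℝ) = (Real.log p.1) ^ (2 + 1/8 : ℝ) * (Real.log p.1) ^ (1/8 : ℝ) := by
      rw [← Real.rpow_add hL]; norm_num
    have e3 : 0 ≤ (Real.log p.1) ^ (2 + 1/8 : ℝ) := by positivity
    rw [e2]
    calc C * (Real.log p.1) ^ (2 + 1/8 : ℝ) ≤ ((c' - c) * (Real.log p.1) ^ (1/8 : ℝ)) * (Real.log p.1) ^ (2 + 1/8 : ℝ) :=
          mul_le_mul_of_nonneg_right hp e3
      _ = _ := by ring
  filter_upwards [hQ, hsmall, (Fl_fst η).eventually (g2_form hθ0 hθ h2), (Fl_fst η).eventually l4_XN, 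
    (Fl_fst η).eventually par_XN_ge, (Fl_fst η).eventually (eventually_ge_atTop 2),
    (Fl_fst η).eventually (Real.tendsto_log_atTop.eventually_ge_atTop 1)] with p hp hsm hfo hX hXge hT2 hL1
  obtain ⟨N, hN⟩ : ∃ N, N = ⌊p.1 ^ θ⌋₊ := ⟨_, rfl⟩
  rw [← hN] at hfo ⊢
  have hNX : N ≤ XN p.1 := by
    rw [hN]
    unfold XN
    apply Nat.floor_le_floor
    calc p.1 ^ θ ≤ p.1 ^ (1/2 : ℝ) := Real.rpow_le_rpow_of_exponent_le (by linarith) hθ
      _ = p.1 ^ (1/2 : ℝ) * 1 := by ring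
      _ ≤ p.1 ^ (1/2 : ℝ) * (Real.log p.1) ^ (1/16 : ℝ) := by
          apply mul_le_mul_of_nonneg_left (Real.one_le_rpow hL1 (by norm_num))
          have : 0 < p.1 := by linarith
          positivity
  have h3 := hp (g2_K N) 1 (g2_norm_K N)
  rw [mul_one] at h3
  have e1 : (∫ t in win p.2, ((‖riemannZeta (crit t)‖ ^ 2 : ℝ) : ℂ) * QForm (XN p.1) (g2_K N) t ∂(gaussianReal p.2 (vw p.1))) =
      ((∫ t in win p.2, ‖riemannZeta (crit t)‖ ^ 2 * ‖PP N (crit t)‖ ^ 2 ∂(gaussianReal p.2 (vw p.1)) : ℝ) : ℂ) := by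
    rw [← integral_complex_ofReal]
    congr 1
    funext t
    rw [g2_QForm hNX]
    push_cast
    ring
  have e2 : ∑ h ∈ Finset.Icc 1 (XN p.1), ∑ k ∈ Finset.Icc 1 (XN p.1), g2_K N h k * ((gk h k * ell p.1 h k : ℝ) : ℂ) =
      ((∑ h ∈ Finset.Icc 1 N, ∑ k ∈ Finset.Icc 1 N, gk h k * ell p.1 h k : ℝ) : ℂ) := by
    have hsub : Finset.Icc 1 N ⊆ Finset.Icc 1 (XN p.1) := Finset.Icc_subset_Icc le_rfl hNX
    push_cast
    rw [← Finset.sum_subset hsub]
    · refine Finset.sum_congr rfl fun h hh => ?_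
      rw [← Finset.sum_subset hsub]
      · refine Finset.sum_congr rfl fun k hk => ?_
        rw [Finset.mem_Icc] at hh hk
        unfold g2_K
        rw [if_pos ⟨hh.2, hk.2⟩, one_mul]
      · intro k hk hk2
        rw [Finset.mem_Icc] at hk hk2
        unfold g2_K
        rw [if_neg (by omega), zero_mul]
    · intro h hh hh2
      rw [Finset.mem_Icc] at hh hh2
      refine Finset.sum_eq_zero fun k _ => ?_
      unfold g2_K
      rw [if_neg (by omega), zero_mul]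
  rw [e1, e2, ← Complex.ofReal_sub, Complex.norm_real, Real.norm_eq_abs] at h3
  have h4 := (abs_le.mp h3).1
  have h5 : c * (Real.log p.1) ^ (9/4 : ℝ) = c' * (Real.log p.1) ^ (9/4 : ℝ) - (c' - c) * (Real.log p.1) ^ (9/4 : ℝ) := by ring
  rw [h5]
  linarith

end Pool.Agent.LibM3
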