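import Pool.Agent.LibM3.G4

/-! Third moment, lower bound, block G5: the transfer to the full moment. -/

set_option autoImplicit false

namespace Pool.Agent.LibM3

open MeasureTheory Set Filter Topology Complex ProbabilityTheory
open scoped NNReal ComplexConjugate
open Pool.Agent.LibZM

lemma g5_avg {v : ℝ≥0} (hv : v ≠ 0) {h : ℝ → ℝ} (hc : Continuous h) (h0 : ∀ t, 0 ≤ h t) {α β T c ε : ℝ}
    (hαβ : α ≤ β) (hT : 0 ≤ T) (hε : 0 ≤ ε)
    (hcb : ∀ u ∈ Icc α β, c ≤ ∫ t in Icc 0 (2 * T), h t ∂(gaussianReal u v))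
    (hm : ∀ t, T < t → t ≤ 2 * T → ∫ u in Icc α β, gaussianPDFReal t v u ≤ ε) :
    c * (β - α) ≤ (∫ t in Icc 0 T, h t) + ε * ∫ t in Icc 0 (2 * T), h t := by
  have hcont : Continuous (Function.uncurry fun (u t : ℝ) => gaussianPDFReal u v t * h t) := by
    unfold Function.uncurry
    simp only [gaussianPDFReal_def]
    fun_prop
  have hint : Integrable (Function.uncurry fun (u t : ℝ) => gaussianPDFReal u v t * h t)
      ((volume.restrict (Icc α β)).prod (volume.restrict (Icc 0 (2 * T)))) := by
    rw [Measure.prod_restrict]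
    exact hcont.continuousOn.integrableOn_compact (μ := volume) (isCompact_Icc.prod isCompact_Icc)
  have e1 : ∀ u, ∫ t in Icc 0 (2 * T), gaussianPDFReal u v t * h t = ∫ t in Icc 0 (2 * T), h t ∂(gaussianReal u v) := by
    intro u
    rw [setIntegral_gaussian' hv u measurableSet_Icc]
  have hleft : c * (β - α) ≤ ∫ u in Icc α β, (∫ t in Icc 0 (2 * T), gaussianPDFReal u v t * h t) := by
    calc c * (β - α) = ∫ u in Icc α β, c := by
          rw [setIntegral_const, smul_eq_mul, measureReal_def, Real.volume_Icc, ENNReal.toReal_ofReal (by linarith)]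
          ring
      _ ≤ _ := by
          refine setIntegral_mono_on (by simp) hint.integral_prod_left measurableSet_Icc fun u hu => ?_
          rw [e1]
          exact hcb u hu
  refine hleft.trans ?_
  rw [integral_integral_swap hint]
  have hfi : IntegrableOn h (Icc 0 (2 * T)) := hc.continuousOn.integrableOn_compact isCompact_Icc
  have hind : IntegrableOn ((Icc 0 T).indicator h) (Icc 0 (2 * T)) := hfi.indicator measurableSet_Icc
  have e4 : ∫ t in Icc 0 (2 * T), (Icc 0 T).indicator h t = ∫ t in Icc 0 T, h t := by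
    rw [setIntegral_indicator measurableSet_Icc]
    congr 2
    ext x
    constructor
    · intro hx; exact hx.2
    · intro hx; exact ⟨⟨hx.1, by linarith [hx.2]⟩, hx⟩
  calc ∫ t in Icc 0 (2 * T), ∫ u in Icc α β, gaussianPDFReal u v t * h t 
      ≤ ∫ t in Icc 0 (2 * T), ((Icc 0 T).indicator h t + ε * h t) := by
        refine setIntegral_mono_on hint.integral_prod_right (hind.add (hfi.const_mul ε)) measurableSet_Icc fun t ht => ?_
        have e2 : ∫ u in Icc α β, gaussianPDFReal u v t * h t = (∫ u in Icc α β, gaussianPDFReal t v u) * h t := by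
          have e3 : ∀ u, gaussianPDFReal u v t * h t = gaussianPDFReal t v u * h t := fun u => by
            rw [pdf_symm v u t]
          simp_rw [e3]
          rw [integral_mul_const]
        rw [e2]
        rcases le_or_gt t T with h5 | h5
        · rw [indicator_of_mem (show t ∈ Icc 0 T from ⟨ht.1, h5⟩)]
          have h1 : ∫ u in Icc α β, gaussianPDFReal t v u ≤ 1 := by
            rw [← integral_gaussianPDFReal_eq_one t hv]
            exact setIntegral_le_integral (integrable_gaussianPDFReal t v)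
              (Eventually.of_forall fun u => gaussianPDFReal_nonneg t v u)
          have h2 : (∫ u in Icc α β, gaussianPDFReal t v u) * h t ≤ 1 * h t := mul_le_mul_of_nonneg_right h1 (h0 t)
          have h3 : 0 ≤ ε * h t := mul_nonneg hε (h0 t)
          linarith
        · rw [indicator_of_notMem (fun hcon => by linarith [hcon.2]), zero_add]
          exact mul_le_mul_of_nonneg_right (hm t h5 ht.2) (h0 t)
    _ = _ := by
        rw [integral_add hind (hfi.const_mul ε), e4, integral_const_mul]

/-- The lower bound of the third moment. -/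
theorem g5_main {c : ℝ} (hc0 : 0 < c) (hc : c < g4_C) :
    ∀ᶠ T : ℝ in atTop, c * (T * La3 T) ≤ ∫ t in Icc 0 T, ‖riemannZeta (crit t)‖ ^ 3 := by
  obtain ⟨c₁, hc1, hc2⟩ := exists_between hc
  have hc10 : 0 < c₁ := hc0.trans hc1
  obtain ⟨B, hB0, hB⟩ : ∃ B : ℝ, 0 < B ∧ ∀ᶠ T : ℝ in atTop, ∫ t in Icc 0 T, ‖riemannZeta (crit t)‖ ^ 3 ≤ B * (T * La3 T) :=
    ⟨2 * CI + 1, by linarith [f3_CI_nonneg], f6_main (by linarith)⟩
  obtain ⟨δ, hδ⟩ : ∃ δ : ℝ, δ = (c₁ - c) / (6 * c₁) := ⟨_, rfl⟩
  obtain ⟨ε, hε⟩ : ∃ ε : ℝ, ε = (c₁ - c) / (32 * B) := ⟨_, rfl⟩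
  have hδ0 : 0 < δ := by rw [hδ]; exact div_pos (by linarith) (by linarith)
  have hε0 : 0 < ε := by rw [hε]; exact div_pos (by linarith) (by linarith)
  have hδ1 : δ < 1/6 := by
    rw [hδ, div_lt_iff₀ (by linarith)]; linarith
  have hδe : 3 * δ * c₁ = (c₁ - c) / 2 := by rw [hδ]; field_simp; ring
  have hεe : 16 * ε * B = (c₁ - c) / 2 := by rw [hε]; field_simp; ring
  have k1 := Fl_iff.mp (g4_window hδ0 hc10 hc2)
  have k2 := f6_mass hδ0 hε0
  have k3 := (tendsto_id.const_mul_atTop (show (0:ℝ) < 2 by norm_num)).eventually hB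
  have k4 := La3_dilate (δ := 1) one_pos le_rfl
  filter_upwards [k1, k2, k3, k4, eventually_gt_atTop 1] with T h1 h2 h3 h4 hT
  have hT0 : 0 < T := by linarith
  have hLT := La3_pos hT
  have hv0 : 0 < vw T := by
    unfold vw
    exact Real.toNNReal_pos.2 (pow_pos (f6_Hw_pos hT) 2)
  have hδT : 0 < δ * T := by positivity
  simp only [id] at h3
  have hmain := g5_avg (v := vw T) hv0.ne' (h := fun t => ‖riemannZeta (crit t)‖ ^ 3) (continuous_zeta_crit.norm.pow 3)
    (fun t => pow_nonneg (norm_nonneg _) 3) (α := δ * T) (β := (1 - 2 * δ) * T) (T := T) (c := c₁ * La3 T) (ε := ε)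
    (by nlinarith) hT0.le hε0.le
    (by
      intro u hu
      refine (h1 u hu.1 (by nlinarith [hu.2])).trans ?_
      apply setIntegral_mono_set
      · exact ((continuous_zeta_crit.norm.pow 3).continuousOn).integrableOn_compact isCompact_Icc
      · exact Eventually.of_forall fun t => pow_nonneg (norm_nonneg _) 3
      · apply LE.le.eventuallyLE
        apply Icc_subset_Icc
        · linarith [hu.1]
        · nlinarith [hu.2])
    (by
      intro t ht1 ht2
      have s3 := mass_in t hv0 hδT
      have hdisj : Disjoint (Icc (δ * T) ((1 - 2 * δ) * T)) (Icc (t - δ * T) (t + δ * T)) := by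
        rw [Set.disjoint_left]
        intro x hx1 hx2
        have := hx1.2
        have := hx2.1
        nlinarith
      have hi := integrable_gaussianPDFReal t (vw T)
      have hun : (∫ u in Icc (δ * T) ((1 - 2 * δ) * T), gaussianPDFReal t (vw T) u) + 
          ∫ u in Icc (t - δ * T) (t + δ * T), gaussianPDFReal t (vw T) u ≤ 1 := by
        rw [← setIntegral_union hdisj measurableSet_Icc hi.integrableOn hi.integrableOn, ← integral_gaussianPDFReal_eq_one t hv0.ne']
        exact setIntegral_le_integral hi (Eventually.of_forall fun u => gaussianPDFReal_nonneg t (vw T) u)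
      linarith)
  have e1 : (1 - 2 * δ) * T - δ * T = (1 - 3 * δ) * T := by ring
  rw [e1] at hmain
  have h5 : ε * ∫ t in Icc 0 (2 * T), ‖riemannZeta (crit t)‖ ^ 3 ≤ (16 * ε * B) * (T * La3 T) := by
    have h4' : La3 (2 * T) ≤ 8 * La3 T := by
      have e : (1 + 1 : ℝ) * T = 2 * T := by ring
      rw [e] at h4
      norm_num at h4
      exact h4
    calc ε * ∫ t in Icc 0 (2 * T), ‖riemannZeta (crit t)‖ ^ 3 ≤ ε * (B * (2 * T * La3 (2 * T))) := by gcongr
      _ ≤ ε * (B * (2 * T * (8 * La3 T))) := by gcongr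
      _ = _ := by ring
  have h6 : c₁ * La3 T * ((1 - 3 * δ) * T) = (c₁ - 3 * δ * c₁) * (T * La3 T) := by ring
  rw [h6, hδe] at hmain
  rw [hεe] at h5
  have h7 : (c₁ - (c₁ - c) / 2) * (T * La3 T) - (c₁ - c) / 2 * (T * La3 T) = c * (T * La3 T) := by ring
  linarith

end Pool.Agent.LibM3
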