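import Pool.Agent.LibM3.Defs

/-! Third moment, block N3: Euler product bound. -/

set_option autoImplicit false

namespace Pool.Agent.LibM3

open MeasureTheory Set Filter Topology Complex ProbabilityTheory
open scoped NNReal ComplexConjugate
open Pool.Agent.LibZM

/-- `|1 * τ_{1/2} n^{iy}|²`. -/
noncomputable def fy (y : ℝ) (n : ℕ) : ℝ := ‖∑ h ∈ n.divisors, ((tau (1/2) h : ℝ) : ℂ) * cexp (((y * Real.log h : ℝ) : ℂ) * I)‖ ^ 2

/-- The twisted divisor function as an arithmetic function. -/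
noncomputable def n3_a (y : ℝ) : ArithmeticFunction ℂ :=
  ⟨fun n => ((tau (1/2) n : ℝ) : ℂ) * cexp (((y * Real.log n : ℝ) : ℂ) * I), by simp⟩

lemma n3_a_apply (y : ℝ) (n : ℕ) : n3_a y n = ((tau (1/2) n : ℝ) : ℂ) * cexp (((y * Real.log n : ℝ) : ℂ) * I) := rfl

lemma n3_a_mult (y : ℝ) : (n3_a y).IsMultiplicative := by
  refine ⟨?_, ?_⟩
  · rw [n3_a_apply, (tau_isMultiplicative (1/2)).map_one]
    simp
  · intro m n hmn
    rcases Nat.eq_zero_or_pos m with rfl | hm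
    · simp
    rcases Nat.eq_zero_or_pos n with rfl | hn
    · simp
    have hm0 : (m:ℝ) ≠ 0 := by exact_mod_cast hm.ne'
    have hn0 : (n:ℝ) ≠ 0 := by exact_mod_cast hn.ne'
    have e : (((y * Real.log ((m * n : ℕ) : ℝ) : ℝ)) : ℂ) * I =
        ((y * Real.log m : ℝ) : ℂ) * I + ((y * Real.log n : ℝ) : ℂ) * I := by
      rw [Nat.cast_mul, Real.log_mul hm0 hn0]
      push_cast
      ring
    rw [n3_a_apply, n3_a_apply, n3_a_apply, (tau_isMultiplicative (1/2)).map_mul_of_coprime hmn, e, Complex.exp_add,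
      Complex.ofReal_mul]
    ring

lemma n3_fy_eq (y : ℝ) (n : ℕ) : fy y n = ‖(n3_a y * (ArithmeticFunction.zeta : ArithmeticFunction ℂ)) n‖ ^ 2 := by
  rw [ArithmeticFunction.coe_mul_zeta_apply]
  rfl

lemma n3_mult (y : ℝ) : (n3_a y * (ArithmeticFunction.zeta : ArithmeticFunction ℂ)).IsMultiplicative :=
  (n3_a_mult y).mul ArithmeticFunction.isMultiplicative_zeta.natCast

lemma n3_conv (n : ℕ) : ∑ h ∈ n.divisors, tau (1/2) h = tau (3/2) n := by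
  have h1 : (tau (1/2) * tau 1) = tau (3/2) := by
    rw [tau_mul]; norm_num
  have h2 : (tau (1/2) * tau 1) n = ∑ h ∈ n.divisors, tau (1/2) h := by
    rw [ArithmeticFunction.mul_apply, Nat.sum_divisorsAntidiagonal (f := fun a b => tau (1/2) a * tau 1 b)]
    refine Finset.sum_congr rfl fun h hh => ?_
    have hd : n / h ≠ 0 := by
      have := Nat.pos_of_mem_divisors hh
      have h3 := Nat.divisor_le hh
      exact (Nat.div_pos h3 this).ne'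
    rw [tau_one_apply hd, mul_one]
  rw [← h2, h1]

lemma n3_fy_nonneg (y : ℝ) (n : ℕ) : 0 ≤ fy y n := sq_nonneg _

lemma n3_fy_le (y : ℝ) (n : ℕ) : fy y n ≤ tau (3/2) n ^ 2 := by
  unfold fy
  refine pow_le_pow_left₀ (norm_nonneg _) ?_ 2
  rw [← n3_conv]
  refine (norm_sum_le _ _).trans (Finset.sum_le_sum fun h _ => ?_)
  rw [norm_mul, Complex.norm_exp_ofReal_mul_I, mul_one, Complex.norm_real, Real.norm_eq_abs,
    abs_of_nonneg (tau_nonneg (by norm_num) _)]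

lemma n3_summable (y : ℝ) {σ : ℝ} (hσ : 1 < σ) : Summable (fun n : ℕ => fy y n * (n:ℝ) ^ (-σ)) := by
  refine Summable.of_nonneg_of_le (fun n => mul_nonneg (n3_fy_nonneg y n) (by positivity)) (fun n => ?_)
    (summable_tau_sq (κ := 3/2) (by norm_num) hσ)
  exact mul_le_mul_of_nonneg_right (n3_fy_le y n) (by positivity)

lemma n3_hasProd (y : ℝ) {σ : ℝ} (hσ : 1 < σ) :
    HasProd (fun p : Nat.Primes => ∑' k : ℕ, fy y ((p:ℕ) ^ k) * ((p:ℝ) ^ (-σ)) ^ k) (∑' n : ℕ, fy y n * (n:ℝ) ^ (-σ)) := by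
  have h := EulerProduct.eulerProduct_hasProd (R := ℝ) (f := fun n : ℕ => fy y n * (n:ℝ) ^ (-σ))
    (by
      rw [n3_fy_eq, (n3_mult y).map_one]
      simp)
    (by
      intro m n hmn
      rw [n3_fy_eq, (n3_mult y).map_mul_of_coprime hmn, n3_fy_eq, n3_fy_eq, norm_mul]
      push_cast
      rw [Real.mul_rpow (Nat.cast_nonneg _) (Nat.cast_nonneg _)]
      ring)
    (n3_summable y hσ).norm
    (by simp [fy])
  have e : (fun p : Nat.Primes => ∑' k : ℕ, fy y ((p:ℕ) ^ k) * ((p:ℝ) ^ (-σ)) ^ k) =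
      fun p : Nat.Primes => ∑' e : ℕ, fy y ((p:ℕ) ^ e) * (((p:ℕ) ^ e : ℕ) : ℝ) ^ (-σ) := by
    funext p
    congr 1
    funext k
    congr 1
    push_cast
    rw [← Real.rpow_natCast, ← Real.rpow_mul (Nat.cast_nonneg _), ← Real.rpow_natCast,
      ← Real.rpow_mul (Nat.cast_nonneg _)]
    congr 1
    ring
  rw [e]
  exact h

lemma n3_fy_prime (y : ℝ) {p : ℕ} (hp : p.Prime) : fy y p = 5/4 + Real.cos (y * Real.log p) := by
  have h1 : ∑ h ∈ p.divisors, ((tau (1/2) h : ℝ) : ℂ) * cexp (((y * Real.log h : ℝ) : ℂ) * I) =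
      1 + (1/2 : ℂ) * cexp (((y * Real.log p : ℝ) : ℂ) * I) := by
    rw [Nat.Prime.sum_divisors hp, (tau_isMultiplicative (1/2)).map_one]
    have h2 : tau (1/2) p = 1/2 := by
      have := tau_prime_pow (1/2) hp 1
      rwa [pow_one, dcoef_one_right] at this
    rw [h2]
    push_cast
    simp
    ring
  unfold fy
  rw [h1]
  generalize y * Real.log p = θ
  rw [← Complex.normSq_eq_norm_sq, Complex.normSq_apply]
  have hre : (1 + (1/2 : ℂ) * cexp ((θ : ℂ) * I)).re = 1 + 1/2 * Real.cos θ := by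
    have : (1/2 : ℂ) = ((1/2 : ℝ) : ℂ) := by push_cast; rfl
    rw [this, Complex.add_re, Complex.re_ofReal_mul, Complex.exp_ofReal_mul_I_re, Complex.one_re]
  have him : (1 + (1/2 : ℂ) * cexp ((θ : ℂ) * I)).im = 1/2 * Real.sin θ := by
    have : (1/2 : ℂ) = ((1/2 : ℝ) : ℂ) := by push_cast; rfl
    rw [this, Complex.add_im, Complex.im_ofReal_mul, Complex.exp_ofReal_mul_I_im, Complex.one_im, zero_add]
  rw [hre, him]
  nlinarith [Real.sin_sq_add_cos_sq θ]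

lemma n3_fy_one (y : ℝ) : fy y 1 = 1 := by
  rw [n3_fy_eq, (n3_mult y).map_one]
  simp

/-- Constant of the second order term. -/
noncomputable def n3_C : ℝ := ∑' k : ℕ, dcoef (3/2) (k+2) ^ 2 * (1/2:ℝ) ^ k

lemma n3_summable_C : Summable fun k : ℕ => dcoef (3/2) (k+2) ^ 2 * (1/2:ℝ) ^ k := by
  have h := (summable_nat_add_iff 2).2 (summable_G (κ := 3/2) (by norm_num) (z := 1/2) (by norm_num) (by norm_num))
  have h2 := h.mul_left 4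
  refine h2.congr fun k => ?_
  simp only [pow_add]
  ring

lemma n3_C_nonneg : 0 ≤ n3_C := tsum_nonneg fun k => by positivity

lemma n3_factor (y : ℝ) {σ : ℝ} (hσ : 1 < σ) (p : Nat.Primes) :
    ∑' k : ℕ, fy y ((p:ℕ) ^ k) * ((p:ℝ) ^ (-σ)) ^ k ≤
      Real.exp ((5/4 + Real.cos (y * Real.log (p:ℕ))) * (p:ℝ) ^ (-σ) + n3_C * ((p:ℝ) ^ (-σ)) ^ 2) := by
  obtain ⟨hz0, hz1, _⟩ := prime_rpow_mem hσ.le p
  set z : ℝ := (p:ℝ) ^ (-σ) with hz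
  have hle : ∀ k : ℕ, fy y ((p:ℕ) ^ k) * z ^ k ≤ dcoef (3/2) k ^ 2 * z ^ k := by
    intro k
    have := n3_fy_le y ((p:ℕ) ^ k)
    rw [tau_prime_pow _ p.prop] at this
    exact mul_le_mul_of_nonneg_right this (by positivity)
  have hs : Summable fun k : ℕ => fy y ((p:ℕ) ^ k) * z ^ k :=
    Summable.of_nonneg_of_le (fun k => mul_nonneg (n3_fy_nonneg _ _) (by positivity)) hle
      (summable_G (κ := 3/2) (by norm_num) hz0.le (by linarith))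
  rw [← hs.sum_add_tsum_nat_add 2]
  have h1 : ∑ i ∈ Finset.range 2, fy y ((p:ℕ) ^ i) * z ^ i = 1 + (5/4 + Real.cos (y * Real.log (p:ℕ))) * z := by
    rw [Finset.sum_range_succ, Finset.sum_range_one]
    rw [pow_zero, n3_fy_one, pow_one, pow_one, n3_fy_prime y p.prop]
    simp
  have h2 : ∑' k : ℕ, fy y ((p:ℕ) ^ (k+2)) * z ^ (k+2) ≤ n3_C * z ^ 2 := by
    have h3 : ∀ k : ℕ, fy y ((p:ℕ) ^ (k+2)) * z ^ (k+2) ≤ (dcoef (3/2) (k+2) ^ 2 * (1/2:ℝ) ^ k) * z ^ 2 := by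
      intro k
      refine (hle (k+2)).trans ?_
      rw [pow_add, mul_assoc]
      refine mul_le_mul_of_nonneg_left ?_ (by positivity)
      refine mul_le_mul_of_nonneg_right (pow_le_pow_left₀ hz0.le hz1 k) (by positivity)
    calc ∑' k : ℕ, fy y ((p:ℕ) ^ (k+2)) * z ^ (k+2) ≤ ∑' k : ℕ, (dcoef (3/2) (k+2) ^ 2 * (1/2:ℝ) ^ k) * z ^ 2 :=
          Summable.tsum_le_tsum h3 ((summable_nat_add_iff 2).2 hs) (n3_summable_C.mul_right _)
      _ = n3_C * z ^ 2 := by rw [tsum_mul_right]; rfl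
  rw [h1]
  have h4 := Real.add_one_le_exp ((5/4 + Real.cos (y * Real.log (p:ℕ))) * z + n3_C * z ^ 2)
  linarith

lemma n3_norm_one_sub (w : ℂ) : ‖1 - w‖ ≤ Real.exp (-w.re + ‖w‖ ^ 2 / 2) := by
  have h1 : ‖1 - w‖ ^ 2 = 1 - 2 * w.re + ‖w‖ ^ 2 := by
    rw [← Complex.normSq_eq_norm_sq, ← Complex.normSq_eq_norm_sq, Complex.normSq_apply, Complex.normSq_apply]
    simp
    ring
  have h2 : ‖1 - w‖ ^ 2 ≤ Real.exp (-w.re + ‖w‖ ^ 2 / 2) ^ 2 := by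
    rw [h1, ← Real.exp_nat_mul]
    have := Real.add_one_le_exp (-2 * w.re + ‖w‖ ^ 2)
    refine le_trans (by linarith) (this.trans (le_of_eq ?_))
    congr 1
    push_cast
    ring
  exact le_of_sq_le_sq h2 (Real.exp_pos _).le

lemma n3_factor2 (y : ℝ) {σ : ℝ} (hσ : 1 < σ) (p : Nat.Primes) :
    ∑' k : ℕ, fy y ((p:ℕ) ^ k) * ((p:ℝ) ^ (-σ)) ^ k ≤
      Real.exp ((n3_C + 1) * (1 / (p:ℝ) ^ 2)) * ((‖(1 - (p:ℂ) ^ (-(σ:ℂ)))⁻¹‖ ^ (5/4:ℝ)) *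
        ‖(1 - (p:ℂ) ^ (-((σ:ℂ) + y * I)))⁻¹‖) := by
  refine (n3_factor y hσ p).trans ?_
  obtain ⟨hz0, hz1, hz2⟩ := prime_rpow_mem hσ.le p
  set z : ℝ := (p:ℝ) ^ (-σ) with hz
  have hp0 : (0:ℝ) < (p:ℕ) := by exact_mod_cast p.prop.pos
  have hp0' : ((p:ℕ):ℂ) ≠ 0 := by exact_mod_cast p.prop.ne_zero
  have hc1 : (p:ℂ) ^ (-(σ:ℂ)) = (z:ℂ) := by
    rw [hz, Complex.ofReal_cpow (by positivity)]
    push_cast
    rfl
  have hc2 : (p:ℂ) ^ (-((σ:ℂ) + y * I)) = z * cexp (((-(y * Real.log (p:ℕ)) : ℝ) : ℂ) * I) := by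
    rw [neg_add, Complex.cpow_add _ _ hp0', hc1]
    congr 1
    rw [Complex.cpow_def_of_ne_zero hp0', ← Complex.ofReal_natCast, ← Complex.ofReal_log hp0.le]
    congr 1
    push_cast
    ring
  set w : ℂ := z * cexp (((-(y * Real.log (p:ℕ)) : ℝ) : ℂ) * I) with hw
  have hwre : w.re = z * Real.cos (y * Real.log (p:ℕ)) := by
    rw [hw, Complex.re_ofReal_mul, Complex.exp_ofReal_mul_I_re, Real.cos_neg]
  have hwn : ‖w‖ = z := by
    rw [hw, norm_mul, Complex.norm_exp_ofReal_mul_I, mul_one, Complex.norm_real, Real.norm_eq_abs, abs_of_pos hz0]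
  rw [hc1, hc2]
  have hne : 1 - w ≠ 0 := by
    intro h
    have h1 : w = 1 := (sub_eq_zero.1 h).symm
    have h2 : ‖w‖ = 1 := by rw [h1]; simp
    rw [hwn] at h2
    linarith
  have h1 : Real.exp (Real.cos (y * Real.log (p:ℕ)) * z) ≤ Real.exp (z ^ 2 / 2) * ‖(1 - w)⁻¹‖ := by
    rw [norm_inv]
    have h2 := n3_norm_one_sub w
    rw [hwre, hwn] at h2
    have h3 : 0 < ‖1 - w‖ := norm_pos_iff.2 hne
    rw [← div_eq_mul_inv, le_div_iff₀ h3]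
    calc Real.exp (Real.cos (y * Real.log (p:ℕ)) * z) * ‖1 - w‖
        ≤ Real.exp (Real.cos (y * Real.log (p:ℕ)) * z) * Real.exp (-(z * Real.cos (y * Real.log (p:ℕ))) + z ^ 2 / 2) :=
          mul_le_mul_of_nonneg_left h2 (Real.exp_pos _).le
      _ = Real.exp (z ^ 2 / 2) := by
          rw [← Real.exp_add]; congr 1; ring
  have h4 : Real.exp (5/4 * z) ≤ ‖(1 - (z:ℂ))⁻¹‖ ^ (5/4:ℝ) := by
    have h5 : ‖(1 - (z:ℂ))⁻¹‖ = (1 - z)⁻¹ := by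
      rw [norm_inv, ← Complex.ofReal_one, ← Complex.ofReal_sub, Complex.norm_real, Real.norm_eq_abs,
        abs_of_pos (by linarith)]
    rw [h5]
    have h6 : Real.exp z ≤ (1 - z)⁻¹ := by
      have h7 := Real.add_one_le_exp (-z)
      have h8 : 0 < 1 - z := by linarith
      rw [Real.exp_neg] at h7
      have h9 : 1 - z ≤ (Real.exp z)⁻¹ := by linarith
      have := inv_anti₀ h8 h9
      rwa [inv_inv] at this
    calc Real.exp (5/4 * z) = (Real.exp z) ^ (5/4:ℝ) := by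
          rw [← Real.exp_mul]; congr 1; ring
      _ ≤ _ := Real.rpow_le_rpow (Real.exp_pos _).le h6 (by norm_num)
  have h10 : z ^ 2 ≤ 1 / (p:ℝ) ^ 2 := by
    have : z ≤ ((p:ℕ):ℝ)⁻¹ := by rwa [Real.rpow_neg_one] at hz2
    calc z ^ 2 ≤ (((p:ℕ):ℝ)⁻¹) ^ 2 := pow_le_pow_left₀ hz0.le this 2
      _ = _ := by rw [inv_pow, one_div]
  have hC := n3_C_nonneg
  calc Real.exp ((5/4 + Real.cos (y * Real.log (p:ℕ))) * z + n3_C * z ^ 2)
      = Real.exp (n3_C * z ^ 2) * (Real.exp (5/4 * z) * Real.exp (Real.cos (y * Real.log (p:ℕ)) * z)) := by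
        rw [← Real.exp_add, ← Real.exp_add]; congr 1; ring
    _ ≤ Real.exp (n3_C * z ^ 2) * (‖(1 - (z:ℂ))⁻¹‖ ^ (5/4:ℝ) * (Real.exp (z ^ 2 / 2) * ‖(1 - w)⁻¹‖)) := by
        gcongr
    _ = Real.exp ((n3_C + 1/2) * z ^ 2) * (‖(1 - (z:ℂ))⁻¹‖ ^ (5/4:ℝ) * ‖(1 - w)⁻¹‖) := by
        rw [show (n3_C + 1/2) * z ^ 2 = n3_C * z ^ 2 + z ^ 2 / 2 by ring, Real.exp_add]
        ring
    _ ≤ _ := by
        refine mul_le_mul_of_nonneg_right ?_ (by positivity)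
        rw [Real.exp_le_exp]
        have : (n3_C + 1/2) * z ^ 2 ≤ (n3_C + 1) * z ^ 2 := by nlinarith [sq_nonneg z]
        exact this.trans (mul_le_mul_of_nonneg_left h10 (by linarith))

lemma n3_zeta_bound {s : ℂ} (hs : 1 < s.re) : ‖riemannZeta s‖ ≤ 1 / ‖s - 1‖ + 1 + 4 * ‖s‖ := by
  have hne : s ≠ 1 := by
    intro h
    rw [h] at hs
    simp at hs
  have h0 := norm_zeta1_le' (s := s) (by linarith)
  have h2 : s - 1 ≠ 0 := sub_ne_zero.mpr hne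
  have h1 : riemannZeta₁ s = (s - 1) * riemannZeta s := by
    rw [riemannZeta_eq_inv_sub_mul hne]
    field_simp
  rw [h1, norm_mul] at h0
  have h5 : 0 < ‖s - 1‖ := norm_pos_iff.2 h2
  have h6 : ‖riemannZeta s‖ ≤ (1 + ‖s - 1‖ * (1 + 4 * ‖s‖)) / ‖s - 1‖ := by
    rw [le_div_iff₀ h5]; linarith
  refine le_trans h6 (le_of_eq ?_)
  field_simp
  ring

lemma n3_tsum_le (y : ℝ) {σ : ℝ} (hσ : 1 < σ) :
    ∑' n : ℕ, fy y n * (n:ℝ) ^ (-σ) ≤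
      Real.exp ((n3_C + 1) * ∑' n : ℕ, 1 / (n:ℝ) ^ 2) * (‖riemannZeta (σ:ℂ)‖ ^ (5/4:ℝ) * ‖riemannZeta ((σ:ℂ) + y * I)‖) := by
  have h1 := n3_hasProd y hσ
  have hz1 := (riemannZeta_eulerProduct_hasProd (s := (σ:ℂ)) (by simpa using hσ)).norm
  have hz2 := (riemannZeta_eulerProduct_hasProd (s := (σ:ℂ) + y * I) (by simpa using hσ)).norm
  have hne : riemannZeta (σ:ℂ) ≠ 0 := riemannZeta_ne_zero_of_one_lt_re (by simpa using hσ)
  have hz3 := hasProd_rpow (fun p => norm_nonneg _) (norm_pos_iff.2 hne) (5/4) hz1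
  have hz4 := hz3.mul hz2
  have hz5 : Tendsto (fun S : Finset Nat.Primes => Real.exp ((n3_C + 1) * ∑' n : ℕ, 1 / (n:ℝ) ^ 2) *
      ∏ p ∈ S, (‖(1 - (p:ℂ) ^ (-(σ:ℂ)))⁻¹‖ ^ (5/4:ℝ) * ‖(1 - (p:ℂ) ^ (-((σ:ℂ) + y * I)))⁻¹‖)) atTop
      (𝓝 (Real.exp ((n3_C + 1) * ∑' n : ℕ, 1 / (n:ℝ) ^ 2) * (‖riemannZeta (σ:ℂ)‖ ^ (5/4:ℝ) * ‖riemannZeta ((σ:ℂ) + y * I)‖))) :=
    Tendsto.const_mul _ hz4
  refine le_of_tendsto_of_tendsto' (show Tendsto _ atTop (𝓝 _) from h1) hz5 fun S => ?_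
  have hC := n3_C_nonneg
  calc ∏ p ∈ S, ∑' k : ℕ, fy y ((p:ℕ) ^ k) * ((p:ℝ) ^ (-σ)) ^ k
      ≤ ∏ p ∈ S, (Real.exp ((n3_C + 1) * (1 / (p:ℝ) ^ 2)) * ((‖(1 - (p:ℂ) ^ (-(σ:ℂ)))⁻¹‖ ^ (5/4:ℝ)) *
        ‖(1 - (p:ℂ) ^ (-((σ:ℂ) + y * I)))⁻¹‖)) := by
        refine Finset.prod_le_prod (fun p _ => tsum_nonneg fun k => mul_nonneg (n3_fy_nonneg _ _) (by positivity))
          (fun p _ => n3_factor2 y hσ p)
    _ = Real.exp ((n3_C + 1) * ∑ p ∈ S, (1 / (p:ℝ) ^ 2)) * ∏ p ∈ S, (‖(1 - (p:ℂ) ^ (-(σ:ℂ)))⁻¹‖ ^ (5/4:ℝ) *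
        ‖(1 - (p:ℂ) ^ (-((σ:ℂ) + y * I)))⁻¹‖) := by
        rw [Finset.prod_mul_distrib, ← Real.exp_sum, Finset.mul_sum]
    _ ≤ _ := by
        refine mul_le_mul_of_nonneg_right ?_ (Finset.prod_nonneg fun p _ => by positivity)
        rw [Real.exp_le_exp]
        refine mul_le_mul_of_nonneg_left ?_ (by linarith)
        have hsum : Summable (fun n : ℕ => 1 / (n:ℝ) ^ 2) := Real.summable_one_div_nat_pow.2 (by norm_num)
        calc ∑ p ∈ S, 1 / (p:ℝ) ^ 2 = ∑ n ∈ S.map ⟨fun p : Nat.Primes => (p:ℕ), Subtype.val_injective⟩, 1 / (n:ℝ) ^ 2 := by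
              rw [Finset.sum_map]; rfl
          _ ≤ ∑' n : ℕ, 1 / (n:ℝ) ^ 2 := hsum.sum_le_tsum _ (fun n _ => by positivity)

theorem euler_bound : ∃ C : ℝ, 0 < C ∧ ∀ δ y : ℝ, 0 < δ → δ ≤ 1/2 →
    Summable (fun n : ℕ => fy y n * (n:ℝ) ^ (-(1 + δ))) ∧
    ∑' n : ℕ, fy y n * (n:ℝ) ^ (-(1 + δ)) ≤ C * δ ^ (-(5/4) : ℝ) * (1 / √(δ ^ 2 + y ^ 2) + 1 + |y|) := by
  refine ⟨Real.exp ((n3_C + 1) * ∑' n : ℕ, 1 / (n:ℝ) ^ 2) * ((9/2) ^ (5/4:ℝ) * 7), by positivity, fun δ y hδ hδ1 => ?_⟩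
  have hσ : 1 < 1 + δ := by linarith
  refine ⟨n3_summable y hσ, (n3_tsum_le y hσ).trans ?_⟩
  have h1 : ‖riemannZeta ((1 + δ : ℝ) : ℂ)‖ ≤ (9/2) * δ⁻¹ := by
    have h := n3_zeta_bound (s := ((1 + δ : ℝ) : ℂ)) (by simpa using hσ)
    have e1 : ‖((1 + δ : ℝ) : ℂ) - 1‖ = δ := by
      rw [← Complex.ofReal_one, ← Complex.ofReal_sub, Complex.norm_real, Real.norm_eq_abs]
      rw [show (1 + δ - 1) = δ by ring, abs_of_pos hδ]
    have e2 : ‖((1 + δ : ℝ) : ℂ)‖ = 1 + δ := by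
      rw [Complex.norm_real, Real.norm_eq_abs, abs_of_pos (by linarith)]
    rw [e1, e2] at h
    have h3 : 7 ≤ (7/2) * δ⁻¹ := by
      rw [← div_eq_mul_inv, le_div_iff₀ hδ]; linarith
    rw [one_div] at h
    linarith
  have h2 : ‖riemannZeta (((1 + δ : ℝ) : ℂ) + y * I)‖ ≤ 7 * (1 / √(δ ^ 2 + y ^ 2) + 1 + |y|) := by
    have h := n3_zeta_bound (s := ((1 + δ : ℝ) : ℂ) + y * I) (by simpa using hσ)
    have e1 : ‖((1 + δ : ℝ) : ℂ) + y * I - 1‖ = √(δ ^ 2 + y ^ 2) := by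
      have : ((1 + δ : ℝ) : ℂ) + y * I - 1 = (δ : ℂ) + y * I := by push_cast; ring
      rw [this, Complex.norm_add_mul_I]
    have e2 : ‖((1 + δ : ℝ) : ℂ) + y * I‖ ≤ (1 + δ) + |y| := by
      refine (norm_add_le _ _).trans (le_of_eq ?_)
      rw [Complex.norm_real, Real.norm_eq_abs, abs_of_pos (by linarith), norm_mul, Complex.norm_I, mul_one,
        Complex.norm_real, Real.norm_eq_abs]
    rw [e1] at h
    have h3 : 0 ≤ 1 / √(δ ^ 2 + y ^ 2) := by positivity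
    have h4 : 0 ≤ |y| := abs_nonneg y
    linarith
  have h3 : ‖riemannZeta ((1 + δ : ℝ) : ℂ)‖ ^ (5/4:ℝ) ≤ (9/2) ^ (5/4:ℝ) * δ ^ (-(5/4) : ℝ) := by
    refine (Real.rpow_le_rpow (norm_nonneg _) h1 (by norm_num)).trans (le_of_eq ?_)
    rw [Real.mul_rpow (by norm_num) (by positivity), Real.inv_rpow hδ.le, ← Real.rpow_neg hδ.le]
  calc Real.exp ((n3_C + 1) * ∑' n : ℕ, 1 / (n:ℝ) ^ 2) *
      (‖riemannZeta ((1 + δ : ℝ) : ℂ)‖ ^ (5/4:ℝ) * ‖riemannZeta (((1 + δ : ℝ) : ℂ) + y * I)‖)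
      ≤ Real.exp ((n3_C + 1) * ∑' n : ℕ, 1 / (n:ℝ) ^ 2) *
      (((9/2) ^ (5/4:ℝ) * δ ^ (-(5/4) : ℝ)) * (7 * (1 / √(δ ^ 2 + y ^ 2) + 1 + |y|))) := by
        gcongr
    _ = _ := by ring

end Pool.Agent.LibM3
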