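import Pool.Agent.LibM3.N2
import Pool.Agent.LibM3.N3

/-! Third moment, block N4: decorrelation near the diagonal. -/

set_option autoImplicit false

namespace Pool.Agent.LibM3

open MeasureTheory Set Filter Topology Complex ProbabilityTheory
open scoped NNReal ComplexConjugate
open Pool.Agent.LibZM

lemma n4_int_cos (x : ℝ) : IntegrableOn (fun v : ℝ => Real.exp (-v) * Real.cos (v * x)) (Ioi 0) := by
  refine (integrableOn_exp_neg_Ioi 0).mono' (by fun_prop) (Filter.Eventually.of_forall fun v => ?_)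
  rw [Real.norm_eq_abs, abs_mul, Real.abs_exp]
  exact mul_le_of_le_one_right (Real.exp_pos _).le (Real.abs_cos_le_one _)

lemma n4_cos (x : ℝ) : ∫ v in Ioi (0:ℝ), Real.exp (-v) * Real.cos (v * x) = (1 + x ^ 2)⁻¹ := by
  have ha : ((-1 : ℂ) + x * I).re < 0 := by simp
  have h1 := integral_exp_mul_complex_Ioi ha 0
  have h2 := integrableOn_exp_mul_complex_Ioi ha 0
  have h3 : ∀ v : ℝ, Real.exp (-v) * Real.cos (v * x) = RCLike.re (cexp (((-1 : ℂ) + x * I) * v)) := by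
    intro v
    have : ((-1 : ℂ) + x * I) * v = ((-v : ℝ) : ℂ) + ((v * x : ℝ) : ℂ) * I := by push_cast; ring
    rw [this, Complex.exp_add, ← Complex.ofReal_exp, RCLike.re_to_complex, Complex.re_ofReal_mul,
      Complex.exp_ofReal_mul_I_re]
  simp_rw [h3]
  rw [integral_re h2, h1]
  simp only [Complex.ofReal_zero, mul_zero, Complex.exp_zero, RCLike.re_to_complex]
  rw [neg_div, Complex.neg_re, Complex.div_re, Complex.normSq_apply]
  simp
  have : 1 + x * x ≠ 0 := by nlinarith [mul_self_nonneg x]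
  have h5 : 1 + x ^ 2 ≠ 0 := by nlinarith [mul_self_nonneg x]
  field_simp

lemma n4_fy_cos (y : ℝ) (n : ℕ) : fy y n =
    ∑ h ∈ n.divisors, ∑ k ∈ n.divisors, tau (1/2) h * tau (1/2) k * Real.cos (y * (Real.log h - Real.log k)) := by
  unfold fy
  rw [← Complex.normSq_eq_norm_sq, Complex.normSq_apply]
  have hre : (∑ h ∈ n.divisors, ((tau (1/2) h : ℝ) : ℂ) * cexp (((y * Real.log h : ℝ) : ℂ) * I)).re =
      ∑ h ∈ n.divisors, tau (1/2) h * Real.cos (y * Real.log h) := by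
    rw [Complex.re_sum]
    refine Finset.sum_congr rfl fun h _ => ?_
    rw [Complex.re_ofReal_mul, Complex.exp_ofReal_mul_I_re]
  have him : (∑ h ∈ n.divisors, ((tau (1/2) h : ℝ) : ℂ) * cexp (((y * Real.log h : ℝ) : ℂ) * I)).im =
      ∑ h ∈ n.divisors, tau (1/2) h * Real.sin (y * Real.log h) := by
    rw [Complex.im_sum]
    refine Finset.sum_congr rfl fun h _ => ?_
    rw [Complex.im_ofReal_mul, Complex.exp_ofReal_mul_I_im]
  rw [hre, him, Finset.sum_mul_sum, Finset.sum_mul_sum, ← Finset.sum_add_distrib]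
  refine Finset.sum_congr rfl fun h _ => ?_
  rw [← Finset.sum_add_distrib]
  refine Finset.sum_congr rfl fun k _ => ?_
  rw [mul_sub, Real.cos_sub]
  ring

lemma n4_cont_fy (n : ℕ) (M : ℝ) : Continuous fun v : ℝ => fy (v * M) n := by
  unfold fy
  fun_prop

lemma n4_fy_int (n : ℕ) (M : ℝ) : IntegrableOn (fun v : ℝ => Real.exp (-v) * fy (v * M) n) (Ioi 0) := by
  refine ((integrableOn_exp_neg_Ioi 0).mul_const (tau (3/2) n ^ 2)).mono'
    ((by fun_prop : Continuous fun v : ℝ => Real.exp (-v)).mul (n4_cont_fy n M)).aestronglyMeasurable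
    (Filter.Eventually.of_forall fun v => ?_)
  rw [Real.norm_eq_abs, abs_mul, Real.abs_exp, abs_of_nonneg (n3_fy_nonneg _ _)]
  exact mul_le_mul_of_nonneg_left (n3_fy_le _ _) (Real.exp_pos _).le

lemma n4_w_eq (n : ℕ) (M : ℝ) :
    ∑ h ∈ n.divisors, ∑ k ∈ n.divisors, tau (1/2) h * tau (1/2) k * (1 + M ^ 2 * (Real.log ((h:ℝ) / k)) ^ 2)⁻¹ =
      ∫ v in Ioi (0:ℝ), Real.exp (-v) * fy (v * M) n := by
  have h1 : ∀ v : ℝ, Real.exp (-v) * fy (v * M) n = ∑ h ∈ n.divisors, ∑ k ∈ n.divisors,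
      tau (1/2) h * tau (1/2) k * (Real.exp (-v) * Real.cos (v * (M * (Real.log h - Real.log k)))) := by
    intro v
    rw [n4_fy_cos, Finset.mul_sum]
    refine Finset.sum_congr rfl fun h _ => ?_
    rw [Finset.mul_sum]
    refine Finset.sum_congr rfl fun k _ => ?_
    rw [mul_assoc v M]
    ring
  simp_rw [h1]
  rw [integral_finsetSum _ (fun h _ => integrable_finsetSum _ fun k _ => (n4_int_cos _).const_mul _)]
  refine Finset.sum_congr rfl fun h hh => ?_
  rw [integral_finsetSum _ (fun k _ => (n4_int_cos _).const_mul _)]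
  refine Finset.sum_congr rfl fun k hk => ?_
  rw [integral_const_mul, n4_cos]
  have hh0 : (h:ℝ) ≠ 0 := by exact_mod_cast (Nat.pos_of_mem_divisors hh).ne'
  have hk0 : (k:ℝ) ≠ 0 := by exact_mod_cast (Nat.pos_of_mem_divisors hk).ne'
  rw [Real.log_div hh0 hk0, mul_pow]

lemma n4_kernel {δ M : ℝ} (hδ : 0 < δ) (hM : δ ≤ M) :
    IntegrableOn (fun v : ℝ => Real.exp (-v) * (δ + M * v)⁻¹) (Ioi 0) ∧
    ∫ v in Ioi (0:ℝ), Real.exp (-v) * (δ + M * v)⁻¹ ≤ (2 + Real.log (M / δ)) / M := by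
  have hM0 : 0 < M := lt_of_lt_of_le hδ hM
  have hint : IntegrableOn (fun v : ℝ => Real.exp (-v) * (δ + M * v)⁻¹) (Ioi 0) := by
    refine Integrable.mono' ((integrableOn_exp_neg_Ioi 0).mul_const (δ⁻¹)) (by fun_prop) ?_
    filter_upwards [ae_restrict_mem measurableSet_Ioi] with v hv
    have hv0 : 0 < v := hv
    rw [Real.norm_eq_abs, abs_mul, Real.abs_exp, abs_of_pos (by positivity)]
    refine mul_le_mul_of_nonneg_left ?_ (Real.exp_pos _).le
    exact inv_anti₀ hδ (by nlinarith)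
  refine ⟨hint, ?_⟩
  have hsplit : Ioi (0:ℝ) = Ioc 0 1 ∪ Ioi 1 := by
    rw [Ioc_union_Ioi_eq_Ioi zero_le_one]
  have hdisj : Disjoint (Ioc (0:ℝ) 1) (Ioi 1) := by
    rw [Set.disjoint_left]
    intro x hx hx'
    exact absurd hx.2 (not_le.2 hx')
  rw [hsplit, setIntegral_union hdisj measurableSet_Ioi (hint.mono_set Ioc_subset_Ioi_self)
    (hint.mono_set (Ioi_subset_Ioi zero_le_one))]
  have h1 : ∫ v in Ioc (0:ℝ) 1, Real.exp (-v) * (δ + M * v)⁻¹ ≤ (1 / M) * Real.log ((δ + M) / δ) := by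
    have hcont : ContinuousOn (fun v : ℝ => (δ + M * v)⁻¹) (Icc 0 1) := by
      refine ContinuousOn.inv₀ (by fun_prop) fun v hv => ?_
      have := hv.1
      positivity
    have hi : IntegrableOn (fun v : ℝ => (δ + M * v)⁻¹) (Ioc 0 1) :=
      (hcont.integrableOn_Icc).mono_set Ioc_subset_Icc_self
    calc ∫ v in Ioc (0:ℝ) 1, Real.exp (-v) * (δ + M * v)⁻¹ ≤ ∫ v in Ioc (0:ℝ) 1, (δ + M * v)⁻¹ := by
          refine setIntegral_mono_on (hint.mono_set Ioc_subset_Ioi_self) hi measurableSet_Ioc fun v hv => ?_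
          have hv0 := hv.1
          refine mul_le_of_le_one_left (by positivity) ?_
          exact Real.exp_le_one_iff.2 (by linarith)
      _ = ∫ v in (0:ℝ)..1, (δ + M * v)⁻¹ := by rw [intervalIntegral.integral_of_le zero_le_one]
      _ = (1 / M) * Real.log ((δ + M) / δ) := by
          have e1 : ∀ v : ℝ, (δ + M * v)⁻¹ = (M * v + δ)⁻¹ := fun v => by rw [add_comm]
          simp_rw [e1]
          rw [intervalIntegral.integral_comp_mul_add (f := fun x => x⁻¹) hM0.ne' δ, integral_inv_of_pos (by linarith) (by linarith)]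
          simp
          left
          rw [add_comm]
  have h2 : ∫ v in Ioi (1:ℝ), Real.exp (-v) * (δ + M * v)⁻¹ ≤ 1 / M := by
    calc ∫ v in Ioi (1:ℝ), Real.exp (-v) * (δ + M * v)⁻¹ ≤ ∫ v in Ioi (1:ℝ), Real.exp (-v) * M⁻¹ := by
          refine setIntegral_mono_on (hint.mono_set (Ioi_subset_Ioi zero_le_one))
            ((integrableOn_exp_neg_Ioi 1).mul_const _) measurableSet_Ioi fun v hv => ?_
          have hv0 : 1 < v := hv
          refine mul_le_mul_of_nonneg_left ?_ (Real.exp_pos _).le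
          exact inv_anti₀ hM0 (by nlinarith)
      _ = Real.exp (-1) * M⁻¹ := by
          rw [integral_mul_const, integral_exp_neg_Ioi]
      _ ≤ 1 / M := by
          rw [one_div]
          exact mul_le_of_le_one_left (by positivity) (Real.exp_le_one_iff.2 (by norm_num))
  have h3 : Real.log ((δ + M) / δ) ≤ 1 + Real.log (M / δ) := by
    have : (δ + M) / δ ≤ 2 * (M / δ) := by
      rw [← mul_div_assoc]
      exact div_le_div_of_nonneg_right (by linarith) hδ.le
    refine (Real.log_le_log (by positivity) this).trans ?_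
    rw [Real.log_mul (by norm_num) (by positivity)]
    have := Real.log_two_lt_d9
    linarith
  calc _ ≤ (1 / M) * Real.log ((δ + M) / δ) + 1 / M := add_le_add h1 h2
    _ ≤ (1 / M) * (1 + Real.log (M / δ)) + 1 / M := by gcongr
    _ = _ := by ring

lemma n4_sqrt {δ M v : ℝ} (hδ : 0 < δ) (hM : 0 < M) (hv : 0 < v) : 1 / √(δ ^ 2 + (v * M) ^ 2) ≤ 2 * (δ + M * v)⁻¹ := by
  rw [← div_eq_mul_inv, div_le_div_iff₀ (by positivity) (by positivity), one_mul]
  have h1 : (δ + M * v) ^ 2 ≤ (2 * √(δ ^ 2 + (v * M) ^ 2)) ^ 2 := by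
    rw [mul_pow, Real.sq_sqrt (by positivity)]
    nlinarith [sq_nonneg (δ - M * v)]
  exact le_of_sq_le_sq h1 (by positivity)

lemma n4_int_v : IntegrableOn (fun v : ℝ => Real.exp (-v) * v) (Ioi 0) ∧ ∫ v in Ioi (0:ℝ), Real.exp (-v) * v = 1 := by
  have h1 := Real.GammaIntegral_convergent (s := 2) (by norm_num)
  have h2 := Real.Gamma_eq_integral (s := 2) (by norm_num)
  have e : ∀ v : ℝ, Real.exp (-v) * v ^ ((2:ℝ) - 1) = Real.exp (-v) * v := by
    intro v
    norm_num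
  simp only [e] at h1 h2
  exact ⟨h1, by rw [← h2, Real.Gamma_two]⟩

/-- Use `1/(1+x²) = (1/2) ∫ exp(-|v|) exp(i v x) dv`, `sum_gk_unfold` with `w h k = 1/(1+M² log²(h/k))`, `n⁻¹ ≤ e³ n^{-1-1/log N}` for `n ≤ N³`
and `euler_bound`. -/
theorem near_diag : ∃ C : ℝ, 0 < C ∧ ∀ N : ℕ, 8 ≤ N → ∀ M : ℝ, 1 / Real.log N ≤ M →
    ∑ h ∈ Finset.Icc 1 N, ∑ k ∈ Finset.Icc 1 N, gk h k * (1 + M ^ 2 * (Real.log ((h:ℝ) / k)) ^ 2)⁻¹ ≤
      C * (Real.log N) ^ (1/4 : ℝ) * ((1 + Real.log (M * Real.log N)) / M + 1 + M) := by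
  obtain ⟨C, hC, hCb⟩ := euler_bound
  refine ⟨Real.exp 3 * C * 4, by positivity, fun N hN M hM => ?_⟩
  have hlN : 2 ≤ Real.log N := by
    have h8 : Real.log 8 ≤ Real.log N := Real.log_le_log (by norm_num) (by exact_mod_cast hN)
    have : Real.log 8 = 3 * Real.log 2 := by
      rw [show (8:ℝ) = 2 ^ 3 by norm_num, Real.log_pow]; norm_num
    linarith [Real.log_two_gt_d9]
  have hlN0 : 0 < Real.log N := by linarith
  set δ : ℝ := 1 / Real.log N with hδd
  have hδ : 0 < δ := by positivity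
  have hδ1 : δ ≤ 1/2 := by
    rw [hδd, div_le_div_iff₀ hlN0 (by norm_num)]; linarith
  have hM0 : 0 < M := lt_of_lt_of_le hδ hM
  have h1 := sum_gk_unfold N (fun h k => (1 + M ^ 2 * (Real.log ((h:ℝ) / k)) ^ 2)⁻¹) (fun h k => by positivity)
  simp only [n4_w_eq] at h1
  -- interchange
  have h2 : ∑ n ∈ Finset.Icc 1 (N ^ 3), (∫ v in Ioi (0:ℝ), Real.exp (-v) * fy (v * M) n) * (n:ℝ)⁻¹ =
      ∫ v in Ioi (0:ℝ), ∑ n ∈ Finset.Icc 1 (N ^ 3), (Real.exp (-v) * fy (v * M) n) * (n:ℝ)⁻¹ := by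
    rw [integral_finsetSum _ (fun n _ => (n4_fy_int n M).mul_const _)]
    refine Finset.sum_congr rfl fun n _ => ?_
    rw [integral_mul_const]
  rw [h2] at h1
  set K : ℝ := Real.exp 3 * (C * δ ^ (-(5/4) : ℝ)) with hK
  have hK0 : 0 < K := by positivity
  have hrk : ∀ n ∈ Finset.Icc 1 (N ^ 3), (n:ℝ)⁻¹ ≤ Real.exp 3 * (n:ℝ) ^ (-(1 + δ)) := by
    intro n hn
    obtain ⟨hn1, hnN⟩ := Finset.mem_Icc.1 hn
    have hn0 : (0:ℝ) < n := by exact_mod_cast hn1
    rw [neg_add, Real.rpow_add hn0, Real.rpow_neg_one]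
    have e1 : (n:ℝ) ^ (-δ) = Real.exp (-(Real.log n / Real.log N)) := by
      rw [Real.rpow_def_of_pos hn0, hδd]
      congr 1
      ring
    rw [e1]
    have e2 : Real.log n / Real.log N ≤ 3 := by
      rw [div_le_iff₀ hlN0]
      have : Real.log n ≤ Real.log ((N ^ 3 : ℕ) : ℝ) := Real.log_le_log hn0 (by exact_mod_cast hnN)
      rw [Nat.cast_pow, Real.log_pow] at this
      exact_mod_cast this
    have e3 : 1 ≤ Real.exp 3 * Real.exp (-(Real.log n / Real.log N)) := by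
      rw [← Real.exp_add]
      exact Real.one_le_exp (by linarith)
    have e4 : 0 ≤ (n:ℝ)⁻¹ := by positivity
    nlinarith [mul_le_mul_of_nonneg_left e3 e4]
  have h3 : ∀ v ∈ Ioi (0:ℝ), ∑ n ∈ Finset.Icc 1 (N ^ 3), (Real.exp (-v) * fy (v * M) n) * (n:ℝ)⁻¹ ≤
      K * (2 * (Real.exp (-v) * (δ + M * v)⁻¹) + (Real.exp (-v) + M * (Real.exp (-v) * v))) := by
    intro v hv
    have hv0 : 0 < v := hv
    obtain ⟨hs, hb⟩ := hCb δ (v * M) hδ hδ1
    calc ∑ n ∈ Finset.Icc 1 (N ^ 3), (Real.exp (-v) * fy (v * M) n) * (n:ℝ)⁻¹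
        ≤ ∑ n ∈ Finset.Icc 1 (N ^ 3), (Real.exp (-v) * Real.exp 3) * (fy (v * M) n * (n:ℝ) ^ (-(1 + δ))) := by
          refine Finset.sum_le_sum fun n hn => ?_
          have := mul_le_mul_of_nonneg_left (hrk n hn) (mul_nonneg (Real.exp_pos (-v)).le (n3_fy_nonneg (v * M) n))
          calc _ ≤ _ := this
            _ = _ := by ring
      _ = (Real.exp (-v) * Real.exp 3) * ∑ n ∈ Finset.Icc 1 (N ^ 3), (fy (v * M) n * (n:ℝ) ^ (-(1 + δ))) := by
          rw [Finset.mul_sum]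
      _ ≤ (Real.exp (-v) * Real.exp 3) * (C * δ ^ (-(5/4) : ℝ) * (1 / √(δ ^ 2 + (v * M) ^ 2) + 1 + |v * M|)) := by
          refine mul_le_mul_of_nonneg_left (le_trans ?_ hb) (by positivity)
          exact hs.sum_le_tsum _ (fun n _ => mul_nonneg (n3_fy_nonneg _ _) (by positivity))
      _ ≤ (Real.exp (-v) * Real.exp 3) * (C * δ ^ (-(5/4) : ℝ) * (2 * (δ + M * v)⁻¹ + 1 + v * M)) := by
          have e1 := n4_sqrt hδ hM0 hv0
          rw [abs_of_pos (by positivity : 0 < v * M)]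
          gcongr
      _ = _ := by rw [hK]; ring
  obtain ⟨hi1, hb1⟩ := n4_kernel hδ hM
  obtain ⟨hi2, hb2⟩ := n4_int_v
  have hi3 := integrableOn_exp_neg_Ioi 0
  have h4 : ∫ v in Ioi (0:ℝ), ∑ n ∈ Finset.Icc 1 (N ^ 3), (Real.exp (-v) * fy (v * M) n) * (n:ℝ)⁻¹ ≤
      K * (2 * ((2 + Real.log (M / δ)) / M) + (1 + M)) := by
    calc _ ≤ ∫ v in Ioi (0:ℝ), K * (2 * (Real.exp (-v) * (δ + M * v)⁻¹) + (Real.exp (-v) + M * (Real.exp (-v) * v))) := by
          refine setIntegral_mono_on (integrable_finsetSum _ fun n _ => (n4_fy_int n M).mul_const _)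
            (((hi1.const_mul 2).add (hi3.add (hi2.const_mul M))).const_mul K) measurableSet_Ioi h3
      _ = K * (2 * (∫ v in Ioi (0:ℝ), (Real.exp (-v) * (δ + M * v)⁻¹)) + (1 + M)) := by
          have f1 : ∫ v in Ioi (0:ℝ), (2 * (Real.exp (-v) * (δ + M * v)⁻¹) + (Real.exp (-v) + M * (Real.exp (-v) * v))) =
              (∫ v in Ioi (0:ℝ), 2 * (Real.exp (-v) * (δ + M * v)⁻¹)) +
              ∫ v in Ioi (0:ℝ), (Real.exp (-v) + M * (Real.exp (-v) * v)) :=
            integral_add (hi1.const_mul 2) (hi3.add (hi2.const_mul M))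
          have f2 : ∫ v in Ioi (0:ℝ), (Real.exp (-v) + M * (Real.exp (-v) * v)) =
              (∫ v in Ioi (0:ℝ), Real.exp (-v)) + ∫ v in Ioi (0:ℝ), M * (Real.exp (-v) * v) :=
            integral_add hi3 (hi2.const_mul M)
          rw [integral_const_mul, f1, f2, integral_const_mul, integral_const_mul, hb2, integral_exp_neg_Ioi_zero, mul_one]
      _ ≤ _ := by gcongr
  have h5 := h1.trans h4
  have e5 : M / δ = M * Real.log N := by rw [hδd]; field_simp
  have e6 : δ ^ (-(5/4) : ℝ) = Real.log N ^ (1/4:ℝ) * Real.log N := by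
    rw [hδd, one_div, Real.inv_rpow hlN0.le, ← Real.rpow_neg hlN0.le, neg_neg, ← Real.rpow_add_one hlN0.ne']
    norm_num
  rw [e5] at h5
  have hlog : 0 ≤ Real.log (M * Real.log N) := by
    refine Real.log_nonneg ?_
    rw [hδd, div_le_iff₀ hlN0] at hM
    exact hM
  have h6 : 2 * ((2 + Real.log (M * Real.log N)) / M) + (1 + M) ≤ 4 * ((1 + Real.log (M * Real.log N)) / M + 1 + M) := by
    have e7 : (2 + Real.log (M * Real.log N)) / M ≤ 2 * ((1 + Real.log (M * Real.log N)) / M) := by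
      rw [← mul_div_assoc]
      exact div_le_div_of_nonneg_right (by linarith) hM0.le
    linarith
  have h7 : Real.log N * ∑ h ∈ Finset.Icc 1 N, ∑ k ∈ Finset.Icc 1 N, gk h k * (1 + M ^ 2 * (Real.log ((h:ℝ) / k)) ^ 2)⁻¹ ≤
      Real.log N * (Real.exp 3 * C * 4 * Real.log N ^ (1/4:ℝ) * ((1 + Real.log (M * Real.log N)) / M + 1 + M)) := by
    refine h5.trans ?_
    refine (mul_le_mul_of_nonneg_left h6 hK0.le).trans (le_of_eq ?_)
    rw [hK, e6]
    ring
  exact le_of_mul_le_mul_left h7 hlN0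

end Pool.Agent.LibM3
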