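import Pool.Agent.LibM3.Defs

/-! Third moment: elementary facts about the parameters. -/

set_option autoImplicit false

namespace Pool.Agent.LibM3

open MeasureTheory Set Filter Topology Complex ProbabilityTheory
open scoped NNReal ComplexConjugate
open Pool.Agent.LibZM

lemma par_XN_le {T : ℝ} (hT : 1 ≤ T) : (XN T : ℝ) ≤ T ^ (1/2:ℝ) * (Real.log T) ^ (1/16:ℝ) :=
  Nat.floor_le (mul_nonneg (by positivity) (Real.rpow_nonneg (Real.log_nonneg hT) _))

lemma par_XN_ge : ∀ᶠ T : ℝ in atTop, T ^ (1/2:ℝ) * (Real.log T) ^ (1/16:ℝ) ≤ 2 * XN T := by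
  have h1 : ∀ᶠ T : ℝ in atTop, 1 ≤ Real.log T := Real.tendsto_log_atTop.eventually_ge_atTop 1
  filter_upwards [eventually_ge_atTop 1, h1] with T hT hL
  have h2 : (1:ℝ) ≤ T ^ (1/2:ℝ) := Real.one_le_rpow hT (by norm_num)
  have h3 : (1:ℝ) ≤ (Real.log T) ^ (1/16:ℝ) := Real.one_le_rpow hL (by norm_num)
  have h4 : (1:ℝ) ≤ T ^ (1/2:ℝ) * (Real.log T) ^ (1/16:ℝ) := one_le_mul_of_one_le_of_one_le h2 h3
  have h5 := Nat.lt_floor_add_one (T ^ (1/2:ℝ) * (Real.log T) ^ (1/16:ℝ))
  have h6 : 1 ≤ XN T := Nat.le_floor (by simpa using h4)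
  have h7 : (1:ℝ) ≤ XN T := by exact_mod_cast h6
  have h8 : T ^ (1/2:ℝ) * (Real.log T) ^ (1/16:ℝ) < (XN T : ℝ) + 1 := h5
  linarith

lemma par_log_XN : ∀ᶠ T : ℝ in atTop, 1/2 * Real.log T ≤ Real.log (XN T) ∧
    Real.log (XN T) ≤ 1/2 * Real.log T + 1/16 * Real.log (Real.log T) ∧ 8 ≤ XN T := by
  have h1 : ∀ᶠ T : ℝ in atTop, Real.exp (16 * Real.log 2) ≤ Real.log T := Real.tendsto_log_atTop.eventually_ge_atTop _
  have h1' : ∀ᶠ T : ℝ in atTop, 1 ≤ Real.log T := Real.tendsto_log_atTop.eventually_ge_atTop _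
  filter_upwards [eventually_ge_atTop 256, h1, h1', par_XN_ge] with T hT hL hL1 hX
  have hT0 : 0 < T := by linarith
  have hLp : 0 < Real.log T := by linarith
  have hlog := Real.log_le_log (Real.exp_pos _) hL
  rw [Real.log_exp] at hlog
  have hprod : Real.log (T ^ (1/2:ℝ) * (Real.log T) ^ (1/16:ℝ)) = 1/2 * Real.log T + 1/16 * Real.log (Real.log T) := by
    rw [Real.log_mul (by positivity) (by positivity), Real.log_rpow hT0, Real.log_rpow hLp]
  have hX1 : (0:ℝ) < XN T := by
    have : 0 < T ^ (1/2:ℝ) * (Real.log T) ^ (1/16:ℝ) := by positivity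
    linarith
  refine ⟨?_, ?_, ?_⟩
  · have := Real.log_le_log (by positivity) hX
    rw [hprod, Real.log_mul (by norm_num) hX1.ne'] at this
    linarith
  · have := Real.log_le_log hX1 (par_XN_le (by linarith))
    rwa [hprod] at this
  · apply Nat.le_floor
    have h2 : (16:ℝ) ≤ T ^ (1/2:ℝ) := by
      rw [← Real.sqrt_eq_rpow]
      apply Real.le_sqrt_of_sq_le
      linarith
    have h3 : (1:ℝ) ≤ (Real.log T) ^ (1/16:ℝ) := Real.one_le_rpow hL1 (by norm_num)
    push_cast
    nlinarith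

lemma par_tt {η : ℝ} (hη : 0 < η) : ∀ᶠ p : ℝ × ℝ in Fl η, ∀ t ∈ win p.2,
    0 ≤ tt t ∧ tt t ≤ Real.log (XN p.1) ∧ |tt t - 1/2 * Real.log p.1| ≤ |Real.log η| + 2 ∧ η / 2 * p.1 ≤ t ∧ t ≤ 2 * p.1 := by
  rw [Fl_iff]
  filter_upwards [par_log_XN, eventually_gt_atTop (4 * Real.pi / η), eventually_ge_atTop 1] with T hX hT hT1 u hu1 hu2 t ht
  have hT0 : 0 < T := by linarith
  have hu0 : 0 < u := lt_of_lt_of_le (by positivity) hu1
  obtain ⟨ht1, ht2⟩ := ht
  have ht0 : 0 < t := by linarith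
  have hpi := Real.pi_pos
  have hpi3 := Real.pi_gt_three
  have hpi4 := Real.pi_le_four
  have e1 : η / 2 * T ≤ t := by linarith
  have e2 : t ≤ 2 * T := by linarith
  have hηT : 4 * Real.pi < T * η := by rwa [div_lt_iff₀ hη] at hT
  have e3 : 1 ≤ t / (2 * Real.pi) := by
    rw [le_div_iff₀ (by positivity)]
    linarith
  refine ⟨div_nonneg (Real.log_nonneg e3) (by norm_num), ?_, ?_, e1, e2⟩
  · unfold tt
    have : Real.log (t / (2 * Real.pi)) ≤ Real.log T := by
      apply Real.log_le_log (by positivity)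
      rw [div_le_iff₀ (by positivity)]
      nlinarith
    linarith [hX.1]
  · unfold tt
    have h1 : Real.log (t / (2 * Real.pi)) - Real.log T ≤ 0 := by
      have : Real.log (t / (2 * Real.pi)) ≤ Real.log T := by
        apply Real.log_le_log (by positivity)
        rw [div_le_iff₀ (by positivity)]
        nlinarith
      linarith
    have h2 : Real.log η - 4 ≤ Real.log (t / (2 * Real.pi)) - Real.log T := by
      have h3 : Real.log (η * T * Real.exp (-4)) ≤ Real.log (t / (2 * Real.pi)) := by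
        apply Real.log_le_log (by positivity)
        rw [le_div_iff₀ (by positivity)]
        have h5 : Real.exp (-4) ≤ 1 / 16 := by
          rw [Real.exp_neg, inv_eq_one_div]
          apply one_div_le_one_div_of_le (by norm_num)
          have : (2:ℝ) ≤ Real.exp 1 := by linarith [Real.exp_one_gt_d9]
          calc (16:ℝ) = 2 ^ 4 := by norm_num
            _ ≤ (Real.exp 1) ^ 4 := by gcongr
            _ = Real.exp 4 := by rw [← Real.exp_nat_mul]; norm_num
        have h6 : Real.exp (-4) * (2 * Real.pi) ≤ 1/2 := by nlinarith [Real.exp_pos (-4)]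
        calc η * T * Real.exp (-4) * (2 * Real.pi) = (η * T) * (Real.exp (-4) * (2 * Real.pi)) := by ring
          _ ≤ (η * T) * (1/2) := by gcongr
          _ ≤ t := by linarith
      rw [Real.log_mul (by positivity) (Real.exp_pos _).ne', Real.log_mul hη.ne' hT0.ne', Real.log_exp] at h3
      linarith
    rw [abs_le]
    have h7 := neg_abs_le (Real.log η)
    constructor <;> linarith [abs_nonneg (Real.log η)]

end Pool.Agent.LibM3
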