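import Pool.Agent.LibM3.Q4
import Pool.Agent.LibM3.N4
import Pool.Agent.LibM3.Par

/-! Third moment, block Q5: bounds for the twisted second moments. -/

set_option autoImplicit false

namespace Pool.Agent.LibM3

open MeasureTheory Set Filter Topology Complex ProbabilityTheory
open scoped NNReal ComplexConjugate
open Pool.Agent.LibZM

lemma q5a_conj_crit (t : ℝ) : conj (crit t) = 1 - crit t := by
  unfold crit
  simp only [map_add, map_mul, map_div₀, map_one, conj_ofReal, conj_I]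
  rw [show (starRingEnd ℂ) 2 = 2 from Complex.conj_ofNat 2]
  ring

lemma q5a_cpow_shift {n : ℕ} (hn : 1 ≤ n) (s : ℂ) (y : ℝ) :
    (n:ℂ) ^ (-(s - (y:ℝ) * I)) = (n:ℂ) ^ (-s) * cexp (((y * Real.log n : ℝ) : ℂ) * I) := by
  have hn0 : (n:ℂ) ≠ 0 := by exact_mod_cast (by omega : n ≠ 0)
  rw [show -(s - (y:ℝ) * I) = -s + (y:ℝ) * I by ring, Complex.cpow_add _ _ hn0]
  congr 1
  rw [Complex.cpow_def_of_ne_zero hn0, ← Complex.natCast_log]
  congr 1
  push_cast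
  ring

/-- `|PP N (crit t - i y_j)|²` is the form with `K h k = exp(i y_j log(h/k))`. -/
theorem PP_sq_eq (N : ℕ) (y t : ℝ) :
    ((‖PP N (crit t - (y:ℝ) * I)‖ ^ 2 : ℝ) : ℂ) = QForm N (fun h k => cexp (((y * (Real.log h - Real.log k) : ℝ) : ℂ) * I)) t := by
  have h1 : ((‖PP N (crit t - (y:ℝ) * I)‖ ^ 2 : ℝ) : ℂ) = PP N (crit t - (y:ℝ) * I) * conj (PP N (crit t - (y:ℝ) * I)) := by
    rw [Complex.mul_conj, Complex.normSq_eq_norm_sq]
  rw [h1]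
  unfold PP dp QForm
  rw [map_sum, Finset.sum_mul_sum]
  apply Finset.sum_congr rfl
  intro h hh
  apply Finset.sum_congr rfl
  intro k hk
  rw [Finset.mem_Icc] at hh hk
  have eh : halfTrunc N h = tau (1/2) h := by rw [halfTrunc_apply, if_pos hh.2]
  have ek : halfTrunc N k = tau (1/2) k := by rw [halfTrunc_apply, if_pos hk.2]
  have hk0 : (k:ℂ) ≠ 0 := by exact_mod_cast (by omega : k ≠ 0)
  have hkarg : (k:ℂ).arg ≠ Real.pi := by
    rw [show (k:ℂ) = ((k:ℝ):ℂ) by simp, Complex.arg_ofReal_of_nonneg (by positivity)]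
    exact Real.pi_pos.ne
  have ec : conj ((k:ℂ) ^ (-(crit t - (y:ℝ) * I))) = (k:ℂ) ^ (-(1 - crit t)) * cexp (-(((y * Real.log k : ℝ) : ℂ) * I)) := by
    rw [q5a_cpow_shift hk.1, map_mul, ← Complex.exp_conj]
    congr 1
    · rw [← q5a_conj_crit t]
      have := Complex.cpow_conj (k:ℂ) (-(crit t)) hkarg
      rw [Complex.conj_natCast, map_neg] at this
      exact this.symm
    · congr 1
      rw [map_mul, conj_ofReal, conj_I]
      ring
  rw [map_mul, conj_ofReal, ec, q5a_cpow_shift hh.1, eh, ek]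
  have e3 : cexp (((y * (Real.log h - Real.log k) : ℝ) : ℂ) * I) = cexp (((y * Real.log h : ℝ) : ℂ) * I) * cexp (-(((y * Real.log k : ℝ) : ℂ) * I)) := by
    rw [← Complex.exp_add]
    congr 1
    push_cast
    ring
  beta_reduce
  rw [e3]
  push_cast
  ring

theorem Qj_nonneg (T u : ℝ) (j : ℤ) : 0 ≤ Qj T u j := by
  unfold Qj
  exact integral_nonneg fun t => by positivity

lemma q5a_re (y : ℝ) (a : ℝ) : (cexp (((y : ℝ) : ℂ) * I) * ((a : ℝ) : ℂ)).re = Real.cos y * a := by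
  rw [Complex.re_mul_ofReal, Complex.exp_ofReal_mul_I_re]

theorem Qj_eq {η : ℝ} (hη : 0 < η) : ∃ C : ℝ, 0 < C ∧ ∀ᶠ p : ℝ × ℝ in Fl η, ∀ j : ℤ,
    |Qj p.1 p.2 j - ∑ h ∈ Finset.Icc 1 (XN p.1), ∑ k ∈ Finset.Icc 1 (XN p.1),
      Real.cos (yj (XN p.1) j * (Real.log h - Real.log k)) * (gk h k * ell p.1 h k)| ≤ C * (Real.log p.1) ^ (2 + 1/8 : ℝ) := by
  obtain ⟨C, hC, hQ⟩ := qform_mean hη
  refine ⟨C, hC, ?_⟩
  filter_upwards [hQ] with p hp j
  have h1 := hp (fun h k => cexp (((yj (XN p.1) j * (Real.log h - Real.log k) : ℝ) : ℂ) * I)) 1 (fun h k => by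
    rw [Complex.norm_exp_ofReal_mul_I])
  rw [mul_one] at h1
  have h2 : (∫ t in win p.2, ((‖riemannZeta (crit t)‖ ^ 2 : ℝ) : ℂ) * 
      QForm (XN p.1) (fun h k => cexp (((yj (XN p.1) j * (Real.log h - Real.log k) : ℝ) : ℂ) * I)) t ∂(gaussianReal p.2 (vw p.1))) = 
      ((Qj p.1 p.2 j : ℝ) : ℂ) := by
    unfold Qj
    rw [← integral_complex_ofReal]
    congr 1
    funext t
    rw [← PP_sq_eq]
    push_cast
    ring
  rw [h2] at h1
  refine le_trans ?_ h1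
  refine le_trans (le_of_eq ?_) (Complex.abs_re_le_norm _)
  congr 1
  rw [Complex.sub_re, Complex.ofReal_re, Complex.re_sum]
  congr 1
  apply Finset.sum_congr rfl
  intro h _
  rw [Complex.re_sum]
  apply Finset.sum_congr rfl
  intro k _
  rw [q5a_re]

lemma q5a_gk_nonneg (h k : ℕ) : 0 ≤ gk h k := by
  unfold gk
  have h1 := tau_nonneg (α := 1/2) (by norm_num) h
  have h2 := tau_nonneg (α := 1/2) (by norm_num) k
  positivity

lemma q5a_ell_nonneg (T : ℝ) (h k : ℕ) : 0 ≤ ell T h k := le_max_left _ _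

lemma q5a_ell_le {T : ℝ} (hT : 1 ≤ T) {h k : ℕ} (hh : 1 ≤ h) (hk : 1 ≤ k) : ell T h k ≤ Real.log T := by
  unfold ell
  apply max_le (Real.log_nonneg hT)
  have h0 : (0:ℝ) < h := by exact_mod_cast hh
  have k0 : (0:ℝ) < k := by exact_mod_cast hk
  have hg : 0 < Nat.gcd h k := Nat.gcd_pos_of_pos_left _ hh
  have hg0 : (0:ℝ) < Nat.gcd h k := by exact_mod_cast hg
  have h1 : ((Nat.gcd h k : ℕ):ℝ) ≤ h := by exact_mod_cast Nat.gcd_le_left k hh
  have h2 : ((Nat.gcd h k : ℕ):ℝ) ≤ k := by exact_mod_cast Nat.gcd_le_right h hk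
  apply Real.log_le_log (by positivity)
  rw [div_le_iff₀ (by positivity)]
  have h3 : ((Nat.gcd h k : ℕ):ℝ) ^ 2 ≤ h * k := by
    rw [sq]
    exact mul_le_mul h1 h2 hg0.le h0.le
  exact mul_le_mul_of_nonneg_left h3 (by linarith)

theorem Qj_le {η : ℝ} (hη : 0 < η) : ∃ C : ℝ, 0 < C ∧ ∀ᶠ p : ℝ × ℝ in Fl η, ∀ j : ℤ,
    Qj p.1 p.2 j ≤ C * (Real.log p.1) ^ (9/4 : ℝ) := by
  obtain ⟨C, hC, hQ⟩ := Qj_eq hη
  obtain ⟨C₁, hC₁, hG⟩ := sum_gk_le
  refine ⟨C₁ * (2:ℝ) ^ (5/4:ℝ) + C, by positivity, ?_⟩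
  have hlog : Tendsto (fun p : ℝ × ℝ => Real.log p.1) (Fl η) atTop := Real.tendsto_log_atTop.comp (Fl_fst η)
  have hX := (Fl_fst η).eventually par_log_XN
  have hT1 := (Fl_fst η).eventually (eventually_ge_atTop (1:ℝ))
  filter_upwards [hQ, hlog.eventually_ge_atTop 16, hX, hT1] with p hp hL hXp hT j
  have hL0 : 0 < Real.log p.1 := by linarith
  have hll : Real.log (Real.log p.1) ≤ Real.log p.1 := Real.log_le_self hL0.le
  have h1 := (abs_le.1 (hp j)).2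
  have h2 : ∑ h ∈ Finset.Icc 1 (XN p.1), ∑ k ∈ Finset.Icc 1 (XN p.1),
      Real.cos (yj (XN p.1) j * (Real.log h - Real.log k)) * (gk h k * ell p.1 h k) ≤ 
      ∑ h ∈ Finset.Icc 1 (XN p.1), ∑ k ∈ Finset.Icc 1 (XN p.1), gk h k * Real.log p.1 := by
    apply Finset.sum_le_sum
    intro h hh
    apply Finset.sum_le_sum
    intro k hk
    rw [Finset.mem_Icc] at hh hk
    have g1 := q5a_gk_nonneg h k
    have g2 := q5a_ell_nonneg p.1 h k
    have g3 := q5a_ell_le hT hh.1 hk.1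
    calc Real.cos (yj (XN p.1) j * (Real.log h - Real.log k)) * (gk h k * ell p.1 h k) ≤ 1 * (gk h k * ell p.1 h k) :=
          mul_le_mul_of_nonneg_right (Real.cos_le_one _) (mul_nonneg g1 g2)
      _ = gk h k * ell p.1 h k := one_mul _
      _ ≤ gk h k * Real.log p.1 := mul_le_mul_of_nonneg_left g3 g1
  have h3 : ∑ h ∈ Finset.Icc 1 (XN p.1), ∑ k ∈ Finset.Icc 1 (XN p.1), gk h k * Real.log p.1 = 
      (∑ h ∈ Finset.Icc 1 (XN p.1), ∑ k ∈ Finset.Icc 1 (XN p.1), gk h k) * Real.log p.1 := by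
    rw [Finset.sum_mul]
    apply Finset.sum_congr rfl
    intro h _
    rw [Finset.sum_mul]
  have h4 := hG (XN p.1) (by omega)
  have h5 : 1 + Real.log (XN p.1) ≤ 2 * Real.log p.1 := by linarith [hXp.2.1]
  have h5' : 0 ≤ 1 + Real.log (XN p.1) := by
    have := Real.log_natCast_nonneg (XN p.1)
    linarith
  have h6 : (1 + Real.log (XN p.1)) ^ (5/4 : ℝ) ≤ (2:ℝ) ^ (5/4:ℝ) * (Real.log p.1) ^ (5/4:ℝ) := by
    rw [← Real.mul_rpow (by norm_num) hL0.le]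
    exact Real.rpow_le_rpow h5' h5 (by norm_num)
  have h7 : (Real.log p.1) ^ (5/4:ℝ) * Real.log p.1 = (Real.log p.1) ^ (9/4:ℝ) := by
    nth_rewrite 2 [← Real.rpow_one (Real.log p.1)]
    rw [← Real.rpow_add hL0]
    norm_num
  have h8 : (Real.log p.1) ^ (2 + 1/8 : ℝ) ≤ (Real.log p.1) ^ (9/4 : ℝ) :=
    Real.rpow_le_rpow_of_exponent_le (by linarith) (by norm_num)
  calc Qj p.1 p.2 j ≤ (∑ h ∈ Finset.Icc 1 (XN p.1), ∑ k ∈ Finset.Icc 1 (XN p.1), gk h k) * Real.log p.1 + C * (Real.log p.1) ^ (2 + 1/8 : ℝ) := by linarith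
    _ ≤ (C₁ * ((2:ℝ) ^ (5/4:ℝ) * (Real.log p.1) ^ (5/4:ℝ))) * Real.log p.1 + C * (Real.log p.1) ^ (9/4 : ℝ) := by
        have h9 := h4.trans (mul_le_mul_of_nonneg_left h6 hC₁.le)
        gcongr
    _ = (C₁ * (2:ℝ) ^ (5/4:ℝ)) * ((Real.log p.1) ^ (5/4:ℝ) * Real.log p.1) + C * (Real.log p.1) ^ (9/4 : ℝ) := by ring
    _ = _ := by rw [h7]; ring

theorem q5b_kernel (n : ℕ) (θ : ℝ) :
    (∑ a ∈ Finset.range n, ∑ b ∈ Finset.range n, cexp (((((a:ℝ) - b) * θ : ℝ) : ℂ) * I)) =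
      ((‖∑ a ∈ Finset.range n, cexp ((((a:ℝ) * θ : ℝ) : ℂ) * I)‖ ^ 2 : ℝ) : ℂ) := by
  rw [← Complex.normSq_eq_norm_sq, ← Complex.mul_conj, map_sum, Finset.sum_mul_sum]
  refine Finset.sum_congr rfl fun a _ => Finset.sum_congr rfl fun b _ => ?_
  rw [← Complex.exp_conj, ← Complex.exp_add]
  congr 1
  rw [map_mul, Complex.conj_ofReal, Complex.conj_I]
  push_cast
  ring

theorem q5b_bound {M : ℕ} (hM : 1 ≤ M) {θ : ℝ} (hθ : |θ| ≤ Real.pi) :
    ‖∑ a ∈ Finset.range (2 * M), cexp ((((a:ℝ) * θ : ℝ) : ℂ) * I)‖ ^ 2 ≤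
      20 * (M:ℝ) ^ 2 * (1 + (M:ℝ) ^ 2 * θ ^ 2)⁻¹ := by
  have hM' : (1:ℝ) ≤ M := by exact_mod_cast hM
  set S := ∑ a ∈ Finset.range (2 * M), cexp ((((a:ℝ) * θ : ℝ) : ℂ) * I) with hS
  have hpos : 0 < 1 + (M:ℝ) ^ 2 * θ ^ 2 := by positivity
  rw [← div_eq_mul_inv, le_div_iff₀ hpos]
  have h1 : ‖S‖ ≤ 2 * M := by
    refine (norm_sum_le _ _).trans ?_
    have : ∀ a ∈ Finset.range (2 * M), ‖cexp ((((a:ℝ) * θ : ℝ) : ℂ) * I)‖ = 1 := fun a _ =>
      Complex.norm_exp_ofReal_mul_I _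
    rw [Finset.sum_congr rfl this]
    simp
  have h1' : ‖S‖ ^ 2 ≤ (2 * M) ^ 2 := pow_le_pow_left₀ (norm_nonneg _) h1 2
  by_cases hMθ : (M:ℝ) ^ 2 * θ ^ 2 ≤ 1
  · have h2 : ‖S‖ ^ 2 * (1 + (M:ℝ) ^ 2 * θ ^ 2) ≤ (2 * M) ^ 2 * 2 :=
      mul_le_mul h1' (by linarith) hpos.le (by positivity)
    nlinarith
  · push Not at hMθ
    have hθ0 : θ ≠ 0 := by
      rintro rfl
      norm_num at hMθ
    have h3 : S * (cexp ((θ : ℂ) * I) - 1) = cexp ((θ : ℂ) * I) ^ (2 * M) - 1 := by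
      rw [hS, ← geom_sum_mul]
      congr 1
      refine Finset.sum_congr rfl fun a _ => ?_
      rw [← Complex.exp_nat_mul]
      congr 1
      push_cast
      ring
    have h4 : ‖cexp ((θ : ℂ) * I) ^ (2 * M) - 1‖ ≤ 2 := by
      refine (norm_sub_le _ _).trans ?_
      rw [norm_pow, Complex.norm_exp_ofReal_mul_I, one_pow, norm_one]
      norm_num
    have h5 : 2 * |θ| / Real.pi ≤ ‖cexp ((θ : ℂ) * I) - 1‖ := by
      have e1 : ‖cexp ((θ : ℂ) * I) - 1‖ = ‖2 * Real.sin (θ / 2)‖ := by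
        rw [mul_comm]
        exact Complex.norm_exp_I_mul_ofReal_sub_one θ
      rw [e1, Real.norm_eq_abs, abs_mul, abs_of_pos (by norm_num : (0:ℝ) < 2)]
      have e2 : |Real.sin (θ / 2)| = Real.sin (|θ| / 2) := by
        rcases abs_cases θ with ⟨h, h'⟩ | ⟨h, h'⟩
        · rw [h] at hθ ⊢
          exact abs_of_nonneg (Real.sin_nonneg_of_nonneg_of_le_pi (by linarith)
            (by linarith [Real.pi_pos]))
        · rw [h] at hθ ⊢
          have e3 : θ / 2 = -(-θ / 2) := by ring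
          rw [e3, Real.sin_neg, abs_neg]
          exact abs_of_nonneg (Real.sin_nonneg_of_nonneg_of_le_pi (by linarith)
            (by linarith [Real.pi_pos]))
      rw [e2]
      have e4 := Real.mul_le_sin (x := |θ| / 2) (by positivity) (by linarith)
      have e5 : 2 * |θ| / Real.pi = 2 * (2 / Real.pi * (|θ| / 2)) := by ring
      rw [e5]
      linarith
    have h6 : ‖S‖ * (2 * |θ| / Real.pi) ≤ 2 := by
      calc ‖S‖ * (2 * |θ| / Real.pi) ≤ ‖S‖ * ‖cexp ((θ : ℂ) * I) - 1‖ :=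
            mul_le_mul_of_nonneg_left h5 (norm_nonneg _)
        _ = ‖cexp ((θ : ℂ) * I) ^ (2 * M) - 1‖ := by rw [← norm_mul, h3]
        _ ≤ 2 := h4
    have h7 : ‖S‖ * |θ| ≤ Real.pi := by
      have hpi := Real.pi_pos
      have e : ‖S‖ * (2 * |θ| / Real.pi) = 2 * (‖S‖ * |θ|) / Real.pi := by ring
      rw [e, div_le_iff₀ hpi] at h6
      linarith
    have h8 : ‖S‖ ^ 2 * θ ^ 2 ≤ 10 := by
      have e1 : (‖S‖ * |θ|) ^ 2 ≤ Real.pi ^ 2 := pow_le_pow_left₀ (by positivity) h7 2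
      have e2 : (‖S‖ * |θ|) ^ 2 = ‖S‖ ^ 2 * θ ^ 2 := by rw [mul_pow, sq_abs]
      rw [e2] at e1
      have e3 : Real.pi ^ 2 ≤ 10 := by
        have := Real.pi_lt_d2
        have := Real.pi_pos
        nlinarith
      linarith
    have h9 : ‖S‖ ^ 2 * (1 + (M:ℝ) ^ 2 * θ ^ 2) ≤ ‖S‖ ^ 2 * (2 * ((M:ℝ) ^ 2 * θ ^ 2)) :=
      mul_le_mul_of_nonneg_left (by linarith) (by positivity)
    calc ‖S‖ ^ 2 * (1 + (M:ℝ) ^ 2 * θ ^ 2) ≤ ‖S‖ ^ 2 * (2 * ((M:ℝ) ^ 2 * θ ^ 2)) := h9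
      _ = 2 * (M:ℝ) ^ 2 * (‖S‖ ^ 2 * θ ^ 2) := by ring
      _ ≤ 2 * (M:ℝ) ^ 2 * 10 := mul_le_mul_of_nonneg_left h8 (by positivity)
      _ = 20 * (M:ℝ) ^ 2 := by ring

/-- Comparison of the sharp sum with the sum over pairs. -/
theorem q5b_pairs (M : ℕ) {Q : ℤ → ℝ} (hQ : ∀ j, 0 ≤ Q j) :
    (M:ℝ) * ∑ j ∈ Finset.Icc (-(M:ℤ)) M, Q j ≤
      ∑ a ∈ Finset.range (2 * M), ∑ b ∈ Finset.range (2 * M), Q ((a:ℤ) - b) := by
  classical
  set e : ℤ × ℕ → ℕ × ℕ := fun x => (x.2 + x.1.toNat, x.2 + (-x.1).toNat) with he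
  have hinj : Function.Injective e := by
    rintro ⟨j, c⟩ ⟨j', c'⟩ h
    simp only [he, Prod.mk.injEq] at h
    obtain ⟨h1, h2⟩ := h
    have : j = j' := by omega
    subst this
    simp only [Prod.mk.injEq, true_and]
    omega
  have h1 : (M:ℝ) * ∑ j ∈ Finset.Icc (-(M:ℤ)) M, Q j =
      ∑ x ∈ Finset.Icc (-(M:ℤ)) M ×ˢ Finset.range M, Q (((e x).1 : ℤ) - (e x).2) := by
    rw [Finset.sum_product, Finset.mul_sum]
    refine Finset.sum_congr rfl fun j _ => ?_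
    have : ∀ c ∈ Finset.range M, Q (((e (j, c)).1 : ℤ) - (e (j, c)).2) = Q j := by
      intro c _
      congr 1
      simp only [he]
      push_cast
      omega
    rw [Finset.sum_congr rfl this]
    simp
  have h2 : ∑ x ∈ Finset.Icc (-(M:ℤ)) M ×ˢ Finset.range M, Q (((e x).1 : ℤ) - (e x).2) =
      ∑ y ∈ (Finset.Icc (-(M:ℤ)) M ×ˢ Finset.range M).image e, Q ((y.1 : ℤ) - y.2) := by
    rw [Finset.sum_image fun x _ y _ h => hinj h]
  rw [h1, h2, ← Finset.sum_product (s := Finset.range (2 * M)) (t := Finset.range (2 * M))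
    (f := fun y : ℕ × ℕ => Q ((y.1 : ℤ) - y.2))]
  refine Finset.sum_le_sum_of_subset_of_nonneg ?_ fun y _ _ => hQ _
  intro y hy
  obtain ⟨⟨j, c⟩, hx, rfl⟩ := Finset.mem_image.1 hy
  rw [Finset.mem_product, Finset.mem_Icc, Finset.mem_range] at hx
  rw [Finset.mem_product, Finset.mem_range, Finset.mem_range]
  simp only [he] at hx ⊢
  constructor <;> omega

theorem q5b_QForm_sum (N n : ℕ) (F : ℕ → ℕ → ℕ → ℕ → ℂ) (t : ℝ) :
    QForm N (fun h k => ∑ a ∈ Finset.range n, ∑ b ∈ Finset.range n, F a b h k) t =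
      ∑ a ∈ Finset.range n, ∑ b ∈ Finset.range n, QForm N (F a b) t := by
  unfold QForm
  have h1 : ∀ h k : ℕ, (∑ a ∈ Finset.range n, ∑ b ∈ Finset.range n, F a b h k) *
      ((tau (1/2) h * tau (1/2) k : ℝ) : ℂ) * ((h:ℂ) ^ (-crit t) * (k:ℂ) ^ (-(1 - crit t))) =
      ∑ a ∈ Finset.range n, ∑ b ∈ Finset.range n, F a b h k *
      ((tau (1/2) h * tau (1/2) k : ℝ) : ℂ) * ((h:ℂ) ^ (-crit t) * (k:ℂ) ^ (-(1 - crit t))) := by
    intro h k
    simp only [Finset.sum_mul]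
  simp only [h1]
  rw [Finset.sum_congr rfl fun h _ => Finset.sum_comm]
  rw [Finset.sum_comm]
  refine Finset.sum_congr rfl fun a _ => ?_
  rw [Finset.sum_congr rfl fun h _ => Finset.sum_comm]
  rw [Finset.sum_comm]

/-- The sum over pairs as a form. -/
theorem q5b_form {T u : ℝ} (n : ℕ) :
    ((∑ a ∈ Finset.range n, ∑ b ∈ Finset.range n, Qj T u ((a:ℤ) - b) : ℝ) : ℂ) =
      ∫ t in win u, ((‖riemannZeta (crit t)‖ ^ 2 : ℝ) : ℂ) * QForm (XN T)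
        (fun h k => ∑ a ∈ Finset.range n, ∑ b ∈ Finset.range n,
          cexp (((yj (XN T) ((a:ℤ) - b) * (Real.log h - Real.log k) : ℝ) : ℂ) * I)) t
        ∂(gaussianReal u (vw T)) := by
  have h1 : ∀ t : ℝ, ((‖riemannZeta (crit t)‖ ^ 2 : ℝ) : ℂ) * QForm (XN T)
        (fun h k => ∑ a ∈ Finset.range n, ∑ b ∈ Finset.range n,
          cexp (((yj (XN T) ((a:ℤ) - b) * (Real.log h - Real.log k) : ℝ) : ℂ) * I)) t =
      ((∑ a ∈ Finset.range n, ∑ b ∈ Finset.range n, ‖riemannZeta (crit t)‖ ^ 2 *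
        ‖PP (XN T) (crit t - (yj (XN T) ((a:ℤ) - b) : ℝ) * I)‖ ^ 2 : ℝ) : ℂ) := by
    intro t
    rw [q5b_QForm_sum, Finset.mul_sum, Complex.ofReal_sum]
    refine Finset.sum_congr rfl fun a _ => ?_
    rw [Finset.mul_sum, Complex.ofReal_sum]
    refine Finset.sum_congr rfl fun b _ => ?_
    rw [Complex.ofReal_mul, PP_sq_eq]
  simp_rw [h1]
  rw [integral_complex_ofReal]
  congr 1
  have hint : ∀ a b : ℕ, Integrable (fun t : ℝ => ‖riemannZeta (crit t)‖ ^ 2 *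
      ‖PP (XN T) (crit t - (yj (XN T) ((a:ℤ) - b) : ℝ) * I)‖ ^ 2)
      ((gaussianReal u (vw T)).restrict (win u)) := by
    intro a b
    refine q4_intOn (Continuous.continuousOn ?_)
    refine (continuous_zeta_crit.norm.pow 2).mul (Continuous.pow (Continuous.norm ?_) 2)
    exact (differentiable_PP _).continuous.comp (continuous_crit.sub continuous_const)
  rw [integral_finsetSum _ fun a _ => integrable_finsetSum _ fun b _ => hint a b]
  refine Finset.sum_congr rfl fun a _ => ?_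
  rw [integral_finsetSum _ fun b _ => hint a b]
  rfl

theorem q5b_ell_le {T : ℝ} (hT : 1 ≤ T) {h k : ℕ} (hh : 1 ≤ h) (hk : 1 ≤ k) :
    0 ≤ ell T h k ∧ ell T h k ≤ Real.log T := by
  have hg0 : 0 < Nat.gcd h k := Nat.gcd_pos_of_pos_left k hh
  have hgr : (0:ℝ) < (Nat.gcd h k : ℝ) := by exact_mod_cast hg0
  have hh' : (0:ℝ) < h := by exact_mod_cast hh
  have hk' : (0:ℝ) < k := by exact_mod_cast hk
  have hT0 : 0 < T := by linarith
  refine ⟨le_max_left _ _, max_le (Real.log_nonneg hT) ?_⟩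
  refine Real.log_le_log (by positivity) ?_
  rw [div_le_iff₀ (by positivity)]
  have e1 : (Nat.gcd h k : ℝ) ≤ h := by exact_mod_cast Nat.gcd_le_left k hh
  have e2 : (Nat.gcd h k : ℝ) ≤ k := by exact_mod_cast Nat.gcd_le_right h hk
  have e3 : (Nat.gcd h k : ℝ) ^ 2 ≤ h * k := by
    rw [sq]
    exact mul_le_mul e1 e2 hgr.le hh'.le
  exact mul_le_mul_of_nonneg_left e3 hT0.le

theorem q5b_gk_nonneg (h k : ℕ) : 0 ≤ gk h k := by
  have h1 := q4_tau_nonneg h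
  have h2 := q4_tau_nonneg k
  unfold gk
  positivity

/-- The numerical estimate. -/
theorem q5b_num {L X M : ℝ} (hX : 1 ≤ X) (hXL : X ≤ L) (hM : 1 ≤ M) (hML : M ≤ L ^ (9/8 : ℝ)) :
    M * L * (X ^ (1/4 : ℝ) * ((1 + Real.log (2 * Real.pi * M / (2 * X + 1) * X)) /
      (2 * Real.pi * M / (2 * X + 1)) + 1 + 2 * Real.pi * M / (2 * X + 1))) ≤
      9 * (L ^ (9/4 : ℝ) * (1 + Real.log M) + M * L ^ (2 + 1/8 : ℝ)) := by
  have hpi := Real.pi_gt_three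
  have hpi4 := Real.pi_lt_d2
  have hpi0 := Real.pi_pos
  have hX0 : 0 < X := by linarith
  have hL1 : 1 ≤ L := hX.trans hXL
  have hL0 : 0 < L := by linarith
  have hM0 : 0 < M := by linarith
  have hlM : 0 ≤ Real.log M := Real.log_nonneg hM
  set m := 2 * Real.pi * M / (2 * X + 1) with hm
  have hm0 : 0 < m := by positivity
  have h1 : 1 + Real.log (m * X) ≤ 4 * (1 + Real.log M) := by
    have e1 : m * X ≤ Real.pi * M := by
      rw [hm, div_mul_eq_mul_div, div_le_iff₀ (by positivity)]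
      nlinarith [mul_pos hpi0 hM0]
    have e2 : Real.log (m * X) ≤ Real.log Real.pi + Real.log M := by
      rw [← Real.log_mul hpi0.ne' hM0.ne']
      exact Real.log_le_log (by positivity) e1
    have e3 : Real.log Real.pi ≤ Real.pi - 1 := Real.log_le_sub_one_of_pos hpi0
    linarith
  have h2 : 1 / m ≤ X / M := by
    rw [hm, one_div_div, div_le_div_iff₀ (by positivity) hM0]
    nlinarith [mul_pos hpi0 hM0, mul_pos hM0 hX0]
  have h3 : m ≤ 4 * M / X := by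
    rw [hm, div_le_div_iff₀ (by positivity) hX0]
    nlinarith [mul_pos hM0 hX0]
  have h4 : (1 + Real.log (m * X)) / m ≤ 4 * (1 + Real.log M) * (X / M) := by
    calc (1 + Real.log (m * X)) / m ≤ 4 * (1 + Real.log M) / m :=
          div_le_div_of_nonneg_right h1 hm0.le
      _ = 4 * (1 + Real.log M) * (1 / m) := by ring
      _ ≤ _ := mul_le_mul_of_nonneg_left h2 (by positivity)
  have h5 : M * L * (X ^ (1/4 : ℝ) * ((1 + Real.log (m * X)) / m + 1 + m)) ≤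
      M * L * (X ^ (1/4 : ℝ) * (4 * (1 + Real.log M) * (X / M) + 1 + 4 * M / X)) := by
    refine mul_le_mul_of_nonneg_left (mul_le_mul_of_nonneg_left ?_ (by positivity)) (by positivity)
    linarith
  refine h5.trans ?_
  have e0 : M * L * (X ^ (1/4 : ℝ) * (4 * (1 + Real.log M) * (X / M) + 1 + 4 * M / X)) =
      4 * (1 + Real.log M) * (L * (X ^ (1/4 : ℝ) * X)) + M * (L * X ^ (1/4 : ℝ)) +
        4 * M * (M * (L * (X ^ (1/4 : ℝ) / X))) := by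
    field_simp
  rw [e0]
  have f1 : L * (X ^ (1/4 : ℝ) * X) ≤ L ^ (9/4 : ℝ) := by
    have g1 : X ^ (1/4 : ℝ) * X ≤ L ^ (1/4 : ℝ) * L :=
      mul_le_mul (Real.rpow_le_rpow hX0.le hXL (by norm_num)) hXL hX0.le (by positivity)
    calc L * (X ^ (1/4 : ℝ) * X) ≤ L * (L ^ (1/4 : ℝ) * L) := mul_le_mul_of_nonneg_left g1 hL0.le
      _ = L ^ (1 : ℝ) * L ^ (1/4 : ℝ) * L ^ (1 : ℝ) := by rw [Real.rpow_one]; ring
      _ = L ^ (9/4 : ℝ) := by
          rw [← Real.rpow_add hL0, ← Real.rpow_add hL0]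
          norm_num
  have f2 : L * X ^ (1/4 : ℝ) ≤ L ^ (2 + 1/8 : ℝ) := by
    calc L * X ^ (1/4 : ℝ) ≤ L * L ^ (1/4 : ℝ) :=
          mul_le_mul_of_nonneg_left (Real.rpow_le_rpow hX0.le hXL (by norm_num)) hL0.le
      _ = L ^ (1 : ℝ) * L ^ (1/4 : ℝ) := by rw [Real.rpow_one]
      _ ≤ L ^ (2 + 1/8 : ℝ) := by
          rw [← Real.rpow_add hL0]
          exact Real.rpow_le_rpow_of_exponent_le hL1 (by norm_num)
  have f3 : M * (L * (X ^ (1/4 : ℝ) / X)) ≤ L ^ (2 + 1/8 : ℝ) := by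
    have g1 : X ^ (1/4 : ℝ) / X ≤ 1 := by
      rw [div_le_one hX0]
      calc X ^ (1/4 : ℝ) ≤ X ^ (1:ℝ) := Real.rpow_le_rpow_of_exponent_le hX (by norm_num)
        _ = X := Real.rpow_one X
    calc M * (L * (X ^ (1/4 : ℝ) / X)) ≤ M * (L * 1) :=
          mul_le_mul_of_nonneg_left (mul_le_mul_of_nonneg_left g1 hL0.le) hM0.le
      _ ≤ L ^ (9/8 : ℝ) * (L * 1) := mul_le_mul_of_nonneg_right hML (by positivity)
      _ = L ^ (9/8 : ℝ) * L ^ (1:ℝ) := by rw [Real.rpow_one, mul_one]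
      _ = L ^ (2 + 1/8 : ℝ) := by
          rw [← Real.rpow_add hL0]
          norm_num
  have f4 : 0 ≤ L ^ (9/4 : ℝ) * (1 + Real.log M) := by positivity
  have f5 : 0 ≤ M * L ^ (2 + 1/8 : ℝ) := by positivity
  have f6 : 4 * (1 + Real.log M) * (L * (X ^ (1/4 : ℝ) * X)) ≤
      4 * (1 + Real.log M) * L ^ (9/4 : ℝ) := mul_le_mul_of_nonneg_left f1 (by positivity)
  have f7 : M * (L * X ^ (1/4 : ℝ)) ≤ M * L ^ (2 + 1/8 : ℝ) :=
    mul_le_mul_of_nonneg_left f2 hM0.le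
  have f8 : 4 * M * (M * (L * (X ^ (1/4 : ℝ) / X))) ≤ 4 * M * L ^ (2 + 1/8 : ℝ) :=
    mul_le_mul_of_nonneg_left f3 (by positivity)
  linarith

/-- Fejer-type kernel: `∑_{|j|≤M} Q_j ≤ (2/M') ∑_{|j|<M'} (M'-|j|) Q_j`, `M' = 2M`, the form with kernel `|∑_{j<M'} e^{ijθ}|²`,
`θ = 2π log(h/k)/per N ∈ (-π,π)`, at most `C M²/(1+M²θ²)`; then `qform_mean` and `near_diag`. -/
theorem Qj_sum_le {η : ℝ} (hη : 0 < η) : ∃ C : ℝ, 0 < C ∧ ∀ᶠ p : ℝ × ℝ in Fl η, ∀ M : ℕ, 1 ≤ M → (M:ℝ) ≤ (Real.log p.1) ^ (9/8 : ℝ) →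
    ∑ j ∈ Finset.Icc (-(M:ℤ)) M, Qj p.1 p.2 j ≤
      C * ((Real.log p.1) ^ (9/4 : ℝ) * (1 + Real.log M) + M * (Real.log p.1) ^ (2 + 1/8 : ℝ)) := by
  obtain ⟨C1, hC1, hq⟩ := qform_mean hη
  obtain ⟨C2, hC2, hnd⟩ := near_diag
  refine ⟨4 * C1 + 180 * C2, by positivity, ?_⟩
  have hT1 : ∀ᶠ p : ℝ × ℝ in Fl η, Real.exp 2 ≤ p.1 :=
    (Fl_fst η).eventually (eventually_ge_atTop _)
  have hT2 : ∀ᶠ p : ℝ × ℝ in Fl η, (64:ℝ) ≤ p.1 :=
    (Fl_fst η).eventually (eventually_ge_atTop _)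
  filter_upwards [hq, hT1, hT2] with p hq hT hT64 M hM hML
  obtain ⟨T, u⟩ := p
  simp only at hq hT hT64 hML ⊢
  have hM' : (1:ℝ) ≤ M := by exact_mod_cast hM
  have hM0 : (0:ℝ) < M := by linarith
  have hT0 : 0 < T := by linarith
  have hL : 2 ≤ Real.log T := by
    rw [Real.le_log_iff_exp_le hT0]
    exact hT
  obtain ⟨-, -, hN3⟩ := q4_XN_le hT
  have hN8 : 8 ≤ XN T := by
    refine Nat.le_floor ?_
    have e1 : (8:ℝ) ≤ T ^ (1/2 : ℝ) := by
      rw [← Real.sqrt_eq_rpow]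
      exact Real.le_sqrt_of_sq_le (by norm_num; exact hT64)
    have e2 : (1:ℝ) ≤ (Real.log T) ^ (1/16 : ℝ) := Real.one_le_rpow (by linarith) (by norm_num)
    push_cast
    nlinarith
  set N := XN T with hN
  set X := Real.log (N:ℝ) with hX
  have hX1 : 1 ≤ X := by
    rw [hX, Real.le_log_iff_exp_le (by positivity)]
    have h1 := Real.exp_one_lt_d9
    have h2 : (8:ℝ) ≤ N := by exact_mod_cast hN8
    linarith
  have hpi := Real.pi_pos
  have hper : per N = 2 * X + 1 := rfl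
  set m : ℝ := 2 * Real.pi * M / (2 * X + 1) with hm
  set K : ℕ → ℕ → ℂ := fun h k => ∑ a ∈ Finset.range (2 * M), ∑ b ∈ Finset.range (2 * M),
    cexp (((yj N ((a:ℤ) - b) * (Real.log h - Real.log k) : ℝ) : ℂ) * I) with hK
  have hKn : ∀ h k, ‖K h k‖ ≤ (2 * (M:ℝ)) ^ 2 := by
    intro h k
    refine (norm_sum_le _ _).trans ?_
    have h1 : ∀ a ∈ Finset.range (2 * M), ‖∑ b ∈ Finset.range (2 * M),
        cexp (((yj N ((a:ℤ) - b) * (Real.log h - Real.log k) : ℝ) : ℂ) * I)‖ ≤ 2 * M := by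
      intro a _
      refine (norm_sum_le _ _).trans ?_
      have h2 : ∀ b ∈ Finset.range (2 * M),
          ‖cexp (((yj N ((a:ℤ) - b) * (Real.log h - Real.log k) : ℝ) : ℂ) * I)‖ = 1 := fun b _ =>
        Complex.norm_exp_ofReal_mul_I _
      rw [Finset.sum_congr rfl h2]
      simp
    refine (Finset.sum_le_sum h1).trans (le_of_eq ?_)
    simp
    ring
  have hKv : ∀ h ∈ Finset.Icc 1 N, ∀ k ∈ Finset.Icc 1 N,
      ‖K h k‖ ≤ 20 * (M:ℝ) ^ 2 * (1 + m ^ 2 * (Real.log ((h:ℝ) / k)) ^ 2)⁻¹ := by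
    intro h hh k hk
    obtain ⟨hh1, hh2⟩ := Finset.mem_Icc.1 hh
    obtain ⟨hk1, hk2⟩ := Finset.mem_Icc.1 hk
    have hh' : (1:ℝ) ≤ h := by exact_mod_cast hh1
    have hk' : (1:ℝ) ≤ k := by exact_mod_cast hk1
    set θ : ℝ := 2 * Real.pi * (Real.log h - Real.log k) / (2 * X + 1) with hθ
    have e1 : K h k = ((‖∑ a ∈ Finset.range (2 * M), cexp ((((a:ℝ) * θ : ℝ) : ℂ) * I)‖ ^ 2 : ℝ) : ℂ) := by
      rw [← q5b_kernel, hK]
      refine Finset.sum_congr rfl fun a _ => Finset.sum_congr rfl fun b _ => ?_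
      congr 3
      unfold yj
      rw [hper, hθ]
      push_cast
      ring
    have e2 : |θ| ≤ Real.pi := by
      have a1 : Real.log h ≤ X := Real.log_le_log (by linarith) (by exact_mod_cast hh2)
      have a2 : Real.log k ≤ X := Real.log_le_log (by linarith) (by exact_mod_cast hk2)
      have a3 : 0 ≤ Real.log (h:ℝ) := Real.log_nonneg hh'
      have a4 : 0 ≤ Real.log (k:ℝ) := Real.log_nonneg hk'
      have a5 : |Real.log (h:ℝ) - Real.log k| ≤ X := abs_le.2 ⟨by linarith, by linarith⟩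
      rw [hθ, abs_div, abs_mul, abs_of_pos (by positivity : (0:ℝ) < 2 * Real.pi),
        abs_of_pos (by positivity : (0:ℝ) < 2 * X + 1), div_le_iff₀ (by positivity)]
      nlinarith
    have e3 := q5b_bound hM e2
    have e4 : (M:ℝ) ^ 2 * θ ^ 2 = m ^ 2 * (Real.log ((h:ℝ) / k)) ^ 2 := by
      rw [Real.log_div (by linarith) (by linarith), hθ, hm]
      ring
    rw [e1, Complex.norm_real, Real.norm_eq_abs, abs_of_nonneg (by positivity), ← e4]
    exact e3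
  have h1 := hq K ((2 * (M:ℝ)) ^ 2) hKn
  rw [← q5b_form] at h1
  set P : ℝ := ∑ a ∈ Finset.range (2 * M), ∑ b ∈ Finset.range (2 * M), Qj T u ((a:ℤ) - b) with hP
  have hP0 : 0 ≤ P := Finset.sum_nonneg fun a _ => Finset.sum_nonneg fun b _ => Qj_nonneg _ _ _
  set Z := ∑ h ∈ Finset.Icc 1 N, ∑ k ∈ Finset.Icc 1 N, K h k * ((gk h k * ell T h k : ℝ) : ℂ)
    with hZ
  have h2 : P ≤ C1 * (2 * (M:ℝ)) ^ 2 * (Real.log T) ^ (2 + 1/8 : ℝ) + ‖Z‖ := by
    calc P = ‖(P : ℂ)‖ := by rw [Complex.norm_real, Real.norm_eq_abs, abs_of_nonneg hP0]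
      _ = ‖((P : ℂ) - Z) + Z‖ := by rw [sub_add_cancel]
      _ ≤ ‖(P : ℂ) - Z‖ + ‖Z‖ := norm_add_le _ _
      _ ≤ _ := by linarith
  have h3 : ‖Z‖ ≤ 20 * (M:ℝ) ^ 2 * Real.log T * ∑ h ∈ Finset.Icc 1 N, ∑ k ∈ Finset.Icc 1 N,
      gk h k * (1 + m ^ 2 * (Real.log ((h:ℝ) / k)) ^ 2)⁻¹ := by
    rw [Finset.mul_sum]
    refine (norm_sum_le _ _).trans (Finset.sum_le_sum fun h hh => ?_)
    rw [Finset.mul_sum]
    refine (norm_sum_le _ _).trans (Finset.sum_le_sum fun k hk => ?_)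
    obtain ⟨e1, e2⟩ := q5b_ell_le (T := T) (by linarith) (Finset.mem_Icc.1 hh).1
      (Finset.mem_Icc.1 hk).1
    have e3 := q5b_gk_nonneg h k
    have e4 := hKv h hh k hk
    rw [norm_mul, Complex.norm_real, Real.norm_eq_abs, abs_of_nonneg (mul_nonneg e3 e1)]
    calc ‖K h k‖ * (gk h k * ell T h k)
        ≤ (20 * (M:ℝ) ^ 2 * (1 + m ^ 2 * (Real.log ((h:ℝ) / k)) ^ 2)⁻¹) *
          (gk h k * Real.log T) :=
          mul_le_mul e4 (mul_le_mul_of_nonneg_left e2 e3) (mul_nonneg e3 e1) (by positivity)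
      _ = _ := by ring
  have hm1 : 1 / Real.log (N:ℝ) ≤ m := by
    rw [hm, ← hX, div_le_div_iff₀ (by linarith) (by positivity)]
    have := Real.pi_gt_three
    nlinarith [mul_pos hpi hM0, mul_nonneg hpi.le (by linarith : (0:ℝ) ≤ M - 1)]
  have h4 := hnd N hN8 m hm1
  rw [← hX] at h4
  have h5 := q5b_num (L := Real.log T) (X := X) (M := M) hX1 hN3 hM' hML
  rw [← hm] at h5
  have h6 := q5b_pairs M (Q := Qj T u) (fun j => Qj_nonneg T u j)
  rw [← hP] at h6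
  set B := X ^ (1/4 : ℝ) * ((1 + Real.log (m * X)) / m + 1 + m) with hB
  have h7 : ‖Z‖ ≤ 20 * (M:ℝ) ^ 2 * Real.log T * (C2 * B) := by
    refine h3.trans (mul_le_mul_of_nonneg_left ?_ (by positivity))
    refine h4.trans (le_of_eq ?_)
    rw [hB]
    ring
  have h8 : (M:ℝ) * ∑ j ∈ Finset.Icc (-(M:ℤ)) M, Qj T u j ≤
      M * ((4 * C1 + 180 * C2) * ((Real.log T) ^ (9/4 : ℝ) * (1 + Real.log M) +
        M * (Real.log T) ^ (2 + 1/8 : ℝ))) := by
    have f1 : 0 ≤ (Real.log T) ^ (9/4 : ℝ) * (1 + Real.log (M:ℝ)) := by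
      have := Real.log_nonneg hM'
      positivity
    have f2 : 0 ≤ (M:ℝ) * (Real.log T) ^ (2 + 1/8 : ℝ) := by positivity
    calc (M:ℝ) * ∑ j ∈ Finset.Icc (-(M:ℤ)) M, Qj T u j ≤ P := h6
      _ ≤ C1 * (2 * (M:ℝ)) ^ 2 * (Real.log T) ^ (2 + 1/8 : ℝ) +
          20 * (M:ℝ) ^ 2 * Real.log T * (C2 * B) := h2.trans (by linarith)
      _ = M * (4 * C1 * (M * (Real.log T) ^ (2 + 1/8 : ℝ)) +
          20 * C2 * (M * Real.log T * B)) := by ring
      _ ≤ M * (4 * C1 * (M * (Real.log T) ^ (2 + 1/8 : ℝ)) +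
          20 * C2 * (9 * ((Real.log T) ^ (9/4 : ℝ) * (1 + Real.log M) +
            M * (Real.log T) ^ (2 + 1/8 : ℝ)))) := by
          refine mul_le_mul_of_nonneg_left ?_ hM0.le
          have := mul_le_mul_of_nonneg_left h5 (by positivity : (0:ℝ) ≤ 20 * C2)
          linarith
      _ ≤ _ := by
          refine mul_le_mul_of_nonneg_left ?_ hM0.le
          have := mul_nonneg (by positivity : (0:ℝ) ≤ 4 * C1) f1
          linarith
  exact le_of_mul_le_mul_left h8 hM0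

theorem one_sq_le {η : ℝ} (hη : 0 < η) : ∃ C : ℝ, 0 < C ∧ ∀ᶠ p : ℝ × ℝ in Fl η,
    ∫ t in win p.2, ‖riemannZeta (crit t)‖ ^ 2 ∂(gaussianReal p.2 (vw p.1)) ≤ C * (Real.log p.1) ^ (9/4 : ℝ) := by
  obtain ⟨C, hC, hQ⟩ := qform_mean hη
  refine ⟨1 + C, by positivity, ?_⟩
  have hlog : Tendsto (fun p : ℝ × ℝ => Real.log p.1) (Fl η) atTop := Real.tendsto_log_atTop.comp (Fl_fst η)
  have hX := (Fl_fst η).eventually par_log_XN
  have hT1 := (Fl_fst η).eventually (eventually_ge_atTop (1:ℝ))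
  filter_upwards [hQ, hlog.eventually_ge_atTop 1, hX, hT1] with p hp hL hXp hT
  have hL0 : 0 < Real.log p.1 := by linarith
  have h1 := hp (fun h k => if h = 1 ∧ k = 1 then 1 else 0) 1 (fun h k => by
    by_cases hhk : h = 1 ∧ k = 1
    · simp [hhk]
    · simp [hhk])
  rw [mul_one] at h1
  have h1mem : 1 ∈ Finset.Icc 1 (XN p.1) := Finset.mem_Icc.2 ⟨le_rfl, by omega⟩
  have hsum : ∀ F : ℕ → ℕ → ℂ, ∑ h ∈ Finset.Icc 1 (XN p.1), ∑ k ∈ Finset.Icc 1 (XN p.1), (if h = 1 ∧ k = 1 then (1:ℂ) else 0) * F h k = F 1 1 := by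
    intro F
    rw [Finset.sum_eq_single_of_mem 1 h1mem, Finset.sum_eq_single_of_mem 1 h1mem]
    · simp
    · intro k _ hk
      simp [hk]
    · intro h _ hh
      apply Finset.sum_eq_zero
      intro k _
      simp [hh]
  have htau1 : tau (1/2) 1 = 1 := (tau_isMultiplicative _).map_one
  have hQF : ∀ t, QForm (XN p.1) (fun h k => if h = 1 ∧ k = 1 then (1:ℂ) else 0) t = 1 := by
    intro t
    unfold QForm
    have := hsum (fun h k => ((tau (1/2) h * tau (1/2) k : ℝ) : ℂ) * ((h:ℂ) ^ (-crit t) * (k:ℂ) ^ (-(1 - crit t))))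
    simp only [← mul_assoc] at this ⊢
    rw [this, htau1]
    simp
  have hmain : ∑ h ∈ Finset.Icc 1 (XN p.1), ∑ k ∈ Finset.Icc 1 (XN p.1), (if h = 1 ∧ k = 1 then (1:ℂ) else 0) * ((gk h k * ell p.1 h k : ℝ) : ℂ) = 
      ((gk 1 1 * ell p.1 1 1 : ℝ) : ℂ) := hsum fun h k => ((gk h k * ell p.1 h k : ℝ) : ℂ)
  have hg1 : gk 1 1 = 1 := by
    unfold gk
    rw [htau1]; simp
  simp only [hQF, mul_one] at h1
  rw [hmain, hg1, one_mul, integral_complex_ofReal, ← Complex.ofReal_sub, Complex.norm_real, Real.norm_eq_abs] at h1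
  have h2 := (abs_le.1 h1).2
  have h3 := q5a_ell_le hT (le_refl 1) (le_refl 1)
  have h4 : (Real.log p.1) ^ (2 + 1/8 : ℝ) ≤ (Real.log p.1) ^ (9/4 : ℝ) :=
    Real.rpow_le_rpow_of_exponent_le (by linarith) (by norm_num)
  have h5 : Real.log p.1 ≤ (Real.log p.1) ^ (9/4 : ℝ) := by
    nth_rewrite 1 [← Real.rpow_one (Real.log p.1)]
    exact Real.rpow_le_rpow_of_exponent_le (by linarith) (by norm_num)
  calc ∫ t in win p.2, ‖riemannZeta (crit t)‖ ^ 2 ∂(gaussianReal p.2 (vw p.1)) ≤ Real.log p.1 + C * (Real.log p.1) ^ (2 + 1/8 : ℝ) := by linarith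
    _ ≤ (Real.log p.1) ^ (9/4 : ℝ) + C * (Real.log p.1) ^ (9/4 : ℝ) := by gcongr
    _ = _ := by ring

end Pool.Agent.LibM3
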