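import Pool.Agent.LibM3.Defs
import Pool.Agent.LibZM.Reflect

/-! Third moment, block A3: the entire function `w(w-1)Λ(w)`. -/

set_option autoImplicit false

namespace Pool.Agent.LibM3

open MeasureTheory Set Filter Topology Complex ProbabilityTheory
open scoped NNReal ComplexConjugate
open Pool.Agent.LibZM

/-- `w (w-1) Λ(w)`. -/
noncomputable def xi (w : ℂ) : ℂ := w * (w - 1) * completedRiemannZeta₀ w + 1

theorem xi_differentiable : Differentiable ℂ xi := by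
  have h := differentiable_completedZeta₀
  unfold xi
  fun_prop

theorem xi_one_sub (w : ℂ) : xi (1 - w) = xi w := by
  simp only [xi, completedRiemannZeta₀_one_sub]
  ring

theorem xi_eq {w : ℂ} (h0 : w ≠ 0) (h1 : w ≠ 1) : xi w = w * (w - 1) * completedRiemannZeta w := by
  have h2 : 1 - w ≠ 0 := sub_ne_zero.mpr (Ne.symm h1)
  have h3 : w - 1 ≠ 0 := sub_ne_zero.mpr h1
  rw [completedRiemannZeta_eq, xi]
  have e : (1:ℂ) / (1 - w) = -(1 / (w - 1)) := by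
    rw [← neg_sub w 1, one_div, one_div, inv_neg]
  rw [e]
  field_simp
  ring

theorem a3_xi_eq {w : ℂ} (h0 : w ≠ 0) (hG : Gammaℝ w ≠ 0) :
    xi w = w * Gammaℝ w * riemannZeta₁ w := by
  by_cases h1 : w = 1
  · subst h1
    simp [xi, riemannZeta₁_one, Gammaℝ_one]
  · rw [xi_eq h0 h1]
    have h3 : w - 1 ≠ 0 := sub_ne_zero.mpr h1
    have h4 := riemannZeta_def_of_ne_zero h0
    rw [riemannZeta_eq_inv_sub_mul h1, eq_div_iff hG] at h4
    rw [← h4]
    field_simp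

theorem a3_Gamma_bound : ∃ C : ℝ, 1 ≤ C ∧ ∀ w : ℂ, 1/2 ≤ w.re → w.re ≤ 2 → ‖Gammaℝ w‖ ≤ C := by
  have hc : ContinuousOn Real.Gamma (Icc (1/4:ℝ) 1) := by
    intro x hx
    exact (Real.differentiableAt_Gamma (fun m => by
      have := hx.1
      have hm : (0:ℝ) ≤ m := Nat.cast_nonneg m
      linarith)).continuousAt.continuousWithinAt
  obtain ⟨C, hC⟩ := (isCompact_Icc (a := (1/4:ℝ)) (b := 1)).exists_bound_of_continuousOn hc
  refine ⟨max C 1, le_max_right _ _, fun w h1 h2 => ?_⟩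
  have hre : (w / 2).re = w.re / 2 := by simp
  have hG : ‖Complex.Gamma (w / 2)‖ ≤ C := by
    refine (norm_Gamma_le' (by rw [hre]; linarith)).trans ?_
    rw [hre]
    exact (le_abs_self _).trans (hC _ ⟨by linarith, by linarith⟩)
  have hC0 : 0 ≤ C := (norm_nonneg _).trans hG
  have hpi : ‖(Real.pi : ℂ) ^ (-w / 2)‖ ≤ 1 := by
    rw [Complex.norm_cpow_eq_rpow_re_of_pos Real.pi_pos]
    refine Real.rpow_le_one_of_one_le_of_nonpos (by linarith [Real.pi_gt_three]) ?_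
    have : (-w / 2).re = -w.re / 2 := by simp
    rw [this]; linarith
  rw [Gammaℝ_def, norm_mul]
  calc ‖(Real.pi : ℂ) ^ (-w / 2)‖ * ‖Complex.Gamma (w / 2)‖ ≤ 1 * C := by gcongr
    _ = C := one_mul C
    _ ≤ max C 1 := le_max_left _ _

theorem xi_growth : ∃ C : ℝ, 0 < C ∧ ∀ x ∈ Icc (-1:ℝ) 2, ∀ y : ℝ, ‖xi (x + y * I)‖ ≤ C * (1 + |y|) ^ 5 := by
  obtain ⟨C, hC1, hC⟩ := a3_Gamma_bound
  have key : ∀ x : ℝ, 1/2 ≤ x → x ≤ 2 → ∀ y : ℝ, ‖xi (x + y * I)‖ ≤ 12 * C * (1 + |y|) ^ 5 := by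
    intro x h1 h2 y
    set w : ℂ := (x:ℂ) + y * I with hw
    have hre : w.re = x := by simp [hw]
    have h0 : w ≠ 0 := by
      intro h
      rw [h] at hre
      simp at hre
      linarith
    have hG : Gammaℝ w ≠ 0 := Gammaℝ_ne_zero_of_re_pos (by rw [hre]; linarith)
    have hy := abs_nonneg y
    have hwn : ‖w‖ ≤ 2 * (1 + |y|) := by
      calc ‖w‖ ≤ ‖(x:ℂ)‖ + ‖(y:ℂ) * I‖ := norm_add_le _ _
        _ = |x| + |y| := by simp
        _ ≤ 2 * (1 + |y|) := by rw [abs_of_pos (by linarith)]; linarith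
    have hw1 : ‖w - 1‖ ≤ 1 + |y| := by
      have e : w - 1 = ((x - 1 : ℝ) : ℂ) + y * I := by rw [hw]; push_cast; ring
      calc ‖w - 1‖ ≤ ‖((x - 1 : ℝ) : ℂ)‖ + ‖(y:ℂ) * I‖ := by rw [e]; exact norm_add_le _ _
        _ = |x - 1| + |y| := by simp only [norm_mul, norm_I, Complex.norm_real, Real.norm_eq_abs, mul_one]
        _ ≤ 1 + |y| := by
          have : |x - 1| ≤ 1 := abs_le.2 ⟨by linarith, by linarith⟩
          linarith
    have hz : ‖riemannZeta₁ w‖ ≤ 6 * (1 + |y|) ^ 2 := by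
      refine (norm_zeta1_le (s := w) (by rw [hre]; exact h1)).trans ?_
      have hn := norm_nonneg w
      have hn1 := norm_nonneg (w - 1)
      calc 1 + ‖w - 1‖ * (1 + 2 * ‖w‖) ≤ 1 + (1 + |y|) * (1 + 2 * (2 * (1 + |y|))) := by gcongr
        _ ≤ 6 * (1 + |y|) ^ 2 := by nlinarith
    have hb : ‖Gammaℝ w‖ ≤ C := hC w (by rw [hre]; exact h1) (by rw [hre]; exact h2)
    rw [a3_xi_eq h0 hG, norm_mul, norm_mul]
    have hC0 : 0 ≤ C := by linarith
    calc ‖w‖ * ‖Gammaℝ w‖ * ‖riemannZeta₁ w‖ ≤ (2 * (1 + |y|)) * C * (6 * (1 + |y|) ^ 2) := by gcongr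
      _ = 12 * C * (1 + |y|) ^ 3 := by ring
      _ ≤ 12 * C * (1 + |y|) ^ 5 := by
        have : (1 + |y|) ^ 3 ≤ (1 + |y|) ^ 5 := pow_le_pow_right₀ (by linarith) (by norm_num)
        gcongr
  refine ⟨12 * C, by linarith, fun x hx y => ?_⟩
  rcases le_total (1/2) x with h | h
  · exact key x h hx.2 y
  · rw [← xi_one_sub]
    have e : (1:ℂ) - (x + y * I) = ((1 - x : ℝ) : ℂ) + ((-y : ℝ) : ℂ) * I := by push_cast; ring
    rw [e]
    have := key (1 - x) (by linarith) (by linarith [hx.1]) (-y)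
    rwa [abs_neg] at this

end Pool.Agent.LibM3
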