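import Pool.Agent.LibM3.A2
import Pool.Agent.LibM3.A3

/-! Third moment, block A4: exact approximate functional equations. -/

set_option autoImplicit false

namespace Pool.Agent.LibM3

open MeasureTheory Set Filter Topology Complex ProbabilityTheory
open scoped NNReal ComplexConjugate
open Pool.Agent.LibZM

theorem a4_Gammaℝ_conj (w : ℂ) : Gammaℝ (conj w) = conj (Gammaℝ w) := by
  rw [Gammaℝ_def, Gammaℝ_def, map_mul, ← Complex.Gamma_conj]
  congr 1
  · have h1 : ((Real.pi : ℝ) : ℂ).arg ≠ Real.pi := by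
      rw [Complex.arg_ofReal_of_nonneg Real.pi_pos.le]
      exact Real.pi_pos.ne
    have h2 := Complex.cpow_conj ((Real.pi : ℝ) : ℂ) (-w / 2) h1
    rw [Complex.conj_ofReal] at h2
    rw [← h2]
    congr 1
    rw [map_div₀, map_neg, map_ofNat]
  · congr 1
    rw [map_div₀, map_ofNat]

theorem a4_Lam {w : ℂ} (h : 0 < w.re) :
    completedRiemannZeta w = Gammaℝ w * riemannZeta w := by
  have h0 : w ≠ 0 := by
    rintro rfl
    simp at h
  rw [riemannZeta_def_of_ne_zero h0]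
  field_simp [Gammaℝ_ne_zero_of_re_pos h]

theorem a4_Lam_conj {w : ℂ} (h : 0 < w.re) :
    completedRiemannZeta (conj w) = conj (completedRiemannZeta w) := by
  rw [a4_Lam h, a4_Lam (by simpa using h), a4_Gammaℝ_conj, riemannZeta_conj, map_mul]

theorem a4_decay (n : ℕ) : ∃ C : ℝ, 0 < C ∧ ∀ y : ℝ,
    (1 + |y|) ^ n * Real.exp (-y ^ 2) ≤ C * Real.exp (-(y ^ 2 / 2)) := by
  refine ⟨n.factorial * Real.exp (3 / 2), by positivity, fun y => ?_⟩
  have h1 : (1 + |y|) ^ n / n.factorial ≤ Real.exp (1 + |y|) :=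
    Real.pow_div_factorial_le_exp _ (by positivity) n
  have h2 : (1 + |y|) ^ n ≤ n.factorial * Real.exp (1 + |y|) := by
    rw [div_le_iff₀ (by positivity)] at h1
    linarith
  have h3 : Real.exp (1 + |y|) * Real.exp (-y ^ 2) ≤ Real.exp (3 / 2) * Real.exp (-(y ^ 2 / 2)) := by
    rw [← Real.exp_add, ← Real.exp_add]
    apply Real.exp_le_exp.mpr
    nlinarith [sq_nonneg (|y| - 1), sq_abs y]
  calc (1 + |y|) ^ n * Real.exp (-y ^ 2)
      ≤ (n.factorial * Real.exp (1 + |y|)) * Real.exp (-y ^ 2) := by gcongr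
    _ = n.factorial * (Real.exp (1 + |y|) * Real.exp (-y ^ 2)) := by ring
    _ ≤ n.factorial * (Real.exp (3 / 2) * Real.exp (-(y ^ 2 / 2))) := by gcongr
    _ = _ := by ring

theorem a4_xi_bound (t : ℝ) : ∃ C : ℝ, 0 < C ∧ ∀ x ∈ Icc (-1:ℝ) 1, ∀ y : ℝ,
    ‖xi (crit t + (x + y * I))‖ ≤ C * (1 + |y|) ^ 5 := by
  obtain ⟨C, hC, h⟩ := xi_growth
  refine ⟨C * (1 + |t|) ^ 5, by positivity, fun x hx y => ?_⟩
  have h1 : crit t + ((x:ℂ) + y * I) = ((1 / 2 + x : ℝ) : ℂ) + ((t + y : ℝ) : ℂ) * I := by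
    rw [crit]; push_cast; ring
  rw [h1]
  have h2 := h (1 / 2 + x) ⟨by linarith [hx.1], by linarith [hx.2]⟩ (t + y)
  have h3 : 1 + |t + y| ≤ (1 + |t|) * (1 + |y|) := by
    have := abs_add_le t y
    nlinarith [abs_nonneg t, abs_nonneg y, mul_nonneg (abs_nonneg t) (abs_nonneg y)]
  calc _ ≤ C * (1 + |t + y|) ^ 5 := h2
    _ ≤ C * ((1 + |t|) * (1 + |y|)) ^ 5 := by gcongr
    _ = C * (1 + |t|) ^ 5 * (1 + |y|) ^ 5 := by ring

theorem a4_crit_neg (t : ℝ) : crit (-t) = 1 - crit t := by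
  rw [crit, crit]; push_cast; ring

theorem a4_crit_ne (t : ℝ) : crit t ≠ 0 := by
  intro h
  have := congrArg Complex.re h
  rw [crit_re] at this
  norm_num at this

theorem a4_one_sub_crit_ne (t : ℝ) : 1 - crit t ≠ 0 := by
  rw [← a4_crit_neg]; exact a4_crit_ne _

theorem a4_exp_norm {x y : ℝ} (hx : x ∈ Icc (-1:ℝ) 1) :
    ‖cexp (((x:ℂ) + y * I) ^ 2)‖ ≤ Real.exp 1 * Real.exp (-y ^ 2) := by
  rw [Complex.norm_exp, ← Real.exp_add]
  apply Real.exp_le_exp.mpr
  have h1 : (((x:ℂ) + y * I) ^ 2).re = x ^ 2 - y ^ 2 := by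
    rw [sq]
    simp
    ring
  rw [h1]
  nlinarith [hx.1, hx.2]

theorem a4_norm_z {x y : ℝ} (hx : x ∈ Icc (-1:ℝ) 1) : ‖(x:ℂ) + y * I‖ ≤ 1 + |y| := by
  calc ‖(x:ℂ) + y * I‖ ≤ ‖(x:ℂ)‖ + ‖(y:ℂ) * I‖ := norm_add_le _ _
    _ = |x| + |y| := by
      rw [norm_mul, Complex.norm_I, mul_one, Complex.norm_real, Complex.norm_real,
        Real.norm_eq_abs, Real.norm_eq_abs]
    _ ≤ 1 + |y| := by
      have := abs_le.mpr hx
      linarith

/-- `Λ(s+z) G_t(z)`. -/
noncomputable def a4_Psi1 (t : ℝ) (z : ℂ) : ℂ :=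
  -(xi (crit t + z) * (crit t - z) * (1 - crit t + z) * cexp (z ^ 2)) /
    (crit t * (1 - crit t)) ^ 2

/-- `Λ(s+z) Λ(1-s+z) G_t(z)`. -/
noncomputable def a4_Psi2 (t : ℝ) (z : ℂ) : ℂ :=
  xi (crit t + z) * xi (1 - crit t + z) * cexp (z ^ 2) / (crit t * (1 - crit t)) ^ 2

theorem a4_Psi1_diff (t : ℝ) : Differentiable ℂ (a4_Psi1 t) := by
  unfold a4_Psi1
  have h1 : Differentiable ℂ (fun z => xi (crit t + z)) :=
    xi_differentiable.comp ((differentiable_const _).add differentiable_id)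
  exact ((((h1.mul ((differentiable_const _).sub differentiable_id)).mul
    ((differentiable_const _).add differentiable_id)).mul
    (differentiable_id.pow 2).cexp).neg).div_const _

theorem a4_Psi2_diff (t : ℝ) : Differentiable ℂ (a4_Psi2 t) := by
  unfold a4_Psi2
  have h1 : Differentiable ℂ (fun z => xi (crit t + z)) :=
    xi_differentiable.comp ((differentiable_const _).add differentiable_id)
  have h2 : Differentiable ℂ (fun z => xi (1 - crit t + z)) :=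
    xi_differentiable.comp ((differentiable_const _).add differentiable_id)
  exact ((h1.mul h2).mul (differentiable_id.pow 2).cexp).div_const _

theorem a4_Psi1_bound (t : ℝ) : ∃ C : ℝ, ∀ x ∈ Icc (-1:ℝ) 1, ∀ y : ℝ,
    ‖a4_Psi1 t (x + y * I)‖ ≤ C * Real.exp (-(y ^ 2 / 2)) := by
  obtain ⟨C1, hC1, h1⟩ := a4_xi_bound t
  obtain ⟨C2, hC2, h2⟩ := a4_decay 7
  set S : ℝ := ‖crit t‖ + ‖1 - crit t‖ + 1 with hS
  have hS0 : 1 ≤ S := by
    have := norm_nonneg (crit t)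
    have := norm_nonneg (1 - crit t)
    linarith
  set q : ℝ := ‖(crit t * (1 - crit t)) ^ 2‖ with hq
  have hq0 : 0 < q := by
    rw [hq]
    exact norm_pos_iff.mpr (pow_ne_zero _ (mul_ne_zero (a4_crit_ne t) (a4_one_sub_crit_ne t)))
  refine ⟨C1 * S * S * Real.exp 1 * C2 / q, fun x hx y => ?_⟩
  have e1 := h1 x hx y
  have e2 := a4_norm_z (y := y) hx
  have e3 := a4_exp_norm (y := y) hx
  have e4 : ‖crit t - (x + y * I)‖ ≤ S * (1 + |y|) := by
    calc ‖crit t - (x + y * I)‖ ≤ ‖crit t‖ + ‖(x:ℂ) + y * I‖ := norm_sub_le _ _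
      _ ≤ ‖crit t‖ + (1 + |y|) := by linarith
      _ ≤ S * (1 + |y|) := by
        have := norm_nonneg (crit t)
        have := norm_nonneg (1 - crit t)
        nlinarith [abs_nonneg y]
  have e5 : ‖1 - crit t + (x + y * I)‖ ≤ S * (1 + |y|) := by
    calc ‖1 - crit t + (x + y * I)‖ ≤ ‖1 - crit t‖ + ‖(x:ℂ) + y * I‖ := norm_add_le _ _
      _ ≤ ‖1 - crit t‖ + (1 + |y|) := by linarith
      _ ≤ S * (1 + |y|) := by
        have := norm_nonneg (crit t)
        have := norm_nonneg (1 - crit t)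
        nlinarith [abs_nonneg y]
  have hy : 0 ≤ |y| := abs_nonneg y
  unfold a4_Psi1
  rw [norm_div, norm_neg, norm_mul, norm_mul, norm_mul, ← hq, div_mul_eq_mul_div]
  apply div_le_div_of_nonneg_right _ hq0.le
  calc _ ≤ (C1 * (1 + |y|) ^ 5) * (S * (1 + |y|)) * (S * (1 + |y|)) *
        (Real.exp 1 * Real.exp (-y ^ 2)) := by gcongr
    _ = C1 * S * S * Real.exp 1 * ((1 + |y|) ^ 7 * Real.exp (-y ^ 2)) := by ring
    _ ≤ C1 * S * S * Real.exp 1 * (C2 * Real.exp (-(y ^ 2 / 2))) := by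
        have := h2 y
        gcongr
    _ = _ := by ring

theorem a4_Psi2_bound (t : ℝ) : ∃ C : ℝ, ∀ x ∈ Icc (-1:ℝ) 1, ∀ y : ℝ,
    ‖a4_Psi2 t (x + y * I)‖ ≤ C * Real.exp (-(y ^ 2 / 2)) := by
  obtain ⟨C1, hC1, h1⟩ := a4_xi_bound t
  obtain ⟨C3, hC3, h3⟩ := a4_xi_bound (-t)
  obtain ⟨C2, hC2, h2⟩ := a4_decay 10
  set q : ℝ := ‖(crit t * (1 - crit t)) ^ 2‖ with hq
  have hq0 : 0 < q := by
    rw [hq]
    exact norm_pos_iff.mpr (pow_ne_zero _ (mul_ne_zero (a4_crit_ne t) (a4_one_sub_crit_ne t)))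
  refine ⟨C1 * C3 * Real.exp 1 * C2 / q, fun x hx y => ?_⟩
  have e1 := h1 x hx y
  have e2 := h3 x hx y
  rw [a4_crit_neg] at e2
  have e3 := a4_exp_norm (y := y) hx
  have hy : 0 ≤ |y| := abs_nonneg y
  unfold a4_Psi2
  rw [norm_div, norm_mul, norm_mul, ← hq, div_mul_eq_mul_div]
  apply div_le_div_of_nonneg_right _ hq0.le
  calc _ ≤ (C1 * (1 + |y|) ^ 5) * (C3 * (1 + |y|) ^ 5) *
        (Real.exp 1 * Real.exp (-y ^ 2)) := by gcongr
    _ = C1 * C3 * Real.exp 1 * ((1 + |y|) ^ 10 * Real.exp (-y ^ 2)) := by ring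
    _ ≤ C1 * C3 * Real.exp 1 * (C2 * Real.exp (-(y ^ 2 / 2))) := by
        have := h2 y
        gcongr
    _ = _ := by ring

theorem a4_Gt_eq (t : ℝ) (z : ℂ) : Gt t z =
    cexp (z ^ 2) * ((1 - crit t - z) * (1 - crit t + z) * (crit t - z) * (crit t + z)) /
      (crit t * (1 - crit t)) ^ 2 := by
  have h0 := a4_crit_ne t
  have h1 := a4_one_sub_crit_ne t
  unfold Gt
  field_simp
  ring

theorem a4_Psi1_eq (t : ℝ) {z : ℂ} (hz : 1 / 2 < z.re) :
    a4_Psi1 t z = Gammaℝ (crit t) * (riemannZeta (crit t + z) * (Rt t z * Gt t z)) := by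
  have h0 := a4_crit_ne t
  have h1 := a4_one_sub_crit_ne t
  have hG := Gammaℝ_ne_zero_of_re_pos (s := crit t) (by rw [crit_re]; norm_num)
  have hre : 0 < (crit t + z).re := by rw [Complex.add_re, crit_re]; linarith
  have hw0 : crit t + z ≠ 0 := by
    intro h; rw [h] at hre; simp at hre
  have hw1 : crit t + z ≠ 1 := by
    intro h
    have := congrArg Complex.re h
    rw [Complex.add_re, crit_re, Complex.one_re] at this
    linarith
  rw [a4_Gt_eq]
  unfold a4_Psi1 Rt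
  rw [xi_eq hw0 hw1, a4_Lam hre]
  field_simp
  ring

theorem a4_Psi2_eq (t : ℝ) {z : ℂ} (hz : 1 / 2 < z.re) :
    a4_Psi2 t z = (Gammaℝ (crit t) * conj (Gammaℝ (crit t))) *
      (riemannZeta (crit t + z) * riemannZeta (1 - crit t + z) *
        (Rt t z * conj (Rt t (conj z)) * Gt t z)) := by
  have h0 := a4_crit_ne t
  have h1 := a4_one_sub_crit_ne t
  have hG := Gammaℝ_ne_zero_of_re_pos (s := crit t) (by rw [crit_re]; norm_num)
  have hG' : conj (Gammaℝ (crit t)) ≠ 0 := by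
    simpa using hG
  have hre : 0 < (crit t + z).re := by rw [Complex.add_re, crit_re]; linarith
  have hre' : 0 < (1 - crit t + z).re := by
    rw [Complex.add_re, ← a4_crit_neg, crit_re]; linarith
  have hw0 : crit t + z ≠ 0 := by
    intro h; rw [h] at hre; simp at hre
  have hw1 : crit t + z ≠ 1 := by
    intro h
    have := congrArg Complex.re h
    rw [Complex.add_re, crit_re, Complex.one_re] at this
    linarith
  have hv0 : 1 - crit t + z ≠ 0 := by
    intro h; rw [h] at hre'; simp at hre'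
  have hv1 : 1 - crit t + z ≠ 1 := by
    intro h
    have := congrArg Complex.re h
    rw [Complex.add_re, ← a4_crit_neg, crit_re, Complex.one_re] at this
    linarith
  have hc : conj (Gammaℝ (crit t + conj z)) = Gammaℝ (1 - crit t + z) := by
    rw [← a4_Gammaℝ_conj, map_add, conj_crit, Complex.conj_conj]
  rw [a4_Gt_eq]
  unfold a4_Psi2 Rt
  rw [xi_eq hw0 hw1, xi_eq hv0 hv1, a4_Lam hre, a4_Lam hre', map_div₀, hc]
  field_simp
  ring

theorem a4_Psi1_zero (t : ℝ) : a4_Psi1 t 0 = Gammaℝ (crit t) * riemannZeta (crit t) := by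
  have h0 := a4_crit_ne t
  have h1 := a4_one_sub_crit_ne t
  have h2 : crit t ≠ 1 := by
    intro h; rw [h] at h1; simp at h1
  have hre : 0 < (crit t).re := by rw [crit_re]; norm_num
  unfold a4_Psi1
  rw [add_zero, add_zero, sub_zero, xi_eq h0 h2, a4_Lam hre]
  simp only [ne_eq, OfNat.ofNat_ne_zero, not_false_eq_true, zero_pow, Complex.exp_zero, mul_one]
  field_simp
  ring

theorem a4_Psi2_zero (t : ℝ) : a4_Psi2 t 0 = (Gammaℝ (crit t) * conj (Gammaℝ (crit t))) *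
    ((‖riemannZeta (crit t)‖ ^ 2 : ℝ) : ℂ) := by
  have h0 := a4_crit_ne t
  have h1 := a4_one_sub_crit_ne t
  have h2 : crit t ≠ 1 := by
    intro h; rw [h] at h1; simp at h1
  have hre : 0 < (crit t).re := by rw [crit_re]; norm_num
  have h3 : 1 - crit t ≠ 1 := by
    intro h
    apply h0
    linear_combination -h
  have h4 : completedRiemannZeta (1 - crit t) = conj (completedRiemannZeta (crit t)) := by
    rw [← conj_crit, a4_Lam_conj hre]
  unfold a4_Psi2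
  rw [add_zero, add_zero, xi_eq h0 h2, xi_eq h1 h3, h4, a4_Lam hre, map_mul]
  have h5 : ((‖riemannZeta (crit t)‖ ^ 2 : ℝ) : ℂ) =
      riemannZeta (crit t) * conj (riemannZeta (crit t)) := by
    rw [Complex.mul_conj, Complex.normSq_eq_norm_sq]
  rw [h5]
  simp only [ne_eq, OfNat.ofNat_ne_zero, not_false_eq_true, zero_pow, Complex.exp_zero, mul_one]
  field_simp
  ring

theorem a4_Psi1_neg (t : ℝ) (z : ℂ) (hz : 1 / 2 < z.re) :
    a4_Psi1 t (-z) = conj (a4_Psi1 t (conj z)) := by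
  have h0 := a4_crit_ne t
  have h1 := a4_one_sub_crit_ne t
  have hre' : 0 < (1 - crit t + z).re := by
    rw [Complex.add_re, ← a4_crit_neg, crit_re]; linarith
  have hv0 : 1 - crit t + z ≠ 0 := by
    intro h; rw [h] at hre'; simp at hre'
  have hv1 : 1 - crit t + z ≠ 1 := by
    intro h
    have := congrArg Complex.re h
    rw [Complex.add_re, ← a4_crit_neg, crit_re, Complex.one_re] at this
    linarith
  have hre : 0 < (crit t + conj z).re := by
    rw [Complex.add_re, crit_re, Complex.conj_re]; linarith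
  have hw0 : crit t + conj z ≠ 0 := by
    intro h; rw [h] at hre; simp at hre
  have hw1 : crit t + conj z ≠ 1 := by
    intro h
    have := congrArg Complex.re h
    rw [Complex.add_re, crit_re, Complex.one_re, Complex.conj_re] at this
    linarith
  have hx1 : xi (crit t + -z) = xi (1 - crit t + z) := by
    rw [← xi_one_sub]; congr 1; ring
  have hL : conj (completedRiemannZeta (crit t + conj z)) = completedRiemannZeta (1 - crit t + z) := by
    rw [← a4_Lam_conj hre, map_add, conj_crit, Complex.conj_conj]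
  unfold a4_Psi1
  rw [hx1, xi_eq hv0 hv1, xi_eq hw0 hw1]
  simp only [map_div₀, map_neg, map_mul, map_sub, map_add, map_one, map_pow, conj_crit, hL,
    Complex.conj_conj, ← Complex.exp_conj, neg_sq, sub_sub_cancel]
  field_simp
  ring

/-- Apply `contour_shift` to `Ψ z = Λ(s+z) G_t(z) = -ξ(s+z)(s-z)(1-s+z)e^{z²}/(s(1-s))²`. -/
theorem afe_one (t : ℝ) {c : ℝ} (hc : 1/2 < c) (hc1 : c ≤ 1) :
    Integrable (fun y : ℝ => riemannZeta (crit t + ((c:ℂ) + y * I)) * (Rt t ((c:ℂ) + y * I) * Gt t ((c:ℂ) + y * I)) / ((c:ℂ) + y * I)) ∧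
    ‖riemannZeta (crit t)‖ ≤ 2 * ‖((1 / (2 * Real.pi) : ℝ) : ℂ) *
      ∫ y : ℝ, riemannZeta (crit t + ((c:ℂ) + y * I)) * (Rt t ((c:ℂ) + y * I) * Gt t ((c:ℂ) + y * I)) / ((c:ℂ) + y * I)‖ := by
  have hG := Gammaℝ_ne_zero_of_re_pos (s := crit t) (by rw [crit_re]; norm_num)
  obtain ⟨C, hC⟩ := a4_Psi1_bound t
  obtain ⟨i1, i2, i3⟩ := contour_shift (a4_Psi1_diff t) (c := c) (C := C) (by linarith)
    (fun x hx y => hC x ⟨by linarith [hx.1], by linarith [hx.2]⟩ y)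
  set F : ℝ → ℂ := fun y : ℝ => riemannZeta (crit t + ((c:ℂ) + y * I)) *
    (Rt t ((c:ℂ) + y * I) * Gt t ((c:ℂ) + y * I)) / ((c:ℂ) + y * I) with hF
  have hre : ∀ y : ℝ, 1 / 2 < ((c:ℂ) + y * I).re := by
    intro y; simpa using hc
  have e1 : (fun y : ℝ => a4_Psi1 t ((c:ℂ) + y * I) / ((c:ℂ) + y * I)) =
      fun y => Gammaℝ (crit t) * F y := by
    funext y
    rw [a4_Psi1_eq t (hre y), hF]
    ring
  have hint : Integrable F := by
    rw [e1] at i1
    have := i1.const_mul (Gammaℝ (crit t))⁻¹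
    refine this.congr (Eventually.of_forall fun y => ?_)
    simp only
    rw [← mul_assoc, inv_mul_cancel₀ hG, one_mul]
  refine ⟨hint, ?_⟩
  have e2 : (∫ y : ℝ, a4_Psi1 t (-((c:ℂ) + y * I)) / ((c:ℂ) + y * I)) =
      conj (∫ y : ℝ, a4_Psi1 t ((c:ℂ) + y * I) / ((c:ℂ) + y * I)) := by
    rw [← integral_conj, ← integral_neg_eq_self
      (fun y : ℝ => conj (a4_Psi1 t ((c:ℂ) + y * I) / ((c:ℂ) + y * I)))]
    refine integral_congr_ae (Eventually.of_forall fun y => ?_)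
    simp only
    have h1 : conj ((c:ℂ) + y * I) = (c:ℂ) + ((-y : ℝ) : ℂ) * I := by
      simp
    rw [a4_Psi1_neg t _ (hre y), h1, map_div₀, ← h1, Complex.conj_conj]
  rw [e2, e1, integral_const_mul, a4_Psi1_zero] at i3
  set A : ℂ := ((1 / (2 * Real.pi) : ℝ) : ℂ) * ∫ y, F y with hA
  have e3 : Gammaℝ (crit t) * riemannZeta (crit t) =
      Gammaℝ (crit t) * A + conj (Gammaℝ (crit t) * A) := by
    rw [i3, hA]
    simp only [map_mul, Complex.conj_ofReal]
    ring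
  have e4 : ‖Gammaℝ (crit t)‖ * ‖riemannZeta (crit t)‖ ≤ ‖Gammaℝ (crit t)‖ * (2 * ‖A‖) := by
    rw [← norm_mul, e3]
    calc _ ≤ ‖Gammaℝ (crit t) * A‖ + ‖conj (Gammaℝ (crit t) * A)‖ := norm_add_le _ _
      _ = 2 * ‖Gammaℝ (crit t) * A‖ := by rw [RCLike.norm_conj]; ring
      _ = _ := by rw [norm_mul]; ring
  exact le_of_mul_le_mul_left e4 (norm_pos_iff.mpr hG)

/-- Apply `contour_shift` to `Ψ z = Λ(s+z) Λ(1-s+z) G_t(z)`, an even entire function. -/
theorem afe_two (t : ℝ) {c : ℝ} (hc : 1/2 < c) (hc1 : c ≤ 1) :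
    Integrable (fun y : ℝ => riemannZeta (crit t + ((c:ℂ) + y * I)) * riemannZeta (1 - crit t + ((c:ℂ) + y * I)) *
      (Rt t ((c:ℂ) + y * I) * conj (Rt t (conj ((c:ℂ) + y * I))) * Gt t ((c:ℂ) + y * I)) / ((c:ℂ) + y * I)) ∧
    ((‖riemannZeta (crit t)‖ ^ 2 : ℝ) : ℂ) = 2 * (((1 / (2 * Real.pi) : ℝ) : ℂ) *
      ∫ y : ℝ, riemannZeta (crit t + ((c:ℂ) + y * I)) * riemannZeta (1 - crit t + ((c:ℂ) + y * I)) *
      (Rt t ((c:ℂ) + y * I) * conj (Rt t (conj ((c:ℂ) + y * I))) * Gt t ((c:ℂ) + y * I)) / ((c:ℂ) + y * I)) := by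
  have hG := Gammaℝ_ne_zero_of_re_pos (s := crit t) (by rw [crit_re]; norm_num)
  have hG' : conj (Gammaℝ (crit t)) ≠ 0 := by
    simpa using hG
  have hGG := mul_ne_zero hG hG'
  obtain ⟨C, hC⟩ := a4_Psi2_bound t
  obtain ⟨i1, i2, i3⟩ := contour_shift (a4_Psi2_diff t) (c := c) (C := C) (by linarith)
    (fun x hx y => hC x ⟨by linarith [hx.1], by linarith [hx.2]⟩ y)
  set F : ℝ → ℂ := fun y : ℝ => riemannZeta (crit t + ((c:ℂ) + y * I)) *
    riemannZeta (1 - crit t + ((c:ℂ) + y * I)) *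
    (Rt t ((c:ℂ) + y * I) * conj (Rt t (conj ((c:ℂ) + y * I))) * Gt t ((c:ℂ) + y * I)) /
      ((c:ℂ) + y * I) with hF
  have hre : ∀ y : ℝ, 1 / 2 < ((c:ℂ) + y * I).re := by
    intro y; simpa using hc
  have e1 : (fun y : ℝ => a4_Psi2 t ((c:ℂ) + y * I) / ((c:ℂ) + y * I)) =
      fun y => (Gammaℝ (crit t) * conj (Gammaℝ (crit t))) * F y := by
    funext y
    rw [a4_Psi2_eq t (hre y), hF]
    ring
  have hint : Integrable F := by
    rw [e1] at i1
    have := i1.const_mul (Gammaℝ (crit t) * conj (Gammaℝ (crit t)))⁻¹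
    refine this.congr (Eventually.of_forall fun y => ?_)
    simp only
    rw [← mul_assoc, inv_mul_cancel₀ hGG, one_mul]
  refine ⟨hint, ?_⟩
  have e2 : (∫ y : ℝ, a4_Psi2 t (-((c:ℂ) + y * I)) / ((c:ℂ) + y * I)) =
      ∫ y : ℝ, a4_Psi2 t ((c:ℂ) + y * I) / ((c:ℂ) + y * I) := by
    refine integral_congr_ae (Eventually.of_forall fun y => ?_)
    simp only
    congr 1
    unfold a4_Psi2
    have h1 : xi (crit t + -((c:ℂ) + y * I)) = xi (1 - crit t + ((c:ℂ) + y * I)) := by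
      rw [← xi_one_sub]; congr 1; ring
    have h2 : xi (1 - crit t + -((c:ℂ) + y * I)) = xi (crit t + ((c:ℂ) + y * I)) := by
      rw [← xi_one_sub]; congr 1; ring
    rw [h1, h2, neg_sq]
    ring
  rw [e2, e1, integral_const_mul, a4_Psi2_zero] at i3
  have e3 : (Gammaℝ (crit t) * conj (Gammaℝ (crit t))) * ((‖riemannZeta (crit t)‖ ^ 2 : ℝ) : ℂ) =
      (Gammaℝ (crit t) * conj (Gammaℝ (crit t))) *
        (2 * (((1 / (2 * Real.pi) : ℝ) : ℂ) * ∫ y, F y)) := by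
    rw [i3]; ring
  exact mul_left_cancel₀ hGG e3

end Pool.Agent.LibM3
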