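import Pool.Agent.LibM3.Defs

/-! Third moment, block A5: ratios of Gamma values. -/

set_option autoImplicit false

namespace Pool.Agent.LibM3

open MeasureTheory Set Filter Topology Complex ProbabilityTheory
open scoped NNReal ComplexConjugate

theorem a5_log_sub {u : ℂ} (hu : 0 < u.re) :
    Complex.log (1 + 1 / u) = Complex.log (u + 1) - Complex.log u := by
  have hu0 : u ≠ 0 := by rintro rfl; simp at hu
  have hu1 : (u + 1).re = u.re + 1 := by simp
  have hu10 : u + 1 ≠ 0 := by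
    intro h; rw [h] at hu1; simp at hu1; linarith
  have h1 : |Complex.arg u| < Real.pi / 2 := Complex.abs_arg_lt_pi_div_two_iff.2 (Or.inl hu)
  have h2 : |Complex.arg (u + 1)| < Real.pi / 2 :=
    Complex.abs_arg_lt_pi_div_two_iff.2 (Or.inl (by rw [hu1]; linarith))
  rw [abs_lt] at h1 h2
  have h3 : cexp (Complex.log (u + 1) - Complex.log u) = 1 + 1 / u := by
    rw [Complex.exp_sub, Complex.exp_log hu10, Complex.exp_log hu0]
    field_simp
  rw [← h3, Complex.log_exp]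
  · rw [Complex.sub_im, Complex.log_im, Complex.log_im]; linarith [h1.2, h2.1]
  · rw [Complex.sub_im, Complex.log_im, Complex.log_im]; linarith [h1.1, h2.2]

/-- terms of the correction -/
noncomputable def a5_d (w z : ℂ) (k : ℕ) : ℂ :=
  z * Complex.log (1 + 1 / (w + k)) - Complex.log (1 + z / (w + k))

theorem a5_norm_u {w : ℂ} (hw : 0 < w.re) (k : ℕ) :
    |w.im| ≤ ‖w + k‖ ∧ ((k : ℝ) + |w.im|) ^ 2 ≤ 2 * ‖w + k‖ ^ 2 := by
  have h1 : (w + k).im = w.im := by simp
  have h2 : (w + k).re = w.re + k := by simp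
  constructor
  · rw [← h1]; exact Complex.abs_im_le_norm _
  · rw [← Complex.normSq_eq_norm_sq, Complex.normSq_apply, h1, h2]
    have hk : (0 : ℝ) ≤ k := Nat.cast_nonneg k
    have h3 : (k : ℝ) ^ 2 ≤ (w.re + k) * (w.re + k) := by nlinarith
    have h4 : |w.im| ^ 2 = w.im * w.im := by rw [sq_abs]; ring
    nlinarith [sq_nonneg ((k : ℝ) - |w.im|)]

theorem a5_d_le {w z : ℂ} (hw : 0 < w.re) (hi : 2 ≤ |w.im|) (hz : ‖z‖ ≤ |w.im| / 2) (k : ℕ) :
    ‖a5_d w z k‖ ≤ ‖z‖ * (1 + ‖z‖) * (2 * (((k : ℝ) + |w.im|) ^ 2)⁻¹) := by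
  obtain ⟨h1, h2⟩ := a5_norm_u hw k
  have hpos : 0 < ‖w + k‖ := by linarith
  have hlog : ∀ a : ℂ, ‖a‖ ≤ 1 / 2 → ‖Complex.log (1 + a) - a‖ ≤ ‖a‖ ^ 2 := by
    intro a ha
    refine (Complex.norm_log_one_add_sub_self_le (by linarith)).trans ?_
    have h5 : (1 - ‖a‖)⁻¹ ≤ 2 := by
      rw [inv_le_comm₀ (by linarith) (by norm_num)]; linarith
    nlinarith [sq_nonneg ‖a‖]
  have e1 : ‖(1 : ℂ) / (w + k)‖ = 1 / ‖w + k‖ := by rw [norm_div, norm_one]
  have e2 : ‖z / (w + k)‖ = ‖z‖ / ‖w + k‖ := norm_div _ _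
  have b1 : ‖(1 : ℂ) / (w + k)‖ ≤ 1 / 2 := by
    rw [e1]; exact one_div_le_one_div_of_le (by norm_num) (by linarith)
  have b2 : ‖z / (w + k)‖ ≤ 1 / 2 := by
    rw [e2, div_le_iff₀ hpos]; linarith
  have c1 := hlog _ b1
  have c2 := hlog _ b2
  have key : a5_d w z k = z * (Complex.log (1 + 1 / (w + k)) - 1 / (w + k)) -
      (Complex.log (1 + z / (w + k)) - z / (w + k)) := by
    unfold a5_d; ring
  rw [key]
  have h3 : ‖z * (Complex.log (1 + 1 / (w + k)) - 1 / (w + k)) -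
      (Complex.log (1 + z / (w + k)) - z / (w + k))‖ ≤
      ‖z‖ * (1 / ‖w + k‖) ^ 2 + (‖z‖ / ‖w + k‖) ^ 2 := by
    refine (norm_sub_le _ _).trans ?_
    rw [norm_mul, ← e1, ← e2]
    gcongr
  refine h3.trans ?_
  have h4 : ‖z‖ * (1 / ‖w + k‖) ^ 2 + (‖z‖ / ‖w + k‖) ^ 2 =
      ‖z‖ * (1 + ‖z‖) * (‖w + k‖ ^ 2)⁻¹ := by
    field_simp
  rw [h4]
  have h5 : (‖w + k‖ ^ 2)⁻¹ ≤ 2 * (((k : ℝ) + |w.im|) ^ 2)⁻¹ := by
    have hk : (0 : ℝ) ≤ k := Nat.cast_nonneg k
    have hp : 0 < ((k : ℝ) + |w.im|) ^ 2 := by positivity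
    have : 2 * (((k : ℝ) + |w.im|) ^ 2)⁻¹ = ((((k : ℝ) + |w.im|) ^ 2) / 2)⁻¹ := by
      field_simp
    rw [this]
    apply inv_anti₀ (by positivity)
    linarith
  gcongr

theorem a5_partial (a : ℝ) (ha : 2 ≤ a) (n : ℕ) :
    ∑ k ∈ Finset.range n, (((k : ℝ) + a) ^ 2)⁻¹ ≤ 1 / (a - 1) - 1 / ((n : ℝ) + a - 1) := by
  induction n with
  | zero => simp
  | succ n ih =>
    rw [Finset.sum_range_succ]
    have hn : (0 : ℝ) ≤ n := Nat.cast_nonneg n
    have h1 : (((n : ℝ) + a) ^ 2)⁻¹ ≤ 1 / ((n : ℝ) + a - 1) - 1 / (((n + 1 : ℕ) : ℝ) + a - 1) := by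
      push_cast
      have e1 : 0 < (n : ℝ) + a - 1 := by linarith
      have e2 : 0 < (n : ℝ) + a := by linarith
      have e3 : (n : ℝ) + 1 + a - 1 = n + a := by ring
      rw [e3, div_sub_div _ _ e1.ne' e2.ne', inv_eq_one_div, div_le_div_iff₀ (by positivity)
        (by positivity)]
      nlinarith
    linarith

theorem a5_summable (a : ℝ) (ha : 2 ≤ a) :
    Summable (fun k : ℕ => (((k : ℝ) + a) ^ 2)⁻¹) ∧ ∑' k : ℕ, (((k : ℝ) + a) ^ 2)⁻¹ ≤ 2 / a := by
  have h : ∀ n : ℕ, ∑ k ∈ Finset.range n, (((k : ℝ) + a) ^ 2)⁻¹ ≤ 2 / a := by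
    intro n
    refine (a5_partial a ha n).trans ?_
    have hn : (0 : ℝ) ≤ n := Nat.cast_nonneg n
    have h1 : 0 ≤ 1 / ((n : ℝ) + a - 1) := div_nonneg zero_le_one (by linarith)
    have h2 : 1 / (a - 1) ≤ 2 / a := by
      rw [div_le_div_iff₀ (by linarith) (by linarith)]; linarith
    linarith
  exact ⟨summable_of_sum_range_le (fun k => by positivity) h,
    Real.tsum_le_of_sum_range_le (fun k => by positivity) h⟩

theorem a5_prod {w z : ℂ} (hw : 0 < w.re) (hi : 2 ≤ |w.im|) (hz : ‖z‖ ≤ |w.im| / 2) (n : ℕ) :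
    (∏ j ∈ Finset.range n, (w + z + j)) * cexp (∑ j ∈ Finset.range n, a5_d w z j) =
      (∏ j ∈ Finset.range n, (w + j)) * cexp (z * (Complex.log (w + n) - Complex.log w)) := by
  induction n with
  | zero => simp
  | succ n ih =>
    obtain ⟨h1, -⟩ := a5_norm_u hw n
    have hpos : 0 < ‖w + n‖ := by linarith
    have hne : w + n ≠ 0 := norm_pos_iff.1 hpos
    have hne2 : 1 + z / (w + n) ≠ 0 := by
      intro h
      have h2 : z / (w + n) = -1 := by linear_combination h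
      have h3 : ‖z / (w + n)‖ = 1 := by rw [h2]; simp
      rw [norm_div, div_eq_one_iff_eq hpos.ne'] at h3
      linarith
    have hre : 0 < (w + n).re := by
      have : (w + n).re = w.re + n := by simp
      rw [this]; positivity
    have hstep : (w + z + n) * cexp (a5_d w z n) =
        (w + n) * cexp (z * (Complex.log (w + (n + 1 : ℕ)) - Complex.log (w + n))) := by
      unfold a5_d
      rw [a5_log_sub hre, Complex.exp_sub, Complex.exp_log hne2]
      have e1 : w + z + n = (w + n) * (1 + z / (w + n)) := by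
        field_simp; ring
      rw [e1]
      have e2 : w + ((n + 1 : ℕ) : ℂ) = w + n + 1 := by push_cast; ring
      rw [e2, mul_assoc, mul_div_cancel₀ _ hne2]
    rw [Finset.prod_range_succ, Finset.sum_range_succ, Complex.exp_add, Finset.prod_range_succ]
    calc (∏ j ∈ Finset.range n, (w + z + j)) * (w + z + n) *
          (cexp (∑ j ∈ Finset.range n, a5_d w z j) * cexp (a5_d w z n)) =
        ((∏ j ∈ Finset.range n, (w + z + j)) * cexp (∑ j ∈ Finset.range n, a5_d w z j)) *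
          ((w + z + n) * cexp (a5_d w z n)) := by ring
      _ = (∏ j ∈ Finset.range n, (w + j)) * (w + n) *
          (cexp (z * (Complex.log (w + n) - Complex.log w)) *
            cexp (z * (Complex.log (w + (n + 1 : ℕ)) - Complex.log (w + n)))) := by
          rw [ih, hstep]; ring
      _ = _ := by
          rw [← Complex.exp_add]
          congr 2
          ring

theorem a5_tendsto (w : ℂ) (hw : 0 < w.re) :
    Tendsto (fun n : ℕ => Complex.log n - Complex.log (w + (n + 1 : ℕ))) atTop (𝓝 0) := by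
  have h1 : Tendsto (fun n : ℕ => 1 + (w + 1) * ((n : ℂ))⁻¹) atTop (𝓝 1) := by
    have h2 : Tendsto (fun n : ℕ => ((n : ℂ))⁻¹) atTop (𝓝 0) := tendsto_inv_atTop_nhds_zero_nat
    simpa using (h2.const_mul (w + 1)).const_add 1
  have h3 : Tendsto (fun n : ℕ => -Complex.log (1 + (w + 1) * ((n : ℂ))⁻¹)) atTop (𝓝 0) := by
    have h4 := ((continuousAt_clog (by simp : (1 : ℂ) ∈ slitPlane)).tendsto.comp h1).neg
    simpa using h4
  refine h3.congr' ?_
  filter_upwards [eventually_gt_atTop 0] with n hn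
  have hn0 : (0 : ℝ) < n := by exact_mod_cast hn
  have e1 : 1 + (w + 1) * ((n : ℂ))⁻¹ = (((n : ℝ)⁻¹ : ℝ) : ℂ) * (w + (n + 1 : ℕ)) := by
    have : (n : ℂ) ≠ 0 := by exact_mod_cast hn.ne'
    push_cast
    field_simp
    ring
  have hne : w + (n + 1 : ℕ) ≠ 0 := by
    intro h
    have := congrArg Complex.re h
    simp at this
    linarith
  rw [e1, Complex.log_ofReal_mul (by positivity) hne, Real.log_inv]
  have e2 : Complex.log (n : ℂ) = ((Real.log n : ℝ) : ℂ) := by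
    rw [Complex.ofReal_log hn0.le]; simp
  rw [e2]
  push_cast
  ring

/-- From Euler's limit formula (`Complex.GammaSeq_tendsto_Gamma`):
`Γ(w+z)/Γ(w) = w^z ∏_k (1+1/(w+k))^z / (1+z/(w+k))`. -/
theorem Gamma_ratio : ∃ C : ℝ, 0 < C ∧ ∀ w z : ℂ, 0 < w.re → 2 ≤ |w.im| → 0 ≤ z.re → ‖z‖ ≤ |w.im| / 2 →
    ∃ δ : ℂ, ‖δ‖ ≤ C * ‖z‖ * (1 + ‖z‖) / |w.im| ∧ Complex.Gamma (w + z) = Complex.Gamma w * w ^ z * cexp δ := by
  refine ⟨4, by norm_num, fun w z hw hi hzr hz => ?_⟩
  obtain ⟨hs1, hs2⟩ := a5_summable |w.im| hi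
  have hg : Summable (fun k : ℕ => ‖z‖ * (1 + ‖z‖) * (2 * (((k : ℝ) + |w.im|) ^ 2)⁻¹)) :=
    (hs1.mul_left 2).mul_left _
  have hsum : Summable (a5_d w z) := Summable.of_norm_bounded hg (a5_d_le hw hi hz)
  have hw0 : w ≠ 0 := by rintro rfl; simp at hw
  refine ⟨∑' k, a5_d w z k, ?_, ?_⟩
  · refine (tsum_of_norm_bounded hg.hasSum (a5_d_le hw hi hz)).trans ?_
    rw [tsum_mul_left, tsum_mul_left]
    have : 4 * ‖z‖ * (1 + ‖z‖) / |w.im| = ‖z‖ * (1 + ‖z‖) * (2 * (2 / |w.im|)) := by ring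
    rw [this]
    gcongr
  · have h1 : Tendsto (fun n => Complex.GammaSeq (w + z) n) atTop (𝓝 (Complex.Gamma (w + z))) :=
      Complex.GammaSeq_tendsto_Gamma _
    have h2 : Tendsto (fun n : ℕ => Complex.GammaSeq w n *
        cexp (z * (Complex.log n - Complex.log (w + (n + 1 : ℕ)))) * w ^ z *
          cexp (∑ j ∈ Finset.range (n + 1), a5_d w z j)) atTop
        (𝓝 (Complex.Gamma w * cexp (z * 0) * w ^ z * cexp (∑' k, a5_d w z k))) := by
      have e1 := (Complex.GammaSeq_tendsto_Gamma w)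
      have e2 := (Complex.continuous_exp.tendsto _).comp ((a5_tendsto w hw).const_mul z)
      have e3 := (Complex.continuous_exp.tendsto _).comp
        (hsum.hasSum.tendsto_sum_nat.comp (tendsto_add_atTop_nat 1))
      exact ((e1.mul e2).mul_const _).mul e3
    rw [mul_zero, Complex.exp_zero, mul_one] at h2
    refine tendsto_nhds_unique h1 (h2.congr' ?_)
    filter_upwards [eventually_gt_atTop 0] with n hn
    have hn0 : (n : ℂ) ≠ 0 := by exact_mod_cast hn.ne'
    have hp := a5_prod hw hi hz (n + 1)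
    have hne1 : ∏ j ∈ Finset.range (n + 1), (w + z + (j : ℂ)) ≠ 0 := by
      rw [Finset.prod_ne_zero_iff]
      intro j _ h
      have := congrArg Complex.re h
      simp at this
      have hj : (0 : ℝ) ≤ j := Nat.cast_nonneg j
      linarith
    have hne2 : ∏ j ∈ Finset.range (n + 1), (w + (j : ℂ)) ≠ 0 := by
      rw [Finset.prod_ne_zero_iff]
      intro j _ h
      have := congrArg Complex.re h
      simp at this
      have hj : (0 : ℝ) ≤ j := Nat.cast_nonneg j
      linarith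
    unfold Complex.GammaSeq
    rw [Complex.cpow_add _ _ hn0]
    rw [eq_div_iff hne1]
    have e5 : cexp (z * (Complex.log n - Complex.log (w + (n + 1 : ℕ)))) * w ^ z *
        cexp (z * (Complex.log (w + (n + 1 : ℕ)) - Complex.log w)) = (n : ℂ) ^ z := by
      rw [Complex.cpow_def_of_ne_zero hw0, Complex.cpow_def_of_ne_zero hn0, ← Complex.exp_add,
        ← Complex.exp_add]
      congr 1
      ring
    calc _ = (n : ℂ) ^ w * (n.factorial : ℂ) / (∏ j ∈ Finset.range (n + 1), (w + (j : ℂ))) *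
          (cexp (z * (Complex.log n - Complex.log (w + (n + 1 : ℕ)))) * w ^ z) *
          ((∏ j ∈ Finset.range (n + 1), (w + z + (j : ℂ))) *
            cexp (∑ j ∈ Finset.range (n + 1), a5_d w z j)) := by ring
      _ = (n : ℂ) ^ w * (n.factorial : ℂ) * (cexp (z * (Complex.log n - Complex.log (w + (n + 1 : ℕ)))) * w ^ z *
        cexp (z * (Complex.log (w + (n + 1 : ℕ)) - Complex.log w))) := by
          rw [hp]; field_simp
      _ = _ := by rw [e5]; ring

end Pool.Agent.LibM3
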