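import Pool.Agent.LibM3.A5

/-! Third moment, block A6: Stirling approximation of the archimedean factors. -/

set_option autoImplicit false

namespace Pool.Agent.LibM3

open MeasureTheory Set Filter Topology Complex ProbabilityTheory
open scoped NNReal ComplexConjugate
open Pool.Agent.LibZM

theorem a6_crit_re (t : ℝ) : (crit t).re = 1/2 := by simp [crit]

theorem a6_crit_im (t : ℝ) : (crit t).im = t := by simp [crit]

theorem a6_one_sub_crit_im (t : ℝ) : (1 - crit t).im = -t := by simp [crit]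

theorem a6_norm_crit {t : ℝ} (ht : 0 ≤ t) : t ≤ ‖crit t‖ := by
  have := Complex.abs_im_le_norm (crit t)
  rw [a6_crit_im, abs_of_nonneg ht] at this
  exact this

theorem a6_norm_one_sub_crit {t : ℝ} (ht : 0 ≤ t) : t ≤ ‖1 - crit t‖ := by
  have := Complex.abs_im_le_norm (1 - crit t)
  rw [a6_one_sub_crit_im, abs_neg, abs_of_nonneg ht] at this
  exact this

theorem a6_norm_z {x : ℝ} (hx : x ∈ Icc (0:ℝ) 1) (y : ℝ) : ‖(x:ℂ) + y * I‖ ≤ 1 + |y| := by
  refine (norm_add_le _ _).trans ?_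
  rw [norm_mul, Complex.norm_I, mul_one, Complex.norm_real, Complex.norm_real, Real.norm_eq_abs, Real.norm_eq_abs,
    abs_of_nonneg hx.1]
  linarith [hx.2]

/-- The logarithm of `s/2`. -/
theorem a6_log {t : ℝ} (ht : 1 ≤ t) :
    ∃ l : ℂ, ‖l‖ ≤ 1 / t ∧ Complex.log (crit t / 2) = ((Real.log (t/2) : ℝ) : ℂ) + (Real.pi / 2 : ℝ) * I + l := by
  have ht0 : 0 < t := by linarith
  set u : ℂ := -((1 / (2 * t) : ℝ) : ℂ) * I with hu
  have hun : ‖u‖ = 1 / (2 * t) := by
    rw [hu, norm_mul, norm_neg, Complex.norm_I, mul_one, Complex.norm_real, Real.norm_eq_abs, abs_of_pos (by positivity)]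
  have hu2 : ‖u‖ ≤ 1 / 2 := by
    rw [hun, div_le_div_iff₀ (by positivity) (by norm_num)]
    linarith
  refine ⟨Complex.log (1 + u), ?_, ?_⟩
  · refine (Complex.norm_log_one_add_half_le_self hu2).trans ?_
    rw [hun]
    rw [div_mul_div_comm, div_le_div_iff₀ (by positivity) (by positivity)]
    nlinarith
  · have hre : 0 < (1 + u).re := by
      rw [hu]
      simp
    have harg : |(1 + u).arg| < Real.pi / 2 := Complex.abs_arg_lt_pi_div_two_iff.mpr (Or.inl hre)
    have hne : (1 + u) ≠ 0 := by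
      intro h
      rw [h] at hre
      simp at hre
    have h1 : crit t / 2 = cexp (((Real.log (t/2) : ℝ) : ℂ) + (Real.pi / 2 : ℝ) * I + Complex.log (1 + u)) := by
      rw [Complex.exp_add, Complex.exp_add, Complex.exp_log hne, ← Complex.ofReal_exp, Real.exp_log (by positivity)]
      have h2 : cexp (((Real.pi / 2 : ℝ) : ℂ) * I) = I := by
        push_cast
        exact Complex.exp_pi_div_two_mul_I
      rw [h2, hu]
      unfold crit
      have hI : I * I = -1 := Complex.I_mul_I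
      have ht' : (t:ℂ) ≠ 0 := by exact_mod_cast ht0.ne'
      push_cast
      field_simp
      ring_nf
      rw [show I ^ 2 = -1 from Complex.I_sq]
      ring
    rw [h1, Complex.log_exp]
    · have h3 : (((Real.log (t/2) : ℝ) : ℂ) + (Real.pi / 2 : ℝ) * I + Complex.log (1 + u)).im = Real.pi / 2 + (1 + u).arg := by
        rw [Complex.add_im, Complex.add_im, Complex.log_im, Complex.ofReal_im, Complex.re_ofReal_mul |> fun _ => Complex.im_ofReal_mul]
        simp
      rw [h3]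
      have := (abs_lt.mp harg).1
      have := Real.pi_pos
      linarith
    · have h3 : (((Real.log (t/2) : ℝ) : ℂ) + (Real.pi / 2 : ℝ) * I + Complex.log (1 + u)).im = Real.pi / 2 + (1 + u).arg := by
        rw [Complex.add_im, Complex.add_im, Complex.log_im, Complex.ofReal_im, Complex.im_ofReal_mul]
        simp
      rw [h3]
      have := (abs_lt.mp harg).2
      linarith

theorem a6_Gamma_ne (t : ℝ) : Complex.Gamma (crit t / 2) ≠ 0 := by
  apply Complex.Gamma_ne_zero_of_re_pos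
  simp [crit]

theorem a6_Rt_eq (t : ℝ) (z : ℂ) :
    Rt t z = cexp (-(z / 2) * (Real.log Real.pi : ℝ)) * (Complex.Gamma (crit t / 2 + z / 2) / Complex.Gamma (crit t / 2)) := by
  have hpi : ((Real.pi : ℝ) : ℂ) ≠ 0 := by exact_mod_cast Real.pi_ne_zero
  have hlog : Complex.log ((Real.pi : ℝ) : ℂ) = ((Real.log Real.pi : ℝ) : ℂ) := (Complex.ofReal_log Real.pi_pos.le).symm
  unfold Rt
  rw [Complex.Gammaℝ_def, Complex.Gammaℝ_def, mul_div_mul_comm]
  congr 1
  · rw [Complex.cpow_def_of_ne_zero hpi, Complex.cpow_def_of_ne_zero hpi, ← Complex.exp_sub, hlog]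
    congr 1
    ring
  · rw [add_div]

theorem Rt_mid : ∃ C t₀ : ℝ, 0 < C ∧ 1 ≤ t₀ ∧ ∀ t, t₀ ≤ t → ∀ x ∈ Icc (0:ℝ) 1, ∀ y : ℝ, |y| ≤ t / 8 →
    ∃ δ : ℂ, ‖δ‖ ≤ C * (1 + |y|) ^ 2 / t ∧ Rt t (x + y * I) = Et t (x + y * I) * cexp δ := by
  obtain ⟨C, hC, h⟩ := Gamma_ratio
  refine ⟨2 * C + 1, 4, by positivity, by norm_num, fun t ht x hx y hy => ?_⟩
  have ht0 : 0 < t := by linarith
  set z : ℂ := (x:ℂ) + y * I with hz
  have hzn : ‖z‖ ≤ 1 + |y| := a6_norm_z hx y
  have hy0 := abs_nonneg y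
  have hwim : |(crit t / 2).im| = t / 2 := by
    have : (crit t / 2).im = t / 2 := by simp [crit]
    rw [this, abs_of_pos (by positivity)]
  obtain ⟨δ0, hδ0, hG⟩ := h (crit t / 2) (z / 2) (by simp [crit]) (by rw [hwim]; linarith)
    (by rw [hz]; simp; linarith [hx.1]) (by rw [hwim, norm_div]; simp; linarith)
  obtain ⟨l, hl, hlog⟩ := a6_log (t := t) (by linarith)
  refine ⟨δ0 + z / 2 * l, ?_, ?_⟩
  · have hz2 : ‖z / 2‖ = ‖z‖ / 2 := by rw [norm_div]; simp
    rw [hwim, hz2] at hδ0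
    have h1 : ‖δ0‖ ≤ (2 * C) * (1 + |y|) ^ 2 / t := by
      refine hδ0.trans ?_
      rw [div_le_div_iff₀ (by positivity) (by positivity)]
      have h2 : ‖z‖ / 2 * (1 + ‖z‖ / 2) ≤ (1 + |y|) ^ 2 := by nlinarith [norm_nonneg z]
      have h3 : C * (‖z‖ / 2) * (1 + ‖z‖ / 2) ≤ C * (1 + |y|) ^ 2 := by
        rw [mul_assoc]
        exact mul_le_mul_of_nonneg_left h2 hC.le
      nlinarith
    have h2 : ‖z / 2 * l‖ ≤ 1 * (1 + |y|) ^ 2 / t := by
      rw [norm_mul, hz2]
      have : ‖z‖ / 2 * ‖l‖ ≤ (1 + |y|) * (1 / t) := by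
        apply mul_le_mul _ hl (norm_nonneg _) (by positivity)
        linarith [norm_nonneg z]
      refine this.trans ?_
      rw [mul_one_div, one_mul]
      apply div_le_div_of_nonneg_right _ ht0.le
      nlinarith
    refine (norm_add_le _ _).trans ((add_le_add h1 h2).trans (le_of_eq ?_))
    ring
  · rw [a6_Rt_eq, hG]
    have hne := a6_Gamma_ne t
    have hw0 : crit t / 2 ≠ 0 := by
      intro h0
      have := congrArg Complex.re h0
      simp [crit] at this
    rw [Complex.cpow_def_of_ne_zero hw0, hlog]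
    have h1 : Complex.Gamma (crit t / 2) * cexp ((((Real.log (t/2) : ℝ) : ℂ) + (Real.pi / 2 : ℝ) * I + l) * (z / 2)) * cexp δ0 /
        Complex.Gamma (crit t / 2) = cexp ((((Real.log (t/2) : ℝ) : ℂ) + (Real.pi / 2 : ℝ) * I + l) * (z / 2)) * cexp δ0 := by
      field_simp
    rw [h1]
    unfold Et tt
    rw [← Complex.exp_add, ← Complex.exp_add, ← Complex.exp_add]
    congr 1
    have h2 : Real.log (t / (2 * Real.pi)) = Real.log (t / 2) - Real.log Real.pi := by
      rw [← Real.log_div (by positivity) Real.pi_ne_zero, div_div]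
    rw [h2]
    push_cast
    ring

theorem a6_norm_sin (w : ℂ) : ‖Complex.sin w‖ ≤ Real.exp |w.im| := by
  rw [Complex.sin]
  rw [norm_div, norm_mul, Complex.norm_I, mul_one]
  have h1 : ‖cexp (-w * I)‖ ≤ Real.exp |w.im| := by
    rw [Complex.norm_exp]
    apply Real.exp_le_exp.mpr
    simp
    exact le_abs_self _
  have h2 : ‖cexp (w * I)‖ ≤ Real.exp |w.im| := by
    rw [Complex.norm_exp]
    apply Real.exp_le_exp.mpr
    simp
    exact neg_le_abs _
  have h3 := norm_sub_le (cexp (-w * I)) (cexp (w * I))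
  have h4 : ‖(2:ℂ)‖ = 2 := by simp
  rw [h4]
  linarith

theorem a6_norm_Gamma_le {s : ℂ} (hs : 0 < s.re) : ‖Complex.Gamma s‖ ≤ Real.Gamma s.re := by
  rw [Complex.Gamma_eq_integral hs, Real.Gamma_eq_integral hs, Complex.GammaIntegral]
  refine (norm_integral_le_integral_norm _).trans (le_of_eq ?_)
  refine setIntegral_congr_fun measurableSet_Ioi fun x hx => ?_
  have hx' : (0:ℝ) < x := hx
  rw [norm_mul, Complex.norm_cpow_eq_rpow_re_of_pos hx', Complex.norm_real, Real.norm_eq_abs, abs_of_pos (Real.exp_pos _)]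
  simp

theorem a6_Gamma_bd : ∃ C : ℝ, 0 < C ∧ ∀ a ∈ Icc (1/4:ℝ) (3/4), Real.Gamma a ≤ C := by
  have hc : ContinuousOn Real.Gamma (Icc (1/4:ℝ) (3/4)) := by
    intro a ha
    apply ContinuousAt.continuousWithinAt
    apply (Real.differentiableAt_Gamma _).continuousAt
    intro m hm
    have h1 := ha.1
    have h2 : (0:ℝ) ≤ m := Nat.cast_nonneg m
    rw [hm] at h1
    linarith
  obtain ⟨C, hC⟩ := isCompact_Icc.exists_bound_of_continuousOn hc
  refine ⟨max C 1, by positivity, fun a ha => ?_⟩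
  have := hC a ha
  rw [Real.norm_eq_abs] at this
  exact (le_abs_self _).trans (this.trans (le_max_left _ _))

theorem Rt_far : ∃ C t₀ : ℝ, 0 < C ∧ 1 ≤ t₀ ∧ ∀ t, t₀ ≤ t → ∀ x ∈ Icc (0:ℝ) 1, ∀ y : ℝ,
    ‖Rt t (x + y * I)‖ ≤ C * Real.exp (2 * t) := by
  obtain ⟨C, hC, hG⟩ := a6_Gamma_bd
  refine ⟨C * C, 1, by positivity, le_rfl, fun t ht x hx y => ?_⟩
  have ht0 : 0 < t := by linarith
  set z : ℂ := (x:ℂ) + y * I with hz
  rw [a6_Rt_eq, norm_mul, norm_div]
  have h1 : ‖cexp (-(z / 2) * (Real.log Real.pi : ℝ))‖ ≤ 1 := by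
    rw [Complex.norm_exp]
    apply Real.exp_le_one_iff.mpr
    have h2 : (-(z / 2) * ((Real.log Real.pi : ℝ) : ℂ)).re = -(x / 2) * Real.log Real.pi := by
      rw [Complex.re_mul_ofReal]
      simp [hz]
    rw [h2]
    have h3 : 0 ≤ Real.log Real.pi := Real.log_nonneg (by linarith [Real.pi_gt_three])
    nlinarith [hx.1]
  have h2 : ‖Complex.Gamma (crit t / 2 + z / 2)‖ ≤ C := by
    have h3 : (crit t / 2 + z / 2).re = (1/2 + x) / 2 := by
      simp [crit, hz]
      ring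
    refine (a6_norm_Gamma_le (by rw [h3]; linarith [hx.1])).trans ?_
    rw [h3]
    exact hG _ ⟨by linarith [hx.1], by linarith [hx.2]⟩
  have h3 : (‖Complex.Gamma (crit t / 2)‖)⁻¹ ≤ C * Real.exp (2 * t) := by
    have h4 := Complex.Gamma_mul_Gamma_one_sub (crit t / 2)
    have hsin : Complex.sin (Real.pi * (crit t / 2)) ≠ 0 := by
      intro h0
      rw [h0, div_zero] at h4
      have h5 := a6_Gamma_ne t
      have h6 : Complex.Gamma (1 - crit t / 2) ≠ 0 := by
        apply Complex.Gamma_ne_zero_of_re_pos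
        simp [crit]
        norm_num
      exact (mul_ne_zero h5 h6) h4
    have h5 : (Complex.Gamma (crit t / 2))⁻¹ = Complex.Gamma (1 - crit t / 2) * Complex.sin (Real.pi * (crit t / 2)) / Real.pi := by
      have hpi : ((Real.pi : ℝ) : ℂ) ≠ 0 := by exact_mod_cast Real.pi_ne_zero
      have hne := a6_Gamma_ne t
      rw [eq_div_iff hsin] at h4
      rw [eq_div_iff hpi, inv_mul_eq_iff_eq_mul₀ hne, ← mul_assoc]
      exact h4.symm
    rw [← norm_inv, h5, norm_div, norm_mul]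
    have h6 : ‖Complex.Gamma (1 - crit t / 2)‖ ≤ C := by
      have h7 : (1 - crit t / 2).re = 3/4 := by
        simp [crit]
        norm_num
      refine (a6_norm_Gamma_le (by rw [h7]; norm_num)).trans ?_
      rw [h7]
      exact hG _ ⟨by norm_num, le_rfl⟩
    have h7 : ‖Complex.sin (Real.pi * (crit t / 2))‖ ≤ Real.exp (2 * t) := by
      refine (a6_norm_sin _).trans (Real.exp_le_exp.mpr ?_)
      rw [Complex.im_ofReal_mul]
      have h8 : (crit t / 2).im = t / 2 := by simp [crit]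
      rw [h8, abs_of_pos (by positivity)]
      nlinarith [Real.pi_lt_four]
    have h8 : 1 ≤ ‖((Real.pi : ℝ) : ℂ)‖ := by
      rw [Complex.norm_real, Real.norm_eq_abs, abs_of_pos Real.pi_pos]
      linarith [Real.pi_gt_three]
    refine (div_le_self (by positivity) h8).trans ?_
    exact mul_le_mul h6 h7 (norm_nonneg _) hC.le
  rw [div_eq_mul_inv]
  have h4 : ‖Complex.Gamma (crit t / 2 + z / 2)‖ * (‖Complex.Gamma (crit t / 2)‖)⁻¹ ≤ C * (C * Real.exp (2 * t)) :=
    mul_le_mul h2 h3 (by positivity) hC.le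
  calc _ ≤ 1 * (C * (C * Real.exp (2 * t))) := mul_le_mul h1 h4 (by positivity) zero_le_one
    _ = C * C * Real.exp (2 * t) := by ring

theorem a6_exp_sub_one (d : ℂ) : ‖cexp d - 1‖ ≤ ‖d‖ * Real.exp ‖d‖ := by
  have h := Complex.norm_exp_sub_sum_le_norm_mul_exp d 1
  simpa using h

theorem a6_gauss (B y : ℝ) : -y ^ 2 + B * (1 + |y|) ≤ -(y ^ 2 / 4) + (B + B ^ 2 / 3) := by
  have h1 : y ^ 2 = |y| ^ 2 := (sq_abs y).symm
  rw [h1]
  nlinarith [sq_nonneg (3 * |y| - 2 * B)]

/-- The abstract comparison. -/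
theorem a6_gen {C : ℝ} (hC : 0 < C) : ∃ K : ℝ, 0 < K ∧ ∀ t : ℝ, 1 ≤ t → ∀ x ∈ Icc (0:ℝ) 1, ∀ y : ℝ, ∀ P : ℝ, 1 ≤ P →
    ∀ R E : ℂ, ‖E‖ ≤ P * Real.exp |y| → (|y| ≤ t / 8 → ∃ δ : ℂ, ‖δ‖ ≤ C * (1 + |y|) ^ 2 / t ∧ R = E * cexp δ) →
    ‖R‖ ≤ C * Real.exp (C * t) →
    ‖R * Gt t (x + y * I) - cexp (((x:ℂ) + y * I) ^ 2) * E‖ ≤ K * (P / t) * Real.exp (-(y ^ 2 / 4)) := by
  set B : ℝ := 7 + 8 * C with hB
  refine ⟨(32 * C + 8) * Real.exp (1 + (B + B ^ 2 / 3)), by positivity, ?_⟩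
  intro t ht x hx y P hP R E hE hmid hfar
  have ht0 : 0 < t := by linarith
  have hP0 : 0 < P := by linarith
  have hy0 := abs_nonneg y
  set a : ℝ := 1 + |y| with ha
  have ha1 : 1 ≤ a := by linarith
  have ha0 : 0 < a := by linarith
  set z : ℂ := (x:ℂ) + y * I with hz
  have hzn : ‖z‖ ≤ a := a6_norm_z hx y
  set q : ℂ := (1 - (z / (1 - crit t)) ^ 2) * (1 - (z / crit t) ^ 2) with hq
  have hGt : Gt t z = cexp (z ^ 2) * q := by
    rw [hq]
    unfold Gt
    ring
  set r : ℝ := a ^ 2 / t with hr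
  have hr0 : 0 ≤ r := by positivity
  have hterm : ∀ s : ℂ, t ≤ ‖s‖ → ‖(z / s) ^ 2‖ ≤ r := by
    intro s hs
    rw [norm_pow, norm_div, div_pow, hr]
    have h1 : ‖z‖ ^ 2 ≤ a ^ 2 := pow_le_pow_left₀ (norm_nonneg _) hzn 2
    have h2 : t ≤ ‖s‖ ^ 2 := by nlinarith
    exact div_le_div₀ (by positivity) h1 ht0 h2
  have hb1 := hterm _ (a6_norm_one_sub_crit ht0.le)
  have hb2 := hterm _ (a6_norm_crit ht0.le)
  have hra : r ≤ a ^ 2 := div_le_self (by positivity) ht
  have hq1 : ‖q - 1‖ ≤ 3 * a ^ 4 / t := by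
    have h1 : q - 1 = -(z / (1 - crit t)) ^ 2 - (z / crit t) ^ 2 + (z / (1 - crit t)) ^ 2 * (z / crit t) ^ 2 := by
      rw [hq]; ring
    have h2 : ‖q - 1‖ ≤ r + r + r * r := by
      rw [h1]
      refine (norm_add_le _ _).trans (add_le_add ((norm_sub_le _ _).trans (add_le_add ?_ hb2)) ?_)
      · rw [norm_neg]; exact hb1
      · rw [norm_mul]
        exact mul_le_mul hb1 hb2 (norm_nonneg _) hr0
    refine h2.trans ?_
    have h3 : a ^ 2 ≤ a ^ 4 := pow_le_pow_right₀ ha1 (by norm_num)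
    have h4 : r ≤ a ^ 4 / t := div_le_div_of_nonneg_right h3 ht0.le
    have h5 : r * r ≤ a ^ 4 / t := by
      calc r * r ≤ a ^ 2 * r := mul_le_mul_of_nonneg_right hra hr0
        _ = a ^ 4 / t := by rw [hr]; ring
    have h6 : 3 * a ^ 4 / t = 3 * (a ^ 4 / t) := by ring
    rw [h6]
    linarith
  have hq2 : ‖q‖ ≤ 4 * a ^ 4 := by
    have h1 : ‖q‖ ≤ (1 + r) * (1 + r) := by
      rw [hq, norm_mul]
      refine mul_le_mul ?_ ?_ (norm_nonneg _) (by positivity)
      · refine (norm_sub_le _ _).trans ?_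
        rw [norm_one]
        linarith
      · refine (norm_sub_le _ _).trans ?_
        rw [norm_one]
        linarith
    have h2 : 1 + r ≤ 2 * a ^ 2 := by nlinarith
    calc ‖q‖ ≤ (1 + r) * (1 + r) := h1
      _ ≤ (2 * a ^ 2) * (2 * a ^ 2) := mul_le_mul h2 h2 (by positivity) (by positivity)
      _ = 4 * a ^ 4 := by ring
  have hez : ‖cexp (z ^ 2)‖ ≤ Real.exp (1 + -y ^ 2) := by
    rw [Complex.norm_exp]
    apply Real.exp_le_exp.mpr
    have : (z ^ 2).re = x ^ 2 - y ^ 2 := by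
      rw [hz, sq, Complex.mul_re]
      simp
      ring
    rw [this]
    nlinarith [hx.1, hx.2]
  have hapow : ∀ k : ℕ, a ^ k ≤ Real.exp (k * a) := by
    intro k
    rw [Real.exp_nat_mul]
    apply pow_le_pow_left₀ ha0.le
    have := Real.add_one_le_exp a
    linarith
  have hfin : (32 * C + 8) * (P / t) * Real.exp (1 + -y ^ 2 + B * a) ≤
      (32 * C + 8) * Real.exp (1 + (B + B ^ 2 / 3)) * (P / t) * Real.exp (-(y ^ 2 / 4)) := by
    have h1 : Real.exp (1 + -y ^ 2 + B * a) ≤ Real.exp (1 + (B + B ^ 2 / 3)) * Real.exp (-(y ^ 2 / 4)) := by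
      rw [← Real.exp_add]
      apply Real.exp_le_exp.mpr
      have := a6_gauss B y
      rw [← ha] at this
      linarith
    calc _ ≤ (32 * C + 8) * (P / t) * (Real.exp (1 + (B + B ^ 2 / 3)) * Real.exp (-(y ^ 2 / 4))) :=
          mul_le_mul_of_nonneg_left h1 (by positivity)
      _ = _ := by ring
  refine le_trans ?_ hfin
  have hya : |y| ≤ a := by linarith
  have hEa : ‖E‖ ≤ P * Real.exp a := hE.trans (mul_le_mul_of_nonneg_left (Real.exp_le_exp.mpr hya) hP0.le)
  by_cases hc : |y| ≤ t / 8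
  · obtain ⟨δ, hδ, hR⟩ := hmid hc
    have hat : a / t ≤ 2 := by
      rw [div_le_iff₀ ht0]
      linarith
    have hδ2 : ‖δ‖ ≤ 2 * C * a := by
      refine hδ.trans ?_
      have : C * a ^ 2 / t = C * a * (a / t) := by ring
      rw [this]
      have h2 : C * a * (a / t) ≤ C * a * 2 := mul_le_mul_of_nonneg_left hat (by positivity)
      linarith
    have h1 : R * Gt t z - cexp (z ^ 2) * E = cexp (z ^ 2) * E * ((cexp δ - 1) * q + (q - 1)) := by
      rw [hGt, hR]; ring
    rw [h1, norm_mul, norm_mul]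
    have h2 : ‖(cexp δ - 1) * q + (q - 1)‖ ≤ (4 * C + 3) * (1 / t) * Real.exp (6 * a + 2 * C * a) := by
      refine (norm_add_le _ _).trans ?_
      rw [norm_mul]
      have h3 : ‖cexp δ - 1‖ ≤ C * a ^ 2 / t * Real.exp (2 * C * a) := by
        refine (a6_exp_sub_one δ).trans ?_
        exact mul_le_mul hδ (Real.exp_le_exp.mpr hδ2) (Real.exp_pos _).le (by positivity)
      have h4 : ‖cexp δ - 1‖ * ‖q‖ ≤ C * a ^ 2 / t * Real.exp (2 * C * a) * (4 * a ^ 4) :=
        mul_le_mul h3 hq2 (norm_nonneg _) (by positivity)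
      have h5 : C * a ^ 2 / t * Real.exp (2 * C * a) * (4 * a ^ 4) = 4 * C * (1 / t) * (a ^ 6 * Real.exp (2 * C * a)) := by ring
      have h6 : a ^ 6 * Real.exp (2 * C * a) ≤ Real.exp (6 * a + 2 * C * a) := by
        rw [Real.exp_add]
        apply mul_le_mul_of_nonneg_right _ (Real.exp_pos _).le
        have := hapow 6
        exact_mod_cast this
      have h7 : a ^ 4 ≤ Real.exp (6 * a + 2 * C * a) := by
        have h8 : a ^ 4 ≤ a ^ 6 := pow_le_pow_right₀ ha1 (by norm_num)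
        have h9 : (1:ℝ) ≤ Real.exp (2 * C * a) := Real.one_le_exp (by positivity)
        nlinarith [pow_pos ha0 6]
      have h8 : 3 * a ^ 4 / t ≤ 3 * (1 / t) * Real.exp (6 * a + 2 * C * a) := by
        have : 3 * a ^ 4 / t = 3 * (1 / t) * a ^ 4 := by ring
        rw [this]
        exact mul_le_mul_of_nonneg_left h7 (by positivity)
      have h9 : 4 * C * (1 / t) * (a ^ 6 * Real.exp (2 * C * a)) ≤ 4 * C * (1 / t) * Real.exp (6 * a + 2 * C * a) :=
        mul_le_mul_of_nonneg_left h6 (by positivity)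
      calc ‖cexp δ - 1‖ * ‖q‖ + ‖q - 1‖ ≤ 4 * C * (1 / t) * Real.exp (6 * a + 2 * C * a) +
            3 * (1 / t) * Real.exp (6 * a + 2 * C * a) := by
              refine add_le_add (h4.trans (by rw [h5]; exact h9)) (hq1.trans h8)
        _ = _ := by ring
    have h3 : ‖cexp (z ^ 2)‖ * ‖E‖ ≤ Real.exp (1 + -y ^ 2) * (P * Real.exp a) :=
      mul_le_mul hez hEa (norm_nonneg _) (Real.exp_pos _).le
    refine (mul_le_mul h3 h2 (norm_nonneg _) (by positivity)).trans ?_
    have h4 : Real.exp (1 + -y ^ 2) * (P * Real.exp a) * ((4 * C + 3) * (1 / t) * Real.exp (6 * a + 2 * C * a)) =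
        (4 * C + 3) * (P / t) * Real.exp (1 + -y ^ 2 + (7 + 2 * C) * a) := by
      have : Real.exp (1 + -y ^ 2 + (7 + 2 * C) * a) = Real.exp (1 + -y ^ 2) * Real.exp a * Real.exp (6 * a + 2 * C * a) := by
        rw [← Real.exp_add, ← Real.exp_add]
        congr 1
        ring
      rw [this]
      ring
    rw [h4]
    refine mul_le_mul (mul_le_mul_of_nonneg_right (by linarith) (by positivity)) (Real.exp_le_exp.mpr ?_)
      (Real.exp_pos _).le (by positivity)
    rw [hB]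
    nlinarith
  · have hc' : t / 8 < |y| := not_le.mp hc
    have hta : t ≤ 8 * a := by linarith
    have h1t : 1 ≤ 8 * a * (1 / t) := by
      rw [mul_one_div, le_div_iff₀ ht0]
      linarith
    have h1 : ‖R * Gt t z‖ ≤ (32 * C) * (P / t) * Real.exp (1 + -y ^ 2 + (5 + 8 * C) * a) := by
      rw [hGt, norm_mul, norm_mul]
      have h2 : ‖R‖ ≤ C * Real.exp (8 * C * a) := by
        refine hfar.trans (mul_le_mul_of_nonneg_left (Real.exp_le_exp.mpr ?_) hC.le)
        nlinarith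
      have h3 : ‖cexp (z ^ 2)‖ * ‖q‖ ≤ Real.exp (1 + -y ^ 2) * (4 * a ^ 4) :=
        mul_le_mul hez hq2 (norm_nonneg _) (Real.exp_pos _).le
      have h4 : ‖R‖ * (‖cexp (z ^ 2)‖ * ‖q‖) ≤ C * Real.exp (8 * C * a) * (Real.exp (1 + -y ^ 2) * (4 * a ^ 4)) :=
        mul_le_mul h2 h3 (by positivity) (by positivity)
      refine h4.trans ?_
      have h5 : C * Real.exp (8 * C * a) * (Real.exp (1 + -y ^ 2) * (4 * a ^ 4)) ≤
          P * (8 * a * (1 / t)) * (C * Real.exp (8 * C * a) * (Real.exp (1 + -y ^ 2) * (4 * a ^ 4))) := by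
        have h6 : 1 ≤ P * (8 * a * (1 / t)) := by nlinarith
        have h7 : 0 ≤ C * Real.exp (8 * C * a) * (Real.exp (1 + -y ^ 2) * (4 * a ^ 4)) := by positivity
        nlinarith
      refine h5.trans ?_
      have h6 : P * (8 * a * (1 / t)) * (C * Real.exp (8 * C * a) * (Real.exp (1 + -y ^ 2) * (4 * a ^ 4))) =
          (32 * C) * (P / t) * (a ^ 5 * (Real.exp (8 * C * a) * Real.exp (1 + -y ^ 2))) := by ring
      rw [h6]
      refine mul_le_mul_of_nonneg_left ?_ (by positivity)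
      have h7 : Real.exp (1 + -y ^ 2 + (5 + 8 * C) * a) = Real.exp (5 * a) * (Real.exp (8 * C * a) * Real.exp (1 + -y ^ 2)) := by
        rw [← Real.exp_add, ← Real.exp_add]
        congr 1
        ring
      rw [h7]
      refine mul_le_mul_of_nonneg_right ?_ (by positivity)
      have := hapow 5
      exact_mod_cast this
    have h2 : ‖cexp (z ^ 2) * E‖ ≤ 8 * (P / t) * Real.exp (1 + -y ^ 2 + 2 * a) := by
      rw [norm_mul]
      have h3 : ‖cexp (z ^ 2)‖ * ‖E‖ ≤ Real.exp (1 + -y ^ 2) * (P * Real.exp a) :=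
        mul_le_mul hez hEa (norm_nonneg _) (Real.exp_pos _).le
      refine h3.trans ?_
      have h4 : Real.exp (1 + -y ^ 2) * (P * Real.exp a) ≤ (8 * a * (1 / t)) * (Real.exp (1 + -y ^ 2) * (P * Real.exp a)) := by
        have h7 : 0 ≤ Real.exp (1 + -y ^ 2) * (P * Real.exp a) := by positivity
        nlinarith
      refine h4.trans ?_
      have h5 : (8 * a * (1 / t)) * (Real.exp (1 + -y ^ 2) * (P * Real.exp a)) =
          8 * (P / t) * (a * (Real.exp (1 + -y ^ 2) * Real.exp a)) := by ring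
      rw [h5]
      refine mul_le_mul_of_nonneg_left ?_ (by positivity)
      have h6 : Real.exp (1 + -y ^ 2 + 2 * a) = Real.exp a * (Real.exp (1 + -y ^ 2) * Real.exp a) := by
        rw [← Real.exp_add, ← Real.exp_add]
        congr 1
        ring
      rw [h6]
      refine mul_le_mul_of_nonneg_right ?_ (by positivity)
      have := hapow 1
      simpa using this
    have h3 : Real.exp (1 + -y ^ 2 + (5 + 8 * C) * a) ≤ Real.exp (1 + -y ^ 2 + B * a) := by
      apply Real.exp_le_exp.mpr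
      rw [hB]
      nlinarith
    have h4 : Real.exp (1 + -y ^ 2 + 2 * a) ≤ Real.exp (1 + -y ^ 2 + B * a) := by
      apply Real.exp_le_exp.mpr
      rw [hB]
      nlinarith
    calc ‖R * Gt t z - cexp (z ^ 2) * E‖ ≤ ‖R * Gt t z‖ + ‖cexp (z ^ 2) * E‖ := norm_sub_le _ _
      _ ≤ (32 * C) * (P / t) * Real.exp (1 + -y ^ 2 + B * a) + 8 * (P / t) * Real.exp (1 + -y ^ 2 + B * a) := by
          refine add_le_add (h1.trans ?_) (h2.trans ?_)
          · exact mul_le_mul_of_nonneg_left h3 (by positivity)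
          · exact mul_le_mul_of_nonneg_left h4 (by positivity)
      _ = _ := by ring

theorem a6_tt_le {t : ℝ} (ht : 1 ≤ t) : Real.exp (Real.log (t / (2 * Real.pi))) ≤ t := by
  have ht0 : 0 < t := by linarith
  rw [Real.exp_log (by positivity)]
  apply div_le_self ht0.le
  linarith [Real.pi_gt_three]

theorem a6_log_le {t : ℝ} (ht : 1 ≤ t) : Real.log (t / (2 * Real.pi)) ≤ Real.log t := by
  have ht0 : 0 < t := by linarith
  apply Real.log_le_log (by positivity)
  apply div_le_self ht0.le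
  linarith [Real.pi_gt_three]

theorem stirling_one : ∃ C t₀ : ℝ, 0 < C ∧ 1 ≤ t₀ ∧ ∀ t, t₀ ≤ t → ∀ x ∈ Icc (0:ℝ) 1, ∀ y : ℝ,
    ‖Rt t (x + y * I) * Gt t (x + y * I) - cexp (((x:ℂ) + y * I) ^ 2 + ((x:ℂ) + y * I) * ((tt t : ℝ) + (Real.pi / 4 : ℝ) * I))‖ ≤
      C * t ^ (x / 2 - 1) * Real.exp (-(y ^ 2 / 4)) := by
  obtain ⟨C1, t1, hC1, ht1, hmid⟩ := Rt_mid
  obtain ⟨C2, t2, hC2, ht2, hfar⟩ := Rt_far
  obtain ⟨K, hK, hgen⟩ := a6_gen (C := C1 + C2 + 2) (by positivity)
  refine ⟨K, max t1 t2, hK, ht1.trans (le_max_left _ _), fun t ht x hx y => ?_⟩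
  have htt1 : t1 ≤ t := (le_max_left _ _).trans ht
  have htt2 : t2 ≤ t := (le_max_right _ _).trans ht
  have ht' : 1 ≤ t := ht1.trans htt1
  have ht0 : 0 < t := by linarith
  have h := hgen t ht' x hx y (t ^ (x / 2)) (Real.one_le_rpow ht' (by linarith [hx.1])) (Rt t (x + y * I)) (Et t (x + y * I))
    (by
      unfold Et
      rw [Complex.norm_exp, Real.rpow_def_of_pos ht0, ← Real.exp_add]
      apply Real.exp_le_exp.mpr
      have h1 : (((x:ℂ) + y * I) * ((tt t : ℝ) + (Real.pi / 4 : ℝ) * I)).re = x * tt t - y * (Real.pi / 4) := by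
        simp
      rw [h1]
      unfold tt
      have h2 := a6_log_le ht'
      have h3 : x * (Real.log (t / (2 * Real.pi)) / 2) ≤ Real.log t * (x / 2) := by
        nlinarith [hx.1]
      have h4 : -(y * (Real.pi / 4)) ≤ |y| := by
        have h5 : -(y * (Real.pi / 4)) ≤ |y| * (Real.pi / 4) := by
          have := neg_abs_le y
          nlinarith [Real.pi_pos]
        have h6 : |y| * (Real.pi / 4) ≤ |y| := by
          nlinarith [Real.pi_lt_four, abs_nonneg y]
        linarith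
      linarith)
    (fun hy => by
      obtain ⟨δ, hδ, hR⟩ := hmid t htt1 x hx y hy
      refine ⟨δ, hδ.trans ?_, hR⟩
      apply div_le_div_of_nonneg_right _ ht0.le
      apply mul_le_mul_of_nonneg_right _ (by positivity)
      linarith)
    (by
      refine (hfar t htt2 x hx y).trans ?_
      refine mul_le_mul (by linarith) (Real.exp_le_exp.mpr ?_) (Real.exp_pos _).le (by positivity)
      apply mul_le_mul_of_nonneg_right _ ht0.le
      linarith)
  have h1 : cexp (((x:ℂ) + y * I) ^ 2 + ((x:ℂ) + y * I) * ((tt t : ℝ) + (Real.pi / 4 : ℝ) * I)) =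
      cexp (((x:ℂ) + y * I) ^ 2) * Et t (x + y * I) := by
    unfold Et
    rw [Complex.exp_add]
  have h2 : t ^ (x / 2 - 1) = t ^ (x / 2) / t := by
    rw [Real.rpow_sub_one ht0.ne']
  rw [h1, h2]
  exact h

theorem stirling_two : ∃ C t₀ : ℝ, 0 < C ∧ 1 ≤ t₀ ∧ ∀ t, t₀ ≤ t → ∀ x ∈ Icc (0:ℝ) 1, ∀ y : ℝ,
    ‖Rt t (x + y * I) * conj (Rt t (conj ((x:ℂ) + y * I))) * Gt t (x + y * I) -
      cexp (((x:ℂ) + y * I) ^ 2 + ((x:ℂ) + y * I) * ((Real.log (t / (2 * Real.pi)) : ℝ) + (0:ℝ) * I))‖ ≤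
      C * t ^ (x - 1) * Real.exp (-(y ^ 2 / 4)) := by
  obtain ⟨C1, t1, hC1, ht1, hmid⟩ := Rt_mid
  obtain ⟨C2, t2, hC2, ht2, hfar⟩ := Rt_far
  obtain ⟨K, hK, hgen⟩ := a6_gen (C := 2 * C1 + C2 * C2 + 4) (by positivity)
  refine ⟨K, max t1 t2, hK, ht1.trans (le_max_left _ _), fun t ht x hx y => ?_⟩
  have htt1 : t1 ≤ t := (le_max_left _ _).trans ht
  have htt2 : t2 ≤ t := (le_max_right _ _).trans ht
  have ht' : 1 ≤ t := ht1.trans htt1
  have ht0 : 0 < t := by linarith
  have hconj : conj ((x:ℂ) + y * I) = (x:ℂ) + ((-y : ℝ) : ℂ) * I := by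
    simp [map_add, map_mul, Complex.conj_ofReal, Complex.conj_I]
  have h := hgen t ht' x hx y (t ^ x) (Real.one_le_rpow ht' hx.1)
    (Rt t (x + y * I) * conj (Rt t (conj ((x:ℂ) + y * I))))
    (cexp (((x:ℂ) + y * I) * ((Real.log (t / (2 * Real.pi)) : ℝ) + (0:ℝ) * I)))
    (by
      rw [Complex.norm_exp, Real.rpow_def_of_pos ht0, ← Real.exp_add]
      apply Real.exp_le_exp.mpr
      have h1 : (((x:ℂ) + y * I) * ((Real.log (t / (2 * Real.pi)) : ℝ) + (0:ℝ) * I)).re = x * Real.log (t / (2 * Real.pi)) := by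
        simp
      rw [h1]
      have h2 := a6_log_le ht'
      nlinarith [hx.1, abs_nonneg y])
    (fun hy => by
      obtain ⟨δ, hδ, hR⟩ := hmid t htt1 x hx y hy
      obtain ⟨δ', hδ', hR'⟩ := hmid t htt1 x hx (-y) (by rw [abs_neg]; exact hy)
      refine ⟨δ + conj δ', ?_, ?_⟩
      · rw [abs_neg] at hδ'
        refine (norm_add_le _ _).trans ?_
        rw [Complex.norm_conj]
        have h1 : (2 * C1 + C2 * C2 + 4) * (1 + |y|) ^ 2 / t =
            C1 * (1 + |y|) ^ 2 / t + C1 * (1 + |y|) ^ 2 / t + (C2 * C2 + 4) * (1 + |y|) ^ 2 / t := by ring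
        rw [h1]
        have h2 : 0 ≤ (C2 * C2 + 4) * (1 + |y|) ^ 2 / t := by positivity
        linarith
      · rw [hconj, hR, hR']
        unfold Et
        rw [map_mul, ← Complex.exp_conj, ← Complex.exp_conj, ← Complex.exp_add, ← Complex.exp_add, ← Complex.exp_add,
          ← Complex.exp_add]
        congr 1
        unfold tt
        simp only [map_add, map_mul, Complex.conj_ofReal, Complex.conj_I]
        push_cast
        ring)
    (by
      rw [norm_mul, Complex.norm_conj, hconj]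
      have h1 := hfar t htt2 x hx y
      have h2 := hfar t htt2 x hx (-y)
      refine (mul_le_mul h1 h2 (norm_nonneg _) (by positivity)).trans ?_
      have h3 : C2 * Real.exp (2 * t) * (C2 * Real.exp (2 * t)) = (C2 * C2) * Real.exp (4 * t) := by
        have : Real.exp (4 * t) = Real.exp (2 * t) * Real.exp (2 * t) := by
          rw [← Real.exp_add]
          congr 1
          ring
        rw [this]
        ring
      rw [h3]
      refine mul_le_mul (by nlinarith) (Real.exp_le_exp.mpr ?_) (Real.exp_pos _).le (by positivity)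
      apply mul_le_mul_of_nonneg_right _ ht0.le
      nlinarith)
  have h2 : t ^ (x - 1) = t ^ x / t := by
    rw [Real.rpow_sub_one ht0.ne']
  rw [Complex.exp_add, h2]
  exact h

end Pool.Agent.LibM3
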