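import Pool.Agent.LibM3.A1
import Pool.Agent.LibM3.A4
import Pool.Agent.LibM3.A6

/-! Third moment, block A7: `|ζ(1/2+it)| ≤ 2 |D_t| + O(t^{-1/2})`. -/

set_option autoImplicit false

namespace Pool.Agent.LibM3

open MeasureTheory Set Filter Topology Complex ProbabilityTheory
open scoped NNReal ComplexConjugate
open Pool.Agent.LibZM

theorem a7_crit_re (t : ℝ) : (crit t).re = 1/2 := by
  unfold crit; simp

theorem a7_crit_ne (t : ℝ) : crit t ≠ 0 := by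
  intro h
  have := a7_crit_re t
  rw [h] at this
  simp at this

theorem a7_summable : Summable fun n : ℕ => (n:ℝ) ^ (-(3/2) : ℝ) :=
  Real.summable_nat_rpow.mpr (by norm_num)

theorem summable_Dt (t : ℝ) : Summable fun n : ℕ => ‖Ph (Real.pi / 4) (tt t - Real.log n) * (n:ℂ) ^ (-crit t)‖ := by
  obtain ⟨C, hC, h⟩ := Ph_le (Real.pi / 4) (A := 1) zero_le_one
  refine Summable.of_nonneg_of_le (fun n => norm_nonneg _) (fun n => ?_)
    (a7_summable.mul_left (C * Real.exp (tt t)))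
  rcases eq_or_ne n 0 with rfl | hn
  · simp only [Nat.cast_zero]
    rw [Complex.zero_cpow (neg_ne_zero.mpr (a7_crit_ne t)), mul_zero, norm_zero]
    positivity
  · have hn0 : (0:ℝ) < n := by exact_mod_cast Nat.pos_of_ne_zero hn
    rw [norm_mul, Complex.norm_natCast_cpow_of_pos (Nat.pos_of_ne_zero hn), Complex.neg_re, a7_crit_re]
    have h1 := (h (tt t - Real.log n)).trans (mul_le_mul_of_nonneg_left (min_le_right _ _) hC.le)
    have e1 : Real.exp (1 * (tt t - Real.log n)) = Real.exp (tt t) * (n:ℝ) ^ (-(1:ℝ)) := by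
      rw [Real.rpow_def_of_pos hn0, ← Real.exp_add]; congr 1; ring
    rw [e1] at h1
    calc ‖Ph (Real.pi / 4) (tt t - Real.log n)‖ * (n:ℝ) ^ (-(1/2) : ℝ)
        ≤ C * (Real.exp (tt t) * (n:ℝ) ^ (-(1:ℝ))) * (n:ℝ) ^ (-(1/2) : ℝ) := by gcongr
      _ = C * Real.exp (tt t) * ((n:ℝ) ^ (-(1:ℝ)) * (n:ℝ) ^ (-(1/2) : ℝ)) := by ring
      _ = _ := by rw [← Real.rpow_add hn0]; norm_num

/-- Bound for zeta on the line of abscissa `3/2`. -/
theorem a7_zeta_le {w : ℂ} (hw : w.re = 3/2) : ‖riemannZeta w‖ ≤ ∑' n : ℕ, (n:ℝ) ^ (-(3/2) : ℝ) := by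
  have hw0 : w ≠ 0 := by
    intro h; rw [h] at hw; simp at hw; norm_num at hw
  rw [zeta_eq_tsum_one_div_nat_cpow (by rw [hw]; norm_num)]
  have e : ∀ n : ℕ, ‖1 / (n:ℂ) ^ w‖ = (n:ℝ) ^ (-(3/2) : ℝ) := by
    intro n
    rcases eq_or_ne n 0 with rfl | hn
    · rw [Nat.cast_zero, Complex.zero_cpow hw0, div_zero, norm_zero, Nat.cast_zero,
        Real.zero_rpow (by norm_num)]
    · rw [norm_div, norm_one, Complex.norm_natCast_cpow_of_pos (Nat.pos_of_ne_zero hn), hw,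
        Real.rpow_neg (Nat.cast_nonneg _), one_div]
  refine (norm_tsum_le_tsum_norm ?_).trans (le_of_eq (tsum_congr e))
  exact a7_summable.congr fun n => (e n).symm

/-- The model integrand. -/
noncomputable def a7g (t y : ℝ) : ℂ :=
  cexp ((((1:ℝ):ℂ) + y * I) ^ 2 + (((1:ℝ):ℂ) + y * I) * ((tt t : ℝ) + (Real.pi / 4 : ℝ) * I)) /
    (((1:ℝ):ℂ) + y * I)

theorem a7_g_int (t : ℝ) : Integrable (a7g t) := (Ph_eq_integral (Real.pi / 4) (tt t) one_pos).1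

theorem a7_re (t y : ℝ) : (crit t + (((1:ℝ):ℂ) + y * I)).re = 3/2 := by
  rw [Complex.add_re, a7_crit_re]; simp; norm_num

theorem a7_zeta_cont (t : ℝ) : Continuous fun y : ℝ => riemannZeta (crit t + (((1:ℝ):ℂ) + y * I)) := by
  rw [continuous_iff_continuousAt]
  intro y
  have h1 : crit t + (((1:ℝ):ℂ) + y * I) ≠ 1 := by
    intro h
    have := a7_re t y
    rw [h] at this
    simp at this
    norm_num at this
  have h2 : ContinuousAt riemannZeta (crit t + (((1:ℝ):ℂ) + y * I)) :=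
    (differentiableAt_riemannZeta h1).continuousAt
  exact ContinuousAt.comp (f := fun y : ℝ => crit t + (((1:ℝ):ℂ) + y * I)) h2 (by fun_prop)

theorem a7_zg_int (t : ℝ) :
    Integrable fun y : ℝ => riemannZeta (crit t + (((1:ℝ):ℂ) + y * I)) * a7g t y := by
  refine (a7_g_int t).bdd_mul (a7_zeta_cont t).aestronglyMeasurable
    (c := ∑' n : ℕ, (n:ℝ) ^ (-(3/2) : ℝ)) ?_
  exact ae_of_all _ fun y => a7_zeta_le (a7_re t y)

theorem a7_term (t : ℝ) {n : ℕ} (hn : n ≠ 0) (y : ℝ) :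
    (n:ℂ) ^ (-(crit t + (((1:ℝ):ℂ) + y * I))) * a7g t y =
      (n:ℂ) ^ (-crit t) * (cexp ((((1:ℝ):ℂ) + y * I) ^ 2 + (((1:ℝ):ℂ) + y * I) *
        (((tt t - Real.log n : ℝ) : ℂ) + (Real.pi / 4 : ℝ) * I)) / (((1:ℝ):ℂ) + y * I)) := by
  have hn0 : (n:ℂ) ≠ 0 := by exact_mod_cast hn
  unfold a7g
  rw [← mul_div_assoc, ← mul_div_assoc]
  congr 1
  rw [Complex.cpow_def_of_ne_zero hn0, Complex.cpow_def_of_ne_zero hn0, ← Complex.exp_add,
    ← Complex.exp_add, ← Complex.natCast_log]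
  congr 1
  push_cast
  ring

theorem a7_Dt_eq (t : ℝ) :
    ((1 / (2 * Real.pi) : ℝ) : ℂ) * ∫ y : ℝ, riemannZeta (crit t + (((1:ℝ):ℂ) + y * I)) * a7g t y = Dt t := by
  set F : ℕ → ℝ → ℂ := fun n y => (n:ℂ) ^ (-(crit t + (((1:ℝ):ℂ) + y * I))) * a7g t y with hF
  have hne : ∀ y : ℝ, crit t + (((1:ℝ):ℂ) + y * I) ≠ 0 := by
    intro y h
    have := a7_re t y
    rw [h] at this
    simp at this
    norm_num at this
  have hF0 : F 0 = fun _ => 0 := by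
    funext y
    simp only [hF]
    rw [Nat.cast_zero, Complex.zero_cpow (neg_ne_zero.mpr (hne y)), zero_mul]
  have hFn : ∀ n : ℕ, n ≠ 0 → F n = fun y : ℝ => (n:ℂ) ^ (-crit t) * (cexp ((((1:ℝ):ℂ) + y * I) ^ 2 +
      (((1:ℝ):ℂ) + y * I) * (((tt t - Real.log n : ℝ) : ℂ) + (Real.pi / 4 : ℝ) * I)) / (((1:ℝ):ℂ) + y * I)) := by
    intro n hn
    funext y
    exact a7_term t hn y
  have hint : ∀ n, Integrable (F n) := by
    intro n
    rcases eq_or_ne n 0 with rfl | hn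
    · rw [hF0]; exact integrable_zero _ _ _
    · rw [hFn n hn]
      exact (Ph_eq_integral (Real.pi / 4) (tt t - Real.log n) one_pos).1.const_mul _
  have hnorm : ∀ n y, ‖F n y‖ = (n:ℝ) ^ (-(3/2) : ℝ) * ‖a7g t y‖ := by
    intro n y
    rcases eq_or_ne n 0 with rfl | hn
    · rw [hF0, Nat.cast_zero, Real.zero_rpow (by norm_num), zero_mul, norm_zero]
    · simp only [hF]
      rw [norm_mul, Complex.norm_natCast_cpow_of_pos (Nat.pos_of_ne_zero hn), Complex.neg_re, a7_re]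
  have hsumm : Summable fun n => ∫ y, ‖F n y‖ := by
    simp_rw [hnorm, integral_const_mul]
    exact a7_summable.mul_right _
  have hkey := integral_tsum_of_summable_integral_norm hint hsumm
  have hts : ∀ y, ∑' n, F n y = riemannZeta (crit t + (((1:ℝ):ℂ) + y * I)) * a7g t y := by
    intro y
    simp only [hF]
    rw [tsum_mul_right, zeta_eq_tsum_one_div_nat_cpow (by rw [a7_re]; norm_num)]
    congr 1
    refine tsum_congr fun n => ?_
    rw [Complex.cpow_neg, one_div]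
  simp_rw [hts] at hkey
  rw [← hkey, ← tsum_mul_left]
  unfold Dt
  refine tsum_congr fun n => ?_
  rcases eq_or_ne n 0 with rfl | hn
  · rw [hF0, integral_zero, mul_zero]
    simp only [Nat.cast_zero]
    rw [Complex.zero_cpow (neg_ne_zero.mpr (a7_crit_ne t)), mul_zero]
  · rw [hFn n hn, integral_const_mul, ← (Ph_eq_integral (Real.pi / 4) (tt t - Real.log n) one_pos).2]
    ring

theorem zeta_le_Dt : ∃ C t₀ : ℝ, 0 < C ∧ 1 ≤ t₀ ∧ ∀ t, t₀ ≤ t →
    ‖riemannZeta (crit t)‖ ≤ 2 * ‖Dt t‖ + C * t ^ (-(1/2) : ℝ) := by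
  obtain ⟨C, t₀, hC, ht₀, hst⟩ := stirling_one
  set Z : ℝ := ∑' n : ℕ, (n:ℝ) ^ (-(3/2) : ℝ) with hZ
  have hZ0 : 0 ≤ Z := tsum_nonneg fun n => by positivity
  have hgi : Integrable fun y : ℝ => Real.exp (-(y ^ 2 / 4)) := by
    have := integrable_exp_neg_mul_sq (b := 1/4) (by norm_num)
    refine this.congr (ae_of_all _ fun y => ?_)
    show Real.exp _ = Real.exp _
    congr 1; ring
  have hG0 : 0 ≤ ∫ y : ℝ, Real.exp (-(y ^ 2 / 4)) := integral_nonneg fun y => (Real.exp_pos _).le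
  refine ⟨2 * ((1 / (2 * Real.pi)) * (Z * C * ∫ y : ℝ, Real.exp (-(y ^ 2 / 4)))) + 1, t₀, by positivity, ht₀,
    fun t ht => ?_⟩
  have ht0 : 0 < t := by linarith
  obtain ⟨hi, hle⟩ := afe_one t (c := 1) (by norm_num) le_rfl
  set h : ℝ → ℂ := fun y => riemannZeta (crit t + (((1:ℝ):ℂ) + y * I)) *
    (Rt t (((1:ℝ):ℂ) + y * I) * Gt t (((1:ℝ):ℂ) + y * I)) / (((1:ℝ):ℂ) + y * I) with hh
  have hdiff : ∀ y : ℝ, ‖h y - riemannZeta (crit t + (((1:ℝ):ℂ) + y * I)) * a7g t y‖ ≤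
      Z * C * t ^ (-(1/2) : ℝ) * Real.exp (-(y ^ 2 / 4)) := by
    intro y
    have h1 := hst t ht 1 ⟨zero_le_one, le_rfl⟩ y
    have h2 := a7_zeta_le (a7_re t y)
    have hz1 : (1:ℝ) ≤ ‖((1:ℝ):ℂ) + y * I‖ := by
      have := Complex.abs_re_le_norm (((1:ℝ):ℂ) + y * I)
      simpa using this
    have e1 : h y - riemannZeta (crit t + (((1:ℝ):ℂ) + y * I)) * a7g t y =
        riemannZeta (crit t + (((1:ℝ):ℂ) + y * I)) *
        ((Rt t (((1:ℝ):ℂ) + y * I) * Gt t (((1:ℝ):ℂ) + y * I) -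
          cexp ((((1:ℝ):ℂ) + y * I) ^ 2 + (((1:ℝ):ℂ) + y * I) * ((tt t : ℝ) + (Real.pi / 4 : ℝ) * I)))) /
          (((1:ℝ):ℂ) + y * I) := by
      simp only [hh, a7g]
      ring
    rw [e1, norm_div, norm_mul]
    rw [show ((1:ℝ) / 2 - 1) = -(1/2) by norm_num] at h1
    calc ‖riemannZeta (crit t + (((1:ℝ):ℂ) + y * I))‖ *
        ‖Rt t (((1:ℝ):ℂ) + y * I) * Gt t (((1:ℝ):ℂ) + y * I) -
          cexp ((((1:ℝ):ℂ) + y * I) ^ 2 + (((1:ℝ):ℂ) + y * I) * ((tt t : ℝ) + (Real.pi / 4 : ℝ) * I))‖ /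
          ‖((1:ℝ):ℂ) + y * I‖
        ≤ Z * (C * t ^ (-(1/2) : ℝ) * Real.exp (-(y ^ 2 / 4))) / 1 := by
          gcongr
      _ = _ := by ring
  have hsub : (∫ y, h y) = (∫ y : ℝ, riemannZeta (crit t + (((1:ℝ):ℂ) + y * I)) * a7g t y) +
      ∫ y, (h y - riemannZeta (crit t + (((1:ℝ):ℂ) + y * I)) * a7g t y) := by
    rw [integral_sub hi (a7_zg_int t)]; ring
  have herr : ‖∫ y, (h y - riemannZeta (crit t + (((1:ℝ):ℂ) + y * I)) * a7g t y)‖ ≤
      Z * C * t ^ (-(1/2) : ℝ) * ∫ y : ℝ, Real.exp (-(y ^ 2 / 4)) := by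
    rw [← integral_const_mul]
    exact norm_integral_le_of_norm_le (hgi.const_mul _) (ae_of_all _ hdiff)
  refine hle.trans ?_
  rw [hsub, mul_add, a7_Dt_eq]
  have hc : ‖((1 / (2 * Real.pi) : ℝ) : ℂ)‖ = 1 / (2 * Real.pi) := by
    rw [Complex.norm_real, Real.norm_eq_abs, abs_of_pos (by positivity)]
  calc 2 * ‖Dt t + ((1 / (2 * Real.pi) : ℝ) : ℂ) * ∫ y, (h y - riemannZeta (crit t + (((1:ℝ):ℂ) + y * I)) * a7g t y)‖
      ≤ 2 * (‖Dt t‖ + 1 / (2 * Real.pi) * (Z * C * t ^ (-(1/2) : ℝ) * ∫ y : ℝ, Real.exp (-(y ^ 2 / 4)))) := by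
        apply mul_le_mul_of_nonneg_left _ (by norm_num)
        refine (norm_add_le _ _).trans ?_
        rw [norm_mul, hc]
        gcongr
    _ ≤ 2 * ‖Dt t‖ + (2 * ((1 / (2 * Real.pi)) * (Z * C * ∫ y : ℝ, Real.exp (-(y ^ 2 / 4)))) + 1) *
        t ^ (-(1/2) : ℝ) := by
        have h1 : 0 ≤ t ^ (-(1/2) : ℝ) := by positivity
        nlinarith

end Pool.Agent.LibM3
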