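import Pool.Agent.LibM3.A1
import Pool.Agent.LibM3.A4
import Pool.Agent.LibM3.A6

/-! Third moment, block A8: approximate functional equation for `|ζ(1/2+it)|²`. -/

set_option autoImplicit false

namespace Pool.Agent.LibM3

open MeasureTheory Set Filter Topology Complex ProbabilityTheory
open scoped NNReal ComplexConjugate
open Pool.Agent.LibZM

theorem a8_norm_pow (n : ℕ) {w : ℂ} (h : 0 < w.re) : ‖(n:ℂ) ^ (-w)‖ = (n:ℝ) ^ (-w.re) := by
  rw [Complex.norm_natCast_cpow_of_re_ne_zero n (by rw [Complex.neg_re]; linarith), Complex.neg_re]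

theorem a8_summable {w : ℂ} (h : 1 < w.re) : Summable fun n : ℕ => ‖(n:ℂ) ^ (-w)‖ := by
  simp_rw [a8_norm_pow _ (by linarith : 0 < w.re)]
  exact Real.summable_nat_rpow.mpr (by linarith)

theorem a8_zeta_tsum {w : ℂ} (h : 1 < w.re) : riemannZeta w = ∑' n : ℕ, (n:ℂ) ^ (-w) := by
  rw [zeta_eq_tsum_one_div_nat_cpow h]
  refine tsum_congr fun n => ?_
  rw [Complex.cpow_neg, one_div]

theorem a8_zeta_le {w : ℂ} (h : 1 < w.re) : ‖riemannZeta w‖ ≤ 1 + 1 / (w.re - 1) := by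
  have h1 := ZetaAsymptotics.zeta_limit_aux1 h
  have h2 : 0 ≤ ZetaAsymptotics.termTSum w.re :=
    tsum_nonneg fun n => ZetaAsymptotics.term_nonneg _ _
  have h3 : ∀ n : ℕ, ‖1 / ((n:ℂ) + 1) ^ w‖ = 1 / ((n:ℝ) + 1) ^ w.re := by
    intro n
    rw [norm_div, norm_one]
    have := Complex.norm_natCast_cpow_of_pos (Nat.succ_pos n) w
    push_cast at this
    rw [this]
  rw [zeta_eq_tsum_one_div_nat_add_one_cpow h]
  calc ‖∑' n : ℕ, 1 / ((n:ℂ) + 1) ^ w‖ ≤ ∑' n : ℕ, ‖1 / ((n:ℂ) + 1) ^ w‖ := by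
        apply norm_tsum_le_tsum_norm
        simp_rw [h3]
        have := (Real.summable_nat_rpow_inv (p := w.re)).mpr h
        have h4 := (summable_nat_add_iff 1).mpr this
        refine h4.congr fun n => ?_
        push_cast
        rw [one_div]
    _ = ∑' n : ℕ, 1 / ((n:ℝ) + 1) ^ w.re := by simp_rw [h3]
    _ ≤ 1 + 1 / (w.re - 1) := by nlinarith

/-- The model kernel. -/
noncomputable def a8_m (t : ℝ) (z : ℂ) : ℂ :=
  cexp (z ^ 2 + z * ((Real.log (t / (2 * Real.pi)) : ℝ) + (0:ℝ) * I))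

/-- Terms of the double series under the integral. -/
noncomputable def a8_T (t c : ℝ) (p : ℕ × ℕ) (y : ℝ) : ℂ :=
  (p.1:ℂ) ^ (-(crit t + ((c:ℂ) + y * I))) * (p.2:ℂ) ^ (-(1 - crit t + ((c:ℂ) + y * I))) *
    (a8_m t ((c:ℂ) + y * I) / ((c:ℂ) + y * I))

theorem a8_re1 (t c y : ℝ) : (crit t + ((c:ℂ) + y * I)).re = 1 / 2 + c := by
  simp

theorem a8_re2 (t c y : ℝ) : (1 - crit t + ((c:ℂ) + y * I)).re = 1 / 2 + c := by
  simp
  norm_num

theorem a8_m_int (t : ℝ) {c : ℝ} (hc : 0 < c) :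
    Integrable fun y : ℝ => a8_m t ((c:ℂ) + y * I) / ((c:ℂ) + y * I) :=
  (Ph_eq_integral 0 (Real.log (t / (2 * Real.pi))) hc).1

theorem a8_T_eq (t c : ℝ) {p : ℕ × ℕ} (h1 : p.1 ≠ 0) (h2 : p.2 ≠ 0) (y : ℝ) :
    a8_T t c p y = ((p.1:ℂ) ^ (-crit t) * (p.2:ℂ) ^ (-(1 - crit t))) *
      (cexp (((c:ℂ) + y * I) ^ 2 + ((c:ℂ) + y * I) *
        (((Real.log (t / (2 * Real.pi)) - Real.log ((p.1:ℝ) * p.2) : ℝ) : ℂ) + (0:ℝ) * I)) /
          ((c:ℂ) + y * I)) := by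
  have c1 : (p.1:ℂ) ≠ 0 := by exact_mod_cast h1
  have c2 : (p.2:ℂ) ≠ 0 := by exact_mod_cast h2
  have r1 : (p.1:ℝ) ≠ 0 := by exact_mod_cast h1
  have r2 : (p.2:ℝ) ≠ 0 := by exact_mod_cast h2
  unfold a8_T a8_m
  rw [neg_add, neg_add (1 - crit t), Complex.cpow_add _ _ c1, Complex.cpow_add _ _ c2,
    Complex.cpow_def_of_ne_zero c1 (-((c:ℂ) + y * I)),
    Complex.cpow_def_of_ne_zero c2 (-((c:ℂ) + y * I)), ← Complex.natCast_log,
    ← Complex.natCast_log, Real.log_mul r1 r2]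
  have : cexp (((c:ℂ) + y * I) ^ 2 + ((c:ℂ) + y * I) *
        (((Real.log (t / (2 * Real.pi)) - (Real.log (p.1:ℝ) + Real.log (p.2:ℝ)) : ℝ) : ℂ) +
          (0:ℝ) * I)) =
      cexp ((Real.log (p.1:ℝ) : ℂ) * -((c:ℂ) + y * I)) *
      cexp ((Real.log (p.2:ℝ) : ℂ) * -((c:ℂ) + y * I)) *
      cexp (((c:ℂ) + y * I) ^ 2 + ((c:ℂ) + y * I) *
        ((Real.log (t / (2 * Real.pi)) : ℝ) + (0:ℝ) * I)) := by
    rw [← Complex.exp_add, ← Complex.exp_add]
    congr 1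
    push_cast
    ring
  rw [this]
  ring

theorem a8_T_zero (t : ℝ) {c : ℝ} (hc : 0 < c) {p : ℕ × ℕ} (h : p.1 = 0 ∨ p.2 = 0) (y : ℝ) :
    a8_T t c p y = 0 := by
  unfold a8_T
  rcases h with h | h
  · rw [h, Nat.cast_zero, Complex.zero_cpow, zero_mul, zero_mul]
    intro h0
    have := congrArg Complex.re h0
    rw [Complex.neg_re, a8_re1, Complex.zero_re] at this
    linarith
  · rw [h, Nat.cast_zero, Complex.zero_cpow, mul_zero, zero_mul]
    intro h0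
    have := congrArg Complex.re h0
    rw [Complex.neg_re, a8_re2, Complex.zero_re] at this
    linarith

theorem a8_W2_zero (t : ℝ) {p : ℕ × ℕ} (h : p.1 = 0 ∨ p.2 = 0) : W2 t p = 0 := by
  unfold W2
  rcases h with h | h
  · have h1 : (p.1:ℂ) ^ (-crit t) = 0 := by
      rw [h, Nat.cast_zero, Complex.zero_cpow (neg_ne_zero.mpr (a4_crit_ne t))]
    rw [h1, zero_mul, mul_zero]
  · have h1 : (p.2:ℂ) ^ (-(1 - crit t)) = 0 := by
      rw [h, Nat.cast_zero, Complex.zero_cpow (neg_ne_zero.mpr (a4_one_sub_crit_ne t))]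
    rw [h1, mul_zero, mul_zero]

theorem a8_T_int (t : ℝ) {c : ℝ} (hc : 0 < c) (p : ℕ × ℕ) :
    Integrable (a8_T t c p) ∧
      ((1 / (2 * Real.pi) : ℝ) : ℂ) * ∫ y, a8_T t c p y = W2 t p := by
  by_cases h : p.1 = 0 ∨ p.2 = 0
  · have h1 : a8_T t c p = fun _ => 0 := funext fun y => a8_T_zero t hc h y
    rw [h1, a8_W2_zero t h]
    simp
  · push Not at h
    have h1 : a8_T t c p = fun y => _ := funext fun y => a8_T_eq t c h.1 h.2 y
    obtain ⟨i1, i2⟩ := Ph_eq_integral 0 (Real.log (t / (2 * Real.pi)) -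
      Real.log ((p.1:ℝ) * p.2)) hc
    rw [h1]
    refine ⟨i1.const_mul _, ?_⟩
    rw [integral_const_mul]
    unfold W2
    rw [← i2]
    ring

theorem a8_T_norm (t : ℝ) {c : ℝ} (hc : 0 < c) (p : ℕ × ℕ) :
    (∫ y, ‖a8_T t c p y‖) = ((p.1:ℝ) ^ (-(1 / 2 + c)) * (p.2:ℝ) ^ (-(1 / 2 + c))) *
      ∫ y : ℝ, ‖a8_m t ((c:ℂ) + y * I) / ((c:ℂ) + y * I)‖ := by
  rw [← integral_const_mul]
  refine integral_congr_ae (Eventually.of_forall fun y => ?_)
  simp only [a8_T]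
  rw [norm_mul, norm_mul, a8_norm_pow _ (by rw [a8_re1]; linarith),
    a8_norm_pow _ (by rw [a8_re2]; linarith), a8_re1, a8_re2]

theorem a8_T_summable (t : ℝ) {c : ℝ} (hc : 1 / 2 < c) :
    Summable fun p : ℕ × ℕ => ∫ y, ‖a8_T t c p y‖ := by
  simp_rw [a8_T_norm t (by linarith : 0 < c)]
  apply Summable.mul_right
  have h1 : Summable fun n : ℕ => (n:ℝ) ^ (-(1 / 2 + c)) :=
    Real.summable_nat_rpow.mpr (by linarith)
  exact h1.mul_of_nonneg h1 (fun n => by positivity) (fun n => by positivity)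

theorem a8_tsum_T (t : ℝ) {c : ℝ} (hc : 1 / 2 < c) (y : ℝ) :
    ∑' p : ℕ × ℕ, a8_T t c p y = riemannZeta (crit t + ((c:ℂ) + y * I)) *
      riemannZeta (1 - crit t + ((c:ℂ) + y * I)) * a8_m t ((c:ℂ) + y * I) / ((c:ℂ) + y * I) := by
  have r1 : 1 < (crit t + ((c:ℂ) + y * I)).re := by rw [a8_re1]; linarith
  have r2 : 1 < (1 - crit t + ((c:ℂ) + y * I)).re := by rw [a8_re2]; linarith
  unfold a8_T
  rw [tsum_mul_right, a8_zeta_tsum r1, a8_zeta_tsum r2,
    tsum_mul_tsum_of_summable_norm (a8_summable r1) (a8_summable r2)]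
  ring

theorem summable_W2 (t : ℝ) : Summable fun p : ℕ × ℕ => ‖W2 t p‖ := by
  have h1 := (a8_T_summable t (by norm_num : (1:ℝ) / 2 < 1)).mul_left (1 / (2 * Real.pi))
  refine Summable.of_nonneg_of_le (fun p => norm_nonneg _) (fun p => ?_) h1
  rw [← (a8_T_int t (by norm_num : (0:ℝ) < 1) p).2, norm_mul, Complex.norm_real,
    Real.norm_of_nonneg (by positivity)]
  gcongr
  exact norm_integral_le_integral_norm _

theorem a8_main (t : ℝ) {c : ℝ} (hc : 1 / 2 < c) :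
    ((1 / (2 * Real.pi) : ℝ) : ℂ) * (∫ y : ℝ, riemannZeta (crit t + ((c:ℂ) + y * I)) *
      riemannZeta (1 - crit t + ((c:ℂ) + y * I)) * a8_m t ((c:ℂ) + y * I) / ((c:ℂ) + y * I)) =
      ∑' p : ℕ × ℕ, W2 t p := by
  have hc0 : 0 < c := by linarith
  simp_rw [← a8_tsum_T t hc]
  rw [← integral_tsum_of_summable_integral_norm (fun p => (a8_T_int t hc0 p).1)
    (a8_T_summable t hc), ← tsum_mul_left]
  exact tsum_congr fun p => (a8_T_int t hc0 p).2

theorem a8_cont (w : ℂ) {c : ℝ} (hw : 1 < w.re + c) :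
    Continuous fun y : ℝ => riemannZeta (w + ((c:ℂ) + y * I)) := by
  rw [continuous_iff_continuousAt]
  intro y
  have h1 : w + ((c:ℂ) + y * I) ≠ 1 := by
    intro h
    have := congrArg Complex.re h
    simp at this
    linarith
  have h2 : ContinuousAt riemannZeta (w + ((c:ℂ) + y * I)) :=
    (differentiableAt_riemannZeta h1).continuousAt
  have h3 : ContinuousAt (fun y : ℝ => w + ((c:ℂ) + y * I)) y := by
    fun_prop
  exact ContinuousAt.comp (f := fun y : ℝ => w + ((c:ℂ) + y * I)) (g := riemannZeta) h2 h3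

theorem zeta_sq_approx : ∃ C t₀ : ℝ, 0 < C ∧ 1 ≤ t₀ ∧ ∀ t, t₀ ≤ t → ∀ c, 1/2 < c → c ≤ 1 →
    ‖((‖riemannZeta (crit t)‖ ^ 2 : ℝ) : ℂ) - 2 * ∑' p : ℕ × ℕ, W2 t p‖ ≤ C * t ^ (c - 1) * (1 / (c - 1/2)) ^ 2 := by
  obtain ⟨C1, t1, hC1, ht1, hst⟩ := stirling_two
  set K : ℝ := ∫ y : ℝ, Real.exp (-(y ^ 2 / 4)) with hK
  have hK0 : 0 ≤ K := integral_nonneg fun y => (Real.exp_pos _).le
  refine ⟨2 * (1 / (2 * Real.pi) * (8 * C1 * K)) + 1, t1, by positivity, ht1,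
    fun t ht c hc hc1 => ?_⟩
  have hc0 : 0 < c := by linarith
  have ht0 : 0 < t := by linarith
  obtain ⟨i1, i2⟩ := afe_two t hc hc1
  have hb1 : ∀ y : ℝ, ‖riemannZeta (crit t + ((c:ℂ) + y * I))‖ ≤ 2 * (1 / (c - 1 / 2)) := by
    intro y
    have h1 := a8_zeta_le (w := crit t + ((c:ℂ) + y * I)) (by rw [a8_re1]; linarith)
    rw [a8_re1] at h1
    have h2 : 1 / 2 + c - 1 = c - 1 / 2 := by ring
    rw [h2] at h1
    have h3 : 1 ≤ 1 / (c - 1 / 2) := by
      rw [le_div_iff₀ (by linarith)]; linarith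
    linarith
  have hb2 : ∀ y : ℝ, ‖riemannZeta (1 - crit t + ((c:ℂ) + y * I))‖ ≤ 2 * (1 / (c - 1 / 2)) := by
    intro y
    have h1 := a8_zeta_le (w := 1 - crit t + ((c:ℂ) + y * I)) (by rw [a8_re2]; linarith)
    rw [a8_re2] at h1
    have h2 : 1 / 2 + c - 1 = c - 1 / 2 := by ring
    rw [h2] at h1
    have h3 : 1 ≤ 1 / (c - 1 / 2) := by
      rw [le_div_iff₀ (by linarith)]; linarith
    linarith
  set B : ℝ := 1 / (c - 1 / 2) with hB
  have hB0 : 0 < B := by rw [hB]; apply div_pos one_pos; linarith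
  -- integrability of the model
  have j1 : Integrable (fun y : ℝ => riemannZeta (crit t + ((c:ℂ) + y * I)) *
      riemannZeta (1 - crit t + ((c:ℂ) + y * I)) * a8_m t ((c:ℂ) + y * I) /
        ((c:ℂ) + y * I)) := by
    have h1 : Integrable (fun y : ℝ => (riemannZeta (crit t + ((c:ℂ) + y * I)) *
      riemannZeta (1 - crit t + ((c:ℂ) + y * I))) * (a8_m t ((c:ℂ) + y * I) /
        ((c:ℂ) + y * I))) := by
      refine Integrable.bdd_mul (c := (2 * B) * (2 * B)) (a8_m_int t hc0) ?_ ?_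
      · apply Continuous.aestronglyMeasurable
        apply Continuous.mul
        · exact a8_cont _ (by rw [crit_re]; linarith)
        · exact a8_cont _ (by rw [← a4_crit_neg, crit_re]; linarith)
      · refine Eventually.of_forall fun y => ?_
        rw [norm_mul]
        exact mul_le_mul (hb1 y) (hb2 y) (norm_nonneg _) (by positivity)
    refine h1.congr (Eventually.of_forall fun y => ?_)
    simp only
    ring
  have hgauss : Integrable (fun y : ℝ => Real.exp (-(y ^ 2 / 4))) := by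
    have := integrable_exp_neg_mul_sq (b := 1 / 4) (by norm_num)
    refine this.congr (Eventually.of_forall fun y => ?_)
    simp only
    congr 1
    ring
  rw [i2, ← a8_main t hc, ← mul_sub, ← mul_sub, ← integral_sub i1 j1, norm_mul, norm_mul,
    Complex.norm_real, Real.norm_of_nonneg (by positivity : (0:ℝ) ≤ 1 / (2 * Real.pi)),
    Complex.norm_ofNat]
  have hbound : ‖∫ y : ℝ, (riemannZeta (crit t + ((c:ℂ) + y * I)) *
        riemannZeta (1 - crit t + ((c:ℂ) + y * I)) *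
        (Rt t ((c:ℂ) + y * I) * conj (Rt t (conj ((c:ℂ) + y * I))) * Gt t ((c:ℂ) + y * I)) /
          ((c:ℂ) + y * I) -
        riemannZeta (crit t + ((c:ℂ) + y * I)) * riemannZeta (1 - crit t + ((c:ℂ) + y * I)) *
          a8_m t ((c:ℂ) + y * I) / ((c:ℂ) + y * I))‖ ≤
      ∫ y : ℝ, (2 * B) * (2 * B) * (C1 * t ^ (c - 1) * 2) * Real.exp (-(y ^ 2 / 4)) := by
    apply norm_integral_le_of_norm_le (hgauss.const_mul _)
    refine Eventually.of_forall fun y => ?_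
    have e1 : riemannZeta (crit t + ((c:ℂ) + y * I)) *
        riemannZeta (1 - crit t + ((c:ℂ) + y * I)) *
        (Rt t ((c:ℂ) + y * I) * conj (Rt t (conj ((c:ℂ) + y * I))) * Gt t ((c:ℂ) + y * I)) /
          ((c:ℂ) + y * I) -
        riemannZeta (crit t + ((c:ℂ) + y * I)) * riemannZeta (1 - crit t + ((c:ℂ) + y * I)) *
          a8_m t ((c:ℂ) + y * I) / ((c:ℂ) + y * I) =
        riemannZeta (crit t + ((c:ℂ) + y * I)) * riemannZeta (1 - crit t + ((c:ℂ) + y * I)) *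
        (Rt t ((c:ℂ) + y * I) * conj (Rt t (conj ((c:ℂ) + y * I))) * Gt t ((c:ℂ) + y * I) -
          a8_m t ((c:ℂ) + y * I)) * ((c:ℂ) + y * I)⁻¹ := by
      rw [div_eq_mul_inv, div_eq_mul_inv]
      ring
    rw [e1, norm_mul, norm_mul, norm_mul, norm_inv]
    have e2 := hst t ht c ⟨hc0.le, hc1⟩ y
    have e3 : ‖(c:ℂ) + y * I‖⁻¹ ≤ 2 := by
      have h1 : c ≤ ‖(c:ℂ) + y * I‖ := by
        have := Complex.re_le_norm ((c:ℂ) + y * I)
        simpa using this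
      calc ‖(c:ℂ) + y * I‖⁻¹ ≤ c⁻¹ := inv_anti₀ hc0 h1
        _ ≤ 2 := by
          rw [inv_le_comm₀ hc0 (by norm_num)]
          linarith
    calc _ ≤ (2 * B) * (2 * B) * (C1 * t ^ (c - 1) * Real.exp (-(y ^ 2 / 4))) * 2 := by
          have := hb1 y
          have := hb2 y
          unfold a8_m
          gcongr
      _ = _ := by ring
  rw [integral_const_mul, ← hK] at hbound
  have htc : 0 < t ^ (c - 1) := Real.rpow_pos_of_pos ht0 _
  calc _ ≤ 2 * (1 / (2 * Real.pi) * ((2 * B) * (2 * B) * (C1 * t ^ (c - 1) * 2) * K)) := by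
        gcongr
    _ = 2 * (1 / (2 * Real.pi) * (8 * C1 * K)) * t ^ (c - 1) * B ^ 2 := by ring
    _ ≤ (2 * (1 / (2 * Real.pi) * (8 * C1 * K)) + 1) * t ^ (c - 1) * B ^ 2 := by
        gcongr
        linarith

end Pool.Agent.LibM3
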