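import Pool.Agent.LibM3.A1

/-! Third moment, block B1: Fourier expansion of the smooth cutoff in log n. -/

set_option autoImplicit false

namespace Pool.Agent.LibM3

open MeasureTheory Set Filter Topology Complex ProbabilityTheory
open scoped NNReal ComplexConjugate
open Pool.Agent.LibZM


/-- gaussian density on the line of height `θ` -/
noncomputable def b1_gd (θ l : ℝ) : ℂ :=
  ((1 / (2 * √Real.pi) : ℝ) : ℂ) * cexp (-((l:ℂ) + θ * I) ^ 2 / 4)

theorem b1_norm_gd (θ l : ℝ) :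
    ‖b1_gd θ l‖ = 1 / (2 * √Real.pi) * Real.exp (θ ^ 2 / 4) * Real.exp (-(1 / 4) * l ^ 2) := by
  have h1 : (-((l:ℂ) + θ * I) ^ 2 / 4).re = θ ^ 2 / 4 + -(1 / 4) * l ^ 2 := by
    have : (-((l:ℂ) + θ * I) ^ 2 / 4) = ((θ ^ 2 / 4 + -(1 / 4) * l ^ 2 : ℝ) : ℂ) + ((-(l * θ) / 2 : ℝ) : ℂ) * I := by
      push_cast
      ring_nf
      rw [Complex.I_sq]
      ring
    rw [this, Complex.add_re, Complex.ofReal_re, Complex.re_ofReal_mul, Complex.I_re]
    ring
  unfold b1_gd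
  rw [norm_mul, Complex.norm_exp, h1, Real.exp_add, Complex.norm_real, Real.norm_of_nonneg (by positivity)]
  ring

theorem b1_deriv_gd (θ l : ℝ) :
    HasDerivAt (b1_gd θ) (b1_gd θ l * (-((l:ℂ) + θ * I) / 2)) l := by
  have h0 : HasDerivAt (fun x : ℝ => (x:ℂ) + θ * I) 1 l :=
    (Complex.ofRealCLM.hasDerivAt (x := l)).add_const _
  have h1 : HasDerivAt (fun x : ℝ => -((x:ℂ) + θ * I) ^ 2 / 4)
      (-(((2:ℕ):ℂ) * ((l:ℂ) + θ * I) ^ (2 - 1) * 1) / 4) l := ((h0.pow 2).neg).div_const 4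
  have h2 := (h1.cexp).const_mul ((1 / (2 * √Real.pi) : ℝ) : ℂ)
  refine HasDerivAt.congr_deriv h2 ?_
  unfold b1_gd
  simp only [Nat.add_one_sub_one, pow_one, mul_one, Nat.cast_ofNat]
  ring

theorem b1_int_gauss : Integrable (fun l : ℝ => Real.exp (-(1 / 4) * l ^ 2)) :=
  integrable_exp_neg_mul_sq (by norm_num)

theorem b1_int_gauss1 : Integrable (fun l : ℝ => |l| * Real.exp (-(1 / 4) * l ^ 2)) := by
  have := (integrable_mul_exp_neg_mul_sq (b := (1/4:ℝ)) (by norm_num)).abs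
  refine this.congr (Eventually.of_forall fun l => ?_)
  simp only [abs_mul, Real.abs_exp]

/-- bump derivative facts -/
theorem b1_st : ∃ (s1 s2 : ℝ → ℝ) (K : ℝ), 0 < K ∧
    (∀ x, HasDerivAt Real.smoothTransition (s1 x) x) ∧ (∀ x, HasDerivAt s1 (s2 x) x) ∧
    (∀ x, |s1 x| ≤ K) ∧ (∀ x, |s2 x| ≤ K) ∧ Integrable (fun x => |s1 x|) ∧ Integrable (fun x => |s2 x|) ∧
    Continuous s1 ∧ Continuous s2 ∧ (∀ x ≤ 0, s1 x = 0) ∧ (∀ x, 1 ≤ x → s1 x = 0) := by
  have hst : ContDiff ℝ 3 Real.smoothTransition := Real.smoothTransition.contDiff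
  have h1 : ContDiff ℝ 2 (deriv Real.smoothTransition) := hst.deriv' (n := 2)
  have h2 : ContDiff ℝ 1 (deriv (deriv Real.smoothTransition)) := h1.deriv' (n := 1)
  have z1 : ∀ x : ℝ, x ∉ Icc (0:ℝ) 1 → deriv Real.smoothTransition =ᶠ[𝓝 x] fun _ => 0 := by
    intro x hx
    have hopen : IsOpen ((Icc (0:ℝ) 1)ᶜ) := isClosed_Icc.isOpen_compl
    filter_upwards [hopen.mem_nhds hx] with y hy
    rw [mem_compl_iff, mem_Icc, not_and_or, not_le, not_le] at hy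
    rcases hy with hy | hy
    · have : Real.smoothTransition =ᶠ[𝓝 y] fun _ => 0 := by
        filter_upwards [gt_mem_nhds hy] with z hz using Real.smoothTransition.zero_of_nonpos hz.le
      rw [this.deriv_eq]; simp
    · have : Real.smoothTransition =ᶠ[𝓝 y] fun _ => 1 := by
        filter_upwards [lt_mem_nhds hy] with z hz using Real.smoothTransition.one_of_one_le hz.le
      rw [this.deriv_eq]; simp
  have z1' : ∀ x : ℝ, x ∉ Icc (0:ℝ) 1 → deriv Real.smoothTransition x = 0 := fun x hx => (z1 x hx).self_of_nhds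
  have z2' : ∀ x : ℝ, x ∉ Icc (0:ℝ) 1 → deriv (deriv Real.smoothTransition) x = 0 := by
    intro x hx
    rw [(z1 x hx).deriv_eq]; simp
  have c1 : Continuous (deriv Real.smoothTransition) := h1.continuous
  have c2 : Continuous (deriv (deriv Real.smoothTransition)) := h2.continuous
  have k1 : HasCompactSupport (deriv Real.smoothTransition) :=
    HasCompactSupport.intro isCompact_Icc z1'
  have k2 : HasCompactSupport (deriv (deriv Real.smoothTransition)) :=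
    HasCompactSupport.intro isCompact_Icc z2'
  obtain ⟨K1, hK1⟩ := k1.exists_bound_of_continuous c1
  obtain ⟨K2, hK2⟩ := k2.exists_bound_of_continuous c2
  refine ⟨deriv Real.smoothTransition, deriv (deriv Real.smoothTransition), |K1| + |K2| + 1, by positivity,
    fun x => (hst.differentiable (by norm_num) x).hasDerivAt,
    fun x => (h1.differentiable (by norm_num) x).hasDerivAt, fun x => ?_, fun x => ?_,
    (c1.integrable_of_hasCompactSupport k1).abs, (c2.integrable_of_hasCompactSupport k2).abs, c1, c2,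
    fun x hx => ?_, fun x hx => ?_⟩
  · have := hK1 x
    rw [Real.norm_eq_abs] at this
    linarith [le_abs_self K1, abs_nonneg K2]
  · have := hK2 x
    rw [Real.norm_eq_abs] at this
    linarith [le_abs_self K2, abs_nonneg K1]
  · have hd : HasDerivAt Real.smoothTransition (deriv Real.smoothTransition x) x :=
      (hst.differentiable (by norm_num) x).hasDerivAt
    have hm : IsLocalMin Real.smoothTransition x := by
      refine Eventually.of_forall fun y => ?_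
      rw [Real.smoothTransition.zero_of_nonpos hx]
      exact Real.smoothTransition.nonneg y
    exact hm.hasDerivAt_eq_zero hd
  · have hd : HasDerivAt Real.smoothTransition (deriv Real.smoothTransition x) x :=
      (hst.differentiable (by norm_num) x).hasDerivAt
    have hm : IsLocalMax Real.smoothTransition x := by
      refine Eventually.of_forall fun y => ?_
      rw [Real.smoothTransition.one_of_one_le hx]
      exact Real.smoothTransition.le_one y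
    exact hm.hasDerivAt_eq_zero hd

theorem b1_coeff_le {a b : ℝ} (hab : a < b) (f : ℝ → ℂ) (D : ℝ → ℝ) (n : ℤ)
    (hD : Integrable D) (hfD : ∀ x ∈ Ioc a b, ‖f x‖ ≤ D x) (hD0 : ∀ x, 0 ≤ D x) :
    ‖fourierCoeffOn hab f n‖ ≤ (1 / (b - a)) * ∫ x, D x := by
  rw [fourierCoeffOn_eq_integral, norm_smul, Real.norm_of_nonneg (by have := sub_pos.2 hab; positivity)]
  have hpos : 0 < b - a := sub_pos.2 hab
  refine mul_le_mul_of_nonneg_left ?_ (by positivity)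
  calc ‖∫ x in a..b, fourier (-n) (x : AddCircle (b - a)) • f x‖ ≤ ∫ x in a..b, D x := by
        refine intervalIntegral.norm_integral_le_of_norm_le hab.le ?_ hD.intervalIntegrable
        refine Eventually.of_forall fun x hx => ?_
        rw [norm_smul]
        have : ‖(fourier (-n) : C(AddCircle (b - a), ℂ)) (x : AddCircle (b - a))‖ = 1 := by
          rw [fourier_apply]; exact Circle.norm_coe _
        rw [this, one_mul]
        exact hfD x hx
    _ = ∫ x in Ioc a b, D x := intervalIntegral.integral_of_le hab.le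
    _ ≤ ∫ x, D x := setIntegral_le_integral hD (Eventually.of_forall hD0)


/-- one integration by parts -/
theorem b1_ibp {a b : ℝ} (hab : a < b) (m m1 : ℝ → ℂ) (hm : ∀ x, HasDerivAt m (m1 x) x) (ha : m a = 0)
    (hb : m b = 0) (h1 : IntervalIntegrable m1 volume a b) (j : ℤ) (hj : j ≠ 0) :
    ‖fourierCoeffOn hab m j‖ = (b - a) / (2 * Real.pi * |(j:ℝ)|) * ‖fourierCoeffOn hab m1 j‖ := by
  have hpos : 0 < b - a := sub_pos.2 hab
  have hj' : (0:ℝ) < |(j:ℝ)| := abs_pos.2 (by exact_mod_cast hj)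
  rw [fourierCoeffOn_of_hasDerivAt hab hj (fun x _ => hm x) h1, ha, hb, sub_zero, mul_zero, zero_sub, norm_mul,
    norm_neg, norm_mul]
  have e1 : ‖(1:ℂ) / (-2 * Real.pi * I * j)‖ = 1 / (2 * Real.pi * |(j:ℝ)|) := by
    rw [norm_div, norm_mul, norm_mul, norm_mul, Complex.norm_I, norm_one, norm_neg, Complex.norm_real,
      Complex.norm_intCast, Real.norm_of_nonneg Real.pi_pos.le, Complex.norm_ofNat, mul_one]
  have e2 : ‖((b:ℂ) - (a:ℂ))‖ = b - a := by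
    rw [← Complex.ofReal_sub, Complex.norm_real, Real.norm_of_nonneg hpos.le]
  rw [e1, e2]
  ring

theorem b1_gen (L : ℝ) (hL : 0 < L) (a : ℝ) (m m1 m2 : ℝ → ℂ) (hm : ∀ x, HasDerivAt m (m1 x) x)
    (hm1 : ∀ x, HasDerivAt m1 (m2 x) x) (hm2 : Continuous m2)
    (ha : m a = 0) (hb : m (a + L) = 0) (ha1 : m1 a = 0) (hb1 : m1 (a + L) = 0)
    (D1 D2 : ℝ → ℝ) (hD1 : Integrable D1) (hD2 : Integrable D2) (hD10 : ∀ x, 0 ≤ D1 x) (hD20 : ∀ x, 0 ≤ D2 x)
    (hb1' : ∀ x ∈ Ioc a (a + L), ‖m1 x‖ ≤ D1 x) (hb2' : ∀ x ∈ Ioc a (a + L), ‖m2 x‖ ≤ D2 x) :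
    (∀ j : ℤ, j ≠ 0 → ‖fourierCoeffOn (lt_add_of_pos_right a hL) m j‖ ≤ (∫ x, D1 x) / (2 * Real.pi * |(j:ℝ)|)) ∧
    (∀ j : ℤ, j ≠ 0 → ‖fourierCoeffOn (lt_add_of_pos_right a hL) m j‖ ≤
      L * (∫ x, D2 x) / (2 * Real.pi * |(j:ℝ)|) ^ 2) ∧
    (∀ x ∈ Icc a (a + L), HasSum (fun j : ℤ => fourierCoeffOn (lt_add_of_pos_right a hL) m j *
      cexp (((2 * Real.pi * j / L * x : ℝ) : ℂ) * I)) (m x)) := by
  have hcm : Continuous m := continuous_iff_continuousAt.2 fun x => (hm x).continuousAt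
  have hcm1 : Continuous m1 := continuous_iff_continuousAt.2 fun x => (hm1 x).continuousAt
  have hab := lt_add_of_pos_right a hL
  have hsub : a + L - a = L := by ring
  have A1 : ∀ j : ℤ, j ≠ 0 → ‖fourierCoeffOn (lt_add_of_pos_right a hL) m j‖ ≤ (∫ x, D1 x) / (2 * Real.pi * |(j:ℝ)|) := by
    intro j hj
    have hj' : (0:ℝ) < |(j:ℝ)| := abs_pos.2 (by exact_mod_cast hj)
    rw [b1_ibp hab m m1 hm ha hb (hcm1.intervalIntegrable _ _) j hj, hsub]
    have h1 := b1_coeff_le hab m1 D1 j hD1 hb1' hD10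
    rw [hsub] at h1
    calc L / (2 * Real.pi * |(j:ℝ)|) * ‖fourierCoeffOn hab m1 j‖
        ≤ L / (2 * Real.pi * |(j:ℝ)|) * (1 / L * ∫ x, D1 x) := by gcongr
      _ = (∫ x, D1 x) / (2 * Real.pi * |(j:ℝ)|) := by field_simp
  have A2 : ∀ j : ℤ, j ≠ 0 → ‖fourierCoeffOn (lt_add_of_pos_right a hL) m j‖ ≤
      L * (∫ x, D2 x) / (2 * Real.pi * |(j:ℝ)|) ^ 2 := by
    intro j hj
    have hj' : (0:ℝ) < |(j:ℝ)| := abs_pos.2 (by exact_mod_cast hj)
    rw [b1_ibp hab m m1 hm ha hb (hcm1.intervalIntegrable _ _) j hj,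
      b1_ibp hab m1 m2 hm1 ha1 hb1 (hm2.intervalIntegrable _ _) j hj, hsub]
    have h1 := b1_coeff_le hab m2 D2 j hD2 hb2' hD20
    rw [hsub] at h1
    calc L / (2 * Real.pi * |(j:ℝ)|) * (L / (2 * Real.pi * |(j:ℝ)|) * ‖fourierCoeffOn hab m2 j‖)
        ≤ L / (2 * Real.pi * |(j:ℝ)|) * (L / (2 * Real.pi * |(j:ℝ)|) * (1 / L * ∫ x, D2 x)) := by gcongr
      _ = L * (∫ x, D2 x) / (2 * Real.pi * |(j:ℝ)|) ^ 2 := by field_simp
  refine ⟨A1, A2, fun x hx => ?_⟩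
  have : Fact (0 < L) := ⟨hL⟩
  let f : C(AddCircle L, ℂ) := ⟨AddCircle.liftIco L a m,
    AddCircle.liftIco_continuous (by rw [ha, hb]) hcm.continuousOn⟩
  have hf : ∀ j, fourierCoeff f j = fourierCoeffOn (lt_add_of_pos_right a hL) m j := fun j =>
    fourierCoeff_liftIco_eq m j
  have hsum : Summable (fourierCoeff f) := by
    have hs : Summable fun j : ℤ => L * (∫ x, D2 x) / (2 * Real.pi) ^ 2 * (1 / (j:ℝ) ^ 2) :=
      ((Real.summable_one_div_int_pow (p := 2)).2 (by norm_num)).mul_left _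
    refine Summable.of_norm_bounded_eventually hs ?_
    have hfin : {j : ℤ | ¬ (j ≠ 0)}.Finite := by
      have : {j : ℤ | ¬ (j ≠ 0)} = {0} := by ext j; simp
      rw [this]; exact Set.finite_singleton 0
    refine Filter.eventually_of_mem (U := {j : ℤ | j ≠ 0}) ?_ ?_
    · rw [Filter.mem_cofinite]
      exact hfin
    · intro j hj
      have hj : j ≠ 0 := hj
      have hj' : (0:ℝ) < |(j:ℝ)| := abs_pos.2 (by exact_mod_cast hj)
      rw [hf]
      refine (A2 j hj).trans (le_of_eq ?_)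
      rw [mul_pow, sq_abs]
      have : (j:ℝ) ≠ 0 := by exact_mod_cast hj
      field_simp
  have h := has_pointwise_sum_fourier_series_of_summable hsum (x : AddCircle L)
  have hfx : f (x : AddCircle L) = m x := by
    show AddCircle.liftIco L a m (x : AddCircle L) = m x
    rcases eq_or_lt_of_le hx.2 with h2 | h2
    · have : (x : AddCircle L) = ((a : ℝ) : AddCircle L) := by
        rw [h2]; exact AddCircle.coe_add_period L a
      rw [this, AddCircle.liftIco_coe_apply ⟨le_rfl, hab⟩, h2, ha, hb]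
    · exact AddCircle.liftIco_coe_apply ⟨hx.1, h2⟩
  rw [hfx] at h
  convert h using 2 with j
  rw [hf, fourier_coe_apply, smul_eq_mul]
  congr 2
  push_cast
  ring

/-- the function to be expanded -/
noncomputable def b1_m (Λ τ x : ℝ) : ℂ := Ph (Real.pi / 4) (τ - x) * ((kap Λ x : ℝ) : ℂ)

theorem b1_int_comp (D : ℝ → ℝ) (hD : Integrable D) (c : ℝ) :
    Integrable (fun x => D (x + c)) ∧ ∫ x, D (x + c) = ∫ x, D x :=
  ⟨hD.comp_add_right c, integral_add_right_eq_self D c⟩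

theorem b1_int_comp' (D : ℝ → ℝ) (hD : Integrable D) (c : ℝ) :
    Integrable (fun x => D (c - x)) ∧ ∫ x, D (c - x) = ∫ x, D x :=
  ⟨hD.comp_sub_left c, integral_sub_left_eq_self D volume c⟩

theorem b1_kap_le (Λ x : ℝ) : 0 ≤ kap Λ x ∧ kap Λ x ≤ 1 := by
  unfold kap
  have h1 := Real.smoothTransition.nonneg (x + 1)
  have h2 := Real.smoothTransition.nonneg (Λ - x)
  have h3 := Real.smoothTransition.le_one (x + 1)
  have h4 := Real.smoothTransition.le_one (Λ - x)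
  exact ⟨mul_nonneg h1 h2, mul_le_one₀ h3 h2 h4⟩

theorem b1_exp_le (t : ℝ) (ht : 0 ≤ t) : Real.exp (-t) ≤ 2 * (1 + t ^ 2)⁻¹ := by
  have h1 : 1 + t + t ^ 2 / 2 ≤ Real.exp t := Real.quadratic_le_exp_of_nonneg ht
  rw [Real.exp_neg]
  have h2 : (1 + t ^ 2) / 2 ≤ Real.exp t := by nlinarith
  have h3 : 0 < (1 + t ^ 2) / 2 := by positivity
  calc (Real.exp t)⁻¹ ≤ ((1 + t ^ 2) / 2)⁻¹ := by gcongr
    _ = 2 * (1 + t ^ 2)⁻¹ := by rw [inv_div, div_eq_mul_inv]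

theorem b1_pi_add {f g : ℝ → ℝ} {a b : ℝ} (hf : Integrable f ∧ ∫ x, f x = a) (hg : Integrable g ∧ ∫ x, g x = b) :
    Integrable (fun x => f x + g x) ∧ ∫ x, (f x + g x) = a + b :=
  ⟨hf.1.add hg.1, by rw [integral_add hf.1 hg.1, hf.2, hg.2]⟩

theorem b1_pi_mul {f : ℝ → ℝ} {a : ℝ} (c : ℝ) (hf : Integrable f ∧ ∫ x, f x = a) :
    Integrable (fun x => c * f x) ∧ ∫ x, c * f x = c * a :=
  ⟨hf.1.const_mul c, by rw [integral_const_mul, hf.2]⟩

theorem b1_pi_ind (a b : ℝ) (h : a ≤ b) :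
    Integrable (fun x => (Icc a b).indicator (fun _ => (1:ℝ)) x) ∧
      ∫ x, (Icc a b).indicator (fun _ => (1:ℝ)) x = b - a := by
  refine ⟨(integrable_indicator_iff measurableSet_Icc).2 (by simp), ?_⟩
  rw [integral_indicator measurableSet_Icc]
  simp [h]

theorem b1_third (CP C1 : ℝ) (hCP : 0 < CP) (hC1 : 0 < C1)
    (hP : ∀ l : ℝ, ‖Ph (Real.pi / 4) l‖ ≤ CP * min 1 (Real.exp (1 * l)))
    (h1P : ∀ l : ℝ, ‖1 - Ph (Real.pi / 4) l‖ ≤ C1 * min 1 (Real.exp (-(1 * l))))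
    (Λ τ : ℝ) (hΛ : 2 ≤ Λ) (hτ : 0 ≤ τ) (hτΛ : τ ≤ Λ) (x : ℝ) (hx : x ∈ Ioc (-1 : ℝ) (2 * Λ)) :
    ‖b1_m Λ τ x - (Ioc (0:ℝ) τ).indicator (fun _ => (1:ℂ)) x‖ ≤
      2 * (CP + C1) * (1 + (τ - x) ^ 2)⁻¹ + CP * (Icc (-1:ℝ) 0).indicator (fun _ => (1:ℝ)) x +
        (Icc (Λ - 1) Λ).indicator (fun _ => (1:ℝ)) x := by
  have hq : 0 ≤ (1 + (τ - x) ^ 2)⁻¹ := by positivity
  have hi1 : 0 ≤ (Icc (-1:ℝ) 0).indicator (fun _ => (1:ℝ)) x := indicator_nonneg (fun _ _ => zero_le_one) x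
  have hi2 : 0 ≤ (Icc (Λ - 1) Λ).indicator (fun _ => (1:ℝ)) x := indicator_nonneg (fun _ _ => zero_le_one) x
  have hm : ‖b1_m Λ τ x‖ ≤ ‖Ph (Real.pi / 4) (τ - x)‖ := by
    unfold b1_m
    rw [norm_mul, Complex.norm_real, Real.norm_of_nonneg (b1_kap_le Λ x).1]
    have := (b1_kap_le Λ x).2
    nlinarith [norm_nonneg (Ph (Real.pi / 4) (τ - x))]
  by_cases h0 : x ≤ 0
  · have hn : x ∉ Ioc (0:ℝ) τ := fun h => absurd h.1 (not_lt.2 h0)
    rw [indicator_of_notMem hn, sub_zero, indicator_of_mem (show x ∈ Icc (-1:ℝ) 0 from ⟨hx.1.le, h0⟩)]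
    have h1 := hP (τ - x)
    have h2 := min_le_left 1 (Real.exp (1 * (τ - x)))
    have h3 : ‖Ph (Real.pi / 4) (τ - x)‖ ≤ CP := h1.trans (by nlinarith)
    have h4 : 0 ≤ 2 * (CP + C1) * (1 + (τ - x) ^ 2)⁻¹ := by positivity
    linarith
  push Not at h0
  by_cases hτx : τ < x
  · have hn : x ∉ Ioc (0:ℝ) τ := fun h => absurd h.2 (not_le.2 hτx)
    rw [indicator_of_notMem hn, sub_zero]
    have h1 := hP (τ - x)
    have h2 := min_le_right 1 (Real.exp (1 * (τ - x)))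
    have h3 := b1_exp_le (x - τ) (by linarith)
    have h5 : Real.exp (1 * (τ - x)) ≤ 2 * (1 + (τ - x) ^ 2)⁻¹ := by
      have e1 : 1 * (τ - x) = -(x - τ) := by ring
      have e2 : (τ - x) ^ 2 = (x - τ) ^ 2 := by ring
      rw [e1, e2]; exact h3
    have h6 : ‖Ph (Real.pi / 4) (τ - x)‖ ≤ CP * (2 * (1 + (τ - x) ^ 2)⁻¹) :=
      h1.trans (mul_le_mul_of_nonneg_left (h2.trans h5) hCP.le)
    have h7 : 0 ≤ 2 * C1 * (1 + (τ - x) ^ 2)⁻¹ := by positivity
    have h8 : 0 ≤ CP * (Icc (-1:ℝ) 0).indicator (fun _ => (1:ℝ)) x := mul_nonneg hCP.le hi1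
    linarith
  push Not at hτx
  have hmem : x ∈ Ioc (0:ℝ) τ := ⟨h0, hτx⟩
  rw [indicator_of_mem hmem]
  have h1 := h1P (τ - x)
  have h2 := min_le_right 1 (Real.exp (-(1 * (τ - x))))
  have h3 := b1_exp_le (τ - x) (by linarith)
  rw [one_mul] at h2
  have h6 : ‖1 - Ph (Real.pi / 4) (τ - x)‖ ≤ C1 * (2 * (1 + (τ - x) ^ 2)⁻¹) := by
    refine h1.trans (mul_le_mul_of_nonneg_left ?_ hC1.le)
    rw [one_mul]
    exact h2.trans h3
  have hk := b1_kap_le Λ x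
  have e1 : b1_m Λ τ x - 1 = -((1 - Ph (Real.pi / 4) (τ - x)) * ((kap Λ x : ℝ) : ℂ)) - (((1 - kap Λ x : ℝ)) : ℂ) := by
    unfold b1_m; push_cast; ring
  have h7 : ‖(1 - Ph (Real.pi / 4) (τ - x)) * ((kap Λ x : ℝ) : ℂ)‖ ≤ C1 * (2 * (1 + (τ - x) ^ 2)⁻¹) := by
    rw [norm_mul, Complex.norm_real, Real.norm_of_nonneg hk.1]
    refine le_trans ?_ h6
    nlinarith [norm_nonneg (1 - Ph (Real.pi / 4) (τ - x)), hk.2]
  have h8 : ‖(((1 - kap Λ x : ℝ)) : ℂ)‖ ≤ (Icc (Λ - 1) Λ).indicator (fun _ => (1:ℝ)) x := by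
    rw [Complex.norm_real, Real.norm_of_nonneg (by linarith [hk.2])]
    by_cases h9 : Λ - 1 ≤ x
    · rw [indicator_of_mem (show x ∈ Icc (Λ - 1) Λ from ⟨h9, hτx.trans hτΛ⟩)]
      linarith [hk.1]
    · push Not at h9
      rw [indicator_of_notMem (fun h => absurd h.1 (not_le.2 h9))]
      unfold kap
      rw [Real.smoothTransition.one_of_one_le (by linarith), Real.smoothTransition.one_of_one_le (by linarith)]
      norm_num
  rw [e1]
  refine (norm_sub_le _ _).trans ?_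
  rw [norm_neg]
  have h10 : 0 ≤ 2 * CP * (1 + (τ - x) ^ 2)⁻¹ := by positivity
  have h11 : 0 ≤ CP * (Icc (-1:ℝ) 0).indicator (fun _ => (1:ℝ)) x := mul_nonneg hCP.le hi1
  linarith

theorem b1_key {a b τ : ℝ} (hab : a < b) (ha : a ≤ 0) (hτ : 0 ≤ τ) (hb : τ ≤ b) (m : ℝ → ℂ) (hm : Continuous m) (j : ℤ) :
    fourierCoeffOn hab m j - ((1 / (b - a) : ℝ) : ℂ) *
        ∫ x in (0:ℝ)..τ, cexp (-(((2 * Real.pi * j / (b - a) * x : ℝ) : ℂ) * I)) =
      fourierCoeffOn hab (fun x => m x - (Ioc (0:ℝ) τ).indicator (fun _ => (1:ℂ)) x) j := by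
  have hpos : 0 < b - a := sub_pos.2 hab
  have hfour : ∀ x : ℝ, (fourier (-j) : C(AddCircle (b - a), ℂ)) (x : AddCircle (b - a)) =
      cexp (-(((2 * Real.pi * j / (b - a) * x : ℝ) : ℂ) * I)) := by
    intro x
    rw [fourier_coe_apply]
    congr 1
    push_cast
    ring
  rw [fourierCoeffOn_eq_integral, fourierCoeffOn_eq_integral]
  simp only [hfour, smul_eq_mul]
  set e : ℝ → ℂ := fun x => cexp (-(((2 * Real.pi * j / (b - a) * x : ℝ) : ℂ) * I)) with he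
  have hce : Continuous e := by
    simp only [he]; fun_prop
  have h1 : (∫ x in a..b, e x * (m x - (Ioc (0:ℝ) τ).indicator (fun _ => (1:ℂ)) x)) =
      (∫ x in a..b, e x * m x) - ∫ x in (0:ℝ)..τ, e x := by
    rw [intervalIntegral.integral_of_le hab.le, intervalIntegral.integral_of_le hab.le, intervalIntegral.integral_of_le hτ]
    have i1 : IntegrableOn (fun x => e x * m x) (Ioc a b) :=
      ((hce.mul hm).integrableOn_Icc).mono_set Ioc_subset_Icc_self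
    have i2 : IntegrableOn (fun x => (Ioc (0:ℝ) τ).indicator e x) (Ioc a b) := by
      refine IntegrableOn.indicator ?_ measurableSet_Ioc
      exact (hce.integrableOn_Icc).mono_set Ioc_subset_Icc_self
    have h2 : ∀ x, e x * (m x - (Ioc (0:ℝ) τ).indicator (fun _ => (1:ℂ)) x) = e x * m x - (Ioc (0:ℝ) τ).indicator e x := by
      intro x
      by_cases hx : x ∈ Ioc (0:ℝ) τ
      · rw [indicator_of_mem hx, indicator_of_mem hx]; ring
      · rw [indicator_of_notMem hx, indicator_of_notMem hx]; ring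
    simp only [h2]
    rw [integral_sub i1 i2]
    congr 1
    rw [setIntegral_indicator measurableSet_Ioc]
    congr 2
    rw [inter_eq_right]
    exact Ioc_subset_Ioc ha hb
  rw [h1, Complex.real_smul, Complex.real_smul]
  ring


theorem fourier_m : ∃ C : ℝ, 0 < C ∧ ∀ Λ τ : ℝ, 2 ≤ Λ → 0 ≤ τ → τ ≤ Λ → ∃ c : ℤ → ℂ,
    (∀ x ∈ Icc (0:ℝ) (2 * Λ), HasSum (fun j : ℤ => c j * cexp (((2 * Real.pi * j / (2 * Λ + 1) * x : ℝ) : ℂ) * I))
      (Ph (Real.pi / 4) (τ - x) * ((kap Λ x : ℝ) : ℂ))) ∧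
    (∀ j : ℤ, j ≠ 0 → ‖c j‖ ≤ C / |(j:ℝ)|) ∧
    (∀ j : ℤ, j ≠ 0 → ‖c j‖ ≤ C * Λ / (j:ℝ) ^ 2) ∧
    (∀ j : ℤ, ‖c j - ((1 / (2 * Λ + 1) : ℝ) : ℂ) * ∫ x in (0:ℝ)..τ, cexp (-(((2 * Real.pi * j / (2 * Λ + 1) * x : ℝ) : ℂ) * I))‖ ≤ C / Λ) := by
  obtain ⟨CP, hCP, hP⟩ := Ph_le (Real.pi / 4) (A := 1) (by norm_num)
  obtain ⟨C1, hC1, h1P⟩ := one_sub_Ph_le (Real.pi / 4) (A := 1) (by norm_num)
  obtain ⟨s1, s2, K, hK, hs1, hs2, bs1, bs2, is1, is2, cs1, cs2, z0, z1⟩ := b1_st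
  have hPb : ∀ l, ‖Ph (Real.pi / 4) l‖ ≤ CP := fun l => (hP l).trans (by
    have := min_le_left 1 (Real.exp (1 * l)); nlinarith)
  set G0 : ℝ := 1 / (2 * √Real.pi) * Real.exp ((Real.pi / 4) ^ 2 / 4) with hG0
  have hG0p : 0 < G0 := by positivity
  have hgd : ∀ l, ‖b1_gd (Real.pi / 4) l‖ = G0 * Real.exp (-(1 / 4) * l ^ 2) := fun l => b1_norm_gd _ l
  have hgdb : ∀ l, ‖b1_gd (Real.pi / 4) l‖ ≤ G0 := by
    intro l
    rw [hgd]
    have : Real.exp (-(1 / 4) * l ^ 2) ≤ 1 := Real.exp_le_one_iff.2 (by nlinarith [sq_nonneg l])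
    nlinarith
  -- first and second derivative of the gaussian: integrable bounds
  set g1 : ℝ → ℝ := fun l => G0 * Real.exp (-(1 / 4) * l ^ 2) with hg1
  set g2 : ℝ → ℝ := fun l => G0 * (|l| * Real.exp (-(1 / 4) * l ^ 2)) + G0 * Real.exp (-(1 / 4) * l ^ 2) with hg2
  have ig1 : Integrable g1 := b1_int_gauss.const_mul G0
  have ig2 : Integrable g2 := (b1_int_gauss1.const_mul G0).add (b1_int_gauss.const_mul G0)
  have hgd2 : ∀ l, ‖b1_gd (Real.pi / 4) l * (-((l:ℂ) + ((Real.pi / 4 : ℝ) : ℂ) * I) / 2)‖ ≤ g2 l := by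
    intro l
    rw [norm_mul, hgd]
    have h1 : ‖(-((l:ℂ) + ((Real.pi / 4 : ℝ) : ℂ) * I) / 2)‖ ≤ |l| + 1 := by
      rw [norm_div, norm_neg]
      have h2 : ‖(l:ℂ) + ((Real.pi / 4 : ℝ) : ℂ) * I‖ ≤ |l| + 1 := by
        refine (norm_add_le _ _).trans ?_
        rw [norm_mul, Complex.norm_I, Complex.norm_real, Complex.norm_real, mul_one, Real.norm_eq_abs, Real.norm_eq_abs,
          abs_of_pos (by positivity : (0:ℝ) < Real.pi / 4)]
        linarith [Real.pi_lt_four]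
      have h3 : ‖(2:ℂ)‖ = 2 := by simp
      rw [h3]
      linarith [abs_nonneg l]
    have h4 : 0 < Real.exp (-(1 / 4) * l ^ 2) := Real.exp_pos _
    calc G0 * Real.exp (-(1 / 4) * l ^ 2) * ‖(-((l:ℂ) + ((Real.pi / 4 : ℝ) : ℂ) * I) / 2)‖
        ≤ G0 * Real.exp (-(1 / 4) * l ^ 2) * (|l| + 1) := by gcongr
      _ = g2 l := by simp only [hg2]; ring
  set q : ℝ → ℝ := fun l => (1 + l ^ 2)⁻¹ with hq
  have iq : Integrable q := integrable_inv_one_add_sq
  set E1 : ℝ := (∫ x, g1 x) + CP * ((∫ x, |s1 x|) + ∫ x, |s1 x|) with hE1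
  set E2 : ℝ := (∫ x, g2 x) + 2 * G0 * ((∫ x, |s1 x|) + ∫ x, |s1 x|) +
    CP * ((∫ x, |s2 x|) + 2 * K * (∫ x, |s1 x|) + ∫ x, |s2 x|) with hE2
  set E3 : ℝ := 2 * (CP + C1) * (∫ x, q x) + CP * 1 + 1 with hE3
  have J1n : 0 ≤ ∫ x, |s1 x| := integral_nonneg fun x => abs_nonneg _
  have J2n : 0 ≤ ∫ x, |s2 x| := integral_nonneg fun x => abs_nonneg _
  have g1n : 0 ≤ ∫ x, g1 x := integral_nonneg fun x => by positivity
  have g2n : 0 ≤ ∫ x, g2 x := integral_nonneg fun x => by positivity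
  have qn : 0 ≤ ∫ x, q x := integral_nonneg fun x => by positivity
  have E1n : 0 ≤ E1 := by positivity
  have E2n : 0 ≤ E2 := by positivity
  have E3n : 0 ≤ E3 := by positivity
  refine ⟨E1 + E2 + E3 + 1, by positivity, fun Λ τ hΛ hτ hτΛ => ?_⟩
  have : Fact (0 < 2 * Λ + 1) := ⟨by linarith⟩
  -- derivatives of kap and of m
  have dst1 : ∀ x, HasDerivAt (fun x => Real.smoothTransition (x + 1)) (s1 (x + 1)) x := fun x =>
    HasDerivAt.comp_add_const x 1 (hs1 (x + 1))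
  have dst2 : ∀ x, HasDerivAt (fun x => Real.smoothTransition (Λ - x)) (-s1 (Λ - x)) x := fun x =>
    HasDerivAt.comp_const_sub Λ x (hs1 (Λ - x))
  have ds1 : ∀ x, HasDerivAt (fun x => s1 (x + 1)) (s2 (x + 1)) x := fun x =>
    HasDerivAt.comp_add_const x 1 (hs2 (x + 1))
  have ds2 : ∀ x, HasDerivAt (fun x => s1 (Λ - x)) (-s2 (Λ - x)) x := fun x =>
    HasDerivAt.comp_const_sub Λ x (hs2 (Λ - x))
  set k1 : ℝ → ℝ := fun x => s1 (x + 1) * Real.smoothTransition (Λ - x) + Real.smoothTransition (x + 1) * (-s1 (Λ - x)) with hk1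
  set k2 : ℝ → ℝ := fun x => (s2 (x + 1) * Real.smoothTransition (Λ - x) + s1 (x + 1) * (-s1 (Λ - x))) +
    (s1 (x + 1) * (-s1 (Λ - x)) + Real.smoothTransition (x + 1) * (-(-s2 (Λ - x)))) with hk2
  have dk : ∀ x, HasDerivAt (kap Λ) (k1 x) x := fun x => (dst1 x).mul (dst2 x)
  have dk1 : ∀ x, HasDerivAt k1 (k2 x) x := fun x =>
    ((ds1 x).mul (dst2 x)).add ((dst1 x).mul (ds2 x).neg)
  have dP : ∀ x, HasDerivAt (fun x : ℝ => Ph (Real.pi / 4) (τ - x)) (-b1_gd (Real.pi / 4) (τ - x)) x := fun x =>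
    HasDerivAt.comp_const_sub τ x (hasDerivAt_Ph (Real.pi / 4) (τ - x))
  have dG : ∀ x, HasDerivAt (fun x : ℝ => -b1_gd (Real.pi / 4) (τ - x))
      (b1_gd (Real.pi / 4) (τ - x) * (-(((τ - x : ℝ) : ℂ) + ((Real.pi / 4 : ℝ) : ℂ) * I) / 2)) x := fun x => by
    have h := (HasDerivAt.comp_const_sub τ x (b1_deriv_gd (Real.pi / 4) (τ - x))).neg
    rw [neg_neg] at h
    exact h
  set m1 : ℝ → ℂ := fun x => (-b1_gd (Real.pi / 4) (τ - x)) * ((kap Λ x : ℝ) : ℂ) +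
    Ph (Real.pi / 4) (τ - x) * ((k1 x : ℝ) : ℂ) with hm1
  set m2 : ℝ → ℂ := fun x =>
    (b1_gd (Real.pi / 4) (τ - x) * (-(((τ - x : ℝ) : ℂ) + ((Real.pi / 4 : ℝ) : ℂ) * I) / 2) * ((kap Λ x : ℝ) : ℂ) +
      (-b1_gd (Real.pi / 4) (τ - x)) * ((k1 x : ℝ) : ℂ)) +
    ((-b1_gd (Real.pi / 4) (τ - x)) * ((k1 x : ℝ) : ℂ) + Ph (Real.pi / 4) (τ - x) * ((k2 x : ℝ) : ℂ)) with hm2
  have dm : ∀ x, HasDerivAt (b1_m Λ τ) (m1 x) x := fun x => (dP x).mul (dk x).ofReal_comp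
  have dm1 : ∀ x, HasDerivAt m1 (m2 x) x := fun x =>
    ((dG x).mul (dk x).ofReal_comp).add ((dP x).mul (dk1 x).ofReal_comp)
  have stb : ∀ y, |Real.smoothTransition y| ≤ 1 := fun y => by
    rw [abs_of_nonneg (Real.smoothTransition.nonneg y)]; exact Real.smoothTransition.le_one y
  have kb : ∀ x, |kap Λ x| ≤ 1 := fun x => by
    rw [abs_of_nonneg (b1_kap_le Λ x).1]; exact (b1_kap_le Λ x).2
  have k1b : ∀ x, |k1 x| ≤ |s1 (x + 1)| + |s1 (Λ - x)| := fun x => by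
    simp only [hk1]
    refine (abs_add_le _ _).trans ?_
    rw [abs_mul, abs_mul, abs_neg]
    have h1 := stb (Λ - x)
    have h2 := stb (x + 1)
    have h3 := mul_le_of_le_one_right (abs_nonneg (s1 (x + 1))) h1
    have h4 := mul_le_of_le_one_left (abs_nonneg (s1 (Λ - x))) h2
    linarith
  have k2b : ∀ x, |k2 x| ≤ |s2 (x + 1)| + 2 * K * |s1 (x + 1)| + |s2 (Λ - x)| := fun x => by
    simp only [hk2]
    refine (abs_add_le _ _).trans ?_
    refine (add_le_add (abs_add_le _ _) (abs_add_le _ _)).trans ?_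
    simp only [abs_mul, abs_neg]
    have h1 := stb (Λ - x)
    have h2 := stb (x + 1)
    have h3 := bs1 (Λ - x)
    have h4 : |s1 (x + 1)| * |s1 (Λ - x)| ≤ |s1 (x + 1)| * K := mul_le_mul_of_nonneg_left h3 (abs_nonneg _)
    have h5 : |s2 (x + 1)| * |Real.smoothTransition (Λ - x)| ≤ |s2 (x + 1)| * 1 :=
      mul_le_mul_of_nonneg_left h1 (abs_nonneg _)
    have h6 : |Real.smoothTransition (x + 1)| * |s2 (Λ - x)| ≤ 1 * |s2 (Λ - x)| :=
      mul_le_mul_of_nonneg_right h2 (abs_nonneg _)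
    linarith
  set D1 : ℝ → ℝ := fun x => g1 (τ - x) + CP * (|s1 (x + 1)| + |s1 (Λ - x)|) with hD1
  set D2 : ℝ → ℝ := fun x => g2 (τ - x) + 2 * G0 * (|s1 (x + 1)| + |s1 (Λ - x)|) +
    CP * (|s2 (x + 1)| + 2 * K * |s1 (x + 1)| + |s2 (Λ - x)|) with hD2
  have pg1 := b1_int_comp' g1 ig1 τ
  have pg2 := b1_int_comp' g2 ig2 τ
  have p1a := b1_int_comp (fun x => |s1 x|) is1 1
  have p1b := b1_int_comp' (fun x => |s1 x|) is1 Λ
  have p2a := b1_int_comp (fun x => |s2 x|) is2 1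
  have p2b := b1_int_comp' (fun x => |s2 x|) is2 Λ
  obtain ⟨iD1, eD1⟩ : Integrable D1 ∧ ∫ x, D1 x = E1 := b1_pi_add pg1 (b1_pi_mul CP (b1_pi_add p1a p1b))
  obtain ⟨iD2, eD2⟩ : Integrable D2 ∧ ∫ x, D2 x = E2 :=
    b1_pi_add (b1_pi_add pg2 (b1_pi_mul (2 * G0) (b1_pi_add p1a p1b)))
      (b1_pi_mul CP (b1_pi_add (b1_pi_add p2a (b1_pi_mul (2 * K) p1a)) p2b))
  have D1n : ∀ x, 0 ≤ D1 x := fun x => by positivity
  have D2n : ∀ x, 0 ≤ D2 x := fun x => by positivity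
  have m1b : ∀ x, ‖m1 x‖ ≤ D1 x := fun x => by
    simp only [hm1, hD1]
    refine (norm_add_le _ _).trans ?_
    rw [norm_mul, norm_mul, norm_neg, Complex.norm_real, Complex.norm_real, Real.norm_eq_abs, Real.norm_eq_abs, hgd]
    have h1 : g1 (τ - x) * |kap Λ x| ≤ g1 (τ - x) * 1 := mul_le_mul_of_nonneg_left (kb x) (by positivity)
    have h2 : ‖Ph (Real.pi / 4) (τ - x)‖ * |k1 x| ≤ CP * (|s1 (x + 1)| + |s1 (Λ - x)|) :=
      mul_le_mul (hPb _) (k1b x) (abs_nonneg _) hCP.le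
    simp only [hg1] at h1 ⊢
    linarith
  have m2b : ∀ x, ‖m2 x‖ ≤ D2 x := fun x => by
    simp only [hm2, hD2]
    refine (norm_add_le _ _).trans ?_
    refine (add_le_add (norm_add_le _ _) (norm_add_le _ _)).trans ?_
    have e1 := hgd2 (τ - x)
    have e2 := hgdb (τ - x)
    have h1 : ‖b1_gd (Real.pi / 4) (τ - x) * (-(((τ - x : ℝ) : ℂ) + ((Real.pi / 4 : ℝ) : ℂ) * I) / 2) *
        ((kap Λ x : ℝ) : ℂ)‖ ≤ g2 (τ - x) := by
      rw [norm_mul, Complex.norm_real, Real.norm_eq_abs]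
      calc _ ≤ g2 (τ - x) * 1 := mul_le_mul e1 (kb x) (abs_nonneg _) ((norm_nonneg _).trans e1)
        _ = g2 (τ - x) := mul_one _
    have h2 : ‖(-b1_gd (Real.pi / 4) (τ - x)) * ((k1 x : ℝ) : ℂ)‖ ≤ G0 * (|s1 (x + 1)| + |s1 (Λ - x)|) := by
      rw [norm_mul, norm_neg, Complex.norm_real, Real.norm_eq_abs]
      exact mul_le_mul e2 (k1b x) (abs_nonneg _) hG0p.le
    have h3 : ‖Ph (Real.pi / 4) (τ - x) * ((k2 x : ℝ) : ℂ)‖ ≤
        CP * (|s2 (x + 1)| + 2 * K * |s1 (x + 1)| + |s2 (Λ - x)|) := by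
      rw [norm_mul, Complex.norm_real, Real.norm_eq_abs]
      exact mul_le_mul (hPb _) (k2b x) (abs_nonneg _) hCP.le
    linarith
  have cm2 : Continuous m2 := by
    have c1 : Continuous (fun x : ℝ => b1_gd (Real.pi / 4) (τ - x)) := by
      unfold b1_gd; fun_prop
    have c2 : Continuous (kap Λ) := continuous_iff_continuousAt.2 fun x => (dk x).continuousAt
    have c3 : Continuous k1 := continuous_iff_continuousAt.2 fun x => (dk1 x).continuousAt
    have c4 : Continuous (fun x : ℝ => Ph (Real.pi / 4) (τ - x)) :=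
      continuous_iff_continuousAt.2 fun x => (dP x).continuousAt
    have c5 : Continuous Real.smoothTransition := Real.smoothTransition.continuous
    have c6 : Continuous k2 := by
      simp only [hk2]
      fun_prop
    simp only [hm2]
    fun_prop
  have hL : (0:ℝ) < 2 * Λ + 1 := by linarith
  have hend : (-1 : ℝ) + (2 * Λ + 1) = 2 * Λ := by ring
  have st0 : Real.smoothTransition 0 = 0 := Real.smoothTransition.zero_of_nonpos le_rfl
  have stn : Real.smoothTransition (Λ - 2 * Λ) = 0 := Real.smoothTransition.zero_of_nonpos (by linarith)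
  have s0 : s1 0 = 0 := z0 0 le_rfl
  have sn : s1 (Λ - 2 * Λ) = 0 := z0 _ (by linarith)
  have sL : s1 (2 * Λ + 1) = 0 := z1 _ (by linarith)
  have ka : kap Λ (-1) = 0 := by unfold kap; rw [neg_add_cancel, st0, zero_mul]
  have kb' : kap Λ (-1 + (2 * Λ + 1)) = 0 := by unfold kap; rw [hend, stn, mul_zero]
  have k1a : k1 (-1) = 0 := by simp only [hk1]; rw [neg_add_cancel, s0, st0, zero_mul, zero_mul, add_zero]
  have k1b' : k1 (-1 + (2 * Λ + 1)) = 0 := by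
    simp only [hk1]; rw [hend, sL, sn, neg_zero, mul_zero, zero_mul, add_zero]
  obtain ⟨A1, A2, A3⟩ := b1_gen (2 * Λ + 1) hL (-1) (b1_m Λ τ) m1 m2 dm dm1 cm2
    (by unfold b1_m; rw [ka, Complex.ofReal_zero, mul_zero])
    (by unfold b1_m; rw [kb', Complex.ofReal_zero, mul_zero])
    (by simp only [hm1]; rw [ka, k1a, Complex.ofReal_zero, mul_zero, mul_zero, add_zero])
    (by simp only [hm1]; rw [kb', k1b', Complex.ofReal_zero, mul_zero, mul_zero, add_zero])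
    D1 D2 iD1 iD2 D1n D2n (fun x _ => m1b x) (fun x _ => m2b x)
  rw [eD1] at A1
  rw [eD2] at A2
  have hpi := Real.pi_gt_three
  refine ⟨fun j => fourierCoeffOn (lt_add_of_pos_right (-1) hL) (b1_m Λ τ) j, fun x hx => ?_, fun j hj => ?_,
    fun j hj => ?_, fun j => ?_⟩
  · exact A3 x ⟨by linarith [hx.1], by rw [hend]; exact hx.2⟩
  · have hj' : (0:ℝ) < |(j:ℝ)| := abs_pos.2 (by exact_mod_cast hj)
    refine (A1 j hj).trans ?_
    rw [div_le_div_iff₀ (by positivity) hj']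
    have h1 : E1 ≤ (E1 + E2 + E3 + 1) * (2 * Real.pi) := by
      have := mul_le_mul_of_nonneg_left (show (1:ℝ) ≤ 2 * Real.pi by linarith) (show 0 ≤ E1 + E2 + E3 + 1 by linarith)
      linarith
    calc E1 * |(j:ℝ)| ≤ (E1 + E2 + E3 + 1) * (2 * Real.pi) * |(j:ℝ)| := by gcongr
      _ = _ := by ring
  · have hj' : (0:ℝ) < |(j:ℝ)| := abs_pos.2 (by exact_mod_cast hj)
    have hj2 : (0:ℝ) < (j:ℝ) ^ 2 := by rw [← sq_abs]; positivity
    refine (A2 j hj).trans ?_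
    rw [mul_pow, sq_abs, div_le_div_iff₀ (by positivity) hj2]
    have h1 : (2 * Λ + 1) * E2 ≤ (E1 + E2 + E3 + 1) * Λ * (2 * Real.pi) ^ 2 := by
      have h3 : (2 * Λ + 1) * E2 ≤ 3 * Λ * (E1 + E2 + E3 + 1) := by
        apply mul_le_mul <;> linarith
      have h4 : 3 ≤ (2 * Real.pi) ^ 2 := by
        have := pow_le_pow_left₀ (by norm_num : (0:ℝ) ≤ 6) (show (6:ℝ) ≤ 2 * Real.pi by linarith) 2
        linarith
      have h5 : 0 ≤ Λ * (E1 + E2 + E3 + 1) := by positivity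
      have h6 := mul_le_mul_of_nonneg_left h4 h5
      linarith
    calc (2 * Λ + 1) * E2 * (j:ℝ) ^ 2 ≤ (E1 + E2 + E3 + 1) * Λ * (2 * Real.pi) ^ 2 * (j:ℝ) ^ 2 := by gcongr
      _ = _ := by ring
  · set ind : ℝ → ℂ := fun x => (Ioc (0:ℝ) τ).indicator (fun _ => (1:ℂ)) x with hind
    have hab : (-1:ℝ) < -1 + (2 * Λ + 1) := lt_add_of_pos_right (-1) hL
    set D3 : ℝ → ℝ := fun x => 2 * (CP + C1) * (1 + (τ - x) ^ 2)⁻¹ + CP * (Icc (-1:ℝ) 0).indicator (fun _ => (1:ℝ)) x +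
        (Icc (Λ - 1) Λ).indicator (fun _ => (1:ℝ)) x with hD3
    obtain ⟨iD3, eD3⟩ : Integrable D3 ∧ ∫ x, D3 x = 2 * (CP + C1) * (∫ x, q x) + CP * (0 - (-1)) + (Λ - (Λ - 1)) :=
      b1_pi_add (b1_pi_add (b1_pi_mul (2 * (CP + C1)) (b1_int_comp' q iq τ)) (b1_pi_mul CP (b1_pi_ind (-1) 0 (by norm_num))))
        (b1_pi_ind (Λ - 1) Λ (by linarith))
    have eD3' : ∫ x, D3 x = E3 := by rw [eD3, hE3]; ring
    have D3n : ∀ x, 0 ≤ D3 x := fun x => by
      have hi1 : 0 ≤ (Icc (-1:ℝ) 0).indicator (fun _ => (1:ℝ)) x := indicator_nonneg (fun _ _ => zero_le_one) x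
      have hi2 : 0 ≤ (Icc (Λ - 1) Λ).indicator (fun _ => (1:ℝ)) x := indicator_nonneg (fun _ _ => zero_le_one) x
      simp only [hD3]
      positivity
    have key : fourierCoeffOn hab (b1_m Λ τ) j - ((1 / (2 * Λ + 1) : ℝ) : ℂ) *
        ∫ x in (0:ℝ)..τ, cexp (-(((2 * Real.pi * j / (2 * Λ + 1) * x : ℝ) : ℂ) * I)) =
        fourierCoeffOn hab (fun x => b1_m Λ τ x - ind x) j := by
      have hcm : Continuous (b1_m Λ τ) := continuous_iff_continuousAt.2 fun x => (dm x).continuousAt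
      have h := b1_key hab (by norm_num) hτ (by linarith) (b1_m Λ τ) hcm j
      have e1 : -1 + (2 * Λ + 1) - -1 = 2 * Λ + 1 := by ring
      rw [e1] at h
      exact h
    rw [key]
    have h1 := b1_coeff_le hab (fun x => b1_m Λ τ x - ind x) D3 j iD3
      (fun x hx => b1_third CP C1 hCP hC1 hP h1P Λ τ hΛ hτ hτΛ x (by rw [hend] at hx; exact hx)) D3n
    refine h1.trans ?_
    rw [eD3']
    have e1 : -1 + (2 * Λ + 1) - -1 = 2 * Λ + 1 := by ring
    rw [e1, one_div, inv_mul_le_iff₀ hL, mul_div_assoc']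
    rw [le_div_iff₀ (by linarith)]
    have : E3 * Λ ≤ (E1 + E2 + E3 + 1) * Λ := by gcongr; linarith
    have h7 := mul_nonneg (by linarith : 0 ≤ Λ) (by linarith : 0 ≤ E1 + E2 + E3 + 1)
    have h8 : (2 * Λ + 1) * (E1 + E2 + E3 + 1) = (E1 + E2 + E3 + 1) * Λ + Λ * (E1 + E2 + E3 + 1) + (E1 + E2 + E3 + 1) := by ring
    rw [h8]
    linarith

end Pool.Agent.LibM3
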