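import Pool.Agent.LibM3.B1

/-! Third moment, block B2: the truncated Dirichlet series is dominated by squares of the square root polynomial. -/

set_option autoImplicit false

namespace Pool.Agent.LibM3

open MeasureTheory Set Filter Topology Complex ProbabilityTheory
open scoped NNReal ComplexConjugate
open Pool.Agent.LibZM

lemma b2_per_pos (N : ℕ) : 0 < per N := by
  have h : 0 ≤ Real.log N := Real.log_natCast_nonneg N
  unfold per; linarith

theorem norm_sharp_coeff (N : ℕ) (hN : 1 ≤ N) (τ : ℝ) (hτ : 0 ≤ τ) (j : ℤ) :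
    ‖((1 / per N : ℝ) : ℂ) * ∫ x in (0:ℝ)..τ, cexp (-(((2 * Real.pi * j / per N * x : ℝ) : ℂ) * I))‖ = csh N τ j := by
  have hP := b2_per_pos N
  unfold csh
  by_cases hj : j = 0
  · subst hj
    simp only [if_true, Int.cast_zero, mul_zero, zero_div, zero_mul, ofReal_zero, neg_zero, Complex.exp_zero,
      intervalIntegral.integral_const, sub_zero]
    rw [norm_mul, norm_real, Real.norm_eq_abs, abs_of_nonneg (by positivity)]
    rw [Complex.real_smul, mul_one, norm_real, Real.norm_eq_abs, abs_of_nonneg hτ]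
    ring
  · rw [if_neg hj]
    have hjr : (j:ℝ) ≠ 0 := by exact_mod_cast hj
    have hpi := Real.pi_pos
    set y : ℝ := 2 * Real.pi * j / per N with hy
    have hy0 : y ≠ 0 := by
      rw [hy]; positivity
    have hc : (-(y:ℂ) * I) ≠ 0 := by
      simp [hy0]
    have e1 : ∫ x in (0:ℝ)..τ, cexp (-(((y * x : ℝ) : ℂ) * I)) = ∫ x in (0:ℝ)..τ, cexp ((-(y:ℂ) * I) * x) := by
      refine intervalIntegral.integral_congr fun x _ => ?_
      congr 1; push_cast; ring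
    rw [e1, integral_exp_mul_complex hc, norm_mul, norm_div, norm_real, Real.norm_eq_abs, abs_of_nonneg (by positivity)]
    have e2 : cexp (-(y:ℂ) * I * τ) - cexp (-(y:ℂ) * I * (0:ℝ)) = cexp (I * ((-(y * τ) : ℝ) : ℂ)) - 1 := by
      simp only [ofReal_zero, mul_zero, Complex.exp_zero]
      congr 2; push_cast; ring
    rw [e2, Complex.norm_exp_I_mul_ofReal_sub_one]
    have e3 : ‖-(y:ℂ) * I‖ = 2 * Real.pi * |(j:ℝ)| / per N := by
      rw [norm_mul, norm_I, mul_one, norm_neg, norm_real, Real.norm_eq_abs, hy, abs_div, abs_mul, abs_of_pos hP,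
        abs_of_pos (by positivity : (0:ℝ) < 2 * Real.pi)]
    rw [e3, norm_mul, Real.norm_eq_abs, Real.norm_eq_abs]
    have e4 : Real.sin (-(y * τ) / 2) = - Real.sin (Real.pi * j * τ / per N) := by
      rw [← Real.sin_neg]; congr 1; rw [hy]; field_simp
    rw [e4, abs_neg, abs_of_pos (by norm_num : (0:ℝ) < 2)]
    have hja : 0 < |(j:ℝ)| := abs_pos.mpr hjr
    field_simp

/-- Tail bound for symmetric sums. -/
lemma b2_tail {f : ℤ → ℂ} {a : ℂ} (hf : HasSum f a) {B : ℝ} (hB : ∀ j : ℤ, j ≠ 0 → ‖f j‖ ≤ B / (j:ℝ) ^ 2) (hB0 : 0 ≤ B)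
    {M : ℕ} (hM : 1 ≤ M) : ‖a‖ ≤ ∑ j ∈ Finset.Icc (-(M:ℤ)) M, ‖f j‖ + 2 * B / M := by
  have hM0 : (0:ℝ) < M := by exact_mod_cast hM
  have key : ∀ K : ℕ, ‖∑ j ∈ Finset.Icc (-((M + K : ℕ):ℤ)) ((M + K : ℕ) : ℤ), f j‖ ≤ 
      ∑ j ∈ Finset.Icc (-(M:ℤ)) M, ‖f j‖ + 2 * B * (1 / (M:ℝ) - 1 / ((M + K : ℕ):ℝ)) := by
    intro K
    induction K with
    | zero => simpa using norm_sum_le _ _
    | succ K ih =>
      have e : ((M + (K + 1) : ℕ) : ℤ) = ((M + K : ℕ) : ℤ) + 1 := by push_cast; ring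
      rw [e, Finset.sum_Icc_succ_eq_add_endpoints]
      set k : ℕ := M + K with hk
      have hk1 : (1:ℝ) ≤ k := by
        have : 1 ≤ k := by omega
        exact_mod_cast this
      have h1 : ‖f ((k:ℤ) + 1)‖ ≤ B / ((k:ℝ) + 1) ^ 2 := by
        have := hB ((k:ℤ) + 1) (by omega)
        push_cast at this; exact this
      have h2 : ‖f (-((k:ℤ) + 1))‖ ≤ B / ((k:ℝ) + 1) ^ 2 := by
        have := hB (-((k:ℤ) + 1)) (by omega)
        push_cast at this
        rwa [neg_sq] at this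
      have h3 : B / ((k:ℝ) + 1) ^ 2 ≤ B * (1 / (k:ℝ) - 1 / ((k:ℝ) + 1)) := by
        have hk0 : (0:ℝ) < k := by linarith
        have : 1 / (k:ℝ) - 1 / ((k:ℝ) + 1) = 1 / ((k:ℝ) * (k + 1)) := by field_simp; ring
        rw [this, div_eq_mul_one_div B]
        refine mul_le_mul_of_nonneg_left ?_ hB0
        apply one_div_le_one_div_of_le (by positivity)
        nlinarith
      have e2 : ((M + (K + 1) : ℕ) : ℝ) = (k:ℝ) + 1 := by rw [hk]; push_cast; ring
      rw [e2]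
      refine (norm_add_le _ _).trans ?_
      have h4 := norm_add_le (f ((k:ℤ) + 1)) (f (-((k:ℤ) + 1)))
      nlinarith [ih]
  have h1 : Tendsto (fun K : ℕ => ∑ j ∈ Finset.Icc (-((M + K : ℕ):ℤ)) ((M + K : ℕ) : ℤ), f j) atTop (𝓝 a) := by
    have h2 : Tendsto (fun K : ℕ => M + K) atTop atTop := tendsto_atTop_mono (fun K => Nat.le_add_left K M) tendsto_id
    have h3 : Tendsto (fun n : ℕ ↦ Finset.Icc (-(n:ℤ)) n) atTop atTop := Finset.tendsto_Icc_neg
    exact hf.comp (h3.comp h2)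
  refine le_of_tendsto h1.norm (Eventually.of_forall fun K => ?_)
  refine (key K).trans ?_
  have hMK : (0:ℝ) < ((M + K : ℕ):ℝ) := by
    have : 0 < M + K := by omega
    exact_mod_cast this
  have h5 : 2 * B * (1 / (M:ℝ) - 1 / ((M + K : ℕ):ℝ)) ≤ 2 * B / M := by
    have : 0 ≤ 2 * B * (1 / ((M + K : ℕ):ℝ)) := by positivity
    have e : 2 * B / M = 2 * B * (1 / (M:ℝ)) := by ring
    rw [e, mul_sub]; linarith
  linarith

lemma b2_p2 {N n : ℕ} (hn1 : 1 ≤ n) (hn : n ≤ N) : (halfTrunc N ^ 2) n = 1 := by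
  rw [halfTrunc_pow hn]
  rw [show (((2:ℕ):ℝ) * (1/2) : ℝ) = 1 by norm_num]
  exact tau_one_apply (by omega)

lemma b2_sq (N : ℕ) {s : ℂ} (hs : s ≠ 0) : 
    PP N s ^ 2 = ∑ n ∈ Finset.Icc 1 (N ^ 2), (((halfTrunc N ^ 2) n : ℝ) : ℂ) * (n:ℂ) ^ (-s) := by
  unfold PP
  rw [← dp_pow (halfTrunc_supp N) hs 2]
  rfl

theorem Dpoly_le : ∃ C : ℝ, 0 < C ∧ ∀ N : ℕ, 8 ≤ N → ∀ τ : ℝ, 0 ≤ τ → τ ≤ Real.log N → ∃ c : ℤ → ℝ,
    (∀ j, 0 ≤ c j) ∧ (∀ j : ℤ, j ≠ 0 → c j ≤ C / |(j:ℝ)|) ∧ (∀ j : ℤ, j ≠ 0 → c j ≤ C * Real.log N / (j:ℝ) ^ 2) ∧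
    (∀ j : ℤ, c j ≤ csh N τ j + C / Real.log N) ∧
    ∀ t : ℝ, ∀ M : ℕ, 1 ≤ M →
      ‖∑ n ∈ Finset.Icc 1 N, Ph (Real.pi / 4) (τ - Real.log n) * ((kap (Real.log N) (Real.log n) : ℝ) : ℂ) * (n:ℂ) ^ (-crit t)‖ ≤
        ∑ j ∈ Finset.Icc (-(M:ℤ)) M, c j * ‖PP N (crit t - (yj N j : ℝ) * I)‖ ^ 2 + C * Real.log N * (N:ℝ) ^ 2 / M := by
  obtain ⟨C, hC, hF⟩ := fourier_m
  refine ⟨2 * C, by positivity, ?_⟩
  intro N hN τ hτ0 hτ1
  have hNr : (8:ℝ) ≤ N := by exact_mod_cast hN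
  have hL2 : 2 ≤ Real.log N := by
    have h1 : Real.log 8 ≤ Real.log N := Real.log_le_log (by norm_num) hNr
    have h2 : Real.log 8 = 3 * Real.log 2 := by
      rw [show (8:ℝ) = 2 ^ 3 by norm_num, Real.log_pow]; norm_num
    have h3 := Real.log_two_gt_d9
    linarith
  set L : ℝ := Real.log N with hL
  have hL0 : 0 < L := by linarith
  obtain ⟨c, hc1, hc2, hc3, hc4⟩ := hF L τ hL2 hτ0 hτ1
  refine ⟨fun j => ‖c j‖, fun j => norm_nonneg _, ?_, ?_, ?_, ?_⟩
  · intro j hj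
    have hj0 : (0:ℝ) < |(j:ℝ)| := abs_pos.mpr (by exact_mod_cast hj)
    refine (hc2 j hj).trans ?_
    gcongr; linarith
  · intro j hj
    refine (hc3 j hj).trans ?_
    gcongr; linarith
  · intro j
    have h1 := hc4 j
    have h2 := norm_sharp_coeff N (by omega) τ hτ0 j
    have h3 : per N = 2 * L + 1 := rfl
    rw [← h3] at h1
    have h4 := norm_sub_norm_le (c j) (((1 / per N : ℝ) : ℂ) * ∫ x in (0:ℝ)..τ, cexp (-(((2 * Real.pi * j / per N * x : ℝ) : ℂ) * I)))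
    rw [h2] at h4
    have h5 : C / L ≤ 2 * C / L := by gcongr; linarith
    linarith
  · intro t M hM
    set s : ℂ := crit t with hs
    have hsub : ∀ j : ℤ, s - (yj N j : ℝ) * I = ((1/2 : ℝ) : ℂ) + ((t - yj N j : ℝ) : ℂ) * I := by
      intro j; rw [hs]; unfold crit; push_cast; ring
    have hne : ∀ j : ℤ, s - (yj N j : ℝ) * I ≠ 0 := by
      intro j h
      have := congrArg Complex.re h
      rw [hsub] at this
      simp at this
    -- expansion at every n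
    have hterm : ∀ n ∈ Finset.Icc 1 (N ^ 2), 
        HasSum (fun j : ℤ => (((halfTrunc N ^ 2) n : ℝ) : ℂ) * (n:ℂ) ^ (-s) * 
          (c j * cexp (((2 * Real.pi * j / (2 * L + 1) * Real.log n : ℝ) : ℂ) * I)))
        ((((halfTrunc N ^ 2) n : ℝ) : ℂ) * (n:ℂ) ^ (-s) * 
          (Ph (Real.pi / 4) (τ - Real.log n) * ((kap L (Real.log n) : ℝ) : ℂ))) := by
      intro n hn
      rw [Finset.mem_Icc] at hn
      refine (hc1 (Real.log n) ⟨Real.log_natCast_nonneg n, ?_⟩).mul_left _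
      have h1 : (n:ℝ) ≤ (N:ℝ) ^ 2 := by exact_mod_cast hn.2
      have hn0 : (0:ℝ) < n := by exact_mod_cast hn.1
      have h2 := Real.log_le_log hn0 h1
      rw [Real.log_pow] at h2
      exact_mod_cast h2
    have hsum := hasSum_sum hterm
    have hL1 : ∀ j : ℤ, ∑ n ∈ Finset.Icc 1 (N ^ 2), (((halfTrunc N ^ 2) n : ℝ) : ℂ) * (n:ℂ) ^ (-s) * 
          (c j * cexp (((2 * Real.pi * j / (2 * L + 1) * Real.log n : ℝ) : ℂ) * I)) = 
        c j * PP N (s - (yj N j : ℝ) * I) ^ 2 := by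
      intro j
      rw [b2_sq N (hne j), Finset.mul_sum]
      refine Finset.sum_congr rfl fun n hn => ?_
      have hn1 := (Finset.mem_Icc.mp hn).1
      have hn0 : (n:ℂ) ≠ 0 := by exact_mod_cast (by omega : n ≠ 0)
      have e1 : (n:ℂ) ^ (-(s - (yj N j : ℝ) * I)) = (n:ℂ) ^ (-s) * cexp (((2 * Real.pi * j / (2 * L + 1) * Real.log n : ℝ) : ℂ) * I) := by
        rw [show -(s - (yj N j : ℝ) * I) = -s + (yj N j : ℝ) * I by ring, Complex.cpow_add _ _ hn0]
        congr 1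
        rw [Complex.cpow_def_of_ne_zero hn0, ← Complex.natCast_log]
        congr 1
        have : yj N j = 2 * Real.pi * j / (2 * L + 1) := rfl
        rw [this]; push_cast; ring
      rw [e1]; ring
    have hR : ∑ n ∈ Finset.Icc 1 (N ^ 2), (((halfTrunc N ^ 2) n : ℝ) : ℂ) * (n:ℂ) ^ (-s) * 
          (Ph (Real.pi / 4) (τ - Real.log n) * ((kap L (Real.log n) : ℝ) : ℂ)) = 
        ∑ n ∈ Finset.Icc 1 N, Ph (Real.pi / 4) (τ - Real.log n) * ((kap L (Real.log n) : ℝ) : ℂ) * (n:ℂ) ^ (-s) := by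
      have hsub2 : Finset.Icc 1 N ⊆ Finset.Icc 1 (N ^ 2) := by
        intro n hn
        rw [Finset.mem_Icc] at hn ⊢
        exact ⟨hn.1, hn.2.trans (by nlinarith)⟩
      rw [← Finset.sum_subset hsub2]
      · refine Finset.sum_congr rfl fun n hn => ?_
        rw [Finset.mem_Icc] at hn
        rw [b2_p2 hn.1 hn.2]
        push_cast; ring
      · intro n hn hn2
        rw [Finset.mem_Icc] at hn hn2
        have h1 : N < n := by omega
        have h2 : kap L (Real.log n) = 0 := by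
          unfold kap
          rw [Real.smoothTransition.zero_of_nonpos (x := L - Real.log n), mul_zero]
          have h3 : Real.log N ≤ Real.log n := Real.log_le_log (by linarith) (by exact_mod_cast h1.le)
          rw [hL]; linarith
        rw [h2]; simp
    simp_rw [hL1] at hsum
    rw [hR] at hsum
    have hPPn : ∀ j : ℤ, ‖PP N (s - (yj N j : ℝ) * I)‖ ≤ N := by
      intro j
      rw [hsub j]
      exact norm_PP_line_le (by norm_num) _
    have hB : ∀ j : ℤ, j ≠ 0 → ‖c j * PP N (s - (yj N j : ℝ) * I) ^ 2‖ ≤ (C * L * (N:ℝ) ^ 2) / (j:ℝ) ^ 2 := by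
      intro j hj
      rw [norm_mul, norm_pow]
      have hj2 : (0:ℝ) < (j:ℝ) ^ 2 := by
        have : (j:ℝ) ≠ 0 := by exact_mod_cast hj
        positivity
      calc ‖c j‖ * ‖PP N (s - (yj N j : ℝ) * I)‖ ^ 2 ≤ (C * L / (j:ℝ) ^ 2) * (N:ℝ) ^ 2 := by
            have := hc3 j hj
            have := hPPn j
            gcongr
        _ = _ := by ring
    have hfin := b2_tail hsum hB (by positivity) hM
    refine hfin.trans (le_of_eq ?_)
    congr 1
    · refine Finset.sum_congr rfl fun j _ => ?_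
      rw [norm_mul, norm_pow]
    · ring

end Pool.Agent.LibM3
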