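import Pool.Agent.LibM3.A1

/-! Third moment, block E1: splitting off the tail of D_t. -/

set_option autoImplicit false

namespace Pool.Agent.LibM3

open MeasureTheory Set Filter Topology Complex ProbabilityTheory
open scoped NNReal ComplexConjugate
open Pool.Agent.LibZM

lemma e1_crit_re (t : ℝ) : (crit t).re = 1 / 2 := by
  simp [crit]

lemma e1_kap_nonneg (Λ x : ℝ) : 0 ≤ kap Λ x :=
  mul_nonneg (Real.smoothTransition.nonneg _) (Real.smoothTransition.nonneg _)

lemma e1_kap_le_one (Λ x : ℝ) : kap Λ x ≤ 1 :=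
  mul_le_one₀ (Real.smoothTransition.le_one _) (Real.smoothTransition.nonneg _)
    (Real.smoothTransition.le_one _)

lemma e1_norm_one_sub (Λ x : ℝ) : ‖((1 - kap Λ x : ℝ) : ℂ)‖ ≤ 1 := by
  rw [Complex.norm_real, Real.norm_eq_abs, abs_le]
  have h1 := e1_kap_nonneg Λ x
  have h2 := e1_kap_le_one Λ x
  constructor <;> linarith

lemma e1_cpow_norm {s : ℂ} (hs : 0 < s.re) (n : ℕ) : ‖(n:ℂ) ^ (-s)‖ = (n:ℝ) ^ (-s.re) := by
  rw [norm_natCast_cpow_of_re_ne_zero n (by simpa using hs.ne'), neg_re]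

lemma e1_summable_rpow {s : ℝ} (hs : 1 < s) : Summable fun n : ℕ => (n:ℝ) ^ (-s) :=
  Real.summable_nat_rpow.mpr (by linarith)

lemma e1_summable_Dt (t : ℝ) :
    Summable fun n : ℕ => Ph (Real.pi / 4) (tt t - Real.log n) * (n:ℂ) ^ (-crit t) := by
  obtain ⟨C, hC, hP⟩ := Ph_le (Real.pi / 4) (A := 1) zero_le_one
  have hs : Summable fun n : ℕ => C * Real.exp (tt t) * (n:ℝ) ^ (-(3/2) : ℝ) :=
    (e1_summable_rpow (s := 3/2) (by norm_num)).mul_left _
  refine Summable.of_norm_bounded hs fun n => ?_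
  rcases Nat.eq_zero_or_pos n with hn | hn
  · subst hn
    rw [norm_mul, e1_cpow_norm (by rw [e1_crit_re]; norm_num), e1_crit_re]
    simp only [Nat.cast_zero]
    rw [Real.zero_rpow (by norm_num), Real.zero_rpow (by norm_num)]
    simp
  · have hn' : (0:ℝ) < n := by exact_mod_cast hn
    rw [norm_mul, e1_cpow_norm (by rw [e1_crit_re]; norm_num), e1_crit_re]
    have h1 : ‖Ph (Real.pi / 4) (tt t - Real.log n)‖ ≤ C * (Real.exp (tt t) * (n:ℝ)⁻¹) := by
      refine (hP _).trans (mul_le_mul_of_nonneg_left ((min_le_right _ _).trans (le_of_eq ?_)) hC.le)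
      rw [one_mul, Real.exp_sub, Real.exp_log hn', div_eq_mul_inv]
    calc ‖Ph (Real.pi / 4) (tt t - Real.log n)‖ * (n:ℝ) ^ (-(1/2) : ℝ)
        ≤ C * (Real.exp (tt t) * (n:ℝ)⁻¹) * (n:ℝ) ^ (-(1/2) : ℝ) :=
          mul_le_mul_of_nonneg_right h1 (Real.rpow_nonneg hn'.le _)
      _ = C * Real.exp (tt t) * ((n:ℝ)⁻¹ * (n:ℝ) ^ (-(1/2) : ℝ)) := by ring
      _ = C * Real.exp (tt t) * (n:ℝ) ^ (-(3/2) : ℝ) := by
          rw [← Real.rpow_neg_one, ← Real.rpow_add hn']
          norm_num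

theorem Dt_split {N : ℕ} (hN : 8 ≤ N) (t : ℝ) :
    Dt t = ∑ n ∈ Finset.Icc 1 N, Ph (Real.pi / 4) (tt t - Real.log n) * ((kap (Real.log N) (Real.log n) : ℝ) : ℂ) * (n:ℂ) ^ (-crit t)
      + Etail N t := by
  have hz : ∀ n : ℕ, n ∉ Finset.Icc 1 N →
      Ph (Real.pi / 4) (tt t - Real.log n) * ((kap (Real.log N) (Real.log n) : ℝ) : ℂ) *
        (n:ℂ) ^ (-crit t) = 0 := by
    intro n hn
    rcases Nat.eq_zero_or_pos n with h0 | h0
    · subst h0
      have : ((0:ℕ):ℂ) ^ (-crit t) = 0 := by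
        rw [Nat.cast_zero, Complex.zero_cpow]
        simpa using crit_ne_zero t
      rw [this, mul_zero]
    · have hnN : N < n := by
        by_contra h
        exact hn (Finset.mem_Icc.mpr ⟨h0, not_lt.mp h⟩)
      have hlog : Real.log N < Real.log n :=
        Real.log_lt_log (by positivity) (by exact_mod_cast hnN)
      have : kap (Real.log N) (Real.log n) = 0 := by
        unfold kap
        rw [Real.smoothTransition.zero_of_nonpos (x := Real.log N - Real.log n) (by linarith), mul_zero]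
      rw [this]
      simp
  have h1 : HasSum (fun n : ℕ => Ph (Real.pi / 4) (tt t - Real.log n) *
      ((kap (Real.log N) (Real.log n) : ℝ) : ℂ) * (n:ℂ) ^ (-crit t)) _ :=
    hasSum_sum_of_ne_finset_zero hz
  have hs := e1_summable_Dt t
  have h2 := hs.hasSum.sub h1
  have h3 : Etail N t = (∑' n : ℕ, Ph (Real.pi / 4) (tt t - Real.log n) * (n:ℂ) ^ (-crit t)) -
      ∑ n ∈ Finset.Icc 1 N, Ph (Real.pi / 4) (tt t - Real.log n) *
        ((kap (Real.log N) (Real.log n) : ℝ) : ℂ) * (n:ℂ) ^ (-crit t) := by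
    rw [← h2.tsum_eq]
    unfold Etail
    refine tsum_congr fun n => ?_
    push_cast
    ring
  rw [h3]
  unfold Dt
  ring

lemma e1_term_le (N : ℕ) {s : ℂ} (hs : 0 < s.re) (n : ℕ) :
    ‖((1 - kap (Real.log N) (Real.log n) : ℝ) : ℂ) * (n:ℂ) ^ (-s)‖ ≤ (n:ℝ) ^ (-s.re) := by
  rw [norm_mul, e1_cpow_norm hs]
  exact mul_le_of_le_one_left (Real.rpow_nonneg (Nat.cast_nonneg n) _) (e1_norm_one_sub _ _)

theorem summable_FN (N : ℕ) {s : ℂ} (hs : 1 < s.re) :
    Summable fun n : ℕ => ‖((1 - kap (Real.log N) (Real.log n) : ℝ) : ℂ) * (n:ℂ) ^ (-s)‖ :=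
  Summable.of_nonneg_of_le (fun _ => norm_nonneg _) (e1_term_le N (by linarith)) (e1_summable_rpow hs)

/-- the kernel -/
noncomputable def e1_K (A T : ℝ) (y : ℝ) : ℂ :=
  cexp (((A:ℂ) + y * I) ^ 2 + ((A:ℂ) + y * I) * ((T:ℂ) + (Real.pi / 4 : ℝ) * I)) / ((A:ℂ) + y * I)

lemma e1_norm_K {A : ℝ} (hA : 1 ≤ A) (T y : ℝ) :
    ‖e1_K A T y‖ ≤ Real.exp (A ^ 2 + Real.pi ^ 2 / 32) * Real.exp (A * T) * Real.exp (-(y ^ 2 / 2)) := by
  unfold e1_K
  rw [norm_div, Complex.norm_exp]
  have hre : (((A:ℂ) + y * I) ^ 2 + ((A:ℂ) + y * I) * ((T:ℂ) + (Real.pi / 4 : ℝ) * I)).re =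
      A ^ 2 - y ^ 2 + (A * T - y * (Real.pi / 4)) := by
    simp [pow_two, Complex.add_re, Complex.mul_re, Complex.mul_im]
  have h1 : 1 ≤ ‖(A:ℂ) + y * I‖ := by
    have := Complex.abs_re_le_norm ((A:ℂ) + y * I)
    have h2 : ((A:ℂ) + y * I).re = A := by simp
    rw [h2] at this
    exact hA.trans ((le_abs_self A).trans this)
  rw [hre]
  refine (div_le_self (Real.exp_nonneg _) h1).trans ?_
  rw [← Real.exp_add, ← Real.exp_add]
  apply Real.exp_le_exp.mpr
  nlinarith [sq_nonneg (y + Real.pi / 4), Real.pi_pos]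

lemma e1_continuous_K {A : ℝ} (hA : 1 ≤ A) (T : ℝ) : Continuous (e1_K A T) := by
  unfold e1_K
  refine Continuous.div (by fun_prop) (by fun_prop) fun y => ?_
  intro h
  have h2 : ((A:ℂ) + y * I).re = A := by simp
  rw [h] at h2
  simp at h2
  linarith

lemma e1_term_eq {A : ℝ} (hA : 1 ≤ A) (N : ℕ) (t y : ℝ) (n : ℕ) :
    e1_K A (tt t) y * (((1 - kap (Real.log N) (Real.log n) : ℝ) : ℂ) *
        (n:ℂ) ^ (-(crit t + ((A:ℂ) + y * I)))) =
      (((1 - kap (Real.log N) (Real.log n) : ℝ) : ℂ) * (n:ℂ) ^ (-crit t)) *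
        (cexp (((A:ℂ) + y * I) ^ 2 + ((A:ℂ) + y * I) * (((tt t - Real.log n : ℝ):ℂ) + (Real.pi / 4 : ℝ) * I)) /
          ((A:ℂ) + y * I)) := by
  rcases Nat.eq_zero_or_pos n with h0 | h0
  · subst h0
    have h1 : ((0:ℕ):ℂ) ^ (-crit t) = 0 := by
      rw [Nat.cast_zero, Complex.zero_cpow]
      simpa using crit_ne_zero t
    have h2 : ((0:ℕ):ℂ) ^ (-(crit t + ((A:ℂ) + y * I))) = 0 := by
      rw [Nat.cast_zero, Complex.zero_cpow]
      intro h
      have := congrArg Complex.re h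
      simp at this
      linarith
    rw [h1, h2]
    simp
  · have hn : (n:ℂ) ≠ 0 := by exact_mod_cast h0.ne'
    have h1 : (n:ℂ) ^ (-(crit t + ((A:ℂ) + y * I))) =
        (n:ℂ) ^ (-crit t) * cexp (((A:ℂ) + y * I) * (-(Real.log n : ℝ))) := by
      rw [neg_add, Complex.cpow_add _ _ hn]
      congr 1
      rw [Complex.cpow_def_of_ne_zero hn, ← Complex.natCast_log]
      congr 1
      push_cast
      ring
    rw [h1]
    unfold e1_K
    have h2 : cexp (((A:ℂ) + y * I) ^ 2 + ((A:ℂ) + y * I) * (((tt t - Real.log n : ℝ):ℂ) + (Real.pi / 4 : ℝ) * I)) =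
        cexp (((A:ℂ) + y * I) ^ 2 + ((A:ℂ) + y * I) * ((tt t:ℂ) + (Real.pi / 4 : ℝ) * I)) *
          cexp (((A:ℂ) + y * I) * (-(Real.log n : ℝ))) := by
      rw [← Complex.exp_add]
      congr 1
      push_cast
      ring
    rw [h2]
    ring

theorem Etail_le {A : ℝ} (hA : 1 ≤ A) : ∃ C : ℝ, 0 < C ∧ ∀ N : ℕ, 8 ≤ N → ∀ t : ℝ,
    ‖Etail N t‖ ≤ C * Real.exp (A * tt t) * ∫ y : ℝ, Real.exp (-(y ^ 2 / 2)) * ‖FN N (crit t + ((A:ℂ) + y * I))‖ := by
  have hA0 : 0 < A := by linarith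
  refine ⟨(1 / (2 * Real.pi)) * Real.exp (A ^ 2 + Real.pi ^ 2 / 32), by positivity, fun N _ t => ?_⟩
  have hre : ∀ y : ℝ, (crit t + ((A:ℂ) + y * I)).re = 1 / 2 + A := by
    intro y
    rw [Complex.add_re, e1_crit_re]
    simp
  set F : ℕ → ℝ → ℂ := fun n y => e1_K A (tt t) y * (((1 - kap (Real.log N) (Real.log n) : ℝ) : ℂ) *
        (n:ℂ) ^ (-(crit t + ((A:ℂ) + y * I)))) with hF
  have hFeq : ∀ n y, F n y = (((1 - kap (Real.log N) (Real.log n) : ℝ) : ℂ) * (n:ℂ) ^ (-crit t)) *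
        (cexp (((A:ℂ) + y * I) ^ 2 + ((A:ℂ) + y * I) * (((tt t - Real.log n : ℝ):ℂ) + (Real.pi / 4 : ℝ) * I)) /
          ((A:ℂ) + y * I)) := fun n y => e1_term_eq hA N t y n
  have hFint : ∀ n, Integrable (F n) := by
    intro n
    have h := (Ph_eq_integral (Real.pi / 4) (tt t - Real.log n) hA0).1.const_mul
      (((1 - kap (Real.log N) (Real.log n) : ℝ) : ℂ) * (n:ℂ) ^ (-crit t))
    refine h.congr (Eventually.of_forall fun y => ?_)
    exact (hFeq n y).symm
  have hFval : ∀ n, ∫ y, F n y = (2 * Real.pi : ℝ) * (Ph (Real.pi / 4) (tt t - Real.log n) *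
      ((1 - kap (Real.log N) (Real.log n) : ℝ) : ℂ) * (n:ℂ) ^ (-crit t)) := by
    intro n
    have h := (Ph_eq_integral (Real.pi / 4) (tt t - Real.log n) hA0).2
    rw [← h]
    simp_rw [hFeq]
    rw [integral_const_mul]
    have hpi : ((2 * Real.pi : ℝ) : ℂ) * ((1 / (2 * Real.pi) : ℝ) : ℂ) = 1 := by
      rw [← Complex.ofReal_mul, mul_one_div_cancel (by positivity)]
      simp
    linear_combination -((((1 - kap (Real.log N) (Real.log n) : ℝ) : ℂ) * (n:ℂ) ^ (-crit t)) *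
      ∫ y : ℝ, cexp (((A:ℂ) + y * I) ^ 2 + ((A:ℂ) + y * I) * (((tt t - Real.log n : ℝ):ℂ) + (Real.pi / 4 : ℝ) * I)) /
          ((A:ℂ) + y * I)) * hpi
  have hKint : Integrable (fun y => ‖e1_K A (tt t) y‖) := by
    have hg : Integrable (fun y : ℝ => Real.exp (A ^ 2 + Real.pi ^ 2 / 32) * Real.exp (A * tt t) *
        Real.exp (-(y ^ 2 / 2))) := by
      refine Integrable.const_mul ?_ _
      have := integrable_exp_neg_mul_sq (b := 1/2) (by norm_num)
      refine this.congr (Eventually.of_forall fun y => ?_)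
      simp only
      congr 1
      ring
    refine hg.mono' ((e1_continuous_K hA _).norm.aestronglyMeasurable) (Eventually.of_forall fun y => ?_)
    rw [norm_norm]
    exact e1_norm_K hA _ _
  have hnorm : ∀ n y, ‖F n y‖ ≤ ‖e1_K A (tt t) y‖ * (n:ℝ) ^ (-(1/2 + A)) := by
    intro n y
    rw [hF]
    simp only
    rw [norm_mul]
    refine mul_le_mul_of_nonneg_left ?_ (norm_nonneg _)
    have := e1_term_le N (s := crit t + ((A:ℂ) + y * I)) (by rw [hre]; linarith) n
    rw [hre] at this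
    exact this
  have hFsum : Summable fun n => ∫ y, ‖F n y‖ := by
    have hs : Summable fun n : ℕ => (∫ y, ‖e1_K A (tt t) y‖) * (n:ℝ) ^ (-(1/2 + A)) :=
      (e1_summable_rpow (s := 1/2 + A) (by linarith)).mul_left _
    refine Summable.of_nonneg_of_le (fun n => integral_nonneg fun y => norm_nonneg _) (fun n => ?_) hs
    rw [← integral_mul_const]
    exact integral_mono (hFint n).norm (hKint.mul_const _) (fun y => hnorm n y)
  have hmain := hasSum_integral_of_summable_integral_norm hFint hFsum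
  have h1 : (∑' n, ∫ y, F n y) = ((2 * Real.pi : ℝ) : ℂ) * Etail N t := by
    simp_rw [hFval]
    rw [tsum_mul_left]
    rfl
  have h2 : (∫ y, ∑' n, F n y) = ∫ y, e1_K A (tt t) y * FN N (crit t + ((A:ℂ) + y * I)) := by
    congr 1
    ext y
    rw [hF]
    simp only
    rw [tsum_mul_left]
    rfl
  have h3 : Etail N t = ((1 / (2 * Real.pi) : ℝ) : ℂ) *
      ∫ y, e1_K A (tt t) y * FN N (crit t + ((A:ℂ) + y * I)) := by
    rw [← h2, ← hmain.tsum_eq, h1, ← mul_assoc, ← Complex.ofReal_mul, one_div_mul_cancel (by positivity)]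
    simp
  rw [h3, norm_mul, Complex.norm_real, Real.norm_of_nonneg (by positivity)]
  have hFNle : ∀ y : ℝ, ‖FN N (crit t + ((A:ℂ) + y * I))‖ ≤ ∑' n : ℕ, (n:ℝ) ^ (-(1/2 + A)) := by
    intro y
    unfold FN
    refine tsum_of_norm_bounded (e1_summable_rpow (s := 1/2 + A) (by linarith)).hasSum fun n => ?_
    have := e1_term_le N (s := crit t + ((A:ℂ) + y * I)) (by rw [hre]; linarith) n
    rw [hre] at this
    exact this
  have hFNcont : Continuous fun y : ℝ => FN N (crit t + ((A:ℂ) + y * I)) := by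
    unfold FN
    refine continuous_tsum (u := fun n : ℕ => (n:ℝ) ^ (-(1/2 + A))) ?_
      (e1_summable_rpow (s := 1/2 + A) (by linarith)) ?_
    · intro n
      rcases Nat.eq_zero_or_pos n with h0 | h0
      · have : (fun y : ℝ => ((1 - kap (Real.log N) (Real.log n) : ℝ) : ℂ) *
            (n:ℂ) ^ (-(crit t + ((A:ℂ) + y * I)))) = fun _ => 0 := by
          ext y
          subst h0
          simp only [Nat.cast_zero]
          rw [Complex.zero_cpow, mul_zero]
          intro h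
          have := congrArg Complex.re h
          rw [neg_re, hre] at this
          simp at this
          linarith
        rw [this]
        exact continuous_const
      · refine continuous_const.mul ?_
        have hn : (n:ℂ) ≠ 0 := by exact_mod_cast h0.ne'
        exact Continuous.const_cpow (by fun_prop) (Or.inl hn)
    · intro n y
      have := e1_term_le N (s := crit t + ((A:ℂ) + y * I)) (by rw [hre]; linarith) n
      rw [hre] at this
      exact this
  have hgauss : Integrable (fun y : ℝ => Real.exp (-(y ^ 2 / 2))) := by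
    have := integrable_exp_neg_mul_sq (b := 1/2) (by norm_num)
    refine this.congr (Eventually.of_forall fun y => ?_)
    simp only
    congr 1
    ring
  have hRint : Integrable (fun y : ℝ => Real.exp (-(y ^ 2 / 2)) * ‖FN N (crit t + ((A:ℂ) + y * I))‖) := by
    refine (hgauss.mul_const (∑' n : ℕ, (n:ℝ) ^ (-(1/2 + A)))).mono'
      (by
        refine Continuous.aestronglyMeasurable ?_
        exact Continuous.mul (by fun_prop) hFNcont.norm) (Eventually.of_forall fun y => ?_)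
    rw [norm_mul, Real.norm_of_nonneg (Real.exp_nonneg _), norm_norm]
    exact mul_le_mul_of_nonneg_left (hFNle y) (Real.exp_nonneg _)
  have h4 : ‖∫ y, e1_K A (tt t) y * FN N (crit t + ((A:ℂ) + y * I))‖ ≤
      ∫ y, (Real.exp (A ^ 2 + Real.pi ^ 2 / 32) * Real.exp (A * tt t)) *
        (Real.exp (-(y ^ 2 / 2)) * ‖FN N (crit t + ((A:ℂ) + y * I))‖) := by
    refine norm_integral_le_of_norm_le (hRint.const_mul _) (Eventually.of_forall fun y => ?_)
    rw [norm_mul]
    calc ‖e1_K A (tt t) y‖ * ‖FN N (crit t + ((A:ℂ) + y * I))‖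
        ≤ (Real.exp (A ^ 2 + Real.pi ^ 2 / 32) * Real.exp (A * tt t) * Real.exp (-(y ^ 2 / 2))) *
          ‖FN N (crit t + ((A:ℂ) + y * I))‖ :=
          mul_le_mul_of_nonneg_right (e1_norm_K hA _ _) (norm_nonneg _)
      _ = _ := by ring
  rw [integral_const_mul] at h4
  calc 1 / (2 * Real.pi) * ‖∫ y, e1_K A (tt t) y * FN N (crit t + ((A:ℂ) + y * I))‖
      ≤ 1 / (2 * Real.pi) * ((Real.exp (A ^ 2 + Real.pi ^ 2 / 32) * Real.exp (A * tt t)) *
        ∫ y : ℝ, Real.exp (-(y ^ 2 / 2)) * ‖FN N (crit t + ((A:ℂ) + y * I))‖) :=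
        mul_le_mul_of_nonneg_left h4 (by positivity)
    _ = _ := by ring

end Pool.Agent.LibM3
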