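import Pool.Agent.LibM3.E3

/-! Third moment, block E4: the tail is negligible in the third moment. -/

set_option autoImplicit false

namespace Pool.Agent.LibM3

open MeasureTheory Set Filter Topology Complex ProbabilityTheory
open scoped NNReal ComplexConjugate
open Pool.Agent.LibZM

theorem e4_kap (Λ x : ℝ) : 0 ≤ kap Λ x ∧ kap Λ x ≤ 1 := by
  unfold kap
  have h1 := Real.smoothTransition.nonneg (x + 1)
  have h2 := Real.smoothTransition.nonneg (Λ - x)
  have h3 := Real.smoothTransition.le_one (x + 1)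
  have h4 := Real.smoothTransition.le_one (Λ - x)
  exact ⟨mul_nonneg h1 h2, mul_le_one₀ h3 h2 h4⟩

theorem e4_norm_kap (Λ x : ℝ) : ‖((1 - kap Λ x : ℝ) : ℂ)‖ ≤ 1 := by
  obtain ⟨h1, h2⟩ := e4_kap Λ x
  rw [Complex.norm_real, Real.norm_eq_abs, abs_of_nonneg (by linarith)]
  linarith

/-- terms of the tail -/
theorem e4_term : ∃ C : ℝ, 0 < C ∧ ∀ (N n : ℕ) (t : ℝ),
    ‖Ph (Real.pi / 4) (tt t - Real.log n) * ((1 - kap (Real.log N) (Real.log n) : ℝ) : ℂ) *
      (n:ℂ) ^ (-crit t)‖ ≤ C * Real.exp (tt t) * (n:ℝ) ^ (-(3/2) : ℝ) := by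
  obtain ⟨C, hC, hPh⟩ := Ph_le (Real.pi / 4) (A := 1) (by norm_num)
  refine ⟨C, hC, fun N n t => ?_⟩
  rcases Nat.eq_zero_or_pos n with rfl | hn
  · have h1 : ((0 : ℕ) : ℂ) ^ (-crit t) = 0 := by
      rw [Nat.cast_zero, Complex.zero_cpow (neg_ne_zero.2 (crit_ne_zero t))]
    rw [h1, mul_zero, norm_zero]
    positivity
  · have hn0 : (0 : ℝ) < n := by exact_mod_cast hn
    rw [norm_mul, norm_mul]
    have h1 : ‖(n:ℂ) ^ (-crit t)‖ = (n:ℝ) ^ (-(1/2) : ℝ) := by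
      rw [Complex.norm_natCast_cpow_of_pos hn]
      simp
    have h2 := hPh (tt t - Real.log n)
    have h3 : Real.exp (1 * (tt t - Real.log n)) = Real.exp (tt t) * (n:ℝ) ^ (-1 : ℝ) := by
      rw [one_mul, Real.exp_sub, Real.exp_log hn0, Real.rpow_neg_one, div_eq_mul_inv]
    have h4 : ‖Ph (Real.pi / 4) (tt t - Real.log n)‖ ≤ C * (Real.exp (tt t) * (n:ℝ) ^ (-1 : ℝ)) := by
      rw [← h3]
      exact h2.trans (mul_le_mul_of_nonneg_left (min_le_right _ _) hC.le)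
    have h5 := e4_norm_kap (Real.log N) (Real.log n)
    rw [h1]
    calc _ ≤ C * (Real.exp (tt t) * (n:ℝ) ^ (-1 : ℝ)) * 1 * (n:ℝ) ^ (-(1/2) : ℝ) := by
          gcongr
      _ = C * Real.exp (tt t) * ((n:ℝ) ^ (-1 : ℝ) * (n:ℝ) ^ (-(1/2) : ℝ)) := by ring
      _ = _ := by rw [← Real.rpow_add hn0]; norm_num

theorem e4_cont (N : ℕ) {a b : ℝ} (ha : 0 < a) : ContinuousOn (Etail N) (Icc a b) := by
  obtain ⟨C, hC, hb⟩ := e4_term
  unfold Etail
  have hsum : Summable fun n : ℕ => C * Real.exp (tt b) * (n:ℝ) ^ (-(3/2) : ℝ) :=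
    (Real.summable_nat_rpow.2 (by norm_num)).mul_left _
  refine continuousOn_tsum ?_ hsum ?_
  · intro n
    have c1 : ContinuousOn tt (Icc a b) := by
      unfold tt
      have hpi := Real.pi_pos
      refine ContinuousOn.div_const (ContinuousOn.log (by fun_prop) ?_) 2
      intro t ht
      have := ha.trans_le ht.1
      positivity
    have c2 : Continuous (Ph (Real.pi / 4)) :=
      continuous_iff_continuousAt.2 fun l => (hasDerivAt_Ph _ l).continuousAt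
    exact ((c2.comp_continuousOn (c1.sub continuousOn_const)).mul continuousOn_const).mul
      (continuous_natCast_cpow_crit n).continuousOn
  · intro n t ht
    refine (hb N n t).trans ?_
    have hpi := Real.pi_pos
    have : tt t ≤ tt b := by
      unfold tt
      have h1 : 0 < t := ha.trans_le ht.1
      have h2 : t ≤ b := ht.2
      gcongr
    gcongr

theorem e4_FN_bound (N : ℕ) {A : ℝ} (hA : 1 ≤ A) : ∃ M : ℝ, ∀ t y : ℝ,
    ‖FN N (crit t + ((A:ℂ) + y * I))‖ ≤ M := by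
  have hs := summable_FN N (s := ((1/2 + A : ℝ) : ℂ)) (by simp; linarith)
  refine ⟨∑' n : ℕ, ‖((1 - kap (Real.log N) (Real.log n) : ℝ) : ℂ) *
    (n:ℂ) ^ (-((1/2 + A : ℝ) : ℂ))‖, fun t y => ?_⟩
  · unfold FN
    refine tsum_of_norm_bounded hs.hasSum ?_
    intro n
    rw [norm_mul, norm_mul]
    apply mul_le_mul_of_nonneg_left _ (norm_nonneg _)
    rcases Nat.eq_zero_or_pos n with rfl | hn
    · rw [Nat.cast_zero, Complex.zero_cpow, Complex.zero_cpow]
      · intro h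
        have := congrArg Complex.re h
        simp at this
        linarith
      · intro h
        have := congrArg Complex.re h
        simp at this
        linarith
    · rw [Complex.norm_natCast_cpow_of_pos hn, Complex.norm_natCast_cpow_of_pos hn]
      simp

theorem e4_FN_cont (N : ℕ) {A : ℝ} (hA : 1 ≤ A) :
    Continuous (fun p : ℝ × ℝ => FN N (crit p.1 + ((A:ℂ) + p.2 * I))) := by
  have hs := summable_FN N (s := ((1/2 + A : ℝ) : ℂ)) (by simp; linarith)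
  unfold FN
  refine continuous_tsum ?_ hs ?_
  · intro n
    refine continuous_const.mul ?_
    rcases Nat.eq_zero_or_pos n with rfl | hn
    · have : (fun p : ℝ × ℝ => ((0 : ℕ) : ℂ) ^ (-(crit p.1 + ((A:ℂ) + p.2 * I)))) = fun _ => 0 := by
        ext p
        rw [Nat.cast_zero, Complex.zero_cpow]
        intro h
        have := congrArg Complex.re h
        simp at this
        linarith
      rw [this]
      exact continuous_const
    · have hc : Continuous (fun p : ℝ × ℝ => -(crit p.1 + ((A:ℂ) + p.2 * I))) := by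
        unfold crit; fun_prop
      exact hc.const_cpow (Or.inl (by exact_mod_cast hn.ne'))
  · intro n p
    rw [norm_mul, norm_mul]
    apply mul_le_mul_of_nonneg_left _ (norm_nonneg _)
    rcases Nat.eq_zero_or_pos n with rfl | hn
    · rw [Nat.cast_zero, Complex.zero_cpow, Complex.zero_cpow]
      · intro h
        have := congrArg Complex.re h
        simp at this
        linarith
      · intro h
        have := congrArg Complex.re h
        simp at this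
        linarith
    · rw [Complex.norm_natCast_cpow_of_pos hn, Complex.norm_natCast_cpow_of_pos hn]
      simp

/-- the Gaussian integral as an expectation -/
theorem e4_gauss (g : ℝ → ℝ) :
    ∫ y : ℝ, Real.exp (-(y ^ 2 / 2)) * g y = √(2 * Real.pi) * ∫ y, g y ∂(gaussianReal 0 1) := by
  rw [integral_gaussianReal_eq_integral_smul (by norm_num), ← integral_const_mul]
  congr 1
  ext y
  have hpi := Real.pi_pos
  rw [gaussianPDFReal_def, smul_eq_mul]
  simp only [NNReal.coe_one, mul_one, sub_zero]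
  have : -(y ^ 2 / 2) = -y ^ 2 / 2 := by ring
  rw [this]
  field_simp

theorem e4_jensen (F : ℝ → ℝ) (hF : Continuous F) (hF0 : ∀ y, 0 ≤ F y) {M : ℝ} (hM : ∀ y, F y ≤ M) :
    (∫ y, F y ∂(gaussianReal 0 1)) ^ 4 ≤ ∫ y, F y ^ 4 ∂(gaussianReal 0 1) := by
  have i1 : Integrable F (gaussianReal 0 1) :=
    Integrable.of_bound hF.aestronglyMeasurable M (Filter.Eventually.of_forall fun y => by
      rw [Real.norm_eq_abs, abs_of_nonneg (hF0 y)]; exact hM y)
  have i4 : Integrable (fun y => F y ^ 4) (gaussianReal 0 1) :=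
    Integrable.of_bound (hF.pow 4).aestronglyMeasurable (M ^ 4)
      (Filter.Eventually.of_forall fun y => by
        rw [Real.norm_eq_abs, abs_of_nonneg (pow_nonneg (hF0 y) 4)]
        exact pow_le_pow_left₀ (hF0 y) (hM y) 4)
  have hconv : ConvexOn ℝ univ (fun x : ℝ => x ^ 4) := Even.convexOn_pow (by decide)
  exact hconv.map_integral_le (continuous_pow 4).continuousOn isClosed_univ
    (Filter.Eventually.of_forall fun _ => mem_univ _) i1 i4

theorem e4_swap (F : ℝ → ℝ → ℝ) (hF : Continuous (fun p : ℝ × ℝ => F p.1 p.2))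
    (hF0 : ∀ t y, 0 ≤ F t y) {M : ℝ} (hM : ∀ t y, F t y ≤ M) (γ : Measure ℝ)
    [IsProbabilityMeasure γ] {B : ℝ} (hB : ∀ y, ∫ t, F t y ^ 4 ∂γ ≤ B) :
    Integrable (fun t => ∫ y, F t y ^ 4 ∂(gaussianReal 0 1)) γ ∧
    ∫ t, ∫ y, F t y ^ 4 ∂(gaussianReal 0 1) ∂γ ≤ B := by
  have i5 : Integrable (Function.uncurry fun t y => F t y ^ 4) (γ.prod (gaussianReal 0 1)) :=
    Integrable.of_bound (hF.pow 4).aestronglyMeasurable (M ^ 4)
      (Filter.Eventually.of_forall fun p => by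
        simp only [Function.uncurry]
        rw [Real.norm_eq_abs, abs_of_nonneg (pow_nonneg (hF0 p.1 p.2) 4)]
        exact pow_le_pow_left₀ (hF0 p.1 p.2) (hM p.1 p.2) 4)
  refine ⟨i5.integral_prod_left, ?_⟩
  rw [integral_integral_swap i5]
  calc ∫ y, ∫ t, F t y ^ 4 ∂γ ∂(gaussianReal 0 1) ≤ ∫ y, B ∂(gaussianReal 0 1) :=
        integral_mono i5.integral_prod_right (integrable_const _) hB
    _ = B := by rw [integral_const, probReal_univ, one_smul]

theorem e4_pt {A C1 : ℝ} (hA : 1 ≤ A) (hC1 : 0 < C1) {N : ℕ} {t T : ℝ} (hT : 0 < T)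
    (ht0 : 0 < t) (htT : t ≤ 2 * T)
    (h3 : ‖Etail N t‖ ≤ C1 * Real.exp (A * tt t) *
      ∫ y : ℝ, Real.exp (-(y ^ 2 / 2)) * ‖FN N (crit t + ((A:ℂ) + y * I))‖) :
    ‖Etail N t‖ ^ 4 ≤ C1 ^ 4 * (√(2 * Real.pi)) ^ 4 * T ^ (2 * A) *
      ∫ y, ‖FN N (crit t + ((A:ℂ) + y * I))‖ ^ 4 ∂(gaussianReal 0 1) := by
  have hpi := Real.pi_gt_three
  obtain ⟨M, hM⟩ := e4_FN_bound N hA
  have hFc : Continuous (fun y : ℝ => ‖FN N (crit t + ((A:ℂ) + y * I))‖) :=
    ((e4_FN_cont N hA).comp (continuous_const.prodMk continuous_id)).norm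
  have hj := e4_jensen _ hFc (fun y => norm_nonneg _) (M := M) (fun y => hM t y)
  rw [e4_gauss] at h3
  have h4 : Real.exp (A * tt t) ≤ T ^ (A / 2) := by
    have : tt t ≤ Real.log T / 2 := by
      unfold tt
      have h5 : t / (2 * Real.pi) ≤ T := by
        rw [div_le_iff₀ (by positivity)]; nlinarith
      gcongr
    calc Real.exp (A * tt t) ≤ Real.exp (A * (Real.log T / 2)) := by gcongr
      _ = T ^ (A / 2) := by rw [Real.rpow_def_of_pos hT]; congr 1; ring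
  generalize hI : ∫ y, ‖FN N (crit t + ((A:ℂ) + y * I))‖ ∂(gaussianReal 0 1) = J at h3 hj
  have hI0 : 0 ≤ J := by rw [← hI]; exact integral_nonneg fun y => norm_nonneg _
  calc ‖Etail N t‖ ^ 4 ≤ (C1 * Real.exp (A * tt t) * (√(2 * Real.pi) * J)) ^ 4 := by
        gcongr
    _ ≤ (C1 * T ^ (A / 2) * (√(2 * Real.pi) * J)) ^ 4 := by gcongr
    _ = C1 ^ 4 * (√(2 * Real.pi)) ^ 4 * (T ^ (A / 2)) ^ 4 * J ^ 4 := by ring
    _ = C1 ^ 4 * (√(2 * Real.pi)) ^ 4 * T ^ (2 * A) * J ^ 4 := by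
        rw [← Real.rpow_natCast (T ^ (A / 2)) 4, ← Real.rpow_mul hT.le]
        congr 3
        norm_num
        ring
    _ ≤ _ := by
        apply mul_le_mul_of_nonneg_left hj
        positivity

/-- Fourth moment of the tail. -/
theorem e4_fourth {A : ℝ} (hA : 1 ≤ A) : ∃ C : ℝ, 0 < C ∧ ∀ N : ℕ, 8 ≤ N → ∀ u H T : ℝ, 1 ≤ H →
    0 < u → u ≤ T →
    IntegrableOn (fun t => ‖Etail N t‖ ^ 4) (win u) (gaussianReal u (Real.toNNReal (H ^ 2))) ∧
    ∫ t in win u, ‖Etail N t‖ ^ 4 ∂(gaussianReal u (Real.toNNReal (H ^ 2))) ≤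
      C * T ^ (2 * A) * ((N:ℝ) ^ (-(4 * A)) * (1 + Real.log N) ^ 4 * (1 + (N:ℝ) ^ 2 / H)) := by
  obtain ⟨C1, hC1, h1⟩ := Etail_le hA
  obtain ⟨C2, hC2, h2⟩ := FN_fourth hA
  refine ⟨C1 ^ 4 * (√(2 * Real.pi)) ^ 4 * C2, by positivity, ?_⟩
  intro N hN u H T hH hu huT
  have hT : 0 < T := by linarith
  obtain ⟨M, hM⟩ := e4_FN_bound N hA
  obtain ⟨i6, h6⟩ := e4_swap (fun t y => ‖FN N (crit t + ((A:ℂ) + y * I))‖)
    ((e4_FN_cont N hA).norm) (fun t y => norm_nonneg _) hM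
    (gaussianReal u (Real.toNNReal (H ^ 2))) (fun y => h2 N hN u y H hH)
  set γ := gaussianReal u (Real.toNNReal (H ^ 2)) with hγ
  set K : ℝ := C1 ^ 4 * (√(2 * Real.pi)) ^ 4 * T ^ (2 * A) with hK
  have hK0 : 0 ≤ K := by positivity
  set G : ℝ → ℝ := fun t => ∫ y, ‖FN N (crit t + ((A:ℂ) + y * I))‖ ^ 4 ∂(gaussianReal 0 1) with hG
  have hG0 : ∀ t, 0 ≤ G t := fun t => integral_nonneg fun y => by positivity
  have hpt : ∀ t ∈ win u, ‖Etail N t‖ ^ 4 ≤ K * G t := by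
    intro t ht
    exact e4_pt hA hC1 hT (by have := ht.1; linarith) (by have := ht.2; linarith) (h1 N hN t)
  have i7 : IntegrableOn (fun t => ‖Etail N t‖ ^ 4) (win u) γ := by
    apply Integrable.mono' (i6.const_mul K).integrableOn
    · exact ((e4_cont N (by linarith : 0 < u / 2)).norm.pow 4).aestronglyMeasurable
        measurableSet_Icc
    · refine (ae_restrict_iff' measurableSet_Icc).2 (Filter.Eventually.of_forall fun t ht => ?_)
      rw [Real.norm_eq_abs, abs_of_nonneg (by positivity)]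
      exact hpt t ht
  refine ⟨i7, ?_⟩
  calc ∫ t in win u, ‖Etail N t‖ ^ 4 ∂γ ≤ ∫ t in win u, K * G t ∂γ :=
        setIntegral_mono_on i7 (i6.const_mul K).integrableOn measurableSet_Icc hpt
    _ ≤ ∫ t, K * G t ∂γ := by
        apply setIntegral_le_integral (i6.const_mul K)
        exact Filter.Eventually.of_forall fun t => mul_nonneg hK0 (hG0 t)
    _ = K * ∫ t, G t ∂γ := integral_const_mul _ _
    _ ≤ K * (C2 * (N:ℝ) ^ (-(4 * A)) * (1 + Real.log N) ^ 4 * (1 + (N:ℝ) ^ 2 / H)) :=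
        mul_le_mul_of_nonneg_left h6 hK0
    _ = _ := by
        rw [hK]
        ring

theorem e4_third {γ : Measure ℝ} [IsProbabilityMeasure γ] {s : Set ℝ} (hs : MeasurableSet s)
    (f : ℝ → ℝ) (hf0 : ∀ t, 0 ≤ f t) (hf : AEStronglyMeasurable f (γ.restrict s))
    (hi : IntegrableOn (fun t => f t ^ 4) s γ) {ε : ℝ} (hε : 0 < ε) :
    IntegrableOn (fun t => f t ^ 3) s γ ∧
      ∫ t in s, f t ^ 3 ∂γ ≤ ε ^ 3 + ε⁻¹ * ∫ t in s, f t ^ 4 ∂γ := by
  have hpt : ∀ t, f t ^ 3 ≤ ε ^ 3 + ε⁻¹ * f t ^ 4 := by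
    intro t
    have h0 := hf0 t
    rcases le_total (f t) ε with h | h
    · have h1 : f t ^ 3 ≤ ε ^ 3 := by gcongr
      have h2 : 0 ≤ ε⁻¹ * f t ^ 4 := by positivity
      linarith
    · have h1 : f t ^ 3 ≤ ε⁻¹ * f t ^ 4 := by
        rw [inv_mul_eq_div, le_div_iff₀ hε]
        calc f t ^ 3 * ε ≤ f t ^ 3 * f t := by gcongr
          _ = f t ^ 4 := by ring
      have h2 : 0 ≤ ε ^ 3 := by positivity
      linarith
  have i2 : IntegrableOn (fun t => ε ^ 3 + ε⁻¹ * f t ^ 4) s γ :=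
    (integrable_const (ε ^ 3)).integrableOn.add (hi.const_mul ε⁻¹)
  have i3 : IntegrableOn (fun t => f t ^ 3) s γ := by
    apply Integrable.mono' i2 (hf.pow 3)
    exact Filter.Eventually.of_forall fun t => by
      rw [Real.norm_eq_abs, Pi.pow_apply, abs_of_nonneg (pow_nonneg (hf0 t) 3)]; exact hpt t
  refine ⟨i3, ?_⟩
  calc ∫ t in s, f t ^ 3 ∂γ ≤ ∫ t in s, (ε ^ 3 + ε⁻¹ * f t ^ 4) ∂γ :=
        setIntegral_mono_on i3 i2 hs fun t _ => hpt t
    _ = (∫ t in s, ε ^ 3 ∂γ) + ∫ t in s, ε⁻¹ * f t ^ 4 ∂γ :=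
        integral_add (integrable_const (ε ^ 3)).integrableOn (hi.const_mul ε⁻¹)
    _ = γ.real s * ε ^ 3 + ε⁻¹ * ∫ t in s, f t ^ 4 ∂γ := by
        rw [setIntegral_const, smul_eq_mul, integral_const_mul]
    _ ≤ _ := by
        have h1 : γ.real s ≤ 1 := measureReal_le_one
        have h2 : 0 < ε ^ 3 := by positivity
        nlinarith

theorem e4_size {A L T : ℝ} (hA : 1 ≤ A) (hLT : L = Real.log T) (hL : 1 ≤ L)
    (hT : 64 ≤ T) :
    8 ≤ XN T ∧ 1 ≤ Hw T ∧
      T ^ (2 * A) * (((XN T : ℕ) : ℝ) ^ (-(4 * A)) * (1 + Real.log ((XN T : ℕ) : ℝ)) ^ 4 *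
        (1 + ((XN T : ℕ) : ℝ) ^ 2 / Hw T)) ≤ 2 ^ (4 * A) * 32 * L ^ (5 - A / 4) := by
  have hT0 : 0 < T := by linarith
  have hL0 : 0 < L := by linarith
  set X : ℝ := T ^ (1/2:ℝ) * L ^ (1/16:ℝ) with hX
  have hTh : 8 ≤ T ^ (1/2:ℝ) := by
    calc (8:ℝ) = 64 ^ (1/2:ℝ) := by
          rw [← Real.sqrt_eq_rpow, show (64:ℝ) = 8 ^ 2 by norm_num, Real.sqrt_sq (by norm_num)]
      _ ≤ T ^ (1/2:ℝ) := by gcongr
  have hLh : 1 ≤ L ^ (1/16:ℝ) := Real.one_le_rpow hL (by norm_num)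
  have hX8 : 8 ≤ X := by
    rw [hX]; nlinarith
  have hN : XN T = ⌊X⌋₊ := by rw [XN, hX, hLT]
  set N : ℕ := XN T with hNd
  have hN8 : 8 ≤ N := by rw [hN]; exact Nat.le_floor (by exact_mod_cast hX8)
  have hNX : (N : ℝ) ≤ X := by rw [hN]; exact Nat.floor_le (by linarith)
  have hNX2 : X / 2 ≤ N := by
    have := Nat.lt_floor_add_one X
    rw [← hN] at this
    linarith
  have hN0 : (0 : ℝ) < N := by
    have : (8 : ℝ) ≤ N := by exact_mod_cast hN8
    linarith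
  have hLT' : L ≤ T := by
    rw [hLT]; exact (Real.log_le_sub_one_of_pos hT0).trans (by linarith)
  have hHw : Hw T = T / L ^ (3/4:ℝ) := by rw [Hw, hLT]
  have hL34 : 0 < L ^ (3/4:ℝ) := Real.rpow_pos_of_pos hL0 _
  have hH1 : 1 ≤ Hw T := by
    rw [hHw, le_div_iff₀ hL34, one_mul]
    calc L ^ (3/4:ℝ) ≤ L ^ (1:ℝ) := Real.rpow_le_rpow_of_exponent_le hL (by norm_num)
      _ = L := Real.rpow_one _
      _ ≤ T := hLT'
  refine ⟨hN8, hH1, ?_⟩
  have hXT : X ≤ T := by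
    calc X ≤ T ^ (1/2:ℝ) * T ^ (1/2:ℝ) := by
          rw [hX]
          gcongr
          calc L ^ (1/16:ℝ) ≤ L ^ (1/2:ℝ) := Real.rpow_le_rpow_of_exponent_le hL (by norm_num)
            _ ≤ T ^ (1/2:ℝ) := by gcongr
      _ = T := by rw [← Real.rpow_add hT0]; norm_num
  have hlogN : Real.log N ≤ L := by
    rw [hLT]; exact Real.log_le_log hN0 (hNX.trans hXT)
  have hlogN0 : 0 ≤ Real.log N := Real.log_nonneg (by
    have : (8 : ℝ) ≤ N := by exact_mod_cast hN8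
    linarith)
  have b1 : (N:ℝ) ^ (-(4 * A)) ≤ 2 ^ (4 * A) * T ^ (-(2 * A)) * L ^ (-(A / 4)) := by
    calc (N:ℝ) ^ (-(4 * A)) ≤ (X / 2) ^ (-(4 * A)) :=
          Real.rpow_le_rpow_of_nonpos (by linarith) hNX2 (by linarith)
      _ = 2 ^ (4 * A) * T ^ (-(2 * A)) * L ^ (-(A / 4)) := by
          rw [hX, Real.div_rpow (by positivity) (by norm_num), Real.mul_rpow (by positivity)
            (by positivity), ← Real.rpow_mul hT0.le, ← Real.rpow_mul hL0.le,
            Real.rpow_neg (by norm_num : (0:ℝ) ≤ 2), div_inv_eq_mul]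
          have e1 : (1/2 : ℝ) * -(4 * A) = -(2 * A) := by ring
          have e2 : (1/16 : ℝ) * -(4 * A) = -(A / 4) := by ring
          rw [e1, e2]
          ring
  have b2 : (1 + Real.log N) ^ 4 ≤ 16 * L ^ 4 := by
    calc (1 + Real.log N) ^ 4 ≤ (2 * L) ^ 4 := by
          apply pow_le_pow_left₀ (by linarith); linarith
      _ = _ := by ring
  have b3 : 1 + (N:ℝ) ^ 2 / Hw T ≤ 2 * L := by
    have h1 : (N:ℝ) ^ 2 / Hw T ≤ L := by
      rw [hHw, div_div_eq_mul_div, div_le_iff₀ hT0]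
      calc (N:ℝ) ^ 2 * L ^ (3/4:ℝ) ≤ X ^ 2 * L ^ (3/4:ℝ) := by gcongr
        _ = (T * L ^ (1/8:ℝ)) * L ^ (3/4:ℝ) := by
            rw [hX, mul_pow, ← Real.rpow_natCast (T ^ (1/2:ℝ)) 2, ← Real.rpow_mul hT0.le,
              ← Real.rpow_natCast (L ^ (1/16:ℝ)) 2, ← Real.rpow_mul hL0.le]
            norm_num
        _ = T * L ^ (7/8:ℝ) := by
            rw [mul_assoc, ← Real.rpow_add hL0]; norm_num
        _ ≤ T * L ^ (1:ℝ) := by
            gcongr
            norm_num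
        _ = L * T := by rw [Real.rpow_one]; ring
    linarith
  have hTT : T ^ (2 * A) * T ^ (-(2 * A)) = 1 := by
    rw [← Real.rpow_add hT0]; simp
  calc T ^ (2 * A) * ((N:ℝ) ^ (-(4 * A)) * (1 + Real.log N) ^ 4 * (1 + (N:ℝ) ^ 2 / Hw T)) ≤
        T ^ (2 * A) * ((2 ^ (4 * A) * T ^ (-(2 * A)) * L ^ (-(A / 4))) * (16 * L ^ 4) * (2 * L)) := by
        gcongr
    _ = (T ^ (2 * A) * T ^ (-(2 * A))) * (2 ^ (4 * A) * 32 * (L ^ (-(A / 4)) * L ^ 5)) := by ring
    _ = 2 ^ (4 * A) * 32 * (L ^ (-(A / 4)) * L ^ 5) := by rw [hTT, one_mul]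
    _ = _ := by
        rw [← Real.rpow_natCast L 5, ← Real.rpow_add hL0]
        congr 2
        push_cast
        ring

theorem Etail_small {η : ℝ} (hη : 0 < η) (B : ℝ) : ∀ᶠ p : ℝ × ℝ in Fl η,
    IntegrableOn (fun t => ‖Etail (XN p.1) t‖ ^ 3) (win p.2) (gaussianReal p.2 (vw p.1)) ∧
    ∫ t in win p.2, ‖Etail (XN p.1) t‖ ^ 3 ∂(gaussianReal p.2 (vw p.1)) ≤ (Real.log p.1) ^ (-B) := by
  set b : ℝ := max B 0 + 1 with hb
  have hb1 : 1 ≤ b := by rw [hb]; linarith [le_max_right B 0]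
  set A : ℝ := 4 * (5 + 2 * b) with hA
  have hA1 : 1 ≤ A := by rw [hA]; linarith
  obtain ⟨C, hC, h4⟩ := e4_fourth hA1
  set C3 : ℝ := C * (2 ^ (4 * A) * 32) with hC3
  have hC30 : 0 < C3 := by positivity
  rw [Fl_iff]
  have hlog := Real.tendsto_log_atTop
  filter_upwards [hlog.eventually_ge_atTop (1 + C3), eventually_ge_atTop (64 : ℝ)] with T h1 hT u hu1 hu2
  have hT0 : 0 < T := by linarith
  have hu0 : 0 < u := lt_of_lt_of_le (by positivity) hu1
  have hL1 : 1 ≤ Real.log T := by linarith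
  have hL0 : 0 < Real.log T := by linarith
  obtain ⟨s1, s2, s3⟩ := e4_size (T := T) hA1 rfl hL1 hT
  obtain ⟨i4, j4⟩ := h4 (XN T) s1 u (Hw T) T s2 hu0 hu2
  have hε : 0 < (Real.log T) ^ (-b) := Real.rpow_pos_of_pos hL0 _
  have hmeas : AEStronglyMeasurable (fun t => ‖Etail (XN T) t‖)
      ((gaussianReal u (vw T)).restrict (win u)) :=
    (e4_cont (XN T) (by linarith : 0 < u / 2)).norm.aestronglyMeasurable measurableSet_Icc
  obtain ⟨i3, j3⟩ := e4_third (γ := gaussianReal u (vw T)) (s := win u) measurableSet_Icc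
    (fun t => ‖Etail (XN T) t‖) (fun t => norm_nonneg _) hmeas i4 hε
  refine ⟨i3, j3.trans ?_⟩
  have k1 : ((Real.log T) ^ (-b)) ^ 3 ≤ (Real.log T) ^ (-b) := by
    have : (Real.log T) ^ (-b) ≤ 1 := Real.rpow_le_one_of_one_le_of_nonpos hL1 (by linarith)
    exact pow_le_of_le_one hε.le this (by norm_num)
  have k2 : ((Real.log T) ^ (-b))⁻¹ *
      ∫ t in win u, ‖Etail (XN T) t‖ ^ 4 ∂(gaussianReal u (vw T)) ≤ C3 * (Real.log T) ^ (-b) := by
    have e1 : ((Real.log T) ^ (-b))⁻¹ = (Real.log T) ^ b := by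
      rw [Real.rpow_neg hL0.le, inv_inv]
    rw [e1]
    calc (Real.log T) ^ b * ∫ t in win u, ‖Etail (XN T) t‖ ^ 4 ∂(gaussianReal u (vw T)) ≤
          (Real.log T) ^ b * (C * (T ^ (2 * A) * (((XN T : ℕ) : ℝ) ^ (-(4 * A)) *
            (1 + Real.log ((XN T : ℕ) : ℝ)) ^ 4 * (1 + ((XN T : ℕ) : ℝ) ^ 2 / Hw T)))) := by
          apply mul_le_mul_of_nonneg_left _ (Real.rpow_nonneg hL0.le _)
          rw [← mul_assoc]
          exact j4
      _ ≤ (Real.log T) ^ b * (C * (2 ^ (4 * A) * 32 * (Real.log T) ^ (5 - A / 4))) := by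
          gcongr
      _ = C3 * ((Real.log T) ^ b * (Real.log T) ^ (5 - A / 4)) := by rw [hC3]; ring
      _ = C3 * (Real.log T) ^ (-b) := by
          rw [← Real.rpow_add hL0]
          congr 2
          rw [hA]; ring
  calc _ ≤ (Real.log T) ^ (-b) + C3 * (Real.log T) ^ (-b) := add_le_add k1 k2
    _ = (1 + C3) * (Real.log T) ^ (-b) := by ring
    _ ≤ (Real.log T) ^ (1:ℝ) * (Real.log T) ^ (-b) := by
        rw [Real.rpow_one]; gcongr
    _ = (Real.log T) ^ (1 - b) := by rw [← Real.rpow_add hL0]; congr 1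
    _ ≤ (Real.log T) ^ (-B) := by
        apply Real.rpow_le_rpow_of_exponent_le hL1
        rw [hb]; linarith [le_max_left B 0]

end Pool.Agent.LibM3
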