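import Pool.Agent.LibM3.Q5
import Pool.Agent.LibM3.Par

/-! Third moment, block F1: tails of the sum over frequencies. -/

set_option autoImplicit false

namespace Pool.Agent.LibM3

open MeasureTheory Set Filter Topology Complex ProbabilityTheory
open scoped NNReal ComplexConjugate
open Pool.Agent.LibZM

lemma f1_inv (a R : ℕ) (ha : 1 ≤ a) (haR : a ≤ R) :
    (1:ℝ) / a = 1 / R + ∑ m ∈ Finset.Ico a R, 1 / ((m:ℝ) * (m + 1)) := by
  induction R, haR using Nat.le_induction with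
  | base => simp
  | succ n hn ih =>
    rw [Finset.sum_Ico_succ_top hn, ih]
    have h1 : (0:ℝ) < n := by exact_mod_cast lt_of_lt_of_le ha hn
    push_cast
    field_simp
    ring

/-- Abel summation for the tail. -/
lemma f1_tail_weight {Q : ℤ → ℝ} (hQ : ∀ j, 0 ≤ Q j) {J R : ℕ} (hR : 1 ≤ R) :
    ∑ j ∈ (Finset.Icc (-(R:ℤ)) R).filter (fun j => J < j.natAbs), Q j / |(j:ℝ)| ≤
      (1 / R) * ∑ j ∈ Finset.Icc (-(R:ℤ)) R, Q j +
      ∑ m ∈ Finset.Ico (J + 1) R, (1 / ((m:ℝ) * (m + 1))) * ∑ j ∈ Finset.Icc (-(m:ℤ)) m, Q j := by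
  have h1 : ∀ j ∈ (Finset.Icc (-(R:ℤ)) R).filter (fun j => J < j.natAbs),
      Q j / |(j:ℝ)| = (1 / R) * Q j + ∑ m ∈ Finset.Ico j.natAbs R, (1 / ((m:ℝ) * (m + 1))) * Q j := by
    intro j hj
    rw [Finset.mem_filter, Finset.mem_Icc] at hj
    have h2 : 1 ≤ j.natAbs := by omega
    have h3 : j.natAbs ≤ R := by omega
    have h4 : |(j:ℝ)| = (j.natAbs : ℝ) := by
      rw [Nat.cast_natAbs]; simp
    rw [h4, div_eq_mul_one_div, f1_inv _ _ h2 h3, ← Finset.sum_mul]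
    ring
  rw [Finset.sum_congr rfl h1, Finset.sum_add_distrib]
  have hR0 : (0:ℝ) < R := by exact_mod_cast hR
  apply add_le_add
  · rw [← Finset.mul_sum]
    apply mul_le_mul_of_nonneg_left _ (by positivity)
    exact Finset.sum_le_sum_of_subset_of_nonneg (Finset.filter_subset _ _) fun j _ _ => hQ j
  · -- swap
    have h5 : ∑ j ∈ (Finset.Icc (-(R:ℤ)) R).filter (fun j => J < j.natAbs), ∑ m ∈ Finset.Ico j.natAbs R, (1 / ((m:ℝ) * (m + 1))) * Q j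
        = ∑ j ∈ (Finset.Icc (-(R:ℤ)) R).filter (fun j => J < j.natAbs), ∑ m ∈ Finset.Ico (J+1) R,
          (if j.natAbs ≤ m then (1 / ((m:ℝ) * (m + 1))) * Q j else 0) := by
      apply Finset.sum_congr rfl
      intro j hj
      rw [Finset.mem_filter, Finset.mem_Icc] at hj
      rw [← Finset.sum_filter]
      apply Finset.sum_congr _ fun _ _ => rfl
      ext m
      simp only [Finset.mem_Ico, Finset.mem_filter]
      omega
    rw [h5, Finset.sum_comm]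
    apply Finset.sum_le_sum
    intro m hm
    rw [Finset.mul_sum, ← Finset.sum_filter]
    apply Finset.sum_le_sum_of_subset_of_nonneg
    · intro j hj
      simp only [Finset.mem_filter, Finset.mem_Icc] at hj ⊢
      omega
    · intro j _ _
      exact mul_nonneg (by positivity) (hQ j)

lemma f1_summable_log : Summable fun m : ℕ => (1 + Real.log m) / ((m:ℝ) * (m + 1)) := by
  have h0 : Summable fun m : ℕ => (3:ℝ) * (m:ℝ) ^ (-(3/2):ℝ) :=
    (Real.summable_nat_rpow.mpr (by norm_num)).mul_left 3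
  apply Summable.of_nonneg_of_le _ _ h0
  · intro m
    rcases Nat.eq_zero_or_pos m with rfl | hm
    · simp
    · have : 0 ≤ Real.log m := Real.log_natCast_nonneg m
      positivity
  · intro m
    rcases Nat.eq_zero_or_pos m with rfl | hm
    · simp
    · have hm0 : (0:ℝ) < m := by exact_mod_cast hm
      have hm1 : (1:ℝ) ≤ m := by exact_mod_cast hm
      have h1 : Real.log m ≤ 2 * (m:ℝ) ^ (1/2:ℝ) := by
        have := Real.log_le_rpow_div hm0.le (show (0:ℝ) < 1/2 by norm_num)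
        calc Real.log m ≤ (m:ℝ) ^ (1/2:ℝ) / (1/2) := this
          _ = _ := by ring
      have h2 : (1:ℝ) ≤ (m:ℝ) ^ (1/2:ℝ) := Real.one_le_rpow hm1 (by norm_num)
      rw [div_le_iff₀ (by positivity)]
      have h3 : (m:ℝ) ^ (-(3/2):ℝ) * ((m:ℝ) * m) = (m:ℝ) ^ (1/2:ℝ) := by
        rw [show (m:ℝ) * m = (m:ℝ) ^ (2:ℝ) by rw [Real.rpow_two]; ring, ← Real.rpow_add hm0]
        norm_num
      have h4 : 0 ≤ (m:ℝ) ^ (-(3/2):ℝ) := by positivity
      calc 1 + Real.log m ≤ 3 * (m:ℝ) ^ (1/2:ℝ) := by linarith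
        _ = 3 * ((m:ℝ) ^ (-(3/2):ℝ) * ((m:ℝ) * m)) := by rw [h3]
        _ ≤ 3 * (m:ℝ) ^ (-(3/2):ℝ) * ((m:ℝ) * (m + 1)) := by nlinarith

lemma f1_summable_half : Summable fun m : ℕ => 1 / ((m:ℝ) * (m + 1)) := by
  apply Summable.of_nonneg_of_le _ _ f1_summable_log
  · intro m; positivity
  · intro m
    have : 0 ≤ Real.log m := Real.log_natCast_nonneg m
    rcases Nat.eq_zero_or_pos m with rfl | hm
    · simp
    · have hm0 : (0:ℝ) < m := by exact_mod_cast hm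
      gcongr
      linarith

/-- The middle tail. -/
theorem f1_mid {η : ℝ} (hη : 0 < η) {ε : ℝ} (hε : 0 < ε) : ∃ J₀ : ℕ, ∀ J : ℕ, J₀ ≤ J → ∀ᶠ p : ℝ × ℝ in Fl η,
    ∑ j ∈ (Finset.Icc (-((⌊(Real.log p.1) ^ (9/8:ℝ)⌋₊ : ℕ):ℤ)) ((⌊(Real.log p.1) ^ (9/8:ℝ)⌋₊ : ℕ):ℤ)).filter (fun j => J < j.natAbs),
      Qj p.1 p.2 j / |(j:ℝ)| ≤ ε * (Real.log p.1) ^ (9/4:ℝ) := by
  obtain ⟨C, hC, hS⟩ := Qj_sum_le hη
  have ht := tendsto_sum_nat_add (fun m : ℕ => (1 + Real.log m) / ((m:ℝ) * (m + 1)))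
  have ht2 : ∀ᶠ J : ℕ in atTop, ∑' m : ℕ, (1 + Real.log ((m + J : ℕ):ℝ)) / (((m + J : ℕ):ℝ) * (((m + J : ℕ):ℝ) + 1)) < ε / (2 * C) :=
    ht.eventually (gt_mem_nhds (by positivity))
  obtain ⟨J₀, hJ₀⟩ := eventually_atTop.1 ht2
  refine ⟨J₀, fun J hJ => ?_⟩
  have hlog : Tendsto (fun p : ℝ × ℝ => Real.log p.1) (Fl η) atTop := Real.tendsto_log_atTop.comp (Fl_fst η)
  -- the small terms
  have hsm : Tendsto (fun x : ℝ => C * ((1 + 9/8 * Real.log x) * (2 * x ^ (-(9/8):ℝ)) + x ^ (-(1/8):ℝ)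
      + x ^ (-(1/8):ℝ) * (1 + 9/8 * Real.log x))) atTop (𝓝 0) := by
    have h1 : Tendsto (fun x : ℝ => x ^ (-(1/8):ℝ)) atTop (𝓝 0) := tendsto_rpow_neg_atTop (by norm_num)
    have h2 : Tendsto (fun x : ℝ => Real.log x * x ^ (-(1/8):ℝ)) atTop (𝓝 0) := by
      have := (isLittleO_log_rpow_atTop (show (0:ℝ) < 1/8 by norm_num)).tendsto_div_nhds_zero
      refine this.congr' ?_
      filter_upwards [eventually_gt_atTop 0] with x hx
      rw [Real.rpow_neg hx.le, div_eq_mul_inv]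
    have h3 : Tendsto (fun x : ℝ => x ^ (-(9/8):ℝ)) atTop (𝓝 0) := tendsto_rpow_neg_atTop (by norm_num)
    have h4 : Tendsto (fun x : ℝ => Real.log x * x ^ (-(9/8):ℝ)) atTop (𝓝 0) := by
      have := (isLittleO_log_rpow_atTop (show (0:ℝ) < 9/8 by norm_num)).tendsto_div_nhds_zero
      refine this.congr' ?_
      filter_upwards [eventually_gt_atTop 0] with x hx
      rw [Real.rpow_neg hx.le, div_eq_mul_inv]
    have h5 := ((((h3.const_mul 2).add (h4.const_mul (9/4))).add h1).add (h1.add (h2.const_mul (9/8)))).const_mul C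
    simp only [mul_zero, add_zero] at h5
    refine h5.congr fun x => ?_
    ring
  have hsm' := (hsm.comp hlog).eventually (gt_mem_nhds (show (0:ℝ) < ε / 2 by positivity))
  have hbig : ∀ᶠ p : ℝ × ℝ in Fl η, 1 ≤ Real.log p.1 := hlog.eventually_ge_atTop 1
  filter_upwards [hS, hsm', hbig] with p hSp hsp hL
  set L := Real.log p.1 with hLdef
  have hL0 : 0 < L := by linarith
  have hR1 : 1 ≤ L ^ (9/8:ℝ) := Real.one_le_rpow hL (by norm_num)
  obtain ⟨R, hR⟩ : ∃ R : ℕ, R = ⌊L ^ (9/8:ℝ)⌋₊ := ⟨_, rfl⟩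
  rw [← hR]
  have hRle : (R:ℝ) ≤ L ^ (9/8:ℝ) := by rw [hR]; exact Nat.floor_le (by positivity)
  have hRnat : 1 ≤ R := by rw [hR]; exact Nat.le_floor (by simpa using hR1)
  have hR1' : (1:ℝ) ≤ R := by exact_mod_cast hRnat
  have hRge : L ^ (9/8:ℝ) ≤ 2 * R := by
    have := Nat.lt_floor_add_one (L ^ (9/8:ℝ))
    rw [← hR] at this
    linarith
  have hlogR : Real.log R ≤ 9/8 * Real.log L := by
    have := Real.log_le_log (by linarith) hRle
    rwa [Real.log_rpow hL0] at this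
  have hlogL : 0 ≤ Real.log L := Real.log_nonneg hL
  have hQ : ∀ j, 0 ≤ Qj p.1 p.2 j := Qj_nonneg _ _
  refine (f1_tail_weight hQ hRnat).trans ?_
  have hA : (1 / (R:ℝ)) * ∑ j ∈ Finset.Icc (-(R:ℤ)) R, Qj p.1 p.2 j ≤
      C * (L ^ (9/4:ℝ) * (1 + 9/8 * Real.log L) * (2 * L ^ (-(9/8):ℝ)) + L ^ (2 + 1/8 : ℝ)) := by
    have h1 := hSp R hRnat hRle
    calc (1 / (R:ℝ)) * ∑ j ∈ Finset.Icc (-(R:ℤ)) R, Qj p.1 p.2 j 
        ≤ (1 / (R:ℝ)) * (C * (L ^ (9/4 : ℝ) * (1 + Real.log R) + R * L ^ (2 + 1/8 : ℝ))) := by gcongr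
      _ = C * (L ^ (9/4:ℝ) * (1 + Real.log R) * (1 / R) + L ^ (2 + 1/8 : ℝ)) := by
        field_simp
      _ ≤ C * (L ^ (9/4:ℝ) * (1 + 9/8 * Real.log L) * (2 * L ^ (-(9/8):ℝ)) + L ^ (2 + 1/8 : ℝ)) := by
        have h2 : 1 / (R:ℝ) ≤ 2 * L ^ (-(9/8):ℝ) := by
          rw [Real.rpow_neg hL0.le, ← div_eq_mul_inv, div_le_div_iff₀ (by linarith) (by positivity)]
          linarith
        have h3 : 0 ≤ Real.log R := Real.log_natCast_nonneg R
        gcongr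
  have hB : ∑ m ∈ Finset.Ico (J + 1) R, (1 / ((m:ℝ) * (m + 1))) * ∑ j ∈ Finset.Icc (-(m:ℤ)) m, Qj p.1 p.2 j ≤
      C * (L ^ (9/4:ℝ) * (ε / (2 * C)) + L ^ (2 + 1/8 : ℝ) * (1 + 9/8 * Real.log L)) := by
    have h1 : ∀ m ∈ Finset.Ico (J + 1) R, (1 / ((m:ℝ) * (m + 1))) * ∑ j ∈ Finset.Icc (-(m:ℤ)) m, Qj p.1 p.2 j ≤
        C * (L ^ (9/4:ℝ) * ((1 + Real.log m) / ((m:ℝ) * (m + 1))) + L ^ (2 + 1/8 : ℝ) * (1 / (m + 1))) := by
      intro m hm
      rw [Finset.mem_Ico] at hm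
      have hm1 : 1 ≤ m := by omega
      have hm0 : (0:ℝ) < m := by exact_mod_cast hm1
      have hmR : (m:ℝ) ≤ R := by exact_mod_cast hm.2.le
      have h2 := hSp m hm1 (hmR.trans hRle)
      calc (1 / ((m:ℝ) * (m + 1))) * ∑ j ∈ Finset.Icc (-(m:ℤ)) m, Qj p.1 p.2 j
          ≤ (1 / ((m:ℝ) * (m + 1))) * (C * (L ^ (9/4 : ℝ) * (1 + Real.log m) + m * L ^ (2 + 1/8 : ℝ))) := by gcongr
        _ = _ := by field_simp
    refine (Finset.sum_le_sum h1).trans ?_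
    rw [← Finset.mul_sum, Finset.sum_add_distrib, ← Finset.mul_sum, ← Finset.mul_sum]
    apply mul_le_mul_of_nonneg_left _ hC.le
    have h3 : ∑ m ∈ Finset.Ico (J + 1) R, (1 + Real.log m) / ((m:ℝ) * (m + 1)) ≤ ε / (2 * C) := by
      have hlt := hJ₀ (J + 1) (by omega)
      refine le_trans ?_ hlt.le
      rw [Finset.sum_Ico_eq_sum_range]
      have hsum : Summable fun m : ℕ => (1 + Real.log ((m + (J + 1) : ℕ):ℝ)) / (((m + (J + 1) : ℕ):ℝ) * (((m + (J + 1) : ℕ):ℝ) + 1)) :=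
        (summable_nat_add_iff (J + 1)).2 f1_summable_log
      have h6 := hsum.sum_le_tsum (Finset.range (R - (J + 1))) (fun m _ => by
        have : 0 ≤ Real.log ((m + (J + 1) : ℕ):ℝ) := Real.log_natCast_nonneg _
        positivity)
      refine le_trans (le_of_eq ?_) h6
      apply Finset.sum_congr rfl
      intro m _
      rw [add_comm m (J + 1)]
    have h4 : ∑ m ∈ Finset.Ico (J + 1) R, 1 / ((m:ℝ) + 1) ≤ 1 + 9/8 * Real.log L := by
      have h7 : ∑ m ∈ Finset.Ico (J + 1) R, 1 / ((m:ℝ) + 1) ≤ ∑ m ∈ Finset.range R, 1 / ((m:ℝ) + 1) := by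
        apply Finset.sum_le_sum_of_subset_of_nonneg
        · intro m hm
          rw [Finset.mem_Ico] at hm
          exact Finset.mem_range.2 hm.2
        · intro m _ _
          positivity
      have h8 : ∑ m ∈ Finset.range R, 1 / ((m:ℝ) + 1) = ((harmonic R : ℚ) : ℝ) := by
        unfold harmonic
        push_cast
        apply Finset.sum_congr rfl
        intro m _
        rw [one_div]
      have h9 := harmonic_le_one_add_log R
      linarith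
    gcongr
  have hpow1 : L ^ (2 + 1/8 : ℝ) = L ^ (9/4:ℝ) * L ^ (-(1/8):ℝ) := by
    rw [← Real.rpow_add hL0]; norm_num
  have hfin : C * (L ^ (9/4:ℝ) * (1 + 9/8 * Real.log L) * (2 * L ^ (-(9/8):ℝ)) + L ^ (2 + 1/8 : ℝ)) +
      C * (L ^ (9/4:ℝ) * (ε / (2 * C)) + L ^ (2 + 1/8 : ℝ) * (1 + 9/8 * Real.log L)) =
      L ^ (9/4:ℝ) * (ε / 2 + C * ((1 + 9/8 * Real.log L) * (2 * L ^ (-(9/8):ℝ)) + L ^ (-(1/8):ℝ)
      + L ^ (-(1/8):ℝ) * (1 + 9/8 * Real.log L))) := by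
    rw [hpow1]
    field_simp
    ring
  have hsp2 : C * ((1 + 9/8 * Real.log L) * (2 * L ^ (-(9/8):ℝ)) + L ^ (-(1/8):ℝ)
      + L ^ (-(1/8):ℝ) * (1 + 9/8 * Real.log L)) < ε / 2 := hsp
  calc _ ≤ _ := add_le_add hA hB
    _ = _ := hfin
    _ ≤ L ^ (9/4:ℝ) * (ε / 2 + ε / 2) := by gcongr
    _ = ε * L ^ (9/4:ℝ) := by ring

/-- The far tail. -/
theorem f1_far {η : ℝ} (hη : 0 < η) {ε : ℝ} (hε : 0 < ε) : ∀ᶠ p : ℝ × ℝ in Fl η, ∀ M : ℕ,
    Real.log (XN p.1) * ∑ j ∈ (Finset.Icc (-(M:ℤ)) M).filter (fun j => ⌊(Real.log p.1) ^ (9/8:ℝ)⌋₊ < j.natAbs),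
      Qj p.1 p.2 j / (j:ℝ) ^ 2 ≤ ε * (Real.log p.1) ^ (9/4:ℝ) := by
  obtain ⟨C, hC, hS⟩ := Qj_le hη
  have hlog : Tendsto (fun p : ℝ × ℝ => Real.log p.1) (Fl η) atTop := Real.tendsto_log_atTop.comp (Fl_fst η)
  have hsm : Tendsto (fun x : ℝ => 4 * C * x ^ (-(1/8):ℝ)) atTop (𝓝 0) := by
    simpa using (tendsto_rpow_neg_atTop (show (0:ℝ) < 1/8 by norm_num)).const_mul (4 * C)
  have hsm' := (hsm.comp hlog).eventually (gt_mem_nhds hε)
  have hbig : ∀ᶠ p : ℝ × ℝ in Fl η, 1 ≤ Real.log p.1 := hlog.eventually_ge_atTop 1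
  have hX := (Fl_fst η).eventually par_log_XN
  have hXl : ∀ᶠ p : ℝ × ℝ in Fl η, Real.log (Real.log p.1) ≤ Real.log p.1 := by
    filter_upwards [hbig] with p hp
    exact Real.log_le_self (by linarith)
  filter_upwards [hS, hsm', hbig, hX, hXl] with p hSp hsp hL hXp hXlp M
  obtain ⟨L, hLdef⟩ : ∃ L, L = Real.log p.1 := ⟨_, rfl⟩
  have hsp2 : 4 * C * (Real.log p.1) ^ (-(1/8):ℝ) < ε := hsp
  rw [← hLdef] at hSp hL hXp hXlp hsp2 ⊢
  have hL0 : 0 < L := by linarith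
  have hR1 : 1 ≤ L ^ (9/8:ℝ) := Real.one_le_rpow hL (by norm_num)
  obtain ⟨R, hR⟩ : ∃ R : ℕ, R = ⌊L ^ (9/8:ℝ)⌋₊ := ⟨_, rfl⟩
  rw [← hR]
  have hRnat : 1 ≤ R := by rw [hR]; exact Nat.le_floor (by simpa using hR1)
  have hR0 : (0:ℝ) < R := by exact_mod_cast hRnat
  have hRge : L ^ (9/8:ℝ) ≤ 2 * R := by
    have := Nat.lt_floor_add_one (L ^ (9/8:ℝ))
    rw [← hR] at this
    have : (1:ℝ) ≤ R := by exact_mod_cast hRnat
    linarith
  have h1 : ∑ j ∈ (Finset.Icc (-(M:ℤ)) M).filter (fun j => R < j.natAbs), Qj p.1 p.2 j / (j:ℝ) ^ 2 ≤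
      (C * L ^ (9/4:ℝ)) * (2 / R) := by
    have h2 : ∑ j ∈ (Finset.Icc (-(M:ℤ)) M).filter (fun j => R < j.natAbs), Qj p.1 p.2 j / (j:ℝ) ^ 2 ≤
        ∑ j ∈ (Finset.Icc (-(M:ℤ)) M).filter (fun j => R < j.natAbs), (C * L ^ (9/4:ℝ)) * (1 / (j:ℝ) ^ 2) := by
      apply Finset.sum_le_sum
      intro j _
      rw [div_eq_mul_one_div]
      exact mul_le_mul_of_nonneg_right (hSp j) (by positivity)
    refine h2.trans ?_
    rw [← Finset.mul_sum]
    apply mul_le_mul_of_nonneg_left _ (by positivity)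
    -- sum over j of 1/j^2
    have h3 : ∀ j ∈ (Finset.Icc (-(M:ℤ)) M).filter (fun j => R < j.natAbs), 
        (1:ℝ) / (j:ℝ) ^ 2 = (fun m : ℕ => (1:ℝ) / (m:ℝ) ^ 2) j.natAbs := by
      intro j _
      simp only
      rw [show ((j.natAbs : ℕ):ℝ) = |(j:ℝ)| by rw [Nat.cast_natAbs]; simp, sq_abs]
    rw [Finset.sum_congr rfl h3]
    have h4 : ∑ j ∈ (Finset.Icc (-(M:ℤ)) M).filter (fun j => R < j.natAbs), (fun m : ℕ => (1:ℝ) / (m:ℝ) ^ 2) j.natAbs ≤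
        2 * ∑ m ∈ Finset.Ioc R (max R M), (1:ℝ) / (m:ℝ) ^ 2 := by
      have h5 : (Finset.Icc (-(M:ℤ)) M).filter (fun j => R < j.natAbs) ⊆
          (Finset.Ioc R (max R M)).image (fun m : ℕ => (m:ℤ)) ∪ (Finset.Ioc R (max R M)).image (fun m : ℕ => -(m:ℤ)) := by
        intro j hj
        rw [Finset.mem_filter, Finset.mem_Icc] at hj
        rw [Finset.mem_union, Finset.mem_image, Finset.mem_image]
        rcases le_total 0 j with h | h
        · left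
          exact ⟨j.natAbs, Finset.mem_Ioc.2 ⟨hj.2, by omega⟩, by omega⟩
        · right
          exact ⟨j.natAbs, Finset.mem_Ioc.2 ⟨hj.2, by omega⟩, by omega⟩
      refine (Finset.sum_le_sum_of_subset_of_nonneg h5 fun j _ _ => by positivity).trans ?_
      have h9 := Finset.sum_union_inter (s₁ := (Finset.Ioc R (max R M)).image (fun m : ℕ => (m:ℤ)))
        (s₂ := (Finset.Ioc R (max R M)).image (fun m : ℕ => -(m:ℤ))) (f := fun j : ℤ => (fun m : ℕ => (1:ℝ) / (m:ℝ) ^ 2) j.natAbs)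
      have h10 : 0 ≤ ∑ j ∈ (Finset.Ioc R (max R M)).image (fun m : ℕ => (m:ℤ)) ∩ (Finset.Ioc R (max R M)).image (fun m : ℕ => -(m:ℤ)),
          (fun m : ℕ => (1:ℝ) / (m:ℝ) ^ 2) j.natAbs := Finset.sum_nonneg fun j _ => by positivity
      have h11 : ∑ j ∈ (Finset.Ioc R (max R M)).image (fun m : ℕ => (m:ℤ)), (fun m : ℕ => (1:ℝ) / (m:ℝ) ^ 2) j.natAbs =
          ∑ m ∈ Finset.Ioc R (max R M), (1:ℝ) / (m:ℝ) ^ 2 := by
        rw [Finset.sum_image (fun a _ b _ h => by simpa using h)]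
        simp
      have h12 : ∑ j ∈ (Finset.Ioc R (max R M)).image (fun m : ℕ => -(m:ℤ)), (fun m : ℕ => (1:ℝ) / (m:ℝ) ^ 2) j.natAbs =
          ∑ m ∈ Finset.Ioc R (max R M), (1:ℝ) / (m:ℝ) ^ 2 := by
        rw [Finset.sum_image (fun a _ b _ h => by simpa using h)]
        simp
      linarith
    have h6 : ∑ m ∈ Finset.Ioc R (max R M), (1:ℝ) / (m:ℝ) ^ 2 ≤ 1 / R := by
      have := sum_Ioc_inv_sq_le_sub (α := ℝ) (show R ≠ 0 by omega) (le_max_left R M)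
      simp only [one_div]
      have h7 : 0 ≤ (((max R M : ℕ):ℝ))⁻¹ := by positivity
      linarith
    have h8 : 2 * (1 / (R:ℝ)) = 2 / R := by ring
    linarith
  have hlX : Real.log (XN p.1) ≤ L := by linarith [hXp.2.1, hXlp]
  have hlX0 : 0 ≤ Real.log (XN p.1) := Real.log_natCast_nonneg _
  have hnn : 0 ≤ ∑ j ∈ (Finset.Icc (-(M:ℤ)) M).filter (fun j => R < j.natAbs), Qj p.1 p.2 j / (j:ℝ) ^ 2 :=
    Finset.sum_nonneg fun j _ => div_nonneg (Qj_nonneg _ _ _) (sq_nonneg _)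
  calc Real.log (XN p.1) * ∑ j ∈ (Finset.Icc (-(M:ℤ)) M).filter (fun j => R < j.natAbs), Qj p.1 p.2 j / (j:ℝ) ^ 2
      ≤ L * ((C * L ^ (9/4:ℝ)) * (2 / R)) := mul_le_mul hlX h1 hnn hL0.le
    _ ≤ L * ((C * L ^ (9/4:ℝ)) * (4 * L ^ (-(9/8):ℝ))) := by
      have h2 : 2 / (R:ℝ) ≤ 4 * L ^ (-(9/8):ℝ) := by
        rw [Real.rpow_neg hL0.le, ← div_eq_mul_inv, div_le_div_iff₀ (by linarith) (by positivity)]
        linarith
      gcongr
    _ = (4 * C * L ^ (-(1/8):ℝ)) * L ^ (9/4:ℝ) := by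
      have : L * L ^ (-(9/8):ℝ) = L ^ (-(1/8):ℝ) := by
        nth_rewrite 1 [← Real.rpow_one L]
        rw [← Real.rpow_add hL0]; norm_num
      rw [← this]; ring
    _ ≤ ε * L ^ (9/4:ℝ) := by gcongr

end Pool.Agent.LibM3
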