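import Pool.Agent.LibM3.Par

/-! Third moment, block F2: the Fourier coefficients are close to the limiting ones. -/

set_option autoImplicit false

namespace Pool.Agent.LibM3

open MeasureTheory Set Filter Topology Complex ProbabilityTheory
open scoped NNReal ComplexConjugate
open Pool.Agent.LibZM

lemma f2_sin_even {j : ℤ} (h : ¬ Odd j) : Real.sin (Real.pi * j / 2) = 0 := by
  rw [Int.not_odd_iff_even] at h
  obtain ⟨k, hk⟩ := h
  rw [hk]
  push_cast
  rw [show Real.pi * ((k:ℝ) + k) / 2 = k * Real.pi by ring]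
  exact Real.sin_int_mul_pi k

lemma f2_csh_le (N : ℕ) (hN : 1 ≤ N) {τ : ℝ} (j : ℤ) : csh N τ j ≤ cinf j + |τ / per N - 1/2| := by
  have hl : 0 ≤ Real.log N := Real.log_natCast_nonneg N
  have hper : 0 < per N := by unfold per; linarith
  have hpi := Real.pi_pos
  unfold csh cinf
  rcases eq_or_ne j 0 with h0 | h0
  · rw [if_pos h0, if_pos h0]
    linarith [le_abs_self (τ / per N - 1/2)]
  · rw [if_neg h0, if_neg h0]
    have hj : (0:ℝ) < |(j:ℝ)| := by
      rw [abs_pos]; exact_mod_cast h0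
    have h1 : |Real.sin (Real.pi * j * τ / per N)| ≤ |Real.sin (Real.pi * j / 2)| + Real.pi * |(j:ℝ)| * |τ / per N - 1/2| := by
      have h2 : |Real.sin (Real.pi * j * τ / per N) - Real.sin (Real.pi * j / 2)| ≤ |Real.pi * j * τ / per N - Real.pi * j / 2| :=
        Real.abs_sin_sub_sin_le _ _
      have h3 : |Real.pi * j * τ / per N - Real.pi * j / 2| = Real.pi * |(j:ℝ)| * |τ / per N - 1/2| := by
        rw [show Real.pi * j * τ / per N - Real.pi * j / 2 = Real.pi * j * (τ / per N - 1/2) by ring, abs_mul, abs_mul, abs_of_pos hpi]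
      have h4 := abs_sub_abs_le_abs_sub (Real.sin (Real.pi * j * τ / per N)) (Real.sin (Real.pi * j / 2))
      linarith
    rw [div_le_iff₀ (by positivity)]
    by_cases ho : Odd j
    · rw [if_pos ho, add_mul]
      have h5 : 1 / (Real.pi * |(j:ℝ)|) * (Real.pi * |(j:ℝ)|) = 1 := by field_simp
      rw [h5]
      have h6 := Real.abs_sin_le_one (Real.pi * j / 2)
      linarith
    · rw [if_neg ho]
      rw [f2_sin_even ho, abs_zero] at h1
      linarith

theorem f2_csh {η : ℝ} (hη : 0 < η) (C : ℝ) {ε : ℝ} (hε : 0 < ε) : ∀ᶠ p : ℝ × ℝ in Fl η, ∀ t ∈ win p.2, ∀ j : ℤ,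
    csh (XN p.1) (tt t) j + C / Real.log (XN p.1) ≤ cinf j + ε := by
  have hlog : Tendsto (fun p : ℝ × ℝ => Real.log p.1) (Fl η) atTop := Real.tendsto_log_atTop.comp (Fl_fst η)
  have hX := (Fl_fst η).eventually par_log_XN
  have h1 : ∀ᶠ p : ℝ × ℝ in Fl η, 1 ≤ Real.log p.1 := hlog.eventually_ge_atTop 1
  have h2 : ∀ᶠ p : ℝ × ℝ in Fl η, 2 * (|C| * 2 + (|Real.log η| + 3)) / ε ≤ Real.log p.1 := hlog.eventually_ge_atTop _
  have h3 : ∀ᶠ p : ℝ × ℝ in Fl η, Real.log (Real.log p.1) ≤ 4 * ε * Real.log p.1 := by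
    have := (Real.isLittleO_log_id_atTop).def (show (0:ℝ) < 4 * ε by positivity)
    have h4 := hlog.eventually this
    filter_upwards [h4, h1] with p hp hp1
    have h5 : |Real.log (Real.log p.1)| ≤ 4 * ε * |Real.log p.1| := by simpa using hp
    rw [abs_of_nonneg (show 0 ≤ Real.log p.1 by linarith)] at h5
    exact (le_abs_self _).trans h5
  filter_upwards [hX, h1, h2, h3, par_tt hη] with p hXp hL hbig hll htt t ht j
  obtain ⟨-, -, h5, -, -⟩ := htt t ht
  obtain ⟨hx1, hx2, hx3⟩ := hXp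
  have hL0 : 0 < Real.log p.1 := by linarith
  have hllp : 0 ≤ Real.log (Real.log p.1) := Real.log_nonneg hL
  have hN : 1 ≤ XN p.1 := by omega
  have h6 := f2_csh_le (XN p.1) hN (τ := tt t) j
  have hper1 : Real.log p.1 ≤ per (XN p.1) := by unfold per; linarith
  have hper2 : per (XN p.1) ≤ Real.log p.1 + 1/8 * Real.log (Real.log p.1) + 1 := by unfold per; linarith
  have hper0 : 0 < per (XN p.1) := by linarith
  have h7 : |tt t / per (XN p.1) - 1/2| ≤ ((|Real.log η| + 3) + 1/16 * Real.log (Real.log p.1)) / Real.log p.1 := by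
    rw [show tt t / per (XN p.1) - 1/2 = (tt t - 1/2 * per (XN p.1)) / per (XN p.1) by field_simp, abs_div, abs_of_pos hper0]
    apply div_le_div₀ (by positivity) _ hL0 hper1
    rw [abs_le] at h5 ⊢
    constructor <;> linarith [h5.1, h5.2]
  have h8 : C / Real.log (XN p.1) ≤ (|C| * 2) / Real.log p.1 := by
    calc C / Real.log (XN p.1) ≤ |C| / Real.log (XN p.1) := by
          apply div_le_div_of_nonneg_right (le_abs_self C); linarith
      _ ≤ |C| / (Real.log p.1 / 2) := by
          apply div_le_div_of_nonneg_left (abs_nonneg C) (by linarith)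
          linarith
      _ = (|C| * 2) / Real.log p.1 := by field_simp
  have h9 : (|C| * 2) / Real.log p.1 + ((|Real.log η| + 3) + 1/16 * Real.log (Real.log p.1)) / Real.log p.1 ≤ ε := by
    rw [← add_div, div_le_iff₀ hL0]
    rw [div_le_iff₀ hε] at hbig
    nlinarith
  linarith

end Pool.Agent.LibM3
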