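import Pool.Agent.LibM3.ZDefs

/-! Third moment, block Z1: the partial sums are bounded by the integral. -/

set_option autoImplicit false

namespace Pool.Agent.LibM3

open MeasureTheory Set Filter Topology Complex ProbabilityTheory
open scoped NNReal ComplexConjugate
open Pool.Agent.LibZM

/-! ### Step 1: the iterated integral as an integral over a product -/

/-- the weight -/
noncomputable def z1_W (p : ℝ × (ℝ × ℝ)) : ℝ :=
  (Ioc (0:ℝ) (1/2)).indicator (fun v => v ^ (-(3/4) : ℝ)) p.1 *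
    ((Ioc (0:ℝ) (1/2 - p.1)).indicator (fun _ => (1:ℝ)) p.2.1 *
      ((Ioc (0:ℝ) (1/2 - p.1)).indicator (fun _ => (1:ℝ)) p.2.2 *
        ((p.2.1 * p.2.2) ^ (-(1/2) : ℝ) * (1 - p.2.1 - p.2.2))))

theorem z1_iter (K : ℝ → ℝ) (hK : Integrable (fun p : ℝ × (ℝ × ℝ) => z1_W p * K (p.2.1 - p.2.2))) :
    ∫ p : ℝ × (ℝ × ℝ), z1_W p * K (p.2.1 - p.2.2) =
      ∫ v in (0:ℝ)..(1/2), v ^ (-(3/4) : ℝ) *
        ∫ r in (0:ℝ)..(1/2 - v), ∫ r' in (0:ℝ)..(1/2 - v),
          (r * r') ^ (-(1/2) : ℝ) * K (r - r') * (1 - r - r') := by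
  rw [Measure.volume_eq_prod, integral_prod _ hK]
  rw [intervalIntegral.integral_of_le (by norm_num), ← integral_indicator measurableSet_Ioc]
  refine integral_congr_ae ?_
  filter_upwards [hK.prod_right_ae] with v hv
  rw [Measure.volume_eq_prod, integral_prod _ hv]
  by_cases hm : v ∈ Ioc (0:ℝ) (1/2)
  · rw [indicator_of_mem hm]
    have hv0 : (0:ℝ) ≤ 1/2 - v := by linarith [hm.2]
    rw [intervalIntegral.integral_of_le hv0, ← integral_indicator measurableSet_Ioc,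
      ← integral_const_mul]
    refine integral_congr_ae (Eventually.of_forall fun r => ?_)
    simp only []
    by_cases hr : r ∈ Ioc (0:ℝ) (1/2 - v)
    · rw [indicator_of_mem hr, intervalIntegral.integral_of_le hv0,
        ← integral_indicator measurableSet_Ioc, ← integral_const_mul]
      refine integral_congr_ae (Eventually.of_forall fun r' => ?_)
      simp only [z1_W, indicator_of_mem hm, indicator_of_mem hr]
      by_cases hr' : r' ∈ Ioc (0:ℝ) (1/2 - v)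
      · simp only [indicator_of_mem hr']
        ring
      · simp only [indicator_of_notMem hr']
        ring
    · rw [indicator_of_notMem hr, mul_zero]
      have : ∀ r' : ℝ, z1_W (v, r, r') * K (r - r') = 0 := by
        intro r'
        simp only [z1_W, indicator_of_notMem hr]
        ring
      simp only [this, integral_zero]
  · rw [indicator_of_notMem hm]
    have : ∀ r r' : ℝ, z1_W (v, r, r') * K (r - r') = 0 := by
      intro r r'
      simp only [z1_W, indicator_of_notMem hm]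
      ring
    simp only [this, integral_zero]

theorem z1_meas : Measurable z1_W := by
  unfold z1_W
  refine Measurable.mul ?_ (Measurable.mul ?_ (Measurable.mul ?_ ?_))
  · exact ((measurable_id.pow_const _).indicator measurableSet_Ioc).comp measurable_fst
  · have : (fun p : ℝ × (ℝ × ℝ) => (Ioc (0:ℝ) (1/2 - p.1)).indicator (fun _ => (1:ℝ)) p.2.1)
        = {p : ℝ × (ℝ × ℝ) | 0 < p.2.1 ∧ p.2.1 ≤ 1/2 - p.1}.indicator (fun _ => (1:ℝ)) := by
      funext p
      simp only [indicator, mem_Ioc, mem_ofPred_eq]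
    rw [this]
    refine measurable_const.indicator ?_
    exact (measurableSet_lt measurable_const (measurable_fst.comp measurable_snd)).inter
      (measurableSet_le (measurable_fst.comp measurable_snd) (measurable_const.sub measurable_fst))
  · have : (fun p : ℝ × (ℝ × ℝ) => (Ioc (0:ℝ) (1/2 - p.1)).indicator (fun _ => (1:ℝ)) p.2.2)
        = {p : ℝ × (ℝ × ℝ) | 0 < p.2.2 ∧ p.2.2 ≤ 1/2 - p.1}.indicator (fun _ => (1:ℝ)) := by
      funext p
      simp only [indicator, mem_Ioc, mem_ofPred_eq]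
    rw [this]
    refine measurable_const.indicator ?_
    exact (measurableSet_lt measurable_const (measurable_snd.comp measurable_snd)).inter
      (measurableSet_le (measurable_snd.comp measurable_snd) (measurable_const.sub measurable_fst))
  · exact ((((measurable_fst.comp measurable_snd).mul
      (measurable_snd.comp measurable_snd)).pow_const _).mul
      ((measurable_const.sub (measurable_fst.comp measurable_snd)).sub
        (measurable_snd.comp measurable_snd)))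

/-- truncated powers -/
noncomputable def z1_phi (a : ℝ) : ℝ → ℝ := (Ioc (0:ℝ) (1/2)).indicator (fun x => x ^ a)

theorem z1_phi_int (a : ℝ) (ha : -1 < a) : Integrable (z1_phi a) := by
  have h := intervalIntegral.intervalIntegrable_rpow' (a := 0) (b := 1/2) ha
  rw [intervalIntegrable_iff_integrableOn_Ioc_of_le (by norm_num)] at h
  exact h.integrable_indicator measurableSet_Ioc

theorem z1_phi_nonneg (a x : ℝ) : 0 ≤ z1_phi a x :=
  indicator_nonneg (fun _ hx => Real.rpow_nonneg hx.1.le _) x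

theorem z1_phi_of_mem {a x : ℝ} (hx : x ∈ Ioc (0:ℝ) (1/2)) : z1_phi a x = x ^ a :=
  indicator_of_mem hx _

/-- the dominating function -/
noncomputable def z1_D (p : ℝ × (ℝ × ℝ)) : ℝ :=
  z1_phi (-(3/4)) p.1 * (z1_phi (-(1/2)) p.2.1 * z1_phi (-(1/2)) p.2.2) +
  8 * (z1_phi (-(3/4)) p.1 * (z1_phi (-(5/8)) p.2.1 * z1_phi (-(1/2)) p.2.2 +
    z1_phi (-(1/2)) p.2.2 * (z1_phi (-(5/8)) (p.2.1 - p.2.2) + z1_phi (-(5/8)) (-(p.2.1 - p.2.2))))) +
  8 * (z1_phi (-(7/8)) p.1 * (z1_phi (-(1/2)) p.2.1 * z1_phi (-(1/2)) p.2.2))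

theorem z1_D_int : Integrable z1_D := by
  have h34 := z1_phi_int (-(3/4)) (by norm_num)
  have h12 := z1_phi_int (-(1/2)) (by norm_num)
  have h58 := z1_phi_int (-(5/8)) (by norm_num)
  have h78 := z1_phi_int (-(7/8)) (by norm_num)
  have hg : Integrable (fun y => z1_phi (-(5/8)) y + z1_phi (-(5/8)) (-y)) :=
    h58.add h58.comp_neg
  have hconv : Integrable (fun p : ℝ × ℝ => z1_phi (-(1/2)) p.2 *
      (z1_phi (-(5/8)) (p.1 - p.2) + z1_phi (-(5/8)) (-(p.1 - p.2)))) (volume.prod volume) := by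
    have := Integrable.convolution_integrand (ContinuousLinearMap.mul ℝ ℝ) h12 hg
    exact this
  have h1 : Integrable (fun p : ℝ × ℝ => z1_phi (-(1/2)) p.1 * z1_phi (-(1/2)) p.2)
      (volume.prod volume) := h12.mul_prod h12
  have h2 : Integrable (fun p : ℝ × ℝ => z1_phi (-(5/8)) p.1 * z1_phi (-(1/2)) p.2)
      (volume.prod volume) := h58.mul_prod h12
  have A1 := h34.mul_prod h1
  have A2 := h34.mul_prod (h2.add hconv)
  have A3 := h78.mul_prod h1
  exact (A1.add (A2.const_mul 8)).add (A3.const_mul 8)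

/-- domination -/
theorem z1_dom (p : ℝ × (ℝ × ℝ)) (k : ℝ)
    (hk : 0 < p.1 → p.1 ≤ 1/2 → |p.2.1 - p.2.2| < 1/2 → p.2.1 ≠ p.2.2 → p.1 ≤ 1/2 - |p.2.1 - p.2.2| →
      |k| ≤ 1 + 8 * |p.2.1 - p.2.2| ^ (-(1/8) : ℝ) + 8 * p.1 ^ (-(1/8) : ℝ))
    (hne : p.2.1 ≠ p.2.2) :
    |z1_W p * k| ≤ z1_D p := by
  obtain ⟨v, r, r'⟩ := p
  simp only at hk hne
  by_cases hm : v ∈ Ioc (0:ℝ) (1/2) ∧ r ∈ Ioc (0:ℝ) (1/2 - v) ∧ r' ∈ Ioc (0:ℝ) (1/2 - v)
  · obtain ⟨hv, hr, hr'⟩ := hm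
    have hv0 := hv.1
    have hr0 := hr.1
    have hr'0 := hr'.1
    have hr1 : r ≤ 1/2 := by linarith [hr.2]
    have hr'1 : r' ≤ 1/2 := by linarith [hr'.2]
    have habs : |r - r'| ≤ 1/2 - v := by
      rw [abs_le]
      constructor <;> linarith [hr.2, hr'.2]
    have hk1 := hk hv0 hv.2 (by linarith) hne (by linarith)
    have hu0 : 0 < |r - r'| := abs_pos.mpr (sub_ne_zero.mpr hne)
    have hW : z1_W (v, r, r') = v ^ (-(3/4) : ℝ) * (r ^ (-(1/2) : ℝ) * r' ^ (-(1/2) : ℝ) * (1 - r - r')) := by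
      simp only [z1_W, indicator_of_mem hv, indicator_of_mem hr, indicator_of_mem hr']
      rw [Real.mul_rpow hr0.le hr'0.le]
      ring
    have hW0 : 0 ≤ z1_W (v, r, r') := by
      rw [hW]
      have := Real.rpow_nonneg hv0.le (-(3/4))
      have := Real.rpow_nonneg hr0.le (-(1/2))
      have := Real.rpow_nonneg hr'0.le (-(1/2))
      have : 0 ≤ 1 - r - r' := by linarith
      positivity
    have hW1 : z1_W (v, r, r') ≤ v ^ (-(3/4) : ℝ) * (r ^ (-(1/2) : ℝ) * r' ^ (-(1/2) : ℝ)) := by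
      rw [hW]
      have h1 := Real.rpow_nonneg hv0.le (-(3/4))
      have h2 := Real.rpow_nonneg hr0.le (-(1/2))
      have h3 := Real.rpow_nonneg hr'0.le (-(1/2))
      refine mul_le_mul_of_nonneg_left ?_ h1
      exact mul_le_of_le_one_right (mul_nonneg h2 h3) (by linarith)
    have e1 : z1_phi (-(3/4)) v = v ^ (-(3/4) : ℝ) := z1_phi_of_mem hv
    have e2 : z1_phi (-(1/2)) r = r ^ (-(1/2) : ℝ) := z1_phi_of_mem ⟨hr0, hr1⟩
    have e3 : z1_phi (-(1/2)) r' = r' ^ (-(1/2) : ℝ) := z1_phi_of_mem ⟨hr'0, hr'1⟩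
    have e4 : z1_phi (-(5/8)) r = r ^ (-(5/8) : ℝ) := z1_phi_of_mem ⟨hr0, hr1⟩
    have e5 : z1_phi (-(7/8)) v = v ^ (-(7/8) : ℝ) := z1_phi_of_mem hv
    have e6 : |r - r'| ^ (-(5/8) : ℝ) ≤ z1_phi (-(5/8)) (r - r') + z1_phi (-(5/8)) (-(r - r')) := by
      rcases lt_or_gt_of_ne (sub_ne_zero.mpr hne) with h | h
      · have h1 : z1_phi (-(5/8)) (-(r - r')) = |r - r'| ^ (-(5/8) : ℝ) := by
          rw [abs_of_neg h]
          exact z1_phi_of_mem ⟨by linarith, by linarith [(abs_le.mp habs).1]⟩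
        have := z1_phi_nonneg (-(5/8)) (r - r')
        linarith
      · have h1 : z1_phi (-(5/8)) (r - r') = |r - r'| ^ (-(5/8) : ℝ) := by
          rw [abs_of_pos h]
          exact z1_phi_of_mem ⟨by linarith, by linarith [(abs_le.mp habs).2]⟩
        have := z1_phi_nonneg (-(5/8)) (-(r - r'))
        linarith
    have hv34 := Real.rpow_nonneg hv0.le (-(3/4))
    have hr12 := Real.rpow_nonneg hr0.le (-(1/2))
    have hr'12 := Real.rpow_nonneg hr'0.le (-(1/2))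
    have hu18 := Real.rpow_nonneg hu0.le (-(1/8))
    have hv18 := Real.rpow_nonneg hv0.le (-(1/8))
    -- the mixed product
    have e7 : r ^ (-(1/2) : ℝ) * |r - r'| ^ (-(1/8) : ℝ) ≤ r ^ (-(5/8) : ℝ) + |r - r'| ^ (-(5/8) : ℝ) := by
      rcases le_total r |r - r'| with h | h
      · have h1 : |r - r'| ^ (-(1/8) : ℝ) ≤ r ^ (-(1/8) : ℝ) :=
          Real.rpow_le_rpow_of_nonpos hr0 h (by norm_num)
        have h2 : r ^ (-(1/2) : ℝ) * r ^ (-(1/8) : ℝ) = r ^ (-(5/8) : ℝ) := by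
          rw [← Real.rpow_add hr0]; norm_num
        have h3 := Real.rpow_nonneg hu0.le (-(5/8))
        have h4 := mul_le_mul_of_nonneg_left h1 hr12
        linarith
      · have h1 : r ^ (-(1/2) : ℝ) ≤ |r - r'| ^ (-(1/2) : ℝ) :=
          Real.rpow_le_rpow_of_nonpos hu0 h (by norm_num)
        have h2 : |r - r'| ^ (-(1/2) : ℝ) * |r - r'| ^ (-(1/8) : ℝ) = |r - r'| ^ (-(5/8) : ℝ) := by
          rw [← Real.rpow_add hu0]; norm_num
        have h3 := Real.rpow_nonneg hr0.le (-(5/8))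
        have h4 := mul_le_mul_of_nonneg_right h1 hu18
        linarith
    have e8 : v ^ (-(3/4) : ℝ) * v ^ (-(1/8) : ℝ) = v ^ (-(7/8) : ℝ) := by
      rw [← Real.rpow_add hv0]; norm_num
    rw [abs_mul, abs_of_nonneg hW0]
    calc z1_W (v, r, r') * |k|
        ≤ (v ^ (-(3/4) : ℝ) * (r ^ (-(1/2) : ℝ) * r' ^ (-(1/2) : ℝ))) *
          (1 + 8 * |r - r'| ^ (-(1/8) : ℝ) + 8 * v ^ (-(1/8) : ℝ)) :=
          mul_le_mul hW1 hk1 (abs_nonneg _) (by positivity)
      _ = v ^ (-(3/4) : ℝ) * (r ^ (-(1/2) : ℝ) * r' ^ (-(1/2) : ℝ)) +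
          8 * (v ^ (-(3/4) : ℝ) * (r' ^ (-(1/2) : ℝ) * (r ^ (-(1/2) : ℝ) * |r - r'| ^ (-(1/8) : ℝ)))) +
          8 * ((v ^ (-(3/4) : ℝ) * v ^ (-(1/8) : ℝ)) * (r ^ (-(1/2) : ℝ) * r' ^ (-(1/2) : ℝ))) := by
          ring
      _ ≤ v ^ (-(3/4) : ℝ) * (r ^ (-(1/2) : ℝ) * r' ^ (-(1/2) : ℝ)) +
          8 * (v ^ (-(3/4) : ℝ) * (r' ^ (-(1/2) : ℝ) * (r ^ (-(5/8) : ℝ) +
            (z1_phi (-(5/8)) (r - r') + z1_phi (-(5/8)) (-(r - r')))))) +
          8 * (v ^ (-(7/8) : ℝ) * (r ^ (-(1/2) : ℝ) * r' ^ (-(1/2) : ℝ))) := by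
          rw [e8]
          have := mul_le_mul_of_nonneg_left (e7.trans (add_le_add_right e6 _)) hr'12
          have := mul_le_mul_of_nonneg_left this hv34
          linarith
      _ = z1_D (v, r, r') := by
          simp only [z1_D, e1, e2, e3, e4, e5]
          ring
  · have h0 : z1_W (v, r, r') = 0 := by
      simp only [z1_W]
      by_cases hv : v ∈ Ioc (0:ℝ) (1/2)
      · by_cases hr : r ∈ Ioc (0:ℝ) (1/2 - v)
        · by_cases hr' : r' ∈ Ioc (0:ℝ) (1/2 - v)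
          · exact absurd ⟨hv, hr, hr'⟩ hm
          · rw [indicator_of_notMem hr']; ring
        · rw [indicator_of_notMem hr]; ring
      · rw [indicator_of_notMem hv]; ring
    rw [h0, zero_mul, abs_zero]
    simp only [z1_D]
    have := z1_phi_nonneg
    have h := fun a x => this a x
    refine add_nonneg (add_nonneg ?_ ?_) ?_
    · exact mul_nonneg (h _ _) (mul_nonneg (h _ _) (h _ _))
    · exact mul_nonneg (by norm_num) (mul_nonneg (h _ _) (add_nonneg (mul_nonneg (h _ _) (h _ _))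
        (mul_nonneg (h _ _) (add_nonneg (h _ _) (h _ _)))))
    · exact mul_nonneg (by norm_num) (mul_nonneg (h _ _) (mul_nonneg (h _ _) (h _ _)))

/-! ### Step 2: the Fourier series -/

/-- the point `ρ e(u)` -/
noncomputable def z1_z (ρ u : ℝ) : ℂ := (ρ : ℂ) * cexp (((2 * Real.pi * u : ℝ) : ℂ) * I)

/-- the Abel sum of the Fourier series of the kernel -/
noncomputable def z1_S (ρ u : ℝ) : ℝ :=
  1/2 + (1 / Real.pi) * (Real.log ‖1 + z1_z ρ u‖ - Real.log ‖1 - z1_z ρ u‖)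

/-- coefficients -/
noncomputable def z1_b (n : ℕ) : ℝ := if n = 0 then 1/2 else (1 - (-1) ^ n) / (Real.pi * n)

theorem z1_norm (ρ u : ℝ) (h0 : 0 ≤ ρ) : ‖z1_z ρ u‖ = ρ := by
  rw [z1_z, norm_mul, Complex.norm_exp_ofReal_mul_I, mul_one, Complex.norm_real, Real.norm_eq_abs,
    abs_of_nonneg h0]

theorem z1_pow_re (ρ u : ℝ) (n : ℕ) : (z1_z ρ u ^ n).re = ρ ^ n * Real.cos (2 * Real.pi * n * u) := by
  rw [z1_z, mul_pow, ← Complex.exp_nat_mul, ← Complex.ofReal_pow, Complex.re_ofReal_mul]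
  congr 1
  have : (n : ℂ) * (((2 * Real.pi * u : ℝ) : ℂ) * I) = ((2 * Real.pi * n * u : ℝ) : ℂ) * I := by
    push_cast; ring
  rw [this, Complex.exp_ofReal_mul_I_re]

theorem z1_hasSum (ρ u : ℝ) (h0 : 0 ≤ ρ) (h1 : ρ < 1) :
    HasSum (fun n : ℕ => z1_b n * ρ ^ n * Real.cos (2 * Real.pi * n * u)) (z1_S ρ u) := by
  have hz : ‖z1_z ρ u‖ < 1 := by rw [z1_norm ρ u h0]; exact h1
  have hz' : ‖-z1_z ρ u‖ < 1 := by rw [norm_neg]; exact hz
  have e1 := Complex.hasSum_taylorSeries_neg_log hz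
  have e2 := Complex.hasSum_taylorSeries_neg_log hz'
  have e3 := (e1.sub e2).mapL Complex.reCLM
  have e4 : Complex.reCLM (-Complex.log (1 - z1_z ρ u) - -Complex.log (1 - -z1_z ρ u))
      = Real.log ‖1 + z1_z ρ u‖ - Real.log ‖1 - z1_z ρ u‖ := by
    simp only [Complex.reCLM_apply, sub_neg_eq_add, Complex.add_re, Complex.neg_re, Complex.log_re]
    ring
  rw [e4] at e3
  have e5 := (hasSum_ite_eq (0:ℕ) (1/2:ℝ)).add (e3.mul_left (1 / Real.pi))
  have e6 : (fun n : ℕ => z1_b n * ρ ^ n * Real.cos (2 * Real.pi * n * u)) = fun n : ℕ =>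
      (if n = 0 then (1/2:ℝ) else 0) + 1 / Real.pi *
        Complex.reCLM (z1_z ρ u ^ n / n - (-z1_z ρ u) ^ n / n) := by
    funext n
    rcases Nat.eq_zero_or_pos n with h | h
    · subst h
      simp [z1_b]
    · have hn : n ≠ 0 := h.ne'
      rw [z1_b, if_neg hn, if_neg hn, zero_add, Complex.reCLM_apply, neg_pow (z1_z ρ u) n]
      have e7 : z1_z ρ u ^ n / (n:ℂ) - (-1) ^ n * z1_z ρ u ^ n / n
          = (((1 - (-1) ^ n) / n : ℝ) : ℂ) * z1_z ρ u ^ n := by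
        push_cast; ring
      rw [e7, Complex.re_ofReal_mul, z1_pow_re]
      have hpi := Real.pi_pos.ne'
      have hn' : (n:ℝ) ≠ 0 := by exact_mod_cast hn
      field_simp
  rw [e6]
  exact e5

theorem z1_b_nonneg (n : ℕ) : 0 ≤ z1_b n := by
  unfold z1_b
  split_ifs with h
  · norm_num
  · refine div_nonneg ?_ (mul_nonneg Real.pi_pos.le (Nat.cast_nonneg n))
    rcases neg_one_pow_eq_or ℝ n with h | h <;> rw [h] <;> norm_num

theorem z1_b_le (n : ℕ) : z1_b n ≤ 1 := by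
  unfold z1_b
  split_ifs with h
  · norm_num
  · have hn : (1:ℝ) ≤ n := by exact_mod_cast Nat.one_le_iff_ne_zero.mpr h
    have hpi : 3 < Real.pi := Real.pi_gt_three
    rw [div_le_one (by positivity)]
    rcases neg_one_pow_eq_or ℝ n with h | h <;> rw [h] <;> nlinarith

/-! ### Step 3: bounds and the limit -/

theorem z1_re (ρ u : ℝ) : (z1_z ρ u).re = ρ * Real.cos (2 * Real.pi * u) := by
  have := z1_pow_re ρ u 1
  simpa using this

theorem z1_im (ρ u : ℝ) : (z1_z ρ u).im = ρ * Real.sin (2 * Real.pi * u) := by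
  rw [z1_z, Complex.im_ofReal_mul, Complex.exp_ofReal_mul_I_im]

theorem z1_nsq_add (ρ u : ℝ) : ‖1 + z1_z ρ u‖ ^ 2 =
    (ρ + Real.cos (2 * Real.pi * u)) ^ 2 + Real.sin (2 * Real.pi * u) ^ 2 := by
  rw [← Complex.normSq_eq_norm_sq, Complex.normSq_apply, Complex.add_re, Complex.add_im,
    Complex.one_re, Complex.one_im, z1_re, z1_im]
  have := Real.sin_sq_add_cos_sq (2 * Real.pi * u)
  linear_combination (ρ ^ 2 - 1) * this

theorem z1_nsq_sub (ρ u : ℝ) : ‖1 - z1_z ρ u‖ ^ 2 =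
    (ρ - Real.cos (2 * Real.pi * u)) ^ 2 + Real.sin (2 * Real.pi * u) ^ 2 := by
  rw [← Complex.normSq_eq_norm_sq, Complex.normSq_apply, Complex.sub_re, Complex.sub_im,
    Complex.one_re, Complex.one_im, z1_re, z1_im]
  have := Real.sin_sq_add_cos_sq (2 * Real.pi * u)
  linear_combination (ρ ^ 2 - 1) * this

theorem z1_log_bound {x s : ℝ} (hs : 0 < s) (h1 : s ^ 2 ≤ x ^ 2) (hx : 0 ≤ x) (h2 : x ≤ 2) :
    Real.log s ≤ Real.log x ∧ Real.log x ≤ Real.log 2 := by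
  have h3 : s ≤ x := by
    have := abs_le_of_sq_le_sq' h1 hx
    exact this.2
  exact ⟨Real.log_le_log hs h3, Real.log_le_log (by linarith) h2⟩

theorem z1_S_bound (ρ u : ℝ) (h0 : 0 ≤ ρ) (h1 : ρ < 1) (hs : Real.sin (2 * Real.pi * u) ≠ 0) :
    |z1_S ρ u| ≤ 1/2 + (1 / Real.pi) * (Real.log 2 - Real.log |Real.sin (2 * Real.pi * u)|) := by
  have hs0 : 0 < |Real.sin (2 * Real.pi * u)| := abs_pos.mpr hs
  have hn := z1_norm ρ u h0
  have a1 : ‖1 + z1_z ρ u‖ ≤ 2 := by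
    refine (norm_add_le _ _).trans ?_
    rw [norm_one, hn]; linarith
  have a2 : ‖1 - z1_z ρ u‖ ≤ 2 := by
    refine (norm_sub_le _ _).trans ?_
    rw [norm_one, hn]; linarith
  have b1 := z1_log_bound hs0 (by
    rw [sq_abs, z1_nsq_add]
    nlinarith [sq_nonneg (ρ + Real.cos (2 * Real.pi * u))]) (norm_nonneg _) a1
  have b2 := z1_log_bound hs0 (by
    rw [sq_abs, z1_nsq_sub]
    nlinarith [sq_nonneg (ρ - Real.cos (2 * Real.pi * u))]) (norm_nonneg _) a2
  rw [z1_S]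
  refine (abs_add_le _ _).trans ?_
  rw [abs_of_nonneg (show (0:ℝ) ≤ 1/2 by norm_num), abs_mul,
    abs_of_nonneg (show (0:ℝ) ≤ 1 / Real.pi by positivity)]
  refine add_le_add_right (mul_le_mul_of_nonneg_left ?_ (by positivity)) _
  rw [abs_le]
  constructor <;> linarith [b1.1, b1.2, b2.1, b2.2]

theorem z1_neg_log {y : ℝ} (hy : 0 < y) : -Real.log y ≤ 8 * y ^ (-(1/8) : ℝ) := by
  have h := Real.log_le_rpow_div (x := y⁻¹) (ε := 1/8) (by positivity) (by norm_num)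
  rw [Real.log_inv, Real.inv_rpow hy.le, ← Real.rpow_neg hy.le] at h
  linarith

theorem z1_sin_lower {t : ℝ} (h0 : 0 < t) (h1 : t < 1/2) :
    0 < Real.sin (2 * Real.pi * t) ∧
      -Real.log (Real.sin (2 * Real.pi * t)) ≤ 8 * t ^ (-(1/8) : ℝ) + 8 * (1/2 - t) ^ (-(1/8) : ℝ) := by
  have hpi := Real.pi_pos
  have key : ∀ s : ℝ, 0 < s → s ≤ 1/4 → 4 * s ≤ Real.sin (2 * Real.pi * s) := by
    intro s hs hs4
    have := Real.mul_le_sin (x := 2 * Real.pi * s) (by positivity) (by nlinarith)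
    have e : 2 / Real.pi * (2 * Real.pi * s) = 4 * s := by field_simp; ring
    rw [e] at this
    exact this
  have p1 := Real.rpow_nonneg h0.le (-(1/8))
  have p2 := Real.rpow_nonneg (show 0 ≤ 1/2 - t by linarith) (-(1/8))
  rcases le_total t (1/4) with h | h
  · have h2 := key t h0 h
    have h3 : 0 < Real.sin (2 * Real.pi * t) := by linarith
    refine ⟨h3, ?_⟩
    have h4 : Real.log t ≤ Real.log (Real.sin (2 * Real.pi * t)) :=
      Real.log_le_log h0 (by linarith)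
    have h5 := z1_neg_log h0
    linarith
  · have h2 := key (1/2 - t) (by linarith) (by linarith)
    have e : Real.sin (2 * Real.pi * (1/2 - t)) = Real.sin (2 * Real.pi * t) := by
      have : 2 * Real.pi * (1/2 - t) = Real.pi - 2 * Real.pi * t := by ring
      rw [this, Real.sin_pi_sub]
    rw [e] at h2
    have h3 : 0 < Real.sin (2 * Real.pi * t) := by linarith
    refine ⟨h3, ?_⟩
    have h4 : Real.log (1/2 - t) ≤ Real.log (Real.sin (2 * Real.pi * t)) :=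
      Real.log_le_log (by linarith) (by linarith)
    have h5 := z1_neg_log (show 0 < 1/2 - t by linarith)
    linarith

theorem z1_S_le (ρ u v : ℝ) (h0 : 0 ≤ ρ) (h1 : ρ < 1) (hu : u ≠ 0) (hu1 : |u| < 1/2) (hv : 0 < v)
    (hv1 : v ≤ 1/2 - |u|) :
    |z1_S ρ u| ≤ 1 + 8 * |u| ^ (-(1/8) : ℝ) + 8 * v ^ (-(1/8) : ℝ) := by
  have hu0 : 0 < |u| := abs_pos.mpr hu
  obtain ⟨k1, k2⟩ := z1_sin_lower hu0 hu1
  have e : |Real.sin (2 * Real.pi * u)| = Real.sin (2 * Real.pi * |u|) := by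
    rcases abs_cases u with ⟨h, -⟩ | ⟨h, -⟩
    · rw [h] at k1 ⊢; exact abs_of_pos k1
    · rw [h] at k1 ⊢
      have : 2 * Real.pi * -u = -(2 * Real.pi * u) := by ring
      rw [this, Real.sin_neg] at k1 ⊢
      exact abs_of_neg (by linarith)
  have hs : Real.sin (2 * Real.pi * u) ≠ 0 := by
    intro h
    rw [h, abs_zero] at e
    linarith
  refine (z1_S_bound ρ u h0 h1 hs).trans ?_
  rw [e]
  have hpi : 3 < Real.pi := Real.pi_gt_three
  have hl2 : Real.log 2 ≤ 1 := by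
    have := Real.log_two_lt_d9; linarith
  have hvv : (1/2 - |u|) ^ (-(1/8) : ℝ) ≤ v ^ (-(1/8) : ℝ) :=
    Real.rpow_le_rpow_of_nonpos hv hv1 (by norm_num)
  have p1 := Real.rpow_nonneg hu0.le (-(1/8))
  have p2 := Real.rpow_nonneg hv.le (-(1/8))
  have h3 : Real.log 2 - Real.log (Real.sin (2 * Real.pi * |u|)) ≤
      1 + (8 * |u| ^ (-(1/8) : ℝ) + 8 * v ^ (-(1/8) : ℝ)) := by linarith
  have hpi1 : 1 / Real.pi ≤ 1/3 := by
    rw [div_le_div_iff₀ Real.pi_pos (by norm_num)]; linarith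
  have hpi0 : 0 ≤ 1 / Real.pi := by positivity
  calc 1/2 + 1 / Real.pi * (Real.log 2 - Real.log (Real.sin (2 * Real.pi * |u|)))
      ≤ 1/2 + 1 / Real.pi * (1 + (8 * |u| ^ (-(1/8) : ℝ) + 8 * v ^ (-(1/8) : ℝ))) :=
        add_le_add_right (mul_le_mul_of_nonneg_left h3 hpi0) _
    _ ≤ 1/2 + 1/3 * (1 + (8 * |u| ^ (-(1/8) : ℝ) + 8 * v ^ (-(1/8) : ℝ))) :=
        add_le_add_right (mul_le_mul_of_nonneg_right hpi1 (by linarith)) _
    _ ≤ 1 + 8 * |u| ^ (-(1/8) : ℝ) + 8 * v ^ (-(1/8) : ℝ) := by linarith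

/-- the sequence of radii -/
noncomputable def z1_r (n : ℕ) : ℝ := 1 - 1 / ((n:ℝ) + 1)

theorem z1_r_nonneg (n : ℕ) : 0 ≤ z1_r n := by
  unfold z1_r
  have : 1 / ((n:ℝ) + 1) ≤ 1 := by
    rw [div_le_one (by positivity)]
    have := Nat.cast_nonneg (α := ℝ) n
    linarith
  linarith

theorem z1_r_lt (n : ℕ) : z1_r n < 1 := by
  unfold z1_r
  have : 0 < 1 / ((n:ℝ) + 1) := by positivity
  linarith

theorem z1_r_tendsto : Tendsto z1_r atTop (𝓝 1) := by
  have := (tendsto_one_div_add_atTop_nhds_zero_nat (𝕜 := ℝ)).const_sub 1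
  rw [sub_zero] at this
  exact this

theorem z1_S_tendsto (u : ℝ) (hc : Real.cos (Real.pi * u) ≠ 0) (hs : Real.sin (Real.pi * u) ≠ 0) :
    Tendsto (fun n => z1_S (z1_r n) u) atTop (𝓝 (Kc u)) := by
  have hz : Tendsto (fun n => z1_z (z1_r n) u) atTop (𝓝 (z1_z 1 u)) := by
    unfold z1_z
    exact ((Complex.continuous_ofReal.tendsto _).comp z1_r_tendsto).mul_const _
  have n1 : ‖1 + z1_z 1 u‖ = 2 * |Real.cos (Real.pi * u)| := by
    have h : ‖1 + z1_z 1 u‖ ^ 2 = (2 * |Real.cos (Real.pi * u)|) ^ 2 := by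
      rw [z1_nsq_add, mul_pow, sq_abs]
      have e : 2 * Real.pi * u = 2 * (Real.pi * u) := by ring
      rw [e, Real.cos_two_mul, Real.sin_two_mul]
      have := Real.sin_sq_add_cos_sq (Real.pi * u)
      linear_combination (4 * Real.cos (Real.pi * u) ^ 2) * this
    have := abs_eq_abs.mpr (sq_eq_sq_iff_eq_or_eq_neg.mp h)
    rwa [abs_of_nonneg (norm_nonneg _), abs_of_nonneg (by positivity)] at this
  have n2 : ‖1 - z1_z 1 u‖ = 2 * |Real.sin (Real.pi * u)| := by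
    have h : ‖1 - z1_z 1 u‖ ^ 2 = (2 * |Real.sin (Real.pi * u)|) ^ 2 := by
      rw [z1_nsq_sub, mul_pow, sq_abs]
      have e : 2 * Real.pi * u = 2 * (Real.pi * u) := by ring
      rw [e, Real.cos_two_mul, Real.sin_two_mul]
      have := Real.sin_sq_add_cos_sq (Real.pi * u)
      have h2 : Real.cos (Real.pi * u) ^ 2 = 1 - Real.sin (Real.pi * u) ^ 2 := by linarith
      have h3 : (1 - (2 * Real.cos (Real.pi * u) ^ 2 - 1)) = 2 * Real.sin (Real.pi * u) ^ 2 := by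
        rw [h2]; ring
      rw [h3]
      have h4 : (2 * Real.sin (Real.pi * u) * Real.cos (Real.pi * u)) ^ 2
          = 4 * Real.sin (Real.pi * u) ^ 2 * Real.cos (Real.pi * u) ^ 2 := by ring
      rw [h4, h2]
      ring
    have := abs_eq_abs.mpr (sq_eq_sq_iff_eq_or_eq_neg.mp h)
    rwa [abs_of_nonneg (norm_nonneg _), abs_of_nonneg (by positivity)] at this
  have hc0 : 0 < |Real.cos (Real.pi * u)| := abs_pos.mpr hc
  have hs0 : 0 < |Real.sin (Real.pi * u)| := abs_pos.mpr hs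
  have t1 : Tendsto (fun n => Real.log ‖1 + z1_z (z1_r n) u‖) atTop
      (𝓝 (Real.log (2 * |Real.cos (Real.pi * u)|))) := by
    rw [← n1]
    exact ((tendsto_const_nhds.add hz).norm).log (by rw [n1]; positivity)
  have t2 : Tendsto (fun n => Real.log ‖1 - z1_z (z1_r n) u‖) atTop
      (𝓝 (Real.log (2 * |Real.sin (Real.pi * u)|))) := by
    rw [← n2]
    exact ((tendsto_const_nhds.sub hz).norm).log (by rw [n2]; positivity)
  have e : Kc u = 1/2 + (1 / Real.pi) * (Real.log (2 * |Real.cos (Real.pi * u)|) -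
      Real.log (2 * |Real.sin (Real.pi * u)|)) := by
    rw [Kc, abs_div, Real.log_div hc0.ne' hs0.ne', Real.log_mul (by norm_num) hc0.ne',
      Real.log_mul (by norm_num) hs0.ne']
    ring
  rw [e]
  exact ((t1.sub t2).const_mul _).const_add _

/-! ### Step 4: integration -/

theorem z1_ae_ne : ∀ᵐ p : ℝ × (ℝ × ℝ), p.2.1 ≠ p.2.2 := by
  set f : ℝ × (ℝ × ℝ) →ₗ[ℝ] ℝ :=
    (LinearMap.fst ℝ ℝ ℝ - LinearMap.snd ℝ ℝ ℝ).comp (LinearMap.snd ℝ ℝ (ℝ × ℝ)) with hf
  have hne : LinearMap.ker f ≠ ⊤ := by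
    intro h
    have : ((0:ℝ), ((1:ℝ), (0:ℝ))) ∈ LinearMap.ker f := by rw [h]; trivial
    rw [LinearMap.mem_ker] at this
    simp [hf] at this
  have i1 : ((volume : Measure ℝ).prod (volume : Measure ℝ)).IsAddHaarMeasure := inferInstance
  have i2 : ((volume : Measure ℝ).prod ((volume : Measure ℝ).prod
    (volume : Measure ℝ))).IsAddHaarMeasure := Measure.prod.instIsAddHaarMeasure _ _
  have h := Measure.addHaar_submodule ((volume : Measure ℝ).prod
    ((volume : Measure ℝ).prod (volume : Measure ℝ))) (LinearMap.ker f) hne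
  rw [ae_iff]
  refine measure_mono_null ?_ h
  intro p hp
  simp only [ne_eq, not_not, mem_ofPred_eq] at hp
  simp [hf, hp]

theorem z1_int_of_bound (K : ℝ → ℝ) (hm : Measurable K)
    (hK : ∀ u v : ℝ, u ≠ 0 → |u| < 1/2 → 0 < v → v ≤ 1/2 - |u| →
      |K u| ≤ 1 + 8 * |u| ^ (-(1/8) : ℝ) + 8 * v ^ (-(1/8) : ℝ)) :
    (∀ᵐ p : ℝ × (ℝ × ℝ), ‖z1_W p * K (p.2.1 - p.2.2)‖ ≤ z1_D p) ∧
    Integrable (fun p : ℝ × (ℝ × ℝ) => z1_W p * K (p.2.1 - p.2.2)) := by
  have h1 : ∀ᵐ p : ℝ × (ℝ × ℝ), ‖z1_W p * K (p.2.1 - p.2.2)‖ ≤ z1_D p := by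
    filter_upwards [z1_ae_ne] with p hp
    rw [Real.norm_eq_abs]
    exact z1_dom p _ (fun h2 _ h4 h5 h6 => hK _ _ (sub_ne_zero.mpr h5) h4 h2 h6) hp
  refine ⟨h1, z1_D_int.mono' ?_ h1⟩
  exact (z1_meas.mul (hm.comp ((measurable_fst.comp measurable_snd).sub
    (measurable_snd.comp measurable_snd)))).aestronglyMeasurable

theorem z1_cos_bound (x u v : ℝ) (hv : 0 < v) :
    |Real.cos (x * u)| ≤ 1 + 8 * |u| ^ (-(1/8) : ℝ) + 8 * v ^ (-(1/8) : ℝ) := by
  have := Real.abs_cos_le_one (x * u)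
  have p1 := Real.rpow_nonneg (abs_nonneg u) (-(1/8))
  have p2 := Real.rpow_nonneg hv.le (-(1/8))
  linarith

theorem z1_cos_int (x : ℝ) :
    (∀ᵐ p : ℝ × (ℝ × ℝ), ‖z1_W p * Real.cos (x * (p.2.1 - p.2.2))‖ ≤ z1_D p) ∧
    Integrable (fun p : ℝ × (ℝ × ℝ) => z1_W p * Real.cos (x * (p.2.1 - p.2.2))) :=
  z1_int_of_bound (fun u => Real.cos (x * u)) (by fun_prop)
    fun u v _ _ hv _ => z1_cos_bound x u v hv

/-- the integrals of the cosines -/
noncomputable def z1_I (x : ℝ) : ℝ := ∫ p : ℝ × (ℝ × ℝ), z1_W p * Real.cos (x * (p.2.1 - p.2.2))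

theorem z1_qf (x : ℝ) : qf x = (1 / (Real.pi * Real.Gamma (1/4))) * z1_I x := by
  rw [z1_I, z1_iter (fun u => Real.cos (x * u)) (z1_cos_int x).2]
  rfl

theorem z1_meas_S (ρ : ℝ) : Measurable (z1_S ρ) := by
  unfold z1_S z1_z
  fun_prop

theorem z1_meas_Kc : Measurable Kc := by
  unfold Kc
  fun_prop

theorem z1_S_int (n : ℕ) :
    (∀ᵐ p : ℝ × (ℝ × ℝ), ‖z1_W p * z1_S (z1_r n) (p.2.1 - p.2.2)‖ ≤ z1_D p) ∧
    Integrable (fun p : ℝ × (ℝ × ℝ) => z1_W p * z1_S (z1_r n) (p.2.1 - p.2.2)) :=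
  z1_int_of_bound (z1_S (z1_r n)) (z1_meas_S _)
    fun u v hu hu1 hv hv1 => z1_S_le _ u v (z1_r_nonneg n) (z1_r_lt n) hu hu1 hv hv1

theorem z1_trig {u : ℝ} (hu : u ≠ 0) (hu1 : |u| < 1/2) :
    Real.cos (Real.pi * u) ≠ 0 ∧ Real.sin (Real.pi * u) ≠ 0 := by
  have hpi := Real.pi_pos
  obtain ⟨h1, h2⟩ := abs_lt.mp hu1
  constructor
  · exact (Real.cos_pos_of_mem_Ioo ⟨by nlinarith, by nlinarith⟩).ne'
  · intro h
    rw [Real.sin_eq_zero_iff_of_lt_of_lt (by nlinarith) (by nlinarith)] at h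
    exact hu ((mul_eq_zero.mp h).resolve_left hpi.ne')

theorem z1_Kc_int :
    Integrable (fun p : ℝ × (ℝ × ℝ) => z1_W p * Kc (p.2.1 - p.2.2)) := by
  refine (z1_int_of_bound Kc z1_meas_Kc ?_).2
  intro u v hu hu1 hv hv1
  obtain ⟨hc, hs⟩ := z1_trig hu hu1
  exact le_of_tendsto (z1_S_tendsto u hc hs).abs
    (Eventually.of_forall fun n => z1_S_le _ u v (z1_r_nonneg n) (z1_r_lt n) hu hu1 hv hv1)

theorem z1_CI : CI = (1 / (Real.pi * Real.Gamma (1/4))) *
    ∫ p : ℝ × (ℝ × ℝ), z1_W p * Kc (p.2.1 - p.2.2) := by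
  rw [z1_iter Kc z1_Kc_int]
  rfl

theorem z1_W_zero {p : ℝ × (ℝ × ℝ)} (h : ¬ |p.2.1 - p.2.2| < 1/2) : z1_W p = 0 := by
  obtain ⟨v, r, r'⟩ := p
  simp only [z1_W]
  by_cases hv : v ∈ Ioc (0:ℝ) (1/2)
  · by_cases hr : r ∈ Ioc (0:ℝ) (1/2 - v)
    · by_cases hr' : r' ∈ Ioc (0:ℝ) (1/2 - v)
      · exfalso
        apply h
        simp only
        rw [abs_lt]
        constructor <;> linarith [hv.1, hr.1, hr.2, hr'.1, hr'.2]
      · rw [indicator_of_notMem hr']; ring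
    · rw [indicator_of_notMem hr]; ring
  · rw [indicator_of_notMem hv]; ring

theorem z1_lim : Tendsto (fun n => ∫ p : ℝ × (ℝ × ℝ), z1_W p * z1_S (z1_r n) (p.2.1 - p.2.2)) atTop
    (𝓝 (∫ p : ℝ × (ℝ × ℝ), z1_W p * Kc (p.2.1 - p.2.2))) := by
  refine tendsto_integral_of_dominated_convergence z1_D
    (fun n => (z1_S_int n).2.aestronglyMeasurable) z1_D_int (fun n => (z1_S_int n).1) ?_
  filter_upwards [z1_ae_ne] with p hp
  by_cases h : |p.2.1 - p.2.2| < 1/2
  · obtain ⟨hc, hs⟩ := z1_trig (sub_ne_zero.mpr hp) h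
    exact (z1_S_tendsto _ hc hs).const_mul _
  · simp only [z1_W_zero h, zero_mul]
    exact tendsto_const_nhds

theorem z1_hasSum_int (m : ℕ) : HasSum (fun n : ℕ => z1_b n * z1_r m ^ n * z1_I (2 * Real.pi * n))
    (∫ p : ℝ × (ℝ × ℝ), z1_W p * z1_S (z1_r m) (p.2.1 - p.2.2)) := by
  set ρ := z1_r m with hρ
  have h0 : 0 ≤ ρ := z1_r_nonneg m
  have h1 : ρ < 1 := z1_r_lt m
  set F : ℕ → ℝ × (ℝ × ℝ) → ℝ := fun n p =>
    (z1_b n * ρ ^ n) * (z1_W p * Real.cos (2 * Real.pi * n * (p.2.1 - p.2.2))) with hF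
  have hFi : ∀ n, Integrable (F n) := fun n => (z1_cos_int (2 * Real.pi * n)).2.const_mul _
  have hD0 : 0 ≤ ∫ p, z1_D p := by
    refine le_trans (norm_nonneg _) (norm_integral_le_of_norm_le z1_D_int (z1_cos_int 0).1)
  have hFn : ∀ n, ∫ p, ‖F n p‖ ≤ ρ ^ n * ∫ p, z1_D p := by
    intro n
    rw [← integral_const_mul]
    refine integral_mono_ae (hFi n).norm (z1_D_int.const_mul _) ?_
    filter_upwards [(z1_cos_int (2 * Real.pi * n)).1] with p hp
    simp only [hF]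
    rw [norm_mul, Real.norm_of_nonneg (mul_nonneg (z1_b_nonneg n) (pow_nonneg h0 n))]
    refine mul_le_mul ?_ hp (norm_nonneg _) (pow_nonneg h0 n)
    exact mul_le_of_le_one_left (pow_nonneg h0 n) (z1_b_le n)
  have hsum : Summable fun n => ∫ p, ‖F n p‖ := by
    refine Summable.of_nonneg_of_le (fun n => integral_nonneg fun p => norm_nonneg _) hFn ?_
    exact (summable_geometric_of_lt_one h0 h1).mul_right _
  have h2 := hasSum_integral_of_summable_integral_norm hFi hsum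
  have h3 : ∀ p, ∑' n, F n p = z1_W p * z1_S ρ (p.2.1 - p.2.2) := by
    intro p
    have := ((z1_hasSum ρ (p.2.1 - p.2.2) h0 h1).mul_left (z1_W p)).tsum_eq
    rw [← this]
    refine tsum_congr fun n => ?_
    simp only [hF]
    ring
  simp only [h3] at h2
  have h4 : (fun n : ℕ => z1_b n * ρ ^ n * z1_I (2 * Real.pi * n)) = fun n => ∫ p, F n p := by
    funext n
    simp only [hF]
    rw [integral_const_mul]
    rfl
  rw [h4]
  exact h2

theorem z1_SJ (J : ℕ) : SJ J = 2 * ∑ n ∈ Finset.range (J + 1), z1_b n * qf (2 * Real.pi * n) := by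
  rw [SJ]
  congr 1
  induction J with
  | zero =>
    simp [z1_b, cinf]
  | succ J ih =>
    rw [Finset.sum_range_succ, ← ih]
    have hset : Finset.Icc (-((J + 1 : ℕ) : ℤ)) ((J + 1 : ℕ) : ℤ) =
        insert (-((J + 1 : ℕ) : ℤ)) (insert (((J + 1 : ℕ) : ℤ)) (Finset.Icc (-(J : ℤ)) J)) := by
      ext x
      simp only [Finset.mem_Icc, Finset.mem_insert]
      push_cast
      omega
    have hq : qf (2 * Real.pi * ((-((J + 1 : ℕ) : ℤ) : ℤ) : ℝ)) = qf (2 * Real.pi * ((J + 1 : ℕ) : ℝ)) := by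
      have e : 2 * Real.pi * ((-((J + 1 : ℕ) : ℤ) : ℤ) : ℝ) = -(2 * Real.pi * ((J + 1 : ℕ) : ℝ)) := by
        push_cast; ring
      rw [e, z1_qf, z1_qf]
      congr 1
      unfold z1_I
      refine integral_congr_ae (Eventually.of_forall fun p => ?_)
      simp only
      rw [neg_mul, Real.cos_neg]
    have hcf : cinf (-((J + 1 : ℕ) : ℤ)) = cinf ((J + 1 : ℕ) : ℤ) := by
      unfold cinf
      have h1 : ((-((J + 1 : ℕ) : ℤ) : ℤ) = 0) ↔ ((((J + 1 : ℕ) : ℤ)) = 0) := by omega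
      have h2 : Odd (-((J + 1 : ℕ) : ℤ)) ↔ Odd ((J + 1 : ℕ) : ℤ) := odd_neg
      simp only [h1, h2, Int.cast_neg, abs_neg]
    have hb : z1_b (J + 1) = 2 * cinf ((J + 1 : ℕ) : ℤ) := by
      unfold z1_b cinf
      rw [if_neg (Nat.succ_ne_zero J), if_neg (by omega)]
      have hpi := Real.pi_pos.ne'
      have habs : |((((J + 1 : ℕ) : ℤ) : ℤ) : ℝ)| = ((J + 1 : ℕ) : ℝ) := by
        rw [Int.cast_natCast]
        exact abs_of_nonneg (Nat.cast_nonneg _)
      rcases Nat.even_or_odd (J + 1) with h | h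
      · rw [if_neg (by
          rw [Int.odd_coe_nat]
          exact Nat.not_odd_iff_even.mpr h), h.neg_one_pow]
        simp
      · rw [if_pos (by rw [Int.odd_coe_nat]; exact h), h.neg_one_pow, habs]
        ring
    rw [hset, Finset.sum_insert, Finset.sum_insert, hq, hcf, hb, Int.cast_natCast]
    · ring
    · simp only [Finset.mem_Icc]
      push_cast
      omega
    · simp only [Finset.mem_insert, Finset.mem_Icc]
      push_cast
      omega

/-- For `0 ≤ ρ < 1`: `∑_j cinf j ρ^{|j|} cos(2π j x) = 1/2 + (1/π) log |(1+ρe(x))/(1-ρe(x))|`, dominated by `1/2 + (1/π) |log |cot πx||`. -/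
theorem SJ_le_CI (hq : ∀ j : ℤ, 0 ≤ qf (2 * Real.pi * j)) (J : ℕ) : SJ J ≤ 2 * CI := by
  have hc : 0 < 1 / (Real.pi * Real.Gamma (1/4)) := by
    have := Real.Gamma_pos_of_pos (show (0:ℝ) < 1/4 by norm_num)
    have := Real.pi_pos
    positivity
  have hI : ∀ n : ℕ, 0 ≤ z1_I (2 * Real.pi * n) := by
    intro n
    have h1 := hq n
    rw [z1_qf] at h1
    have h2 := nonneg_of_mul_nonneg_right h1 hc
    simpa using h2
  rw [z1_SJ]
  refine mul_le_mul_of_nonneg_left ?_ (by norm_num)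
  have e1 : ∑ n ∈ Finset.range (J + 1), z1_b n * qf (2 * Real.pi * n) =
      (1 / (Real.pi * Real.Gamma (1/4))) *
        ∑ n ∈ Finset.range (J + 1), z1_b n * z1_I (2 * Real.pi * n) := by
    rw [Finset.mul_sum]
    refine Finset.sum_congr rfl fun n _ => ?_
    rw [z1_qf]
    ring
  rw [e1, z1_CI]
  refine mul_le_mul_of_nonneg_left ?_ hc.le
  have t1 : Tendsto (fun m => ∑ n ∈ Finset.range (J + 1),
      z1_b n * z1_r m ^ n * z1_I (2 * Real.pi * n)) atTop
      (𝓝 (∑ n ∈ Finset.range (J + 1), z1_b n * 1 ^ n * z1_I (2 * Real.pi * n))) :=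
    tendsto_finsetSum _ fun n _ => ((z1_r_tendsto.pow n).const_mul _).mul_const _
  simp only [one_pow, mul_one] at t1
  refine le_of_tendsto_of_tendsto' t1 z1_lim fun m => ?_
  refine sum_le_hasSum _ (fun n _ => ?_) (z1_hasSum_int m)
  exact mul_nonneg (mul_nonneg (z1_b_nonneg n) (pow_nonneg (z1_r_nonneg m) n)) (hI n)

end Pool.Agent.LibM3
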