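import Pool.Agent.LibM3.ZDefs

/-! Third moment, block Z2: numerical bound for the constant. -/

set_option autoImplicit false

namespace Pool.Agent.LibM3

open MeasureTheory Set Filter Topology Complex ProbabilityTheory
open scoped NNReal ComplexConjugate
open Pool.Agent.LibZM

theorem z2a_aux {y : ℝ} (h0 : 0 < y) (h1 : y < Real.pi / 2) :
    y * Real.cos y ≤ (1 - y^2/3) * Real.sin y := by
  have hd : ∀ x : ℝ, HasDerivAt (fun y : ℝ => (1 - y^2/3) * Real.sin y - y * Real.cos y)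
      ((x/3) * (Real.sin x - x * Real.cos x)) x := by
    intro x
    have d2 : HasDerivAt (fun u : ℝ => u^2) (2 * x) x := by simpa using hasDerivAt_pow 2 x
    refine ((((hasDerivAt_const x (1:ℝ)).sub (d2.div_const 3)).mul (Real.hasDerivAt_sin x)).sub
      ((hasDerivAt_id x).mul (Real.hasDerivAt_cos x))).congr_deriv ?_
    simp only [Pi.sub_apply, id]
    ring
  have hm : MonotoneOn (fun y : ℝ => (1 - y^2/3) * Real.sin y - y * Real.cos y) (Icc 0 (Real.pi/2)) := by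
    apply monotoneOn_of_deriv_nonneg (convex_Icc _ _)
    · exact fun x _ => (hd x).continuousAt.continuousWithinAt
    · exact fun x _ => (hd x).differentiableAt.differentiableWithinAt
    · intro x hx
      rw [interior_Icc] at hx
      rw [(hd x).deriv]
      have hc : 0 < Real.cos x := Real.cos_pos_of_mem_Ioo ⟨by linarith [hx.1], hx.2⟩
      have ht := Real.lt_tan hx.1 hx.2
      rw [Real.tan_eq_sin_div_cos, lt_div_iff₀ hc] at ht
      have : 0 ≤ x / 3 := by linarith [hx.1]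
      apply mul_nonneg this
      linarith
  have := hm (left_mem_Icc.2 (by positivity)) ⟨h0.le, h1.le⟩ h0.le
  simp at this
  linarith

theorem Kc_le {x : ℝ} (hx : 0 < |x|) (hx2 : |x| < 1/2) :
    Kc x ≤ 1/2 + (1 / Real.pi) * (-Real.log (Real.pi * |x|) - (Real.pi * x) ^ 2 / 3) := by
  have hpi := Real.pi_pos
  have e : |Real.cos (Real.pi * x) / Real.sin (Real.pi * x)| = Real.cos (Real.pi * |x|) / Real.sin (Real.pi * |x|) := by
    have h0 : 0 < Real.pi * |x| := by positivity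
    have h1 : Real.pi * |x| < Real.pi / 2 := by nlinarith
    have hc : 0 < Real.cos (Real.pi * |x|) := Real.cos_pos_of_mem_Ioo ⟨by linarith, h1⟩
    have hs : 0 < Real.sin (Real.pi * |x|) := Real.sin_pos_of_pos_of_lt_pi h0 (by linarith)
    rcases abs_cases x with ⟨hx', _⟩ | ⟨hx', _⟩
    · rw [hx'] at hc hs ⊢
      exact abs_of_pos (div_pos hc hs)
    · rw [hx'] at hc hs ⊢
      have : Real.cos (Real.pi * x) / Real.sin (Real.pi * x) =
          - (Real.cos (Real.pi * -x) / Real.sin (Real.pi * -x)) := by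
        rw [mul_neg, Real.cos_neg, Real.sin_neg]; field_simp
      rw [this, abs_neg]
      exact abs_of_pos (div_pos hc hs)
  have e2 : (Real.pi * x) ^ 2 = (Real.pi * |x|) ^ 2 := by rw [mul_pow, mul_pow, sq_abs]
  unfold Kc
  rw [e, e2]
  have h0 : 0 < Real.pi * |x| := by positivity
  have h1 : Real.pi * |x| < Real.pi / 2 := by nlinarith
  set y := Real.pi * |x| with hy
  have hc : 0 < Real.cos y := Real.cos_pos_of_mem_Ioo ⟨by linarith, h1⟩
  have hs : 0 < Real.sin y := Real.sin_pos_of_pos_of_lt_pi h0 (by linarith)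
  have key := z2a_aux h0 h1
  have hpos : 0 < 1 - y^2/3 := by
    by_contra hcon
    push Not at hcon
    have : (1 - y^2/3) * Real.sin y ≤ 0 := mul_nonpos_of_nonpos_of_nonneg hcon hs.le
    have : 0 < y * Real.cos y := by positivity
    linarith
  have h3 : Real.log (Real.cos y / Real.sin y) ≤ - Real.log y - y^2/3 := by
    have h4 : Real.cos y / Real.sin y ≤ (1 - y^2/3) / y := by
      rw [div_le_div_iff₀ hs h0]; linarith
    have h5 := Real.log_le_log (by positivity) h4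
    rw [Real.log_div hpos.ne' h0.ne'] at h5
    have h6 := Real.log_le_sub_one_of_pos hpos
    linarith
  have h7 : 0 ≤ 1 / Real.pi := by positivity
  have := mul_le_mul_of_nonneg_left h3 h7
  linarith


theorem z2b_int_eq {g G : ℝ → ℝ} {a b : ℝ} (hab : a ≤ b)
    (hc : ContinuousOn G (Icc a b)) (hd : ∀ x ∈ Ioo a b, HasDerivAt G (g x) x)
    (h0 : ∀ x ∈ Ioo a b, 0 ≤ g x) :
    IntervalIntegrable g volume a b ∧ ∫ x in a..b, g x = G b - G a := by
  have hi : IntegrableOn g (Ioc a b) := intervalIntegral.integrableOn_deriv_of_nonneg hc hd h0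
  have hi2 : IntervalIntegrable g volume a b := (intervalIntegrable_iff_integrableOn_Ioc_of_le hab).2 hi
  refine ⟨hi2, ?_⟩
  exact intervalIntegral.integral_eq_sub_of_hasDerivAt_of_le hab hc hd hi2

theorem z2b_int_le {f g G : ℝ → ℝ} {a c b : ℝ} (hac : a ≤ c) (hcb : c ≤ b)
    (hc : ContinuousOn G (Icc a b)) (hd : ∀ x ∈ Ioo a b, x ≠ c → HasDerivAt G (g x) x)
    (h0 : ∀ x ∈ Ioo a b, x ≠ c → 0 ≤ g x) (h : ∀ x ∈ Ioo a b, x ≠ c → f x ≤ g x) :
    ∫ x in a..b, f x ≤ G b - G a := by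
  have hab : a ≤ b := hac.trans hcb
  obtain ⟨i1, e1⟩ := z2b_int_eq (g := g) (G := G) hac (hc.mono (Icc_subset_Icc le_rfl hcb))
    (fun x hx => hd x ⟨hx.1, hx.2.trans_le hcb⟩ hx.2.ne) (fun x hx => h0 x ⟨hx.1, hx.2.trans_le hcb⟩ hx.2.ne)
  obtain ⟨i2, e2⟩ := z2b_int_eq (g := g) (G := G) hcb (hc.mono (Icc_subset_Icc hac le_rfl))
    (fun x hx => hd x ⟨hac.trans_lt hx.1, hx.2⟩ hx.1.ne') (fun x hx => h0 x ⟨hac.trans_lt hx.1, hx.2⟩ hx.1.ne')
  have ig : IntervalIntegrable g volume a b := i1.trans i2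
  have eg : ∫ x in a..b, g x = G b - G a := by
    rw [← intervalIntegral.integral_add_adjacent_intervals i1 i2, e1, e2]; ring
  rw [← eg]
  have hae : ∀ᵐ x ∂(volume.restrict (Icc a b)), x ≠ a ∧ x ≠ b ∧ x ≠ c := by
    apply ae_restrict_of_ae
    have h1 : ∀ y : ℝ, ∀ᵐ x ∂(volume : Measure ℝ), x ≠ y := fun y => by
      have : (volume : Measure ℝ) {y} = 0 := by simp
      simpa [ae_iff] using this
    filter_upwards [h1 a, h1 b, h1 c] with x ha hb hc
    exact ⟨ha, hb, hc⟩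
  have hmem : ∀ᵐ x ∂(volume.restrict (Icc a b)), x ∈ Icc a b := ae_restrict_mem measurableSet_Icc
  by_cases hf : IntervalIntegrable f volume a b
  · apply intervalIntegral.integral_mono_ae_restrict hab hf ig
    filter_upwards [hae, hmem] with x hx hm
    exact h x ⟨lt_of_le_of_ne hm.1 (Ne.symm hx.1), lt_of_le_of_ne hm.2 hx.2.1⟩ hx.2.2
  · rw [intervalIntegral.integral_undef hf]
    apply intervalIntegral.integral_nonneg_of_ae_restrict hab
    filter_upwards [hae, hmem] with x hx hm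
    exact h0 x ⟨lt_of_le_of_ne hm.1 (Ne.symm hx.1), lt_of_le_of_ne hm.2 hx.2.1⟩ hx.2.2

/-- The majorant of the kernel. -/
noncomputable def z2b_U (x : ℝ) : ℝ :=
  (1/2 - Real.log Real.pi / Real.pi) - (1 / Real.pi) * Real.log x - (Real.pi / 3) * x ^ 2

theorem z2b_Kc_le {x : ℝ} (hx : x ≠ 0) (hx2 : |x| < 1/2) : Kc x ≤ z2b_U x := by
  have h := Kc_le (abs_pos.2 hx) hx2
  rw [Real.log_mul Real.pi_ne_zero (abs_pos.2 hx).ne', Real.log_abs] at h
  have hpi := Real.pi_ne_zero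
  refine h.trans (le_of_eq ?_)
  unfold z2b_U
  field_simp
  ring

theorem z2b_U_nonneg {x : ℝ} (hx : x ≠ 0) (hx2 : |x| ≤ 1/2) : 0 ≤ z2b_U x := by
  have hpi := Real.pi_pos
  have h1 : Real.log x ≤ - Real.log 2 := by
    rw [← Real.log_abs, ← Real.log_inv]
    apply Real.log_le_log (abs_pos.2 hx)
    norm_num; linarith
  have h2 : Real.log Real.pi ≤ 2 * Real.log 2 := by
    have : Real.log Real.pi ≤ Real.log (2 ^ 2) := Real.log_le_log hpi (by linarith [Real.pi_le_four])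
    rw [Real.log_pow] at this
    simpa using this
  have h3 : x ^ 2 ≤ 1/4 := by
    have := abs_nonneg x
    rw [← sq_abs]; nlinarith
  have h4 := Real.pi_lt_d2
  have h5 := Real.pi_gt_d2
  have h6 := Real.log_two_lt_d9
  have key : 0 ≤ Real.pi * z2b_U x := by
    have e : Real.pi * z2b_U x = Real.pi / 2 - Real.log Real.pi - Real.log x - (Real.pi ^ 2 / 3) * x ^ 2 := by
      unfold z2b_U
      field_simp
    rw [e]
    have h7 : (Real.pi ^ 2 / 3) * x ^ 2 ≤ (Real.pi ^ 2 / 3) * (1/4) := by gcongr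
    nlinarith
  exact nonneg_of_mul_nonneg_right key hpi

noncomputable def z2b_L (x : ℝ) : ℝ := x * Real.log x

theorem z2b_L_deriv {x : ℝ} (hx : x ≠ 0) : HasDerivAt z2b_L (Real.log x + 1) x :=
  Real.hasDerivAt_mul_log hx

theorem z2b_L_cont : Continuous z2b_L := Real.continuous_mul_log

noncomputable def z2b_f0 (a b : ℝ) : ℝ := z2b_L (b + a) + z2b_L (b - a) - 2 * b

noncomputable def z2b_f1 (a b : ℝ) : ℝ :=
  (1/3) * ((b^2 + a*b + a^2) * z2b_L (b - a) + (b^2 - a*b + a^2) * z2b_L (b + a)) - (2/9) * b^3 - (2/3) * a^2 * b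

noncomputable def z2b_q (a b : ℝ) : ℝ :=
  (1 - a^2) * (a^4 * b - (2/3) * a^2 * b^3 + b^5 / 5) - (a^4 * b^3 / 3 - (2/5) * a^2 * b^5 + b^7 / 7)

noncomputable def z2b_P (a b : ℝ) : ℝ :=
  2 * ((1/2 - Real.log Real.pi / Real.pi) * ((1 - a^2) * b - b^3 / 3)
    - (1 / Real.pi) * ((1 - a^2) * z2b_f0 a b - z2b_f1 a b) - (Real.pi / 3) * z2b_q a b)

theorem z2b_f0_deriv {a b : ℝ} (h1 : b + a ≠ 0) (h2 : b - a ≠ 0) :
    HasDerivAt (z2b_f0 a) (Real.log (b + a) + Real.log (b - a)) b := by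
  have e1 : HasDerivAt (fun b => z2b_L (b + a)) (Real.log (b + a) + 1) b :=
    HasDerivAt.comp_add_const (f := z2b_L) b a (z2b_L_deriv h1)
  have e2 : HasDerivAt (fun b => z2b_L (b - a)) (Real.log (b - a) + 1) b :=
    HasDerivAt.comp_sub_const (f := z2b_L) b a (z2b_L_deriv h2)
  have e3 : HasDerivAt (fun b : ℝ => 2 * b) (2 * 1) b := (hasDerivAt_id b).const_mul 2
  refine ((e1.add e2).sub e3).congr_deriv ?_
  ring

theorem z2b_f1_deriv {a b : ℝ} (h1 : b + a ≠ 0) (h2 : b - a ≠ 0) :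
    HasDerivAt (z2b_f1 a) (b ^ 2 * (Real.log (b + a) + Real.log (b - a))) b := by
  have e1 : HasDerivAt (fun b => z2b_L (b + a)) (Real.log (b + a) + 1) b :=
    HasDerivAt.comp_add_const (f := z2b_L) b a (z2b_L_deriv h1)
  have e2 : HasDerivAt (fun b => z2b_L (b - a)) (Real.log (b - a) + 1) b :=
    HasDerivAt.comp_sub_const (f := z2b_L) b a (z2b_L_deriv h2)
  have p1 : HasDerivAt (fun b : ℝ => b^2 + a*b + a^2) (2 * b + a) b := by
    have := ((hasDerivAt_pow 2 b).add ((hasDerivAt_id b).const_mul a)).add_const (a^2)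
    refine this.congr_deriv ?_
    norm_num
  have p2 : HasDerivAt (fun b : ℝ => b^2 - a*b + a^2) (2 * b - a) b := by
    have := ((hasDerivAt_pow 2 b).sub ((hasDerivAt_id b).const_mul a)).add_const (a^2)
    refine this.congr_deriv ?_
    norm_num
  have p3 : HasDerivAt (fun b : ℝ => (2/9) * b^3) ((2/9) * (3 * b^2)) b := by
    have := (hasDerivAt_pow 3 b).const_mul (2/9:ℝ)
    refine this.congr_deriv ?_
    norm_num
  have p4 : HasDerivAt (fun b : ℝ => (2/3) * a^2 * b) ((2/3) * a^2 * 1) b := (hasDerivAt_id b).const_mul _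
  refine (((((p1.mul e2).add (p2.mul e1)).const_mul (1/3)).sub p3).sub p4).congr_deriv ?_
  unfold z2b_L
  ring

theorem z2b_q_deriv (a b : ℝ) :
    HasDerivAt (z2b_q a) ((1 - a^2 - b^2) * (a^2 - b^2)^2) b := by
  have d1 : HasDerivAt (fun b : ℝ => b) 1 b := hasDerivAt_id b
  have d3 : HasDerivAt (fun b : ℝ => b^3) (3 * b^2) b := by simpa using hasDerivAt_pow 3 b
  have d5 : HasDerivAt (fun b : ℝ => b^5) (5 * b^4) b := by simpa using hasDerivAt_pow 5 b
  have d7 : HasDerivAt (fun b : ℝ => b^7) (7 * b^6) b := by simpa using hasDerivAt_pow 7 b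
  refine (((((d1.const_mul (a^4)).sub (d3.const_mul ((2/3) * a^2))).add (d5.div_const 5)).const_mul (1 - a^2)).sub
    ((((d3.const_mul (a^4)).div_const 3).sub (d5.const_mul ((2/5) * a^2))).add (d7.div_const 7))).congr_deriv ?_
  ring

theorem z2b_P_deriv {a b : ℝ} (ha : 0 < a) (hb : 0 < b) (hab : b ≠ a) :
    HasDerivAt (z2b_P a) (2 * (1 - a^2 - b^2) * z2b_U (a^2 - b^2)) b := by
  have h1 : b + a ≠ 0 := by positivity
  have h2 : b - a ≠ 0 := sub_ne_zero.2 hab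
  have d1 : HasDerivAt (fun b : ℝ => (1 - a^2) * b - b^3/3) ((1 - a^2) * 1 - 3 * b^2 / 3) b :=
    ((hasDerivAt_id b).const_mul (1 - a^2)).sub ((by simpa using hasDerivAt_pow 3 b : HasDerivAt (fun b : ℝ => b^3) (3 * b^2) b).div_const 3)
  have e : Real.log (a^2 - b^2) = Real.log (b + a) + Real.log (b - a) := by
    rw [← Real.log_mul h1 h2, ← Real.log_neg_eq_log]
    congr 1; ring
  refine ((((d1.const_mul (1/2 - Real.log Real.pi / Real.pi)).sub
    ((((z2b_f0_deriv h1 h2).const_mul (1 - a^2)).sub (z2b_f1_deriv h1 h2)).const_mul (1 / Real.pi))).sub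
    ((z2b_q_deriv a b).const_mul (Real.pi / 3))).const_mul 2).congr_deriv ?_
  unfold z2b_U
  rw [e]
  ring

theorem z2b_P_cont (a : ℝ) : Continuous (z2b_P a) := by
  have h := z2b_L_cont
  unfold z2b_P z2b_f0 z2b_f1 z2b_q
  fun_prop

theorem z2b_P_zero (a : ℝ) : z2b_P a 0 = 0 := by
  unfold z2b_P z2b_f0 z2b_f1 z2b_q z2b_L
  simp

/-- The general inner inequality. -/
theorem z2b_inner_gen {m r : ℝ} (hr : 0 < r) (hrm : r < m) (hm : m < 1/2) (f : ℝ → ℝ)
    (hf : ∀ x ∈ Ioo 0 m, x ≠ r → f x ≤ (1 / √r) * (1 / √x) * ((1 - r - x) * z2b_U (r - x))) :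
    ∫ x in (0:ℝ)..m, f x ≤ (1 / √r) * z2b_P (√r) (√m) := by
  have hsr : 0 < √r := Real.sqrt_pos.2 hr
  have key := z2b_int_le (f := f) (g := fun x => (1 / √r) * (1 / √x) * ((1 - r - x) * z2b_U (r - x)))
    (G := fun x => (1 / √r) * z2b_P (√r) (√x)) (a := 0) (c := r) (b := m) hr.le hrm.le
    ((continuous_const.mul ((z2b_P_cont _).comp Real.continuous_sqrt)).continuousOn)
    (fun x hx hxr => by
      have hx0 : 0 < x := hx.1
      have hsx : 0 < √x := Real.sqrt_pos.2 hx0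
      have hne : √x ≠ √r := fun h => hxr ((Real.sqrt_inj hx0.le hr.le).1 h)
      have d := (z2b_P_deriv hsr hsx hne).comp x (Real.hasDerivAt_sqrt hx0.ne')
      refine (d.const_mul (1 / √r)).congr_deriv ?_
      rw [Real.sq_sqrt hr.le, Real.sq_sqrt hx0.le]
      field_simp)
    (fun x hx hxr => by
      have hsx : 0 < √x := Real.sqrt_pos.2 hx.1
      have h1 : 0 ≤ 1 - r - x := by linarith [hx.2]
      have h2 : 0 ≤ z2b_U (r - x) := z2b_U_nonneg (sub_ne_zero.2 (Ne.symm hxr))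
        (abs_le.2 ⟨by linarith [hx.2], by linarith [hx.1]⟩)
      positivity)
    hf
  simpa [z2b_P_zero] using key

theorem z2b_inner {m r : ℝ} (hr : 0 < r) (hrm : r < m) (hm : m < 1/2) :
    ∫ r' in (0:ℝ)..m, (r * r') ^ (-(1/2) : ℝ) * Kc (r - r') * (1 - r - r') ≤ (1 / √r) * z2b_P (√r) (√m) := by
  apply z2b_inner_gen hr hrm hm
  intro x hx hxr
  have h1 : 0 ≤ 1 - r - x := by linarith [hx.2]
  have h2 : Kc (r - x) ≤ z2b_U (r - x) := z2b_Kc_le (sub_ne_zero.2 (Ne.symm hxr))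
    (abs_lt.2 ⟨by linarith [hx.2], by linarith [hx.1]⟩)
  have e : (r * x) ^ (-(1/2) : ℝ) = (1 / √r) * (1 / √x) := by
    rw [Real.rpow_neg (mul_nonneg hr.le hx.1.le), ← Real.sqrt_eq_rpow, Real.sqrt_mul hr.le]
    field_simp
  rw [e]
  have h3 : 0 ≤ (1 / √r) * (1 / √x) := by positivity
  calc (1 / √r) * (1 / √x) * Kc (r - x) * (1 - r - x) = (1 / √r) * (1 / √x) * ((1 - r - x) * Kc (r - x)) := by ring
    _ ≤ _ := by gcongr

theorem z2b_P_nonneg {m r : ℝ} (hr : 0 < r) (hrm : r < m) (hm : m < 1/2) : 0 ≤ (1 / √r) * z2b_P (√r) (√m) := by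
  have := z2b_inner_gen hr hrm hm (fun _ => 0) (fun x hx hxr => by
      have hsx : 0 < √x := Real.sqrt_pos.2 hx.1
      have h1 : 0 ≤ 1 - r - x := by linarith [hx.2]
      have h2 : 0 ≤ z2b_U (r - x) := z2b_U_nonneg (sub_ne_zero.2 (Ne.symm hxr))
        (abs_le.2 ⟨by linarith [hx.2], by linarith [hx.1]⟩)
      have hsr : 0 < √r := Real.sqrt_pos.2 hr
      positivity)
  simpa using this

noncomputable def z2b_Lam (M u : ℝ) : ℝ :=
  (-(u^3) / 3 + M * u^2 + (1 - 2 * M^2) * u / 2) * z2b_L u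
    - (-(u^4) / 12 + M * u^3 / 3 + (1 - 2 * M^2) * u^2 / 4)

theorem z2b_Lam_cont (M : ℝ) : Continuous (z2b_Lam M) := by
  have h := z2b_L_cont
  unfold z2b_Lam
  fun_prop

theorem z2b_Lam_deriv (M : ℝ) {u : ℝ} (hu : u ≠ 0) :
    HasDerivAt (z2b_Lam M) ((-(4/3) * u^3 + 3 * M * u^2 + (1 - 2 * M^2) * u) * Real.log u) u := by
  have d1 : HasDerivAt (fun u : ℝ => u) 1 u := hasDerivAt_id u
  have d2 : HasDerivAt (fun u : ℝ => u^2) (2 * u) u := by simpa using hasDerivAt_pow 2 u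
  have d3 : HasDerivAt (fun u : ℝ => u^3) (3 * u^2) u := by simpa using hasDerivAt_pow 3 u
  have d4 : HasDerivAt (fun u : ℝ => u^4) (4 * u^3) u := by simpa using hasDerivAt_pow 4 u
  have hl := z2b_L_deriv hu
  have := (((((d3.fun_neg).div_const 3).add (d2.const_mul M)).add ((d1.const_mul (1 - 2 * M^2)).div_const 2)).mul hl).sub
    ((((d4.fun_neg).div_const 12).add ((d3.const_mul M).div_const 3)).add ((d2.const_mul (1 - 2 * M^2)).div_const 4))
  refine this.congr_deriv ?_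
  simp only [Pi.add_apply]
  unfold z2b_L
  ring

noncomputable def z2b_Q (M a : ℝ) : ℝ :=
  (M^5/5 - M^7/7) * a + (-(2/3) * M^3 + M^5/5) * a^3 / 3 + (M + M^3/3) * a^5 / 5 - M * a^7 / 7

theorem z2b_Q_deriv (M a : ℝ) : HasDerivAt (z2b_Q M) (z2b_q a M) a := by
  have d1 : HasDerivAt (fun b : ℝ => b) 1 a := hasDerivAt_id a
  have d3 : HasDerivAt (fun b : ℝ => b^3) (3 * a^2) a := by simpa using hasDerivAt_pow 3 a
  have d5 : HasDerivAt (fun b : ℝ => b^5) (5 * a^4) a := by simpa using hasDerivAt_pow 5 a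
  have d7 : HasDerivAt (fun b : ℝ => b^7) (7 * a^6) a := by simpa using hasDerivAt_pow 7 a
  have := ((((d1.const_mul (M^5/5 - M^7/7)).add ((d3.const_mul (-(2/3) * M^3 + M^5/5)).div_const 3)).add
    ((d5.const_mul (M + M^3/3)).div_const 5)).sub ((d7.const_mul M).div_const 7))
  refine this.congr_deriv ?_
  unfold z2b_q
  ring

noncomputable def z2b_T (M a : ℝ) : ℝ :=
  4 * ((1/2 - Real.log Real.pi / Real.pi) * ((M - M^3/3) * a - M * a^3 / 3)
    - (1 / Real.pi) * (z2b_Lam M (M + a) - z2b_Lam M (M - a) - 2 * M * a + (8/9) * M * a^3 + (2/9) * M^3 * a)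
    - (Real.pi / 3) * z2b_Q M a)

theorem z2b_T_deriv {M a : ℝ} (ha : 0 < a) (haM : a < M) :
    HasDerivAt (z2b_T M) (2 * z2b_P a M) a := by
  have h1 : M + a ≠ 0 := by linarith
  have h2 : M - a ≠ 0 := (sub_pos.2 haM).ne'
  have d1 : HasDerivAt (fun b : ℝ => b) 1 a := hasDerivAt_id a
  have d3 : HasDerivAt (fun b : ℝ => b^3) (3 * a^2) a := by simpa using hasDerivAt_pow 3 a
  have l1 := HasDerivAt.comp_const_add (f := z2b_Lam M) M a (z2b_Lam_deriv M h1)
  have l2 := HasDerivAt.comp_const_sub (f := z2b_Lam M) M a (z2b_Lam_deriv M h2)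
  have := (((((d1.const_mul (M - M^3/3)).sub ((d3.const_mul M).div_const 3)).const_mul (1/2 - Real.log Real.pi / Real.pi)).sub
    (((((l1.sub l2).sub (d1.const_mul (2 * M))).add (d3.const_mul ((8/9) * M))).add (d1.const_mul ((2/9) * M^3))).const_mul (1 / Real.pi))).sub
    ((z2b_Q_deriv M a).const_mul (Real.pi / 3))).const_mul 4
  refine this.congr_deriv ?_
  unfold z2b_P z2b_f0 z2b_f1 z2b_L
  ring

theorem z2b_T_cont (M : ℝ) : Continuous (z2b_T M) := by
  have h := z2b_Lam_cont M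
  unfold z2b_T z2b_Q
  fun_prop

theorem z2b_T_zero (M : ℝ) : z2b_T M 0 = 0 := by
  unfold z2b_T z2b_Q
  simp

/-- The majorant of the double integral. -/
noncomputable def z2b_I (m : ℝ) : ℝ :=
  (1/2 - Real.log Real.pi / Real.pi) * (4 * m - (8/3) * m^2)
    + (1 / Real.pi) * ((12 - 8 * Real.log 2) * m - (64/9 - (16/3) * Real.log 2) * m^2
      - (4 * m - (8/3) * m^2) * Real.log m)
    - (Real.pi / 3) * ((32/45) * m^3 - (64/105) * m^4)

theorem z2b_T_diag {m : ℝ} (hm : 0 < m) : z2b_T (√m) (√m) = z2b_I m := by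
  have hs : 0 < √m := Real.sqrt_pos.2 hm
  have e : Real.log (√m + √m) = Real.log 2 + Real.log m / 2 := by
    rw [← two_mul, Real.log_mul two_ne_zero hs.ne', Real.log_sqrt hm.le]
  have hL : z2b_Lam (√m) (√m - √m) = 0 := by
    unfold z2b_Lam z2b_L; simp
  unfold z2b_T
  rw [hL]
  unfold z2b_Lam z2b_L
  rw [e]
  unfold z2b_I z2b_Q
  have e2 : m = (√m)^2 := (Real.sq_sqrt hm.le).symm
  generalize √m = M at *
  generalize Real.log m = l at *
  subst e2
  ring

theorem z2b_outer_gen {m : ℝ} (hm0 : 0 < m) (hm : m < 1/2) (f : ℝ → ℝ)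
    (hf : ∀ r ∈ Ioo 0 m, f r ≤ (1 / √r) * z2b_P (√r) (√m)) :
    ∫ r in (0:ℝ)..m, f r ≤ z2b_I m := by
  have key := z2b_int_le (f := f) (g := fun r => (1 / √r) * z2b_P (√r) (√m))
    (G := fun r => z2b_T (√m) (√r)) (a := 0) (c := 0) (b := m) le_rfl hm0.le
    (((z2b_T_cont _).comp Real.continuous_sqrt).continuousOn)
    (fun r hr _ => by
      have hr0 : 0 < r := hr.1
      have hsr : 0 < √r := Real.sqrt_pos.2 hr0
      have d := (z2b_T_deriv hsr (Real.sqrt_lt_sqrt hr0.le hr.2)).comp r (Real.hasDerivAt_sqrt hr0.ne')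
      refine d.congr_deriv ?_
      field_simp)
    (fun r hr _ => z2b_P_nonneg hr.1 hr.2 hm)
    (fun r hr _ => hf r hr)
  simpa [z2b_T_zero, z2b_T_diag hm0] using key

theorem z2b_outer {m : ℝ} (hm0 : 0 < m) (hm : m < 1/2) :
    ∫ r in (0:ℝ)..m, ∫ r' in (0:ℝ)..m, (r * r') ^ (-(1/2) : ℝ) * Kc (r - r') * (1 - r - r') ≤ z2b_I m :=
  z2b_outer_gen hm0 hm _ (fun _ hr => z2b_inner hr.1 hr.2 hm)

theorem z2b_I_nonneg {m : ℝ} (hm0 : 0 < m) (hm : m < 1/2) : 0 ≤ z2b_I m := by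
  have := z2b_outer_gen hm0 hm (fun _ => 0) (fun r hr => z2b_P_nonneg hr.1 hr.2 hm)
  simpa using this

/-- Coefficients of the polynomial majorant. -/
noncomputable def z2b_p0 : ℝ := (1 / Real.pi) * (4 * 0.3679)
noncomputable def z2b_p1 : ℝ := (1/2 - Real.log Real.pi / Real.pi) * 4 + (1 / Real.pi) * (12 - 8 * Real.log 2 - (8/3) * 0.3679)
noncomputable def z2b_p2 : ℝ := -((1/2 - Real.log Real.pi / Real.pi) * (8/3)) - (1 / Real.pi) * (64/9 - (16/3) * Real.log 2)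
noncomputable def z2b_p3 : ℝ := -(Real.pi / 3 * (32/45))
noncomputable def z2b_p4 : ℝ := Real.pi / 3 * (64/105)

theorem z2b_neg_log_le {m : ℝ} (hm : 0 < m) : - Real.log m ≤ 0.3679 / m := by
  have h1 : Real.log (Real.exp (-1) / m) ≤ Real.exp (-1) / m - 1 :=
    Real.log_le_sub_one_of_pos (by positivity)
  rw [Real.log_div (Real.exp_ne_zero _) hm.ne', Real.log_exp] at h1
  have h2 : Real.exp (-1) ≤ 0.3679 := by
    rw [Real.exp_neg]
    have := Real.exp_one_gt_d9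
    rw [inv_le_comm₀ (Real.exp_pos 1) (by norm_num)]
    norm_num
    linarith
  have h3 : Real.exp (-1) / m ≤ 0.3679 / m := by gcongr
  linarith

theorem z2b_I_le {m : ℝ} (hm0 : 0 < m) (hm : m < 1/2) :
    z2b_I m ≤ z2b_p0 + z2b_p1 * m + z2b_p2 * m^2 + z2b_p3 * m^3 + z2b_p4 * m^4 := by
  have h := z2b_neg_log_le hm0
  have hc : 0 ≤ 4 * m - (8/3) * m^2 := by nlinarith
  have h1 : (4 * m - (8/3) * m^2) * (- Real.log m) ≤ (4 * m - (8/3) * m^2) * (0.3679 / m) :=
    mul_le_mul_of_nonneg_left h hc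
  have h2 : (4 * m - (8/3) * m^2) * (0.3679 / m) = 4 * 0.3679 - (8/3) * 0.3679 * m := by
    field_simp
  rw [h2] at h1
  have hpi : 0 ≤ 1 / Real.pi := by positivity
  have h3 := mul_le_mul_of_nonneg_left h1 hpi
  unfold z2b_I z2b_p0 z2b_p1 z2b_p2 z2b_p3 z2b_p4
  nlinarith

noncomputable def z2b_R (v : ℝ) : ℝ :=
  z2b_p0 * 4 + z2b_p1 * (2 - (4/5) * v) + z2b_p2 * (1 - (4/5) * v + (4/9) * v^2)
    + z2b_p3 * (1/2 - (3/5) * v + (2/3) * v^2 - (4/13) * v^3)
    + z2b_p4 * (1/4 - (2/5) * v + (2/3) * v^2 - (8/13) * v^3 + (4/17) * v^4)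

noncomputable def z2b_R' (v : ℝ) : ℝ :=
  z2b_p1 * (- (4/5)) + z2b_p2 * (- (4/5) + (4/9) * (2 * v))
    + z2b_p3 * (- (3/5) + (2/3) * (2 * v) - (4/13) * (3 * v^2))
    + z2b_p4 * (- (2/5) + (2/3) * (2 * v) - (8/13) * (3 * v^2) + (4/17) * (4 * v^3))

theorem z2b_R_deriv (v : ℝ) : HasDerivAt z2b_R (z2b_R' v) v := by
  have d1 : HasDerivAt (fun u : ℝ => u) 1 v := hasDerivAt_id v
  have d2 : HasDerivAt (fun u : ℝ => u^2) (2 * v) v := by simpa using hasDerivAt_pow 2 v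
  have d3 : HasDerivAt (fun u : ℝ => u^3) (3 * v^2) v := by simpa using hasDerivAt_pow 3 v
  have d4 : HasDerivAt (fun u : ℝ => u^4) (4 * v^3) v := by simpa using hasDerivAt_pow 4 v
  have c : ∀ x : ℝ, HasDerivAt (fun _ : ℝ => x) 0 v := fun x => hasDerivAt_const v x
  have := ((((c (z2b_p0 * 4)).add (((c 2).sub (d1.const_mul (4/5))).const_mul z2b_p1)).add
    ((((c 1).sub (d1.const_mul (4/5))).add (d2.const_mul (4/9))).const_mul z2b_p2)).add
    (((((c (1/2)).sub (d1.const_mul (3/5))).add (d2.const_mul (2/3))).sub (d3.const_mul (4/13))).const_mul z2b_p3)).add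
    ((((((c (1/4)).sub (d1.const_mul (2/5))).add (d2.const_mul (2/3))).sub (d3.const_mul (8/13))).add (d4.const_mul (4/17))).const_mul z2b_p4)
  refine this.congr_deriv ?_
  unfold z2b_R'
  ring

theorem z2b_total : (∫ v in (0:ℝ)..(1/2), v ^ (-(3/4) : ℝ) *
    ∫ r in (0:ℝ)..(1/2 - v), ∫ r' in (0:ℝ)..(1/2 - v), (r * r') ^ (-(1/2) : ℝ) * Kc (r - r') * (1 - r - r'))
      ≤ (1/2 : ℝ) ^ (1/4 : ℝ) * z2b_R (1/2) := by
  have key := z2b_int_le (a := 0) (c := 0) (b := 1/2) (f := fun v => v ^ (-(3/4) : ℝ) *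
    ∫ r in (0:ℝ)..(1/2 - v), ∫ r' in (0:ℝ)..(1/2 - v), (r * r') ^ (-(1/2) : ℝ) * Kc (r - r') * (1 - r - r'))
    (g := fun v => v ^ (-(3/4) : ℝ) * (z2b_p0 + z2b_p1 * (1/2 - v) + z2b_p2 * (1/2 - v)^2 + z2b_p3 * (1/2 - v)^3
      + z2b_p4 * (1/2 - v)^4))
    (G := fun v => v ^ (1/4 : ℝ) * z2b_R v) le_rfl (by norm_num)
    (by
      have h1 : Continuous (fun v : ℝ => v ^ (1/4 : ℝ)) := Real.continuous_rpow_const (by norm_num)
      have h2 : Continuous z2b_R := by unfold z2b_R; fun_prop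
      exact (h1.mul h2).continuousOn)
    (fun v hv _ => by
      have hv0 : 0 < v := hv.1
      have d1 : HasDerivAt (fun v : ℝ => v ^ (1/4 : ℝ)) ((1/4) * v ^ ((1/4 : ℝ) - 1)) v :=
        Real.hasDerivAt_rpow_const (Or.inl hv0.ne')
      refine (d1.mul (z2b_R_deriv v)).congr_deriv ?_
      have e1 : v ^ ((1/4 : ℝ) - 1) = v ^ (-(3/4) : ℝ) := by norm_num
      have e2 : v ^ (1/4 : ℝ) = v * v ^ (-(3/4) : ℝ) := by
        nth_rewrite 2 [← Real.rpow_one v]
        rw [← Real.rpow_add hv0]; norm_num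
      rw [e1, e2]
      unfold z2b_R z2b_R'
      ring)
    (fun v hv _ => by
      have hv0 : 0 < v := hv.1
      have h1 : 0 < 1/2 - v := by linarith [hv.2]
      have h2 : 1/2 - v < 1/2 := by linarith
      have h3 := z2b_I_nonneg h1 h2
      have h4 := z2b_I_le h1 h2
      exact mul_nonneg (Real.rpow_nonneg hv0.le _) (h3.trans h4))
    (fun v hv _ => by
      have hv0 : 0 < v := hv.1
      have h1 : 0 < 1/2 - v := by linarith [hv.2]
      have h2 : 1/2 - v < 1/2 := by linarith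
      exact mul_le_mul_of_nonneg_left ((z2b_outer h1 h2).trans (z2b_I_le h1 h2)) (Real.rpow_nonneg hv0.le _))
  refine key.trans (le_of_eq ?_)
  have : (0:ℝ) ^ (1/4 : ℝ) = 0 := Real.zero_rpow (by norm_num)
  simp only [this, zero_mul, sub_zero]

theorem z2b_log_pi : (8/7 : ℝ) ≤ Real.log Real.pi := by
  rw [Real.le_log_iff_exp_le Real.pi_pos]
  have h1 : Real.exp (8/7) ^ 7 = Real.exp 1 ^ 8 := by
    rw [← Real.exp_nat_mul, ← Real.exp_nat_mul]; norm_num
  have h2 : Real.exp 1 ^ 8 ≤ 3.14 ^ 7 := by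
    calc Real.exp 1 ^ 8 ≤ 2.7182818286 ^ 8 := by
          have := Real.exp_one_lt_d9
          gcongr
      _ ≤ _ := by norm_num
  have h3 : Real.exp (8/7) ≤ 3.14 := by
    rw [← h1] at h2
    exact (pow_le_pow_iff_left₀ (Real.exp_nonneg _) (by norm_num) (by norm_num)).1 h2
  linarith [Real.pi_gt_d2]

theorem z2b_quarter : (1/2 : ℝ) ^ (1/4 : ℝ) ≤ 0.8409 := by
  have h : ((1/2 : ℝ) ^ (1/4 : ℝ)) ^ 4 ≤ 0.8409 ^ 4 := by
    rw [← Real.rpow_natCast, ← Real.rpow_mul (by norm_num)]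
    norm_num
  exact (pow_le_pow_iff_left₀ (Real.rpow_nonneg (by norm_num) _) (by norm_num) (by norm_num)).1 h

theorem z2b_Gamma_add (n : ℕ) : Real.Gamma ((n:ℝ) + 1/4) = (∏ k ∈ Finset.range n, ((k:ℝ) + 1/4)) * Real.Gamma (1/4) := by
  induction n with
  | zero => simp
  | succ n ih =>
    have h : ((n + 1 : ℕ) : ℝ) + 1/4 = ((n:ℝ) + 1/4) + 1 := by push_cast; ring
    rw [h, Real.Gamma_add_one (by positivity), ih, Finset.prod_range_succ]
    ring

theorem z2b_Gamma_quarter : (361/100 : ℝ) ≤ Real.Gamma (1/4) := by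
  have hfeq : ∀ {y : ℝ}, 0 < y → (Real.log ∘ Real.Gamma) (y + 1) = (Real.log ∘ Real.Gamma) y + Real.log y := by
    intro y hy
    simp only [Function.comp]
    rw [Real.Gamma_add_one hy.ne', Real.log_mul hy.ne' (Real.Gamma_pos_of_pos hy).ne']
    ring
  have h := Real.BohrMollerup.f_add_nat_ge (n := 82) (x := 1/4) Real.convexOn_log_Gamma hfeq (by norm_num) (by norm_num)
  simp only [Function.comp] at h
  have h82 : Real.Gamma ((82:ℕ):ℝ) = ((Nat.factorial 81 : ℕ) : ℝ) := by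
    have := Real.Gamma_nat_eq_factorial 81
    have h2 : ((81:ℕ):ℝ) + 1 = ((82:ℕ):ℝ) := by norm_num
    rw [h2] at this
    exact this
  have hpos : 0 < Real.Gamma (1/4) := Real.Gamma_pos_of_pos (by norm_num)
  rw [h82, z2b_Gamma_add] at h
  have hf0 : (0:ℝ) < ((Nat.factorial 81 : ℕ) : ℝ) := by positivity
  set P := ∏ k ∈ Finset.range 82, ((k:ℝ) + 1/4) with hP
  have hPpos : 0 < P := Finset.prod_pos fun k _ => by positivity
  rw [Real.log_mul hPpos.ne' hpos.ne'] at h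
  have h81 : Real.log (((82:ℕ):ℝ) - 1) = 4 * Real.log 3 := by
    have : (((82:ℕ):ℝ) - 1) = 3 ^ 4 := by norm_num
    rw [this, Real.log_pow]; norm_num
  rw [h81] at h
  have h5 : Real.log (((Nat.factorial 81 : ℕ) : ℝ) * 3 / P) ≤ Real.log (Real.Gamma (1/4)) := by
    rw [Real.log_div (by positivity) hPpos.ne', Real.log_mul (by positivity) (by norm_num)]
    linarith
  have h6 := (Real.log_le_log_iff (by positivity) hpos).mp h5
  refine le_trans ?_ h6
  rw [le_div_iff₀ hPpos, hP]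
  norm_num [Finset.prod_range_succ, Nat.factorial]

theorem CI_le : CI ≤ 324/1000 := by
  have hpi := Real.pi_pos
  have hG0 : 0 < Real.Gamma (1/4) := Real.Gamma_pos_of_pos (by norm_num)
  have hG := z2b_Gamma_quarter
  have hq := z2b_quarter
  have hT := z2b_total
  unfold CI
  have hR : Real.pi * z2b_R (1/2) = (608/135) * (Real.pi / 2 - Real.log Real.pi) + (176/15) * 0.3679 + 96/5 - 2048/405
      - (1216/135) * Real.log 2 - (2048/26325 - 32768/1044225) * Real.pi ^ 2 := by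
    unfold z2b_R z2b_p0 z2b_p1 z2b_p2 z2b_p3 z2b_p4
    field_simp
    ring
  have h1 := z2b_log_pi
  have h2 := Real.log_two_gt_d9
  have h3 := Real.pi_lt_d4
  have h4 := Real.pi_gt_d4
  have h5 : Real.pi * z2b_R (1/2) ≤ 14.1439 - (2048/26325 - 32768/1044225) * Real.pi ^ 2 := by
    rw [hR]
    nlinarith
  have hq0 : 0 ≤ (1/2 : ℝ) ^ (1/4 : ℝ) := Real.rpow_nonneg (by norm_num) _
  have h6 : 9.869 ≤ Real.pi ^ 2 := by nlinarith
  -- the main estimate
  have h7 : z2b_R (1/2) ≤ (14.1439 - (2048/26325 - 32768/1044225) * Real.pi ^ 2) / Real.pi := by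
    rw [le_div_iff₀ hpi]; linarith
  have h8 : (1/2 : ℝ) ^ (1/4 : ℝ) * z2b_R (1/2) ≤ 324/1000 * (Real.pi * (361/100)) := by
    have h9 : (14.1439 - (2048/26325 - 32768/1044225) * Real.pi ^ 2) / Real.pi ≤ 1.3869 * Real.pi := by
      rw [div_le_iff₀ hpi]
      nlinarith
    calc (1/2 : ℝ) ^ (1/4 : ℝ) * z2b_R (1/2) ≤ (1/2 : ℝ) ^ (1/4 : ℝ) * (1.3869 * Real.pi) := by
          exact mul_le_mul_of_nonneg_left (h7.trans h9) hq0
      _ ≤ 0.8409 * (1.3869 * Real.pi) := by gcongr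
      _ ≤ _ := by nlinarith
  rw [one_div, inv_mul_le_iff₀ (by positivity)]
  calc _ ≤ _ := hT
    _ ≤ _ := h8
    _ ≤ Real.pi * Real.Gamma (1/4) * (324/1000) := by nlinarith [mul_le_mul_of_nonneg_left hG hpi.le]

end Pool.Agent.LibM3
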