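import Pool.Agent.LibM3.F1
import Pool.Agent.LibM3.F2
import Pool.Agent.LibM3.L4
import Pool.Agent.LibM3.Z1
import Pool.Agent.LibM3.Z2

/-! Third moment, block F3: the central part of the sum over frequencies. -/

set_option autoImplicit false

namespace Pool.Agent.LibM3

open MeasureTheory Set Filter Topology Complex ProbabilityTheory
open scoped NNReal ComplexConjugate
open Pool.Agent.LibZM

lemma f3_neBot {η : ℝ} (hη1 : η ≤ 1) : (Fl η).NeBot := by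
  rw [neBot_iff]
  intro h
  have h1 : ∀ᶠ p : ℝ × ℝ in Fl η, False := by rw [h]; exact Filter.eventually_bot
  rw [Fl_iff] at h1
  obtain ⟨T, hT, hT0⟩ := (h1.and (eventually_ge_atTop 0)).exists
  exact hT T (by nlinarith) le_rfl

theorem f3_tendsto {η : ℝ} (hη : 0 < η) (j : ℤ) :
    Tendsto (fun p : ℝ × ℝ => Qj p.1 p.2 j / (Real.log p.1) ^ (9/4 : ℝ)) (Fl η) (𝓝 (Aconst (3/2) * qf (2 * Real.pi * j))) := by
  have hlog : Tendsto (fun p : ℝ × ℝ => Real.log p.1) (Fl η) atTop := Real.tendsto_log_atTop.comp (Fl_fst η)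
  obtain ⟨C, hC, hQ⟩ := Qj_eq hη
  have h1 := (main_sum_limit j).comp (Fl_fst η)
  have h2 : Tendsto (fun p : ℝ × ℝ => C * (Real.log p.1) ^ (-(1/8) : ℝ)) (Fl η) (𝓝 0) := by
    have := ((tendsto_rpow_neg_atTop (show (0:ℝ) < 1/8 by norm_num)).comp hlog).const_mul C
    simpa using this
  have h3 : Tendsto (fun p : ℝ × ℝ => Qj p.1 p.2 j / (Real.log p.1) ^ (9/4 : ℝ) - 
      ((fun T : ℝ => (∑ h ∈ Finset.Icc 1 (XN T), ∑ k ∈ Finset.Icc 1 (XN T),
      Real.cos (yj (XN T) j * (Real.log h - Real.log k)) * (gk h k * ell T h k)) / (Real.log T) ^ (9/4 : ℝ)) ∘ Prod.fst) p) (Fl η) (𝓝 0) := by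
    apply squeeze_zero_norm' _ h2
    filter_upwards [hQ, hlog.eventually_ge_atTop 1] with p hp hL
    have hL0 : 0 < Real.log p.1 := by linarith
    simp only [Function.comp_apply]
    rw [← sub_div, norm_div, Real.norm_eq_abs, Real.norm_of_nonneg (by positivity), div_le_iff₀ (by positivity)]
    refine (hp j).trans (le_of_eq ?_)
    rw [mul_assoc, ← Real.rpow_add hL0]
    norm_num
  have h4 := h3.add h1
  rw [zero_add] at h4
  refine h4.congr fun p => ?_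
  simp only [Function.comp_apply]
  ring

theorem f3_qf_nonneg (j : ℤ) : 0 ≤ qf (2 * Real.pi * j) := by
  have hb : (Fl (1:ℝ)).NeBot := f3_neBot le_rfl
  have h1 := f3_tendsto (show (0:ℝ) < 1 by norm_num) j
  have h2 : 0 ≤ Aconst (3/2) * qf (2 * Real.pi * j) := by
    refine ge_of_tendsto h1 ?_
    have hlog : Tendsto (fun p : ℝ × ℝ => Real.log p.1) (Fl 1) atTop := Real.tendsto_log_atTop.comp (Fl_fst 1)
    filter_upwards [hlog.eventually_ge_atTop 1] with p hp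
    exact div_nonneg (Qj_nonneg _ _ _) (Real.rpow_nonneg (by linarith) _)
  have hA := Aconst_pos (κ := 3/2) (by norm_num)
  exact nonneg_of_mul_nonneg_right h2 hA

lemma f3_CI_nonneg : 0 ≤ CI := by
  have h1 := SJ_le_CI f3_qf_nonneg 0
  have h2 : 0 ≤ SJ 0 := by
    unfold SJ
    apply mul_nonneg (by norm_num)
    apply Finset.sum_nonneg
    intro j _
    apply mul_nonneg _ (f3_qf_nonneg j)
    unfold cinf
    split_ifs
    · norm_num
    · have := Real.pi_pos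
      positivity
    · exact le_rfl
  linarith

/-- The central part. -/
theorem f3_center {η : ℝ} (hη : 0 < η) (J : ℕ) {ε : ℝ} (hε : 0 < ε) : ∃ ε₂ : ℝ, 0 < ε₂ ∧ ∀ᶠ p : ℝ × ℝ in Fl η, 
    ∑ j ∈ Finset.Icc (-(J:ℤ)) J, (cinf j + ε₂) * Qj p.1 p.2 j ≤ (CI * Aconst (3/2) + ε) * (Real.log p.1) ^ (9/4 : ℝ) := by
  have hA := Aconst_pos (κ := 3/2) (by norm_num)
  obtain ⟨S, hS⟩ : ∃ S, S = ∑ j ∈ Finset.Icc (-(J:ℤ)) J, Aconst (3/2) * qf (2 * Real.pi * j) := ⟨_, rfl⟩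
  have hS0 : 0 ≤ S := by
    rw [hS]
    exact Finset.sum_nonneg fun j _ => mul_nonneg hA.le (f3_qf_nonneg j)
  refine ⟨ε / (2 * (1 + S)), by positivity, ?_⟩
  obtain ⟨ε₂, hε₂⟩ : ∃ ε₂, ε₂ = ε / (2 * (1 + S)) := ⟨_, rfl⟩
  rw [← hε₂]
  have h1 : Tendsto (fun p : ℝ × ℝ => ∑ j ∈ Finset.Icc (-(J:ℤ)) J, (cinf j + ε₂) * (Qj p.1 p.2 j / (Real.log p.1) ^ (9/4 : ℝ))) (Fl η)
      (𝓝 (∑ j ∈ Finset.Icc (-(J:ℤ)) J, (cinf j + ε₂) * (Aconst (3/2) * qf (2 * Real.pi * j)))) :=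
    tendsto_finsetSum _ fun j _ => (f3_tendsto hη j).const_mul _
  have h2 : ∑ j ∈ Finset.Icc (-(J:ℤ)) J, (cinf j + ε₂) * (Aconst (3/2) * qf (2 * Real.pi * j)) < CI * Aconst (3/2) + ε := by
    have h3 : ∑ j ∈ Finset.Icc (-(J:ℤ)) J, (cinf j + ε₂) * (Aconst (3/2) * qf (2 * Real.pi * j)) = 
        Aconst (3/2) * (SJ J / 2) + ε₂ * S := by
      have e1 : SJ J / 2 = ∑ j ∈ Finset.Icc (-(J:ℤ)) J, cinf j * qf (2 * Real.pi * j) := by unfold SJ; ring
      rw [e1, hS, Finset.mul_sum, Finset.mul_sum, ← Finset.sum_add_distrib]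
      apply Finset.sum_congr rfl
      intro j _
      ring
    rw [h3]
    have h4 : SJ J ≤ 2 * CI := SJ_le_CI f3_qf_nonneg J
    have h6 : ε₂ * S ≤ ε / 2 := by
      rw [hε₂, div_mul_eq_mul_div, div_le_div_iff₀ (by positivity) (by norm_num)]
      nlinarith
    have h7 : Aconst (3/2) * (SJ J / 2) ≤ Aconst (3/2) * CI := by
      apply mul_le_mul_of_nonneg_left _ hA.le
      linarith
    linarith
  have hlog : Tendsto (fun p : ℝ × ℝ => Real.log p.1) (Fl η) atTop := Real.tendsto_log_atTop.comp (Fl_fst η)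
  filter_upwards [h1.eventually_lt_const h2, hlog.eventually_ge_atTop 1] with p hp hL
  have hL0 : 0 < Real.log p.1 := by linarith
  have hLp : 0 < (Real.log p.1) ^ (9/4 : ℝ) := by positivity
  have e2 : ∑ j ∈ Finset.Icc (-(J:ℤ)) J, (cinf j + ε₂) * Qj p.1 p.2 j = 
      (∑ j ∈ Finset.Icc (-(J:ℤ)) J, (cinf j + ε₂) * (Qj p.1 p.2 j / (Real.log p.1) ^ (9/4 : ℝ))) * (Real.log p.1) ^ (9/4 : ℝ) := by
    rw [Finset.sum_mul]
    apply Finset.sum_congr rfl
    intro j _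
    field_simp
  rw [e2]
  exact mul_le_mul_of_nonneg_right hp.le hLp.le

end Pool.Agent.LibM3
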