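import Pool.Agent.LibM3.F3
import Pool.Agent.LibM3.A7
import Pool.Agent.LibM3.B2
import Pool.Agent.LibM3.E4

/-! Third moment, block F4: pointwise bounds. -/

set_option autoImplicit false

namespace Pool.Agent.LibM3

open MeasureTheory Set Filter Topology Complex ProbabilityTheory
open scoped NNReal ComplexConjugate
open Pool.Agent.LibZM

lemma f4_young {a b ε : ℝ} (ha : 0 ≤ a) (hb : 0 ≤ b) (hε : 0 < ε) : 2 * a ^ 2 * b ≤ ε * a ^ 3 + 8 / ε ^ 2 * b ^ 3 := by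
  rcases le_or_gt b (ε * a / 2) with h | h
  · have h1 : 2 * a ^ 2 * b ≤ 2 * a ^ 2 * (ε * a / 2) := by gcongr
    have h2 : 0 ≤ 8 / ε ^ 2 * b ^ 3 := by positivity
    nlinarith
  · have h1 : a ≤ 2 * b / ε := by
      rw [le_div_iff₀ hε]; linarith
    have h2 : 2 * a ^ 2 * b ≤ 2 * (2 * b / ε) ^ 2 * b := by gcongr
    have h3 : 2 * (2 * b / ε) ^ 2 * b = 8 / ε ^ 2 * b ^ 3 := by
      field_simp
      ring
    have h4 : 0 ≤ ε * a ^ 3 := by positivity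
    linarith

/-- Deterministic majorant of the Fourier coefficients. -/
noncomputable def bj (C ε₂ l : ℝ) (J R : ℕ) (j : ℤ) : ℝ :=
  if j.natAbs ≤ J then cinf j + ε₂ else if j.natAbs ≤ R then C / |(j:ℝ)| else C * l / (j:ℝ) ^ 2

lemma cinf_nonneg (j : ℤ) : 0 ≤ cinf j := by
  unfold cinf
  split_ifs
  · norm_num
  · have := Real.pi_pos
    positivity
  · exact le_rfl

lemma bj_nonneg {C ε₂ l : ℝ} (hC : 0 ≤ C) (hε₂ : 0 ≤ ε₂) (hl : 0 ≤ l) (J R : ℕ) (j : ℤ) : 0 ≤ bj C ε₂ l J R j := by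
  unfold bj
  have := cinf_nonneg j
  split_ifs <;> positivity

lemma f4_split {C ε₂ l : ℝ} (hC : 0 ≤ C) (hε₂ : 0 ≤ ε₂) (hl : 0 ≤ l) (J R M : ℕ) {Q : ℤ → ℝ} (hQ : ∀ j, 0 ≤ Q j) :
    ∑ j ∈ Finset.Icc (-(M:ℤ)) M, bj C ε₂ l J R j * Q j ≤ 
      ∑ j ∈ Finset.Icc (-(J:ℤ)) J, (cinf j + ε₂) * Q j + 
      C * ∑ j ∈ (Finset.Icc (-(R:ℤ)) R).filter (fun j => J < j.natAbs), Q j / |(j:ℝ)| + 
      C * (l * ∑ j ∈ (Finset.Icc (-(M:ℤ)) M).filter (fun j => R < j.natAbs), Q j / (j:ℝ) ^ 2) := by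
  rw [← Finset.sum_filter_add_sum_filter_not (Finset.Icc (-(M:ℤ)) M) (fun j => j.natAbs ≤ J), add_assoc]
  apply add_le_add
  · have h1 : ∀ j ∈ (Finset.Icc (-(M:ℤ)) M).filter (fun j => j.natAbs ≤ J), bj C ε₂ l J R j * Q j = (cinf j + ε₂) * Q j := by
      intro j hj
      rw [Finset.mem_filter] at hj
      unfold bj
      rw [if_pos hj.2]
    rw [Finset.sum_congr rfl h1]
    apply Finset.sum_le_sum_of_subset_of_nonneg
    · intro j hj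
      rw [Finset.mem_filter, Finset.mem_Icc] at hj
      rw [Finset.mem_Icc]
      omega
    · intro j _ _
      exact mul_nonneg (add_nonneg (cinf_nonneg j) hε₂) (hQ j)
  · rw [← Finset.sum_filter_add_sum_filter_not ((Finset.Icc (-(M:ℤ)) M).filter (fun j => ¬ j.natAbs ≤ J)) (fun j => j.natAbs ≤ R)]
    apply add_le_add
    · rw [Finset.mul_sum]
      have h1 : ∀ j ∈ ((Finset.Icc (-(M:ℤ)) M).filter (fun j => ¬ j.natAbs ≤ J)).filter (fun j => j.natAbs ≤ R), 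
          bj C ε₂ l J R j * Q j = C * (Q j / |(j:ℝ)|) := by
        intro j hj
        rw [Finset.mem_filter, Finset.mem_filter] at hj
        unfold bj
        rw [if_neg hj.1.2, if_pos hj.2]
        ring
      rw [Finset.sum_congr rfl h1]
      apply Finset.sum_le_sum_of_subset_of_nonneg
      · intro j hj
        rw [Finset.mem_filter, Finset.mem_filter, Finset.mem_Icc] at hj
        rw [Finset.mem_filter, Finset.mem_Icc]
        omega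
      · intro j _ _
        exact mul_nonneg hC (div_nonneg (hQ j) (abs_nonneg _))
    · rw [Finset.mul_sum, Finset.mul_sum]
      have h1 : ∀ j ∈ ((Finset.Icc (-(M:ℤ)) M).filter (fun j => ¬ j.natAbs ≤ J)).filter (fun j => ¬ j.natAbs ≤ R), 
          bj C ε₂ l J R j * Q j = C * (l * (Q j / (j:ℝ) ^ 2)) := by
        intro j hj
        rw [Finset.mem_filter, Finset.mem_filter] at hj
        unfold bj
        rw [if_neg hj.1.2, if_neg hj.2]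
        ring
      rw [Finset.sum_congr rfl h1]
      apply Finset.sum_le_sum_of_subset_of_nonneg
      · intro j hj
        rw [Finset.mem_filter, Finset.mem_filter, Finset.mem_Icc] at hj
        rw [Finset.mem_filter, Finset.mem_Icc]
        omega
      · intro j _ _
        exact mul_nonneg hC (mul_nonneg hl (div_nonneg (hQ j) (sq_nonneg _)))

/-- Pointwise bound. -/
theorem f4_point {C : ℝ} {N : ℕ} (hN : 8 ≤ N) {t : ℝ} {c : ℤ → ℝ} {b : ℤ → ℝ} (hcb : ∀ j, c j ≤ b j) {M : ℕ}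
    {C₀ : ℝ} (hz : ‖riemannZeta (crit t)‖ ≤ 2 * ‖Dt t‖ + C₀ * t ^ (-(1/2) : ℝ))
    (hD : ‖∑ n ∈ Finset.Icc 1 N, Ph (Real.pi / 4) (tt t - Real.log n) * ((kap (Real.log N) (Real.log n) : ℝ) : ℂ) * (n:ℂ) ^ (-crit t)‖ ≤
        ∑ j ∈ Finset.Icc (-(M:ℤ)) M, c j * ‖PP N (crit t - (yj N j : ℝ) * I)‖ ^ 2 + C * Real.log N * (N:ℝ) ^ 2 / M)
    {κ : ℝ} (hκ : 2 * (C * Real.log N * (N:ℝ) ^ 2 / M) + C₀ * t ^ (-(1/2) : ℝ) ≤ κ) {ε : ℝ} (hε : 0 < ε) :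
    (1 - ε) * ‖riemannZeta (crit t)‖ ^ 3 ≤ 2 * ∑ j ∈ Finset.Icc (-(M:ℤ)) M, b j * (‖riemannZeta (crit t)‖ ^ 2 * ‖PP N (crit t - (yj N j : ℝ) * I)‖ ^ 2) + 
      κ * ‖riemannZeta (crit t)‖ ^ 2 + 8 / ε ^ 2 * ‖Etail N t‖ ^ 3 := by
  obtain ⟨g, hg⟩ : ∃ g, g = ‖riemannZeta (crit t)‖ := ⟨_, rfl⟩
  have hg0 : 0 ≤ g := by rw [hg]; exact norm_nonneg _
  rw [← hg] at hz ⊢
  have h1 : ‖Dt t‖ ≤ ∑ j ∈ Finset.Icc (-(M:ℤ)) M, b j * ‖PP N (crit t - (yj N j : ℝ) * I)‖ ^ 2 + C * Real.log N * (N:ℝ) ^ 2 / M + ‖Etail N t‖ := by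
    rw [Dt_split hN t]
    refine (norm_add_le _ _).trans ?_
    have h2 : ∑ j ∈ Finset.Icc (-(M:ℤ)) M, c j * ‖PP N (crit t - (yj N j : ℝ) * I)‖ ^ 2 ≤ ∑ j ∈ Finset.Icc (-(M:ℤ)) M, b j * ‖PP N (crit t - (yj N j : ℝ) * I)‖ ^ 2 := by
      apply Finset.sum_le_sum
      intro j _
      exact mul_le_mul_of_nonneg_right (hcb j) (sq_nonneg _)
    linarith
  have h3 : g ≤ 2 * ∑ j ∈ Finset.Icc (-(M:ℤ)) M, b j * ‖PP N (crit t - (yj N j : ℝ) * I)‖ ^ 2 + κ + 2 * ‖Etail N t‖ := by linarith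
  have h4 : g ^ 3 ≤ g ^ 2 * (2 * ∑ j ∈ Finset.Icc (-(M:ℤ)) M, b j * ‖PP N (crit t - (yj N j : ℝ) * I)‖ ^ 2 + κ + 2 * ‖Etail N t‖) := by
    calc g ^ 3 = g ^ 2 * g := by ring
      _ ≤ _ := mul_le_mul_of_nonneg_left h3 (sq_nonneg g)
  have h5 := f4_young hg0 (norm_nonneg (Etail N t)) hε
  have h6 : g ^ 2 * ∑ j ∈ Finset.Icc (-(M:ℤ)) M, b j * ‖PP N (crit t - (yj N j : ℝ) * I)‖ ^ 2 = 
      ∑ j ∈ Finset.Icc (-(M:ℤ)) M, b j * (g ^ 2 * ‖PP N (crit t - (yj N j : ℝ) * I)‖ ^ 2) := by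
    rw [Finset.mul_sum]
    apply Finset.sum_congr rfl
    intro j _
    ring
  rw [← h6]
  nlinarith

lemma f4_continuous_PP (N : ℕ) (y : ℝ) : Continuous fun t : ℝ => ‖PP N (crit t - (y:ℝ) * I)‖ := by
  have h := (differentiable_PP N).continuous
  unfold crit
  fun_prop

end Pool.Agent.LibM3
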