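import Pool.Agent.LibM3.F4

/-! Third moment, block F5: the window bound. -/

set_option autoImplicit false

namespace Pool.Agent.LibM3

open MeasureTheory Set Filter Topology Complex ProbabilityTheory
open scoped NNReal ComplexConjugate
open Pool.Agent.LibZM

/-- Integrated bound. -/
theorem f5_int {N : ℕ} {u : ℝ} {v : ℝ≥0} {M : ℕ} {b : ℤ → ℝ} {κ ε : ℝ} 
    (hE : IntegrableOn (fun t => ‖Etail N t‖ ^ 3) (win u) (gaussianReal u v))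
    (h : ∀ t ∈ win u, (1 - ε) * ‖riemannZeta (crit t)‖ ^ 3 ≤ 
      2 * ∑ j ∈ Finset.Icc (-(M:ℤ)) M, b j * (‖riemannZeta (crit t)‖ ^ 2 * ‖PP N (crit t - (yj N j : ℝ) * I)‖ ^ 2) + 
      κ * ‖riemannZeta (crit t)‖ ^ 2 + 8 / ε ^ 2 * ‖Etail N t‖ ^ 3) :
    (1 - ε) * ∫ t in win u, ‖riemannZeta (crit t)‖ ^ 3 ∂(gaussianReal u v) ≤ 
      2 * ∑ j ∈ Finset.Icc (-(M:ℤ)) M, b j * ∫ t in win u, ‖riemannZeta (crit t)‖ ^ 2 * ‖PP N (crit t - (yj N j : ℝ) * I)‖ ^ 2 ∂(gaussianReal u v) + 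
      κ * ∫ t in win u, ‖riemannZeta (crit t)‖ ^ 2 ∂(gaussianReal u v) + 
      8 / ε ^ 2 * ∫ t in win u, ‖Etail N t‖ ^ 3 ∂(gaussianReal u v) := by
  have hz := continuous_zeta_crit.norm
  have hint : ∀ f : ℝ → ℝ, Continuous f → IntegrableOn f (win u) (gaussianReal u v) := fun f hf =>
    hf.continuousOn.integrableOn_compact isCompact_Icc
  have i1 : IntegrableOn (fun t => (1 - ε) * ‖riemannZeta (crit t)‖ ^ 3) (win u) (gaussianReal u v) := hint _ (by fun_prop)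
  have i2 : ∀ j ∈ Finset.Icc (-(M:ℤ)) M, IntegrableOn (fun t => b j * (‖riemannZeta (crit t)‖ ^ 2 * ‖PP N (crit t - (yj N j : ℝ) * I)‖ ^ 2)) (win u) (gaussianReal u v) := by
    intro j _
    have := f4_continuous_PP N (yj N j)
    exact hint _ (by fun_prop)
  have i3 : IntegrableOn (fun t => 2 * ∑ j ∈ Finset.Icc (-(M:ℤ)) M, b j * (‖riemannZeta (crit t)‖ ^ 2 * ‖PP N (crit t - (yj N j : ℝ) * I)‖ ^ 2)) (win u) (gaussianReal u v) :=
    (integrable_finsetSum _ i2).const_mul 2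
  have i4 : IntegrableOn (fun t => κ * ‖riemannZeta (crit t)‖ ^ 2) (win u) (gaussianReal u v) := hint _ (by fun_prop)
  have i5 : IntegrableOn (fun t => 8 / ε ^ 2 * ‖Etail N t‖ ^ 3) (win u) (gaussianReal u v) := hE.const_mul _
  have i6 : IntegrableOn (fun t => 2 * ∑ j ∈ Finset.Icc (-(M:ℤ)) M, b j * (‖riemannZeta (crit t)‖ ^ 2 * ‖PP N (crit t - (yj N j : ℝ) * I)‖ ^ 2) + 
      κ * ‖riemannZeta (crit t)‖ ^ 2) (win u) (gaussianReal u v) := i3.add i4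
  have h1 := setIntegral_mono_on i1 (i6.add i5) measurableSet_Icc h
  rw [integral_const_mul] at h1
  refine h1.trans (le_of_eq ?_)
  have e1 := integral_add (μ := (gaussianReal u v).restrict (win u)) i6 i5
  have e2 := integral_add (μ := (gaussianReal u v).restrict (win u)) i3 i4
  have e3 := integral_finsetSum (μ := (gaussianReal u v).restrict (win u)) _ i2
  simp only [Pi.add_apply]
  rw [e1, e2, integral_const_mul, e3, integral_const_mul, integral_const_mul]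
  congr 3
  apply Finset.sum_congr rfl
  intro j _
  rw [integral_const_mul]

lemma f5_XN_tendsto : Tendsto (fun T : ℝ => (XN T : ℝ)) atTop atTop := by
  have h1 : Tendsto (fun T : ℝ => T ^ (1/2:ℝ) / 2) atTop atTop :=
    (tendsto_rpow_atTop (by norm_num)).atTop_div_const (by norm_num)
  apply tendsto_atTop_mono' _ _ h1
  filter_upwards [par_XN_ge, Real.tendsto_log_atTop.eventually_ge_atTop 1, eventually_ge_atTop 0] with T h2 h3 h4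
  have h5 : 1 ≤ (Real.log T) ^ (1/16:ℝ) := Real.one_le_rpow h3 (by norm_num)
  have h6 : 0 ≤ T ^ (1/2:ℝ) := by positivity
  nlinarith

/-- The window bound. -/
theorem f5_window {η : ℝ} (hη : 0 < η) {c : ℝ} (hc : 2 * CI < c) : ∀ᶠ p : ℝ × ℝ in Fl η,
    ∫ t in win p.2, ‖riemannZeta (crit t)‖ ^ 3 ∂(gaussianReal p.2 (vw p.1)) ≤ c * Aconst (3/2) * (Real.log p.1) ^ (9/4 : ℝ) := by
  have hA := Aconst_pos (κ := 3/2) (by norm_num)
  obtain ⟨a, ha⟩ : ∃ a, a = Aconst (3/2) := ⟨_, rfl⟩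
  rw [← ha] at hA ⊢
  obtain ⟨ε, hε⟩ : ∃ ε, ε = (c - 2 * CI) / (2 * c) := ⟨_, rfl⟩
  obtain ⟨ε₁, hε₁⟩ : ∃ ε₁, ε₁ = (c - 2 * CI) * a / 16 := ⟨_, rfl⟩
  have hCI := f3_CI_nonneg
  have hc0 : 0 < c := by linarith
  have hε0 : 0 < ε := by rw [hε]; apply div_pos <;> linarith
  have hε1 : ε < 1 := by rw [hε, div_lt_one (by linarith)]; linarith
  have hε₁0 : 0 < ε₁ := by rw [hε₁]; apply div_pos (mul_pos (by linarith) hA) (by norm_num)
  have hfin : 2 * CI * a + 8 * ε₁ ≤ (1 - ε) * (c * a) := by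
    have e1 : ε * (c * a) = (c - 2 * CI) * a / 2 := by rw [hε]; field_simp
    rw [sub_mul, e1, hε₁]
    linarith
  obtain ⟨C, hC, hDp⟩ := Dpoly_le
  obtain ⟨C₀, t₀, hC₀, ht₀, hz⟩ := zeta_le_Dt
  obtain ⟨C₂, hC₂, hsq⟩ := one_sq_le hη
  obtain ⟨J, hJ⟩ := f1_mid hη (ε := ε₁ / C) (by positivity)
  have hmid := hJ J le_rfl
  obtain ⟨ε₂, hε₂, hcen⟩ := f3_center hη J (ε := ε₁) hε₁0
  have hfar := f1_far hη (ε := ε₁ / C) (by positivity)
  have hE := Etail_small hη 1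
  have hcsh := f2_csh hη C hε₂
  have hlog : Tendsto (fun p : ℝ × ℝ => Real.log p.1) (Fl η) atTop := Real.tendsto_log_atTop.comp (Fl_fst η)
  have hX := (Fl_fst η).eventually par_log_XN
  have hXt := f5_XN_tendsto.comp (Fl_fst η)
  have hκ1 : ∀ᶠ p : ℝ × ℝ in Fl η, Real.log (XN p.1) ≤ ε₁ / C₂ / (4 * C) * (XN p.1 : ℝ) := by
    have h1 := (Real.isLittleO_log_id_atTop).def (show (0:ℝ) < ε₁ / C₂ / (4 * C) by positivity)
    have h2 := hXt.eventually h1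
    filter_upwards [h2] with p hp
    have h3 : |Real.log (XN p.1)| ≤ ε₁ / C₂ / (4 * C) * |(XN p.1 : ℝ)| := by simpa using hp
    rw [Nat.abs_cast] at h3
    exact (le_abs_self _).trans h3
  have hκ2 : ∀ᶠ p : ℝ × ℝ in Fl η, C₀ * (η / 2 * p.1) ^ (-(1/2) : ℝ) ≤ ε₁ / C₂ / 2 := by
    have h1 : Tendsto (fun p : ℝ × ℝ => η / 2 * p.1) (Fl η) atTop := (Fl_fst η).const_mul_atTop (by positivity)
    have h2 : Tendsto (fun p : ℝ × ℝ => C₀ * (η / 2 * p.1) ^ (-(1/2) : ℝ)) (Fl η) (𝓝 (C₀ * 0)) :=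
      ((tendsto_rpow_neg_atTop (show (0:ℝ) < 1/2 by norm_num)).comp h1).const_mul C₀
    rw [mul_zero] at h2
    exact (h2.eventually_lt_const (show 0 < ε₁ / C₂ / 2 by positivity)).mono fun _ h => h.le
  have ht0 : ∀ᶠ p : ℝ × ℝ in Fl η, t₀ ≤ η / 2 * p.1 := 
    ((Fl_fst η).const_mul_atTop (show 0 < η / 2 by positivity)).eventually_ge_atTop t₀
  have hLbig : ∀ᶠ p : ℝ × ℝ in Fl η, 8 / ε ^ 2 ≤ ε₁ * Real.log p.1 := 
    (hlog.const_mul_atTop hε₁0).eventually_ge_atTop _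
  filter_upwards [hsq, hmid, hcen, hfar, hE, hcsh, hX, hκ1, hκ2, ht0, hLbig, par_tt hη, hlog.eventually_ge_atTop 1] with 
    p hsqp hmidp hcenp hfarp hEp hcshp hXp hκ1p hκ2p ht0p hLbp http hL
  obtain ⟨N, hN⟩ : ∃ N, N = XN p.1 := ⟨_, rfl⟩
  obtain ⟨L, hLd⟩ : ∃ L, L = Real.log p.1 := ⟨_, rfl⟩
  obtain ⟨R, hR⟩ : ∃ R : ℕ, R = ⌊(Real.log p.1) ^ (9/8:ℝ)⌋₊ := ⟨_, rfl⟩
  rw [← hR] at hmidp
  simp only [← hR] at hfarp
  have hN8 : 8 ≤ N := by rw [hN]; exact hXp.2.2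
  have hN0' : 0 < N := by omega
  have hN0 : (0:ℝ) < N := by exact_mod_cast hN0'
  have hlN : 0 ≤ Real.log N := Real.log_natCast_nonneg N
  obtain ⟨M, hM⟩ : ∃ M : ℕ, M = N ^ 3 := ⟨_, rfl⟩
  have hM1 : 1 ≤ M := by rw [hM]; exact Nat.one_le_pow _ _ (by omega)
  have hT0 : 0 < η / 2 * p.1 := by linarith
  have hL9 : 1 ≤ L ^ (9/4:ℝ) := Real.one_le_rpow (by rw [hLd]; exact hL) (by norm_num)
  -- pointwise
  have hpt : ∀ t ∈ win p.2, (1 - ε) * ‖riemannZeta (crit t)‖ ^ 3 ≤ 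
      2 * ∑ j ∈ Finset.Icc (-(M:ℤ)) M, bj C ε₂ (Real.log N) J R j * (‖riemannZeta (crit t)‖ ^ 2 * ‖PP N (crit t - (yj N j : ℝ) * I)‖ ^ 2) + 
      (ε₁ / C₂) * ‖riemannZeta (crit t)‖ ^ 2 + 8 / ε ^ 2 * ‖Etail N t‖ ^ 3 := by
    intro t ht
    obtain ⟨g1, g2, -, g4, -⟩ := http t ht
    rw [← hN] at g2
    obtain ⟨cc, k1, k2, k3, k4, k5⟩ := hDp N hN8 (tt t) g1 g2
    apply f4_point hN8 (c := cc) (C := C) (C₀ := C₀) (M := M) _ (hz t (ht0p.trans g4)) (k5 t M hM1) _ hε0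
    · intro j
      unfold bj
      split_ifs with w1 w2
      · have w3 := hcshp t ht j
        rw [← hN] at w3
        exact (k4 j).trans w3
      · exact k2 j (by omega)
      · exact k3 j (by omega)
    · have e1 : 2 * (C * Real.log N * (N:ℝ) ^ 2 / M) ≤ ε₁ / C₂ / 2 := by
        rw [← hN] at hκ1p
        rw [hM]
        push_cast
        have e2 : 2 * (C * Real.log N * (N:ℝ) ^ 2 / (N:ℝ) ^ 3) = (2 * C * Real.log N) / N := by field_simp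
        rw [e2, div_le_iff₀ hN0]
        calc 2 * C * Real.log N ≤ 2 * C * (ε₁ / C₂ / (4 * C) * N) := by gcongr
          _ = ε₁ / C₂ / 2 * N := by field_simp; ring
      have e3 : C₀ * t ^ (-(1/2) : ℝ) ≤ ε₁ / C₂ / 2 := by
        refine le_trans ?_ hκ2p
        apply mul_le_mul_of_nonneg_left _ hC₀.le
        exact Real.rpow_le_rpow_of_nonpos hT0 g4 (by norm_num)
      linarith
  rw [← hN] at hEp
  have hint := f5_int hEp.1 hpt
  have hQ0 : ∀ j, 0 ≤ Qj p.1 p.2 j := Qj_nonneg _ _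
  have hQe : ∀ j : ℤ, ∫ t in win p.2, ‖riemannZeta (crit t)‖ ^ 2 * ‖PP N (crit t - (yj N j : ℝ) * I)‖ ^ 2 ∂(gaussianReal p.2 (vw p.1)) = Qj p.1 p.2 j := by
    intro j; rw [hN]; rfl
  simp only [hQe] at hint
  have hsp := f4_split hC.le hε₂.le hlN J R M hQ0
  have hfarM := hfarp M
  rw [← hN] at hfarM
  rw [← hLd] at hsqp hmidp hcenp hfarM hEp hLbp hL ⊢
  have h1 : ∑ j ∈ Finset.Icc (-(M:ℤ)) M, bj C ε₂ (Real.log N) J R j * Qj p.1 p.2 j ≤ (CI * a + 3 * ε₁) * L ^ (9/4:ℝ) := by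
    refine hsp.trans ?_
    have m1 : C * ∑ j ∈ (Finset.Icc (-(R:ℤ)) R).filter (fun j => J < j.natAbs), Qj p.1 p.2 j / |(j:ℝ)| ≤ ε₁ * L ^ (9/4:ℝ) := by
      calc _ ≤ C * (ε₁ / C * L ^ (9/4:ℝ)) := by gcongr
        _ = _ := by field_simp
    have m2 : C * (Real.log N * ∑ j ∈ (Finset.Icc (-(M:ℤ)) M).filter (fun j => R < j.natAbs), Qj p.1 p.2 j / (j:ℝ) ^ 2) ≤ ε₁ * L ^ (9/4:ℝ) := by
      calc _ ≤ C * (ε₁ / C * L ^ (9/4:ℝ)) := by gcongr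
        _ = _ := by field_simp
    rw [← ha] at hcenp
    nlinarith
  have h2 : (ε₁ / C₂) * ∫ t in win p.2, ‖riemannZeta (crit t)‖ ^ 2 ∂(gaussianReal p.2 (vw p.1)) ≤ ε₁ * L ^ (9/4:ℝ) := by
    calc _ ≤ (ε₁ / C₂) * (C₂ * L ^ (9/4:ℝ)) := by gcongr
      _ = _ := by field_simp
  have h3 : 8 / ε ^ 2 * ∫ t in win p.2, ‖Etail N t‖ ^ 3 ∂(gaussianReal p.2 (vw p.1)) ≤ ε₁ * L ^ (9/4:ℝ) := by
    have hL0 : 0 < L := by linarith
    have w1 : L ^ (-(1:ℝ)) = L⁻¹ := Real.rpow_neg_one L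
    calc _ ≤ 8 / ε ^ 2 * L ^ (-(1:ℝ)) := by
          apply mul_le_mul_of_nonneg_left hEp.2; positivity
      _ ≤ (ε₁ * L) * L⁻¹ := by rw [w1]; gcongr
      _ = ε₁ := by field_simp
      _ ≤ _ := by nlinarith
  have h4 : (1 - ε) * ∫ t in win p.2, ‖riemannZeta (crit t)‖ ^ 3 ∂(gaussianReal p.2 (vw p.1)) ≤ (1 - ε) * (c * a * L ^ (9/4:ℝ)) := by
    calc _ ≤ _ := hint
      _ ≤ 2 * ((CI * a + 3 * ε₁) * L ^ (9/4:ℝ)) + ε₁ * L ^ (9/4:ℝ) + ε₁ * L ^ (9/4:ℝ) := by linarith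
      _ = (2 * CI * a + 8 * ε₁) * L ^ (9/4:ℝ) := by ring
      _ ≤ ((1 - ε) * (c * a)) * L ^ (9/4:ℝ) := by gcongr
      _ = _ := by ring
  exact le_of_mul_le_mul_left h4 (by linarith)

end Pool.Agent.LibM3
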