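import Pool.Agent.LibM3.L3

/-! Third moment, lower bound, block G1: the twisted second moment form for short polynomials. -/

set_option autoImplicit false

namespace Pool.Agent.LibM3

open MeasureTheory Set Filter Topology Complex ProbabilityTheory
open scoped NNReal ComplexConjugate
open Pool.Agent.LibZM

/-- Limit of the twisted second moment with a polynomial of length `T^θ`. -/
noncomputable def g1_cl (θ : ℝ) : ℝ :=
  (1 / (Real.pi * Real.Gamma (1/4))) * ((64/5) * θ ^ (5/4 : ℝ) - (1024/135) * θ ^ (9/4 : ℝ))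

lemma g1_int_half {s : ℝ} (hs : 0 ≤ s) : ∫ r in (0:ℝ)..s, r ^ (-(1/2) : ℝ) = 2 * s ^ (1/2 : ℝ) := by
  rw [integral_rpow (Or.inl (by norm_num))]
  rw [show (-(1/2) : ℝ) + 1 = 1/2 by norm_num, Real.zero_rpow (by norm_num)]
  ring

lemma g1_int_half' {s : ℝ} (hs : 0 ≤ s) : ∫ r in (0:ℝ)..s, r ^ (1/2 : ℝ) = (2/3) * s ^ (3/2 : ℝ) := by
  rw [integral_rpow (Or.inl (by norm_num))]
  rw [show (1/2 : ℝ) + 1 = 3/2 by norm_num, Real.zero_rpow (by norm_num)]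
  ring

lemma g1_A0 {f : ℝ → ℝ} (hf : Continuous f) (h0 : ∀ x, 0 ≤ f x) {θ : ℝ} (hθ : θ ≤ 1/2)
    (h1 : ∀ x, x ≤ θ → f x = 1) {v : ℝ} (hv0 : 0 ≤ v) (hv : v ≤ θ) :
    2 * (θ - v) ^ (1/2 : ℝ) ≤ l3_A (-(1/2)) f v := by
  unfold l3_A
  have hI := fun a b => l3_int (s := -(1/2)) (by norm_num) hf v a b
  rw [← intervalIntegral.integral_add_adjacent_intervals (hI 0 (θ - v)) (hI (θ - v) 1)]
  have e1 : ∫ r in (0:ℝ)..(θ - v), r ^ (-(1/2) : ℝ) * f (v + r) = 2 * (θ - v) ^ (1/2 : ℝ) := by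
    rw [← g1_int_half (by linarith)]
    refine intervalIntegral.integral_congr fun r hr => ?_
    rw [uIcc_of_le (by linarith)] at hr
    rw [h1 (v + r) (by linarith [hr.2]), mul_one]
  have e2 : 0 ≤ ∫ r in (θ - v)..1, r ^ (-(1/2) : ℝ) * f (v + r) := by
    refine intervalIntegral.integral_nonneg (by linarith) fun r hr => ?_
    have : 0 ≤ r := by linarith [hr.1]
    exact mul_nonneg (by positivity) (h0 _)
  linarith

lemma g1_A0_nonneg {f : ℝ → ℝ} (h0 : ∀ x, 0 ≤ f x) (v : ℝ) : 0 ≤ l3_A (-(1/2)) f v := by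
  unfold l3_A
  refine intervalIntegral.integral_nonneg zero_le_one fun r hr => ?_
  have : 0 ≤ r := hr.1
  exact mul_nonneg (by positivity) (h0 _)

lemma g1_B_eq {f : ℝ → ℝ} (hf : Continuous f) (v : ℝ) :
    l3_A (-(1/2)) f v - 2 * l3_A (1/2) f v = ∫ r in (0:ℝ)..1, (r ^ (-(1/2) : ℝ) - 2 * r ^ (1/2 : ℝ)) * f (v + r) := by
  unfold l3_A
  rw [← intervalIntegral.integral_const_mul, ← intervalIntegral.integral_sub (l3_int (by norm_num) hf v 0 1)
    ((l3_int (by norm_num) hf v 0 1).const_mul 2)]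
  refine intervalIntegral.integral_congr fun r _ => ?_
  ring

lemma g1_w_nonneg {r : ℝ} (h0 : 0 < r) (h1 : r ≤ 1/2) : 0 ≤ r ^ (-(1/2) : ℝ) - 2 * r ^ (1/2 : ℝ) := by
  have e : r ^ (1/2 : ℝ) = r ^ (-(1/2) : ℝ) * r := by
    nth_rewrite 3 [← Real.rpow_one r]
    rw [← Real.rpow_add h0]; norm_num
  rw [e]
  have : 0 < r ^ (-(1/2) : ℝ) := Real.rpow_pos_of_pos h0 _
  nlinarith

lemma g1_B_int {f : ℝ → ℝ} (hf : Continuous f) (v a b : ℝ) :
    IntervalIntegrable (fun r : ℝ => (r ^ (-(1/2) : ℝ) - 2 * r ^ (1/2 : ℝ)) * f (v + r)) volume a b := by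
  have := (l3_int (s := -(1/2)) (by norm_num) hf v a b).sub ((l3_int (s := 1/2) (by norm_num) hf v a b).const_mul 2)
  refine this.congr fun r _ => ?_
  ring

lemma g1_B_part {f : ℝ → ℝ} (h0 : ∀ x, 0 ≤ f x) (hz : ∀ x, 1/2 ≤ x → f x = 0) {v a : ℝ} (hv0 : 0 ≤ v) 
    (ha : 0 ≤ a) (ha1 : a ≤ 1) : 0 ≤ ∫ r in a..1, (r ^ (-(1/2) : ℝ) - 2 * r ^ (1/2 : ℝ)) * f (v + r) := by
  rw [intervalIntegral.integral_of_le ha1]
  refine setIntegral_nonneg measurableSet_Ioc fun r hr => ?_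
  rcases le_or_gt r (1/2) with h | h
  · exact mul_nonneg (g1_w_nonneg (by linarith [hr.1]) h) (h0 _)
  · rw [hz (v + r) (by linarith), mul_zero]

lemma g1_B {f : ℝ → ℝ} (hf : Continuous f) (h0 : ∀ x, 0 ≤ f x) (hz : ∀ x, 1/2 ≤ x → f x = 0) {θ : ℝ} (hθ : θ ≤ 1/2)
    (h1 : ∀ x, x ≤ θ → f x = 1) {v : ℝ} (hv0 : 0 ≤ v) (hv : v ≤ θ) :
    2 * (θ - v) ^ (1/2 : ℝ) - (4/3) * (θ - v) ^ (3/2 : ℝ) ≤ l3_A (-(1/2)) f v - 2 * l3_A (1/2) f v := by
  rw [g1_B_eq hf]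
  have hI := g1_B_int hf v
  rw [← intervalIntegral.integral_add_adjacent_intervals (hI 0 (θ - v)) (hI (θ - v) 1)]
  have e1 : ∫ r in (0:ℝ)..(θ - v), (r ^ (-(1/2) : ℝ) - 2 * r ^ (1/2 : ℝ)) * f (v + r) = 
      2 * (θ - v) ^ (1/2 : ℝ) - (4/3) * (θ - v) ^ (3/2 : ℝ) := by
    have e : ∫ r in (0:ℝ)..(θ - v), (r ^ (-(1/2) : ℝ) - 2 * r ^ (1/2 : ℝ)) * f (v + r) = 
        ∫ r in (0:ℝ)..(θ - v), (r ^ (-(1/2) : ℝ) - 2 * r ^ (1/2 : ℝ)) := by
      refine intervalIntegral.integral_congr fun r hr => ?_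
      rw [uIcc_of_le (by linarith)] at hr
      rw [h1 (v + r) (by linarith [hr.2]), mul_one]
    rw [e, intervalIntegral.integral_sub (intervalIntegral.intervalIntegrable_rpow' (by norm_num)) 
      ((intervalIntegral.intervalIntegrable_rpow' (by norm_num)).const_mul 2), intervalIntegral.integral_const_mul, 
      g1_int_half (by linarith), g1_int_half' (by linarith)]
    ring
  have e2 := g1_B_part h0 hz hv0 (show 0 ≤ θ - v by linarith) (by linarith)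
  linarith

lemma g1_B_nonneg {f : ℝ → ℝ} (hf : Continuous f) (h0 : ∀ x, 0 ≤ f x) (hz : ∀ x, 1/2 ≤ x → f x = 0) {v : ℝ} (hv0 : 0 ≤ v) :
    0 ≤ l3_A (-(1/2)) f v - 2 * l3_A (1/2) f v := by
  rw [g1_B_eq hf]
  exact g1_B_part h0 hz hv0 le_rfl zero_le_one

lemma g1_outer {θ : ℝ} (hθ : 0 < θ) : ∫ v in (0:ℝ)..θ, v ^ (-(3/4) : ℝ) * (4 * (θ - v) - (8/3) * (θ - v) ^ 2) = 
    (64/5) * θ ^ (5/4 : ℝ) - (1024/135) * θ ^ (9/4 : ℝ) := by
  have e : ∀ v ∈ Ioc (0:ℝ) θ, v ^ (-(3/4) : ℝ) * (4 * (θ - v) - (8/3) * (θ - v) ^ 2) = 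
      (4 * θ - (8/3) * θ ^ 2) * v ^ (-(3/4) : ℝ) + ((16/3) * θ - 4) * v ^ (1/4 : ℝ) - (8/3) * v ^ (5/4 : ℝ) := by
    intro v hv
    have h1 : v ^ (1/4 : ℝ) = v ^ (-(3/4) : ℝ) * v := by
      nth_rewrite 3 [← Real.rpow_one v]
      rw [← Real.rpow_add hv.1]; norm_num
    have h2 : v ^ (5/4 : ℝ) = v ^ (-(3/4) : ℝ) * v ^ 2 := by
      rw [← Real.rpow_natCast v 2, ← Real.rpow_add hv.1]; norm_num
    rw [h1, h2]; ring
  rw [intervalIntegral.integral_of_le hθ.le, setIntegral_congr_fun measurableSet_Ioc e, ← intervalIntegral.integral_of_le hθ.le]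
  have i1 : IntervalIntegrable (fun v : ℝ => v ^ (-(3/4) : ℝ)) volume 0 θ := intervalIntegral.intervalIntegrable_rpow' (by norm_num)
  have i2 : IntervalIntegrable (fun v : ℝ => v ^ (1/4 : ℝ)) volume 0 θ := intervalIntegral.intervalIntegrable_rpow' (by norm_num)
  have i3 : IntervalIntegrable (fun v : ℝ => v ^ (5/4 : ℝ)) volume 0 θ := intervalIntegral.intervalIntegrable_rpow' (by norm_num)
  rw [intervalIntegral.integral_sub ((i1.const_mul _).add (i2.const_mul _)) (i3.const_mul _),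
    intervalIntegral.integral_add (i1.const_mul _) (i2.const_mul _), intervalIntegral.integral_const_mul,
    intervalIntegral.integral_const_mul, intervalIntegral.integral_const_mul,
    integral_rpow (Or.inl (by norm_num)), integral_rpow (Or.inl (by norm_num)), integral_rpow (Or.inl (by norm_num))]
  rw [show (-(3/4) : ℝ) + 1 = 1/4 by norm_num, show (1/4 : ℝ) + 1 = 5/4 by norm_num, show (5/4 : ℝ) + 1 = 9/4 by norm_num,
    Real.zero_rpow (by norm_num), Real.zero_rpow (by norm_num), Real.zero_rpow (by norm_num)]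
  have h1 : θ ^ (5/4 : ℝ) = θ ^ (1/4 : ℝ) * θ := by
    nth_rewrite 3 [← Real.rpow_one θ]
    rw [← Real.rpow_add hθ]; norm_num
  have h2 : θ ^ (9/4 : ℝ) = θ ^ (1/4 : ℝ) * θ ^ 2 := by
    rw [← Real.rpow_natCast θ 2, ← Real.rpow_add hθ]; norm_num
  rw [h1, h2]; ring

/-- Lower bound for the limiting form. -/
theorem g1_IM_ge {f : ℝ → ℝ} (hf : Continuous f) (h0 : ∀ x, 0 ≤ f x) (hz : ∀ x, 1/2 ≤ x → f x = 0) {θ : ℝ} (hθ0 : 0 < θ)
    (hθ : θ ≤ 1/2) (h1 : ∀ x, x ≤ θ → f x = 1) : g1_cl θ ≤ IM f f := by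
  have hz1 : ∀ x, 1 ≤ x → f x = 0 := fun x hx => hz x (by linarith)
  rw [l3_IM hf hf hz1 hz1]
  unfold g1_cl
  have hG : 0 < Real.Gamma (1/4) := Real.Gamma_pos_of_pos (by norm_num)
  have hpi := Real.pi_pos
  refine mul_le_mul_of_nonneg_left ?_ (by positivity)
  obtain ⟨g, hg⟩ : ∃ g : ℝ → ℝ, g = fun v => l3_A (-(1/2)) f v * l3_A (-(1/2)) f v -
        (l3_A (1/2) f v * l3_A (-(1/2)) f v + l3_A (-(1/2)) f v * l3_A (1/2) f v) := ⟨_, rfl⟩
  have hgc : ContinuousOn g (Icc 0 1) := by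
    have a := l3_cont (s := -(1/2)) (by norm_num) hf hz1
    have b := l3_cont (s := 1/2) (by norm_num) hf hz1
    rw [hg]
    exact (a.mul a).sub ((b.mul a).add (a.mul b))
  have hgi := l3_outer hgc
  have hge : ∀ v, g v = l3_A (-(1/2)) f v * (l3_A (-(1/2)) f v - 2 * l3_A (1/2) f v) := fun v => by rw [hg]; ring
  have hmain : ∫ v in (0:ℝ)..1, v ^ (-(3/4) : ℝ) * g v = (∫ v in (0:ℝ)..θ, v ^ (-(3/4) : ℝ) * g v) + ∫ v in θ..1, v ^ (-(3/4) : ℝ) * g v := by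
    rw [intervalIntegral.integral_add_adjacent_intervals]
    · exact hgi.mono_set (by rw [uIcc_of_le zero_le_one, uIcc_of_le hθ0.le]; exact Icc_subset_Icc le_rfl (by linarith))
    · exact hgi.mono_set (by rw [uIcc_of_le zero_le_one, uIcc_of_le (by linarith)]; exact Icc_subset_Icc hθ0.le le_rfl)
  have hgoal : (64/5) * θ ^ (5/4 : ℝ) - (1024/135) * θ ^ (9/4 : ℝ) ≤ ∫ v in (0:ℝ)..1, v ^ (-(3/4) : ℝ) * g v := by
    rw [hmain, ← g1_outer hθ0]
    have p1 : ∫ v in (0:ℝ)..θ, v ^ (-(3/4) : ℝ) * (4 * (θ - v) - (8/3) * (θ - v) ^ 2) ≤ ∫ v in (0:ℝ)..θ, v ^ (-(3/4) : ℝ) * g v := by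
      apply intervalIntegral.integral_mono_on hθ0.le
      · exact (intervalIntegral.intervalIntegrable_rpow' (by norm_num)).mul_continuousOn (by fun_prop)
      · exact hgi.mono_set (by rw [uIcc_of_le zero_le_one, uIcc_of_le hθ0.le]; exact Icc_subset_Icc le_rfl (by linarith))
      · intro v hv
        have hs : 0 ≤ θ - v := by linarith [hv.2]
        have a := g1_A0 hf h0 hθ h1 hv.1 hv.2
        have b := g1_B hf h0 hz hθ h1 hv.1 hv.2
        have a0 := g1_A0_nonneg h0 v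
        have hv0 := hv.1
        refine mul_le_mul_of_nonneg_left ?_ (by positivity)
        rw [hge]
        have e1 : (θ - v) ^ (1/2 : ℝ) * (θ - v) ^ (1/2 : ℝ) = θ - v := by
          rw [← Real.rpow_add_of_nonneg hs (by norm_num) (by norm_num)]; norm_num
        have e2 : (θ - v) ^ (1/2 : ℝ) * (θ - v) ^ (3/2 : ℝ) = (θ - v) ^ 2 := by
          rw [← Real.rpow_add_of_nonneg hs (by norm_num) (by norm_num)]; norm_num
        have b0 : 0 ≤ 2 * (θ - v) ^ (1/2 : ℝ) - (4/3) * (θ - v) ^ (3/2 : ℝ) := by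
          have e3 : (θ - v) ^ (3/2 : ℝ) = (θ - v) ^ (1/2 : ℝ) * (θ - v) := by
            nth_rewrite 3 [← Real.rpow_one (θ - v)]
            rw [← Real.rpow_add_of_nonneg hs (by norm_num) (by norm_num)]; norm_num
          rw [e3]
          have h5 : 0 ≤ (θ - v) ^ (1/2 : ℝ) := by positivity
          have h6 : θ - v ≤ 1/2 := by linarith [hv.1]
          nlinarith
        calc 4 * (θ - v) - (8/3) * (θ - v) ^ 2 
            = (2 * (θ - v) ^ (1/2 : ℝ)) * (2 * (θ - v) ^ (1/2 : ℝ) - (4/3) * (θ - v) ^ (3/2 : ℝ)) := by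
              rw [show (2 * (θ - v) ^ (1/2 : ℝ)) * (2 * (θ - v) ^ (1/2 : ℝ) - (4/3) * (θ - v) ^ (3/2 : ℝ)) = 
                4 * ((θ - v) ^ (1/2 : ℝ) * (θ - v) ^ (1/2 : ℝ)) - (8/3) * ((θ - v) ^ (1/2 : ℝ) * (θ - v) ^ (3/2 : ℝ)) by ring, e1, e2]
          _ ≤ _ := mul_le_mul a b b0 a0
    have p2 : 0 ≤ ∫ v in θ..1, v ^ (-(3/4) : ℝ) * g v := by
      refine intervalIntegral.integral_nonneg (by linarith) fun v hv => ?_
      have hv0 : 0 ≤ v := by linarith [hv.1]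
      rw [hge]
      exact mul_nonneg (by positivity) (mul_nonneg (g1_A0_nonneg h0 v) (g1_B_nonneg hf h0 hz hv0))
    linarith
  rw [hg] at hgoal
  exact hgoal

/-- Trapezoid. -/
noncomputable def g1_tr (a b x : ℝ) : ℝ := max 0 (min 1 ((b - x) / (b - a)))

lemma g1_tr_cont (a b : ℝ) : Continuous (g1_tr a b) := by unfold g1_tr; fun_prop

lemma g1_tr_nonneg (a b x : ℝ) : 0 ≤ g1_tr a b x := le_max_left _ _

lemma g1_tr_le_one (a b x : ℝ) : g1_tr a b x ≤ 1 := max_le zero_le_one (min_le_left _ _)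

lemma g1_tr_one {a b x : ℝ} (hab : a < b) (hx : x ≤ a) : g1_tr a b x = 1 := by
  unfold g1_tr
  rw [min_eq_left, max_eq_right zero_le_one]
  rw [le_div_iff₀ (by linarith)]
  linarith

lemma g1_tr_zero {a b x : ℝ} (hab : a < b) (hx : b ≤ x) : g1_tr a b x = 0 := by
  unfold g1_tr
  apply max_eq_left
  exact (min_le_right _ _).trans (div_nonpos_of_nonpos_of_nonneg (by linarith) (by linarith))

end Pool.Agent.LibM3
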