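import Pool.Agent.LibM3.G3

/-! Third moment, lower bound, block G4: the window bound and the transfer to the full moment. -/

set_option autoImplicit false

namespace Pool.Agent.LibM3

open MeasureTheory Set Filter Topology Complex ProbabilityTheory
open scoped NNReal ComplexConjugate
open Pool.Agent.LibZM

/-- The constant of the lower bound. -/
noncomputable def g4_C : ℝ := √(g1_cl (1/3) ^ 3 / g3_V)

/-- The window bound from below. -/
theorem g4_window {η : ℝ} (hη : 0 < η) {c : ℝ} (hc0 : 0 < c) (hc : c < g4_C) : ∀ᶠ p : ℝ × ℝ in Fl η,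
    c * La3 p.1 ≤ ∫ t in win p.2, ‖riemannZeta (crit t)‖ ^ 3 ∂(gaussianReal p.2 (vw p.1)) := by
  have hA := Aconst_pos (κ := 3/2) (by norm_num)
  obtain ⟨a, ha⟩ : ∃ a, a = Aconst (3/2) := ⟨_, rfl⟩
  have ha0 : 0 < a := by rw [ha]; exact hA
  have hV := g3_V_pos
  have hc2 : c ^ 2 * g3_V < g1_cl (1/3) ^ 3 := by
    have h1 : c ^ 2 < g1_cl (1/3) ^ 3 / g3_V := by
      have := (Real.lt_sqrt hc0.le).mp hc
      exact this
    rwa [lt_div_iff₀ hV] at h1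
  have hcl : 0 < g1_cl (1/3) := by
    by_contra hcon
    push Not at hcon
    have h3 : g1_cl (1/3) ^ 3 ≤ 0 := by
      have : g1_cl (1/3) ^ 3 = g1_cl (1/3) * g1_cl (1/3) ^ 2 := by ring
      rw [this]
      exact mul_nonpos_of_nonpos_of_nonneg hcon (sq_nonneg _)
    have : 0 < c ^ 2 * g3_V := by positivity
    linarith
  -- choose parameters
  obtain ⟨V', hV1, hV2⟩ : ∃ V' : ℝ, g3_V < V' ∧ c ^ 2 * V' < g1_cl (1/3) ^ 3 := by
    have h1 : g3_V < g1_cl (1/3) ^ 3 / c ^ 2 := by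
      rw [lt_div_iff₀ (by positivity)]; linarith
    obtain ⟨V', a1, a2⟩ := exists_between h1
    refine ⟨V', a1, ?_⟩
    rw [lt_div_iff₀ (by positivity)] at a2
    linarith
  have hV'0 : 0 < V' := hV.trans hV1
  obtain ⟨θ, hθ0, hθ1, hθ2, hθ3⟩ : ∃ θ : ℝ, 0 < θ ∧ θ < 1/3 ∧ c ^ 2 * V' < g1_cl θ ^ 3 ∧ 0 < g1_cl θ := by
    have hcont : ContinuousAt (fun x => g1_cl x ^ 3) (1/3) := (g2_cl_cont (by norm_num)).pow 3
    have e1 : ∀ᶠ x in 𝓝 (1/3 : ℝ), c ^ 2 * V' < g1_cl x ^ 3 := hcont.eventually_const_lt hV2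
    have e4 : ∀ᶠ x in 𝓝 (1/3 : ℝ), 0 < g1_cl x := (g2_cl_cont (by norm_num)).eventually_const_lt hcl
    have e2 : ∀ᶠ x in 𝓝[<] (1/3 : ℝ), c ^ 2 * V' < g1_cl x ^ 3 ∧ 0 < g1_cl x := (e1.and e4).filter_mono nhdsWithin_le_nhds
    have e3 : ∀ᶠ x in 𝓝[<] (1/3 : ℝ), 0 < x := (lt_mem_nhds (by norm_num)).filter_mono nhdsWithin_le_nhds
    obtain ⟨x, ⟨a1, a2⟩, b, d⟩ := (e2.and (e3.and self_mem_nhdsWithin)).exists
    exact ⟨x, b, d, a1, a2⟩
  obtain ⟨I', hI1, hI2, hI3⟩ : ∃ I' : ℝ, I' < g1_cl θ ∧ c ^ 2 * V' < I' ^ 3 ∧ 0 < I' := by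
    have hcont : ContinuousAt (fun x : ℝ => x ^ 3) (g1_cl θ) := by fun_prop
    have e1 : ∀ᶠ x in 𝓝 (g1_cl θ), c ^ 2 * V' < x ^ 3 := hcont.eventually_const_lt hθ2
    have e2 : ∀ᶠ x in 𝓝[<] (g1_cl θ), c ^ 2 * V' < x ^ 3 := e1.filter_mono nhdsWithin_le_nhds
    have e3 : ∀ᶠ x in 𝓝[<] (g1_cl θ), 0 < x := (lt_mem_nhds hθ3).filter_mono nhdsWithin_le_nhds
    obtain ⟨x, a1, b, d⟩ := (e2.and (e3.and self_mem_nhdsWithin)).exists
    exact ⟨x, d, a1, b⟩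
  have k1 := g2_window hη hθ0 (by linarith) (c := Aconst (3/2) * I') (mul_lt_mul_of_pos_left hI1 hA)
  have k2 := g3_six (η := η) hθ0 hθ1 (c := Aconst (3/2) * V') (mul_lt_mul_of_pos_left hV1 hA)
  have hlog : Tendsto (fun p : ℝ × ℝ => Real.log p.1) (Fl η) atTop := Real.tendsto_log_atTop.comp (Fl_fst η)
  filter_upwards [k1, k2, hlog.eventually_gt_atTop 0, Fl_pos hη] with p h1 h2 hL hu
  obtain ⟨N, hN⟩ : ∃ N, N = ⌊p.1 ^ θ⌋₊ := ⟨_, rfl⟩
  rw [← hN] at h1 h2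
  have hBc : Continuous (fun t : ℝ => PP N (crit t)) := continuous_dp_crit (halfTrunc N) N
  have hH := holder_two (μ := (gaussianReal p.2 (vw p.1)).restrict (win p.2)) (f := fun t => ‖riemannZeta (crit t)‖) (g := fun t => ‖PP N (crit t)‖)
    continuous_zeta_crit.norm.aestronglyMeasurable hBc.norm.aestronglyMeasurable 
    (fun t => norm_nonneg _) (fun t => norm_nonneg _) (A := 4 + 2 * |2 * p.2|) (B := ∑ n ∈ Finset.Icc 1 N, halfTrunc N n) 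
    ((ae_restrict_iff' measurableSet_Icc).mpr (Eventually.of_forall fun t ht => by
      refine (norm_zeta_crit_le t).trans ?_
      have h5 : |t| ≤ |2 * p.2| := by
        obtain ⟨b1, b2⟩ := ht
        have b3 : 0 < p.2 := by linarith [hu.2]
        rw [abs_of_nonneg (by linarith), abs_of_nonneg (by linarith)]
        exact b2
      linarith)) (Eventually.of_forall fun t => norm_dp_crit_le (halfTrunc_nonneg N) N t) (r := 1) (m := 1) (k := 3) le_rfl (by norm_num)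
  obtain ⟨Z, hZ⟩ : ∃ Z, Z = ∫ t in win p.2, ‖riemannZeta (crit t)‖ ^ 3 ∂(gaussianReal p.2 (vw p.1)) := ⟨_, rfl⟩
  have hZ0 : 0 ≤ Z := by rw [hZ]; exact integral_nonneg fun t => by positivity
  rw [← hZ]
  simp only [mul_one, pow_one] at hH
  norm_num at hH
  rw [← hZ] at hH
  obtain ⟨L9, hL9⟩ : ∃ L9, L9 = (Real.log p.1) ^ (9/4 : ℝ) := ⟨_, rfl⟩
  have hL90 : 0 < L9 := by rw [hL9]; positivity
  rw [← hL9] at h1 h2
  have h3 : (Aconst (3/2) * I' * L9) ^ 3 ≤ Z ^ 2 * (Aconst (3/2) * V' * L9) := by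
    calc (Aconst (3/2) * I' * L9) ^ 3 ≤ (∫ t in win p.2, ‖riemannZeta (crit t)‖ ^ 2 * ‖PP N (crit t)‖ ^ 2 ∂(gaussianReal p.2 (vw p.1))) ^ 3 := by
          gcongr
      _ ≤ Z ^ 2 * ∫ t in win p.2, ‖PP N (crit t)‖ ^ 6 ∂(gaussianReal p.2 (vw p.1)) := hH
      _ ≤ _ := by gcongr
  have hLa : La3 p.1 = Aconst (3/2) * L9 := by unfold La3; rw [hL9]
  rw [hLa, ← ha] at *
  rw [← ha] at h3
  have h4 : (c * (a * L9)) ^ 2 * (a * V' * L9) ≤ Z ^ 2 * (a * V' * L9) := by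
    calc (c * (a * L9)) ^ 2 * (a * V' * L9) = (c ^ 2 * V') * (a * L9) ^ 3 := by ring
      _ ≤ I' ^ 3 * (a * L9) ^ 3 := by
          have : 0 < a * L9 := by positivity
          gcongr
      _ = (a * I' * L9) ^ 3 := by ring
      _ ≤ _ := h3
  have h5 : (c * (a * L9)) ^ 2 ≤ Z ^ 2 := le_of_mul_le_mul_right h4 (by positivity)
  exact (pow_le_pow_iff_left₀ (by positivity) hZ0 two_ne_zero).mp h5

end Pool.Agent.LibM3
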