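import Pool.Agent.LibM3.G5

/-! Third moment, lower bound, block G6: an upper bound for the volume of the sixth moment. -/

set_option autoImplicit false

namespace Pool.Agent.LibM3

open MeasureTheory Set Filter Topology Complex ProbabilityTheory
open scoped NNReal ComplexConjugate
open Pool.Agent.LibZM

/-- Rows. -/
noncomputable def g6_Psi (y : Fin 3 → Fin 3 → ℝ) : Fin 3 × Fin 3 → ℝ := fun p => y p.1 p.2

lemma g6_meas : Measurable g6_Psi := by
  unfold g6_Psi
  exact measurable_pi_lambda _ fun p => (measurable_pi_apply p.2).comp (measurable_pi_apply p.1)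

lemma g6_map : Measure.map g6_Psi volume = (volume : Measure (Fin 3 × Fin 3 → ℝ)) := by
  rw [volume_pi]
  symm
  apply Measure.pi_eq
  intro s hs
  rw [Measure.map_apply g6_meas (MeasurableSet.univ_pi hs)]
  have e : g6_Psi ⁻¹' (univ.pi s) = univ.pi (fun i => univ.pi (fun j => s (i, j))) := by
    ext y
    simp only [mem_preimage, Set.mem_pi, mem_univ, true_imp_iff, Prod.forall, g6_Psi]
  rw [e, volume_pi, Measure.pi_pi, Fintype.prod_prod_type]
  refine Finset.prod_congr rfl fun i _ => ?_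
  rw [Measure.pi_pi]

/-- The density of one row. -/
noncomputable def g6_F (s : ℝ) (y : Fin 3 → ℝ) : ℝ := boxI s (∑ j, y j) * ∏ j, cellρ (1/4) (y j)

lemma g6_F_nonneg (s : ℝ) (y : Fin 3 → ℝ) : 0 ≤ g6_F s y :=
  mul_nonneg (boxI_nonneg _ _) (Finset.prod_nonneg fun j _ => cellρ_nonneg (by norm_num) _)

lemma g6_E_int : Integrable (fun y : Fin 3 → ℝ => Real.exp (-∑ j, y j) * ∏ j, cellρ (1/4) (y j)) := by
  have h : Integrable (fun y : Fin 3 → ℝ => ∏ j, (fun t : ℝ => Real.exp (-(1 * t)) * cellρ (1/4) t) (y j)) :=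
    Integrable.fintype_prod (f := fun _ : Fin 3 => fun t : ℝ => Real.exp (-(1 * t)) * cellρ (1/4) t)
      fun _ => integrable_cell (by norm_num) one_pos
  refine h.congr (Eventually.of_forall fun y => ?_)
  simp only [one_mul]
  rw [Finset.prod_mul_distrib, ← Real.exp_sum, Finset.sum_neg_distrib]

lemma g6_E_integral : ∫ y : Fin 3 → ℝ, Real.exp (-∑ j, y j) * ∏ j, cellρ (1/4) (y j) = 1 := by
  have h : ∫ y : Fin 3 → ℝ, ∏ j, (fun t : ℝ => Real.exp (-(1 * t)) * cellρ (1/4) t) (y j) = 1 := by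
    rw [integral_fintype_prod_volume_eq_prod (fun _ : Fin 3 => fun t : ℝ => Real.exp (-(1 * t)) * cellρ (1/4) t)]
    rw [Finset.prod_eq_one]
    intro i _
    rw [integral_cell (by norm_num) one_pos, Real.one_rpow]
  refine Eq.trans ?_ h
  congr 1
  funext y
  simp only [one_mul]
  rw [Finset.prod_mul_distrib, ← Real.exp_sum, Finset.sum_neg_distrib]

lemma g6_F_meas (s : ℝ) : Measurable (g6_F s) := by
  unfold g6_F
  refine Measurable.mul ((measurable_boxI s).comp (by fun_prop)) ?_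
  exact Finset.measurable_prod _ fun j _ => (measurable_cellρ _).comp (measurable_pi_apply j)

lemma g6_F_int (s : ℝ) : Integrable (g6_F s) := by
  refine Integrable.mono' (g6_E_int.const_mul (Real.exp s)) (g6_F_meas s).aestronglyMeasurable (Eventually.of_forall fun y => ?_)
  rw [Real.norm_eq_abs, abs_of_nonneg (g6_F_nonneg s y)]
  unfold g6_F boxI
  have hp : 0 ≤ ∏ j, cellρ (1/4) (y j) := Finset.prod_nonneg fun j _ => cellρ_nonneg (by norm_num) _
  split_ifs with h
  · rw [one_mul, ← mul_assoc, ← Real.exp_add]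
    have : 1 ≤ Real.exp (s + -∑ j, y j) := Real.one_le_exp (by linarith)
    nlinarith
  · rw [zero_mul]; positivity

/-- Scaling. -/
lemma g6_scale {s : ℝ} (hs : 0 < s) : ∫ y, g6_F s y = s ^ (3/4 : ℝ) * ∫ y, g6_F 1 y := by
  have h := Measure.integral_comp_smul (volume : Measure (Fin 3 → ℝ)) (g6_F s) s
  rw [Module.finrank_fintype_fun_eq_card ℝ, Fintype.card_fin] at h
  have hpos : 0 < s ^ 3 := by positivity
  rw [abs_of_pos (inv_pos.mpr hpos), smul_eq_mul] at h
  have h2 : ∀ y : Fin 3 → ℝ, g6_F s (s • y) = (s ^ (-(9/4) : ℝ)) * g6_F 1 y := by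
    intro y
    unfold g6_F
    have e1 : ∑ j, (s • y) j = s * ∑ j, y j := by rw [Finset.mul_sum]; rfl
    have e2 : ∀ j, cellρ (1/4) ((s • y) j) = s ^ ((1/4 : ℝ) - 1) * cellρ (1/4) (y j) := fun j => cellρ_scale hs _ _
    have e3 : boxI s (s * ∑ j, y j) = boxI 1 (∑ j, y j) := by
      have := boxI_scale hs 1 (∑ j, y j)
      rwa [mul_one] at this
    rw [e1, e3]
    simp_rw [e2]
    rw [Finset.prod_mul_distrib, Finset.prod_const, Finset.card_univ, Fintype.card_fin, ← Real.rpow_natCast, ← Real.rpow_mul hs.le]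
    have : ((1/4 : ℝ) - 1) * ((3:ℕ):ℝ) = -(9/4) := by push_cast; norm_num
    rw [this]
    ring
  simp_rw [h2] at h
  rw [integral_const_mul] at h
  have e4 : ∫ y, g6_F s y = s ^ 3 * ((s ^ 3)⁻¹ * ∫ y, g6_F s y) := by field_simp
  rw [e4, ← h, ← mul_assoc, ← Real.rpow_natCast s 3, ← Real.rpow_add hs]
  norm_num

lemma g6_lap (x : ℝ) : ∫ s in Ioi (0:ℝ), (if x ≤ s then Real.exp (-s) else 0) = Real.exp (-(max x 0)) := by
  have e : (fun s : ℝ => if x ≤ s then Real.exp (-s) else 0) = (Ici x).indicator (fun s => Real.exp (-s)) := by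
    funext s
    simp only [indicator, mem_Ici]
  rw [e, setIntegral_indicator measurableSet_Ici]
  have e2 : (Ioi (0:ℝ) ∩ Ici x : Set ℝ) =ᵐ[volume] Ioi (max x 0) := by
    rcases le_total x 0 with h | h
    · rw [max_eq_right h]
      have : Ioi (0:ℝ) ∩ Ici x = Ioi 0 := by
        ext y; simp only [mem_inter_iff, mem_Ioi, mem_Ici]; constructor
        · exact fun h => h.1
        · exact fun h2 => ⟨h2, by linarith⟩
      rw [this]
    · rw [max_eq_left h]
      have h1 : Ioi x ⊆ Ioi (0:ℝ) ∩ Ici x := fun y hy => ⟨lt_of_le_of_lt h hy, Ioi_subset_Ici_self hy⟩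
      have h2 : Ioi (0:ℝ) ∩ Ici x ⊆ Ici x := inter_subset_right
      have h3 : Ioi x =ᵐ[volume] Ici x := Ioi_ae_eq_Ici
      exact (h2.eventuallyLE.trans h3.symm.le).antisymm h1.eventuallyLE
  rw [setIntegral_congr_set e2]
  have := integral_exp_neg_Ioi (max x 0)
  exact this

/-- The mass of one row. -/
theorem g6_row : ∫ y, g6_F 1 y = 1 / Real.Gamma (7/4) := by
  have hG : Real.Gamma (7/4) ≠ 0 := (Real.Gamma_pos_of_pos (by norm_num)).ne'
  rw [eq_div_iff hG, mul_comm]
  -- the double integral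
  have hint : Integrable (Function.uncurry fun (s : ℝ) (y : Fin 3 → ℝ) => Real.exp (-s) * g6_F s y)
      ((volume.restrict (Ioi (0:ℝ))).prod volume) := by
    have hm : Measurable (Function.uncurry fun (s : ℝ) (y : Fin 3 → ℝ) => Real.exp (-s) * g6_F s y) := by
      unfold Function.uncurry g6_F boxI
      refine Measurable.mul (by fun_prop) (Measurable.mul ?_ ?_)
      · exact Measurable.ite (measurableSet_le (by fun_prop) (by fun_prop)) measurable_const measurable_const
      · exact Finset.measurable_prod _ fun j _ => (measurable_cellρ _).comp ((measurable_pi_apply j).comp measurable_snd)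
    rw [integrable_prod_iff hm.aestronglyMeasurable]
    constructor
    · exact Eventually.of_forall fun s => (g6_F_int s).const_mul (Real.exp (-s))
    · have e : (fun s : ℝ => ∫ y, ‖Function.uncurry (fun (s : ℝ) (y : Fin 3 → ℝ) => Real.exp (-s) * g6_F s y) (s, y)‖) = 
          fun s : ℝ => Real.exp (-s) * ∫ y, g6_F s y := by
        funext s
        rw [← integral_const_mul]
        congr 1
        funext y
        simp only [Function.uncurry]
        rw [Real.norm_eq_abs, abs_of_nonneg (mul_nonneg (Real.exp_pos _).le (g6_F_nonneg s y))]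
      rw [e]
      have h1 : IntegrableOn (fun s : ℝ => Real.exp (-s) * s ^ ((7/4 : ℝ) - 1) * ∫ y, g6_F 1 y) (Ioi 0) := 
        (Real.GammaIntegral_convergent (s := 7/4) (by norm_num)).mul_const _
      refine IntegrableOn.congr_fun h1 (fun s hs => ?_) measurableSet_Ioi
      rw [g6_scale hs, show ((7/4 : ℝ) - 1) = 3/4 by norm_num]
      ring
  have h1 : ∫ s in Ioi (0:ℝ), ∫ y, Real.exp (-s) * g6_F s y = Real.Gamma (7/4) * ∫ y, g6_F 1 y := by
    rw [Real.Gamma_eq_integral (by norm_num), ← integral_mul_const]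
    refine setIntegral_congr_fun measurableSet_Ioi fun s hs => ?_
    rw [integral_const_mul, g6_scale hs, show ((7/4 : ℝ) - 1) = 3/4 by norm_num]
    ring
  have h2 : ∫ s in Ioi (0:ℝ), ∫ y, Real.exp (-s) * g6_F s y = ∫ y, ∫ s in Ioi (0:ℝ), Real.exp (-s) * g6_F s y :=
    integral_integral_swap hint
  have h3 : ∫ y, ∫ s in Ioi (0:ℝ), Real.exp (-s) * g6_F s y = 1 := by
    rw [← g6_E_integral]
    congr 1
    funext y
    have e : ∀ s : ℝ, Real.exp (-s) * g6_F s y = (if ∑ j, y j ≤ s then Real.exp (-s) else 0) * ∏ j, cellρ (1/4) (y j) := by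
      intro s
      unfold g6_F boxI
      split_ifs <;> ring
    simp_rw [e]
    rw [integral_mul_const, g6_lap]
    by_cases hy : ∀ j, 0 < y j
    · rw [max_eq_left (Finset.sum_nonneg fun j _ => (hy j).le)]
    · push Not at hy
      obtain ⟨j, hj⟩ := hy
      have : ∏ j, cellρ (1/4) (y j) = 0 := by
        apply Finset.prod_eq_zero (Finset.mem_univ j)
        unfold cellρ
        rw [indicator_of_notMem]
        exact not_lt.mpr hj
      rw [this, mul_zero, mul_zero]
  rw [← h1, h2, h3]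

/-- The bound for the volume. -/
theorem g6_V_le : g3_V ≤ ((1/3 : ℝ) ^ (3/4 : ℝ) / Real.Gamma (7/4)) ^ 3 := by
  have hprod : ∫ y : Fin 3 → Fin 3 → ℝ, ∏ i, g6_F (1/3) (y i) = ((1/3 : ℝ) ^ (3/4 : ℝ) / Real.Gamma (7/4)) ^ 3 := by
    rw [integral_fintype_prod_volume_eq_pow (g6_F (1/3)), Fintype.card_fin, g6_scale (by norm_num), g6_row]
    ring
  have hpi : Integrable (fun y : Fin 3 → Fin 3 → ℝ => ∏ i, g6_F (1/3) (y i)) :=
    Integrable.fintype_prod (f := fun _ : Fin 3 => g6_F (1/3)) fun _ => g6_F_int _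
  rw [← hprod]
  unfold g3_V VolC LG
  have hα : ∀ i, 0 < alphaD 3 i := by intro i; unfold alphaD; norm_num
  have hLi := integrable_LG_box hα (thetaD 3) 1
  rw [← g6_map] at hLi ⊢
  have hLi2 := hLi.comp_measurable g6_meas
  rw [integral_map g6_meas.aemeasurable hLi.aestronglyMeasurable]
  refine integral_mono hLi2 hpi fun y => ?_
  simp only
  have e1 : ∀ i, rowS (g6_Psi y) i = ∑ j, y i j := fun i => rfl
  have e2 : cellD (alphaD 3) (g6_Psi y) = ∏ i, ∏ j, cellρ (1/4) (y i j) := by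
    unfold cellD
    rw [Fintype.prod_prod_type]
    refine Finset.prod_congr rfl fun i _ => Finset.prod_congr rfl fun j _ => ?_
    unfold alphaD g6_Psi
    norm_num
  have e3 : ∏ i, g6_F (1/3) (y i) = (∏ i, boxI (thetaD 3 i) (rowS (g6_Psi y) i)) * cellD (alphaD 3) (g6_Psi y) := by
    rw [e2, ← Finset.prod_mul_distrib]
    refine Finset.prod_congr rfl fun i _ => ?_
    unfold g6_F thetaD
    rw [e1]
    norm_num
  rw [e3]
  have a1 : 0 ≤ ∏ i, boxI (thetaD 3 i) (rowS (g6_Psi y) i) := Finset.prod_nonneg fun i _ => boxI_nonneg _ _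
  have a2 : ∏ j, boxI (thetaD 3 j) (colS (g6_Psi y) j) ≤ 1 := Finset.prod_le_one (fun i _ => boxI_nonneg _ _) fun i _ => boxI_le_one _ _
  have a2' : 0 ≤ ∏ j, boxI (thetaD 3 j) (colS (g6_Psi y) j) := Finset.prod_nonneg fun i _ => boxI_nonneg _ _
  have a3 := boxI_le_one 1 (totS (g6_Psi y))
  have a3' := boxI_nonneg 1 (totS (g6_Psi y))
  have a4 := cellD_nonneg hα (g6_Psi y)
  apply mul_le_mul_of_nonneg_right _ a4
  calc (∏ i, boxI (thetaD 3 i) (rowS (g6_Psi y) i)) * (∏ j, boxI (thetaD 3 j) (colS (g6_Psi y) j)) * boxI 1 (totS (g6_Psi y)) 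
      ≤ (∏ i, boxI (thetaD 3 i) (rowS (g6_Psi y) i)) * 1 * 1 := by gcongr
    _ = _ := by ring

end Pool.Agent.LibM3
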