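import Pool.Agent.LibM3.G6
import Pool.Agent.LibM3.Z2

/-! Third moment, lower bound, block G7: the numerical value of the lower constant. -/

set_option autoImplicit false

namespace Pool.Agent.LibM3

open MeasureTheory Set Filter Topology Complex ProbabilityTheory
open scoped NNReal ComplexConjugate
open Pool.Agent.LibZM

theorem g7_Gamma_quarter : Real.Gamma (1/4) ≤ 362902/100000 := by
  have hfeq : ∀ {y : ℝ}, 0 < y → (Real.log ∘ Real.Gamma) (y + 1) = (Real.log ∘ Real.Gamma) y + Real.log y := by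
    intro y hy
    simp only [Function.comp]
    rw [Real.Gamma_add_one hy.ne', Real.log_mul hy.ne' (Real.Gamma_pos_of_pos hy).ne']
    ring
  have h := Real.BohrMollerup.f_add_nat_le (n := 100) (x := 1/4) Real.convexOn_log_Gamma hfeq (by norm_num) (by norm_num) (by norm_num)
  simp only [Function.comp] at h
  have h100 : Real.Gamma ((100:ℕ):ℝ) = ((Nat.factorial 99 : ℕ) : ℝ) := by
    have := Real.Gamma_nat_eq_factorial 99
    have h2 : ((99:ℕ):ℝ) + 1 = ((100:ℕ):ℝ) := by norm_num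
    rw [h2] at this
    exact this
  have hpos : 0 < Real.Gamma (1/4) := Real.Gamma_pos_of_pos (by norm_num)
  rw [h100, z2b_Gamma_add] at h
  have hf0 : (0:ℝ) < ((Nat.factorial 99 : ℕ) : ℝ) := by positivity
  set P := ∏ k ∈ Finset.range 100, ((k:ℝ) + 1/4) with hP
  have hPpos : 0 < P := Finset.prod_pos fun k _ => by positivity
  rw [Real.log_mul hPpos.ne' hpos.ne'] at h
  have h4 : (1/4 : ℝ) * Real.log ((100:ℕ):ℝ) ≤ Real.log (316228/100000) := by
    have h5 : Real.log ((100:ℕ):ℝ) ≤ Real.log ((316228/100000 : ℝ) ^ 4) := Real.log_le_log (by norm_num) (by norm_num)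
    rw [Real.log_pow] at h5
    push_cast at h5 ⊢
    linarith
  have h5 : Real.log (Real.Gamma (1/4)) ≤ Real.log (((Nat.factorial 99 : ℕ) : ℝ) * (316228/100000) / P) := by
    rw [Real.log_div (by positivity) hPpos.ne', Real.log_mul (by positivity) (by norm_num)]
    linarith
  have h6 := (Real.log_le_log_iff hpos (by positivity)).mp h5
  refine h6.trans ?_
  rw [div_le_iff₀ hPpos, hP]
  norm_num [Finset.prod_range_succ, Nat.factorial]

lemma g7_Gamma74 : Real.Gamma (7/4) * Real.Gamma (1/4) = (3/4) * (Real.pi * √2) := by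
  have h1 : Real.Gamma (7/4) = (3/4) * Real.Gamma (3/4) := by
    have := Real.Gamma_add_one (s := 3/4) (by norm_num)
    rw [show (3/4 : ℝ) + 1 = 7/4 by norm_num] at this
    exact this
  have h2 := Real.Gamma_mul_Gamma_one_sub (1/4)
  rw [show (1 : ℝ) - 1/4 = 3/4 by norm_num, show Real.pi * (1/4) = Real.pi / 4 by ring, Real.sin_pi_div_four] at h2
  have h3 : Real.pi / (√2 / 2) = Real.pi * √2 := by
    have hs : √2 * √2 = (2:ℝ) := Real.mul_self_sqrt (by norm_num)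
    have hs0 : √2 ≠ 0 := by positivity
    rw [div_eq_iff (by positivity)]
    linear_combination (-(Real.pi / 2)) * hs
  rw [h3] at h2
  rw [h1]
  linear_combination (3/4) * h2

lemma g7_cl : g1_cl (1/3) = (1 / (Real.pi * Real.Gamma (1/4))) * ((832/27) * (1/3 : ℝ) ^ (9/4 : ℝ)) := by
  unfold g1_cl
  congr 1
  have h : (1/3 : ℝ) ^ (5/4 : ℝ) = 3 * (1/3 : ℝ) ^ (9/4 : ℝ) := by
    rw [show (9/4 : ℝ) = 5/4 + 1 by norm_num, Real.rpow_add (by norm_num), Real.rpow_one]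
    ring
  rw [h]
  ring

/-- The numerical lower bound. -/
theorem g7_C : 33/100 < g4_C := by
  unfold g4_C
  rw [Real.lt_sqrt (by norm_num)]
  have hV := g3_V_pos
  have hVle := g6_V_le
  rw [lt_div_iff₀ hV]
  have hG : 0 < Real.Gamma (1/4) := Real.Gamma_pos_of_pos (by norm_num)
  have hG7 : 0 < Real.Gamma (7/4) := Real.Gamma_pos_of_pos (by norm_num)
  have hpi := Real.pi_pos
  have hGle := g7_Gamma_quarter
  have hprod := g7_Gamma74
  refine lt_of_le_of_lt (mul_le_mul_of_nonneg_left hVle (by norm_num)) ?_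
  rw [g7_cl]
  obtain ⟨G, hGd⟩ : ∃ G, G = Real.Gamma (1/4) := ⟨_, rfl⟩
  obtain ⟨K, hKd⟩ : ∃ K, K = Real.Gamma (7/4) := ⟨_, rfl⟩
  obtain ⟨p, hpd⟩ : ∃ p, p = Real.pi := ⟨_, rfl⟩
  rw [← hGd] at hG hGle
  rw [← hKd] at hG7
  rw [← hpd] at hpi
  rw [← hGd, ← hKd, ← hpd] at hprod
  rw [← hGd, ← hKd, ← hpd]
  -- powers of 3
  obtain ⟨x, hx⟩ : ∃ x, x = (1/3 : ℝ) ^ (9/4 : ℝ) := ⟨_, rfl⟩
  have hx0 : 0 < x := by rw [hx]; positivity
  have h34 : ((1/3 : ℝ) ^ (3/4 : ℝ)) ^ 3 = x := by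
    rw [hx, ← Real.rpow_natCast, ← Real.rpow_mul (by norm_num)]
    congr 1
    norm_num
  have hx2 : x ^ 2 * √3 = 1 / 81 := by
    have h3 : √3 = (3:ℝ) ^ (1/2 : ℝ) := Real.sqrt_eq_rpow 3
    have e : x ^ 2 = (1/3 : ℝ) ^ (9/2 : ℝ) := by
      rw [hx, ← Real.rpow_natCast, ← Real.rpow_mul (by norm_num)]
      congr 1
      norm_num
    rw [e, h3, one_div, Real.inv_rpow (by norm_num), ← Real.rpow_neg (by norm_num), ← Real.rpow_add (by norm_num)]
    norm_num
  rw [show ((1/3 : ℝ) ^ (3/4 : ℝ) / K) ^ 3 = x / K ^ 3 by rw [div_pow, h34], ← hx]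
  have hs3 : √3 < 173206/100000 := by
    rw [Real.sqrt_lt' (by norm_num)]; norm_num
  have hs2 : 141421/100000 < √2 := by
    rw [Real.lt_sqrt (by norm_num)]; norm_num
  have hs30 : 0 < √3 := by positivity
  -- reduce to a statement on G
  have hG6 : G ^ 6 ≤ (362902/100000 : ℝ) ^ 6 := by gcongr
  have key : (33/100 : ℝ) ^ 2 * G ^ 6 < (832/27) ^ 3 * x ^ 2 * ((27/64) * (2 * √2)) := by
    have e1 : x ^ 2 > 1 / 81 / (173206/100000) := by
      rw [gt_iff_lt, div_lt_iff₀ (by norm_num), ← hx2]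
      exact mul_lt_mul_of_pos_left hs3 (by positivity)
    calc (33/100 : ℝ) ^ 2 * G ^ 6 ≤ (33/100 : ℝ) ^ 2 * (362902/100000 : ℝ) ^ 6 := by gcongr
      _ < (832/27) ^ 3 * (1 / 81 / (173206/100000)) * ((27/64) * (2 * (141421/100000))) := by norm_num
      _ ≤ (832/27) ^ 3 * x ^ 2 * ((27/64) * (2 * √2)) := by gcongr
  have hK3 : K ^ 3 * G ^ 3 = (27/64) * (2 * √2) * p ^ 3 := by
    have hs : √2 ^ 3 = 2 * √2 := by
      have : √2 ^ 2 = (2:ℝ) := Real.sq_sqrt (by norm_num)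
      calc √2 ^ 3 = √2 ^ 2 * √2 := by ring
        _ = _ := by rw [this]
    calc K ^ 3 * G ^ 3 = (K * G) ^ 3 := by ring
      _ = (3/4 * (p * √2)) ^ 3 := by rw [hprod]
      _ = (27/64) * √2 ^ 3 * p ^ 3 := by ring
      _ = _ := by rw [hs]
  have e5 : (1 / (p * G) * (832 / 27 * x)) ^ 3 = (832/27) ^ 3 * x ^ 2 * x / (p ^ 3 * G ^ 3) := by
    field_simp
  rw [e5, lt_div_iff₀ (by positivity)]
  have e6 : (33/100 : ℝ) ^ 2 * (x / K ^ 3) * (p ^ 3 * G ^ 3) = ((33/100 : ℝ) ^ 2 * G ^ 6) * x * (p ^ 3 / (K ^ 3 * G ^ 3)) := by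
    field_simp
  rw [e6, hK3]
  have e7 : p ^ 3 / ((27/64) * (2 * √2) * p ^ 3) = 1 / ((27/64) * (2 * √2)) := by
    field_simp
  rw [e7, mul_one_div, div_lt_iff₀ (by positivity)]
  calc (33/100 : ℝ) ^ 2 * G ^ 6 * x < ((832/27) ^ 3 * x ^ 2 * ((27/64) * (2 * √2))) * x := mul_lt_mul_of_pos_right key hx0
    _ = _ := by ring

end Pool.Agent.LibM3
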