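import Pool.Agent.LibM3.G6

/-! Third moment, lower bound, block H1: the inequality of Harris for products of one finite measure on the line. -/

set_option autoImplicit false

namespace Pool.Agent.LibM3

open MeasureTheory Set Filter Topology

lemma h1_int {α : Type*} [MeasurableSpace α] {μ : Measure α} [IsFiniteMeasure μ] {f : α → ℝ} (hf : Measurable f)
    {C : ℝ} (hC : ∀ x, |f x| ≤ C) : Integrable f μ :=
  Integrable.of_bound hf.aestronglyMeasurable C (Eventually.of_forall fun x => by rw [Real.norm_eq_abs]; exact hC x)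

theorem h1_one {μ : Measure ℝ} [IsFiniteMeasure μ] {f g : ℝ → ℝ} (hf : Measurable f) (hg : Measurable g)
    {C D : ℝ} (hC : ∀ x, |f x| ≤ C) (hD : ∀ x, |g x| ≤ D) (hfm : Monotone f) (hga : Antitone g) :
    μ.real univ * ∫ x, f x * g x ∂μ ≤ (∫ x, f x ∂μ) * ∫ x, g x ∂μ := by
  have hfi : Integrable f μ := h1_int hf hC
  have hgi : Integrable g μ := h1_int hg hD
  have hfgi : Integrable (fun x => f x * g x) μ := by
    refine h1_int (hf.mul hg) (C := C * D) fun x => ?_
    rw [abs_mul]
    exact mul_le_mul (hC x) (hD x) (abs_nonneg _) ((abs_nonneg _).trans (hC x))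
  have key : ∀ y, (∫ x, f x * g x ∂μ) - g y * (∫ x, f x ∂μ) - f y * (∫ x, g x ∂μ) + μ.real univ * (f y * g y) ≤ 0 := by
    intro y
    have h1 : ∫ x, (f x - f y) * (g x - g y) ∂μ ≤ 0 := by
      refine integral_nonpos fun x => ?_
      rcases le_total x y with h | h
      · exact mul_nonpos_of_nonpos_of_nonneg (sub_nonpos.mpr (hfm h)) (sub_nonneg.mpr (hga h))
      · exact mul_nonpos_of_nonneg_of_nonpos (sub_nonneg.mpr (hfm h)) (sub_nonpos.mpr (hga h))
    have h2 : ∫ x, (f x - f y) * (g x - g y) ∂μ =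
        (∫ x, f x * g x ∂μ) - g y * (∫ x, f x ∂μ) - f y * (∫ x, g x ∂μ) + μ.real univ * (f y * g y) := by
      have e : ∀ x, (f x - f y) * (g x - g y) = f x * g x - g y * f x - f y * g x + f y * g y := fun x => by ring
      simp_rw [e]
      have i1 : Integrable (fun x => f x * g x - g y * f x) μ := hfgi.sub (hfi.const_mul _)
      have i2 : Integrable (fun x => f x * g x - g y * f x - f y * g x) μ := i1.sub (hgi.const_mul _)
      rw [integral_add i2 (integrable_const _), integral_sub i1 (hgi.const_mul _), integral_sub hfgi (hfi.const_mul _),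
        integral_const_mul, integral_const_mul, integral_const, smul_eq_mul]
    rw [← h2]; exact h1
  have h3 : ∫ y, ((∫ x, f x * g x ∂μ) - g y * (∫ x, f x ∂μ) - f y * (∫ x, g x ∂μ) + μ.real univ * (f y * g y)) ∂μ ≤ 0 :=
    integral_nonpos key
  have j1 : Integrable (fun y => (∫ x, f x * g x ∂μ) - g y * (∫ x, f x ∂μ)) μ := (integrable_const _).sub (hgi.mul_const _)
  have j2 : Integrable (fun y => (∫ x, f x * g x ∂μ) - g y * (∫ x, f x ∂μ) - f y * (∫ x, g x ∂μ)) μ := j1.sub (hfi.mul_const _)
  rw [integral_add j2 (hfgi.const_mul _), integral_sub j1 (hfi.mul_const _),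
    integral_sub (integrable_const _) (hgi.mul_const _), integral_const, smul_eq_mul, integral_mul_const,
    integral_mul_const, integral_const_mul] at h3
  nlinarith [h3]

theorem h1_harris (μ : Measure ℝ) [IsFiniteMeasure μ] (n : ℕ) : ∀ f g : (Fin n → ℝ) → ℝ, Measurable f → Measurable g →
    ∀ C D : ℝ, (∀ x, |f x| ≤ C) → (∀ x, |g x| ≤ D) → Monotone f → Antitone g →
    μ.real univ ^ n * ∫ x, f x * g x ∂(Measure.pi fun _ => μ) ≤
      (∫ x, f x ∂(Measure.pi fun _ => μ)) * ∫ x, g x ∂(Measure.pi fun _ => μ) := by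
  induction n with
  | zero =>
    intro f g _ _ _ _ _ _ _ _
    rw [Measure.pi_of_empty, integral_dirac, integral_dirac, integral_dirac, pow_zero, one_mul]
  | succ n ih =>
    intro f g hf hg C D hC hD hfm hga
    obtain ⟨m, hm⟩ : ∃ m, m = μ.real univ := ⟨_, rfl⟩
    obtain ⟨P, hP⟩ : ∃ P : Measure (Fin n → ℝ), P = Measure.pi fun _ => μ := ⟨_, rfl⟩
    have hPf : IsFiniteMeasure P := by rw [hP]; infer_instance
    have hmp := measurePreserving_piFinSuccAbove (fun _ : Fin (n+1) => μ) 0
    have hcons : Measurable fun p : ℝ × (Fin n → ℝ) => (Fin.insertNth 0 p.1 p.2 : Fin (n+1) → ℝ) := by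
      have := (MeasurableEquiv.piFinSuccAbove (fun _ : Fin (n+1) => ℝ) 0).symm.measurable
      exact this
    have hint : ∀ F : (Fin (n+1) → ℝ) → ℝ, Measurable F → ∀ B : ℝ, (∀ x, |F x| ≤ B) →
        ∫ x, F x ∂(Measure.pi fun _ => μ) = ∫ a, ∫ v, F (Fin.insertNth 0 a v) ∂P ∂μ := by
      intro F hF B hB
      have h1 := hmp.symm.integral_comp' (g := F)
      rw [← h1, hP]
      have h2 : Integrable (fun p : ℝ × (Fin n → ℝ) => F (Fin.insertNth 0 p.1 p.2)) (μ.prod (Measure.pi fun _ => μ)) :=
        h1_int (hF.comp hcons) fun p => hB _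
      exact integral_prod _ h2
    have hmono : ∀ a b : ℝ, ∀ v w : Fin n → ℝ, a ≤ b → v ≤ w →
        (Fin.insertNth 0 a v : Fin (n+1) → ℝ) ≤ Fin.insertNth 0 b w := by
      intro a b v w hab hvw i
      refine Fin.cases ?_ (fun i => ?_) i
      · simpa using hab
      · simpa using hvw i
    obtain ⟨F, hF⟩ : ∃ F : ℝ → ℝ, F = fun a => ∫ v, f (Fin.insertNth 0 a v) ∂P := ⟨_, rfl⟩
    obtain ⟨G, hG⟩ : ∃ G : ℝ → ℝ, G = fun a => ∫ v, g (Fin.insertNth 0 a v) ∂P := ⟨_, rfl⟩
    have hsl : ∀ a : ℝ, Measurable fun v : Fin n → ℝ => (Fin.insertNth 0 a v : Fin (n+1) → ℝ) := fun a =>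
      hcons.comp (measurable_const.prodMk measurable_id)
    have hfi : ∀ a, Integrable (fun v => f (Fin.insertNth 0 a v)) P := fun a => h1_int (hf.comp (hsl a)) fun _ => hC _
    have hgi : ∀ a, Integrable (fun v => g (Fin.insertNth 0 a v)) P := fun a => h1_int (hg.comp (hsl a)) fun _ => hD _
    have hFm : Measurable F := by
      rw [hF]
      have h0 : StronglyMeasurable (Function.uncurry fun (a : ℝ) (v : Fin n → ℝ) => f (Fin.insertNth 0 a v)) :=
        (hf.comp hcons).stronglyMeasurable
      exact (h0.integral_prod_right (ν := P)).measurable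
    have hGm : Measurable G := by
      rw [hG]
      have h0 : StronglyMeasurable (Function.uncurry fun (a : ℝ) (v : Fin n → ℝ) => g (Fin.insertNth 0 a v)) :=
        (hg.comp hcons).stronglyMeasurable
      exact (h0.integral_prod_right (ν := P)).measurable
    have hFC : ∀ a, |F a| ≤ C * P.real univ := by
      intro a
      rw [hF, ← Real.norm_eq_abs]
      exact norm_integral_le_of_norm_le_const (Eventually.of_forall fun v => by rw [Real.norm_eq_abs]; exact hC _)
    have hGD : ∀ a, |G a| ≤ D * P.real univ := by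
      intro a
      rw [hG, ← Real.norm_eq_abs]
      exact norm_integral_le_of_norm_le_const (Eventually.of_forall fun v => by rw [Real.norm_eq_abs]; exact hD _)
    have hFmono : Monotone F := by
      intro a b hab
      rw [hF]
      exact integral_mono (hfi a) (hfi b) fun v => hfm (hmono a b v v hab le_rfl)
    have hGanti : Antitone G := by
      intro a b hab
      rw [hG]
      exact integral_mono (hgi b) (hgi a) fun v => hga (hmono a b v v hab le_rfl)
    have hfg : ∀ x, |f x * g x| ≤ C * D := fun x => by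
      rw [abs_mul]
      exact mul_le_mul (hC x) (hD x) (abs_nonneg _) ((abs_nonneg _).trans (hC x))
    rw [hint f hf C hC, hint g hg D hD, hint (fun x => f x * g x) (hf.mul hg) _ hfg, ← hm]
    have h1 : ∀ a, m ^ n * ∫ v, f (Fin.insertNth 0 a v) * g (Fin.insertNth 0 a v) ∂P ≤ F a * G a := by
      intro a
      have := ih (fun v => f (Fin.insertNth 0 a v)) (fun v => g (Fin.insertNth 0 a v)) (hf.comp (hsl a)) (hg.comp (hsl a))
        C D (fun _ => hC _) (fun _ => hD _) (fun v w hvw => hfm (hmono a a v w le_rfl hvw))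
        (fun v w hvw => hga (hmono a a v w le_rfl hvw))
      rw [hF, hG, hm, hP]
      exact this
    have h2 : Integrable (fun a => ∫ v, f (Fin.insertNth 0 a v) * g (Fin.insertNth 0 a v) ∂P) μ := by
      have h3 : Integrable (fun p : ℝ × (Fin n → ℝ) => f (Fin.insertNth 0 p.1 p.2) * g (Fin.insertNth 0 p.1 p.2)) (μ.prod P) :=
        h1_int ((hf.comp hcons).mul (hg.comp hcons)) fun p => hfg _
      exact h3.integral_prod_left
    have h4 : Integrable (fun a => F a * G a) μ := by
      refine h1_int (hFm.mul hGm) (C := (C * P.real univ) * (D * P.real univ)) fun a => ?_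
      rw [abs_mul]
      exact mul_le_mul (hFC a) (hGD a) (abs_nonneg _) ((abs_nonneg _).trans (hFC a))
    have h5 : m ^ n * ∫ a, (∫ v, f (Fin.insertNth 0 a v) * g (Fin.insertNth 0 a v) ∂P) ∂μ ≤ ∫ a, F a * G a ∂μ := by
      rw [← integral_const_mul]
      exact integral_mono (h2.const_mul _) h4 h1
    have h6 := h1_one (μ := μ) hFm hGm hFC hGD hFmono hGanti
    have hm0 : 0 ≤ m := by rw [hm]; exact measureReal_nonneg
    rw [← hm] at h6
    have e7 : ∀ a, (∫ v, f (Fin.insertNth 0 a v) ∂P) = F a := fun a => by rw [hF]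
    have e8 : ∀ a, (∫ v, g (Fin.insertNth 0 a v) ∂P) = G a := fun a => by rw [hG]
    simp_rw [e7, e8]
    calc m ^ (n+1) * ∫ a, (∫ v, f (Fin.insertNth 0 a v) * g (Fin.insertNth 0 a v) ∂P) ∂μ
        = m * (m ^ n * ∫ a, (∫ v, f (Fin.insertNth 0 a v) * g (Fin.insertNth 0 a v) ∂P) ∂μ) := by ring
      _ ≤ m * ∫ a, F a * G a ∂μ := mul_le_mul_of_nonneg_left h5 hm0
      _ ≤ _ := h6

end Pool.Agent.LibM3
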