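import Pool.Agent.LibM3.H1

/-! Third moment, lower bound, block H2: disintegration of the law of one row with respect to one entry. -/

set_option autoImplicit false

namespace Pool.Agent.LibM3

open MeasureTheory Set Filter Topology
open Pool.Agent.LibZM
open scoped ENNReal

/-- The density of one entry. -/
noncomputable def h2_phi (z : ℝ) : ℝ := cellρ (1/4) z * √(1 - z)

/-- The density of the two other entries after scaling. -/
noncomputable def h2_g (w : Fin 2 → ℝ) : ℝ := boxI 1 (∑ l, w l) * ∏ l, cellρ (1/4) (w l)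

/-- The parametrisation of one row. -/
noncomputable def h2_T (j : Fin 3) (p : ℝ × (Fin 2 → ℝ)) : Fin 3 → ℝ := j.insertNth (α := fun _ => ℝ) p.1 ((1 - p.1) • p.2)

noncomputable def h2_nu : Measure ℝ := volume.withDensity fun z => ENNReal.ofReal (h2_phi z)

noncomputable def h2_sig : Measure (Fin 2 → ℝ) := volume.withDensity fun w => ENNReal.ofReal (h2_g w)

noncomputable def h2_rho : Measure (Fin 3 → ℝ) := volume.withDensity fun y => ENNReal.ofReal (g6_F 1 y)

lemma h2_phi_meas : Measurable h2_phi := by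
  unfold h2_phi
  exact (measurable_cellρ _).mul (by fun_prop)

lemma h2_g_meas : Measurable h2_g := by
  unfold h2_g
  refine Measurable.mul ((measurable_boxI 1).comp (by fun_prop)) ?_
  exact Finset.measurable_prod _ fun j _ => (measurable_cellρ _).comp (measurable_pi_apply j)

lemma h2_phi_nonneg (z : ℝ) : 0 ≤ h2_phi z := mul_nonneg (cellρ_nonneg (by norm_num) _) (Real.sqrt_nonneg _)

lemma h2_g_nonneg (w : Fin 2 → ℝ) : 0 ≤ h2_g w :=
  mul_nonneg (boxI_nonneg _ _) (Finset.prod_nonneg fun j _ => cellρ_nonneg (by norm_num) _)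

lemma h2_ins_meas (j : Fin 3) : Measurable fun p : ℝ × (Fin 2 → ℝ) => (j.insertNth (α := fun _ => ℝ) p.1 p.2 : Fin 3 → ℝ) :=
  (MeasurableEquiv.piFinSuccAbove (fun _ : Fin 3 => ℝ) j).symm.measurable

lemma h2_T_meas (j : Fin 3) : Measurable (h2_T j) := by
  unfold h2_T
  have h : Measurable fun p : ℝ × (Fin 2 → ℝ) => (p.1, (1 - p.1) • p.2) := by fun_prop
  exact (h2_ins_meas j).comp h

lemma h2_F_ins (j : Fin 3) (z : ℝ) (v : Fin 2 → ℝ) :
    g6_F 1 (j.insertNth (α := fun _ => ℝ) z v) = boxI 1 (z + ∑ l, v l) * (cellρ (1/4) z * ∏ l, cellρ (1/4) (v l)) := by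
  unfold g6_F
  rw [Fin.sum_univ_succAbove _ j, Fin.prod_univ_succAbove _ j]
  simp only [Fin.insertNth_apply_same, Fin.insertNth_apply_succAbove]

lemma h2_cell_zero {x : ℝ} (hx : x ≤ 0) : cellρ (1/4) x = 0 := by
  unfold cellρ
  rw [indicator_of_notMem]
  exact not_lt.mpr hx

lemma h2_cell_pos {x : ℝ} (hx : cellρ (1/4) x ≠ 0) : 0 < x := by
  by_contra h
  exact hx (h2_cell_zero (not_lt.mp h))

/-- The inner identity. -/
lemma h2_inner (j : Fin 3) {f : (Fin 3 → ℝ) → ℝ≥0∞} (hf : Measurable f) (z : ℝ) :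
    ENNReal.ofReal (h2_phi z) * ∫⁻ w, ENNReal.ofReal (h2_g w) * f (h2_T j (z, w)) =
      ∫⁻ v : Fin 2 → ℝ, ENNReal.ofReal (g6_F 1 (j.insertNth (α := fun _ => ℝ) z v)) * f (j.insertNth (α := fun _ => ℝ) z v) := by
  rcases le_or_gt z 0 with hz | hz
  · have e1 : h2_phi z = 0 := by unfold h2_phi; rw [h2_cell_zero hz, zero_mul]
    have e2 : ∀ v : Fin 2 → ℝ, g6_F 1 (j.insertNth (α := fun _ => ℝ) z v) = 0 := fun v => by
      rw [h2_F_ins, h2_cell_zero hz, zero_mul, mul_zero]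
    simp only [e1, e2, ENNReal.ofReal_zero, zero_mul, lintegral_zero]
  rcases le_or_gt 1 z with hz1 | hz1
  · have e1 : h2_phi z = 0 := by
      unfold h2_phi
      rw [Real.sqrt_eq_zero_of_nonpos (by linarith), mul_zero]
    have e2 : ∀ v : Fin 2 → ℝ, g6_F 1 (j.insertNth (α := fun _ => ℝ) z v) = 0 := fun v => by
      rw [h2_F_ins]
      by_cases hv : ∀ l, 0 < v l
      · have : ¬ (z + ∑ l, v l ≤ 1) := by
          have := Finset.sum_pos (fun l _ => hv l) (Finset.univ_nonempty (α := Fin 2))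
          linarith
        unfold boxI
        rw [if_neg this, zero_mul]
      · push Not at hv
        obtain ⟨l, hl⟩ := hv
        rw [Finset.prod_eq_zero (Finset.mem_univ l) (h2_cell_zero hl), mul_zero, mul_zero]
    simp only [e1, e2, ENNReal.ofReal_zero, zero_mul, lintegral_zero]
  obtain ⟨c, hc⟩ : ∃ c, c = 1 - z := ⟨_, rfl⟩
  have hc0 : 0 < c := by rw [hc]; linarith
  obtain ⟨H, hH⟩ : ∃ H : (Fin 2 → ℝ) → ℝ≥0∞, H = fun v => ENNReal.ofReal (g6_F 1 (j.insertNth (α := fun _ => ℝ) z v)) *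
      f (j.insertNth (α := fun _ => ℝ) z v) := ⟨_, rfl⟩
  have hins : Measurable fun v : Fin 2 → ℝ => (j.insertNth (α := fun _ => ℝ) z v : Fin 3 → ℝ) :=
    (h2_ins_meas j).comp (measurable_const.prodMk measurable_id)
  have hHm : Measurable H := by
    rw [hH]
    exact (ENNReal.measurable_ofReal.comp ((g6_F_meas 1).comp hins)).mul (hf.comp hins)
  have hmap := Measure.map_addHaar_smul (volume : Measure (Fin 2 → ℝ)) hc0.ne'
  rw [Module.finrank_fintype_fun_eq_card ℝ, Fintype.card_fin] at hmap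
  have hsub : ∫⁻ w, H (c • w) = ENNReal.ofReal |(c ^ 2)⁻¹| * ∫⁻ v, H v := by
    have h1 : ∫⁻ w, H (c • w) = ∫⁻ v, H v ∂(Measure.map (fun w : Fin 2 → ℝ => c • w) volume) := by
      rw [lintegral_map hHm (by fun_prop)]
    rw [h1, hmap, lintegral_smul_measure, smul_eq_mul]
  have hc2 : 0 < c ^ 2 := by positivity
  have hsub2 : ∫⁻ v, H v = ENNReal.ofReal (c ^ 2) * ∫⁻ w, H (c • w) := by
    rw [hsub, ← mul_assoc, ← ENNReal.ofReal_mul hc2.le, abs_of_pos (inv_pos.mpr hc2), mul_inv_cancel₀ hc2.ne',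
      ENNReal.ofReal_one, one_mul]
  have hR : (∫⁻ v : Fin 2 → ℝ, ENNReal.ofReal (g6_F 1 (j.insertNth (α := fun _ => ℝ) z v)) * f (j.insertNth (α := fun _ => ℝ) z v)) =
      ∫⁻ v, H v := by rw [hH]
  rw [hR, hsub2]
  have hg : Measurable fun w => ENNReal.ofReal (h2_g w) * f (h2_T j (z, w)) :=
    (ENNReal.measurable_ofReal.comp h2_g_meas).mul (hf.comp ((h2_T_meas j).comp (measurable_const.prodMk measurable_id)))
  have hHc : Measurable fun w : Fin 2 → ℝ => H (c • w) := hHm.comp (by fun_prop)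
  rw [← lintegral_const_mul _ hg, ← lintegral_const_mul _ hHc]
  refine lintegral_congr fun w => ?_
  rw [hH]
  simp only
  have e1 : h2_T j (z, w) = j.insertNth (α := fun _ => ℝ) z (c • w) := by unfold h2_T; rw [hc]
  rw [e1, ← mul_assoc, ← mul_assoc, ← ENNReal.ofReal_mul (h2_phi_nonneg z), ← ENNReal.ofReal_mul hc2.le]
  congr 2
  rw [h2_F_ins]
  unfold h2_phi h2_g
  have e2 : ∑ l, (c • w) l = c * ∑ l, w l := by rw [Finset.mul_sum]; rfl
  have e3 : boxI 1 (z + c * ∑ l, w l) = boxI 1 (∑ l, w l) := by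
    unfold boxI
    have : (z + c * ∑ l, w l ≤ 1) ↔ (∑ l, w l ≤ 1) := by
      constructor
      · intro h
        have : c * ∑ l, w l ≤ c * 1 := by rw [hc] at h ⊢; linarith
        exact le_of_mul_le_mul_left this hc0
      · intro h
        have : c * ∑ l, w l ≤ c * 1 := mul_le_mul_of_nonneg_left h hc0.le
        rw [hc] at this ⊢
        linarith
    simp only [this]
  have e4 : ∀ l, cellρ (1/4) ((c • w) l) = c ^ ((1/4 : ℝ) - 1) * cellρ (1/4) (w l) := fun l => cellρ_scale hc0 _ _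
  rw [e2, e3]
  simp_rw [e4]
  rw [Finset.prod_mul_distrib, Finset.prod_const, Finset.card_univ, Fintype.card_fin, ← hc]
  have e5 : (c ^ 2 : ℝ) * (c ^ ((1/4 : ℝ) - 1)) ^ 2 = √c := by
    rw [Real.sqrt_eq_rpow, ← Real.rpow_natCast c 2, ← Real.rpow_natCast _ 2, ← Real.rpow_mul hc0.le, ← Real.rpow_add hc0]
    norm_num
  rw [← e5]
  ring

instance h2_sf_nu : SFinite h2_nu := by unfold h2_nu; infer_instance

instance h2_sf_sig : SFinite h2_sig := by unfold h2_sig; infer_instance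

lemma h2_wd {α : Type*} [MeasurableSpace α] {μ : Measure α} {F : α → ℝ} (hF : Measurable F) {g : α → ℝ≥0∞} (hg : Measurable g) :
    ∫⁻ x, g x ∂(μ.withDensity fun x => ENNReal.ofReal (F x)) = ∫⁻ x, ENNReal.ofReal (F x) * g x ∂μ := by
  have hm : Measurable fun x => ENNReal.ofReal (F x) := ENNReal.measurable_ofReal.comp hF
  have := lintegral_withDensity_eq_lintegral_mul μ hm hg
  rw [this]
  rfl

/-- The disintegration. -/
theorem h2_map (j : Fin 3) : Measure.map (h2_T j) (h2_nu.prod h2_sig) = h2_rho := by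
  ext s hs
  have hf : Measurable (s.indicator (fun _ : Fin 3 → ℝ => (1 : ℝ≥0∞))) := measurable_const.indicator hs
  have hl : ∀ μ : Measure (Fin 3 → ℝ), μ s = ∫⁻ y, s.indicator (fun _ => (1 : ℝ≥0∞)) y ∂μ := fun μ => by
    rw [lintegral_indicator hs, lintegral_const, Measure.restrict_apply_univ, one_mul]
  rw [hl, hl]
  obtain ⟨f, hfd⟩ : ∃ f, f = s.indicator (fun _ : Fin 3 → ℝ => (1 : ℝ≥0∞)) := ⟨_, rfl⟩
  rw [← hfd] at hf ⊢
  rw [lintegral_map hf (h2_T_meas j)]
  have hfT : Measurable fun p : ℝ × (Fin 2 → ℝ) => f (h2_T j p) := hf.comp (h2_T_meas j)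
  rw [lintegral_prod _ hfT.aemeasurable]
  -- the left-hand side
  have e1 : ∀ z : ℝ, ∫⁻ w, f (h2_T j (z, w)) ∂h2_sig = ∫⁻ w, ENNReal.ofReal (h2_g w) * f (h2_T j (z, w)) := by
    intro z
    have hm : Measurable fun w => f (h2_T j (z, w)) := hfT.comp (measurable_const.prodMk measurable_id)
    exact h2_wd h2_g_meas hm
  simp_rw [e1]
  have hm1 : Measurable fun z : ℝ => ∫⁻ w, ENNReal.ofReal (h2_g w) * f (h2_T j (z, w)) := by
    have : Measurable (Function.uncurry fun (z : ℝ) (w : Fin 2 → ℝ) => ENNReal.ofReal (h2_g w) * f (h2_T j (z, w))) :=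
      ((ENNReal.measurable_ofReal.comp h2_g_meas).comp measurable_snd).mul hfT
    exact this.lintegral_prod_right
  have e2 : ∫⁻ z, (∫⁻ w, ENNReal.ofReal (h2_g w) * f (h2_T j (z, w))) ∂h2_nu =
      ∫⁻ z, ENNReal.ofReal (h2_phi z) * ∫⁻ w, ENNReal.ofReal (h2_g w) * f (h2_T j (z, w)) := by
    exact h2_wd h2_phi_meas hm1
  rw [e2]
  simp_rw [h2_inner j hf]
  -- the right-hand side
  have e3 : ∫⁻ y, f y ∂h2_rho = ∫⁻ y, ENNReal.ofReal (g6_F 1 y) * f y := by
    exact h2_wd (g6_F_meas 1) hf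
  rw [e3]
  have hFm : Measurable fun y => ENNReal.ofReal (g6_F 1 y) * f y := (ENNReal.measurable_ofReal.comp (g6_F_meas 1)).mul hf
  have hmp := (volume_preserving_piFinSuccAbove (fun _ : Fin 3 => ℝ) j).symm
  have e4 := hmp.lintegral_comp hFm
  rw [← e4]
  have hm2 : Measurable fun p : ℝ × (Fin 2 → ℝ) => ENNReal.ofReal (g6_F 1 ((MeasurableEquiv.piFinSuccAbove (fun _ : Fin 3 => ℝ) j).symm p)) *
      f ((MeasurableEquiv.piFinSuccAbove (fun _ : Fin 3 => ℝ) j).symm p) := hFm.comp hmp.measurable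
  rw [Measure.volume_eq_prod, lintegral_prod _ hm2.aemeasurable]
  rfl

end Pool.Agent.LibM3
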