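import Pool.Agent.LibM3.H2

/-! Third moment, lower bound, block H3: Dirichlet integrals. -/

set_option autoImplicit false

namespace Pool.Agent.LibM3

open MeasureTheory Set Filter Topology
open Pool.Agent.LibZM
open scoped ENNReal

variable {n : ℕ} {α : Fin n → ℝ}

/-- The density. -/
noncomputable def h3_F (α : Fin n → ℝ) (s : ℝ) (y : Fin n → ℝ) : ℝ := boxI s (∑ j, y j) * ∏ j, cellρ (α j) (y j)

lemma h3_F_nonneg (hα : ∀ i, 0 < α i) (s : ℝ) (y : Fin n → ℝ) : 0 ≤ h3_F α s y :=
  mul_nonneg (boxI_nonneg _ _) (Finset.prod_nonneg fun j _ => cellρ_nonneg (hα j) _)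

lemma h3_E_int (hα : ∀ i, 0 < α i) : Integrable (fun y : Fin n → ℝ => Real.exp (-∑ j, y j) * ∏ j, cellρ (α j) (y j)) := by
  have h : Integrable (fun y : Fin n → ℝ => ∏ j, (fun t : ℝ => Real.exp (-(1 * t)) * cellρ (α j) t) (y j)) :=
    Integrable.fintype_prod_dep (f := fun j : Fin n => fun t : ℝ => Real.exp (-(1 * t)) * cellρ (α j) t)
      fun j => integrable_cell (hα j) one_pos
  refine h.congr (Eventually.of_forall fun y => ?_)
  simp only [one_mul]
  rw [Finset.prod_mul_distrib, ← Real.exp_sum, Finset.sum_neg_distrib]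

lemma h3_E_integral (hα : ∀ i, 0 < α i) : ∫ y : Fin n → ℝ, Real.exp (-∑ j, y j) * ∏ j, cellρ (α j) (y j) = 1 := by
  have h : ∫ y : Fin n → ℝ, ∏ j, (fun t : ℝ => Real.exp (-(1 * t)) * cellρ (α j) t) (y j) = 1 := by
    rw [integral_fintype_prod_volume_eq_prod (fun j : Fin n => fun t : ℝ => Real.exp (-(1 * t)) * cellρ (α j) t)]
    rw [Finset.prod_eq_one]
    intro i _
    rw [integral_cell (hα i) one_pos, Real.one_rpow]
  refine Eq.trans ?_ h
  congr 1
  funext y
  simp only [one_mul]
  rw [Finset.prod_mul_distrib, ← Real.exp_sum, Finset.sum_neg_distrib]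

lemma h3_F_meas (α : Fin n → ℝ) (s : ℝ) : Measurable (h3_F α s) := by
  unfold h3_F
  refine Measurable.mul ((measurable_boxI s).comp (by fun_prop)) ?_
  exact Finset.measurable_prod _ fun j _ => (measurable_cellρ _).comp (measurable_pi_apply j)

lemma h3_F_int (hα : ∀ i, 0 < α i) (s : ℝ) : Integrable (h3_F α s) := by
  refine Integrable.mono' ((h3_E_int hα).const_mul (Real.exp s)) (h3_F_meas α s).aestronglyMeasurable (Eventually.of_forall fun y => ?_)
  rw [Real.norm_eq_abs, abs_of_nonneg (h3_F_nonneg hα s y)]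
  unfold h3_F boxI
  have hp : 0 ≤ ∏ j, cellρ (α j) (y j) := Finset.prod_nonneg fun j _ => cellρ_nonneg (hα j) _
  split_ifs with h
  · rw [one_mul, ← mul_assoc, ← Real.exp_add]
    have : 1 ≤ Real.exp (s + -∑ j, y j) := Real.one_le_exp (by linarith)
    nlinarith
  · rw [zero_mul]; positivity

/-- Scaling. -/
lemma h3_scale {s : ℝ} (hs : 0 < s) : ∫ y, h3_F α s y = s ^ (∑ i, α i) * ∫ y, h3_F α 1 y := by
  have h := Measure.integral_comp_smul (volume : Measure (Fin n → ℝ)) (h3_F α s) s
  rw [Module.finrank_fintype_fun_eq_card ℝ, Fintype.card_fin] at h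
  have hpos : 0 < s ^ n := by positivity
  rw [abs_of_pos (inv_pos.mpr hpos), smul_eq_mul] at h
  have h2 : ∀ y : Fin n → ℝ, h3_F α s (s • y) = (s ^ ((∑ i, α i) - n)) * h3_F α 1 y := by
    intro y
    unfold h3_F
    have e1 : ∑ j, (s • y) j = s * ∑ j, y j := by rw [Finset.mul_sum]; rfl
    have e2 : ∀ j, cellρ (α j) ((s • y) j) = s ^ (α j - 1) * cellρ (α j) (y j) := fun j => cellρ_scale hs _ _
    have e3 : boxI s (s * ∑ j, y j) = boxI 1 (∑ j, y j) := by
      have := boxI_scale hs 1 (∑ j, y j)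
      rwa [mul_one] at this
    rw [e1, e3]
    simp_rw [e2]
    rw [Finset.prod_mul_distrib, ← Real.rpow_sum_of_pos hs, Finset.sum_sub_distrib]
    have : ∑ _i : Fin n, (1:ℝ) = n := by simp
    rw [this]
    ring
  simp_rw [h2] at h
  rw [integral_const_mul] at h
  have e4 : ∫ y, h3_F α s y = s ^ n * ((s ^ n)⁻¹ * ∫ y, h3_F α s y) := by field_simp
  rw [e4, ← h, ← mul_assoc, ← Real.rpow_natCast s n, ← Real.rpow_add hs]
  congr 2
  ring

/-- The integral of Dirichlet. -/
theorem h3_dir (hα : ∀ i, 0 < α i) : ∫ y, h3_F α 1 y = 1 / Real.Gamma (1 + ∑ i, α i) := by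
  have hS : 0 ≤ ∑ i, α i := Finset.sum_nonneg fun i _ => (hα i).le
  have hG : Real.Gamma (1 + ∑ i, α i) ≠ 0 := (Real.Gamma_pos_of_pos (by linarith)).ne'
  have hexp : (1 + ∑ i, α i) - 1 = ∑ i, α i := by ring
  rw [eq_div_iff hG, mul_comm]
  -- the double integral
  have hint : Integrable (Function.uncurry fun (s : ℝ) (y : Fin n → ℝ) => Real.exp (-s) * h3_F α s y)
      ((volume.restrict (Ioi (0:ℝ))).prod volume) := by
    have hm : Measurable (Function.uncurry fun (s : ℝ) (y : Fin n → ℝ) => Real.exp (-s) * h3_F α s y) := by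
      unfold Function.uncurry h3_F boxI
      refine Measurable.mul (by fun_prop) (Measurable.mul ?_ ?_)
      · exact Measurable.ite (measurableSet_le (by fun_prop) (by fun_prop)) measurable_const measurable_const
      · exact Finset.measurable_prod _ fun j _ => (measurable_cellρ _).comp ((measurable_pi_apply j).comp measurable_snd)
    rw [integrable_prod_iff hm.aestronglyMeasurable]
    constructor
    · exact Eventually.of_forall fun s => (h3_F_int hα s).const_mul (Real.exp (-s))
    · have e : (fun s : ℝ => ∫ y, ‖Function.uncurry (fun (s : ℝ) (y : Fin n → ℝ) => Real.exp (-s) * h3_F α s y) (s, y)‖) = 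
          fun s : ℝ => Real.exp (-s) * ∫ y, h3_F α s y := by
        funext s
        rw [← integral_const_mul]
        congr 1
        funext y
        simp only [Function.uncurry]
        rw [Real.norm_eq_abs, abs_of_nonneg (mul_nonneg (Real.exp_pos _).le (h3_F_nonneg hα s y))]
      rw [e]
      have h1 : IntegrableOn (fun s : ℝ => Real.exp (-s) * s ^ ((1 + ∑ i, α i) - 1) * ∫ y, h3_F α 1 y) (Ioi 0) := 
        (Real.GammaIntegral_convergent (s := 1 + ∑ i, α i) (by linarith)).mul_const _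
      refine IntegrableOn.congr_fun h1 (fun s hs => ?_) measurableSet_Ioi
      rw [h3_scale hs, hexp]
      ring
  have h1 : ∫ s in Ioi (0:ℝ), ∫ y, Real.exp (-s) * h3_F α s y = Real.Gamma (1 + ∑ i, α i) * ∫ y, h3_F α 1 y := by
    rw [Real.Gamma_eq_integral (by linarith), ← integral_mul_const]
    refine setIntegral_congr_fun measurableSet_Ioi fun s hs => ?_
    rw [integral_const_mul, h3_scale hs, hexp]
    ring
  have h2 : ∫ s in Ioi (0:ℝ), ∫ y, Real.exp (-s) * h3_F α s y = ∫ y, ∫ s in Ioi (0:ℝ), Real.exp (-s) * h3_F α s y :=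
    integral_integral_swap hint
  have h3 : ∫ y, ∫ s in Ioi (0:ℝ), Real.exp (-s) * h3_F α s y = 1 := by
    rw [← h3_E_integral hα]
    congr 1
    funext y
    have e : ∀ s : ℝ, Real.exp (-s) * h3_F α s y = (if ∑ j, y j ≤ s then Real.exp (-s) else 0) * ∏ j, cellρ (α j) (y j) := by
      intro s
      unfold h3_F boxI
      split_ifs <;> ring
    simp_rw [e]
    rw [integral_mul_const, g6_lap]
    by_cases hy : ∀ j, 0 < y j
    · rw [max_eq_left (Finset.sum_nonneg fun j _ => (hy j).le)]
    · push Not at hy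
      obtain ⟨j, hj⟩ := hy
      have : ∏ j, cellρ (α j) (y j) = 0 := by
        apply Finset.prod_eq_zero (Finset.mem_univ j)
        unfold cellρ
        rw [indicator_of_notMem]
        exact not_lt.mpr hj
      rw [this, mul_zero, mul_zero]
  rw [← h1, h2, h3]

/-! ### The masses -/

lemma h3_sig_int : Integrable h2_g := by
  have h := h3_F_int (n := 2) (α := fun _ => 1/4) (fun _ => by norm_num) 1
  exact h

lemma h3_sig_mass : ∫ w, h2_g w = 1 / Real.Gamma (3/2) := by
  have h := h3_dir (n := 2) (α := fun _ => 1/4) (fun _ => by norm_num)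
  rw [Fin.sum_univ_two] at h
  rw [show (1:ℝ) + (1/4 + 1/4) = 3/2 by norm_num] at h
  exact h

lemma h3_wd_mass {β : Type*} [MeasurableSpace β] {μ : Measure β} {F : β → ℝ} (hF : Integrable F μ) (h0 : ∀ x, 0 ≤ F x) :
    (μ.withDensity fun x => ENNReal.ofReal (F x)) univ = ENNReal.ofReal (∫ x, F x ∂μ) := by
  rw [withDensity_apply _ MeasurableSet.univ, Measure.restrict_univ, ofReal_integral_eq_lintegral_ofReal hF (Eventually.of_forall h0)]

lemma h3_sig_univ : h2_sig univ = ENNReal.ofReal (1 / Real.Gamma (3/2)) := by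
  unfold h2_sig
  rw [h3_wd_mass h3_sig_int h2_g_nonneg, h3_sig_mass]

lemma h3_rho_univ : h2_rho univ = ENNReal.ofReal (1 / Real.Gamma (7/4)) := by
  unfold h2_rho
  rw [h3_wd_mass (g6_F_int 1) (g6_F_nonneg 1), g6_row]

lemma h3_prod : h2_rho univ = h2_nu univ * h2_sig univ := by
  rw [← h2_map 0, Measure.map_apply (h2_T_meas 0) MeasurableSet.univ, preimage_univ, ← univ_prod_univ, Measure.prod_prod]

instance h3_fin_sig : IsFiniteMeasure h2_sig := ⟨by rw [h3_sig_univ]; exact ENNReal.ofReal_lt_top⟩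

instance h3_fin_rho : IsFiniteMeasure h2_rho := ⟨by rw [h3_rho_univ]; exact ENNReal.ofReal_lt_top⟩

instance h3_fin_nu : IsFiniteMeasure h2_nu := ⟨by
  have h := h3_prod
  have h1 := h3_fin_rho.measure_univ_lt_top
  have h2 : h2_sig univ ≠ 0 := by
    rw [h3_sig_univ]
    have : 0 < 1 / Real.Gamma (3/2) := one_div_pos.mpr (Real.Gamma_pos_of_pos (by norm_num))
    exact (ENNReal.ofReal_pos.mpr this).ne'
  by_contra h3
  have h4 : h2_nu univ = ⊤ := not_lt_top_iff.mp h3
  rw [h4, ENNReal.top_mul h2] at h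
  rw [h] at h1
  exact lt_irrefl _ h1⟩

lemma h3_nu_mass : h2_nu.real univ = Real.Gamma (3/2) / Real.Gamma (7/4) := by
  have h := congrArg ENNReal.toReal h3_prod
  rw [ENNReal.toReal_mul, h3_rho_univ, h3_sig_univ] at h
  have p1 : 0 < Real.Gamma (3/2) := Real.Gamma_pos_of_pos (by norm_num)
  have p2 : 0 < Real.Gamma (7/4) := Real.Gamma_pos_of_pos (by norm_num)
  rw [ENNReal.toReal_ofReal (by positivity), ENNReal.toReal_ofReal (by positivity)] at h
  have e : h2_nu.real univ = (h2_nu univ).toReal := rfl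
  rw [← e] at h
  field_simp at h ⊢
  linarith

end Pool.Agent.LibM3
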