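import Pool.Agent.LibM3.H3

/-! Third moment, lower bound, block H4: the three column constraints are negatively correlated. -/

set_option autoImplicit false

namespace Pool.Agent.LibM3

open MeasureTheory Set Filter Topology
open Pool.Agent.LibZM
open scoped ENNReal

/-- The mass with column constraints in `A`. -/
noncomputable def h4_W (A : Finset (Fin 3)) : ℝ :=
  ∫ y : Fin 3 → Fin 3 → ℝ, ∏ l ∈ A, boxI 1 (∑ i, y i l) ∂(Measure.pi fun _ => h2_rho)

/-- The mass of one column constraint. -/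
noncomputable def h4_N : ℝ := ∫ z : Fin 3 → ℝ, boxI 1 (∑ i, z i) ∂(Measure.pi fun _ => h2_nu)

noncomputable def h4_Phi (j : Fin 3) (p : (Fin 3 → ℝ) × (Fin 3 → Fin 2 → ℝ)) : Fin 3 → Fin 3 → ℝ :=
  fun i => h2_T j (p.1 i, p.2 i)

lemma h4_Phi_meas (j : Fin 3) : Measurable (h4_Phi j) := by
  unfold h4_Phi
  exact measurable_pi_lambda _ fun i => (h2_T_meas j).comp
    (((measurable_pi_apply i).comp measurable_fst).prodMk ((measurable_pi_apply i).comp measurable_snd))

theorem h4_map (j : Fin 3) : Measure.map (h4_Phi j) ((Measure.pi fun _ => h2_nu).prod (Measure.pi fun _ => h2_sig)) =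
    Measure.pi fun _ : Fin 3 => h2_rho := by
  have h1 := measurePreserving_arrowProdEquivProdArrow ℝ (Fin 2 → ℝ) (Fin 3) (fun _ => h2_nu) (fun _ => h2_sig)
  have h2 := h1.symm
  have hsf : ∀ _ : Fin 3, SigmaFinite (Measure.map (h2_T j) (h2_nu.prod h2_sig)) := by
    intro _
    rw [h2_map]
    infer_instance
  have h3 : Measure.pi (fun _ : Fin 3 => h2_rho) =
      Measure.map (fun (x : Fin 3 → ℝ × (Fin 2 → ℝ)) i => h2_T j (x i)) (Measure.pi fun _ => h2_nu.prod h2_sig) := by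
    rw [Measure.pi_map_pi (f := fun _ : Fin 3 => h2_T j) (fun _ => (h2_T_meas j).aemeasurable)]
    simp only [h2_map]
  have hm : Measurable (fun (x : Fin 3 → ℝ × (Fin 2 → ℝ)) i => h2_T j (x i)) :=
    measurable_pi_lambda _ fun i => (h2_T_meas j).comp (measurable_pi_apply i)
  rw [h3, ← h2.map_eq, Measure.map_map hm h2.measurable]
  rfl

lemma h4_prod_bound (A : Finset (Fin 3)) (x : Fin 3 → ℝ) : |∏ l ∈ A, boxI 1 (x l)| ≤ 1 := by
  rw [abs_of_nonneg (Finset.prod_nonneg fun i _ => boxI_nonneg _ _)]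
  exact Finset.prod_le_one (fun i _ => boxI_nonneg _ _) fun i _ => boxI_le_one _ _

lemma h4_prod_meas (A : Finset (Fin 3)) : Measurable fun y : Fin 3 → Fin 3 → ℝ => ∏ l ∈ A, boxI 1 (∑ i, y i l) := by
  refine Finset.measurable_prod _ fun l _ => (measurable_boxI 1).comp ?_
  exact Finset.measurable_sum _ fun i _ => (measurable_pi_apply l).comp (measurable_pi_apply i)

lemma h4_box_anti (x y : ℝ) (h : x ≤ y) : boxI 1 y ≤ boxI 1 x := by
  unfold boxI
  split_ifs with h1 h2 h2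
  · exact le_rfl
  · exact absurd (h.trans h1) h2
  · exact zero_le_one
  · exact le_rfl

lemma h4_W_eq (A : Finset (Fin 3)) (j : Fin 3) : h4_W A = ∫ w, ∫ z, ∏ l ∈ A, boxI 1 (∑ i, h4_Phi j (z, w) i l)
    ∂(Measure.pi fun _ => h2_nu) ∂(Measure.pi fun _ => h2_sig) := by
  unfold h4_W
  rw [← h4_map j, integral_map (h4_Phi_meas j).aemeasurable (h4_prod_meas A).aestronglyMeasurable]
  exact integral_prod_symm _ (h1_int ((h4_prod_meas A).comp (h4_Phi_meas j)) fun p => h4_prod_bound A _)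

lemma h4_ae : ∀ᵐ w ∂(Measure.pi fun _ : Fin 3 => h2_sig), ∀ i l, 0 < w i l := by
  have h1 : ∀ᵐ v ∂h2_sig, ∀ l, 0 < v l := by
    have hm : Measurable fun w => ENNReal.ofReal (h2_g w) := ENNReal.measurable_ofReal.comp h2_g_meas
    unfold h2_sig
    rw [ae_withDensity_iff hm]
    refine Eventually.of_forall fun v hv l => ?_
    have h2 : h2_g v ≠ 0 := by
      intro h
      apply hv
      rw [h, ENNReal.ofReal_zero]
    unfold h2_g at h2
    have h3 := right_ne_zero_of_mul h2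
    exact h2_cell_pos (Finset.prod_ne_zero_iff.mp h3 l (Finset.mem_univ l))
  rw [ae_all_iff]
  intro i
  exact (Measure.quasiMeasurePreserving_eval (fun _ : Fin 3 => h2_sig) i).ae h1

/-- One step. -/
theorem h4_step {A : Finset (Fin 3)} {j : Fin 3} (hj : j ∉ A) :
    h2_nu.real univ ^ 3 * h4_W (insert j A) ≤ h4_N * h4_W A := by
  rw [h4_W_eq (insert j A) j, h4_W_eq A j, ← integral_const_mul, ← integral_const_mul]
  have hΦw : ∀ w : Fin 3 → Fin 2 → ℝ, Measurable fun z : Fin 3 → ℝ => h4_Phi j (z, w) := fun w =>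
    (h4_Phi_meas j).comp (measurable_id.prodMk measurable_const)
  have hint : ∀ B : Finset (Fin 3), Integrable (fun w => ∫ z, ∏ l ∈ B, boxI 1 (∑ i, h4_Phi j (z, w) i l)
      ∂(Measure.pi fun _ => h2_nu)) (Measure.pi fun _ => h2_sig) := by
    intro B
    have h1 : Integrable (fun p => ∏ l ∈ B, boxI 1 (∑ i, h4_Phi j p i l))
        ((Measure.pi fun _ => h2_nu).prod (Measure.pi fun _ => h2_sig)) :=
      h1_int ((h4_prod_meas B).comp (h4_Phi_meas j)) fun p => h4_prod_bound B _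
    exact h1.integral_prod_right
  refine integral_mono_ae ((hint _).const_mul _) ((hint _).const_mul _) ?_
  filter_upwards [h4_ae] with w hw
  have hsum : ∀ z : Fin 3 → ℝ, ∑ i, h4_Phi j (z, w) i j = ∑ i, z i := by
    intro z
    refine Finset.sum_congr rfl fun i _ => ?_
    unfold h4_Phi h2_T
    simp only [Fin.insertNth_apply_same]
  have e1 : ∀ z : Fin 3 → ℝ, ∏ l ∈ insert j A, boxI 1 (∑ i, h4_Phi j (z, w) i l) =
      (∏ l ∈ A, boxI 1 (∑ i, h4_Phi j (z, w) i l)) * boxI 1 (∑ i, z i) := by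
    intro z
    rw [Finset.prod_insert hj, hsum, mul_comm]
  simp_rw [e1]
  have hmono : Monotone fun z : Fin 3 → ℝ => ∏ l ∈ A, boxI 1 (∑ i, h4_Phi j (z, w) i l) := by
    intro z z' hz
    refine Finset.prod_le_prod (fun _ _ => boxI_nonneg _ _) fun l hl => h4_box_anti _ _ ?_
    refine Finset.sum_le_sum fun i _ => ?_
    have hlj : l ≠ j := fun h => hj (h ▸ hl)
    obtain ⟨l', hl'⟩ := Fin.exists_succAbove_eq hlj
    unfold h4_Phi h2_T
    rw [← hl']
    simp only [Fin.insertNth_apply_succAbove, Pi.smul_apply, smul_eq_mul]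
    have h1 := hw i l'
    have h2 := hz i
    exact mul_le_mul_of_nonneg_right (by linarith) h1.le
  have hanti : Antitone fun z : Fin 3 → ℝ => boxI 1 (∑ i, z i) := by
    intro z z' hz
    exact h4_box_anti _ _ (Finset.sum_le_sum fun i _ => hz i)
  have hm1 : Measurable fun z : Fin 3 → ℝ => ∏ l ∈ A, boxI 1 (∑ i, h4_Phi j (z, w) i l) := (h4_prod_meas A).comp (hΦw w)
  have hm2 : Measurable fun z : Fin 3 → ℝ => boxI 1 (∑ i, z i) := (measurable_boxI 1).comp (by fun_prop)
  have h := h1_harris h2_nu 3 _ _ hm1 hm2 1 1 (fun z => h4_prod_bound A _) (fun z => by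
    rw [abs_of_nonneg (boxI_nonneg _ _)]; exact boxI_le_one _ _) hmono hanti
  refine h.trans (le_of_eq ?_)
  unfold h4_N
  ring

lemma h4_N_nonneg : 0 ≤ h4_N := integral_nonneg fun _ => boxI_nonneg _ _

lemma h4_W_nonneg (A : Finset (Fin 3)) : 0 ≤ h4_W A :=
  integral_nonneg fun _ => Finset.prod_nonneg fun _ _ => boxI_nonneg _ _

lemma h4_W_empty : h4_W ∅ = (1 / Real.Gamma (7/4)) ^ 3 := by
  unfold h4_W
  simp only [Finset.prod_empty]
  rw [integral_const, smul_eq_mul, mul_one, measureReal_def, Measure.pi_univ, Finset.prod_const, Finset.card_univ,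
    Fintype.card_fin, h3_rho_univ, ENNReal.toReal_pow, ENNReal.toReal_ofReal]
  have p2 : 0 < Real.Gamma (7/4) := Real.Gamma_pos_of_pos (by norm_num)
  positivity

/-- All the steps. -/
theorem h4_chain : (h2_nu.real univ ^ 3) ^ 3 * h4_W Finset.univ ≤ h4_N ^ 3 * (1 / Real.Gamma (7/4)) ^ 3 := by
  have hm : 0 ≤ h2_nu.real univ ^ 3 := by positivity
  have hN := h4_N_nonneg
  have s1 := h4_step (A := ∅) (j := 0) (by decide)
  have s2 := h4_step (A := insert 0 ∅) (j := 1) (by decide)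
  have s3 := h4_step (A := insert 1 (insert 0 ∅)) (j := 2) (by decide)
  have e : (insert 2 (insert 1 (insert 0 ∅)) : Finset (Fin 3)) = Finset.univ := by decide
  rw [e] at s3
  rw [h4_W_empty] at s1
  obtain ⟨m, hmd⟩ : ∃ m, m = h2_nu.real univ ^ 3 := ⟨_, rfl⟩
  rw [← hmd] at hm s1 s2 s3 ⊢
  calc m ^ 3 * h4_W Finset.univ = m ^ 2 * (m * h4_W Finset.univ) := by ring
    _ ≤ m ^ 2 * (h4_N * h4_W (insert 1 (insert 0 ∅))) := by gcongr
    _ = m * h4_N * (m * h4_W (insert 1 (insert 0 ∅))) := by ring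
    _ ≤ m * h4_N * (h4_N * h4_W (insert 0 ∅)) := by gcongr
    _ = h4_N ^ 2 * (m * h4_W (insert 0 ∅)) := by ring
    _ ≤ h4_N ^ 2 * (h4_N * (1 / Real.Gamma (7/4)) ^ 3) := by gcongr
    _ = _ := by ring

end Pool.Agent.LibM3
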