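import Pool.Agent.LibM3.H4

/-! Third moment, lower bound, block H5: numerical bound for the mass of one column constraint. -/

set_option autoImplicit false

namespace Pool.Agent.LibM3

open MeasureTheory Set Filter Topology
open Pool.Agent.LibZM
open scoped ENNReal

/-! ### Products of measures with densities -/

lemma h5_pi {E : Type} [MeasureSpace E] [SigmaFinite (volume : Measure E)] {F : E → ℝ} (hF : Measurable F)
    (hi : Integrable F) (h0 : ∀ x, 0 ≤ F x) :
    Measure.pi (fun _ : Fin 3 => (volume : Measure E).withDensity fun x => ENNReal.ofReal (F x)) =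
      (volume : Measure (Fin 3 → E)).withDensity fun y => ENNReal.ofReal (∏ i, F (y i)) := by
  have hfin : ∀ _ : Fin 3, IsFiniteMeasure ((volume : Measure E).withDensity fun x => ENNReal.ofReal (F x)) := fun _ =>
    ⟨by rw [h3_wd_mass hi h0]; exact ENNReal.ofReal_lt_top⟩
  apply Measure.pi_eq
  intro s hs
  rw [withDensity_apply _ (MeasurableSet.univ_pi hs)]
  have hint : Integrable (fun y : Fin 3 → E => ∏ i, F (y i)) :=
    Integrable.fintype_prod (f := fun _ : Fin 3 => F) fun _ => hi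
  have hint2 : ∀ i, Integrable ((s i).indicator F) := fun i => hi.indicator (hs i)
  rw [← ofReal_integral_eq_lintegral_ofReal hint.integrableOn (Eventually.of_forall fun y => Finset.prod_nonneg fun i _ => h0 _)]
  have e1 : ∫ y in univ.pi s, ∏ i, F (y i) = ∏ i, ∫ x in s i, F x := by
    rw [← integral_indicator (MeasurableSet.univ_pi hs)]
    have e2 : (univ.pi s).indicator (fun y : Fin 3 → E => ∏ i, F (y i)) = fun y => ∏ i, (s i).indicator F (y i) := by
      funext y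
      by_cases hy : y ∈ univ.pi s
      · rw [indicator_of_mem hy]
        refine Finset.prod_congr rfl fun i _ => ?_
        rw [indicator_of_mem (hy i (mem_univ i))]
      · rw [indicator_of_notMem hy]
        have : ∃ i, y i ∉ s i := by
          by_contra h
          push Not at h
          exact hy fun i _ => h i
        obtain ⟨i, hi⟩ := this
        rw [Finset.prod_eq_zero (Finset.mem_univ i) (indicator_of_notMem hi _)]
    rw [e2, integral_fintype_prod_volume_eq_prod (fun i => (s i).indicator F)]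
    refine Finset.prod_congr rfl fun i _ => ?_
    rw [integral_indicator (hs i)]
  rw [e1, ENNReal.ofReal_prod_of_nonneg (fun i _ => setIntegral_nonneg (hs i) fun x _ => h0 x)]
  refine Finset.prod_congr rfl fun i _ => ?_
  rw [withDensity_apply _ (hs i), ofReal_integral_eq_lintegral_ofReal hi.integrableOn (Eventually.of_forall h0)]

lemma h5_int_wd {α : Type*} [MeasurableSpace α] {μ : Measure α} {F : α → ℝ} (hF : Measurable F) (h0 : ∀ x, 0 ≤ F x) (g : α → ℝ) :
    ∫ x, g x ∂(μ.withDensity fun x => ENNReal.ofReal (F x)) = ∫ x, F x * g x ∂μ := by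
  have h := integral_withDensity_eq_integral_smul (μ := μ) (f := fun x => Real.toNNReal (F x)) hF.real_toNNReal g
  refine Eq.trans h ?_
  refine integral_congr_ae (Eventually.of_forall fun x => ?_)
  show (Real.toNNReal (F x)) • g x = F x * g x
  rw [NNReal.smul_def, Real.coe_toNNReal _ (h0 x), smul_eq_mul]

/-! ### The polynomial majorant -/

noncomputable def h5_p (z : ℝ) : ℝ := 1 - z/2 - z^2/8 - z^3/16 - 11/100 * z^5

lemma h5_sqrt_le {z : ℝ} (h0 : 0 ≤ z) (h1 : z ≤ 1) : √(1 - z) ≤ h5_p z := by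
  have hz2 : z ^ 2 ≤ 1 := pow_le_one₀ h0 h1
  have hz3 : z ^ 3 ≤ 1 := pow_le_one₀ h0 h1
  have hz5 : z ^ 5 ≤ 1 := pow_le_one₀ h0 h1
  have hp : 0 ≤ h5_p z := by unfold h5_p; linarith
  rw [Real.sqrt_le_left hp]
  have hf : 0 ≤ 20 - 5232/100 * z + 2916/100 * z^2 + 704/100 * z^3 + 352/100 * z^4 := by
    have h3 : 0 ≤ z^3 - 4/3 * z + 16/27 := by
      have : z^3 - 4/3 * z + 16/27 = (z - 2/3)^2 * (z + 4/3) := by ring
      rw [this]; positivity
    have h4 : 0 ≤ z^4 - 8/9 * z^2 + 16/81 := by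
      have : z^4 - 8/9 * z^2 + 16/81 = (z^2 - 4/9)^2 := by ring
      rw [this]; positivity
    nlinarith [sq_nonneg (z - 2/3)]
  have hA : 0 ≤ z^4 * (20 - 5232/100 * z + 2916/100 * z^2 + 704/100 * z^3 + 352/100 * z^4) / 256 := by positivity
  have hB : 0 ≤ (11/100 * z^5)^2 := by positivity
  have e : h5_p z ^ 2 = (1 - z) + z^4 * (20 - 5232/100 * z + 2916/100 * z^2 + 704/100 * z^3 + 352/100 * z^4) / 256 + (11/100 * z^5)^2 := by
    unfold h5_p
    ring
  rw [e]
  linarith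

/-- Exponents. -/
def h5_a : Fin 5 → ℕ := ![0, 1, 2, 3, 5]

/-- Coefficients. -/
noncomputable def h5_E : Fin 5 → ℝ := ![1, -1/8, -5/128, -45/1024, -21879/20480]

lemma h5_cell_succ (a : ℝ) (ha : 0 < a) (z : ℝ) : z * cellρ a z = a * cellρ (a + 1) z := by
  unfold cellρ
  by_cases hz : 0 < z
  · rw [indicator_of_mem (by exact hz : z ∈ Ioi 0), indicator_of_mem (by exact hz : z ∈ Ioi 0), Real.Gamma_add_one ha.ne']
    have hG : Real.Gamma a ≠ 0 := (Real.Gamma_pos_of_pos ha).ne'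
    have : z ^ (a + 1 - 1) = z * z ^ (a - 1) := by
      rw [show a + 1 - 1 = 1 + (a - 1) by ring, Real.rpow_add hz, Real.rpow_one]
    rw [this]
    field_simp
  · rw [indicator_of_notMem (by exact hz : z ∉ Ioi 0), indicator_of_notMem (by exact hz : z ∉ Ioi 0)]
    ring

lemma h5_cell_poly (z : ℝ) : cellρ (1/4) z * h5_p z = ∑ k : Fin 5, h5_E k * cellρ (1/4 + h5_a k) z := by
  have h1 := h5_cell_succ (1/4) (by norm_num) z
  have h2 := h5_cell_succ (1/4 + 1) (by norm_num) z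
  have h3 := h5_cell_succ (1/4 + 1 + 1) (by norm_num) z
  have h4 := h5_cell_succ (1/4 + 1 + 1 + 1) (by norm_num) z
  have h5 := h5_cell_succ (1/4 + 1 + 1 + 1 + 1) (by norm_num) z
  rw [Fin.sum_univ_five]
  simp only [h5_E, h5_a, Matrix.cons_val_zero, Matrix.cons_val_one, Matrix.cons_val, Nat.cast_zero, Nat.cast_one, Nat.cast_ofNat]
  rw [show (1/4 : ℝ) + 0 = 1/4 by norm_num, show (1/4 : ℝ) + 2 = 1/4 + 1 + 1 by norm_num,
    show (1/4 : ℝ) + 3 = 1/4 + 1 + 1 + 1 by norm_num, show (1/4 : ℝ) + 5 = 1/4 + 1 + 1 + 1 + 1 + 1 by norm_num]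
  obtain ⟨c0, hc0⟩ : ∃ c, c = cellρ (1/4) z := ⟨_, rfl⟩
  obtain ⟨c1, hc1⟩ : ∃ c, c = cellρ (1/4 + 1) z := ⟨_, rfl⟩
  obtain ⟨c2, hc2⟩ : ∃ c, c = cellρ (1/4 + 1 + 1) z := ⟨_, rfl⟩
  obtain ⟨c3, hc3⟩ : ∃ c, c = cellρ (1/4 + 1 + 1 + 1) z := ⟨_, rfl⟩
  obtain ⟨c4, hc4⟩ : ∃ c, c = cellρ (1/4 + 1 + 1 + 1 + 1) z := ⟨_, rfl⟩
  obtain ⟨c5, hc5⟩ : ∃ c, c = cellρ (1/4 + 1 + 1 + 1 + 1 + 1) z := ⟨_, rfl⟩
  rw [← hc0, ← hc1] at h1
  rw [← hc1, ← hc2] at h2
  rw [← hc2, ← hc3] at h3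
  rw [← hc3, ← hc4] at h4
  rw [← hc4, ← hc5] at h5
  rw [← hc0, ← hc1, ← hc2, ← hc3, ← hc5]
  have g1 : c0 * z = 1/4 * c1 := by linarith
  have g2 : c0 * z^2 = 5/16 * c2 := by
    have : c0 * z^2 = (c0 * z) * z := by ring
    rw [this, g1]; linarith
  have g3 : c0 * z^3 = 45/64 * c3 := by
    have : c0 * z^3 = (c0 * z^2) * z := by ring
    rw [this, g2]; linarith
  have g4 : c0 * z^4 = 585/256 * c4 := by
    have : c0 * z^4 = (c0 * z^3) * z := by ring
    rw [this, g3]; linarith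
  have g5 : c0 * z^5 = 9945/1024 * c5 := by
    have : c0 * z^5 = (c0 * z^4) * z := by ring
    rw [this, g4]; linarith
  have e : c0 * h5_p z = c0 - (c0 * z) / 2 - (c0 * z^2) / 8 - (c0 * z^3) / 16 - 11/100 * (c0 * z^5) := by
    unfold h5_p; ring
  rw [e, g1, g2, g3, g5]
  ring

lemma h5_Gamma (K : ℕ) : Real.Gamma (7/4 + K) = (∏ i ∈ Finset.range K, (7/4 + (i:ℝ))) * Real.Gamma (7/4) := by
  induction K with
  | zero => simp
  | succ K ih =>
    rw [Finset.prod_range_succ]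
    push_cast
    rw [← add_assoc, Real.Gamma_add_one (by positivity), ih]
    ring

/-- The sum. -/
noncomputable def h5_S : ℝ := ∑ a : Fin 5, ∑ b : Fin 5, ∑ c : Fin 5,
  h5_E a * h5_E b * h5_E c / ∏ i ∈ Finset.range (h5_a a + h5_a b + h5_a c), (7/4 + (i:ℝ))

lemma h5_S_le : h5_S ≤ 7595/10000 := by
  unfold h5_S
  simp only [Fin.sum_univ_five, h5_E, h5_a, Matrix.cons_val_zero, Matrix.cons_val_one, Matrix.cons_val]
  norm_num [Finset.prod_range_succ]

/-- The mass of one column constraint. -/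
theorem h5_N_le : h4_N ≤ h5_S / Real.Gamma (7/4) := by
  have hphi_int : Integrable h2_phi := by
    have h := (measure_lt_top h2_nu univ)
    unfold h2_nu at h
    rw [withDensity_apply _ MeasurableSet.univ, Measure.restrict_univ] at h
    refine ⟨h2_phi_meas.aestronglyMeasurable, ?_⟩
    rw [hasFiniteIntegral_iff_ofReal (Eventually.of_forall h2_phi_nonneg)]
    exact h
  have e1 : h4_N = ∫ z : Fin 3 → ℝ, (∏ i, h2_phi (z i)) * boxI 1 (∑ i, z i) := by
    unfold h4_N h2_nu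
    rw [h5_pi h2_phi_meas hphi_int h2_phi_nonneg, h5_int_wd]
    · exact Finset.measurable_prod _ fun i _ => h2_phi_meas.comp (measurable_pi_apply i)
    · exact fun z => Finset.prod_nonneg fun i _ => h2_phi_nonneg _
  have hpos : ∀ k : Fin 5, (0:ℝ) < 1/4 + h5_a k := fun k => by positivity
  have hposf : ∀ a b c : Fin 5, ∀ i : Fin 3, 0 < (![1/4 + (h5_a a : ℝ), 1/4 + (h5_a b : ℝ), 1/4 + (h5_a c : ℝ)] : Fin 3 → ℝ) i := by
    intro a b c i
    fin_cases i
    · exact hpos a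
    · exact hpos b
    · exact hpos c
  have hbound : ∀ z : Fin 3 → ℝ, (∏ i, h2_phi (z i)) * boxI 1 (∑ i, z i) ≤
      ∑ a : Fin 5, ∑ b : Fin 5, ∑ c : Fin 5, h5_E a * h5_E b * h5_E c *
        h3_F ![1/4 + (h5_a a : ℝ), 1/4 + (h5_a b : ℝ), 1/4 + (h5_a c : ℝ)] 1 z := by
    intro z
    have e2 : (∑ a : Fin 5, ∑ b : Fin 5, ∑ c : Fin 5, h5_E a * h5_E b * h5_E c *
        h3_F ![1/4 + (h5_a a : ℝ), 1/4 + (h5_a b : ℝ), 1/4 + (h5_a c : ℝ)] 1 z) =
        boxI 1 (∑ i, z i) * ∏ i, (cellρ (1/4) (z i) * h5_p (z i)) := by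
      have e3 : ∀ a b c : Fin 5, h5_E a * h5_E b * h5_E c * h3_F ![1/4 + (h5_a a : ℝ), 1/4 + (h5_a b : ℝ), 1/4 + (h5_a c : ℝ)] 1 z =
          boxI 1 (∑ i, z i) * ((h5_E a * cellρ (1/4 + h5_a a) (z 0)) * ((h5_E b * cellρ (1/4 + h5_a b) (z 1)) *
            (h5_E c * cellρ (1/4 + h5_a c) (z 2)))) := by
        intro a b c
        unfold h3_F
        rw [Fin.prod_univ_three]
        simp only [Matrix.cons_val_zero, Matrix.cons_val_one, Matrix.cons_val]
        ring
      simp_rw [e3, ← Finset.mul_sum]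
      rw [Fin.prod_univ_three, h5_cell_poly, h5_cell_poly, h5_cell_poly]
      simp_rw [← Finset.sum_mul]
      ring
    rw [e2, mul_comm]
    by_cases hb : ∑ i, z i ≤ 1
    · refine mul_le_mul_of_nonneg_left ?_ (boxI_nonneg _ _)
      by_cases hz : ∀ i, 0 < z i
      · refine Finset.prod_le_prod (fun i _ => h2_phi_nonneg _) fun i _ => ?_
        unfold h2_phi
        refine mul_le_mul_of_nonneg_left (h5_sqrt_le (hz i).le ?_) (cellρ_nonneg (by norm_num) _)
        exact (Finset.single_le_sum (fun j _ => (hz j).le) (Finset.mem_univ i)).trans hb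
      · push Not at hz
        obtain ⟨i, hi⟩ := hz
        rw [Finset.prod_eq_zero (Finset.mem_univ i) (by unfold h2_phi; rw [h2_cell_zero hi, zero_mul]),
          Finset.prod_eq_zero (Finset.mem_univ i) (by rw [h2_cell_zero hi, zero_mul])]
    · unfold boxI
      rw [if_neg hb, zero_mul, zero_mul]
  have hi1 : ∀ a b c : Fin 5, Integrable (fun z : Fin 3 → ℝ => h5_E a * h5_E b * h5_E c *
        h3_F ![1/4 + (h5_a a : ℝ), 1/4 + (h5_a b : ℝ), 1/4 + (h5_a c : ℝ)] 1 z) := fun a b c =>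
    (h3_F_int (hposf a b c) 1).const_mul _
  have hi2 : ∀ a b : Fin 5, Integrable (fun z : Fin 3 → ℝ => ∑ c : Fin 5, h5_E a * h5_E b * h5_E c *
        h3_F ![1/4 + (h5_a a : ℝ), 1/4 + (h5_a b : ℝ), 1/4 + (h5_a c : ℝ)] 1 z) := fun a b =>
    integrable_finsetSum _ fun c _ => hi1 a b c
  have hi3 : ∀ a : Fin 5, Integrable (fun z : Fin 3 → ℝ => ∑ b : Fin 5, ∑ c : Fin 5, h5_E a * h5_E b * h5_E c *
        h3_F ![1/4 + (h5_a a : ℝ), 1/4 + (h5_a b : ℝ), 1/4 + (h5_a c : ℝ)] 1 z) := fun a =>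
    integrable_finsetSum _ fun b _ => hi2 a b
  have hi4 : Integrable (fun z : Fin 3 → ℝ => ∑ a : Fin 5, ∑ b : Fin 5, ∑ c : Fin 5, h5_E a * h5_E b * h5_E c *
        h3_F ![1/4 + (h5_a a : ℝ), 1/4 + (h5_a b : ℝ), 1/4 + (h5_a c : ℝ)] 1 z) :=
    integrable_finsetSum _ fun a _ => hi3 a
  have hmeas : Measurable fun z : Fin 3 → ℝ => (∏ i, h2_phi (z i)) * boxI 1 (∑ i, z i) := by
    refine Measurable.mul ?_ ((measurable_boxI 1).comp (by fun_prop))
    exact Finset.measurable_prod _ fun i _ => h2_phi_meas.comp (measurable_pi_apply i)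
  have hnn : ∀ z : Fin 3 → ℝ, 0 ≤ (∏ i, h2_phi (z i)) * boxI 1 (∑ i, z i) := fun z =>
    mul_nonneg (Finset.prod_nonneg fun i _ => h2_phi_nonneg _) (boxI_nonneg _ _)
  have hi0 : Integrable (fun z : Fin 3 → ℝ => (∏ i, h2_phi (z i)) * boxI 1 (∑ i, z i)) :=
    Integrable.mono' hi4 hmeas.aestronglyMeasurable (Eventually.of_forall fun z => by
      rw [Real.norm_eq_abs, abs_of_nonneg (hnn z)]; exact hbound z)
  rw [e1]
  refine (integral_mono hi0 hi4 hbound).trans (le_of_eq ?_)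
  rw [integral_finsetSum _ fun a _ => hi3 a]
  unfold h5_S
  rw [Finset.sum_div]
  refine Finset.sum_congr rfl fun a _ => ?_
  rw [integral_finsetSum _ fun b _ => hi2 a b, Finset.sum_div]
  refine Finset.sum_congr rfl fun b _ => ?_
  rw [integral_finsetSum _ fun c _ => hi1 a b c, Finset.sum_div]
  refine Finset.sum_congr rfl fun c _ => ?_
  rw [integral_const_mul, h3_dir (hposf a b c), Fin.sum_univ_three]
  simp only [Matrix.cons_val_zero, Matrix.cons_val_one, Matrix.cons_val]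
  have e5 : (1:ℝ) + (1/4 + (h5_a a : ℝ) + (1/4 + (h5_a b : ℝ)) + (1/4 + (h5_a c : ℝ))) =
      7/4 + ((h5_a a + h5_a b + h5_a c : ℕ) : ℝ) := by push_cast; ring
  rw [e5, h5_Gamma]
  have hP : 0 < ∏ i ∈ Finset.range (h5_a a + h5_a b + h5_a c), (7/4 + (i:ℝ)) := Finset.prod_pos fun i _ => by positivity
  have p2 : 0 < Real.Gamma (7/4) := Real.Gamma_pos_of_pos (by norm_num)
  field_simp

end Pool.Agent.LibM3
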