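import Pool.Agent.LibM3.H5
import Pool.Agent.LibM3.G7

/-! Third moment, lower bound, block H6: the improved numerical value of the lower constant. -/

set_option autoImplicit false

namespace Pool.Agent.LibM3

open MeasureTheory Set Filter Topology
open Pool.Agent.LibZM
open scoped ENNReal

lemma h6_W_eq : h4_W Finset.univ = ∫ y : Fin 3 → Fin 3 → ℝ, (∏ i, g6_F 1 (y i)) * ∏ l, boxI 1 (∑ i, y i l) := by
  unfold h4_W h2_rho
  rw [h5_pi (g6_F_meas 1) (g6_F_int 1) (g6_F_nonneg 1), h5_int_wd]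
  · exact Finset.measurable_prod _ fun i _ => (g6_F_meas 1).comp (measurable_pi_apply i)
  · exact fun y => Finset.prod_nonneg fun i _ => g6_F_nonneg 1 _

/-- Scaling and removal of the last constraint. -/
theorem h6_V_le : (3:ℝ) ^ (9/4 : ℝ) * g3_V ≤ h4_W Finset.univ := by
  have hα : ∀ i, 0 < alphaD 3 i := by intro i; unfold alphaD; norm_num
  have hs := LG_box_scale (α := alphaD 3) (thetaD 3) (l := 3) (by norm_num)
  have hsum : (∑ i, alphaD 3 i) ^ 2 = 9/4 := by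
    unfold alphaD
    rw [Fin.sum_univ_three]
    norm_num
  rw [hsum] at hs
  unfold g3_V
  rw [← hs, h6_W_eq]
  have hLi := integrable_LG_box hα (fun i => 3 * thetaD 3 i) 3
  have hWi : Integrable (fun y : Fin 3 → Fin 3 → ℝ => (∏ i, g6_F 1 (y i)) * ∏ l, boxI 1 (∑ i, y i l)) := by
    have hpi : Integrable (fun y : Fin 3 → Fin 3 → ℝ => ∏ i, g6_F 1 (y i)) :=
      Integrable.fintype_prod (f := fun _ : Fin 3 => g6_F 1) fun _ => g6_F_int _
    refine Integrable.mono' hpi ?_ (Eventually.of_forall fun y => ?_)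
    · exact (hpi.aestronglyMeasurable).mul (h4_prod_meas Finset.univ).aestronglyMeasurable
    · have h1 : 0 ≤ ∏ i, g6_F 1 (y i) := Finset.prod_nonneg fun i _ => g6_F_nonneg 1 _
      have h2 := h4_prod_bound Finset.univ fun l => ∑ i, y i l
      rw [Real.norm_eq_abs, abs_mul, abs_of_nonneg h1]
      calc (∏ i, g6_F 1 (y i)) * |∏ l, boxI 1 (∑ i, y i l)| ≤ (∏ i, g6_F 1 (y i)) * 1 := by gcongr
        _ = _ := mul_one _
  unfold LG
  rw [← g6_map] at hLi ⊢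
  have hLi2 := hLi.comp_measurable g6_meas
  rw [integral_map g6_meas.aemeasurable hLi.aestronglyMeasurable]
  refine integral_mono hLi2 hWi fun y => ?_
  simp only
  have e1 : ∀ i, rowS (g6_Psi y) i = ∑ j, y i j := fun i => rfl
  have e1' : ∀ j, colS (g6_Psi y) j = ∑ i, y i j := fun j => rfl
  have e2 : cellD (alphaD 3) (g6_Psi y) = ∏ i, ∏ j, cellρ (1/4) (y i j) := by
    unfold cellD
    rw [Fintype.prod_prod_type]
    refine Finset.prod_congr rfl fun i _ => Finset.prod_congr rfl fun j _ => ?_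
    unfold alphaD g6_Psi
    norm_num
  have e0 : ∀ i, 3 * thetaD 3 i = 1 := fun i => by unfold thetaD; norm_num
  have e3 : ∏ i, g6_F 1 (y i) = (∏ i, boxI 1 (rowS (g6_Psi y) i)) * cellD (alphaD 3) (g6_Psi y) := by
    rw [e2, ← Finset.prod_mul_distrib]
    refine Finset.prod_congr rfl fun i _ => ?_
    unfold g6_F
    rw [e1]
  rw [e3]
  simp only [e0, e1']
  have a1 : 0 ≤ ∏ i, boxI 1 (rowS (g6_Psi y) i) := Finset.prod_nonneg fun i _ => boxI_nonneg _ _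
  have a2 : 0 ≤ ∏ j, boxI 1 (∑ i, y i j) := Finset.prod_nonneg fun i _ => boxI_nonneg _ _
  have a3 := boxI_le_one 3 (totS (g6_Psi y))
  have a3' := boxI_nonneg 3 (totS (g6_Psi y))
  have a4 := cellD_nonneg hα (g6_Psi y)
  calc (∏ i, boxI 1 (rowS (g6_Psi y) i)) * (∏ j, boxI 1 (∑ i, y i j)) * boxI 3 (totS (g6_Psi y)) * cellD (alphaD 3) (g6_Psi y)
      ≤ (∏ i, boxI 1 (rowS (g6_Psi y) i)) * (∏ j, boxI 1 (∑ i, y i j)) * 1 * cellD (alphaD 3) (g6_Psi y) := by gcongr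
    _ = _ := by ring

/-- The volume bound. -/
theorem h6_bound : (3:ℝ) ^ (9/4 : ℝ) * g3_V * Real.Gamma (3/2) ^ 9 ≤ (7595/10000) ^ 3 * Real.Gamma (7/4) ^ 3 := by
  have h1 := h6_V_le
  have h2 := h4_chain
  have h3 := h5_N_le
  have h4 := h5_S_le
  have hN := h4_N_nonneg
  have hW := h4_W_nonneg Finset.univ
  rw [h3_nu_mass] at h2
  have p1 : 0 < Real.Gamma (3/2) := Real.Gamma_pos_of_pos (by norm_num)
  have p2 : 0 < Real.Gamma (7/4) := Real.Gamma_pos_of_pos (by norm_num)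
  obtain ⟨a, ha⟩ : ∃ a, a = Real.Gamma (3/2) := ⟨_, rfl⟩
  obtain ⟨b, hb⟩ : ∃ b, b = Real.Gamma (7/4) := ⟨_, rfl⟩
  rw [← ha] at p1
  rw [← hb] at p2
  rw [← hb] at h3
  rw [← ha, ← hb] at h2
  rw [← ha, ← hb]
  have h5 : h4_N ≤ (7595/10000) / b := h3.trans (div_le_div_of_nonneg_right h4 p2.le)
  have h6 : ((a / b) ^ 3) ^ 3 * h4_W Finset.univ ≤ ((7595/10000) / b) ^ 3 * (1 / b) ^ 3 :=
    h2.trans (mul_le_mul_of_nonneg_right (pow_le_pow_left₀ hN h5 3) (by positivity))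
  have h7 : a ^ 9 * h4_W Finset.univ ≤ (7595/10000) ^ 3 * b ^ 3 := by
    have e1 : a ^ 9 * h4_W Finset.univ = b ^ 9 * (((a / b) ^ 3) ^ 3 * h4_W Finset.univ) := by field_simp
    rw [e1]
    calc b ^ 9 * (((a / b) ^ 3) ^ 3 * h4_W Finset.univ) ≤ b ^ 9 * (((7595/10000) / b) ^ 3 * (1 / b) ^ 3) := by gcongr
      _ = _ := by field_simp
  calc (3:ℝ) ^ (9/4 : ℝ) * g3_V * a ^ 9 ≤ h4_W Finset.univ * a ^ 9 := by gcongr
    _ = a ^ 9 * h4_W Finset.univ := by ring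
    _ ≤ _ := h7

/-- The numerical lower bound. -/
theorem h6_C : 374/1000 < g4_C := by
  unfold g4_C
  rw [Real.lt_sqrt (by norm_num)]
  have hV := g3_V_pos
  have hVle := h6_bound
  rw [lt_div_iff₀ hV]
  have hG : 0 < Real.Gamma (1/4) := Real.Gamma_pos_of_pos (by norm_num)
  have hG7 : 0 < Real.Gamma (7/4) := Real.Gamma_pos_of_pos (by norm_num)
  have hG3 : 0 < Real.Gamma (3/2) := Real.Gamma_pos_of_pos (by norm_num)
  have hpi := Real.pi_pos
  have hprod := g7_Gamma74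
  have hG32 : Real.Gamma (3/2) = √Real.pi / 2 := by
    have := Real.Gamma_add_one (s := 1/2) (by norm_num)
    rw [show (1/2 : ℝ) + 1 = 3/2 by norm_num, Real.Gamma_one_half_eq] at this
    rw [this]; ring
  rw [g7_cl]
  -- the powers of 3
  obtain ⟨x, hx⟩ : ∃ x, x = (1/3 : ℝ) ^ (9/4 : ℝ) := ⟨_, rfl⟩
  have hx0 : 0 < x := by rw [hx]; positivity
  have hx3 : (3:ℝ) ^ (9/4 : ℝ) = x⁻¹ := by
    rw [hx, one_div, Real.inv_rpow (by norm_num), inv_inv]
  have hx2 : x ^ 2 * √3 = 1 / 81 := by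
    have h3 : √3 = (3:ℝ) ^ (1/2 : ℝ) := Real.sqrt_eq_rpow 3
    have e : x ^ 2 = (1/3 : ℝ) ^ (9/2 : ℝ) := by
      rw [hx, ← Real.rpow_natCast, ← Real.rpow_mul (by norm_num)]
      congr 1
      norm_num
    rw [e, h3, one_div, Real.inv_rpow (by norm_num), ← Real.rpow_neg (by norm_num), ← Real.rpow_add (by norm_num)]
    norm_num
  rw [hx3] at hVle
  rw [← hx]
  obtain ⟨G, hGd⟩ : ∃ G, G = Real.Gamma (1/4) := ⟨_, rfl⟩
  obtain ⟨K, hKd⟩ : ∃ K, K = Real.Gamma (7/4) := ⟨_, rfl⟩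
  obtain ⟨q, hqd⟩ : ∃ q, q = √Real.pi := ⟨_, rfl⟩
  have hq0 : 0 < q := by rw [hqd]; positivity
  have hq2 : Real.pi = q ^ 2 := by rw [hqd, Real.sq_sqrt hpi.le]
  rw [← hqd] at hG32
  rw [hG32] at hVle
  rw [← hKd] at hVle hG7
  rw [← hGd] at hG
  rw [← hGd, ← hKd, hq2] at hprod
  rw [← hGd, hq2]
  obtain ⟨V, hVd⟩ : ∃ V, V = g3_V := ⟨_, rfl⟩
  rw [← hVd] at hV hVle ⊢
  have hs3 : √3 < 1732051/1000000 := by
    rw [Real.sqrt_lt' (by norm_num)]; norm_num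
  have hs30 : 0 < √3 := by positivity
  have hs2 : 1414213/1000000 < √2 := by
    rw [Real.lt_sqrt (by norm_num)]; norm_num
  have hs22 : √2 ^ 2 = (2:ℝ) := Real.sq_sqrt (by norm_num)
  have hq1 : q < 1772454/1000000 := by
    rw [hqd, Real.sqrt_lt' (by norm_num)]
    have := Real.pi_lt_d6
    nlinarith
  have hx2' : 1 / 81 / (1732051/1000000) < x ^ 2 := by
    rw [div_lt_iff₀ (by norm_num), ← hx2]
    exact mul_lt_mul_of_pos_left hs3 (by positivity)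
  -- the product
  have hKG : K ^ 3 * G ^ 3 = (27/32) * √2 * q ^ 6 := by
    calc K ^ 3 * G ^ 3 = (K * G) ^ 3 := by ring
      _ = (3/4 * (q ^ 2 * √2)) ^ 3 := by rw [hprod]
      _ = (27/64) * (√2 ^ 2 * √2) * q ^ 6 := by ring
      _ = _ := by rw [hs22]; ring
  have hV2 : V * (q ^ 9 * G ^ 3) ≤ x * ((7595/10000) ^ 3 * 512 * ((27/32) * √2 * q ^ 6)) := by
    have h1 : V * q ^ 9 ≤ x * ((7595/10000) ^ 3 * 512 * K ^ 3) := by
      have h2 : x⁻¹ * V * (q / 2) ^ 9 * (512 * x) ≤ (7595/10000) ^ 3 * K ^ 3 * (512 * x) :=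
        mul_le_mul_of_nonneg_right hVle (by positivity)
      have e1 : x⁻¹ * V * (q / 2) ^ 9 * (512 * x) = V * q ^ 9 := by
        field_simp
        ring
      rw [e1] at h2
      linarith
    calc V * (q ^ 9 * G ^ 3) = (V * q ^ 9) * G ^ 3 := by ring
      _ ≤ (x * ((7595/10000) ^ 3 * 512 * K ^ 3)) * G ^ 3 := by gcongr
      _ = x * ((7595/10000) ^ 3 * 512 * (K ^ 3 * G ^ 3)) := by ring
      _ = _ := by rw [hKG]
  have hfin : (374/1000 : ℝ) ^ 2 * ((7595/10000) ^ 3 * 512 * ((27/32) * √2)) * q ^ 3 < (832/27) ^ 3 * x ^ 2 := by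
    have hs2' : √2 < 1414214/1000000 := by
      rw [Real.sqrt_lt' (by norm_num)]; norm_num
    calc (374/1000 : ℝ) ^ 2 * ((7595/10000) ^ 3 * 512 * ((27/32) * √2)) * q ^ 3 
        ≤ (374/1000 : ℝ) ^ 2 * ((7595/10000) ^ 3 * 512 * ((27/32) * (1414214/1000000))) * (1772454/1000000) ^ 3 := by gcongr
      _ < (832/27) ^ 3 * (1 / 81 / (1732051/1000000)) := by norm_num
      _ ≤ (832/27) ^ 3 * x ^ 2 := by gcongr
  have e5 : (1 / (q ^ 2 * G) * (832 / 27 * x)) ^ 3 = (832/27) ^ 3 * x ^ 3 / (q ^ 6 * G ^ 3) := by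
    field_simp
  rw [e5, lt_div_iff₀ (by positivity)]
  have hmul : ((374/1000 : ℝ) ^ 2 * V * (q ^ 6 * G ^ 3)) * q ^ 3 < ((832/27) ^ 3 * x ^ 3) * q ^ 3 := by
    calc ((374/1000 : ℝ) ^ 2 * V * (q ^ 6 * G ^ 3)) * q ^ 3 = (374/1000 : ℝ) ^ 2 * (V * (q ^ 9 * G ^ 3)) := by ring
      _ ≤ (374/1000 : ℝ) ^ 2 * (x * ((7595/10000) ^ 3 * 512 * ((27/32) * √2 * q ^ 6))) := by gcongr
      _ = ((374/1000 : ℝ) ^ 2 * ((7595/10000) ^ 3 * 512 * ((27/32) * √2)) * q ^ 3) * (x * q ^ 3) := by ring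
      _ < ((832/27) ^ 3 * x ^ 2) * (x * q ^ 3) := mul_lt_mul_of_pos_right hfin (by positivity)
      _ = _ := by ring
  exact lt_of_mul_lt_mul_right hmul (by positivity)

end Pool.Agent.LibM3
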