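import Pool.Agent.LibM3.L1a

/-! Third moment, block L1b: the matrix integral as an iterated integral. -/

set_option autoImplicit false

namespace Pool.Agent.LibM3

open MeasureTheory Set Filter Topology Complex ProbabilityTheory
open scoped NNReal ComplexConjugate
open Pool.Agent.LibZM

lemma l1b_cell_one {x : ℝ} (hx : 0 < x) : cellρ 1 x = 1 := by
  unfold cellρ
  rw [Set.indicator_of_mem (show x ∈ Set.Ioi (0:ℝ) from hx)]
  simp

lemma l1b_cell_neg {w x : ℝ} (hx : x ≤ 0) : cellρ w x = 0 := by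
  unfold cellρ
  rw [Set.indicator_of_notMem]
  simpa using hx

lemma l1b_omb_nonneg (b x : ℝ) : 0 ≤ omb b x := le_max_left _ _

lemma l1b_omb_le_one (b x : ℝ) : omb b x ≤ 1 := by
  unfold omb
  exact max_le zero_le_one (min_le_left _ _)

lemma l1b_omb_zero {b x : ℝ} (h : b ≤ x) : omb b x = 0 := by
  unfold omb
  apply max_eq_left
  exact (min_le_right _ _).trans (by linarith)

lemma l1b_omb_cont (b : ℝ) : Continuous (omb b) := by
  unfold omb
  fun_prop

lemma l1b_omb_int {b s : ℝ} (_hs : 0 ≤ s) (hsb : s ≤ b - 1) :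
    ∫ x, omb b (x + s) * cellρ 1 x = b - 1/2 - s := by
  set c := b - s with hc
  have hc1 : 1 ≤ c := by rw [hc]; linarith
  have e : (fun x => omb b (x + s) * cellρ 1 x) = (Ioc 0 c).indicator (fun x => min 1 (c - x)) := by
    funext x
    by_cases hx0 : 0 < x
    · rw [l1b_cell_one hx0, mul_one]
      by_cases hxc : x ≤ c
      · rw [indicator_of_mem (show x ∈ Ioc 0 c from ⟨hx0, hxc⟩)]
        unfold omb
        have : b - (x + s) = c - x := by rw [hc]; ring
        rw [this]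
        apply max_eq_right
        exact le_min zero_le_one (by linarith)
      · rw [indicator_of_notMem (fun h => hxc h.2)]
        apply l1b_omb_zero
        push Not at hxc
        rw [hc] at hxc; linarith
    · rw [l1b_cell_neg (not_lt.1 hx0), mul_zero, indicator_of_notMem (fun h => hx0 h.1)]
  rw [e, integral_indicator measurableSet_Ioc, ← intervalIntegral.integral_of_le (by linarith)]
  have hcont : Continuous (fun x : ℝ => min 1 (c - x)) := by fun_prop
  rw [← intervalIntegral.integral_add_adjacent_intervals (hcont.intervalIntegrable 0 (c - 1))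
    (hcont.intervalIntegrable (c - 1) c)]
  have h1 : ∫ x in (0:ℝ)..(c - 1), min 1 (c - x) = ∫ x in (0:ℝ)..(c - 1), (1:ℝ) := by
    apply intervalIntegral.integral_congr
    intro x hx
    rw [uIcc_of_le (by linarith)] at hx
    exact min_eq_left (by linarith [hx.2])
  have h2 : ∫ x in (c - 1)..c, min 1 (c - x) = ∫ x in (c - 1)..c, (c - x) := by
    apply intervalIntegral.integral_congr
    intro x hx
    rw [uIcc_of_le (by linarith)] at hx
    exact min_eq_right (by linarith [hx.1])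
  rw [h1, h2, intervalIntegral.integral_sub (by simp) (by simp)]
  simp only [intervalIntegral.integral_const, smul_eq_mul, integral_id]
  rw [hc]
  ring

/-- Coordinates on the matrices. -/
noncomputable def l1b_Psi (q : ℝ × ℝ × ℝ × ℝ) : Fin 2 × Fin 2 → ℝ :=
  fun p => ![![q.2.2.2, q.2.2.1], ![q.2.1, q.1]] p.1 p.2

lemma l1b_measurable_Psi : Measurable l1b_Psi := by
  rw [measurable_pi_iff]
  rintro ⟨i, j⟩
  fin_cases i <;> fin_cases j <;> simp [l1b_Psi] <;> fun_prop

lemma l1b_map : Measure.map l1b_Psi volume = (volume : Measure (Fin 2 × Fin 2 → ℝ)) := by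
  rw [volume_pi]
  symm
  apply Measure.pi_eq
  intro s hs
  rw [Measure.map_apply l1b_measurable_Psi (MeasurableSet.univ_pi hs)]
  have e : l1b_Psi ⁻¹' (univ.pi s) = s (1,1) ×ˢ (s (1,0) ×ˢ (s (0,1) ×ˢ s (0,0))) := by
    ext q
    simp only [mem_preimage, Set.mem_pi, mem_univ, true_imp_iff, Prod.forall, Fin.forall_fin_two, l1b_Psi, mem_prod]
    simp
    tauto
  rw [e, Measure.volume_eq_prod, Measure.prod_prod, Measure.volume_eq_prod, Measure.prod_prod,
    Measure.volume_eq_prod, Measure.prod_prod, Fintype.prod_prod_type, Fin.prod_univ_two,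
    Fin.prod_univ_two, Fin.prod_univ_two]
  ring

/-- The integrand in coordinates. -/
noncomputable def l1b_G (f f' : ℝ → ℝ) (b : ℝ) (v r r' x : ℝ) : ℝ :=
  f (r + v) * f' (r' + v) * omb b ((x + r') + (r + v)) *
    (cellρ (1/4) v * (cellρ (1/2) r * (cellρ (1/2) r' * cellρ 1 x)))

lemma l1b_integrand (f f' : ℝ → ℝ) (b : ℝ) (q : ℝ × ℝ × ℝ × ℝ) :
    (∏ i, (![fun _ => 1, f] : Fin 2 → ℝ → ℝ) i (rowS (l1b_Psi q) i)) *
      (∏ j, (![fun _ => 1, f'] : Fin 2 → ℝ → ℝ) j (colS (l1b_Psi q) j)) *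
      omb b (totS (l1b_Psi q)) * cellD al (l1b_Psi q) = l1b_G f f' b q.1 q.2.1 q.2.2.1 q.2.2.2 := by
  unfold l1b_G rowS colS totS cellD al l1b_Psi
  simp only [Fintype.sum_prod_type, Fintype.prod_prod_type, Fin.prod_univ_two, Fin.sum_univ_two,
    Matrix.cons_val_zero, Matrix.cons_val_one, one_mul, mul_one]
  have : (1/2 : ℝ) * (1/2) = 1/4 := by norm_num
  rw [this]
  ring

lemma l1b_bdd {f : ℝ → ℝ} (hf : Continuous f) (h1 : ∀ x, 1 ≤ x → f x = 0) :
    ∃ C : ℝ, 0 ≤ C ∧ ∀ x, 0 ≤ x → |f x| ≤ C := by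
  obtain ⟨C, hC⟩ := isCompact_Icc.exists_bound_of_continuousOn (hf.continuousOn (s := Icc 0 1))
  refine ⟨max C 0, le_max_right _ _, fun x hx => ?_⟩
  by_cases hx1 : x ≤ 1
  · exact (hC x ⟨hx, hx1⟩).trans (le_max_left _ _)
  · rw [h1 x (by linarith), abs_zero]
    exact le_max_right _ _

/-- Truncated densities. -/
noncomputable def l1b_g (w : ℝ) (t : ℝ) : ℝ := (Ioc (0:ℝ) 1).indicator (cellρ w) t

noncomputable def l1b_h (b : ℝ) (t : ℝ) : ℝ := (Ioc (0:ℝ) b).indicator (fun _ => (1:ℝ)) t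

lemma l1b_g_nonneg {w : ℝ} (hw : 0 < w) (t : ℝ) : 0 ≤ l1b_g w t :=
  indicator_nonneg (fun t _ => cellρ_nonneg hw t) t

lemma l1b_h_nonneg (b t : ℝ) : 0 ≤ l1b_h b t :=
  indicator_nonneg (fun _ _ => zero_le_one) t

lemma l1b_g_integrable {w : ℝ} (hw : 0 < w) : Integrable (l1b_g w) := by
  unfold l1b_g
  have h : Integrable ((Ioc (0:ℝ) 1).indicator (cellρ w)) := by
    rw [integrable_indicator_iff measurableSet_Ioc]
    have h1 : IntegrableOn (fun t : ℝ => t ^ (w - 1) / Real.Gamma w) (Ioc 0 1) :=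
      ((intervalIntegral.intervalIntegrable_rpow' (a := 0) (b := 1) (r := w - 1) (by linarith)).1).div_const _
    refine h1.congr_fun ?_ measurableSet_Ioc
    intro t ht
    unfold cellρ
    rw [indicator_of_mem (show t ∈ Ioi (0:ℝ) from ht.1)]
  exact h

lemma l1b_h_integrable (b : ℝ) : Integrable (l1b_h b) := by
  have h : Integrable ((Ioc (0:ℝ) b).indicator (fun _ => (1:ℝ))) := by
    rw [integrable_indicator_iff measurableSet_Ioc]
    simp
  exact h

lemma l1b_bound {f f' : ℝ → ℝ} {C C' : ℝ} (hC : 0 ≤ C) (hC' : 0 ≤ C')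
    (hf : ∀ x, 0 ≤ x → |f x| ≤ C) (hf' : ∀ x, 0 ≤ x → |f' x| ≤ C')
    (h1 : ∀ x, 1 ≤ x → f x = 0) (h1' : ∀ x, 1 ≤ x → f' x = 0) (b v r r' x : ℝ) :
    ‖l1b_G f f' b v r r' x‖ ≤
      C * C' * (l1b_g (1/4) v * (l1b_g (1/2) r * (l1b_g (1/2) r' * l1b_h b x))) := by
  have hR : 0 ≤ C * C' * (l1b_g (1/4) v * (l1b_g (1/2) r * (l1b_g (1/2) r' * l1b_h b x))) := by
    have a1 := l1b_g_nonneg (w := 1/4) (by norm_num) v
    have a2 := l1b_g_nonneg (w := 1/2) (by norm_num) r
    have a3 := l1b_g_nonneg (w := 1/2) (by norm_num) r'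
    have a4 := l1b_h_nonneg b x
    positivity
  by_cases hv : v ≤ 0
  · have : l1b_G f f' b v r r' x = 0 := by unfold l1b_G; rw [l1b_cell_neg hv]; ring
    rw [this, norm_zero]; exact hR
  by_cases hr : r ≤ 0
  · have : l1b_G f f' b v r r' x = 0 := by unfold l1b_G; rw [l1b_cell_neg hr]; ring
    rw [this, norm_zero]; exact hR
  by_cases hr' : r' ≤ 0
  · have : l1b_G f f' b v r r' x = 0 := by unfold l1b_G; rw [l1b_cell_neg hr']; ring
    rw [this, norm_zero]; exact hR
  by_cases hx : x ≤ 0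
  · have : l1b_G f f' b v r r' x = 0 := by unfold l1b_G; rw [l1b_cell_neg hx]; ring
    rw [this, norm_zero]; exact hR
  push Not at hv hr hr' hx
  by_cases hrv : 1 ≤ r + v
  · have : l1b_G f f' b v r r' x = 0 := by unfold l1b_G; rw [h1 _ hrv]; ring
    rw [this, norm_zero]; exact hR
  by_cases hrv' : 1 ≤ r' + v
  · have : l1b_G f f' b v r r' x = 0 := by unfold l1b_G; rw [h1' _ hrv']; ring
    rw [this, norm_zero]; exact hR
  by_cases hxb : b ≤ x + r' + (r + v)
  · have : l1b_G f f' b v r r' x = 0 := by unfold l1b_G; rw [l1b_omb_zero hxb]; ring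
    rw [this, norm_zero]; exact hR
  push Not at hrv hrv' hxb
  have e1 : l1b_g (1/4) v = cellρ (1/4) v := by
    unfold l1b_g; rw [indicator_of_mem]; exact ⟨hv, by linarith⟩
  have e2 : l1b_g (1/2) r = cellρ (1/2) r := by
    unfold l1b_g; rw [indicator_of_mem]; exact ⟨hr, by linarith⟩
  have e3 : l1b_g (1/2) r' = cellρ (1/2) r' := by
    unfold l1b_g; rw [indicator_of_mem]; exact ⟨hr', by linarith⟩
  have e4 : l1b_h b x = 1 := by
    unfold l1b_h; rw [indicator_of_mem]; exact ⟨hx, by linarith⟩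
  rw [e1, e2, e3, e4]
  unfold l1b_G
  rw [l1b_cell_one hx]
  have p1 := cellρ_nonneg (w := 1/4) (by norm_num) v
  have p2 := cellρ_nonneg (w := 1/2) (by norm_num) r
  have p3 := cellρ_nonneg (w := 1/2) (by norm_num) r'
  have p5 : 0 ≤ cellρ (1/4) v * (cellρ (1/2) r * (cellρ (1/2) r' * 1)) := by positivity
  rw [Real.norm_eq_abs, abs_mul, abs_mul, abs_mul, abs_of_nonneg (l1b_omb_nonneg _ _), abs_of_nonneg p5]
  have q1 := hf (r + v) (by linarith)
  have q2 := hf' (r' + v) (by linarith)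
  have q3 := l1b_omb_le_one b (x + r' + (r + v))
  have q4 := l1b_omb_nonneg b (x + r' + (r + v))
  calc |f (r + v)| * |f' (r' + v)| * omb b (x + r' + (r + v)) * (cellρ (1/4) v * (cellρ (1/2) r * (cellρ (1/2) r' * 1)))
      ≤ C * C' * 1 * (cellρ (1/4) v * (cellρ (1/2) r * (cellρ (1/2) r' * 1))) := by gcongr
    _ = _ := by ring

lemma l1b_meas {f f' : ℝ → ℝ} (hf : Continuous f) (hf' : Continuous f') (b : ℝ) :
    Measurable (fun q : ℝ × ℝ × ℝ × ℝ => l1b_G f f' b q.1 q.2.1 q.2.2.1 q.2.2.2) := by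
  unfold l1b_G
  have m1 := measurable_cellρ (1/4)
  have m2 := measurable_cellρ (1/2)
  have m3 := measurable_cellρ 1
  have m4 := (l1b_omb_cont b).measurable
  have m5 := hf.measurable
  have m6 := hf'.measurable
  fun_prop

lemma l1b_fubini {f f' : ℝ → ℝ} (hf : Continuous f) (hf' : Continuous f') (h1 : ∀ x, 1 ≤ x → f x = 0)
    (h1' : ∀ x, 1 ≤ x → f' x = 0) (b : ℝ) :
    ∫ q : ℝ × ℝ × ℝ × ℝ, l1b_G f f' b q.1 q.2.1 q.2.2.1 q.2.2.2 =
      ∫ v, ∫ r, ∫ r', ∫ x, l1b_G f f' b v r r' x := by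
  obtain ⟨C, hC, hfC⟩ := l1b_bdd hf h1
  obtain ⟨C', hC', hfC'⟩ := l1b_bdd hf' h1'
  have hm := l1b_meas hf hf' b
  have hb := l1b_bound hC hC' hfC hfC' h1 h1' b
  have g1 := l1b_g_integrable (w := 1/4) (by norm_num)
  have g2 := l1b_g_integrable (w := 1/2) (by norm_num)
  have g4 := l1b_h_integrable b
  have i34 : Integrable (fun q : ℝ × ℝ => l1b_g (1/2) q.1 * l1b_h b q.2) (volume.prod volume) :=
    g2.mul_prod g4
  have i234 : Integrable (fun q : ℝ × ℝ × ℝ => l1b_g (1/2) q.1 * (l1b_g (1/2) q.2.1 * l1b_h b q.2.2))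
      (volume.prod (volume.prod volume)) :=
    g2.mul_prod i34
  have i1234 : Integrable (fun q : ℝ × ℝ × ℝ × ℝ => l1b_g (1/4) q.1 * (l1b_g (1/2) q.2.1 *
      (l1b_g (1/2) q.2.2.1 * l1b_h b q.2.2.2))) (volume.prod (volume.prod (volume.prod volume))) :=
    g1.mul_prod i234
  have I1 : Integrable (fun q : ℝ × ℝ × ℝ × ℝ => l1b_G f f' b q.1 q.2.1 q.2.2.1 q.2.2.2)
      (volume.prod (volume.prod (volume.prod volume))) :=
    Integrable.mono' (i1234.const_mul (C * C')) hm.aestronglyMeasurable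
      (Eventually.of_forall fun q => hb _ _ _ _)
  have I2 : ∀ v, Integrable (fun q : ℝ × ℝ × ℝ => l1b_G f f' b v q.1 q.2.1 q.2.2)
      (volume.prod (volume.prod volume)) := by
    intro v
    have hmv : Measurable (fun q : ℝ × ℝ × ℝ => l1b_G f f' b v q.1 q.2.1 q.2.2) :=
      hm.comp (measurable_const.prodMk measurable_id)
    exact Integrable.mono' ((i234.const_mul (l1b_g (1/4) v)).const_mul (C * C')) hmv.aestronglyMeasurable
      (Eventually.of_forall fun q => hb _ _ _ _)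
  have I3 : ∀ v r, Integrable (fun q : ℝ × ℝ => l1b_G f f' b v r q.1 q.2) (volume.prod volume) := by
    intro v r
    have hmv : Measurable (fun q : ℝ × ℝ => l1b_G f f' b v r q.1 q.2) :=
      hm.comp (measurable_const.prodMk (measurable_const.prodMk measurable_id))
    exact Integrable.mono' (((i34.const_mul (l1b_g (1/2) r)).const_mul (l1b_g (1/4) v)).const_mul (C * C'))
      hmv.aestronglyMeasurable (Eventually.of_forall fun q => hb _ _ _ _)
  calc ∫ q : ℝ × ℝ × ℝ × ℝ, l1b_G f f' b q.1 q.2.1 q.2.2.1 q.2.2.2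
      = ∫ v, ∫ q : ℝ × ℝ × ℝ, l1b_G f f' b v q.1 q.2.1 q.2.2 := integral_prod _ I1
    _ = ∫ v, ∫ r, ∫ q : ℝ × ℝ, l1b_G f f' b v r q.1 q.2 := by
        congr 1; funext v; exact integral_prod _ (I2 v)
    _ = _ := by
        congr 1; funext v; congr 1; funext r; exact integral_prod _ (I3 v r)

lemma l1b_inner {f f' : ℝ → ℝ} (h1 : ∀ x, 1 ≤ x → f x = 0)
    (h1' : ∀ x, 1 ≤ x → f' x = 0) {b : ℝ} (hb : 3 ≤ b) (v r r' : ℝ) :
    ∫ x, l1b_G f f' b v r r' x =
      cellρ (1/4) v * (cellρ (1/2) r * (cellρ (1/2) r' * (f (r + v) * f' (r' + v) * (b - 1/2 - (v + r + r'))))) := by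
  by_cases hv : v ≤ 0
  · unfold l1b_G; rw [l1b_cell_neg hv]; simp
  by_cases hr : r ≤ 0
  · unfold l1b_G; rw [l1b_cell_neg hr]; simp
  by_cases hr' : r' ≤ 0
  · unfold l1b_G; rw [l1b_cell_neg hr']; simp
  push Not at hv hr hr'
  by_cases hrv : 1 ≤ r + v
  · unfold l1b_G; rw [h1 _ hrv]; simp
  by_cases hrv' : 1 ≤ r' + v
  · unfold l1b_G; rw [h1' _ hrv']; simp
  push Not at hrv hrv'
  have e : ∀ x, l1b_G f f' b v r r' x = (f (r + v) * f' (r' + v) *
      (cellρ (1/4) v * (cellρ (1/2) r * cellρ (1/2) r'))) * (omb b (x + (r' + (r + v))) * cellρ 1 x) := by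
    intro x
    unfold l1b_G
    rw [show x + r' + (r + v) = x + (r' + (r + v)) by ring]
    ring
  simp_rw [e]
  rw [integral_const_mul, l1b_omb_int (by linarith) (by linarith)]
  ring

lemma l1b_cut {w u : ℝ} (hu : 0 ≤ u) {F : ℝ → ℝ} (hF : ∀ r, u < r → F r = 0) :
    ∫ r, cellρ w r * F r = (1 / Real.Gamma w) * ∫ r in (0:ℝ)..u, r ^ (w - 1) * F r := by
  have e : (fun r => cellρ w r * F r) =
      (Ioc 0 u).indicator (fun r => (1 / Real.Gamma w) * (r ^ (w - 1) * F r)) := by
    funext r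
    by_cases hr0 : 0 < r
    · by_cases hru : r ≤ u
      · rw [indicator_of_mem (show r ∈ Ioc 0 u from ⟨hr0, hru⟩)]
        unfold cellρ
        rw [indicator_of_mem (show r ∈ Ioi (0:ℝ) from hr0)]
        ring
      · rw [indicator_of_notMem (fun h => hru h.2), hF r (not_le.1 hru), mul_zero]
    · rw [indicator_of_notMem (fun h => hr0 h.1), l1b_cell_neg (not_lt.1 hr0), zero_mul]
  rw [e, integral_indicator measurableSet_Ioc, ← intervalIntegral.integral_of_le hu,
    intervalIntegral.integral_const_mul]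

theorem LG_eq_IB {f f' : ℝ → ℝ} (hf : Continuous f) (hf' : Continuous f') (h1 : ∀ x, 1 ≤ x → f x = 0) (h1' : ∀ x, 1 ≤ x → f' x = 0)
    {b : ℝ} (hb : 3 ≤ b) :
    LG al ![fun _ => 1, f] ![fun _ => 1, f'] (omb b) = IB f f' b := by
  have hL : LG al ![fun _ => 1, f] ![fun _ => 1, f'] (omb b) =
      ∫ q : ℝ × ℝ × ℝ × ℝ, l1b_G f f' b q.1 q.2.1 q.2.2.1 q.2.2.2 := by
    unfold LG
    rw [← l1b_map, integral_map l1b_measurable_Psi.aemeasurable]
    · congr 1
      funext q
      exact l1b_integrand f f' b q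
    · apply Measurable.aestronglyMeasurable
      apply measurable_LG
      · intro i; fin_cases i
        · exact measurable_const
        · exact hf.measurable
      · intro i; fin_cases i
        · exact measurable_const
        · exact hf'.measurable
      · exact (l1b_omb_cont b).measurable
  rw [hL, l1b_fubini hf hf' h1 h1']
  simp_rw [l1b_inner h1 h1' hb, integral_const_mul]
  rw [l1b_cut (w := 1/4) (u := 1) zero_le_one]
  · unfold IB
    have hG : Real.Gamma (1/2) * Real.Gamma (1/2) = Real.pi := by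
      rw [Real.Gamma_one_half_eq, Real.mul_self_sqrt Real.pi_pos.le]
    have hG0 : Real.Gamma (1/2) ≠ 0 := (Real.Gamma_pos_of_pos (by norm_num)).ne'
    have hG4 : Real.Gamma (1/4) ≠ 0 := (Real.Gamma_pos_of_pos (by norm_num)).ne'
    have key : ∀ v ∈ uIcc (0:ℝ) 1,
        v ^ ((1/4 : ℝ) - 1) * (∫ r, cellρ (1/2) r * ∫ r', cellρ (1/2) r' * (f (r + v) * f' (r' + v) * (b - 1/2 - (v + r + r')))) =
        (1 / Real.pi) * (v ^ (-(3/4) : ℝ) *
          ∫ r in (0:ℝ)..(1 - v), ∫ r' in (0:ℝ)..(1 - v), (r * r') ^ (-(1/2) : ℝ) * (f (v + r) * f' (v + r')) * (b - 1/2 - (v + r + r'))) := by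
      intro v hv
      rw [uIcc_of_le zero_le_one] at hv
      have hv1 : 0 ≤ 1 - v := by linarith [hv.2]
      rw [l1b_cut (w := 1/2) (u := 1 - v) hv1]
      · have hin : ∀ r, ∫ r', cellρ (1/2) r' * (f (r + v) * f' (r' + v) * (b - 1/2 - (v + r + r'))) =
            (1 / Real.Gamma (1/2)) * ∫ r' in (0:ℝ)..(1 - v), r' ^ ((1/2 : ℝ) - 1) * (f (r + v) * f' (r' + v) * (b - 1/2 - (v + r + r'))) := by
          intro r
          apply l1b_cut hv1
          intro r' hr'
          rw [h1' (r' + v) (by linarith)]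
          ring
        simp_rw [hin]
        have h2 : ∫ r in (0:ℝ)..(1 - v), r ^ ((1/2 : ℝ) - 1) *
            ((1 / Real.Gamma (1/2)) * ∫ r' in (0:ℝ)..(1 - v), r' ^ ((1/2 : ℝ) - 1) * (f (r + v) * f' (r' + v) * (b - 1/2 - (v + r + r')))) =
            (1 / Real.Gamma (1/2)) * ∫ r in (0:ℝ)..(1 - v), ∫ r' in (0:ℝ)..(1 - v), (r * r') ^ (-(1/2) : ℝ) * (f (v + r) * f' (v + r')) * (b - 1/2 - (v + r + r')) := by
          rw [← intervalIntegral.integral_const_mul]
          apply intervalIntegral.integral_congr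
          intro r hr
          rw [uIcc_of_le hv1] at hr
          simp only
          rw [mul_left_comm, ← intervalIntegral.integral_const_mul]
          congr 1
          apply intervalIntegral.integral_congr
          intro r' hr'
          rw [uIcc_of_le hv1] at hr'
          simp only
          rw [Real.mul_rpow hr.1 hr'.1, add_comm r v, add_comm r' v]
          have : (1/2 : ℝ) - 1 = -(1/2) := by norm_num
          rw [this]
          ring
        rw [h2]
        have : (1/4 : ℝ) - 1 = -(3/4) := by norm_num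
        rw [this, ← hG]
        field_simp
      · intro r hr
        rw [h1 (r + v) (by linarith)]
        simp
    rw [intervalIntegral.integral_congr key, intervalIntegral.integral_const_mul]
    field_simp
  · intro v hv
    have : (fun r => cellρ (1/2) r * ∫ r', cellρ (1/2) r' * (f (r + v) * f' (r' + v) * (b - 1/2 - (v + r + r')))) = fun _ => 0 := by
      funext r
      by_cases hr : r ≤ 0
      · rw [l1b_cell_neg hr, zero_mul]
      · rw [h1 (r + v) (by linarith)]
        simp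
    rw [this]
    simp

theorem SB_limit {f f' : ℝ → ℝ} (hf : Continuous f) (hf' : Continuous f') (h1 : ∀ x, 1 ≤ x → f x = 0) (h1' : ∀ x, 1 ≤ x → f' x = 0)
    {b : ℝ} (hb : 3 ≤ b) :
    Tendsto (fun δ : ℝ => δ ^ (9/4 : ℝ) * SB f f' b δ) (𝓝[>] 0) (𝓝 (Aconst (3/2) * IB f f' b)) := by
  rw [← LG_eq_IB hf hf' h1 h1' hb]
  exact SB_limit_LG hf hf' h1 h1' hb

end Pool.Agent.LibM3
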