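import Pool.Agent.LibM3.L1b
import Pool.Agent.LibM3.L2

/-! Third moment, block L3: limits of the arithmetic form for continuous weights. -/

set_option autoImplicit false

namespace Pool.Agent.LibM3

open MeasureTheory Set Filter Topology Complex ProbabilityTheory
open scoped NNReal ComplexConjugate
open Pool.Agent.LibZM

/-- Fractional integral of a shift. -/
noncomputable def l3_A (s : ℝ) (f : ℝ → ℝ) (v : ℝ) : ℝ := ∫ r in (0:ℝ)..1, r ^ s * f (v + r)

theorem l3_bdd {f : ℝ → ℝ} (hf : Continuous f) (h1 : ∀ x, 1 ≤ x → f x = 0) :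
    ∃ B : ℝ, 0 ≤ B ∧ ∀ x, 0 ≤ x → |f x| ≤ B := by
  obtain ⟨C, hC⟩ := (isCompact_Icc (a := (0:ℝ)) (b := 1)).exists_bound_of_continuousOn hf.continuousOn
  refine ⟨max C 0, le_max_right _ _, fun x hx => ?_⟩
  rcases le_total x 1 with h | h
  · exact le_trans (hC x ⟨hx, h⟩) (le_max_left _ _)
  · rw [h1 x h, abs_zero]; exact le_max_right _ _

theorem l3_int {s : ℝ} (hs : -1 < s) {f : ℝ → ℝ} (hf : Continuous f) (v a b : ℝ) :
    IntervalIntegrable (fun r : ℝ => r ^ s * f (v + r)) volume a b :=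
  (intervalIntegral.intervalIntegrable_rpow' hs).mul_continuousOn
    (hf.comp (continuous_const.add continuous_id)).continuousOn

theorem l3_A_eq {s : ℝ} (hs : -1 < s) {f : ℝ → ℝ} (hf : Continuous f) (h1 : ∀ x, 1 ≤ x → f x = 0)
    {v : ℝ} (hv : v ∈ Icc (0:ℝ) 1) :
    ∫ r in (0:ℝ)..(1 - v), r ^ s * f (v + r) = l3_A s f v := by
  unfold l3_A
  rw [← intervalIntegral.integral_add_adjacent_intervals (l3_int hs hf v 0 (1 - v)) (l3_int hs hf v (1 - v) 1)]
  have : ∫ r in (1 - v)..1, r ^ s * f (v + r) = 0 := by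
    rw [intervalIntegral.integral_congr (g := fun _ => (0:ℝ))]
    · simp
    · intro r hr
      rw [uIcc_of_le (by linarith [hv.1])] at hr
      simp only
      rw [h1 (v + r) (by linarith [hr.1]), mul_zero]
  rw [this, add_zero]

theorem l3_cont {s : ℝ} (hs : -1 < s) {f : ℝ → ℝ} (hf : Continuous f) (h1 : ∀ x, 1 ≤ x → f x = 0) :
    ContinuousOn (l3_A s f) (Icc 0 1) := by
  obtain ⟨B, hB0, hB⟩ := l3_bdd hf h1
  have hg : Continuous (l3_A s (fun x => f (max 0 x))) := by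
    unfold l3_A
    have hgc : Continuous (fun x => f (max 0 x)) := hf.comp (continuous_const.max continuous_id)
    refine intervalIntegral.continuous_of_dominated_interval (bound := fun r => |r ^ s| * B) ?_ ?_ ?_ ?_
    · intro v
      exact ((l3_int hs hgc v 0 1).def').aestronglyMeasurable
    · intro v
      refine Eventually.of_forall fun r _ => ?_
      rw [norm_mul, Real.norm_eq_abs, Real.norm_eq_abs]
      exact mul_le_mul_of_nonneg_left (hB _ (le_max_left _ _)) (abs_nonneg _)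
    · exact ((intervalIntegral.intervalIntegrable_rpow' hs).norm).mul_const B
    · refine Eventually.of_forall fun r _ => ?_
      exact continuous_const.mul (hgc.comp (continuous_id.add continuous_const))
  refine hg.continuousOn.congr fun v hv => ?_
  unfold l3_A
  refine intervalIntegral.integral_congr fun r hr => ?_
  rw [uIcc_of_le (by norm_num)] at hr
  simp only
  rw [max_eq_right (by linarith [hv.1, hr.1])]

/-- The double integral with affine weight. -/
theorem l3_double {f f' : ℝ → ℝ} (hf : Continuous f) (hf' : Continuous f') (h1 : ∀ x, 1 ≤ x → f x = 0)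
    (h1' : ∀ x, 1 ≤ x → f' x = 0) {v : ℝ} (hv : v ∈ Icc (0:ℝ) 1) (w : ℝ → ℝ → ℝ) (a c : ℝ)
    (hw : ∀ r r', w r r' = a - c * (r + r')) :
    ∫ r in (0:ℝ)..(1 - v), ∫ r' in (0:ℝ)..(1 - v), (r * r') ^ (-(1/2) : ℝ) * (f (v + r) * f' (v + r')) * w r r' =
      a * (l3_A (-(1/2)) f v * l3_A (-(1/2)) f' v) -
        c * (l3_A (1/2) f v * l3_A (-(1/2)) f' v + l3_A (-(1/2)) f v * l3_A (1/2) f' v) := by
  have hm : (-1 : ℝ) < -(1/2) := by norm_num
  have hp : (-1 : ℝ) < 1/2 := by norm_num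
  have h01 : (0:ℝ) ≤ 1 - v := by linarith [hv.2]
  have hrp : ∀ r : ℝ, 0 ≤ r → r ^ (-(1/2) : ℝ) * r = r ^ (1/2 : ℝ) := by
    intro r hr
    rcases hr.eq_or_lt with h | h
    · rw [← h, mul_zero, Real.zero_rpow (by norm_num)]
    · nth_rewrite 2 [← Real.rpow_one r]
      rw [← Real.rpow_add h]; norm_num
  have inner : ∀ r ∈ Icc (0:ℝ) (1 - v),
      ∫ r' in (0:ℝ)..(1 - v), (r * r') ^ (-(1/2) : ℝ) * (f (v + r) * f' (v + r')) * w r r' =
      (a * l3_A (-(1/2)) f' v - c * l3_A (1/2) f' v) * (r ^ (-(1/2) : ℝ) * f (v + r)) -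
        c * l3_A (-(1/2)) f' v * (r ^ (1/2 : ℝ) * f (v + r)) := by
    intro r hr
    have e1 : ∫ r' in (0:ℝ)..(1 - v), (r * r') ^ (-(1/2) : ℝ) * (f (v + r) * f' (v + r')) * w r r' =
        ∫ r' in (0:ℝ)..(1 - v), ((r ^ (-(1/2) : ℝ) * f (v + r) * a - c * (r ^ (1/2 : ℝ) * f (v + r))) *
          (r' ^ (-(1/2) : ℝ) * f' (v + r')) - (c * (r ^ (-(1/2) : ℝ) * f (v + r))) * (r' ^ (1/2 : ℝ) * f' (v + r'))) := by
      refine intervalIntegral.integral_congr fun r' hr' => ?_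
      rw [uIcc_of_le h01] at hr'
      try simp only
      rw [hw, Real.mul_rpow hr.1 hr'.1, ← hrp r hr.1, ← hrp r' hr'.1]
      ring
    rw [e1, intervalIntegral.integral_sub ((l3_int hm hf' v 0 (1 - v)).const_mul _) ((l3_int hp hf' v 0 (1 - v)).const_mul _),
      intervalIntegral.integral_const_mul, intervalIntegral.integral_const_mul, l3_A_eq hm hf' h1' hv, l3_A_eq hp hf' h1' hv]
    ring
  rw [intervalIntegral.integral_congr (g := fun r => (a * l3_A (-(1/2)) f' v - c * l3_A (1/2) f' v) * (r ^ (-(1/2) : ℝ) * f (v + r)) -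
        c * l3_A (-(1/2)) f' v * (r ^ (1/2 : ℝ) * f (v + r)))
      (fun r hr => inner r (by rwa [uIcc_of_le h01] at hr)),
    intervalIntegral.integral_sub ((l3_int hm hf v 0 (1 - v)).const_mul _) ((l3_int hp hf v 0 (1 - v)).const_mul _),
      intervalIntegral.integral_const_mul, intervalIntegral.integral_const_mul, l3_A_eq hm hf h1 hv, l3_A_eq hp hf h1 hv]
  ring

/-- Integrability of the outer integrands. -/
theorem l3_outer {g : ℝ → ℝ} (hg : ContinuousOn g (Icc 0 1)) :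
    IntervalIntegrable (fun v : ℝ => v ^ (-(3/4) : ℝ) * g v) volume 0 1 :=
  (intervalIntegral.intervalIntegrable_rpow' (by norm_num)).mul_continuousOn (by rwa [uIcc_of_le zero_le_one])

theorem l3_IB {f f' : ℝ → ℝ} (hf : Continuous f) (hf' : Continuous f') (h1 : ∀ x, 1 ≤ x → f x = 0)
    (h1' : ∀ x, 1 ≤ x → f' x = 0) (b : ℝ) :
    IB f f' b = (1 / (Real.pi * Real.Gamma (1/4))) * ∫ v in (0:ℝ)..1, v ^ (-(3/4) : ℝ) *
      ((b - 1/2 - v) * (l3_A (-(1/2)) f v * l3_A (-(1/2)) f' v) -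
        (l3_A (1/2) f v * l3_A (-(1/2)) f' v + l3_A (-(1/2)) f v * l3_A (1/2) f' v)) := by
  unfold IB
  congr 1
  refine intervalIntegral.integral_congr fun v hv => ?_
  rw [uIcc_of_le zero_le_one] at hv
  try simp only
  rw [l3_double hf hf' h1 h1' hv (fun r r' => b - 1/2 - (v + r + r')) (b - 1/2 - v) 1 (fun r r' => by ring), one_mul]

theorem l3_IM {f f' : ℝ → ℝ} (hf : Continuous f) (hf' : Continuous f') (h1 : ∀ x, 1 ≤ x → f x = 0)
    (h1' : ∀ x, 1 ≤ x → f' x = 0) :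
    IM f f' = (1 / (Real.pi * Real.Gamma (1/4))) * ∫ v in (0:ℝ)..1, v ^ (-(3/4) : ℝ) *
      ((l3_A (-(1/2)) f v * l3_A (-(1/2)) f' v) -
        (l3_A (1/2) f v * l3_A (-(1/2)) f' v + l3_A (-(1/2)) f v * l3_A (1/2) f' v)) := by
  unfold IM
  congr 1
  refine intervalIntegral.integral_congr fun v hv => ?_
  rw [uIcc_of_le zero_le_one] at hv
  try simp only
  rw [l3_double hf hf' h1 h1' hv (fun r r' => 1 - r - r') 1 1 (fun r r' => by ring), one_mul, one_mul]

theorem l3_IP {f f' : ℝ → ℝ} (hf : Continuous f) (hf' : Continuous f') (h1 : ∀ x, 1 ≤ x → f x = 0)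
    (h1' : ∀ x, 1 ≤ x → f' x = 0) :
    IP f f' = (1 / (Real.pi * Real.Gamma (1/4))) * ∫ v in (0:ℝ)..1, v ^ (-(3/4) : ℝ) *
      (l3_A (-(1/2)) f v * l3_A (-(1/2)) f' v) := by
  unfold IP
  congr 1
  refine intervalIntegral.integral_congr fun v hv => ?_
  rw [uIcc_of_le zero_le_one] at hv
  try simp only
  have := l3_double hf hf' h1 h1' hv (fun _ _ => 1) 1 0 (fun r r' => by ring)
  simp only [mul_one, one_mul, zero_mul, sub_zero] at this
  rw [this]

theorem l3_IB_sub {f f' : ℝ → ℝ} (hf : Continuous f) (hf' : Continuous f') (h1 : ∀ x, 1 ≤ x → f x = 0)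
    (h1' : ∀ x, 1 ≤ x → f' x = 0) : IB f f' 4 - IB f f' 3 = IP f f' := by
  have hm : (-1 : ℝ) < -(1/2) := by norm_num
  have hp : (-1 : ℝ) < 1/2 := by norm_num
  have c0 := l3_cont hm hf h1
  have c0' := l3_cont hm hf' h1'
  have c1 := l3_cont hp hf h1
  have c1' := l3_cont hp hf' h1'
  rw [l3_IB hf hf' h1 h1', l3_IB hf hf' h1 h1', l3_IP hf hf' h1 h1', ← mul_sub, ← intervalIntegral.integral_sub]
  · congr 1
    refine intervalIntegral.integral_congr fun v _ => ?_
    try simp only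
    ring
  · exact l3_outer (((continuousOn_const.sub continuousOn_id).mul (c0.mul c0')).sub ((c1.mul c0').add (c0.mul c1')))
  · exact l3_outer (((continuousOn_const.sub continuousOn_id).mul (c0.mul c0')).sub ((c1.mul c0').add (c0.mul c1')))

theorem l3_A_mul {f : ℝ → ℝ} (hf : Continuous f) {v : ℝ} :
    l3_A (-(1/2)) (fun x => x * f x) v = v * l3_A (-(1/2)) f v + l3_A (1/2) f v := by
  have hm : (-1 : ℝ) < -(1/2) := by norm_num
  have hp : (-1 : ℝ) < 1/2 := by norm_num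
  unfold l3_A
  rw [← intervalIntegral.integral_const_mul, ← intervalIntegral.integral_add ((l3_int hm hf v 0 1).const_mul _) (l3_int hp hf v 0 1)]
  refine intervalIntegral.integral_congr fun r hr => ?_
  rw [uIcc_of_le zero_le_one] at hr
  simp only
  rcases hr.1.eq_or_lt with h | h
  · rw [← h, Real.zero_rpow (by norm_num), Real.zero_rpow (by norm_num)]; ring
  · have : r ^ (1/2 : ℝ) = r ^ (-(1/2) : ℝ) * r := by
      nth_rewrite 3 [← Real.rpow_one r]
      rw [← Real.rpow_add h]; norm_num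
    rw [this]; ring

theorem l3_IM_eq {f f' : ℝ → ℝ} (hf : Continuous f) (hf' : Continuous f') (h1 : ∀ x, 1 ≤ x → f x = 0)
    (h1' : ∀ x, 1 ≤ x → f' x = 0) :
    2 * IB f f' 3 - 4 * IP f f' + IP (fun x => x * f x) f' + IP f (fun x => x * f' x) = IM f f' := by
  have hm : (-1 : ℝ) < -(1/2) := by norm_num
  have hp : (-1 : ℝ) < 1/2 := by norm_num
  have c0 := l3_cont hm hf h1
  have c0' := l3_cont hm hf' h1'
  have c1 := l3_cont hp hf h1
  have c1' := l3_cont hp hf' h1'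
  have hx : Continuous (fun x => x * f x) := continuous_id.mul hf
  have hx' : Continuous (fun x => x * f' x) := continuous_id.mul hf'
  rw [l3_IB hf hf' h1 h1', l3_IP hf hf' h1 h1', l3_IM hf hf' h1 h1',
    l3_IP hx hf' (fun x hx => by rw [h1 x hx, mul_zero]) h1', l3_IP hf hx' h1 (fun x hx => by rw [h1' x hx, mul_zero])]
  have key : (∫ v in (0:ℝ)..1, v ^ (-(3/4) : ℝ) *
      ((l3_A (-(1/2)) f v * l3_A (-(1/2)) f' v) -
        (l3_A (1/2) f v * l3_A (-(1/2)) f' v + l3_A (-(1/2)) f v * l3_A (1/2) f' v))) =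
      2 * (∫ v in (0:ℝ)..1, v ^ (-(3/4) : ℝ) *
      ((3 - 1/2 - v) * (l3_A (-(1/2)) f v * l3_A (-(1/2)) f' v) -
        (l3_A (1/2) f v * l3_A (-(1/2)) f' v + l3_A (-(1/2)) f v * l3_A (1/2) f' v))) -
      4 * (∫ v in (0:ℝ)..1, v ^ (-(3/4) : ℝ) * (l3_A (-(1/2)) f v * l3_A (-(1/2)) f' v)) +
      (∫ v in (0:ℝ)..1, v ^ (-(3/4) : ℝ) * (l3_A (-(1/2)) (fun x => x * f x) v * l3_A (-(1/2)) f' v)) +
      (∫ v in (0:ℝ)..1, v ^ (-(3/4) : ℝ) * (l3_A (-(1/2)) f v * l3_A (-(1/2)) (fun x => x * f' x) v)) := by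
    rw [← intervalIntegral.integral_const_mul, ← intervalIntegral.integral_const_mul, ← intervalIntegral.integral_sub,
      ← intervalIntegral.integral_add, ← intervalIntegral.integral_add]
    · refine intervalIntegral.integral_congr fun v _ => ?_
      try simp only
      rw [l3_A_mul hf, l3_A_mul hf']
      ring
    · refine IntervalIntegrable.add (IntervalIntegrable.sub ?_ ?_) ?_
      · exact (l3_outer (((continuousOn_const.sub continuousOn_id).mul (c0.mul c0')).sub ((c1.mul c0').add (c0.mul c1')))).const_mul _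
      · exact (l3_outer (c0.mul c0')).const_mul _
      · exact l3_outer ((l3_cont hm hx (fun x hx => by rw [h1 x hx, mul_zero])).mul c0')
    · exact l3_outer (c0.mul (l3_cont hm hx' (fun x hx => by rw [h1' x hx, mul_zero])))
    · refine IntervalIntegrable.sub ?_ ?_
      · exact (l3_outer (((continuousOn_const.sub continuousOn_id).mul (c0.mul c0')).sub ((c1.mul c0').add (c0.mul c1')))).const_mul _
      · exact (l3_outer (c0.mul c0')).const_mul _
    · exact l3_outer ((l3_cont hm hx (fun x hx => by rw [h1 x hx, mul_zero])).mul c0')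
    · exact (l3_outer (((continuousOn_const.sub continuousOn_id).mul (c0.mul c0')).sub ((c1.mul c0').add (c0.mul c1')))).const_mul _
    · exact (l3_outer (c0.mul c0')).const_mul _
  rw [key]
  ring

theorem l3_key {f f' : ℝ → ℝ} (hf : Continuous f) (hf' : Continuous f') (h1 : ∀ x, 1 ≤ x → f x = 0)
    (h1' : ∀ x, 1 ≤ x → f' x = 0) {b : ℝ} (hb : 3 ≤ b) :
    Tendsto (fun δ : ℝ => δ ^ (5/4 : ℝ) * ∑ h ∈ Finset.Icc 1 (MN δ), ∑ k ∈ Finset.Icc 1 (MN δ),
      gk h k * (f (δ * Real.log h) * f' (δ * Real.log k)) *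
        (b - 1/2 - δ * (Real.log h + Real.log k - Real.log (Nat.gcd h k)))) (𝓝[>] 0) (𝓝 (Aconst (3/2) * IB f f' b)) := by
  obtain ⟨C, hC0, hC⟩ := SB_eq hb
  obtain ⟨B, hB0, hB⟩ := l3_bdd hf h1
  obtain ⟨B', hB0', hB'⟩ := l3_bdd hf' h1'
  have hlim := SB_limit hf hf' h1 h1' hb
  set X : ℝ → ℝ := fun δ => ∑ h ∈ Finset.Icc 1 (MN δ), ∑ k ∈ Finset.Icc 1 (MN δ),
      gk h k * (f (δ * Real.log h) * f' (δ * Real.log k)) *
        (b - 1/2 - δ * (Real.log h + Real.log k - Real.log (Nat.gcd h k))) with hX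
  have hdiff : Tendsto (fun δ : ℝ => δ ^ (9/4 : ℝ) * SB f f' b δ - δ ^ (5/4 : ℝ) * X δ) (𝓝[>] 0) (𝓝 0) := by
    have hbound : Tendsto (fun δ : ℝ => C * (max B B') ^ 2 * δ) (𝓝[>] 0) (𝓝 0) := by
      have : Tendsto (fun δ : ℝ => C * (max B B') ^ 2 * δ) (𝓝 0) (𝓝 (C * (max B B') ^ 2 * 0)) :=
        tendsto_const_nhds.mul tendsto_id
      rw [mul_zero] at this
      exact this.mono_left nhdsWithin_le_nhds
    refine squeeze_zero_norm' ?_ hbound
    have hev : ∀ᶠ δ : ℝ in 𝓝[>] 0, 0 < δ ∧ δ ≤ 1 := by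
      filter_upwards [Ioc_mem_nhdsGT (show (0:ℝ) < 1 by norm_num)] with δ hδ using hδ
    filter_upwards [hev] with δ ⟨hδ0, hδ1⟩
    have hh := hC δ hδ0 hδ1 f f' (max B B') (fun x hx => (hB x hx).trans (le_max_left _ _))
      (fun x hx => (hB' x hx).trans (le_max_right _ _)) h1 h1'
    have e : δ ^ (9/4 : ℝ) * SB f f' b δ - δ ^ (5/4 : ℝ) * X δ =
        δ ^ (9/4 : ℝ) * (SB f f' b δ - (1 / δ) * X δ) := by
      have : δ ^ (9/4 : ℝ) = δ ^ (5/4 : ℝ) * δ := by
        nth_rewrite 3 [← Real.rpow_one δ]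
        rw [← Real.rpow_add hδ0]; norm_num
      rw [mul_sub, ← mul_assoc, this]
      field_simp
    rw [e, Real.norm_eq_abs, abs_mul, abs_of_nonneg (Real.rpow_nonneg hδ0.le _)]
    have h94 : δ ^ (9/4 : ℝ) * δ ^ (-(5/4) : ℝ) = δ := by
      rw [← Real.rpow_add hδ0]; norm_num
    calc δ ^ (9/4 : ℝ) * |SB f f' b δ - (1 / δ) * X δ|
        ≤ δ ^ (9/4 : ℝ) * (C * (max B B') ^ 2 * δ ^ (-(5/4) : ℝ)) :=
          mul_le_mul_of_nonneg_left hh (Real.rpow_nonneg hδ0.le _)
      _ = C * (max B B') ^ 2 * (δ ^ (9/4 : ℝ) * δ ^ (-(5/4) : ℝ)) := by ring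
      _ = C * (max B B') ^ 2 * δ := by rw [h94]
  have := hlim.sub hdiff
  rw [sub_zero] at this
  refine this.congr fun δ => ?_
  ring

theorem IP_limit {f f' : ℝ → ℝ} (hf : Continuous f) (hf' : Continuous f') (h1 : ∀ x, 1 ≤ x → f x = 0) (h1' : ∀ x, 1 ≤ x → f' x = 0) :
    Tendsto (fun δ : ℝ => δ ^ (5/4 : ℝ) * ∑ h ∈ Finset.Icc 1 (MN δ), ∑ k ∈ Finset.Icc 1 (MN δ),
      gk h k * (f (δ * Real.log h) * f' (δ * Real.log k))) (𝓝[>] 0) (𝓝 (Aconst (3/2) * IP f f')) := by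
  have h4 := l3_key hf hf' h1 h1' (b := 4) (by norm_num)
  have h3 := l3_key hf hf' h1 h1' (b := 3) (by norm_num)
  have := h4.sub h3
  rw [← mul_sub, l3_IB_sub hf hf' h1 h1'] at this
  refine this.congr fun δ => ?_
  rw [← mul_sub, ← Finset.sum_sub_distrib]
  congr 1
  refine Finset.sum_congr rfl fun h _ => ?_
  rw [← Finset.sum_sub_distrib]
  refine Finset.sum_congr rfl fun k _ => ?_
  ring

theorem IM_limit {f f' : ℝ → ℝ} (hf : Continuous f) (hf' : Continuous f') (h1 : ∀ x, 1 ≤ x → f x = 0) (h1' : ∀ x, 1 ≤ x → f' x = 0) :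
    Tendsto (fun δ : ℝ => δ ^ (5/4 : ℝ) * ∑ h ∈ Finset.Icc 1 (MN δ), ∑ k ∈ Finset.Icc 1 (MN δ),
      gk h k * (f (δ * Real.log h) * f' (δ * Real.log k)) *
        (1 - δ * Real.log h - δ * Real.log k + 2 * δ * Real.log (Nat.gcd h k))) (𝓝[>] 0) (𝓝 (Aconst (3/2) * IM f f')) := by
  have hx : Continuous (fun x => x * f x) := continuous_id.mul hf
  have hx' : Continuous (fun x => x * f' x) := continuous_id.mul hf'
  have h3 := l3_key hf hf' h1 h1' (b := 3) (by norm_num)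
  have hP := IP_limit hf hf' h1 h1'
  have hP1 := IP_limit hx hf' (fun x hx => by rw [h1 x hx, mul_zero]) h1'
  have hP2 := IP_limit hf hx' h1 (fun x hx => by rw [h1' x hx, mul_zero])
  have := (((h3.const_mul 2).sub (hP.const_mul 4)).add hP1).add hP2
  rw [show 2 * (Aconst (3/2) * IB f f' 3) - 4 * (Aconst (3/2) * IP f f') + Aconst (3/2) * IP (fun x => x * f x) f' +
      Aconst (3/2) * IP f (fun x => x * f' x) = Aconst (3/2) * IM f f' by rw [← l3_IM_eq hf hf' h1 h1']; ring] at this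
  refine this.congr fun δ => ?_
  rw [mul_left_comm 2, mul_left_comm 4, ← mul_sub, ← mul_add, ← mul_add]
  congr 1
  rw [Finset.mul_sum, Finset.mul_sum, ← Finset.sum_sub_distrib, ← Finset.sum_add_distrib, ← Finset.sum_add_distrib]
  refine Finset.sum_congr rfl fun h _ => ?_
  rw [Finset.mul_sum, Finset.mul_sum, ← Finset.sum_sub_distrib, ← Finset.sum_add_distrib, ← Finset.sum_add_distrib]
  refine Finset.sum_congr rfl fun k _ => ?_
  ring

end Pool.Agent.LibM3
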