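import Pool.Agent.LibM3.N1

/-! Third moment, block Q2a: a lattice sum off the diagonal. -/

set_option autoImplicit false

namespace Pool.Agent.LibM3

open MeasureTheory Set Filter Topology Complex ProbabilityTheory
open scoped NNReal ComplexConjugate
open Pool.Agent.LibZM

lemma q2a_tel {A : ℝ} (hA : 0 < A) (R : ℕ) :
    ∑ r ∈ Finset.Icc 1 R, min 1 (A ^ 2 / (r:ℝ) ^ 2) ≤ 4 * A := by
  have h1 : ∀ R : ℕ, ∑ r ∈ Finset.Icc 1 R, min 1 (A ^ 2 / (r:ℝ) ^ 2) ≤ 4 * A ^ 2 * (1 / A - 1 / (A + R)) := by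
    intro R
    induction R with
    | zero => simp
    | succ R ih =>
      rw [Finset.sum_Icc_succ_top (by omega)]
      have hR : (0:ℝ) ≤ R := Nat.cast_nonneg R
      have h2 : min 1 (A ^ 2 / ((R + 1 : ℕ) : ℝ) ^ 2) ≤ 4 * A ^ 2 * (1 / (A + R) - 1 / (A + (R + 1 : ℕ))) := by
        push_cast
        have e : 1 / (A + R) - 1 / (A + ((R:ℝ) + 1)) = 1 / ((A + R) * (A + (R + 1))) := by
          field_simp; ring
        rw [e]
        rcases le_total A ((R:ℝ) + 1) with h | h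
        · refine (min_le_right _ _).trans ?_
          rw [mul_one_div, div_le_div_iff₀ (by positivity) (by positivity)]
          have : (A + R) * (A + (R + 1)) ≤ 4 * ((R:ℝ) + 1) ^ 2 := by nlinarith
          nlinarith [sq_nonneg A]
        · refine (min_le_left _ _).trans ?_
          rw [mul_one_div, le_div_iff₀ (by positivity)]
          nlinarith
      have := add_le_add ih h2
      refine this.trans (le_of_eq ?_)
      ring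
  refine (h1 R).trans ?_
  have h3 : 0 ≤ 1 / (A + (R:ℝ)) := by positivity
  have h4 : 4 * A ^ 2 * (1 / A) = 4 * A := by field_simp
  nlinarith [sq_nonneg A]

lemma q2a_tel2 {A : ℝ} (hA : 0 < A) (R m : ℕ) :
    ∑ n ∈ Finset.Icc 1 R, (if n = m then 0 else min 1 (A ^ 2 / ((m:ℝ) - n) ^ 2)) ≤ 8 * A := by
  have hg : ∀ r : ℕ, 0 ≤ min 1 (A ^ 2 / (r:ℝ) ^ 2) := fun r => le_min zero_le_one (by positivity)
  have h1 : ∑ n ∈ Finset.Icc 1 R, (if n = m then 0 else min 1 (A ^ 2 / ((m:ℝ) - n) ^ 2)) =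
      ∑ n ∈ (Finset.Icc 1 R).filter (fun n => n < m), min 1 (A ^ 2 / ((m - n : ℕ) : ℝ) ^ 2) +
      ∑ n ∈ (Finset.Icc 1 R).filter (fun n => m < n), min 1 (A ^ 2 / ((n - m : ℕ) : ℝ) ^ 2) := by
    rw [Finset.sum_filter, Finset.sum_filter, ← Finset.sum_add_distrib]
    refine Finset.sum_congr rfl fun n _ => ?_
    rcases lt_trichotomy n m with h | h | h
    · rw [if_neg (by omega), if_pos h, if_neg (by omega), Nat.cast_sub h.le, add_zero]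
    · subst h; simp
    · rw [if_neg (by omega), if_neg (by omega), if_pos h, Nat.cast_sub h.le, zero_add]
      congr 2
      ring
  have h2 : ∑ n ∈ (Finset.Icc 1 R).filter (fun n => n < m), min 1 (A ^ 2 / ((m - n : ℕ) : ℝ) ^ 2) ≤ 4 * A := by
    have hinj : Set.InjOn (fun n => m - n) ((Finset.Icc 1 R).filter (fun n => n < m) : Finset ℕ) := by
      intro a ha b hb hab
      simp only [Finset.coe_filter, Finset.mem_Icc, Set.mem_ofPred_eq] at ha hb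
      have : m - a = m - b := hab
      omega
    have : ∑ n ∈ (Finset.Icc 1 R).filter (fun n => n < m), min 1 (A ^ 2 / ((m - n : ℕ) : ℝ) ^ 2) =
        ∑ r ∈ ((Finset.Icc 1 R).filter (fun n => n < m)).image (fun n => m - n), min 1 (A ^ 2 / (r:ℝ) ^ 2) := by
      rw [Finset.sum_image hinj]
    rw [this]
    refine (Finset.sum_le_sum_of_subset_of_nonneg ?_ fun r _ _ => hg r).trans (q2a_tel hA m)
    intro r hr
    simp only [Finset.mem_image, Finset.mem_filter, Finset.mem_Icc] at hr ⊢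
    obtain ⟨n, hn, rfl⟩ := hr
    omega
  have h3 : ∑ n ∈ (Finset.Icc 1 R).filter (fun n => m < n), min 1 (A ^ 2 / ((n - m : ℕ) : ℝ) ^ 2) ≤ 4 * A := by
    have hinj : Set.InjOn (fun n => n - m) ((Finset.Icc 1 R).filter (fun n => m < n) : Finset ℕ) := by
      intro a ha b hb hab
      simp only [Finset.coe_filter, Finset.mem_Icc, Set.mem_ofPred_eq] at ha hb
      have : a - m = b - m := hab
      omega
    have : ∑ n ∈ (Finset.Icc 1 R).filter (fun n => m < n), min 1 (A ^ 2 / ((n - m : ℕ) : ℝ) ^ 2) =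
        ∑ r ∈ ((Finset.Icc 1 R).filter (fun n => m < n)).image (fun n => n - m), min 1 (A ^ 2 / (r:ℝ) ^ 2) := by
      rw [Finset.sum_image hinj]
    rw [this]
    refine (Finset.sum_le_sum_of_subset_of_nonneg ?_ fun r _ _ => hg r).trans (q2a_tel hA R)
    intro r hr
    simp only [Finset.mem_image, Finset.mem_filter, Finset.mem_Icc] at hr ⊢
    obtain ⟨n, hn, rfl⟩ := hr
    omega
  rw [h1]
  linarith

lemma q2a_weight {Z : ℝ} (hZ : 1 ≤ Z) (p R n : ℕ) (hn : 1 ≤ n) (hnR : n ≤ R) :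
    min 1 ((Z / n) ^ p) ≤ ∑ k ∈ Finset.range (R + 1), ((2:ℝ)⁻¹ ^ k) ^ p * (if (n:ℝ) ≤ 2 ^ (k + 1) * Z then 1 else 0) := by
  classical
  have hex : ∃ k : ℕ, (n:ℝ) ≤ 2 ^ (k + 1) * Z := by
    refine ⟨n, ?_⟩
    have h1 : (n:ℝ) ≤ 2 ^ (n + 1) := by
      have : n < 2 ^ n := Nat.lt_two_pow_self
      have h2 : (n:ℝ) < 2 ^ n := by exact_mod_cast this
      have h3 : (2:ℝ) ^ n ≤ 2 ^ (n + 1) := pow_le_pow_right₀ (by norm_num) (by omega)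
      linarith
    nlinarith [pow_pos (two_pos : (0:ℝ) < 2) (n+1)]
  set k := Nat.find hex with hk
  have hk1 : (n:ℝ) ≤ 2 ^ (k + 1) * Z := Nat.find_spec hex
  have hkn : k ≤ n := Nat.find_min' hex (by
    have h1 : (n:ℝ) ≤ 2 ^ (n + 1) := by
      have : n < 2 ^ n := Nat.lt_two_pow_self
      have h2 : (n:ℝ) < 2 ^ n := by exact_mod_cast this
      have h3 : (2:ℝ) ^ n ≤ 2 ^ (n + 1) := pow_le_pow_right₀ (by norm_num) (by omega)
      linarith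
    nlinarith [pow_pos (two_pos : (0:ℝ) < 2) (n+1)])
  have hterm : min 1 ((Z / n) ^ p) ≤ ((2:ℝ)⁻¹ ^ k) ^ p * (if (n:ℝ) ≤ 2 ^ (k + 1) * Z then 1 else 0) := by
    rw [if_pos hk1, mul_one]
    rcases Nat.eq_zero_or_pos k with h0 | hpos
    · rw [h0]; simp
    · refine (min_le_right _ _).trans ?_
      have hlt : ¬ ((n:ℝ) ≤ 2 ^ ((k - 1) + 1) * Z) := Nat.find_min hex (by omega)
      rw [Nat.sub_add_cancel hpos, not_le] at hlt
      have hn0 : (0:ℝ) < n := by exact_mod_cast hn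
      refine pow_le_pow_left₀ (by positivity) ?_ p
      rw [div_le_iff₀ hn0, inv_pow]
      rw [inv_mul_eq_div, le_div_iff₀ (by positivity)]
      linarith
  refine hterm.trans ?_
  refine Finset.single_le_sum (f := fun k => ((2:ℝ)⁻¹ ^ k) ^ p * (if (n:ℝ) ≤ 2 ^ (k + 1) * Z then 1 else 0)) (fun i _ => ?_) (Finset.mem_range.2 (by omega))
  positivity

lemma q2a_dyadic {f : ℕ → ℝ} (hf : ∀ n, 0 ≤ f n) {C β a : ℝ} (hC : 0 ≤ C) (hβ : 0 ≤ β) (ha : 0 ≤ a)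
    (hF : ∀ x : ℕ, 1 ≤ x → ∑ n ∈ Finset.Icc 1 x, f n ≤ C * (x:ℝ) ^ β * (1 + Real.log x) ^ a) (p : ℕ) (hp : β + a + 1 ≤ p)
    {Z : ℝ} (hZ : 1 ≤ Z) (R : ℕ) :
    ∑ n ∈ Finset.Icc 1 R, f n * min 1 ((Z / n) ^ p) ≤ C * ((2:ℝ) ^ (β + a) * 2) * Z ^ β * (1 + Real.log Z) ^ a := by
  have hZ0 : 0 < Z := by linarith
  have hlZ : 0 ≤ Real.log Z := Real.log_nonneg hZ
  have h1 : ∑ n ∈ Finset.Icc 1 R, f n * min 1 ((Z / n) ^ p) ≤
      ∑ n ∈ Finset.Icc 1 R, f n * ∑ k ∈ Finset.range (R + 1), ((2:ℝ)⁻¹ ^ k) ^ p * (if (n:ℝ) ≤ 2 ^ (k + 1) * Z then 1 else 0) := by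
    refine Finset.sum_le_sum fun n hn => ?_
    rw [Finset.mem_Icc] at hn
    exact mul_le_mul_of_nonneg_left (q2a_weight hZ p R n hn.1 hn.2) (hf n)
  have h2 : ∑ n ∈ Finset.Icc 1 R, f n * ∑ k ∈ Finset.range (R + 1), ((2:ℝ)⁻¹ ^ k) ^ p * (if (n:ℝ) ≤ 2 ^ (k + 1) * Z then 1 else 0) =
      ∑ k ∈ Finset.range (R + 1), ((2:ℝ)⁻¹ ^ k) ^ p * ∑ n ∈ Finset.Icc 1 R, (if (n:ℝ) ≤ 2 ^ (k + 1) * Z then f n else 0) := by
    simp_rw [Finset.mul_sum]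
    rw [Finset.sum_comm]
    refine Finset.sum_congr rfl fun k _ => Finset.sum_congr rfl fun n _ => ?_
    split_ifs <;> ring
  have h3 : ∀ k ∈ Finset.range (R + 1), ((2:ℝ)⁻¹ ^ k) ^ p * ∑ n ∈ Finset.Icc 1 R, (if (n:ℝ) ≤ 2 ^ (k + 1) * Z then f n else 0) ≤
      (C * (2:ℝ) ^ (β + a) * Z ^ β * (1 + Real.log Z) ^ a) * (2:ℝ)⁻¹ ^ k := by
    intro k _
    set x := ⌊(2:ℝ) ^ (k + 1) * Z⌋₊ with hx
    have hp2 : (1:ℝ) ≤ 2 ^ (k+1) := one_le_pow₀ (by norm_num)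
    have hx1 : 1 ≤ x := by
      rw [hx, Nat.one_le_floor_iff]
      nlinarith
    have hxle : (x:ℝ) ≤ 2 ^ (k + 1) * Z := Nat.floor_le (by positivity)
    have hx0 : (0:ℝ) < x := by exact_mod_cast hx1
    have h4 : ∑ n ∈ Finset.Icc 1 R, (if (n:ℝ) ≤ 2 ^ (k + 1) * Z then f n else 0) ≤ ∑ n ∈ Finset.Icc 1 x, f n := by
      rw [← Finset.sum_filter]
      refine Finset.sum_le_sum_of_subset_of_nonneg ?_ fun n _ _ => hf n
      intro n hn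
      rw [Finset.mem_filter, Finset.mem_Icc] at hn
      rw [Finset.mem_Icc]
      exact ⟨hn.1.1, Nat.le_floor hn.2⟩
    have h5 : C * (x:ℝ) ^ β * (1 + Real.log x) ^ a ≤ C * ((2:ℝ) ^ (k + 1) * Z) ^ β * ((1 + Real.log Z) * 2 ^ (k + 1)) ^ a := by
      have e1 : (x:ℝ) ^ β ≤ ((2:ℝ) ^ (k + 1) * Z) ^ β := Real.rpow_le_rpow hx0.le hxle hβ
      have hlx : 0 ≤ Real.log x := Real.log_nonneg (by exact_mod_cast hx1)
      have e2 : 1 + Real.log x ≤ (1 + Real.log Z) * 2 ^ (k + 1) := by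
        have h6 : Real.log x ≤ (k + 1) + Real.log Z := by
          have h7 : Real.log x ≤ Real.log ((2:ℝ) ^ (k + 1) * Z) := Real.log_le_log hx0 hxle
          rw [Real.log_mul (by positivity) hZ0.ne', Real.log_pow] at h7
          have h8 : Real.log 2 ≤ 1 := by
            have := Real.log_two_lt_d9; linarith
          push_cast at h7
          nlinarith
        have h9 : ((k:ℝ) + 1) + 1 ≤ 2 ^ (k + 1) := by
          have : k + 1 < 2 ^ (k + 1) := Nat.lt_two_pow_self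
          have : k + 1 + 1 ≤ 2 ^ (k + 1) := this
          exact_mod_cast this
        nlinarith
      have e3 : (1 + Real.log x) ^ a ≤ ((1 + Real.log Z) * 2 ^ (k + 1)) ^ a := Real.rpow_le_rpow (by linarith) e2 ha
      have : 0 ≤ (x:ℝ) ^ β := by positivity
      have : 0 ≤ (1 + Real.log x) ^ a := Real.rpow_nonneg (by linarith) _
      gcongr
    have h6 : ((2:ℝ)⁻¹ ^ k) ^ p * ∑ n ∈ Finset.Icc 1 R, (if (n:ℝ) ≤ 2 ^ (k + 1) * Z then f n else 0) ≤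
        ((2:ℝ)⁻¹ ^ k) ^ p * (C * ((2:ℝ) ^ (k + 1) * Z) ^ β * ((1 + Real.log Z) * 2 ^ (k + 1)) ^ a) :=
      mul_le_mul_of_nonneg_left ((h4.trans (hF x hx1)).trans h5) (by positivity)
    refine h6.trans ?_
    have r1 : ((2:ℝ) ^ (k + 1) * Z) ^ β = (2:ℝ) ^ ((k + 1) * β) * Z ^ β := by
      rw [Real.mul_rpow (by positivity) hZ0.le, ← Real.rpow_natCast 2 (k+1), ← Real.rpow_mul (by norm_num)]
      push_cast; rfl
    have r2 : ((1 + Real.log Z) * (2:ℝ) ^ (k + 1)) ^ a = (1 + Real.log Z) ^ a * (2:ℝ) ^ ((k + 1) * a) := by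
      rw [Real.mul_rpow (by linarith) (by positivity), ← Real.rpow_natCast 2 (k+1), ← Real.rpow_mul (by norm_num)]
      push_cast; rfl
    have r3 : ((2:ℝ)⁻¹ ^ k) ^ p = (2:ℝ) ^ (-(k * (p:ℝ))) := by
      rw [← pow_mul, inv_pow, ← Real.rpow_natCast 2 (k*p), ← Real.rpow_neg (by norm_num)]
      push_cast; rfl
    have r4 : (2:ℝ)⁻¹ ^ k = (2:ℝ) ^ (-(k:ℝ)) := by
      rw [inv_pow, ← Real.rpow_natCast 2 k, ← Real.rpow_neg (by norm_num)]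
    rw [r1, r2, r3, r4]
    have r5 : (2:ℝ) ^ (-(k * (p:ℝ))) * (C * ((2:ℝ) ^ ((k + 1) * β) * Z ^ β) * ((1 + Real.log Z) ^ a * (2:ℝ) ^ ((k + 1) * a))) =
        (C * Z ^ β * (1 + Real.log Z) ^ a) * (2:ℝ) ^ (-(k * (p:ℝ)) + (k + 1) * β + (k + 1) * a) := by
      rw [Real.rpow_add (by norm_num), Real.rpow_add (by norm_num)]; ring
    have r6 : C * (2:ℝ) ^ (β + a) * Z ^ β * (1 + Real.log Z) ^ a * (2:ℝ) ^ (-(k:ℝ)) =
        (C * Z ^ β * (1 + Real.log Z) ^ a) * (2:ℝ) ^ ((β + a) + -(k:ℝ)) := by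
      rw [Real.rpow_add (by norm_num) (β + a)]; ring
    rw [r5, r6]
    have : 0 ≤ (1 + Real.log Z) ^ a := Real.rpow_nonneg (by linarith) _
    refine mul_le_mul_of_nonneg_left (Real.rpow_le_rpow_of_exponent_le (by norm_num) ?_) (by positivity)
    have hk0 : (0:ℝ) ≤ k := Nat.cast_nonneg k
    nlinarith
  have h7 : ∑ k ∈ Finset.range (R + 1), (2:ℝ)⁻¹ ^ k ≤ 2 := by
    have := geom_sum_eq (x := (2:ℝ)⁻¹) (by norm_num) (R + 1)
    rw [this]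
    have h8 : (0:ℝ) ≤ (2:ℝ)⁻¹ ^ (R + 1) := by positivity
    rw [div_le_iff_of_neg (by norm_num)]
    norm_num
  have : 0 ≤ (1 + Real.log Z) ^ a := Real.rpow_nonneg (by linarith) _
  calc _ ≤ _ := h1
    _ = _ := h2
    _ ≤ ∑ k ∈ Finset.range (R + 1), (C * (2:ℝ) ^ (β + a) * Z ^ β * (1 + Real.log Z) ^ a) * (2:ℝ)⁻¹ ^ k := Finset.sum_le_sum h3
    _ = (C * (2:ℝ) ^ (β + a) * Z ^ β * (1 + Real.log Z) ^ a) * ∑ k ∈ Finset.range (R + 1), (2:ℝ)⁻¹ ^ k := by rw [Finset.mul_sum]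
    _ ≤ (C * (2:ℝ) ^ (β + a) * Z ^ β * (1 + Real.log Z) ^ a) * 2 := mul_le_mul_of_nonneg_left h7 (by positivity)
    _ = _ := by ring

/-- `τ_a(n) n^{-1/2}` as an arithmetic function. -/
noncomputable def q2aF (a : ℝ) : ArithmeticFunction ℝ := ⟨fun n => tau a n * (n:ℝ) ^ (-(1/2) : ℝ), by simp⟩

lemma q2aF_apply (a : ℝ) (n : ℕ) : q2aF a n = tau a n * (n:ℝ) ^ (-(1/2) : ℝ) := rfl

lemma q2aF_nonneg {a : ℝ} (ha : 0 ≤ a) (n : ℕ) : 0 ≤ q2aF a n := by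
  rw [q2aF_apply]
  have := tau_nonneg ha n
  positivity

lemma q2aF_mul (a b : ℝ) : q2aF a * q2aF b = q2aF (a + b) := by
  ext n
  rw [ArithmeticFunction.mul_apply, q2aF_apply, ← tau_mul, ArithmeticFunction.mul_apply, Finset.sum_mul]
  refine Finset.sum_congr rfl fun q hq => ?_
  rw [Nat.mem_divisorsAntidiagonal] at hq
  rw [q2aF_apply, q2aF_apply, ← hq.1]
  push_cast
  rw [Real.mul_rpow (Nat.cast_nonneg _) (Nat.cast_nonneg _)]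
  ring

lemma q2a_sum_rpow (x : ℕ) : ∑ n ∈ Finset.Ioc 0 x, (n:ℝ) ^ (-(1/2) : ℝ) ≤ 2 * (x:ℝ) ^ (1/2 : ℝ) := by
  induction x with
  | zero => simp
  | succ x ih =>
    rw [show Finset.Ioc 0 (x + 1) = insert (x + 1) (Finset.Ioc 0 x) by ext i; simp only [Finset.mem_Ioc, Finset.mem_insert]; omega, 
      Finset.sum_insert (by simp)] 
    have hx : (0:ℝ) ≤ x := Nat.cast_nonneg x
    have h1 : (((x + 1 : ℕ)) : ℝ) ^ (-(1/2) : ℝ) = (√((x:ℝ) + 1))⁻¹ := by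
      push_cast
      rw [Real.rpow_neg (by positivity), ← Real.sqrt_eq_rpow]
    have h2 : (((x + 1 : ℕ)) : ℝ) ^ (1/2 : ℝ) = √((x:ℝ) + 1) := by
      push_cast
      rw [← Real.sqrt_eq_rpow]
    rw [h1, h2]
    rw [← Real.sqrt_eq_rpow] at ih
    have h3 : √(x:ℝ) ≤ √((x:ℝ) + 1) := Real.sqrt_le_sqrt (by linarith)
    have h4 : 0 < √((x:ℝ) + 1) := Real.sqrt_pos.2 (by linarith)
    have h5 : (√((x:ℝ) + 1))⁻¹ ≤ 2 * (√((x:ℝ) + 1) - √(x:ℝ)) := by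
      rw [inv_le_iff_one_le_mul₀ h4]
      have e1 : √((x:ℝ) + 1) ^ 2 = x + 1 := Real.sq_sqrt (by linarith)
      have e2 : √(x:ℝ) ^ 2 = x := Real.sq_sqrt hx
      nlinarith [Real.sqrt_nonneg (x:ℝ)]
    linarith

lemma q2a_sum_tau3 (x : ℕ) (hx : 1 ≤ x) :
    ∑ n ∈ Finset.Icc 1 x, q2aF 3 n ≤ 2 * (x:ℝ) ^ (1/2 : ℝ) * (1 + Real.log x) ^ (2:ℝ) := by
  have e0 : Finset.Icc 1 x = Finset.Ioc 0 x := rfl
  have e1 : q2aF 3 = q2aF 2 * q2aF 1 := by rw [q2aF_mul]; norm_num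
  rw [e0, e1, ArithmeticFunction.sum_Ioc_mul_eq_sum_sum]
  have hx0 : (0:ℝ) < x := by exact_mod_cast hx
  have h1 : ∀ n ∈ Finset.Ioc 0 x, q2aF 2 n * ∑ m ∈ Finset.Ioc 0 (x / n), q2aF 1 m ≤ 
      2 * (x:ℝ) ^ (1/2 : ℝ) * (tau 2 n * (n:ℝ) ^ (-(1:ℝ))) := by
    intro n hn
    rw [Finset.mem_Ioc] at hn
    have hn0 : (0:ℝ) < n := by exact_mod_cast hn.1
    have h2 : ∑ m ∈ Finset.Ioc 0 (x / n), q2aF 1 m ≤ 2 * ((x:ℝ) / n) ^ (1/2 : ℝ) := by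
      have h3 : ∑ m ∈ Finset.Ioc 0 (x / n), q2aF 1 m = ∑ m ∈ Finset.Ioc 0 (x / n), (m:ℝ) ^ (-(1/2) : ℝ) := by
        refine Finset.sum_congr rfl fun m hm => ?_
        rw [Finset.mem_Ioc] at hm
        rw [q2aF_apply, tau_one_apply (by omega), one_mul]
      rw [h3]
      refine (q2a_sum_rpow _).trans ?_
      have h4 : ((x / n : ℕ) : ℝ) ≤ (x:ℝ) / n := Nat.cast_div_le
      have := Real.rpow_le_rpow (Nat.cast_nonneg _) h4 (by norm_num : (0:ℝ) ≤ 1/2)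
      linarith
    have h5 := q2aF_nonneg (by norm_num : (0:ℝ) ≤ 2) n
    refine (mul_le_mul_of_nonneg_left h2 h5).trans (le_of_eq ?_)
    rw [q2aF_apply, Real.div_rpow hx0.le hn0.le]
    have e2 : (n:ℝ) ^ (-(1:ℝ)) = (n:ℝ) ^ (-(1/2) : ℝ) * ((n:ℝ) ^ (1/2 : ℝ))⁻¹ := by
      rw [← Real.rpow_neg hn0.le, ← Real.rpow_add hn0]; norm_num
    rw [e2]
    field_simp
  refine (Finset.sum_le_sum h1).trans ?_
  rw [← Finset.mul_sum]
  have h6 : ∑ n ∈ Finset.Ioc 0 x, tau 2 n * (n:ℝ) ^ (-(1:ℝ)) ≤ (1 + Real.log x) ^ (2:ℝ) := by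
    have h7 := sum_tau_nat_le 2 x 1
    rw [← e0]
    have h8 : ∑ n ∈ Finset.Icc 1 x, (n:ℝ) ^ (-(1:ℝ)) ≤ 1 + Real.log x := by
      have h9 := harmonic_le_one_add_log x
      rw [harmonic_eq_sum_Icc] at h9
      push_cast at h9
      simpa [Real.rpow_neg_one] using h9
    have h10 : 0 ≤ ∑ n ∈ Finset.Icc 1 x, (n:ℝ) ^ (-(1:ℝ)) := Finset.sum_nonneg fun n _ => by positivity
    have h11 : (∑ n ∈ Finset.Icc 1 x, (n:ℝ) ^ (-(1:ℝ))) ^ 2 ≤ (1 + Real.log x) ^ 2 := pow_le_pow_left₀ h10 h8 2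
    rw [Real.rpow_two]
    refine le_trans ?_ h11
    simpa using h7
  exact mul_le_mul_of_nonneg_left h6 (by positivity)

lemma q2a_far {Y : ℝ} (hY : 1 ≤ Y) (R : ℕ) :
    ∑ q ∈ Finset.Icc 1 R ×ˢ Finset.Icc 1 R, q2aF (3/2) q.1 * q2aF (3/2) q.2 * min 1 ((Y ^ 2 / ((q.1:ℝ) * q.2)) ^ 4) ≤ 
      96 * Y * (1 + Real.log Y) ^ 2 := by
  have hmaps : ∀ q ∈ Finset.Icc 1 R ×ˢ Finset.Icc 1 R, q.1 * q.2 ∈ Finset.Icc 1 (R * R) := by
    intro q hq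
    rw [Finset.mem_product, Finset.mem_Icc, Finset.mem_Icc] at hq
    rw [Finset.mem_Icc]
    exact ⟨Nat.mul_pos (by omega) (by omega), Nat.mul_le_mul hq.1.2 hq.2.2⟩
  rw [← Finset.sum_fiberwise_of_maps_to hmaps]
  have h1 : ∀ r ∈ Finset.Icc 1 (R * R), 
      ∑ q ∈ (Finset.Icc 1 R ×ˢ Finset.Icc 1 R).filter (fun q => q.1 * q.2 = r), q2aF (3/2) q.1 * q2aF (3/2) q.2 * min 1 ((Y ^ 2 / ((q.1:ℝ) * q.2)) ^ 4) ≤
      q2aF 3 r * min 1 ((Y ^ 2 / (r:ℝ)) ^ 4) := by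
    intro r hr
    rw [Finset.mem_Icc] at hr
    have e1 : q2aF 3 = q2aF (3/2) * q2aF (3/2) := by rw [q2aF_mul]; norm_num
    rw [e1, ArithmeticFunction.mul_apply, Finset.sum_mul]
    have h2 : ∑ q ∈ (Finset.Icc 1 R ×ˢ Finset.Icc 1 R).filter (fun q => q.1 * q.2 = r), q2aF (3/2) q.1 * q2aF (3/2) q.2 * min 1 ((Y ^ 2 / ((q.1:ℝ) * q.2)) ^ 4) =
        ∑ q ∈ (Finset.Icc 1 R ×ˢ Finset.Icc 1 R).filter (fun q => q.1 * q.2 = r), q2aF (3/2) q.1 * q2aF (3/2) q.2 * min 1 ((Y ^ 2 / (r:ℝ)) ^ 4) := by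
      refine Finset.sum_congr rfl fun q hq => ?_
      rw [Finset.mem_filter] at hq
      rw [← hq.2]; push_cast; rfl
    rw [h2]
    refine Finset.sum_le_sum_of_subset_of_nonneg ?_ fun q _ _ => ?_
    · intro q hq
      rw [Finset.mem_filter] at hq
      rw [Nat.mem_divisorsAntidiagonal]
      exact ⟨hq.2, by omega⟩
    · have := q2aF_nonneg (by norm_num : (0:ℝ) ≤ 3/2) q.1
      have := q2aF_nonneg (by norm_num : (0:ℝ) ≤ 3/2) q.2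
      positivity
  refine (Finset.sum_le_sum h1).trans ?_
  have hY2 : 1 ≤ Y ^ 2 := one_le_pow₀ hY
  have h3 := q2a_dyadic (f := fun n => q2aF 3 n) (q2aF_nonneg (by norm_num)) (C := 2) (β := 1/2) (a := 2) (by norm_num) (by norm_num) (by norm_num)
    (fun x hx => q2a_sum_tau3 x hx) 4 (by norm_num) hY2 (R * R)
  refine h3.trans ?_
  have hlY : 0 ≤ Real.log Y := Real.log_nonneg hY
  have e2 : (Y ^ 2) ^ (1/2 : ℝ) = Y := by
    rw [← Real.sqrt_eq_rpow, Real.sqrt_sq (by linarith)]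
  have e3 : (2:ℝ) ^ ((1/2 : ℝ) + 2) ≤ 6 := by
    rw [Real.rpow_add (by norm_num)]
    have : (2:ℝ) ^ (1/2 : ℝ) ≤ 3/2 := by
      rw [← Real.sqrt_eq_rpow, Real.sqrt_le_left (by norm_num)]
      norm_num
    norm_num
    norm_num at this
    linarith
  rw [e2, Real.log_pow]
  have e4 : (1 + ((2:ℕ):ℝ) * Real.log Y) ^ (2:ℝ) ≤ 4 * (1 + Real.log Y) ^ 2 := by
    rw [Real.rpow_two]
    push_cast
    nlinarith
  have h5 : 0 ≤ (1 + ((2:ℕ):ℝ) * Real.log Y) ^ (2:ℝ) := by positivity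
  calc 2 * (2 ^ ((1/2 : ℝ) + 2) * 2) * Y * (1 + ((2:ℕ):ℝ) * Real.log Y) ^ (2:ℝ) 
      ≤ 2 * (6 * 2) * Y * (4 * (1 + Real.log Y) ^ 2) := by gcongr
    _ = _ := by ring

lemma q2a_near_term {Y H : ℝ} (_hY : 0 ≤ Y) (hH : 1 ≤ H) {m n : ℕ} (hm : 1 ≤ m) (hn : 1 ≤ n) (hmn : m ≠ n) (h1 : m < 2 * n) (h2 : n < 2 * m) :
    ((m:ℝ) * n) ^ (-(1/2) : ℝ) * min 1 ((Y ^ 2 / ((m:ℝ) * n)) ^ 4) * min 1 (H⁻¹ ^ 2 * (1 + ((Real.log ((m:ℝ) / n)) ^ 2)⁻¹)) ≤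
      (2 / m) * (16 * min 1 ((Y / m) ^ 8)) * min 1 ((3 * m / H) ^ 2 / ((m:ℝ) - n) ^ 2) := by
  have hm0 : (0:ℝ) < m := by exact_mod_cast hm
  have hn0 : (0:ℝ) < n := by exact_mod_cast hn
  have h1' : (m:ℝ) < 2 * n := by exact_mod_cast h1
  have h2' : (n:ℝ) < 2 * m := by exact_mod_cast h2
  have hne : (m:ℝ) - n ≠ 0 := sub_ne_zero.2 (by exact_mod_cast hmn)
  have hH0 : 0 < H := by linarith
  have hprod : (m:ℝ) ^ 2 / 2 ≤ m * n := by nlinarith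
  have a1 : ((m:ℝ) * n) ^ (-(1/2) : ℝ) ≤ 2 / m := by
    have : ((m:ℝ) ^ 2 / 4) ^ (-(1/2) : ℝ) = 2 / m := by
      rw [Real.rpow_neg (by positivity), ← Real.sqrt_eq_rpow, Real.sqrt_div (by positivity), Real.sqrt_sq hm0.le]
      have : √(4:ℝ) = 2 := by rw [show (4:ℝ) = 2 ^ 2 by norm_num, Real.sqrt_sq (by norm_num)]
      rw [this, inv_div]
    rw [← this]
    refine Real.rpow_le_rpow_of_nonpos (by positivity) (by nlinarith) (by norm_num)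
  have a2 : min 1 ((Y ^ 2 / ((m:ℝ) * n)) ^ 4) ≤ 16 * min 1 ((Y / m) ^ 8) := by
    have h3 : (Y ^ 2 / ((m:ℝ) * n)) ^ 4 ≤ 16 * (Y / m) ^ 8 := by
      have h4 : Y ^ 2 / ((m:ℝ) * n) ≤ 2 * (Y / m) ^ 2 := by
        rw [div_pow, mul_div_assoc', div_le_div_iff₀ (by positivity) (by positivity)]
        nlinarith [sq_nonneg Y]
      have h5 : 0 ≤ Y ^ 2 / ((m:ℝ) * n) := by positivity
      calc (Y ^ 2 / ((m:ℝ) * n)) ^ 4 ≤ (2 * (Y / m) ^ 2) ^ 4 := pow_le_pow_left₀ h5 h4 4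
        _ = 16 * (Y / m) ^ 8 := by ring
    rcases le_total 1 ((Y / m) ^ 8) with h | h
    · rw [min_eq_left h]
      exact (min_le_left _ _).trans (by norm_num)
    · rw [min_eq_right h]
      exact (min_le_right _ _).trans h3
  have a3 : min 1 (H⁻¹ ^ 2 * (1 + ((Real.log ((m:ℝ) / n)) ^ 2)⁻¹)) ≤ min 1 ((3 * m / H) ^ 2 / ((m:ℝ) - n) ^ 2) := by
    refine min_le_min_left _ ?_
    have h3 : ((m:ℝ) - n) ^ 2 ≤ 4 * m ^ 2 * (Real.log ((m:ℝ) / n)) ^ 2 := by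
      have hl : |(m:ℝ) - n| ≤ 2 * m * |Real.log ((m:ℝ) / n)| := by
        rcases le_total (n:ℝ) m with h | h
        · rw [abs_of_nonneg (by linarith)]
          have h4 : 1 - ((m:ℝ) / n)⁻¹ ≤ Real.log ((m:ℝ) / n) := Real.one_sub_inv_le_log_of_pos (by positivity)
          rw [inv_div] at h4
          have h5 : ((m:ℝ) - n) = m * (1 - n / m) := by field_simp
          have h6 := le_abs_self (Real.log ((m:ℝ) / n))
          nlinarith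
        · rw [abs_of_nonpos (by linarith)]
          have h4 : 1 - ((n:ℝ) / m)⁻¹ ≤ Real.log ((n:ℝ) / m) := Real.one_sub_inv_le_log_of_pos (by positivity)
          rw [inv_div] at h4
          have h5 : ((n:ℝ) - m) = n * (1 - m / n) := by field_simp
          have h6 := neg_le_abs (Real.log ((m:ℝ) / n))
          have h7 : Real.log ((n:ℝ) / m) = - Real.log ((m:ℝ) / n) := by rw [← Real.log_inv, inv_div]
          have h8 : 0 ≤ 1 - (m:ℝ) / n := by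
            rw [sub_nonneg, div_le_one hn0]; exact h
          nlinarith [abs_nonneg (Real.log ((m:ℝ) / n))]
      have := sq_le_sq' (by linarith [abs_nonneg ((m:ℝ) - n), mul_nonneg (mul_nonneg two_pos.le hm0.le) (abs_nonneg (Real.log ((m:ℝ) / n)))]) hl
      rw [sq_abs, mul_pow, mul_pow, sq_abs] at this
      linarith
    have hL : 0 < (Real.log ((m:ℝ) / n)) ^ 2 := by
      by_contra hcon
      have : (Real.log ((m:ℝ) / n)) ^ 2 = 0 := le_antisymm (not_lt.1 hcon) (sq_nonneg _)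
      rw [this, mul_zero] at h3
      exact hne (pow_eq_zero_iff (two_ne_zero) |>.1 (le_antisymm h3 (sq_nonneg _)))
    have hd : 0 < ((m:ℝ) - n) ^ 2 := by positivity
    have h4 : ((Real.log ((m:ℝ) / n)) ^ 2)⁻¹ ≤ 4 * m ^ 2 / ((m:ℝ) - n) ^ 2 := by
      rw [inv_le_iff_one_le_mul₀ hL, div_mul_eq_mul_div, le_div_iff₀ hd]
      linarith
    have h5 : 1 ≤ (m:ℝ) ^ 2 / ((m:ℝ) - n) ^ 2 := by
      rw [le_div_iff₀ hd]
      nlinarith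
    have h6 : 1 + ((Real.log ((m:ℝ) / n)) ^ 2)⁻¹ ≤ 9 * (m:ℝ) ^ 2 / ((m:ℝ) - n) ^ 2 := by
      have e : 9 * (m:ℝ) ^ 2 / ((m:ℝ) - n) ^ 2 = 5 * ((m:ℝ) ^ 2 / ((m:ℝ) - n) ^ 2) + 4 * m ^ 2 / ((m:ℝ) - n) ^ 2 := by ring
      rw [e]
      linarith
    calc H⁻¹ ^ 2 * (1 + ((Real.log ((m:ℝ) / n)) ^ 2)⁻¹) ≤ H⁻¹ ^ 2 * (9 * (m:ℝ) ^ 2 / ((m:ℝ) - n) ^ 2) := 
          mul_le_mul_of_nonneg_left h6 (by positivity)
      _ = _ := by rw [div_pow, mul_pow, inv_pow]; field_simp; ring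
  have b1 : 0 ≤ ((m:ℝ) * n) ^ (-(1/2) : ℝ) := by positivity
  have b2 : 0 ≤ min 1 ((Y ^ 2 / ((m:ℝ) * n)) ^ 4) := le_min zero_le_one (by positivity)
  have b3 : 0 ≤ min 1 (H⁻¹ ^ 2 * (1 + ((Real.log ((m:ℝ) / n)) ^ 2)⁻¹)) := le_min zero_le_one (by positivity)
  have b4 : 0 ≤ min 1 ((Y / m) ^ 8) := le_min zero_le_one (by positivity)
  gcongr

lemma q2a_near {C Y H : ℝ} (hC : 0 ≤ C) (hF : ∀ x : ℕ, 1 ≤ x → ∑ n ∈ Finset.Icc 1 x, tau (3/2) n ^ 2 ≤ C * x * (1 + Real.log x) ^ (5/4 : ℝ))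
    (hY : 1 ≤ Y) (hH : 1 ≤ H) (R : ℕ) :
    ∑ m ∈ Finset.Icc 1 R, ∑ n ∈ Finset.Icc 1 R, tau (3/2) m ^ 2 * ((2 / m) * (16 * min 1 ((Y / m) ^ 8)) *
      (if n = m then 0 else min 1 ((3 * m / H) ^ 2 / ((m:ℝ) - n) ^ 2))) ≤ 16000 * C * (Y / H * (1 + Real.log Y) ^ (5/4 : ℝ)) := by
  have hH0 : 0 < H := by linarith
  have h1 : ∀ m ∈ Finset.Icc 1 R, ∑ n ∈ Finset.Icc 1 R, tau (3/2) m ^ 2 * ((2 / m) * (16 * min 1 ((Y / m) ^ 8)) *
      (if n = m then 0 else min 1 ((3 * m / H) ^ 2 / ((m:ℝ) - n) ^ 2))) ≤ (768 / H) * (tau (3/2) m ^ 2 * min 1 ((Y / m) ^ 8)) := by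
    intro m hm
    rw [Finset.mem_Icc] at hm
    have hm0 : (0:ℝ) < m := by exact_mod_cast hm.1
    simp_rw [← mul_assoc]
    rw [← Finset.mul_sum]
    have h2 := q2a_tel2 (A := 3 * m / H) (by positivity) R m
    have b4 : 0 ≤ min 1 ((Y / m) ^ 8) := le_min zero_le_one (by positivity)
    refine (mul_le_mul_of_nonneg_left h2 (by positivity)).trans (le_of_eq ?_)
    field_simp
    ring
  refine (Finset.sum_le_sum h1).trans ?_
  rw [← Finset.mul_sum]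
  have h3 := q2a_dyadic (f := fun n => tau (3/2) n ^ 2) (fun n => sq_nonneg _) (C := C) (β := 1) (a := 5/4) hC (by norm_num) (by norm_num)
    (fun x hx => by rw [Real.rpow_one]; exact hF x hx) 8 (by norm_num) hY R
  rw [Real.rpow_one] at h3
  have e3 : (2:ℝ) ^ ((1:ℝ) + 5/4) ≤ 8 := by
    calc (2:ℝ) ^ ((1:ℝ) + 5/4) ≤ (2:ℝ) ^ (3:ℝ) := Real.rpow_le_rpow_of_exponent_le (by norm_num) (by norm_num)
      _ = 8 := by norm_num
  have hlY : 0 ≤ Real.log Y := Real.log_nonneg hY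
  have h4 : 0 ≤ (1 + Real.log Y) ^ (5/4 : ℝ) := by positivity
  calc (768 / H) * ∑ i ∈ Finset.Icc 1 R, tau (3/2) i ^ 2 * min 1 ((Y / i) ^ 8) 
      ≤ (768 / H) * (C * (2 ^ ((1:ℝ) + 5/4) * 2) * Y * (1 + Real.log Y) ^ (5/4 : ℝ)) := mul_le_mul_of_nonneg_left h3 (by positivity)
    _ ≤ (768 / H) * (C * (8 * 2) * Y * (1 + Real.log Y) ^ (5/4 : ℝ)) := by gcongr
    _ = 12288 * C * (Y / H * (1 + Real.log Y) ^ (5/4 : ℝ)) := by ring
    _ ≤ _ := by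
      have : 0 ≤ C * (Y / H * (1 + Real.log Y) ^ (5/4 : ℝ)) := by positivity
      nlinarith

lemma q2a_term {Y H : ℝ} (hY : 1 ≤ Y) (hH : 1 ≤ H) {m n : ℕ} (hm : 1 ≤ m) (hn : 1 ≤ n) (hmn : m ≠ n) :
    tau (3/2) m * tau (3/2) n * ((m:ℝ) * n) ^ (-(1/2) : ℝ) * min 1 ((Y ^ 2 / ((m:ℝ) * n)) ^ 4) *
        min 1 (H⁻¹ ^ 2 * (1 + ((Real.log ((m:ℝ) / n)) ^ 2)⁻¹)) ≤
      tau (3/2) m ^ 2 * ((2 / m) * (16 * min 1 ((Y / m) ^ 8)) * (if n = m then 0 else min 1 ((3 * m / H) ^ 2 / ((m:ℝ) - n) ^ 2))) +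
      tau (3/2) n ^ 2 * ((2 / n) * (16 * min 1 ((Y / n) ^ 8)) * (if m = n then 0 else min 1 ((3 * n / H) ^ 2 / ((n:ℝ) - m) ^ 2))) +
      4 / H ^ 2 * (q2aF (3/2) m * q2aF (3/2) n * min 1 ((Y ^ 2 / ((m:ℝ) * n)) ^ 4)) := by
  have hm0 : (0:ℝ) < m := by exact_mod_cast hm
  have hn0 : (0:ℝ) < n := by exact_mod_cast hn
  have hH0 : 0 < H := by linarith
  have t1 := tau_nonneg (by norm_num : (0:ℝ) ≤ 3/2) m
  have t2 := tau_nonneg (by norm_num : (0:ℝ) ≤ 3/2) n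
  have f1 := q2aF_nonneg (by norm_num : (0:ℝ) ≤ 3/2) m
  have f2 := q2aF_nonneg (by norm_num : (0:ℝ) ≤ 3/2) n
  have c1 : 0 ≤ min 1 ((Y / m) ^ 8) := le_min zero_le_one (by positivity)
  have c2 : 0 ≤ min 1 ((Y / n) ^ 8) := le_min zero_le_one (by positivity)
  have c3 : 0 ≤ min 1 ((3 * m / H) ^ 2 / ((m:ℝ) - n) ^ 2) := le_min zero_le_one (by positivity)
  have c4 : 0 ≤ min 1 ((3 * n / H) ^ 2 / ((n:ℝ) - m) ^ 2) := le_min zero_le_one (by positivity)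
  have c5 : 0 ≤ min 1 ((Y ^ 2 / ((m:ℝ) * n)) ^ 4) := le_min zero_le_one (by positivity)
  rw [if_neg (Ne.symm hmn), if_neg hmn]
  by_cases hnear : m < 2 * n ∧ n < 2 * m
  · have h1 := q2a_near_term (Y := Y) (H := H) (by linarith) hH hm hn hmn hnear.1 hnear.2
    have h2 := q2a_near_term (Y := Y) (H := H) (by linarith) hH hn hm (Ne.symm hmn) hnear.2 hnear.1
    have e1 : ((n:ℝ) * m) = m * n := mul_comm _ _
    have e2 : (Real.log ((n:ℝ) / m)) ^ 2 = (Real.log ((m:ℝ) / n)) ^ 2 := by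
      rw [show (n:ℝ) / m = ((m:ℝ) / n)⁻¹ by rw [inv_div], Real.log_inv, neg_sq]
    rw [e1, e2] at h2
    set G := ((m:ℝ) * n) ^ (-(1/2) : ℝ) * min 1 ((Y ^ 2 / ((m:ℝ) * n)) ^ 4) * min 1 (H⁻¹ ^ 2 * (1 + ((Real.log ((m:ℝ) / n)) ^ 2)⁻¹)) with hG
    have hG0 : 0 ≤ G := by
      have : 0 ≤ min 1 (H⁻¹ ^ 2 * (1 + ((Real.log ((m:ℝ) / n)) ^ 2)⁻¹)) := le_min zero_le_one (by positivity)
      positivity
    have h3 : tau (3/2) m * tau (3/2) n * ((m:ℝ) * n) ^ (-(1/2) : ℝ) * min 1 ((Y ^ 2 / ((m:ℝ) * n)) ^ 4) *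
        min 1 (H⁻¹ ^ 2 * (1 + ((Real.log ((m:ℝ) / n)) ^ 2)⁻¹)) = tau (3/2) m * tau (3/2) n * G := by rw [hG]; ring
    rw [h3]
    have h4 : tau (3/2) m * tau (3/2) n ≤ tau (3/2) m ^ 2 + tau (3/2) n ^ 2 := by nlinarith [sq_nonneg (tau (3/2) m - tau (3/2) n)]
    have h5 : tau (3/2) m * tau (3/2) n * G ≤ tau (3/2) m ^ 2 * G + tau (3/2) n ^ 2 * G := by
      nlinarith
    have h6 := mul_le_mul_of_nonneg_left h1 (sq_nonneg (tau (3/2) m))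
    have h7 := mul_le_mul_of_nonneg_left h2 (sq_nonneg (tau (3/2) n))
    have h8 : 0 ≤ 4 / H ^ 2 * (q2aF (3/2) m * q2aF (3/2) n * min 1 ((Y ^ 2 / ((m:ℝ) * n)) ^ 4)) := by positivity
    linarith
  · have hL : (0.48 : ℝ) ≤ (Real.log ((m:ℝ) / n)) ^ 2 := by
      have hlog2 : (0.693:ℝ) ≤ Real.log 2 := by have := Real.log_two_gt_d9; linarith
      rw [not_and_or, not_lt, not_lt] at hnear
      rcases hnear with h | h
      · have h1 : (2:ℝ) ≤ (m:ℝ) / n := by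
          rw [le_div_iff₀ hn0]; exact_mod_cast h
        have h2 := Real.log_le_log (by norm_num) h1
        nlinarith
      · have h1 : (2:ℝ) ≤ (n:ℝ) / m := by
          rw [le_div_iff₀ hm0]; exact_mod_cast h
        have h2 := Real.log_le_log (by norm_num) h1
        have e2 : (Real.log ((n:ℝ) / m)) = - (Real.log ((m:ℝ) / n)) := by
          rw [show (n:ℝ) / m = ((m:ℝ) / n)⁻¹ by rw [inv_div], Real.log_inv]
        nlinarith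
    have h1 : min 1 (H⁻¹ ^ 2 * (1 + ((Real.log ((m:ℝ) / n)) ^ 2)⁻¹)) ≤ 4 / H ^ 2 := by
      refine (min_le_right _ _).trans ?_
      have h2 : ((Real.log ((m:ℝ) / n)) ^ 2)⁻¹ ≤ 3 := by
        rw [inv_le_comm₀ (by linarith) (by norm_num)]
        norm_num at hL ⊢
        linarith
      rw [inv_pow, inv_mul_eq_div]
      gcongr
      linarith
    have h2 : tau (3/2) m * tau (3/2) n * ((m:ℝ) * n) ^ (-(1/2) : ℝ) * min 1 ((Y ^ 2 / ((m:ℝ) * n)) ^ 4) *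
        min 1 (H⁻¹ ^ 2 * (1 + ((Real.log ((m:ℝ) / n)) ^ 2)⁻¹)) ≤ 
        tau (3/2) m * tau (3/2) n * ((m:ℝ) * n) ^ (-(1/2) : ℝ) * min 1 ((Y ^ 2 / ((m:ℝ) * n)) ^ 4) * (4 / H ^ 2) :=
      mul_le_mul_of_nonneg_left h1 (by positivity)
    have h3 : tau (3/2) m * tau (3/2) n * ((m:ℝ) * n) ^ (-(1/2) : ℝ) * min 1 ((Y ^ 2 / ((m:ℝ) * n)) ^ 4) * (4 / H ^ 2) =
        4 / H ^ 2 * (q2aF (3/2) m * q2aF (3/2) n * min 1 ((Y ^ 2 / ((m:ℝ) * n)) ^ 4)) := by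
      rw [q2aF_apply, q2aF_apply, Real.mul_rpow hm0.le hn0.le]; ring
    rw [h3] at h2
    have h4 : 0 ≤ tau (3/2) m ^ 2 * ((2 / m) * (16 * min 1 ((Y / m) ^ 8)) * (min 1 ((3 * m / H) ^ 2 / ((m:ℝ) - n) ^ 2))) := by positivity
    have h5 : 0 ≤ tau (3/2) n ^ 2 * ((2 / n) * (16 * min 1 ((Y / n) ^ 8)) * (min 1 ((3 * n / H) ^ 2 / ((n:ℝ) - m) ^ 2))) := by positivity
    linarith

theorem lattice_off : ∃ C : ℝ, 0 < C ∧ ∀ Y H : ℝ, 1 ≤ H → 2 ≤ Y →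
    Summable (fun q : ℕ × ℕ => if q.1 = 0 ∨ q.2 = 0 ∨ q.1 = q.2 then 0 else
      tau (3/2) q.1 * tau (3/2) q.2 * ((q.1:ℝ) * q.2) ^ (-(1/2) : ℝ) * min 1 ((Y ^ 2 / ((q.1:ℝ) * q.2)) ^ 4) *
        min 1 (H⁻¹ ^ 2 * (1 + ((Real.log ((q.1:ℝ) / q.2)) ^ 2)⁻¹))) ∧
    ∑' q : ℕ × ℕ, (if q.1 = 0 ∨ q.2 = 0 ∨ q.1 = q.2 then 0 else
      tau (3/2) q.1 * tau (3/2) q.2 * ((q.1:ℝ) * q.2) ^ (-(1/2) : ℝ) * min 1 ((Y ^ 2 / ((q.1:ℝ) * q.2)) ^ 4) *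
        min 1 (H⁻¹ ^ 2 * (1 + ((Real.log ((q.1:ℝ) / q.2)) ^ 2)⁻¹))) ≤
      C * (Y / H * (1 + Real.log Y) ^ (5/4 : ℝ) + Y * (1 + Real.log Y) ^ 2 / H ^ 2) := by
  obtain ⟨C, hC, hF⟩ := sum_tau_sq_le
  refine ⟨32000 * C + 384, by positivity, fun Y H hH hY => ?_⟩
  have hY1 : 1 ≤ Y := by linarith
  have hH0 : 0 < H := by linarith
  have hlY : 0 ≤ Real.log Y := Real.log_nonneg hY1
  set G : ℕ × ℕ → ℝ := fun q => if q.1 = 0 ∨ q.2 = 0 ∨ q.1 = q.2 then 0 else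
      tau (3/2) q.1 * tau (3/2) q.2 * ((q.1:ℝ) * q.2) ^ (-(1/2) : ℝ) * min 1 ((Y ^ 2 / ((q.1:ℝ) * q.2)) ^ 4) *
        min 1 (H⁻¹ ^ 2 * (1 + ((Real.log ((q.1:ℝ) / q.2)) ^ 2)⁻¹)) with hG
  have hG0 : ∀ q, 0 ≤ G q := by
    intro q
    simp only [hG]
    split_ifs
    · exact le_rfl
    · have t1 := tau_nonneg (by norm_num : (0:ℝ) ≤ 3/2) q.1
      have t2 := tau_nonneg (by norm_num : (0:ℝ) ≤ 3/2) q.2
      have c1 : 0 ≤ min 1 ((Y ^ 2 / ((q.1:ℝ) * q.2)) ^ 4) := le_min zero_le_one (by positivity)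
      have c2 : 0 ≤ min 1 (H⁻¹ ^ 2 * (1 + ((Real.log ((q.1:ℝ) / q.2)) ^ 2)⁻¹)) := le_min zero_le_one (by positivity)
      positivity
  have key : ∀ S : Finset (ℕ × ℕ), ∑ q ∈ S, G q ≤ (32000 * C + 384) * (Y / H * (1 + Real.log Y) ^ (5/4 : ℝ) + Y * (1 + Real.log Y) ^ 2 / H ^ 2) := by
    intro S
    obtain ⟨R, hR⟩ : ∃ R : ℕ, ∀ q ∈ S, q.1 ≤ R ∧ q.2 ≤ R := by
      refine ⟨S.sup (fun q => q.1 + q.2), fun q hq => ?_⟩
      have := Finset.le_sup (f := fun q : ℕ × ℕ => q.1 + q.2) hq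
      have h2 : q.1 + q.2 ≤ S.sup (fun q => q.1 + q.2) := this
      omega
    have h1 : ∑ q ∈ S, G q ≤ ∑ q ∈ Finset.Icc 1 R ×ˢ Finset.Icc 1 R, G q := by
      have h2 : ∑ q ∈ S, G q = ∑ q ∈ S.filter (fun q => q ∈ Finset.Icc 1 R ×ˢ Finset.Icc 1 R), G q := by
        refine (Finset.sum_filter_of_ne fun q hq hne => ?_).symm
        rw [Finset.mem_product, Finset.mem_Icc, Finset.mem_Icc]
        have h3 := hR q hq
        by_contra hcon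
        apply hne
        simp only [hG]
        rw [if_pos]
        omega
      rw [h2]
      refine Finset.sum_le_sum_of_subset_of_nonneg ?_ fun q _ _ => hG0 q
      intro q hq
      exact (Finset.mem_filter.1 hq).2
    refine h1.trans ?_
    have h2 : ∀ q ∈ Finset.Icc 1 R ×ˢ Finset.Icc 1 R, G q ≤ 
        tau (3/2) q.1 ^ 2 * ((2 / (q.1:ℝ)) * (16 * min 1 ((Y / q.1) ^ 8)) * (if q.2 = q.1 then 0 else min 1 ((3 * q.1 / H) ^ 2 / ((q.1:ℝ) - q.2) ^ 2))) +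
        tau (3/2) q.2 ^ 2 * ((2 / (q.2:ℝ)) * (16 * min 1 ((Y / q.2) ^ 8)) * (if q.1 = q.2 then 0 else min 1 ((3 * q.2 / H) ^ 2 / ((q.2:ℝ) - q.1) ^ 2))) +
        4 / H ^ 2 * (q2aF (3/2) q.1 * q2aF (3/2) q.2 * min 1 ((Y ^ 2 / ((q.1:ℝ) * q.2)) ^ 4)) := by
      intro q hq
      rw [Finset.mem_product, Finset.mem_Icc, Finset.mem_Icc] at hq
      by_cases hqq : q.1 = q.2
      · have e : G q = 0 := by simp only [hG]; rw [if_pos]; tauto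
        rw [e, if_pos hqq.symm, if_pos hqq]
        have f1 := q2aF_nonneg (by norm_num : (0:ℝ) ≤ 3/2) q.1
        have f2 := q2aF_nonneg (by norm_num : (0:ℝ) ≤ 3/2) q.2
        have c5 : 0 ≤ min 1 ((Y ^ 2 / ((q.1:ℝ) * q.2)) ^ 4) := le_min zero_le_one (by positivity)
        simp only [mul_zero, zero_add]
        positivity
      · have e : G q = tau (3/2) q.1 * tau (3/2) q.2 * ((q.1:ℝ) * q.2) ^ (-(1/2) : ℝ) * min 1 ((Y ^ 2 / ((q.1:ℝ) * q.2)) ^ 4) *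
            min 1 (H⁻¹ ^ 2 * (1 + ((Real.log ((q.1:ℝ) / q.2)) ^ 2)⁻¹)) := by
          simp only [hG]; rw [if_neg]; omega
        rw [e]
        exact q2a_term hY1 hH hq.1.1 hq.2.1 hqq
    refine (Finset.sum_le_sum h2).trans ?_
    rw [Finset.sum_add_distrib, Finset.sum_add_distrib, ← Finset.mul_sum]
    have s1 := q2a_near (C := C) (Y := Y) (H := H) hC.le hF hY1 hH R
    have s3 := q2a_far hY1 R
    rw [Finset.sum_product]
    rw [Finset.sum_product_right (f := fun q : ℕ × ℕ => tau (3/2) q.2 ^ 2 * ((2 / (q.2:ℝ)) * (16 * min 1 ((Y / q.2) ^ 8)) * (if q.1 = q.2 then 0 else min 1 ((3 * q.2 / H) ^ 2 / ((q.2:ℝ) - q.1) ^ 2))))]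
    have s4 := mul_le_mul_of_nonneg_left s3 (by positivity : 0 ≤ 4 / H ^ 2)
    have e5 : 4 / H ^ 2 * (96 * Y * (1 + Real.log Y) ^ 2) = 384 * (Y * (1 + Real.log Y) ^ 2 / H ^ 2) := by ring
    rw [e5] at s4
    have p1 : 0 ≤ Y / H * (1 + Real.log Y) ^ (5/4 : ℝ) := by positivity
    have p2 : 0 ≤ Y * (1 + Real.log Y) ^ 2 / H ^ 2 := by positivity
    have p3 : 0 ≤ C * (Y * (1 + Real.log Y) ^ 2 / H ^ 2) := by positivity
    calc _ ≤ 16000 * C * (Y / H * (1 + Real.log Y) ^ (5/4 : ℝ)) + 16000 * C * (Y / H * (1 + Real.log Y) ^ (5/4 : ℝ)) + 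
          384 * (Y * (1 + Real.log Y) ^ 2 / H ^ 2) := add_le_add (add_le_add s1 s1) s4
      _ ≤ _ := by nlinarith
  exact ⟨summable_of_sum_le hG0 key, Real.tsum_le_of_sum_le hG0 key⟩

end Pool.Agent.LibM3
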