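import Pool.Agent.LibM3.Defs

/-! Third moment, block Z: the kernel of the constant. -/

set_option autoImplicit false

namespace Pool.Agent.LibM3

open MeasureTheory Set Filter Topology Complex ProbabilityTheory
open scoped NNReal ComplexConjugate
open Pool.Agent.LibZM

/-- The kernel `1/2 + (1/π) log |cot (π x)|`. -/
noncomputable def Kc (x : ℝ) : ℝ := 1/2 + (1 / Real.pi) * Real.log |Real.cos (Real.pi * x) / Real.sin (Real.pi * x)|

/-- The constant as an integral. -/
noncomputable def CI : ℝ :=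
  (1 / (Real.pi * Real.Gamma (1/4))) * ∫ v in (0:ℝ)..(1/2), v ^ (-(3/4) : ℝ) *
    ∫ r in (0:ℝ)..(1/2 - v), ∫ r' in (0:ℝ)..(1/2 - v), (r * r') ^ (-(1/2) : ℝ) * Kc (r - r') * (1 - r - r')

end Pool.Agent.LibM3
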